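import Pool.Agent.H314.DN.AbsDefs

set_option autoImplicit false

namespace DbarC.JAB
open DbarN

/-- generalised inverse of a closed relation -/
theorem absN_ginv {H K : Type*} [NormedAddCommGroup H] [InnerProductSpace ℂ H] [CompleteSpace H]
    [NormedAddCommGroup K] [InnerProductSpace ℂ K] [CompleteSpace K]
    (T : Submodule ℂ (H × K)) (hTc : IsClosed (T : Set (H × K)))
    (M : Submodule ℂ K) (hMc : IsClosed (M : Set K)) (C : ℝ)
    (h : ∀ g ∈ M, ∃ f, (f, g) ∈ T ∧ ‖f‖ ≤ C * ‖g‖) :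
    ∃ A : K →L[ℂ] H, (∀ g ∈ M, (A g, g) ∈ T) ∧
      (∀ g, ∀ h, (h, (0 : K)) ∈ T → inner ℂ h (A g) = 0) ∧
      (∀ g, (∀ m ∈ M, inner ℂ m g = 0) → A g = 0) := by
  classical
  let N0 : Submodule ℂ H := T.comap (LinearMap.inl ℂ H K)
  have hN0mem : ∀ x, x ∈ N0 ↔ (x, (0 : K)) ∈ T := fun x => by
    simp [N0, Submodule.mem_comap]
  have hN0c : IsClosed (N0 : Set H) := by
    have : (N0 : Set H) = (fun x : H => (x, (0 : K))) ⁻¹' (T : Set (H × K)) := by
      ext x; exact hN0mem x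
    rw [this]
    exact hTc.preimage (by fun_prop)
  haveI : CompleteSpace N0 := hN0c.completeSpace_coe
  haveI : CompleteSpace M := hMc.completeSpace_coe
  have hex : ∀ g : M, ∃ f, (f, (g : K)) ∈ T ∧ (∀ x ∈ N0, inner ℂ x f = 0) ∧ ‖f‖ ≤ C * ‖g‖ := by
    intro g
    obtain ⟨f, hf, hfn⟩ := h g g.2
    refine ⟨f - N0.starProjection f, ?_, ?_, ?_⟩
    · have h1 : (N0.starProjection f, (0 : K)) ∈ T := (hN0mem _).1 (N0.starProjection_apply_mem f)
      have := T.sub_mem hf h1
      simpa using this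
    · intro x hx
      rw [← inner_conj_symm, N0.starProjection_inner_eq_zero f x hx, map_zero]
    · have h2 : ‖f - N0.starProjection f‖ ≤ ‖f‖ := by
        rw [← N0.starProjection_orthogonal_val f]
        exact Submodule.norm_starProjection_apply_le _ _
      exact h2.trans hfn
  choose F hF1 hF2 hF3 using hex
  have huniq : ∀ (g : K) (f1 f2 : H), (f1, g) ∈ T → (f2, g) ∈ T →
      (∀ x ∈ N0, inner ℂ x f1 = 0) → (∀ x ∈ N0, inner ℂ x f2 = 0) → f1 = f2 := by
    intro g f1 f2 a1 a2 b1 b2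
    have hd : f1 - f2 ∈ N0 := by
      rw [hN0mem]
      have := T.sub_mem a1 a2
      simpa using this
    have : inner ℂ (f1 - f2) (f1 - f2) = 0 := by
      rw [inner_sub_right, b1 _ hd, b2 _ hd, sub_zero]
    exact sub_eq_zero.1 (inner_self_eq_zero.1 this)
  let L : M →ₗ[ℂ] H :=
    { toFun := F
      map_add' := by
        intro x y
        refine huniq ((x + y : M) : K) _ _ (hF1 _) ?_ (hF2 _) ?_
        · have := T.add_mem (hF1 x) (hF1 y)
          simpa using this
        · intro z hz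
          rw [inner_add_right, hF2 _ _ hz, hF2 _ _ hz, add_zero]
      map_smul' := by
        intro c x
        refine huniq ((c • x : M) : K) _ _ (hF1 _) ?_ (hF2 _) ?_
        · have := T.smul_mem c (hF1 x)
          simpa using this
        · intro z hz
          simp [inner_smul_right, hF2 _ _ hz] }
  let Lc : M →L[ℂ] H := L.mkContinuous C (fun x => hF3 x)
  have hLc : ∀ x, Lc x = F x := fun x => rfl
  refine ⟨Lc.comp M.orthogonalProjectionOnto, ?_, ?_, ?_⟩
  · intro g hg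
    have : M.orthogonalProjectionOnto g = ⟨g, hg⟩ :=
      Submodule.orthogonalProjectionOnto_mem_subspace_eq_self (⟨g, hg⟩ : M)
    rw [ContinuousLinearMap.comp_apply, this, hLc]
    exact hF1 ⟨g, hg⟩
  · intro g x hx
    rw [ContinuousLinearMap.comp_apply, hLc]
    exact hF2 _ x ((hN0mem x).2 hx)
  · intro g hg
    have : M.orthogonalProjectionOnto g = 0 := by
      rw [Submodule.orthogonalProjectionOnto_eq_zero_iff, Submodule.mem_orthogonal]
      exact hg
    rw [ContinuousLinearMap.comp_apply, this, map_zero]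

/-- compactness from approximate finite rank estimates -/
theorem absN_cpt {H K : Type*} [NormedAddCommGroup H] [InnerProductSpace ℂ H] [CompleteSpace H]
    [NormedAddCommGroup K] [InnerProductSpace ℂ K] [CompleteSpace K] (A : H →L[ℂ] K)
    (hA : ∀ ε : ℝ, 0 < ε → ∃ (n : ℕ) (ψ : Fin n → (H →L[ℂ] ℂ)), ∀ v,
      ‖A v‖ ^ 2 ≤ ε * ‖v‖ ^ 2 + ∑ i, ‖ψ i v‖ ^ 2) : IsCompactOperator A := by
  have key : ∀ ε : ℝ, 0 < ε → ∃ B : H →L[ℂ] K, IsCompactOperator B ∧ ‖A - B‖ ≤ ε := by
    intro ε hε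
    obtain ⟨n, ψ, hψ⟩ := hA (ε ^ 2) (by positivity)
    let x : Fin n → H := fun i => (InnerProductSpace.toDual ℂ H).symm (ψ i)
    have hx : ∀ i v, inner ℂ (x i) v = ψ i v := fun i v => by
      simp [x]
    let W : Submodule ℂ H := Submodule.span ℂ (Set.range x)
    haveI : FiniteDimensional ℂ W := FiniteDimensional.span_of_finite ℂ (Set.finite_range x)
    refine ⟨A.comp W.starProjection, ?_, ?_⟩
    · have h1 : IsCompactOperator (W.orthogonalProjectionOnto) := by
        haveI : ProperSpace W := FiniteDimensional.proper ℂ W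
        exact isCompactOperator_of_locallyCompactSpace_dom (M₂ := W) (W.orthogonalProjectionOnto)
      have h2 := h1.clm_comp (A.comp W.subtypeL)
      exact h2
    · refine ContinuousLinearMap.opNorm_le_bound _ hε.le ?_
      intro v
      have e1 : (A - A.comp W.starProjection) v = A (v - W.starProjection v) := by
        simp
      rw [e1]
      have e2 := hψ (v - W.starProjection v)
      have e3 : ∀ i, ψ i (v - W.starProjection v) = 0 := by
        intro i
        rw [← hx, ← inner_conj_symm, W.starProjection_inner_eq_zero v (x i)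
          (Submodule.subset_span ⟨i, rfl⟩), map_zero]
      simp only [e3, norm_zero, ne_eq, OfNat.ofNat_ne_zero, not_false_eq_true, zero_pow,
        Finset.sum_const_zero, add_zero] at e2
      have e4 : ‖v - W.starProjection v‖ ≤ ‖v‖ := by
        rw [← W.starProjection_orthogonal_val v]
        exact Submodule.norm_starProjection_apply_le _ _
      have e5 : ‖A (v - W.starProjection v)‖ ^ 2 ≤ (ε * ‖v‖) ^ 2 := by
        refine e2.trans ?_
        rw [mul_pow]
        gcongr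
      exact (sq_le_sq₀ (norm_nonneg _) (by positivity)).1 e5
  have hcl := isClosed_setOfPred_isCompactOperator (𝕜₁ := ℂ) (𝕜₂ := ℂ) (σ₁₂ := RingHom.id ℂ)
    (M₁ := H) (M₂ := K)
  have : A ∈ closure { f : H →L[ℂ] K | IsCompactOperator f } := by
    rw [Metric.mem_closure_iff]
    intro ε hε
    obtain ⟨B, hB, hAB⟩ := key (ε / 2) (by positivity)
    refine ⟨B, hB, ?_⟩
    rw [dist_eq_norm]
    linarith
  rw [hcl.closure_eq] at this
  exact this

section
variable {H0 H1 H2 : Type*} [NormedAddCommGroup H0] [InnerProductSpace ℂ H0] [CompleteSpace H0]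
  [NormedAddCommGroup H1] [InnerProductSpace ℂ H1] [CompleteSpace H1]
  [NormedAddCommGroup H2] [InnerProductSpace ℂ H2] [CompleteSpace H2]

/-- compact inverse of the Laplacian from compactness estimates -/
theorem absN (T : Submodule ℂ (H0 × H1)) (S : Submodule ℂ (H1 × H2)) (Z : Submodule ℂ H2)
    (hTc : IsClosed (T : Set (H0 × H1))) (hSc : IsClosed (S : Set (H1 × H2)))
    (hZc : IsClosed (Z : Set H2))
    (hST : ∀ f g, (f, g) ∈ T → (g, (0 : H2)) ∈ S) (hSZ : ∀ u c, (u, c) ∈ S → c ∈ Z)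
    (C : ℝ) (hC : 0 ≤ C)
    (h1 : ∀ u, (u, (0 : H2)) ∈ S → ∃ f, (f, u) ∈ T ∧ ‖f‖ ≤ C * ‖u‖)
    (h2 : ∀ c ∈ Z, ∃ v, (v, c) ∈ S ∧ ‖v‖ ≤ C * ‖c‖)
    (F1 : ∀ ε : ℝ, 0 < ε → ∃ (n : ℕ) (φ : Fin n → (H0 →L[ℂ] ℂ)), ∀ f g, (f, g) ∈ T →
      (∀ h, (h, (0 : H1)) ∈ T → inner ℂ h f = 0) → ‖f‖ ^ 2 ≤ ε * ‖g‖ ^ 2 + ∑ i, ‖φ i f‖ ^ 2)
    (F2 : ∀ ε : ℝ, 0 < ε → ∃ (n : ℕ) (φ : Fin n → (H2 →L[ℂ] ℂ)), ∀ c ∈ Z, ∀ w, AdjR S c w →
      ‖c‖ ^ 2 ≤ ε * ‖w‖ ^ 2 + ∑ i, ‖φ i c‖ ^ 2) :
    ∃ N : H1 →L[ℂ] H1, (∀ v, BoxR T S (N v) v) ∧ (∀ u w, BoxR T S u w → N w = u) ∧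
      IsCompactOperator N := by
  classical
  let KS : Submodule ℂ H1 := S.comap (LinearMap.inl ℂ H1 H2)
  have hKS : ∀ x, x ∈ KS ↔ (x, (0 : H2)) ∈ S := fun x => by
    simp [KS, Submodule.mem_comap]
  have hKSc : IsClosed (KS : Set H1) := by
    have : (KS : Set H1) = (fun x : H1 => (x, (0 : H2))) ⁻¹' (S : Set (H1 × H2)) := by
      ext x; exact hKS x
    rw [this]
    exact hSc.preimage (by fun_prop)
  haveI : CompleteSpace KS := hKSc.completeSpace_coe
  haveI : CompleteSpace Z := hZc.completeSpace_coe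
  obtain ⟨K1, hK1a, hK1b, hK1c⟩ := absN_ginv T hTc KS hKSc C
    (fun g hg => h1 g ((hKS g).1 hg))
  obtain ⟨K2, hK2a, hK2b, hK2c⟩ := absN_ginv S hSc Z hZc C h2
  let P : H1 →L[ℂ] H1 := KS.starProjection
  have hPmem : ∀ v, P v ∈ KS := fun v => KS.starProjection_apply_mem v
  have hPor : ∀ v, ∀ m ∈ KS, inner ℂ m (v - P v) = 0 := by
    intro v m hm
    rw [← inner_conj_symm, KS.starProjection_inner_eq_zero v m hm, map_zero]
  have hK1P : ∀ v, K1 (P v) = K1 v := by
    intro v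
    have := hK1c (v - P v) (hPor v)
    rw [map_sub, sub_eq_zero] at this
    exact this.symm
  have hPn : ∀ v, ‖P v‖ ≤ ‖v‖ := fun v => Submodule.norm_starProjection_apply_le _ _
  have hQn : ∀ v, ‖v - P v‖ ≤ ‖v‖ := by
    intro v
    show ‖v - KS.starProjection v‖ ≤ ‖v‖
    rw [← KS.starProjection_orthogonal_val v]
    exact Submodule.norm_starProjection_apply_le _ _
  -- K1† maps into KS
  have hA1 : ∀ f, ContinuousLinearMap.adjoint K1 f ∈ KS := by
    intro f
    have : ContinuousLinearMap.adjoint K1 f ∈ KSᗮᗮ := by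
      rw [Submodule.mem_orthogonal]
      intro w hw
      rw [ContinuousLinearMap.adjoint_inner_right, hK1c w ((Submodule.mem_orthogonal _ _).1 hw),
        inner_zero_left]
    rwa [Submodule.orthogonal_orthogonal] at this
  have hA2 : ∀ u, ContinuousLinearMap.adjoint K2 u ∈ Z := by
    intro f
    have : ContinuousLinearMap.adjoint K2 f ∈ Zᗮᗮ := by
      rw [Submodule.mem_orthogonal]
      intro w hw
      rw [ContinuousLinearMap.adjoint_inner_right, hK2c w ((Submodule.mem_orthogonal _ _).1 hw),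
        inner_zero_left]
    rwa [Submodule.orthogonal_orthogonal] at this
  have hadj2 : ∀ v, AdjR S (ContinuousLinearMap.adjoint K2 v) (v - P v) := by
    rintro v ⟨p, q⟩ hpq
    have hq : q ∈ Z := hSZ _ _ hpq
    have hk : (K2 q, q) ∈ S := hK2a q hq
    have hd : p - K2 q ∈ KS := by
      rw [hKS]
      have := S.sub_mem hpq hk
      simpa using this
    show inner ℂ q (ContinuousLinearMap.adjoint K2 v) = inner ℂ p (v - P v)
    rw [ContinuousLinearMap.adjoint_inner_right]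
    have e1 : inner ℂ (p - K2 q) (v - P v) = 0 := hPor v _ hd
    rw [inner_sub_left, sub_eq_zero] at e1
    rw [e1, inner_sub_right]
    have e2 : inner ℂ (K2 q) (P v) = 0 := by
      rw [← inner_conj_symm, hK2b q (P v) ((hKS _).1 (hPmem v)), map_zero]
    rw [e2, sub_zero]
  let N : H1 →L[ℂ] H1 := (ContinuousLinearMap.adjoint K1).comp K1 +
    K2.comp (ContinuousLinearMap.adjoint K2)
  have hN : ∀ v, N v = ContinuousLinearMap.adjoint K1 (K1 v) +
      K2 (ContinuousLinearMap.adjoint K2 v) := fun v => rfl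
  have hbox : ∀ v, BoxR T S (N v) v := by
    intro v
    refine ⟨K1 v, ContinuousLinearMap.adjoint K2 v, P v, v - P v, ?_, ?_, ?_, hadj2 v, by abel⟩
    · rintro ⟨h, g⟩ hhg
      have hg : g ∈ KS := (hKS g).2 (hST _ _ hhg)
      have hk : (K1 g, g) ∈ T := hK1a g hg
      have hd : (h - K1 g, (0 : H1)) ∈ T := by
        have := T.sub_mem hhg hk
        simpa using this
      show inner ℂ g (N v) = inner ℂ h (K1 v)
      rw [hN, inner_add_right, ContinuousLinearMap.adjoint_inner_right,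
        hK2b _ g ((hKS g).1 hg), add_zero]
      have e1 := hK1b v _ hd
      rw [inner_sub_left, sub_eq_zero] at e1
      exact e1.symm
    · have e1 : (ContinuousLinearMap.adjoint K1 (K1 v), (0 : H2)) ∈ S := (hKS _).1 (hA1 _)
      have e2 := hK2a _ (hA2 v)
      have := S.add_mem e1 e2
      rw [hN]
      simpa using this
    · have := hK1a _ (hPmem v)
      rwa [hK1P] at this
  have hzero : ∀ u, BoxR T S u 0 → u = 0 := by
    rintro u ⟨f, c, g₁, g₂, b1, b2, b3, b4, b5⟩
    have c1 : inner ℂ g₁ u = inner ℂ f f := b1 (f, g₁) b3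
    have c2 : inner ℂ c c = inner ℂ u g₂ := b4 (u, c) b2
    have c3 : inner ℂ u g₁ = inner ℂ f f := by
      rw [← inner_conj_symm, c1, inner_conj_symm]
    have c4 : inner ℂ f f + inner ℂ c c = (0 : ℂ) := by
      rw [c2, ← c3, ← inner_add_right, ← b5, inner_zero_right]
    rw [inner_self_eq_norm_sq_to_K, inner_self_eq_norm_sq_to_K] at c4
    have c5 : ‖f‖ ^ 2 + ‖c‖ ^ 2 = 0 := by
      have := congrArg Complex.re c4
      norm_cast at this
    have c6 : ‖c‖ = 0 := by nlinarith [sq_nonneg ‖f‖, sq_nonneg ‖c‖]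
    have c7 : ‖f‖ = 0 := by nlinarith [sq_nonneg ‖f‖, sq_nonneg ‖c‖]
    rw [norm_eq_zero] at c6 c7
    subst c6 c7
    obtain ⟨f', hf', -⟩ := h1 u b2
    have c8 : inner ℂ u u = inner ℂ f' (0 : H0) := b1 (f', u) hf'
    rw [inner_zero_right] at c8
    exact inner_self_eq_zero.1 c8
  have hsub : ∀ u u' w w', BoxR T S u w → BoxR T S u' w' → BoxR T S (u - u') (w - w') := by
    rintro u u' w w' ⟨f, c, g₁, g₂, b1, b2, b3, b4, b5⟩ ⟨f', c', g₁', g₂', d1, d2, d3, d4, d5⟩
    refine ⟨f - f', c - c', g₁ - g₁', g₂ - g₂', ?_, ?_, ?_, ?_, ?_⟩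
    · intro p hp
      rw [inner_sub_right, inner_sub_right, b1 p hp, d1 p hp]
    · exact S.sub_mem b2 d2
    · exact T.sub_mem b3 d3
    · intro p hp
      rw [inner_sub_right, inner_sub_right, b4 p hp, d4 p hp]
    · rw [b5, d5]; abel
  have hc1 : IsCompactOperator K1 := by
    refine absN_cpt K1 ?_
    intro ε hε
    obtain ⟨n, φ, hφ⟩ := F1 ε hε
    refine ⟨n, fun i => (φ i).comp K1, ?_⟩
    intro v
    have e0 := hK1a _ (hPmem v)
    rw [hK1P] at e0
    have e1 := hφ (K1 v) (P v) e0 (fun h hh => hK1b v h hh)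
    refine e1.trans ?_
    have e2 : ε * ‖P v‖ ^ 2 ≤ ε * ‖v‖ ^ 2 := by
      have := hPn v
      gcongr
    simpa using e2
  have hc2 : IsCompactOperator (ContinuousLinearMap.adjoint K2) := by
    refine absN_cpt _ ?_
    intro ε hε
    obtain ⟨n, φ, hφ⟩ := F2 ε hε
    refine ⟨n, fun i => (φ i).comp (ContinuousLinearMap.adjoint K2), ?_⟩
    intro v
    have e1 := hφ _ (hA2 v) (v - P v) (hadj2 v)
    refine e1.trans ?_
    have e2 : ε * ‖v - P v‖ ^ 2 ≤ ε * ‖v‖ ^ 2 := by
      have := hQn v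
      gcongr
    simpa using e2
  refine ⟨N, hbox, ?_, ?_⟩
  · intro u w huw
    have := hzero _ (by simpa using hsub _ _ _ _ (hbox w) huw)
    exact sub_eq_zero.1 this
  · have e1 : IsCompactOperator ((ContinuousLinearMap.adjoint K1) ∘ K1) :=
      hc1.clm_comp (ContinuousLinearMap.adjoint K1)
    have e2 : IsCompactOperator (K2 ∘ (ContinuousLinearMap.adjoint K2)) := hc2.clm_comp K2
    exact e1.add e2

end

end DbarC.JAB
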