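import Pool.Agent.H314.DC.St1
import Pool.Agent.H314.DN.G0
import Pool.Agent.H314.DN.G4

set_option autoImplicit false

open MeasureTheory Complex Filter Topology
open scoped ContDiff InnerProductSpace ENNReal ComplexConjugate

namespace DbarC.JAC
open DbarN

theorem f1_aux_bound (Ω : Set E3) (ho : IsOpen Ω) {C1 : ℝ}
    (hC : ∀ u : Form Ω, IsDbar1 Ω u 0 → ∃ f : L2 Ω, IsDbar0 Ω f u ∧ ‖f‖ ≤ C1 * ‖u‖)
    (f : L2 Ω) (g : Form Ω) (hfg : IsDbar0 Ω f g)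
    (horth : ∀ h : L2 Ω, IsDbar0 Ω h 0 → inner ℂ h f = 0) : ‖f‖ ≤ C1 * ‖g‖ := by
  obtain ⟨f', hf', hn⟩ := hC g (DbarN.JG4.dbar_dbar Ω ho f g hfg)
  obtain ⟨T, hT, -⟩ := DbarN.JG0.graph0 Ω ho
  have h1 : (f' - f, (0 : Form Ω)) ∈ T := by
    have := T.sub_mem ((hT _ _).2 hf') ((hT _ _).2 hfg)
    simpa using this
  have h2 := horth _ ((hT _ _).1 h1)
  rw [inner_sub_left, sub_eq_zero] at h2
  refine le_trans ?_ hn
  have h3 : ‖f‖ ^ 2 ≤ ‖f'‖ * ‖f‖ := by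
    have h4 : ‖(inner ℂ f f : ℂ)‖ = ‖f‖ ^ 2 := by
      rw [inner_self_eq_norm_sq_to_K]
      simp
    rw [← h4, ← h2]
    exact norm_inner_le_norm _ _
  rcases (norm_nonneg f).eq_or_lt with h | h
  · rw [← h]
    exact norm_nonneg _
  · nlinarith

theorem f1 (Ω : Set E3) (ho : IsOpen Ω) (hH : Hor1S_prop Ω) (hF : FI1_prop Ω) (hR : RE1_stmt) :
    ∀ ε : ℝ, 0 < ε → ∃ (n : ℕ) (φ : Fin n → (L2 Ω →L[ℂ] ℂ)), ∀ (f : L2 Ω) (g : Form Ω),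
      IsDbar0 Ω f g → (∀ h : L2 Ω, IsDbar0 Ω h 0 → inner ℂ h f = 0) →
      ‖f‖ ^ 2 ≤ ε * ‖g‖ ^ 2 + ∑ i, ‖φ i f‖ ^ 2 := by
  intro ε hε
  obtain ⟨C1, hC1, hH1⟩ := hH
  obtain ⟨K, C, hK, hKΩ, hC0, hFI⟩ := hF (ε / (4 * (C1 + 1))) (by positivity)
  obtain ⟨n, φ, hφ⟩ := hR Ω ho K hK hKΩ (ε ^ 2 / (4 * (C ^ 2 + 1) * (C1 ^ 2 + 1))) (by positivity)
  refine ⟨n, fun i => ((C / Real.sqrt ε : ℝ) : ℂ) • φ i, ?_⟩
  intro f g hfg horth
  have hb := f1_aux_bound Ω ho hH1 f g hfg horth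
  have h1 := hFI f g hfg horth
  have h2 := hφ f g hfg
  set a : ℝ := ∫ x in K, ‖f x‖ ^ 2 with ha
  have ha0 : 0 ≤ a := integral_nonneg fun x => by positivity
  have hS : ∑ i, ‖(((C / Real.sqrt ε : ℝ) : ℂ) • φ i) f‖ ^ 2 =
      C ^ 2 / ε * ∑ i, ‖φ i f‖ ^ 2 := by
    rw [Finset.mul_sum]
    refine Finset.sum_congr rfl fun i _ => ?_
    rw [ContinuousLinearMap.smul_apply, norm_smul, mul_pow, Complex.norm_real, Real.norm_eq_abs,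
      sq_abs, div_pow, Real.sq_sqrt hε.le]
  rw [hS]
  set S : ℝ := ∑ i, ‖φ i f‖ ^ 2 with hSdef
  set x := ‖f‖ with hx
  set y := ‖g‖ with hy
  have hx0 : 0 ≤ x := norm_nonneg _
  have hy0 : 0 ≤ y := norm_nonneg _
  -- the first term
  have e1 : C * Real.sqrt a * y ≤ C ^ 2 / ε * a + ε / 4 * y ^ 2 := by
    have hs : Real.sqrt a ^ 2 = a := Real.sq_sqrt ha0
    have h3 : 0 ≤ (C * Real.sqrt a - ε / 2 * y) ^ 2 / ε := by positivity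
    have h4 : (C * Real.sqrt a - ε / 2 * y) ^ 2 / ε =
        C ^ 2 / ε * a + ε / 4 * y ^ 2 - C * Real.sqrt a * y := by
      rw [← hs]
      rw [hs]
      field_simp
      rw [show (C * Real.sqrt a * 2 - ε * y) ^ 2 = C ^ 2 * Real.sqrt a ^ 2 * 4 -
        4 * C * Real.sqrt a * ε * y + ε ^ 2 * y ^ 2 by ring, hs]
      ring
    linarith
  have e2 : ε / (4 * (C1 + 1)) * x * y ≤ ε / 4 * y ^ 2 := by
    have h3 : x * y ≤ C1 * y * y := mul_le_mul_of_nonneg_right hb hy0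
    have h4 : ε / (4 * (C1 + 1)) * x * y ≤ ε / (4 * (C1 + 1)) * (C1 * y * y) := by
      rw [mul_assoc]
      exact mul_le_mul_of_nonneg_left h3 (by positivity)
    refine h4.trans ?_
    have h5 : ε / (4 * (C1 + 1)) * (C1 * y * y) = ε / 4 * y ^ 2 * (C1 / (C1 + 1)) := by
      field_simp
    rw [h5]
    have h6 : C1 / (C1 + 1) ≤ 1 := by
      rw [div_le_one (by linarith)]
      linarith
    exact mul_le_of_le_one_right (by positivity) h6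
  have e3 : x ^ 2 + y ^ 2 ≤ (C1 ^ 2 + 1) * y ^ 2 := by
    have := pow_le_pow_left₀ hx0 hb 2
    rw [mul_pow] at this
    linarith
  have e4 : C ^ 2 / ε * a ≤ ε / 4 * y ^ 2 + C ^ 2 / ε * S := by
    have h3 : a ≤ ε ^ 2 / (4 * (C ^ 2 + 1) * (C1 ^ 2 + 1)) * ((C1 ^ 2 + 1) * y ^ 2) + S := by
      refine h2.trans ?_
      have := mul_le_mul_of_nonneg_left e3
        (show 0 ≤ ε ^ 2 / (4 * (C ^ 2 + 1) * (C1 ^ 2 + 1)) by positivity)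
      linarith
    have h4 := mul_le_mul_of_nonneg_left h3 (show 0 ≤ C ^ 2 / ε by positivity)
    refine h4.trans ?_
    rw [mul_add]
    have h5 : C ^ 2 / ε * (ε ^ 2 / (4 * (C ^ 2 + 1) * (C1 ^ 2 + 1)) * ((C1 ^ 2 + 1) * y ^ 2)) =
        ε / 4 * y ^ 2 * (C ^ 2 / (C ^ 2 + 1)) := by
      field_simp
    rw [h5]
    have h6 : C ^ 2 / (C ^ 2 + 1) ≤ 1 := by
      rw [div_le_one (by positivity)]
      linarith
    have h7 := mul_le_of_le_one_right (show 0 ≤ ε / 4 * y ^ 2 by positivity) h6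
    linarith
  have e5 : 0 ≤ ε / 4 * y ^ 2 := by positivity
  linarith

theorem f2 (Ω : Set E3) (ho : IsOpen Ω) (hF : FI2_prop Ω) (hR : RE2_stmt) :
    ∀ ε : ℝ, 0 < ε → ∃ (n : ℕ) (φ : Fin n → (Form Ω →L[ℂ] ℂ)), ∀ c : Form Ω,
      (∀ ψ, IsTest Ω ψ → ∫ x in Ω, ∑ i : Fin 3, c i x * dbar i ψ x = 0) →
      ∀ w, IsAdj1 Ω c w → ‖c‖ ^ 2 ≤ ε * ‖w‖ ^ 2 + ∑ i, ‖φ i c‖ ^ 2 := by
  intro ε hε
  obtain ⟨K, C, hK, hKΩ, hFI⟩ := hF (ε / 4) (by positivity)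
  let C' : ℝ := max C 0
  have hC' : 0 ≤ C' := le_max_right _ _
  have hCC' : C ≤ C' := le_max_left _ _
  let δ : ℝ := min (ε / (4 * (C' + 1))) (ε ^ 2 / (8 * (C' + 1)))
  have hδ : 0 < δ := lt_min (by positivity) (by positivity)
  have hδ1 : C' / ε * δ ≤ 1 / 4 := by
    calc C' / ε * δ ≤ C' / ε * (ε / (4 * (C' + 1))) :=
          mul_le_mul_of_nonneg_left (min_le_left _ _) (by positivity)
      _ = 1 / 4 * (C' / (C' + 1)) := by field_simp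
      _ ≤ 1 / 4 * 1 := by
          apply mul_le_mul_of_nonneg_left _ (by norm_num)
          rw [div_le_one (by positivity)]
          linarith
      _ = 1 / 4 := by ring
  have hδ2 : C' / ε * δ ≤ ε / 8 := by
    calc C' / ε * δ ≤ C' / ε * (ε ^ 2 / (8 * (C' + 1))) :=
          mul_le_mul_of_nonneg_left (min_le_right _ _) (by positivity)
      _ = ε / 8 * (C' / (C' + 1)) := by field_simp
      _ ≤ ε / 8 * 1 := by
          apply mul_le_mul_of_nonneg_left _ (by positivity)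
          rw [div_le_one (by positivity)]
          linarith
      _ = ε / 8 := by ring
  obtain ⟨n, φ, hφ⟩ := hR Ω ho K hK hKΩ δ hδ
  refine ⟨n, fun i => ((Real.sqrt (2 * C' / ε) : ℝ) : ℂ) • φ i, ?_⟩
  intro c hc w hw
  have h2 := hφ c w hc hw
  obtain ⟨v, hv, hvn⟩ := hFI c hc
  have h1 := hw v c hv
  set a : ℝ := ∑ j, ∫ x in K, ‖c j x‖ ^ 2 with ha
  have ha0 : 0 ≤ a := Finset.sum_nonneg fun j _ => integral_nonneg fun x => by positivity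
  have hS : ∑ i, ‖(((Real.sqrt (2 * C' / ε) : ℝ) : ℂ) • φ i) c‖ ^ 2 =
      2 * C' / ε * ∑ i, ‖φ i c‖ ^ 2 := by
    rw [Finset.mul_sum]
    refine Finset.sum_congr rfl fun i _ => ?_
    rw [ContinuousLinearMap.smul_apply, norm_smul, mul_pow, Complex.norm_real, Real.norm_eq_abs,
      sq_abs, Real.sq_sqrt (by positivity)]
  rw [hS]
  set S : ℝ := ∑ i, ‖φ i c‖ ^ 2 with hSdef
  have hS0 : 0 ≤ S := Finset.sum_nonneg fun i _ => by positivity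
  have e1 : ‖c‖ ^ 2 ≤ ‖v‖ * ‖w‖ := by
    have h4 : ‖(inner ℂ c c : ℂ)‖ = ‖c‖ ^ 2 := by
      rw [inner_self_eq_norm_sq_to_K]
      simp
    rw [← h4, h1]
    exact norm_inner_le_norm _ _
  have e2 : ‖v‖ * ‖w‖ ≤ ‖v‖ ^ 2 / ε + ε / 4 * ‖w‖ ^ 2 := by
    have h3 : 0 ≤ (‖v‖ - ε / 2 * ‖w‖) ^ 2 / ε := by positivity
    have h4 : (‖v‖ - ε / 2 * ‖w‖) ^ 2 / ε =
        ‖v‖ ^ 2 / ε + ε / 4 * ‖w‖ ^ 2 - ‖v‖ * ‖w‖ := by
      field_simp
      ring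
    linarith
  have e3 : ‖v‖ ^ 2 / ε ≤ 1 / 4 * ‖c‖ ^ 2 + C' / ε * a := by
    rw [div_le_iff₀ hε]
    have h3 : C * a ≤ C' * a := mul_le_mul_of_nonneg_right hCC' ha0
    have h4 : (1 / 4 * ‖c‖ ^ 2 + C' / ε * a) * ε = ε / 4 * ‖c‖ ^ 2 + C' * a := by
      field_simp
    rw [h4]
    linarith
  have e4 : C' / ε * a ≤ 1 / 4 * ‖c‖ ^ 2 + ε / 8 * ‖w‖ ^ 2 + C' / ε * S := by
    have h3 := mul_le_mul_of_nonneg_left h2 (show 0 ≤ C' / ε by positivity)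
    have h4 : C' / ε * (δ * (‖c‖ ^ 2 + ‖w‖ ^ 2) + S) =
        (C' / ε * δ) * ‖c‖ ^ 2 + (C' / ε * δ) * ‖w‖ ^ 2 + C' / ε * S := by ring
    rw [h4] at h3
    have h5 := mul_le_mul_of_nonneg_right hδ1 (sq_nonneg ‖c‖)
    have h6 := mul_le_mul_of_nonneg_right hδ2 (sq_nonneg ‖w‖)
    linarith
  have e5 : 2 * C' / ε * S = 2 * (C' / ε * S) := by ring
  have e6 : 0 ≤ ε * ‖w‖ ^ 2 := by positivity
  rw [e5]
  linarith

end DbarC.JAC
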