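import Pool.Agent.H314.DC.St3

set_option autoImplicit false

open MeasureTheory Complex Filter Topology
open scoped ContDiff InnerProductSpace ENNReal ComplexConjugate

namespace DbarC.JCA
open DbarN

theorem cac : CAc_stmt := by
  intro t s ht1 htT hs0 hs1
  have hk : (0 : ℝ) < 1 / 100 := by norm_num
  have hk1 : (1 / 100 : ℝ) ≤ 1 / 100 := le_rfl
  have hl : (0 : ℝ) < 100 := by norm_num
  have hl1 : (100 : ℝ) ≤ 100 := le_rfl
  have hB : t < tB (1 / 100) 100 := htT
  have hLa : 0 ≤ La t := JCA1.Lm_nonneg hk hl hB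
  have hLa1 : 0 ≤ La1 t := JCA1.Lm1_nonneg hk hl hB
  have hLa2 : 100 * La1 t + La1 t ^ 2 ≤ La2 t := JCA1.Lm2_ge hk hk1 hl1 hB
  have hd : 0 < d0 t := JCA1.dl_pos hk hl hB
  have hd1 : d0 t ≤ 1 := JCA1.dl_le_one t
  have dL : HasDerivAt La (La1 t) t := JCA1.Lm_hasDerivAt hk hl hB
  have dL1 : HasDerivAt La1 (La2 t) t := JCA1.Lm1_hasDerivAt hk hl hB
  have hτ : 0 ≤ tau s := JCA2.tau_nonneg hs0 hs1
  have dτ : HasDerivAt tau (tau1 s) s := JCA2.tau_hasDerivAt hs0 hs1
  have dτ1 : HasDerivAt tau1 (tau2 s) s := JCA2.tau1_hasDerivAt hs0 hs1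
  have hl0 : 100 + La t + tau s = l0 t s := rfl
  have hl0' : 100 ≤ l0 t s := by rw [← hl0]; linarith
  have hpos : 0 < l0 t s := by linarith
  have hne : l0 t s ≠ 0 := hpos.ne'
  have dt : HasDerivAt (fun t => l0 t s) (La1 t) t := by
    have := (dL.const_add 100).add_const (tau s)
    exact this
  have ds : HasDerivAt (fun s => l0 t s) (tau1 s) s := by
    have := dτ.const_add (100 + La t)
    exact this
  have d1t : HasDerivAt (fun t : ℝ => 1 + t) 1 t := by
    simpa using (hasDerivAt_id t).const_add (1 : ℝ)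
  have dlogt : HasDerivAt (fun t => Real.log (l0 t s)) (La1 t / l0 t s) t := dt.log hne
  have dlogs : HasDerivAt (fun s => Real.log (l0 t s)) (tau1 s / l0 t s) s := ds.log hne
  have q1 : HasDerivAt (fun t => (1 + t) * La1 t / l0 t s)
      (((1 * La1 t + (1 + t) * La2 t) * l0 t s - (1 + t) * La1 t * La1 t) / l0 t s ^ 2) t :=
    (d1t.mul dL1).div dt hne
  have q2 : HasDerivAt (fun s => (1 + t) * La1 t / l0 t s)
      ((0 * l0 t s - (1 + t) * La1 t * tau1 s) / l0 t s ^ 2) s :=
    (hasDerivAt_const s ((1 + t) * La1 t)).div ds hne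
  refine ⟨hLa, hLa1, hLa2, hl0, hl0', hd, hd1, ?_, dL, dL1, dt, ds, ?_, ?_, ?_, ?_, ?_, ?_, ?_⟩
  · have : La t = -Real.log (d0 t) := rfl
    rw [this, neg_neg, Real.exp_log hd]
  · have h := (d1t.neg).mul dlogt
    have e : Yct t s = -1 * Real.log (l0 t s) + -(1 + t) * (La1 t / l0 t s) := by
      unfold Yct
      ring
    rw [e]
    exact h
  · have h := dlogt.neg.sub q1
    have e : Yctt t s = -(La1 t / l0 t s) -
        ((1 * La1 t + (1 + t) * La2 t) * l0 t s - (1 + t) * La1 t * La1 t) / l0 t s ^ 2 := by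
      unfold Yctt
      field_simp
      ring
    rw [e]
    exact h
  · have h := dlogs.const_mul (-(1 + t))
    have e : Ycs t s = -(1 + t) * (tau1 s / l0 t s) := by
      unfold Ycs
      ring
    rw [e]
    exact h
  · have h := dlogs.neg.sub q2
    have e : Ycts t s = -(tau1 s / l0 t s) -
        (0 * l0 t s - (1 + t) * La1 t * tau1 s) / l0 t s ^ 2 := by
      unfold Ycts
      field_simp
      ring
    rw [e]
    exact h
  · have h : HasDerivAt (fun s => -(1 + t) * tau1 s / l0 t s)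
        ((-(1 + t) * tau2 s * l0 t s - -(1 + t) * tau1 s * tau1 s) / l0 t s ^ 2) s :=
      (dτ1.const_mul (-(1 + t))).div ds hne
    have e : Ycss t s = (-(1 + t) * tau2 s * l0 t s - -(1 + t) * tau1 s * tau1 s) / l0 t s ^ 2 := by
      unfold Ycss
      field_simp
      ring
    rw [e]
    exact h
  · intro ht0
    have hlog : 0 ≤ Real.log (l0 t s) := Real.log_nonneg (by linarith)
    have h1 : Yc t s ≤ -Real.log (l0 t s) := by
      unfold Yc
      nlinarith
    have h2 : Real.exp (-Real.log (l0 t s)) = 1 / l0 t s := by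
      rw [Real.exp_neg, Real.exp_log hpos, one_div]
    unfold R2
    rw [← h2]
    exact Real.exp_le_exp.2 h1
  · exact Real.exp_pos _


end DbarC.JCA
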