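import Pool.Agent.H314.DC.St3

set_option autoImplicit false

open MeasureTheory Complex Filter Topology
open scoped ContDiff InnerProductSpace ENNReal ComplexConjugate

namespace DbarC.JCH
open DbarN

open DbarN.JCA1

theorem chx_meas_l0 (t : ℝ) : Measurable (fun s => l0 t s) := by
  unfold l0 el tau
  fun_prop

theorem chx_meas_tau1 : Measurable tau1 := by
  unfold tau1
  fun_prop

theorem chx_meas_tau2 : Measurable tau2 := by
  unfold tau2
  fun_prop

theorem chx_meas_Yc (t : ℝ) : Measurable (fun s => Yc t s) := by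
  have h := chx_meas_l0 t
  unfold Yc
  fun_prop

theorem chx_meas_den (j k : ℕ) (t : ℝ) : Measurable (fun s => den j k t s) := by
  have h := chx_meas_Yc t
  unfold den
  fun_prop

theorem chx_meas_Yct (t : ℝ) : Measurable (fun s => Yct t s) := by
  have h := chx_meas_l0 t
  unfold Yct
  fun_prop

theorem chx_meas_Yctt (t : ℝ) : Measurable (fun s => Yctt t s) := by
  have h := chx_meas_l0 t
  unfold Yctt
  fun_prop

theorem chx_meas_Ycts (t : ℝ) : Measurable (fun s => Ycts t s) := by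
  have h := chx_meas_l0 t
  have h1 := chx_meas_tau1
  unfold Ycts
  fun_prop

theorem chx_meas_Ycss (t : ℝ) : Measurable (fun s => Ycss t s) := by
  have h := chx_meas_l0 t
  have h1 := chx_meas_tau1
  have h2 := chx_meas_tau2
  unfold Ycss
  fun_prop

theorem chx_den_nonneg (j k : ℕ) (t : ℝ) {s : ℝ} (hs : 0 ≤ s) : 0 ≤ den j k t s := by
  unfold den
  positivity

theorem chx_den_le (j k : ℕ) {t s : ℝ} (h0 : 0 ≤ t) (hs : s ∈ Set.Ioo (0 : ℝ) 1)
    (hl : 100 ≤ l0 t s) : l0 t s * den j k t s ≤ 1 := by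
  unfold den Yc
  have hlp : 0 < l0 t s := by linarith
  have h1 : s ^ (2 * k + 1) ≤ 1 := pow_le_one₀ hs.1.le hs.2.le
  have hlog : 0 ≤ Real.log (l0 t s) := Real.log_nonneg (by linarith)
  have h2 : Real.exp (((j : ℝ) + 1) * (-(1 + t) * Real.log (l0 t s))) ≤ (l0 t s)⁻¹ := by
    rw [← Real.exp_log hlp, ← Real.exp_neg, Real.exp_log hlp]
    apply Real.exp_le_exp.mpr
    have hj : (0 : ℝ) ≤ j := Nat.cast_nonneg j
    have : 1 ≤ ((j : ℝ) + 1) * (1 + t) := by nlinarith
    nlinarith
  have h3 : s ^ (2 * k + 1) * Real.exp (((j : ℝ) + 1) * (-(1 + t) * Real.log (l0 t s))) ≤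
      1 * (l0 t s)⁻¹ := mul_le_mul h1 h2 (Real.exp_pos _).le (by norm_num)
  calc l0 t s * (s ^ (2 * k + 1) * Real.exp (((j : ℝ) + 1) * (-(1 + t) * Real.log (l0 t s)))) ≤
      l0 t s * (1 * (l0 t s)⁻¹) := mul_le_mul_of_nonneg_left h3 hlp.le
    _ = 1 := by field_simp

theorem chx_intg (hC : CAc_stmt) (j k : ℕ) {t : ℝ} (h0 : 0 ≤ t)
    (h1 : t < T0) (H : ℝ → ℝ) (hm : Measurable H) (B : ℝ)
    (hb : ∀ s ∈ Set.Ioo (0 : ℝ) 1, |H s| ≤ B * l0 t s) :
    IntegrableOn (fun s => H s * den j k t s) (Set.Ioo 0 1) := by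
  apply Measure.integrableOn_of_bounded (M := |B|) (by simp)
    (hm.mul (chx_meas_den j k t)).aestronglyMeasurable
  refine ae_restrict_of_forall_mem measurableSet_Ioo fun s hs => ?_
  obtain ⟨-, -, -, -, hl, -⟩ := hC t s (by linarith) h1 hs.1.le hs.2
  have hd0 := chx_den_nonneg j k t hs.1.le
  have hd1 := chx_den_le j k h0 hs hl
  change ‖H s * den j k t s‖ ≤ |B|
  rw [norm_mul, Real.norm_eq_abs, Real.norm_of_nonneg hd0]
  calc |H s| * den j k t s ≤ (B * l0 t s) * den j k t s :=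
        mul_le_mul_of_nonneg_right (hb s hs) hd0
    _ = B * (l0 t s * den j k t s) := by ring
    _ ≤ |B| * (l0 t s * den j k t s) := mul_le_mul_of_nonneg_right (le_abs_self B)
        (mul_nonneg (by linarith) hd0)
    _ ≤ |B| * 1 := mul_le_mul_of_nonneg_left hd1 (abs_nonneg B)
    _ = |B| := mul_one _

theorem chx_key (hC : CAc_stmt) (hPW : PWc_stmt) (hV : VarYc_stmt)
    (j k : ℕ) {t : ℝ} (h0 : 0 ≤ t) (h1 : t < T0) (hw : 0 < ww j k t) :
    mm j k t / 2 ≤
      ((k + 1) * La1 t - (j + 1) * Es j k t (fun s => Yct t s)) + t *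
      ((k + 1) * La2 t - (j + 1) * Es j k t (fun s => Yctt t s) -
        (j + 1) ^ 2 * (Es j k t (fun s => Yct t s ^ 2) - Es j k t (fun s => Yct t s) ^ 2)) ∧
    La1 t + t * La2 t ≤ mm j k t ∧ 0 < mm j k t := by
  obtain ⟨hLa, ha0, hb0, -, -, hdl, -⟩ := hC t 0 (by linarith) h1 le_rfl one_pos
  have hI : 0 < Iw j k t := by
    unfold ww at hw
    exact (pos_iff_pos_of_mul_pos hw).1 (pow_pos hdl _)
  have hVar := hV j k t h0 h1
  set a := La1 t with ha
  set b := La2 t with hb
  have hbn : 0 ≤ b := by nlinarith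
  have hl : ∀ s ∈ Set.Ioo (0 : ℝ) 1, 100 ≤ l0 t s := fun s hs =>
    (hC t s (by linarith) h1 hs.1.le hs.2).2.2.2.2.1
  -- bounds
  have hlog : ∀ s ∈ Set.Ioo (0 : ℝ) 1, 0 ≤ Real.log (l0 t s) ∧ Real.log (l0 t s) ≤ l0 t s := by
    intro s hs
    have := hl s hs
    exact ⟨Real.log_nonneg (by linarith), (Real.log_le_sub_one_of_pos (by linarith)).trans
      (by linarith)⟩
  have hYt : ∀ s ∈ Set.Ioo (0 : ℝ) 1, |Yct t s| ≤ (1 + (1 + t) * a) * l0 t s := by
    intro s hs
    have a1 := hl s hs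
    obtain ⟨a2, a3⟩ := hlog s hs
    have hel : 0 < l0 t s := by linarith
    have e1 : (1 + t) * a / l0 t s ≤ (1 + t) * a * l0 t s := by
      rw [div_le_iff₀ hel]
      have : 1 ≤ l0 t s * l0 t s := by nlinarith
      have h4 : 0 ≤ (1 + t) * a := by positivity
      nlinarith
    have e2 : 0 ≤ (1 + t) * a / l0 t s := by positivity
    unfold Yct
    rw [← ha, abs_le]
    constructor <;> nlinarith
  have hYtt : ∀ s ∈ Set.Ioo (0 : ℝ) 1,
      |Yctt t s| ≤ (2 * a + (1 + t) * (b + a ^ 2)) * l0 t s := by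
    intro s hs
    have a1 := hl s hs
    have hel : 0 < l0 t s := by linarith
    have q1 : 1 ≤ l0 t s := by linarith
    have q2 : 1 ≤ l0 t s ^ 2 := by nlinarith
    have e1 : 2 * a / l0 t s ≤ 2 * a := div_le_self (by positivity) q1
    have e2 : b / l0 t s ≤ b := div_le_self (by positivity) q1
    have e3 : a ^ 2 / l0 t s ^ 2 ≤ a ^ 2 := div_le_self (by positivity) q2
    have f1 : 0 ≤ 2 * a / l0 t s := by positivity
    have f2 : 0 ≤ b / l0 t s := by positivity
    have f3 : 0 ≤ a ^ 2 / l0 t s ^ 2 := by positivity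
    have e4 : |b / l0 t s - a ^ 2 / l0 t s ^ 2| ≤ b + a ^ 2 := by
      rw [abs_le]
      constructor <;> nlinarith
    have e5 : |(1 + t) * (b / l0 t s - a ^ 2 / l0 t s ^ 2)| ≤ (1 + t) * (b + a ^ 2) := by
      rw [abs_mul, abs_of_nonneg (by linarith : 0 ≤ 1 + t)]
      exact mul_le_mul_of_nonneg_left e4 (by linarith)
    have e6 := abs_le.mp e5
    have e7 : |Yctt t s| ≤ 2 * a + (1 + t) * (b + a ^ 2) := by
      unfold Yctt
      rw [← ha, ← hb, abs_le]
      have : -2 * a / l0 t s = -(2 * a / l0 t s) := by ring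
      rw [this]
      constructor <;> linarith [e6.1, e6.2]
    refine e7.trans ?_
    have : 0 ≤ 2 * a + (1 + t) * (b + a ^ 2) := by positivity
    nlinarith
  have hM : ∀ s ∈ Set.Ioo (0 : ℝ) 1,
      Real.log 100 ≤ Real.log (l0 t s) + t * b / l0 t s ∧
      Real.log (l0 t s) + t * b / l0 t s ≤ (1 + t * b) * l0 t s := by
    intro s hs
    have a1 := hl s hs
    have hel : 0 < l0 t s := by linarith
    have q1 : 1 ≤ l0 t s := by linarith
    have e0 : 0 ≤ t * b := by positivity
    have e2 : t * b / l0 t s ≤ t * b := div_le_self e0 q1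
    have e3 : 0 ≤ t * b / l0 t s := by positivity
    have e4 : Real.log 100 ≤ Real.log (l0 t s) := Real.log_le_log (by norm_num) a1
    refine ⟨by linarith, ?_⟩
    have := (hlog s hs).2
    nlinarith
  have hlog100 : 0 < Real.log 100 := Real.log_pos (by norm_num)
  have hZ : ∀ s ∈ Set.Ioo (0 : ℝ) 1,
      |t * (Ycts t s ^ 2 / (-Ycss t s))| ≤ (1 + t * b) * l0 t s := by
    intro s hs
    obtain ⟨c1, c2, c3⟩ := hPW t s h0 h1 hs.1 hs.2
    have : 0 ≤ t * (Ycts t s ^ 2 / (-Ycss t s)) :=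
      mul_nonneg h0 (div_nonneg (sq_nonneg _) (by linarith))
    rw [abs_of_nonneg this]
    refine c3.trans ?_
    have a1 := hl s hs
    have hel : 0 < l0 t s := by linarith
    have q1 : 1 ≤ l0 t s := by linarith
    have q2 : 1 ≤ l0 t s ^ 2 := by nlinarith
    have e1 : 1 / l0 t s ≤ 1 := by
      rw [div_le_one hel]; linarith
    have e2 : t * b / l0 t s ^ 2 ≤ t * b := div_le_self (by positivity) q2
    have e0 : 0 ≤ t * b := by positivity
    rw [← hb]
    nlinarith
  -- integrability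
  have iYt := chx_intg hC j k h0 h1 (fun s => Yct t s) (chx_meas_Yct t) _ hYt
  have iYtt := chx_intg hC j k h0 h1 (fun s => Yctt t s) (chx_meas_Yctt t) _ hYtt
  have iZ := chx_intg hC j k h0 h1 (fun s => t * (Ycts t s ^ 2 / (-Ycss t s)))
    (measurable_const.mul (((chx_meas_Ycts t).pow_const 2).div
      (chx_meas_Ycss t).neg)) _ hZ
  have iM := chx_intg hC j k h0 h1 (fun s => Real.log (l0 t s) + t * b / l0 t s)
    ((Real.measurable_log.comp (chx_meas_l0 t)).add
      (measurable_const.div (chx_meas_l0 t))) (1 + t * b)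
    (fun s hs => by
      rw [abs_of_nonneg (by linarith [(hM s hs).1])]; exact (hM s hs).2)
  have i1 : IntegrableOn (fun s => Real.log 100 * den j k t s) (Set.Ioo 0 1) := by
    apply chx_intg hC j k h0 h1 (fun _ => Real.log 100) measurable_const (Real.log 100)
    intro s hs
    rw [abs_of_pos hlog100]
    have := hl s hs
    nlinarith
  have hmain : (1 / 2) * (∫ s in Set.Ioo (0 : ℝ) 1,
      (Real.log (l0 t s) + t * b / l0 t s) * den j k t s) ≤
      -(∫ s in Set.Ioo (0 : ℝ) 1, Yct t s * den j k t s) -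
      t * (∫ s in Set.Ioo (0 : ℝ) 1, Yctt t s * den j k t s) -
      (∫ s in Set.Ioo (0 : ℝ) 1,
        t * (Ycts t s ^ 2 / (-Ycss t s)) * den j k t s) := by
    have i1 : IntegrableOn (fun s => -(Yct t s * den j k t s)) (Set.Ioo 0 1) := iYt.neg
    have i2 : IntegrableOn (fun s => t * (Yctt t s * den j k t s)) (Set.Ioo 0 1) :=
      iYtt.const_mul t
    have i3 : IntegrableOn (fun s => -(Yct t s * den j k t s) -
      t * (Yctt t s * den j k t s)) (Set.Ioo 0 1) := i1.sub i2
    rw [← integral_const_mul, ← integral_const_mul, ← integral_neg,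
      ← integral_sub i1 i2, ← integral_sub i3 iZ]
    apply setIntegral_mono_on (iM.const_mul _) (i3.sub iZ) measurableSet_Ioo
    intro s hs
    obtain ⟨c1, c2, c3⟩ := hPW t s h0 h1 hs.1 hs.2
    have hd0 : 0 ≤ den j k t s := chx_den_nonneg j k t hs.1.le
    have := mul_le_mul_of_nonneg_right c2 hd0
    rw [← hb] at this
    change 1 / 2 * ((Real.log (l0 t s) + t * b / l0 t s) * den j k t s) ≤
      -(Yct t s * den j k t s) - t * (Yctt t s * den j k t s) -
        t * (Ycts t s ^ 2 / -Ycss t s) * den j k t s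
    linarith
  have hEs : (1 / 2) * Es j k t (fun s => Real.log (l0 t s) + t * b / l0 t s) ≤
      -(Es j k t (fun s => Yct t s)) - t * Es j k t (fun s => Yctt t s) -
      Es j k t (fun s => t * (Ycts t s ^ 2 / (-Ycss t s))) := by
    have h2 := div_le_div_of_nonneg_right hmain hI.le
    unfold Es
    calc _ = _ := by ring
      _ ≤ _ := h2
      _ = _ := by ring
  have hEpos : Real.log 100 ≤ Es j k t (fun s => Real.log (l0 t s) + t * b / l0 t s) := by
    unfold Es
    rw [le_div_iff₀ hI]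
    unfold Iw
    rw [← integral_const_mul]
    apply setIntegral_mono_on i1 iM measurableSet_Ioo
    intro s hs
    exact mul_le_mul_of_nonneg_right (hM s hs).1 (chx_den_nonneg j k t hs.1.le)
  have hj : (0 : ℝ) < (j : ℝ) + 1 := by positivity
  have hk : (1 : ℝ) ≤ (k : ℝ) + 1 := by
    have : (0 : ℝ) ≤ k := Nat.cast_nonneg k
    linarith
  have h3 := mul_le_mul_of_nonneg_left hEs hj.le
  have h5 : 0 ≤ a + t * b := by positivity
  have h4 : a + t * b ≤ ((k : ℝ) + 1) * (a + t * b) := by nlinarith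
  have h6 : 0 < ((j : ℝ) + 1) * Es j k t (fun s => Real.log (l0 t s) + t * b / l0 t s) :=
    mul_pos hj (by linarith)
  unfold mm
  rw [← ha, ← hb]
  refine ⟨by linarith, by linarith, by linarith⟩

theorem chi_all (hC : CAc_stmt) (hPW : PWc_stmt) (hV : VarYc_stmt) (hD : PsiDc_stmt) :
    Chi_stmt := by
  intro j k
  obtain ⟨d1, d2, d3, d4, d5⟩ := hD j k
  have hT : T0 = tB (1 / 100) 100 := rfl
  have hLa : ∀ t ∈ Set.Ioo (-1) T0, 0 ≤ La t := fun t ht =>
    (hC t 0 ht.1 ht.2 le_rfl one_pos).1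
  have dLa : ∀ t ∈ Set.Ioo (-1) T0, HasDerivAt La (La1 t) t := fun t ht =>
    Lm_hasDerivAt (by norm_num) (by norm_num) ht.2
  have dLa1 : ∀ t ∈ Set.Ioo (-1) T0, HasDerivAt La1 (La2 t) t := fun t ht =>
    Lm1_hasDerivAt (by norm_num) (by norm_num) ht.2
  have hlogth : ∀ t ∈ Set.Ioo (-1) T0, Real.log (th t) = (1 / 4) * Real.log (1 + La t) := by
    intro t ht
    unfold th
    rw [Real.log_rpow (by linarith [hLa t ht])]
  have dlog : ∀ t ∈ Set.Ioo (-1) T0,
      HasDerivAt (fun t => Real.log (th t)) ((1 / 4) * (La1 t / (1 + La t))) t := by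
    intro t ht
    have h1 : HasDerivAt (fun t => (1 / 4) * Real.log (1 + La t))
        ((1 / 4) * (La1 t / (1 + La t))) t :=
      (((dLa t ht).const_add 1).log (by linarith [hLa t ht])).const_mul (1 / 4)
    refine h1.congr_of_eventuallyEq ?_
    filter_upwards [isOpen_Ioo.mem_nhds ht] with u hu
    exact hlogth u hu
  have dq1 : ∀ t ∈ Set.Ioo (-1) T0,
      HasDerivAt (fun t => (1 / 4) * (La1 t / (1 + La t)))
        ((1 / 4) * ((La2 t * (1 + La t) - La1 t * La1 t) / (1 + La t) ^ 2)) t := by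
    intro t ht
    exact ((dLa1 t ht).div ((dLa t ht).const_add 1) (by linarith [hLa t ht])).const_mul (1 / 4)
  refine ⟨fun t => ((k + 1) * La1 t - (j + 1) * Es j k t (fun s => Yct t s)) -
      (1 / 4) * (La1 t / (1 + La t)),
    fun t => ((k + 1) * La2 t - (j + 1) * Es j k t (fun s => Yctt t s) -
        (j + 1) ^ 2 * (Es j k t (fun s => Yct t s ^ 2) - Es j k t (fun s => Yct t s) ^ 2)) -
      (1 / 4) * ((La2 t * (1 + La t) - La1 t * La1 t) / (1 + La t) ^ 2), ?_, ?_, ?_, d4, ?_, ?_, ?_⟩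
  · intro t ht
    exact (d1 t ht.1 ht.2).sub (dlog t ht)
  · intro t ht
    exact (d2 t ht.1 ht.2).sub (dq1 t ht)
  · refine d3.sub ?_
    have cLa : ContinuousOn La (Set.Ioo (-1) T0) := fun t ht =>
      (dLa t ht).continuousAt.continuousWithinAt
    have cLa1 : ContinuousOn La1 (Set.Ioo (-1) T0) := fun t ht =>
      (dLa1 t ht).continuousAt.continuousWithinAt
    have cLa2 : ContinuousOn La2 (Set.Ioo (-1) T0) :=
      (Lm2_continuousOn (k1 := 1 / 100) (l1 := 100) (by norm_num) (by norm_num)).mono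
        (fun t ht => ht.2)
    refine continuousOn_const.mul (ContinuousOn.div ?_ ?_ ?_)
    · exact (cLa2.mul (continuousOn_const.add cLa)).sub (cLa1.mul cLa1)
    · exact (continuousOn_const.add cLa).pow 2
    · intro t ht
      have := hLa t ht
      positivity
  · intro t ht
    exact (chx_key hC hPW hV j k ht.1 ht.2 (d5 t (by linarith [ht.1]) ht.2)).2.2
  · intro t ht
    obtain ⟨e1, e2, -⟩ := chx_key hC hPW hV j k ht.1 ht.2 (d5 t (by linarith [ht.1]) ht.2)
    obtain ⟨hL0, ha0, hb0, -⟩ := hC t 0 (by linarith [ht.1]) ht.2 le_rfl one_pos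
    have hbn : 0 ≤ La2 t := by nlinarith
    have h0 := ht.1
    have hp : 0 < 1 + La t := by linarith
    have g1 : La1 t / (1 + La t) ≤ La1 t := div_le_self ha0 (by linarith)
    have g2 : (La2 t * (1 + La t) - La1 t * La1 t) / (1 + La t) ^ 2 ≤ La2 t := by
      rw [div_le_iff₀ (by positivity)]
      have g3 : 0 ≤ La2 t * La t := mul_nonneg hbn hL0
      have g4 : 0 ≤ La2 t * La t * La t := mul_nonneg g3 hL0
      nlinarith [mul_self_nonneg (La1 t)]
    have g5 := mul_le_mul_of_nonneg_left g2 h0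
    change mm j k t / 4 ≤ (((k + 1) * La1 t - (j + 1) * Es j k t (fun s => Yct t s)) -
      (1 / 4) * (La1 t / (1 + La t))) + t * (((k + 1) * La2 t - (j + 1) *
        Es j k t (fun s => Yctt t s) - (j + 1) ^ 2 * (Es j k t (fun s => Yct t s ^ 2) -
        Es j k t (fun s => Yct t s) ^ 2)) -
      (1 / 4) * ((La2 t * (1 + La t) - La1 t * La1 t) / (1 + La t) ^ 2))
    linarith
  · intro t ht
    have hw := d5 t ht.1 ht.2
    have hth : 1 ≤ th t := by
      unfold th
      exact Real.one_le_rpow (by linarith [hLa t ht]) (by norm_num)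
    refine ⟨hw, hth, ?_⟩
    unfold chi psi
    have : -(-Real.log (ww j k t) - Real.log (th t)) = Real.log (ww j k t) + Real.log (th t) := by
      ring
    rw [this, Real.exp_add, Real.exp_log hw, Real.exp_log (by linarith)]

end DbarC.JCH
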