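import Pool.Agent.H314.DC.St2

set_option autoImplicit false

open MeasureTheory Complex Filter Topology
open scoped ContDiff InnerProductSpace ENNReal ComplexConjugate

namespace DbarC.JDA
open DbarN

theorem memC_T0_lt_two : T0 < 2 := by
  unfold T0 tB
  norm_num

theorem memC_key (t y z : ℝ) (ht : 0 ≤ t) (hy : 0 ≤ y) (hq : z ^ 2 < d0 t) :
    Gy t y < d0 t - z ^ 2 ↔ y < R2 t (z / Real.sqrt (d0 t)) := by
  have hd1 : d0 t ≤ 1 := JCA1.dl_le_one t
  have hq0 : 0 ≤ z ^ 2 := sq_nonneg z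
  set d : ℝ := d0 t with hd
  have hd0 : 0 < d := by linarith
  have hD0 : 0 < d - z ^ 2 := by linarith
  have hD1 : d - z ^ 2 ≤ 1 := by linarith
  have hel : l0 t (z / Real.sqrt d) = 100 - Real.log (d - z ^ 2) := by
    have hdd : dl (1 / 100) 100 t = d := hd ▸ rfl
    unfold l0 el Lm tau
    rw [hdd]
    have hs : 1 - (z / Real.sqrt d) ^ 2 = (d - z ^ 2) / d := by
      rw [div_pow, Real.sq_sqrt hd0.le]
      field_simp
    rw [hs, Real.log_div hD0.ne' hd0.ne']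
    ring
  have hlog : Real.log (d - z ^ 2) ≤ 0 := Real.log_nonpos hD0.le hD1
  unfold R2 Yc
  rw [hel]
  set L : ℝ := 100 - Real.log (d - z ^ 2) with hL
  have hL0 : 0 < L := by linarith
  have h1t : 0 < 1 + t := by linarith
  unfold Gy
  split_ifs with h
  · have hy0 : y = 0 := le_antisymm h hy
    rw [hy0]
    exact ⟨fun _ => Real.exp_pos _, fun _ => hD0⟩
  · push Not at h
    rw [← Real.lt_log_iff_exp_lt hD0, ← Real.log_lt_iff_lt_exp h]
    have e1 : 100 - y ^ (-(1 / (1 + t))) < Real.log (d - z ^ 2) ↔ L < y ^ (-(1 / (1 + t))) := by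
      constructor
      · intro h; linarith
      · intro h; linarith
    have hyp : 0 < y ^ (-(1 / (1 + t))) := Real.rpow_pos_of_pos h _
    rw [e1, ← Real.log_lt_log_iff hL0 hyp, Real.log_rpow h]
    have e2 : -(1 / (1 + t)) * Real.log y = (-Real.log y) / (1 + t) := by ring
    rw [e2, lt_div_iff₀ h1t]
    constructor
    · intro h; linarith
    · intro h; linarith

theorem memC : MemC_stmt := by
  intro x
  have ht0 : 0 ≤ ‖x 0‖ ^ 2 := by positivity
  have hy0 : 0 ≤ ‖x 1‖ ^ 2 := by positivity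
  have hz0 : 0 ≤ ‖x 2‖ ^ 2 := by positivity
  have hw0 : 0 ≤ w0 (‖x 0‖ ^ 2) := JCA1.om_nonneg _
  have hG : 0 ≤ Gy (‖x 0‖ ^ 2) (‖x 1‖ ^ 2) := by
    unfold Gy
    split_ifs
    · exact le_rfl
    · exact (Real.exp_pos _).le
  have hdw : d0 (‖x 0‖ ^ 2) = 1 - w0 (‖x 0‖ ^ 2) := rfl
  have hT := JCA1.om_lt_one_iff (k1 := 1 / 100) (l1 := 100) (by norm_num) (by norm_num)
    (‖x 0‖ ^ 2)
  constructor
  · rintro ⟨h2, h3⟩
    unfold FF at h3
    have hq : ‖x 2‖ ^ 2 < d0 (‖x 0‖ ^ 2) := by rw [hdw]; linarith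
    refine ⟨hT.1 ?_, hq, (memC_key _ _ _ ht0 hy0 hq).1 ?_⟩
    · have : om (1 / 100) 100 (‖x 0‖ ^ 2) = w0 (‖x 0‖ ^ 2) := rfl
      rw [this]
      linarith
    · rw [hdw]; linarith
  · rintro ⟨h1, h2, h3⟩
    have ht2 : ‖x 0‖ ^ 2 < 2 := h1.trans memC_T0_lt_two
    have h4 := (memC_key _ _ _ ht0 hy0 h2).2 h3
    refine ⟨ht2, ?_⟩
    unfold FF
    rw [hdw] at h4
    linarith

end DbarC.JDA
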