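import Pool.Agent.H314.DC.St2

set_option autoImplicit false

open MeasureTheory Complex Filter Topology
open scoped ContDiff InnerProductSpace ENNReal ComplexConjugate

namespace DbarC.JDB
open DbarN

theorem domC_T0 : (1 : ℝ) < T0 ∧ T0 < 2 := by
  unfold T0 tB
  norm_num

theorem domC_w0_le {t : ℝ} (h : w0 t ≤ 1) : t ≤ T0 := by
  by_contra hc
  push Not at hc
  have h1 : 1 < t := domC_T0.1.trans hc
  unfold w0 at h
  rw [DbarN.JCA1.om_of_gt_one (by norm_num) h1, Real.exp_le_one_iff] at h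
  unfold T0 tB at hc
  have h2 : 0 < t - 1 := by linarith
  have h3 : (1 / 100 : ℝ) / (t - 1) < 100 := by
    rw [div_lt_iff₀ h2]
    linarith
  linarith

theorem domC_w0_lt {t : ℝ} : w0 t < 1 ↔ t < T0 :=
  DbarN.JCA1.om_lt_one_iff (by norm_num) (by norm_num) t

theorem domC_w0_nonneg (t : ℝ) : 0 ≤ w0 t := DbarN.JCA1.om_nonneg t

theorem domC_w0_mono : Monotone w0 := DbarN.JCA1.om_mono (by norm_num)

theorem domC_Gy_nonneg (t y : ℝ) : 0 ≤ Gy t y := by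
  unfold Gy
  split_ifs
  · exact le_rfl
  · exact (Real.exp_pos _).le

theorem domC_Gy_lt {t y : ℝ} (ht : 0 ≤ t) (h : Gy t y < 1) : y ≤ 1 / 100 := by
  by_contra hc
  push Not at hc
  have hy : ¬ y ≤ 0 := by
    push Not
    linarith
  unfold Gy at h
  rw [if_neg hy, Real.exp_lt_one_iff] at h
  have ha : 0 < 1 / (1 + t) := by positivity
  have ha1 : 1 / (1 + t) ≤ 1 := by
    rw [div_le_one (by positivity)]
    linarith
  have h1 : y ^ (-(1 / (1 + t))) ≤ (1 / 100 : ℝ) ^ (-(1 / (1 + t))) :=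
    Real.rpow_le_rpow_of_nonpos (by norm_num) hc.le (by linarith)
  have h2 : (1 / 100 : ℝ) ^ (-(1 / (1 + t))) = (100 : ℝ) ^ (1 / (1 + t)) := by
    rw [one_div, Real.inv_rpow (by norm_num), Real.rpow_neg (by norm_num), inv_inv, one_div]
  have h3 : (100 : ℝ) ^ (1 / (1 + t)) ≤ (100 : ℝ) ^ (1 : ℝ) :=
    Real.rpow_le_rpow_of_exponent_le (by norm_num) ha1
  rw [Real.rpow_one] at h3
  rw [h2] at h1
  linarith

theorem domC_Gy_mono {t y t' y' : ℝ} (ht' : 0 ≤ t') (htt : t' ≤ t) (hy' : 0 ≤ y') (hyy : y' < y)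
    (hy : y < 1) : Gy t' y' < Gy t y := by
  have hy0 : 0 < y := lt_of_le_of_lt hy' hyy
  unfold Gy
  rw [if_neg (not_le.2 hy0)]
  split_ifs with h
  · exact Real.exp_pos _
  · push Not at h
    rw [Real.exp_lt_exp]
    have ha' : 0 < 1 / (1 + t') := by positivity
    have haa : 1 / (1 + t) ≤ 1 / (1 + t') :=
      one_div_le_one_div_of_le (by positivity) (by linarith)
    have h1 : y ^ (-(1 / (1 + t'))) < y' ^ (-(1 / (1 + t'))) :=
      Real.rpow_lt_rpow_of_neg h hyy (by linarith)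
    have h2 : y ^ (-(1 / (1 + t))) ≤ y ^ (-(1 / (1 + t'))) :=
      Real.rpow_le_rpow_of_exponent_ge hy0 hy.le (by linarith)
    linarith

theorem domC_radial {x : E3} (h0 : ‖x 0‖ ^ 2 < 2) (h1 : ‖x 1‖ ^ 2 < 1) (hF : FF x ≤ 1) {r : ℝ}
    (hr0 : 0 ≤ r) (hr1 : r < 1) : r • x ∈ Om := by
  have hr2 : r ^ 2 < 1 := by nlinarith
  have hr20 : 0 ≤ r ^ 2 := sq_nonneg r
  have hn : ∀ i, ‖(r • x) i‖ ^ 2 = r ^ 2 * ‖x i‖ ^ 2 := by
    intro i
    rw [Pi.smul_apply, norm_smul, mul_pow, Real.norm_eq_abs, sq_abs]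
  have hle : ∀ i, r ^ 2 * ‖x i‖ ^ 2 ≤ ‖x i‖ ^ 2 := by
    intro i
    have := sq_nonneg ‖x i‖
    nlinarith
  refine ⟨?_, ?_⟩
  · rw [hn]
    exact (hle 0).trans_lt h0
  · unfold FF at hF ⊢
    rw [hn, hn, hn]
    have hw : w0 (r ^ 2 * ‖x 0‖ ^ 2) ≤ w0 (‖x 0‖ ^ 2) := domC_w0_mono (hle 0)
    have ht' : 0 ≤ r ^ 2 * ‖x 0‖ ^ 2 := by positivity
    have hy' : 0 ≤ r ^ 2 * ‖x 1‖ ^ 2 := by positivity
    rcases eq_or_lt_of_le (sq_nonneg ‖x 1‖) with hy | hy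
    · have hG0 : Gy (r ^ 2 * ‖x 0‖ ^ 2) (r ^ 2 * ‖x 1‖ ^ 2) = 0 := by
        unfold Gy
        rw [← hy, mul_zero, if_pos le_rfl]
      have hG1 : Gy (‖x 0‖ ^ 2) (‖x 1‖ ^ 2) = 0 := by
        unfold Gy
        rw [← hy, if_pos le_rfl]
      rw [hG0]
      rw [hG1] at hF
      rcases eq_or_lt_of_le (sq_nonneg ‖x 2‖) with hu | hu
      · rw [← hu] at hF ⊢
        have h3 : ‖x 0‖ ^ 2 ≤ T0 := domC_w0_le (by linarith)
        have h4 : r ^ 2 * ‖x 0‖ ^ 2 < T0 := by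
          have hT := domC_T0.1
          have h5 : r ^ 2 * ‖x 0‖ ^ 2 ≤ r ^ 2 * T0 := mul_le_mul_of_nonneg_left h3 hr20
          have h6 : r ^ 2 * T0 < 1 * T0 := mul_lt_mul_of_pos_right hr2 (by linarith)
          linarith
        have h7 := domC_w0_lt.2 h4
        linarith
      · have h8 : r ^ 2 * ‖x 2‖ ^ 2 < 1 * ‖x 2‖ ^ 2 := mul_lt_mul_of_pos_right hr2 hu
        linarith
    · have h9 : r ^ 2 * ‖x 1‖ ^ 2 < 1 * ‖x 1‖ ^ 2 := mul_lt_mul_of_pos_right hr2 hy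
      rw [one_mul] at h9
      have h10 := domC_Gy_mono ht' (hle 0) hy' h9 h1
      have h11 := hle 2
      linarith

theorem domC_sub {x : E3} (hx : x ∈ Om) :
    ‖x 0‖ ^ 2 ≤ T0 ∧ ‖x 1‖ ^ 2 ≤ 1 / 100 ∧ ‖x 2‖ ^ 2 ≤ 1 ∧ FF x ≤ 1 := by
  obtain ⟨h0, h1⟩ := hx
  have h2 := h1
  unfold FF at h1
  have hw := domC_w0_nonneg (‖x 0‖ ^ 2)
  have hG := domC_Gy_nonneg (‖x 0‖ ^ 2) (‖x 1‖ ^ 2)
  have hu := sq_nonneg ‖x 2‖
  refine ⟨domC_w0_le (by linarith), domC_Gy_lt (sq_nonneg _) (by linarith), by linarith, h2.le⟩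

theorem domC_closure (hF : FFs_stmt) {x : E3} (hx : x ∈ closure Om) :
    ‖x 0‖ ^ 2 ≤ T0 ∧ ‖x 1‖ ^ 2 ≤ 1 / 100 ∧ ‖x 2‖ ^ 2 ≤ 1 ∧ FF x ≤ 1 := by
  have hc : Continuous FF := ContDiff.continuous hF
  have h0 : Continuous fun x : E3 => ‖x 0‖ ^ 2 := by fun_prop
  have h1 : Continuous fun x : E3 => ‖x 1‖ ^ 2 := by fun_prop
  have h2 : Continuous fun x : E3 => ‖x 2‖ ^ 2 := by fun_prop
  have hcl : IsClosed {x : E3 | ‖x 0‖ ^ 2 ≤ T0 ∧ ‖x 1‖ ^ 2 ≤ 1 / 100 ∧ ‖x 2‖ ^ 2 ≤ 1 ∧ FF x ≤ 1} :=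
    (isClosed_le h0 continuous_const).inter ((isClosed_le h1 continuous_const).inter
      ((isClosed_le h2 continuous_const).inter (isClosed_le hc continuous_const)))
  have hsub : closure Om ⊆ {x : E3 | ‖x 0‖ ^ 2 ≤ T0 ∧ ‖x 1‖ ^ 2 ≤ 1 / 100 ∧ ‖x 2‖ ^ 2 ≤ 1 ∧
      FF x ≤ 1} := closure_minimal (fun x hx => domC_sub hx) hcl
  exact hsub hx

theorem domC_open (hF : FFs_stmt) : IsOpen Om := by
  have hc : Continuous FF := ContDiff.continuous hF
  have h0 : Continuous fun x : E3 => ‖x 0‖ ^ 2 := by fun_prop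
  exact (isOpen_lt h0 continuous_const).inter (isOpen_lt hc continuous_const)

theorem domC (hM : MemC_stmt) (hF : FFs_stmt) : DomC_stmt := by
  have hT := domC_T0
  refine ⟨domC_open hF, ?_, ?_, ?_, ?_, fun x hx => domC_closure hF hx, ?_, ?_⟩
  · have h1 : (0 : E3) = (0 : ℝ) • (0 : E3) := by simp
    rw [h1]
    refine domC_radial ?_ ?_ ?_ le_rfl one_pos
    · simp
    · simp
    · unfold FF Gy
      have : w0 0 < 1 := domC_w0_lt.2 (by linarith)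
      simp only [Pi.zero_apply, norm_zero, ne_eq, OfNat.ofNat_ne_zero, not_false_eq_true, zero_pow,
        le_refl, if_true, add_zero]
      exact this.le
  · refine (Metric.isBounded_closedBall (x := (0 : E3)) (r := 2)).subset ?_
    intro x hx
    obtain ⟨h0, h1, h2, -⟩ := domC_sub hx
    rw [mem_closedBall_zero_iff, pi_norm_le_iff_of_nonneg (by norm_num)]
    intro i
    have hi : ‖x i‖ ^ 2 ≤ 2 ^ 2 := by
      fin_cases i
      · exact h0.trans (by linarith)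
      · exact h1.trans (by norm_num)
      · exact h2.trans (by norm_num)
    exact (sq_le_sq₀ (norm_nonneg _) (by norm_num)).1 hi
  · intro θ₁ θ₂ x
    have e0 : ‖rot θ₁ θ₂ x 0‖ = ‖x 0‖ := rfl
    have e1 : ‖rot θ₁ θ₂ x 1‖ = ‖x 1‖ := by
      show ‖Complex.exp (θ₁ * I) * x 1‖ = ‖x 1‖
      rw [norm_mul, Complex.norm_exp_ofReal_mul_I, one_mul]
    have e2 : ‖rot θ₁ θ₂ x 2‖ = ‖x 2‖ := by
      show ‖Complex.exp (θ₂ * I) * x 2‖ = ‖x 2‖
      rw [norm_mul, Complex.norm_exp_ofReal_mul_I, one_mul]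
    unfold Om FF
    simp only [Set.mem_ofPred_eq]
    rw [e0, e1, e2]
  · intro x hx r hr0 hr1
    obtain ⟨h0, h1, -, h3⟩ := domC_closure hF hx
    exact domC_radial (by linarith) (by linarith) h3 hr0 hr1
  · intro x hx
    obtain ⟨h0, h1, h2, h3⟩ := domC_closure hF hx.1
    refine le_antisymm h3 ?_
    by_contra hc
    push Not at hc
    apply hx.2
    rw [(domC_open hF).interior_eq]
    exact ⟨by linarith, hc⟩
  · intro x h0 h1 h2
    have ht : Tendsto (fun r : ℝ => r • x) (𝓝[<] 1) (𝓝 x) := by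
      have : Tendsto (fun r : ℝ => r • x) (𝓝 1) (𝓝 ((1 : ℝ) • x)) :=
        (continuous_id.smul continuous_const).tendsto 1
      rw [one_smul] at this
      exact this.mono_left nhdsWithin_le_nhds
    refine mem_closure_of_tendsto ht ?_
    have h3 : ∀ᶠ r : ℝ in 𝓝[<] 1, 0 < r :=
      (eventually_gt_nhds one_pos).filter_mono nhdsWithin_le_nhds
    filter_upwards [h3, self_mem_nhdsWithin] with r hr0 hr1
    exact domC_radial h0 h1 h2 hr0.le hr1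

end DbarC.JDB
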