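import Pool.Agent.H314.DC.St2

set_option autoImplicit false

open MeasureTheory Complex Filter Topology
open scoped ContDiff InnerProductSpace ENNReal ComplexConjugate

namespace DbarC.JDD
open DbarN

theorem p147_Gy_mono {t t' y : ℝ} (ht : 0 ≤ t) (htt : t ≤ t') (hy : y ≤ 1) :
    Gy t y ≤ Gy t' y := by
  unfold Gy
  by_cases h : y ≤ 0
  · simp [h]
  · rw [if_neg h, if_neg h]
    push Not at h
    apply Real.exp_le_exp.2
    have h1 : (1 : ℝ) / (1 + t') ≤ 1 / (1 + t) := by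
      apply one_div_le_one_div_of_le <;> linarith
    have h2 := Real.rpow_le_rpow_of_exponent_ge h hy (neg_le_neg h1)
    linarith

theorem p147_Gy_deriv {t y : ℝ} (ht : 0 ≤ t) (hy : 0 ≤ y) :
    ∃ D : ℝ, 0 ≤ D ∧ (0 < y → 0 < D) ∧ HasDerivAt (fun r : ℝ => Gy t (r ^ 2 * y)) D 1 := by
  rcases hy.eq_or_lt with h | h
  · refine ⟨0, le_rfl, fun h' => absurd h' (by rw [← h]; exact lt_irrefl _), ?_⟩
    have : (fun r : ℝ => Gy t (r ^ 2 * y)) = fun _ => 0 := by
      funext r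
      rw [← h, mul_zero]
      simp [Gy]
    rw [this]
    exact hasDerivAt_const _ _
  · have h1 : HasDerivAt (fun r : ℝ => r ^ 2 * y) (2 * y) 1 := by
      have := ((hasDerivAt_id (1 : ℝ)).pow 2).mul_const y
      simpa using this
    have hb : (0 : ℝ) < 1 / (1 + t) := by positivity
    have h2 : HasDerivAt (fun r : ℝ => (r ^ 2 * y) ^ (-(1 / (1 + t))))
        (2 * y * (-(1 / (1 + t))) * ((1 : ℝ) ^ 2 * y) ^ (-(1 / (1 + t)) - 1)) 1 :=
      h1.rpow_const (Or.inl (by positivity))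
    have h3 : HasDerivAt (fun r : ℝ => Real.exp (100 - (r ^ 2 * y) ^ (-(1 / (1 + t)))))
        (Real.exp (100 - ((1 : ℝ) ^ 2 * y) ^ (-(1 / (1 + t)))) *
          (-(2 * y * (-(1 / (1 + t))) * ((1 : ℝ) ^ 2 * y) ^ (-(1 / (1 + t)) - 1)))) 1 :=
      (h2.const_sub 100).exp
    have hpos : 0 < Real.exp (100 - ((1 : ℝ) ^ 2 * y) ^ (-(1 / (1 + t)))) *
          (-(2 * y * (-(1 / (1 + t))) * ((1 : ℝ) ^ 2 * y) ^ (-(1 / (1 + t)) - 1))) := by
      have h4 : 0 < ((1 : ℝ) ^ 2 * y) ^ (-(1 / (1 + t)) - 1) := Real.rpow_pos_of_pos (by positivity) _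
      have h5 : -(2 * y * (-(1 / (1 + t))) * ((1 : ℝ) ^ 2 * y) ^ (-(1 / (1 + t)) - 1)) =
        2 * y * (1 / (1 + t)) * ((1 : ℝ) ^ 2 * y) ^ (-(1 / (1 + t)) - 1) := by ring
      rw [h5]
      positivity
    refine ⟨_, hpos.le, fun _ => hpos, h3.congr_of_eventuallyEq ?_⟩
    filter_upwards [Ioi_mem_nhds (show (0 : ℝ) < 1 by norm_num)] with r hr
    have hr' : 0 < r := hr
    unfold Gy
    rw [if_neg (not_le.2 (by positivity))]

theorem p147_T0 : T0 = 1 + 1 / 10000 := by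
  unfold T0 tB
  norm_num

theorem p147_FF_smul (r : ℝ) (p : E3) : FF (r • p) =
    w0 (r ^ 2 * ‖p 0‖ ^ 2) + Gy (r ^ 2 * ‖p 0‖ ^ 2) (r ^ 2 * ‖p 1‖ ^ 2) + r ^ 2 * ‖p 2‖ ^ 2 := by
  have h : ∀ i, ‖(r • p) i‖ ^ 2 = r ^ 2 * ‖p i‖ ^ 2 := by
    intro i
    rw [Pi.smul_apply, norm_smul, mul_pow, Real.norm_eq_abs, sq_abs]
  unfold FF
  rw [h, h, h]

theorem p147_fderiv_ne (hF : FFs_stmt) (p : E3) (h1 : ‖p 1‖ ^ 2 ≤ 1 / 100) (hp : FF p = 1) :
    fderiv ℝ FF p ≠ 0 := by
  intro h0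
  have hF' : ContDiff ℝ ∞ FF := hF
  have hd : HasFDerivAt FF (fderiv ℝ FF p) p :=
    ((hF'.differentiable (by simp)) p).hasFDerivAt
  have hs : HasDerivAt (fun r : ℝ => r • p) p 1 := by
    have hs0 := (hasDerivAt_id (1 : ℝ)).smul_const p
    rw [one_smul] at hs0
    exact hs0
  have hd' : HasFDerivAt FF (fderiv ℝ FF p) ((fun r : ℝ => r • p) 1) := by
    simpa using hd
  have hg := HasFDerivAt.comp_hasDerivAt (1 : ℝ) hd' hs
  rw [h0] at hg
  have hg0 : HasDerivAt (fun r : ℝ => FF (r • p)) 0 1 := by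
    exact hg
  set t := ‖p 0‖ ^ 2 with ht
  set y := ‖p 1‖ ^ 2 with hy
  set s := ‖p 2‖ ^ 2 with hs'
  have ht0 : 0 ≤ t := by positivity
  have hy0 : 0 ≤ y := by positivity
  have hs0 : 0 ≤ s := by positivity
  have hk : (0 : ℝ) < 1 / 100 := by norm_num
  obtain ⟨D, hD0, hD1, hD⟩ := p147_Gy_deriv ht0 hy0
  have hw : HasDerivAt (fun r : ℝ => w0 (r ^ 2 * t)) (om1 (1 / 100) 100 t * (2 * t)) 1 := by
    have e1 : HasDerivAt (fun r : ℝ => r ^ 2 * t) (2 * t) 1 := by
      have := ((hasDerivAt_id (1 : ℝ)).pow 2).mul_const t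
      simpa using this
    have e2 : HasDerivAt w0 (om1 (1 / 100) 100 t) ((fun r : ℝ => r ^ 2 * t) 1) := by
      have := JCA1.om_hasDerivAt (k1 := 1 / 100) (l1 := 100) hk t
      simp only [one_pow, one_mul]
      exact this
    exact e2.comp (1 : ℝ) e1
  have hq : HasDerivAt (fun r : ℝ => r ^ 2 * s) (2 * s) 1 := by
    have := ((hasDerivAt_id (1 : ℝ)).pow 2).mul_const s
    simpa using this
  have hh := ((hw.add hD).add hq)
  have hk' := hg0.sub hh
  have hW0 : 0 ≤ om1 (1 / 100) 100 t * (2 * t) :=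
    mul_nonneg (JCA1.om1_nonneg hk t) (by linarith)
  -- positivity of the total derivative
  have hpos : 0 < om1 (1 / 100) 100 t * (2 * t) + D + 2 * s := by
    rcases hs0.eq_or_lt with hs1 | hs1
    · rcases hy0.eq_or_lt with hy1 | hy1
      · have hFp : FF p = w0 t + Gy t y + s := rfl
        have hG : Gy t y = 0 := by rw [← hy1]; simp [Gy]
        rw [hp, hG, ← hs1] at hFp
        have hw1 : om (1 / 100) 100 t = 1 := by
          have : w0 t = om (1 / 100) 100 t := rfl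
          linarith
        have ht1 : 1 < t := by
          by_contra hcon
          push Not at hcon
          have := JCA1.om_of_le_one (k1 := 1 / 100) (l1 := 100) hk hcon
          rw [hw1] at this
          exact one_ne_zero this
        have : 0 < om1 (1 / 100) 100 t := by
          unfold om1
          rw [hw1]
          have : 0 < t - 1 := by linarith
          positivity
        have : 0 < om1 (1 / 100) 100 t * (2 * t) := by positivity
        linarith
      · have := hD1 hy1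
        linarith
    · linarith
  have hwith := hk'.hasDerivWithinAt (s := Set.Ioi (1 : ℝ))
  rw [hasDerivWithinAt_iff_tendsto_slope' (by simp)] at hwith
  have hge : ∀ᶠ r in 𝓝[>] (1 : ℝ), 0 ≤ slope ((fun r : ℝ => FF (r • p)) -
      (((fun r : ℝ => w0 (r ^ 2 * t)) + fun r : ℝ => Gy t (r ^ 2 * y)) + fun r : ℝ => r ^ 2 * s))
      1 r := by
    filter_upwards [self_mem_nhdsWithin, mem_nhdsWithin_of_mem_nhds (Iio_mem_nhds
      (show (1 : ℝ) < 2 by norm_num))] with r hr1 hr2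
    have hr1' : 1 < r := hr1
    have hr2' : r < 2 := hr2
    rw [slope_def_field]
    refine div_nonneg ?_ (by linarith)
    have hA : (1 : ℝ) ≤ r ^ 2 := by nlinarith
    have hB : r ^ 2 ≤ 4 := by nlinarith
    have hGm := p147_Gy_mono (t := t) (t' := r ^ 2 * t) (y := r ^ 2 * y) ht0 (by nlinarith)
      (by nlinarith)
    have e1 := p147_FF_smul r p
    have e2 := p147_FF_smul 1 p
    simp only [Pi.sub_apply, Pi.add_apply]
    rw [e1, e2]
    simp only [one_pow, one_mul]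
    rw [← ht, ← hy, ← hs']
    linarith
  have hfin := ge_of_tendsto hwith hge
  linarith

theorem om_smooth (hF : FFs_stmt) (hD : DomC_stmt) : SmoothBoundary Om := by
  obtain ⟨-, -, -, -, -, hcl, hfr, -⟩ := hD
  intro p hp
  have hpc := hcl p (frontier_subset_closure hp)
  have hF' : ContDiff ℝ ∞ FF := hF
  refine ⟨{x : E3 | ‖x 0‖ ^ 2 < 2}, fun x => FF x - 1, ?_, ?_, ?_, ?_, ?_, ?_⟩
  · exact isOpen_lt (by fun_prop) continuous_const
  · have := hpc.1
    rw [p147_T0] at this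
    show ‖p 0‖ ^ 2 < 2
    linarith
  · exact (hF'.sub contDiff_const).contDiffOn
  · show FF p - 1 = 0
    rw [hfr p hp, sub_self]
  · rw [fderiv_sub_const]
    exact p147_fderiv_ne hF p hpc.2.1 (hfr p hp)
  · intro x hx
    have hx' : ‖x 0‖ ^ 2 < 2 := hx
    constructor
    · intro h
      have : FF x < 1 := h.2
      show FF x - 1 < 0
      linarith
    · intro h
      have h' : FF x - 1 < 0 := h
      exact ⟨hx', by linarith⟩

theorem om_disc (hD : DomC_stmt) : ∀ z : ℂ, ‖z‖ < 1 → (![z, 0, 1] : E3) ∈ frontier Om := by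
  obtain ⟨-, -, -, -, -, -, -, hlast⟩ := hD
  intro z hz
  have hk : (0 : ℝ) < 1 / 100 := by norm_num
  have hz2 : ‖z‖ ^ 2 < 1 := by nlinarith [norm_nonneg z]
  have hFF : FF (![z, 0, 1] : E3) = 1 := by
    unfold FF
    have h0 : w0 (‖(![z, 0, 1] : E3) 0‖ ^ 2) = 0 := by
      show om (1 / 100) 100 (‖z‖ ^ 2) = 0
      exact JCA1.om_of_le_one hk hz2.le
    have h1 : Gy (‖(![z, 0, 1] : E3) 0‖ ^ 2) (‖(![z, 0, 1] : E3) 1‖ ^ 2) = 0 := by
      simp [Gy]
    rw [h0, h1]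
    simp
  rw [frontier, Set.mem_sdiff]
  refine ⟨hlast _ ?_ ?_ hFF.le, ?_⟩
  · show ‖z‖ ^ 2 < 2
    linarith
  · show ‖(0 : ℂ)‖ ^ 2 < 1
    simp
  · intro h
    have := (interior_subset h).2
    rw [hFF] at this
    exact lt_irrefl _ this

end DbarC.JDD
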