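import Pool.Agent.H314.DC.St3

set_option autoImplicit false

open MeasureTheory Complex Filter Topology
open scoped ContDiff InnerProductSpace ENNReal ComplexConjugate

namespace DbarC.JDE
open DbarN

theorem dec_l0_meas (t : ℝ) : Measurable (fun s => l0 t s) := by
  unfold l0 el tau
  have h : Measurable (fun s : ℝ => Real.log (1 - s ^ 2)) :=
    Real.measurable_log.comp (measurable_const.sub (measurable_id.pow_const 2))
  exact (measurable_const.add measurable_const).add h.neg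

theorem dec_den_meas (j k : ℕ) (t : ℝ) : Measurable (fun s => den j k t s) := by
  unfold den Yc
  have h : Measurable (fun s : ℝ => Real.log (l0 t s)) := Real.measurable_log.comp (dec_l0_meas t)
  exact (measurable_id.pow_const _).mul
    (Real.measurable_exp.comp ((h.const_mul (-(1 + t))).const_mul ((j : ℝ) + 1)))

theorem dec_den (hC : CAc_stmt) (j k : ℕ) (t s : ℝ) (h0 : 0 ≤ t) (hT : t < T0) (hs0 : 0 < s)
    (hs1 : s < 1) : 0 < den j k t s ∧ den j k t s ≤ 1 / l0 t s := by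
  obtain ⟨_, _, _, _, hl, _, _, _, _, _, _, _, _, _, _, _, _, hR, hRp⟩ :=
    hC t s (by linarith) hT hs0.le hs1
  have hR1 : R2 t s ≤ 1 / l0 t s := hR h0
  have hlpos : 0 < l0 t s := by linarith
  have hle1 : 1 / l0 t s ≤ 1 := by
    rw [div_le_one hlpos]
    linarith
  have hden : den j k t s = s ^ (2 * k + 1) * R2 t s ^ (j + 1) := by
    unfold den R2
    rw [← Real.exp_nat_mul]
    push_cast
    rfl
  rw [hden]
  refine ⟨by positivity, ?_⟩
  have h1 : s ^ (2 * k + 1) ≤ 1 := pow_le_one₀ hs0.le hs1.le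
  have h2 : R2 t s ^ (j + 1) ≤ R2 t s := by
    rw [pow_succ]
    have : R2 t s ^ j ≤ 1 := pow_le_one₀ hRp.le (hR1.trans hle1)
    nlinarith
  have h3 : 0 < R2 t s ^ (j + 1) := by positivity
  calc s ^ (2 * k + 1) * R2 t s ^ (j + 1) ≤ 1 * R2 t s ^ (j + 1) :=
        mul_le_mul_of_nonneg_right h1 h3.le
    _ = R2 t s ^ (j + 1) := one_mul _
    _ ≤ 1 / l0 t s := h2.trans hR1

/-- integrability of functions of size `O(l)` -/
theorem dec_int (hC : CAc_stmt) (j k : ℕ) (t : ℝ) (h0 : 0 ≤ t) (hT : t < T0) (H : ℝ → ℝ)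
    (hHm : Measurable H) (C : ℝ) (hH : ∀ s ∈ Set.Ioo (0 : ℝ) 1, |H s| ≤ C * l0 t s) :
    IntegrableOn (fun s => H s * den j k t s) (Set.Ioo (0 : ℝ) 1) := by
  refine Measure.integrableOn_of_bounded (M := C) ?_ ?_ ?_
  · rw [Real.volume_Ioo]
    exact ENNReal.ofReal_ne_top
  · exact (hHm.mul (dec_den_meas j k t)).aestronglyMeasurable
  · rw [ae_restrict_iff' measurableSet_Ioo]
    refine Filter.Eventually.of_forall fun s hs => ?_
    obtain ⟨hd0, hd1⟩ := dec_den hC j k t s h0 hT hs.1 hs.2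
    obtain ⟨_, _, _, _, hl, _⟩ := hC t s (by linarith) hT hs.1.le hs.2
    have hlpos : 0 < l0 t s := by linarith
    rw [norm_mul, Real.norm_eq_abs, Real.norm_eq_abs, abs_of_pos hd0]
    have hC0 : 0 ≤ C * l0 t s := (abs_nonneg _).trans (hH s hs)
    calc |H s| * den j k t s ≤ (C * l0 t s) * (1 / l0 t s) :=
          mul_le_mul (hH s hs) hd1 hd0.le hC0
      _ = C := by field_simp

theorem dec_Iw_pos (hC : CAc_stmt) (j k : ℕ) (t : ℝ) (h0 : 0 ≤ t) (hT : t < T0) :
    0 < Iw j k t := by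
  have hint : IntegrableOn (fun s => den j k t s) (Set.Ioo (0 : ℝ) 1) := by
    have := dec_int hC j k t h0 hT (fun _ => 1) measurable_const 1 (fun s hs => by
      obtain ⟨_, _, _, _, hl, _⟩ := hC t s (by linarith) hT hs.1.le hs.2
      rw [abs_one, one_mul]
      linarith)
    simpa using this
  unfold Iw
  rw [setIntegral_pos_iff_support_of_nonneg_ae ?_ hint]
  · have hsub : Set.Ioo (0 : ℝ) 1 ⊆ Function.support (fun s => den j k t s) ∩ Set.Ioo (0 : ℝ) 1 := by
      intro s hs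
      exact ⟨(dec_den hC j k t s h0 hT hs.1 hs.2).1.ne', hs⟩
    refine lt_of_lt_of_le ?_ (measure_mono hsub)
    rw [Real.volume_Ioo]
    simp
  · rw [Filter.EventuallyLE, ae_restrict_iff' measurableSet_Ioo]
    exact Filter.Eventually.of_forall fun s hs => (dec_den hC j k t s h0 hT hs.1 hs.2).1.le

theorem dec_Es_mono (hC : CAc_stmt) (j k : ℕ) (t : ℝ) (h0 : 0 ≤ t) (hT : t < T0) (H G : ℝ → ℝ)
    (hH : IntegrableOn (fun s => H s * den j k t s) (Set.Ioo (0 : ℝ) 1))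
    (hG : IntegrableOn (fun s => G s * den j k t s) (Set.Ioo (0 : ℝ) 1))
    (h : ∀ s ∈ Set.Ioo (0 : ℝ) 1, H s ≤ G s) : Es j k t H ≤ Es j k t G := by
  unfold Es
  refine div_le_div_of_nonneg_right ?_ (dec_Iw_pos hC j k t h0 hT).le
  refine setIntegral_mono_on hH hG measurableSet_Ioo fun s hs => ?_
  exact mul_le_mul_of_nonneg_right (h s hs) (dec_den hC j k t s h0 hT hs.1 hs.2).1.le

theorem dec_Es_const (hC : CAc_stmt) (j k : ℕ) (t : ℝ) (h0 : 0 ≤ t) (hT : t < T0) (c : ℝ) :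
    Es j k t (fun _ => c) = c := by
  unfold Es
  rw [integral_const_mul]
  exact mul_div_cancel_right₀ c (dec_Iw_pos hC j k t h0 hT).ne'

theorem dec_Es_mul (j k : ℕ) (t c : ℝ) (H : ℝ → ℝ) :
    Es j k t (fun s => c * H s) = c * Es j k t H := by
  unfold Es
  have h : (fun s => c * H s * den j k t s) = fun s => c * (H s * den j k t s) := by
    funext s
    ring
  rw [h, integral_const_mul, mul_div_assoc]

theorem dec_Es_add (j k : ℕ) (t : ℝ) (H G : ℝ → ℝ)
    (hH : IntegrableOn (fun s => H s * den j k t s) (Set.Ioo (0 : ℝ) 1))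
    (hG : IntegrableOn (fun s => G s * den j k t s) (Set.Ioo (0 : ℝ) 1)) :
    Es j k t (fun s => H s + G s) = Es j k t H + Es j k t G := by
  unfold Es
  have h : (fun s => (H s + G s) * den j k t s) = fun s => H s * den j k t s + G s * den j k t s := by
    funext s
    ring
  rw [h, integral_add hH hG, add_div]

theorem dec_pt_aux (La tau l : ℝ) (h1 : 0 ≤ La) (h2 : 0 ≤ tau) (hl : 100 + La + tau = l) :
    1 ≤ (1 + La) ^ (1 / 4 : ℝ) ∧ (1 + La) ^ (1 / 4 : ℝ) ≤ 1 + La ∧ (1 + La) ^ (1 / 4 : ℝ) ≤ l ∧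
    (1 + La) ^ (1 / 4 : ℝ) * Real.log l ^ 2 ≤ 16 * l ∧ 4 ≤ Real.log l := by
  have hl1 : 100 ≤ l := by linarith
  have a1 : 1 ≤ (1 + La) ^ (1 / 4 : ℝ) := Real.one_le_rpow (by linarith) (by norm_num)
  have a2 : (1 + La) ^ (1 / 4 : ℝ) ≤ 1 + La := by
    calc (1 + La) ^ (1 / 4 : ℝ) ≤ (1 + La) ^ (1 : ℝ) :=
          Real.rpow_le_rpow_of_exponent_le (by linarith) (by norm_num)
      _ = 1 + La := Real.rpow_one _
  have hlog0 : 0 ≤ Real.log l := Real.log_nonneg (by linarith)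
  have hlog : Real.log l ≤ l ^ (1 / 4 : ℝ) / (1 / 4 : ℝ) := Real.log_le_rpow_div (by linarith) (by norm_num)
  have hth : (1 + La) ^ (1 / 4 : ℝ) ≤ l ^ (1 / 4 : ℝ) :=
    Real.rpow_le_rpow (by linarith) (by linarith) (by norm_num)
  refine ⟨a1, a2, by linarith, ?_, ?_⟩
  · have hq : 0 ≤ l ^ (1 / 4 : ℝ) := by positivity
    have e1 : Real.log l ^ 2 ≤ (4 * l ^ (1 / 4 : ℝ)) ^ 2 := by
      apply pow_le_pow_left₀ hlog0
      calc Real.log l ≤ l ^ (1 / 4 : ℝ) / (1 / 4 : ℝ) := hlog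
        _ = 4 * l ^ (1 / 4 : ℝ) := by ring
    calc (1 + La) ^ (1 / 4 : ℝ) * Real.log l ^ 2
        ≤ l ^ (1 / 4 : ℝ) * (4 * l ^ (1 / 4 : ℝ)) ^ 2 := by gcongr
      _ = 16 * (l ^ (1 / 4 : ℝ)) ^ 3 := by ring
      _ ≤ 16 * l := by
        have e2 : (l ^ (1 / 4 : ℝ)) ^ 3 = l ^ (3 / 4 : ℝ) := by
          rw [← Real.rpow_natCast, ← Real.rpow_mul (by linarith)]; norm_num
        have e3 : l ^ (3 / 4 : ℝ) ≤ l ^ (1 : ℝ) :=
          Real.rpow_le_rpow_of_exponent_le (by linarith) (by norm_num)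
        rw [Real.rpow_one] at e3
        rw [e2]; linarith
  · rw [Real.le_log_iff_exp_le (by linarith)]
    have h := Real.exp_one_lt_d9
    have e : Real.exp 4 = Real.exp 1 ^ 4 := by rw [← Real.exp_nat_mul]; norm_num
    rw [e]
    have h0 := Real.exp_pos 1
    calc Real.exp 1 ^ 4 ≤ 2.7182818286 ^ 4 := by gcongr
      _ ≤ 100 := by norm_num
      _ ≤ l := hl1

theorem dec_pt (hC : CAc_stmt) (t s : ℝ) (h0 : 0 ≤ t) (hT : t < T0) (hs0 : 0 < s) (hs1 : s < 1) :
    1 ≤ th t ∧ th t ≤ 1 + La t ∧ th t ≤ l0 t s ∧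
    th t * Real.log (l0 t s) ^ 2 ≤ 16 * l0 t s ∧ 4 ≤ Real.log (l0 t s) := by
  obtain ⟨hLa, -, -, hl, -⟩ := hC t s (by linarith) hT hs0.le hs1
  have htau : 0 ≤ tau s := by
    unfold tau
    have : Real.log (1 - s ^ 2) ≤ 0 := Real.log_nonpos (by nlinarith) (by nlinarith)
    linarith
  unfold th
  exact dec_pt_aux (La t) (tau s) (l0 t s) hLa htau hl

theorem dec_La1 (hC : CAc_stmt) (t : ℝ) (h0 : 0 ≤ t) (hT : t < T0) :
    10 ^ 6 * (Real.exp (La t) - 1) ≤ La1 t ∧ (t ≤ 1 → La1 t = 0 ∧ La2 t = 0 ∧ La t = 0) := by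
  obtain ⟨_, _, _, _, _, hd0, hd1, hdexp, _⟩ := hC t 0 (by linarith) hT le_rfl (by norm_num)
  have hz : t ≤ 1 → om (1 / 100) 100 t = 0 := by
    intro h1
    unfold om
    rw [expNegInvGlue.zero_of_nonpos (by
      apply div_nonpos_of_nonpos_of_nonneg <;> linarith), mul_zero]
  have hzero : t ≤ 1 → La1 t = 0 ∧ La2 t = 0 ∧ La t = 0 := by
    intro h1
    have h2 := hz h1
    refine ⟨?_, ?_, ?_⟩
    · unfold La1 Lm1 om1
      rw [h2]
      simp
    · unfold La2 Lm2 om2 om1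
      rw [h2]
      simp
    · unfold La Lm dl
      rw [h2]
      simp
  refine ⟨?_, hzero⟩
  rcases le_or_gt t 1 with h1 | h1
  · obtain ⟨a, _, c⟩ := hzero h1
    rw [a, c]
    simp
  · have hT0 : T0 = 1 + 1 / 10000 := by
      unfold T0 tB
      norm_num
    rw [hT0] at hT
    have hexp : Real.exp (La t) = 1 / d0 t := by
      rw [hdexp, Real.exp_neg]
      field_simp
    have hom0 : 0 ≤ om (1 / 100) 100 t := by
      unfold om
      exact mul_nonneg (Real.exp_pos _).le (expNegInvGlue.nonneg _)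
    have hdo : d0 t = 1 - om (1 / 100) 100 t := rfl
    have hLa1 : La1 t = om (1 / 100) 100 t * (1 / 100 / (t - 1) ^ 2) / d0 t := rfl
    rw [hLa1, hexp, le_div_iff₀ hd0]
    have e1 : 10 ^ 6 * (1 / d0 t - 1) * d0 t = 10 ^ 6 * (1 - d0 t) := by
      field_simp
    rw [e1, hdo]
    have h2 : (10 : ℝ) ^ 6 ≤ 1 / 100 / (t - 1) ^ 2 := by
      have h3 : 0 < (t - 1) ^ 2 := by
        have : 0 < t - 1 := by linarith
        positivity
      rw [le_div_iff₀ h3]
      nlinarith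
    nlinarith

theorem dec_V2 (hC : CAc_stmt) (j k : ℕ) (t s : ℝ) (h0 : 0 ≤ t) (hT : t < T0) (hs0 : 0 < s)
    (hs1 : s < 1) : (2 * k + 1) + 99 / 100 * (j + 1) * (tau2 s / l0 t s) ≤ V2 j k t s ∧
    tau1 s ^ 2 ≤ tau2 s ∧ 2 / (100 + La t) ≤ tau2 s / l0 t s ∧
    tau1 s ^ 2 ≤ 4 * Real.exp (2 * tau s) ∧
    R2 t s * Ycs t s ^ 2 ≤ 5 * tau1 s ^ 2 / l0 t s ^ 3 := by
  obtain ⟨hLa, -, -, hl, hl100, -, -, -, -, -, -, -, -, -, -, -, -, hR, hR0⟩ :=
    hC t s (by linarith) hT hs0.le hs1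
  have hR2 := hR h0
  have hs2 : s ^ 2 < 1 := by nlinarith
  have hs2' : 0 < s ^ 2 := by positivity
  have h1s : 0 < 1 - s ^ 2 := by linarith
  have hlpos : 0 < l0 t s := by linarith
  have e1 : tau1 s ^ 2 = 4 * s ^ 2 / (1 - s ^ 2) ^ 2 := by
    unfold tau1
    rw [div_pow]
    ring
  have hexp : Real.exp (2 * tau s) = 1 / (1 - s ^ 2) ^ 2 := by
    unfold tau
    have : 2 * -Real.log (1 - s ^ 2) = -(((2 : ℕ) : ℝ) * Real.log (1 - s ^ 2)) := by
      push_cast; ring
    rw [this, Real.exp_neg, Real.exp_nat_mul, Real.exp_log h1s, one_div]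
  have h12 : tau1 s ^ 2 ≤ tau2 s := by
    rw [e1]
    unfold tau2
    apply div_le_div_of_nonneg_right _ (by positivity)
    linarith
  have h2e : 2 * Real.exp (2 * tau s) ≤ tau2 s := by
    rw [hexp]
    unfold tau2
    rw [mul_one_div]
    apply div_le_div_of_nonneg_right _ (by positivity)
    linarith
  have htau2 : 0 ≤ tau2 s := le_trans (by positivity) h2e
  have htau : 0 ≤ tau s := by
    unfold tau
    have := Real.log_nonpos h1s.le (by linarith)
    linarith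
  refine ⟨?_, h12, ?_, ?_, ?_⟩
  · unfold V2 Ycss
    have a1 : (2 * (k : ℝ) + 1) ≤ (2 * k + 1) / s ^ 2 := by
      rw [le_div_iff₀ hs2']
      have : (0 : ℝ) ≤ 2 * k + 1 := by positivity
      nlinarith
    have a2 : tau1 s ^ 2 / l0 t s ^ 2 ≤ 1 / 100 * (tau2 s / l0 t s) := by
      rw [div_le_iff₀ (by positivity)]
      have : 1 / 100 * (tau2 s / l0 t s) * l0 t s ^ 2 = 1 / 100 * (tau2 s * l0 t s) := by
        field_simp
      rw [this]
      nlinarith
    have a3 : 0 ≤ tau2 s / l0 t s := by positivity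
    have a4 : 99 / 100 * (tau2 s / l0 t s) ≤
        (1 + t) * (tau2 s / l0 t s - tau1 s ^ 2 / l0 t s ^ 2) := by
      have : 99 / 100 * (tau2 s / l0 t s) ≤ tau2 s / l0 t s - tau1 s ^ 2 / l0 t s ^ 2 := by
        linarith
      nlinarith
    have a5 : (0 : ℝ) ≤ (j : ℝ) + 1 := by positivity
    have a6 := mul_le_mul_of_nonneg_left a4 a5
    nlinarith
  · have hb : 0 < 100 + La t := by linarith
    rw [div_le_div_iff₀ hb hlpos]
    have b1 := Real.add_one_le_exp (2 * tau s)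
    have b2 : 2 * (1 + 2 * tau s) ≤ tau2 s := by linarith
    calc 2 * l0 t s = 2 * (100 + La t + tau s) := by rw [hl]
      _ ≤ 2 * (1 + 2 * tau s) * (100 + La t) := by nlinarith
      _ ≤ tau2 s * (100 + La t) := mul_le_mul_of_nonneg_right b2 hb.le
  · rw [e1, hexp, mul_one_div]
    apply div_le_div_of_nonneg_right _ (by positivity)
    linarith
  · unfold Ycs
    have hT0 : T0 = 1 + 1 / 10000 := by
      unfold T0 tB
      norm_num
    have c1 : (1 + t) ^ 2 ≤ 5 := by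
      rw [hT0] at hT
      nlinarith
    have c2 : (-(1 + t) * tau1 s / l0 t s) ^ 2 = (1 + t) ^ 2 * (tau1 s ^ 2 / l0 t s ^ 2) := by
      ring
    rw [c2]
    have c3 : 0 ≤ tau1 s ^ 2 / l0 t s ^ 2 := by positivity
    calc R2 t s * ((1 + t) ^ 2 * (tau1 s ^ 2 / l0 t s ^ 2))
        ≤ (1 / l0 t s) * (5 * (tau1 s ^ 2 / l0 t s ^ 2)) := by
          apply mul_le_mul hR2 _ (by positivity) (by positivity)
          exact mul_le_mul_of_nonneg_right c1 c3
      _ = 5 * tau1 s ^ 2 / l0 t s ^ 3 := by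
          field_simp

/-- concentration near `s = 1` for large `k` -/
theorem dec_conc (hC : CAc_stmt) (n : ℕ) (B : ℝ) : ∃ k0 : ℕ, ∀ j k : ℕ, ∀ t : ℝ, j < n →
    k0 ≤ k → 0 ≤ t → t < T0 → B ≤ Es j k t (fun s => Real.log (l0 t s)) := by
  have hT0 : T0 = 1 + (1 / 100) / 100 := rfl
  obtain ⟨B1, hB1⟩ : ∃ B1 : ℝ, B1 = |B| := ⟨_, rfl⟩
  have hB1n : 0 ≤ B1 := by rw [hB1]; exact abs_nonneg B
  have hBB : B ≤ B1 := by rw [hB1]; exact le_abs_self B
  obtain ⟨q, hq⟩ : ∃ q : ℝ, q = Real.exp (-Real.exp (2 * B1)) := ⟨_, rfl⟩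
  have hq0 : 0 < q := by rw [hq]; exact Real.exp_pos _
  have hq1 : q < 1 := by
    rw [hq]
    have := Real.exp_pos (2 * B1)
    rw [← Real.exp_zero]
    exact Real.exp_lt_exp.2 (by linarith)
  obtain ⟨a, ha⟩ : ∃ a : ℝ, a = Real.sqrt (1 - q) := ⟨_, rfl⟩
  have ha2 : a ^ 2 = 1 - q := by rw [ha]; exact Real.sq_sqrt (by linarith)
  have ha0 : 0 < a := by rw [ha]; exact Real.sqrt_pos.2 (by linarith)
  have ha1 : a < 1 := by nlinarith
  have htaua : tau a = Real.exp (2 * B1) := by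
    unfold tau
    rw [ha2]
    have h : 1 - (1 - q) = q := by ring
    rw [h, hq, Real.log_exp]; ring
  obtain ⟨b, hb⟩ : ∃ b : ℝ, b = (2 * a + 1) / 3 := ⟨_, rfl⟩
  obtain ⟨c, hc⟩ : ∃ c : ℝ, c = (a + 2) / 3 := ⟨_, rfl⟩
  have hab : a < b := by linarith
  have hbc : b < c := by linarith
  have hc1 : c < 1 := by linarith
  have hb0 : 0 < b := by linarith
  have hc0 : 0 < c := by linarith
  have htmono : ∀ x y : ℝ, 0 ≤ x → x ≤ y → y < 1 → tau x ≤ tau y := by
    intro x y hx hxy hy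
    unfold tau
    have h1 : 0 < 1 - y ^ 2 := by nlinarith
    have h2 : 1 - y ^ 2 ≤ 1 - x ^ 2 := by nlinarith
    have := Real.log_le_log h1 h2
    linarith
  have ht00 : tau 0 = 0 := by unfold tau; simp
  have htc : 0 ≤ tau c := by rw [← ht00]; exact htmono 0 c le_rfl hc0.le hc1
  obtain ⟨L, hL⟩ : ∃ L : ℝ, L = 3 * Real.log (1 + tau c / 100) := ⟨_, rfl⟩
  have hL0 : 0 ≤ L := by
    rw [hL]
    have : 0 ≤ Real.log (1 + tau c / 100) := Real.log_nonneg (by linarith [div_nonneg htc (by norm_num : (0:ℝ) ≤ 100)])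
    linarith
  -- choice of k0
  have hr0 : 0 ≤ a / b := by positivity
  have hr1 : a / b < 1 := by rw [div_lt_one hb0]; exact hab
  have hlim : Tendsto (fun k : ℕ => a * Real.exp (n * L) * (a / b) ^ k) atTop (𝓝 0) := by
    have := (tendsto_pow_atTop_nhds_zero_of_lt_one hr0 hr1).const_mul (a * Real.exp (n * L))
    simpa using this
  have hev : ∀ᶠ k : ℕ in atTop, a * Real.exp (n * L) * (a / b) ^ k < c - b :=
    hlim.eventually_lt_const (by linarith)
  obtain ⟨k0, hk0⟩ := eventually_atTop.1 hev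
  refine ⟨k0, ?_⟩
  intro j k t hj hk ht htT
  have ht2 : -1 < t := by linarith
  have hlog : ∀ s : ℝ, 0 ≤ s → s < 1 → 0 ≤ La t ∧ l0 t s = 100 + La t + tau s ∧ 100 ≤ l0 t s := by
    intro s hs0 hs1
    have h := hC t s ht2 htT hs0 hs1
    exact ⟨h.1, h.2.2.2.1.symm, h.2.2.2.2.1⟩
  have hLa : 0 ≤ La t := (hlog 0 le_rfl one_pos).1
  have hDpos : ∀ s ∈ Set.Ioo (0:ℝ) 1, 0 < den j k t s := fun s hs =>
    (dec_den hC j k t s ht htT hs.1 hs.2).1
  have hI := dec_Iw_pos hC j k t ht htT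
  have hDint : IntegrableOn (fun s => den j k t s) (Set.Ioo (0:ℝ) 1) := by
    have := dec_int hC j k t ht htT (fun _ => 1) measurable_const 1 (by
      intro s hs
      have := (hlog s hs.1.le hs.2).2.2
      rw [abs_one]; linarith)
    simpa using this
  -- Yc monotone
  have hYmono : ∀ x y : ℝ, 0 ≤ x → x ≤ y → y < 1 → Yc t y ≤ Yc t x := by
    intro x y hx hxy hy
    unfold Yc
    have h1 := hlog x hx (lt_of_le_of_lt hxy hy)
    have h2 := hlog y (hx.trans hxy) hy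
    have h3 := htmono x y hx hxy hy
    have h4 : Real.log (l0 t x) ≤ Real.log (l0 t y) := by
      apply Real.log_le_log (by linarith [h1.2.2])
      rw [h1.2.1, h2.2.1]; linarith
    nlinarith
  have hYc : Yc t 0 - Yc t c ≤ L := by
    unfold Yc
    have h1 := hlog 0 le_rfl one_pos
    have h2 := hlog c hc0.le hc1
    have h3 : Real.log (l0 t c) - Real.log (l0 t 0) ≤ Real.log (1 + tau c / 100) := by
      rw [← Real.log_div (by linarith [h2.2.2]) (by linarith [h1.2.2])]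
      apply Real.log_le_log
      · apply div_pos <;> linarith [h1.2.2, h2.2.2]
      · rw [div_le_iff₀ (by linarith [h1.2.2])]
        rw [h1.2.1, h2.2.1, ht00]
        have : 0 ≤ La t * (tau c / 100) := by positivity
        nlinarith
    have h4 : 0 ≤ Real.log (1 + tau c / 100) :=
      Real.log_nonneg (by linarith [div_nonneg htc (by norm_num : (0:ℝ) ≤ 100)])
    rw [hL]
    have h5 : (1 + t) ≤ 3 := by rw [hT0] at htT; linarith
    have h6 : (1 + t) * (Real.log (l0 t c) - Real.log (l0 t 0)) ≤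
        (1 + t) * Real.log (1 + tau c / 100) := mul_le_mul_of_nonneg_left h3 (by linarith)
    have h7 : (1 + t) * Real.log (1 + tau c / 100) ≤ 3 * Real.log (1 + tau c / 100) :=
      mul_le_mul_of_nonneg_right h5 h4
    nlinarith
  -- exp comparison
  have hexp : Real.exp ((j + 1) * Yc t 0) ≤ Real.exp (n * L) * Real.exp ((j + 1) * Yc t c) := by
    rw [← Real.exp_add]
    apply Real.exp_le_exp.2
    have hjn : ((j : ℝ) + 1) ≤ n := by exact_mod_cast hj
    have h1 : ((j : ℝ) + 1) * (Yc t 0 - Yc t c) ≤ (j + 1) * L :=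
      mul_le_mul_of_nonneg_left hYc (by positivity)
    have h2 : ((j : ℝ) + 1) * L ≤ n * L := mul_le_mul_of_nonneg_right hjn hL0
    nlinarith
  -- integral bounds
  have hsub1 : Set.Ioo 0 a ⊆ Set.Ioo (0:ℝ) 1 := Set.Ioo_subset_Ioo le_rfl ha1.le
  have hsub2 : Set.Ioo b c ⊆ Set.Ioo (0:ℝ) 1 := Set.Ioo_subset_Ioo hb0.le hc1.le
  have hint1 : ∫ s in Set.Ioo 0 a, den j k t s ≤
      a * (a ^ (2 * k + 1) * Real.exp ((j + 1) * Yc t 0)) := by
    have h1 : ∫ s in Set.Ioo 0 a, den j k t s ≤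
        ∫ s in Set.Ioo 0 a, (a ^ (2 * k + 1) * Real.exp ((j + 1) * Yc t 0)) := by
      apply setIntegral_mono_on (hDint.mono_set hsub1) _ measurableSet_Ioo
      · intro s hs
        unfold den
        apply mul_le_mul
        · exact pow_le_pow_left₀ hs.1.le hs.2.le _
        · apply Real.exp_le_exp.2
          apply mul_le_mul_of_nonneg_left _ (by positivity)
          exact hYmono 0 s le_rfl hs.1.le (hs.2.trans ha1)
        · positivity
        · positivity
      · exact integrableOn_const (by simp)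
    refine h1.trans (le_of_eq ?_)
    rw [setIntegral_const]
    simp [Measure.real, ha0.le]
  have hint2 : (c - b) * (b ^ (2 * k + 1) * Real.exp ((j + 1) * Yc t c)) ≤
      ∫ s in Set.Ioo b c, den j k t s := by
    have h1 : ∫ s in Set.Ioo b c, (b ^ (2 * k + 1) * Real.exp ((j + 1) * Yc t c)) ≤
        ∫ s in Set.Ioo b c, den j k t s := by
      apply setIntegral_mono_on _ (hDint.mono_set hsub2) measurableSet_Ioo
      · intro s hs
        unfold den
        apply mul_le_mul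
        · exact pow_le_pow_left₀ hb0.le hs.1.le _
        · apply Real.exp_le_exp.2
          apply mul_le_mul_of_nonneg_left _ (by positivity)
          exact hYmono s c (hb0.le.trans hs.1.le) hs.2.le hc1
        · positivity
        · have : 0 < s := hb0.trans hs.1
          positivity
      · exact integrableOn_const (by simp)
    refine le_trans (le_of_eq ?_) h1
    rw [setIntegral_const]
    simp [Measure.real, hbc.le]
  have hcmp : ∫ s in Set.Ioo 0 a, den j k t s ≤ ∫ s in Set.Ioo b c, den j k t s := by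
    refine hint1.trans (le_trans ?_ hint2)
    have h1 : a * Real.exp (n * L) * (a / b) ^ (2 * k + 1) ≤ c - b := by
      refine le_trans ?_ (hk0 k hk).le
      apply mul_le_mul_of_nonneg_left _ (by positivity)
      exact pow_le_pow_of_le_one hr0 hr1.le (by omega)
    have h2 : a * Real.exp (n * L) * a ^ (2 * k + 1) ≤ (c - b) * b ^ (2 * k + 1) := by
      have h3 := mul_le_mul_of_nonneg_right h1 (pow_pos hb0 (2 * k + 1)).le
      rw [div_pow] at h3
      have h4 : a * Real.exp (n * L) * (a ^ (2 * k + 1) / b ^ (2 * k + 1)) * b ^ (2 * k + 1) =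
          a * Real.exp (n * L) * a ^ (2 * k + 1) := by
        have := (pow_pos hb0 (2 * k + 1)).ne'
        field_simp
      rw [h4] at h3
      exact h3
    have hE := Real.exp_pos ((j + 1) * Yc t c)
    calc a * (a ^ (2 * k + 1) * Real.exp ((j + 1) * Yc t 0))
        ≤ a * (a ^ (2 * k + 1) * (Real.exp (n * L) * Real.exp ((j + 1) * Yc t c))) := by
          apply mul_le_mul_of_nonneg_left _ ha0.le
          exact mul_le_mul_of_nonneg_left hexp (by positivity)
      _ = (a * Real.exp (n * L) * a ^ (2 * k + 1)) * Real.exp ((j + 1) * Yc t c) := by ring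
      _ ≤ ((c - b) * b ^ (2 * k + 1)) * Real.exp ((j + 1) * Yc t c) :=
          mul_le_mul_of_nonneg_right h2 hE.le
      _ = _ := by ring
  -- the comparison function
  have hGm : Measurable (fun s : ℝ => B1 * (1 + (Set.Ioo b c).indicator (fun _ => (1:ℝ)) s -
      (Set.Ioo 0 a).indicator (fun _ => (1:ℝ)) s)) := by
    apply Measurable.const_mul
    apply Measurable.sub
    · apply Measurable.const_add
      exact measurable_const.indicator measurableSet_Ioo
    · exact measurable_const.indicator measurableSet_Ioo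
  have hGint := dec_int hC j k t ht htT _ hGm (3 * B1) (by
    intro s hs
    have h1 := (hlog s hs.1.le hs.2).2.2
    have h2 : |1 + (Set.Ioo b c).indicator (fun _ => (1:ℝ)) s -
      (Set.Ioo 0 a).indicator (fun _ => (1:ℝ)) s| ≤ 3 := by
      rw [abs_le]
      have h3 : 0 ≤ (Set.Ioo b c).indicator (fun _ => (1:ℝ)) s ∧
          (Set.Ioo b c).indicator (fun _ => (1:ℝ)) s ≤ 1 := by
        constructor
        · exact Set.indicator_nonneg (fun _ _ => zero_le_one) s
        · exact Set.indicator_le' (fun _ _ => le_rfl) (fun _ _ => zero_le_one) s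
      have h4 : 0 ≤ (Set.Ioo 0 a).indicator (fun _ => (1:ℝ)) s ∧
          (Set.Ioo 0 a).indicator (fun _ => (1:ℝ)) s ≤ 1 := by
        constructor
        · exact Set.indicator_nonneg (fun _ _ => zero_le_one) s
        · exact Set.indicator_le' (fun _ _ => le_rfl) (fun _ _ => zero_le_one) s
      constructor <;> linarith [h3.1, h3.2, h4.1, h4.2]
    rw [abs_mul, abs_of_nonneg hB1n]
    calc B1 * _ ≤ B1 * 3 := mul_le_mul_of_nonneg_left h2 hB1n
      _ ≤ B1 * (3 * l0 t s) := mul_le_mul_of_nonneg_left (by linarith) hB1n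
      _ = 3 * B1 * l0 t s := by ring)
  have hHint := dec_int hC j k t ht htT (fun s => Real.log (l0 t s))
    (Real.measurable_log.comp (dec_l0_meas t)) 1 (by
    intro s hs
    have h1 := (hlog s hs.1.le hs.2).2.2
    have h2 : 0 ≤ Real.log (l0 t s) := Real.log_nonneg (by linarith)
    rw [abs_of_nonneg h2, one_mul]
    have := Real.log_le_sub_one_of_pos (show 0 < l0 t s by linarith)
    linarith)
  have hmono := dec_Es_mono hC j k t ht htT _ _ hGint hHint (by
    intro s hs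
    have h1 := hlog s hs.1.le hs.2
    have h2 : 0 ≤ Real.log (l0 t s) := Real.log_nonneg (by linarith [h1.2.2])
    by_cases hsa : s < a
    · have h3 : (Set.Ioo b c).indicator (fun _ => (1:ℝ)) s = 0 := by
        apply Set.indicator_of_notMem
        intro h; linarith [h.1]
      have h4 : (Set.Ioo 0 a).indicator (fun _ => (1:ℝ)) s = 1 :=
        Set.indicator_of_mem (show s ∈ Set.Ioo 0 a from ⟨hs.1, hsa⟩) _
      rw [h3, h4]
      simpa using h2
    · push Not at hsa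
      have h3 : (Set.Ioo b c).indicator (fun _ => (1:ℝ)) s ≤ 1 :=
        Set.indicator_le' (fun _ _ => le_rfl) (fun _ _ => zero_le_one) s
      have h4 : (Set.Ioo 0 a).indicator (fun _ => (1:ℝ)) s = 0 := by
        apply Set.indicator_of_notMem
        intro h; linarith [h.2]
      rw [h4]
      have h5 : 2 * B1 ≤ Real.log (l0 t s) := by
        rw [← Real.log_exp (2 * B1)]
        apply Real.log_le_log (Real.exp_pos _)
        rw [h1.2.1, ← htaua]
        have := htmono a s ha0.le hsa hs.2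
        linarith
      nlinarith)
  refine hBB.trans (le_trans ?_ hmono)
  unfold Es
  rw [le_div_iff₀ hI]
  have hind : ∀ S : Set ℝ, MeasurableSet S → S ⊆ Set.Ioo (0:ℝ) 1 →
      ∫ s in Set.Ioo (0:ℝ) 1, S.indicator (fun s => den j k t s) s = ∫ s in S, den j k t s := by
    intro S hS hSub
    rw [setIntegral_indicator hS, Set.inter_eq_right.2 hSub]
  have hi1 : IntegrableOn ((Set.Ioo b c).indicator (fun s => den j k t s)) (Set.Ioo (0:ℝ) 1) :=
    hDint.indicator measurableSet_Ioo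
  have hi2 : IntegrableOn ((Set.Ioo 0 a).indicator (fun s => den j k t s)) (Set.Ioo (0:ℝ) 1) :=
    hDint.indicator measurableSet_Ioo
  have hfun : (fun s => B1 * (1 + (Set.Ioo b c).indicator (fun _ => (1:ℝ)) s -
      (Set.Ioo 0 a).indicator (fun _ => (1:ℝ)) s) * den j k t s) =
      fun s => B1 * ((den j k t s + (Set.Ioo b c).indicator (fun s => den j k t s) s) -
        (Set.Ioo 0 a).indicator (fun s => den j k t s) s) := by
    funext s
    have h1 : ∀ S : Set ℝ, S.indicator (fun _ => (1:ℝ)) s * den j k t s =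
        S.indicator (fun s => den j k t s) s := by
      intro S
      by_cases h : s ∈ S
      · rw [Set.indicator_of_mem h, Set.indicator_of_mem h, one_mul]
      · rw [Set.indicator_of_notMem h, Set.indicator_of_notMem h, zero_mul]
    rw [← h1, ← h1]; ring
  have hA : ∫ s in Set.Ioo (0:ℝ) 1, ((den j k t s + (Set.Ioo b c).indicator (fun s => den j k t s) s) -
        (Set.Ioo 0 a).indicator (fun s => den j k t s) s) =
      (∫ s in Set.Ioo (0:ℝ) 1, (den j k t s + (Set.Ioo b c).indicator (fun s => den j k t s) s)) -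
        ∫ s in Set.Ioo (0:ℝ) 1, (Set.Ioo 0 a).indicator (fun s => den j k t s) s :=
    integral_sub (hDint.add hi1) hi2
  rw [hfun, integral_const_mul, hA, integral_add hDint hi1,
    hind _ measurableSet_Ioo hsub2, hind _ measurableSet_Ioo hsub1]
  have : Iw j k t = ∫ s in Set.Ioo (0:ℝ) 1, den j k t s := rfl
  rw [← this]
  apply mul_le_mul_of_nonneg_left _ hB1n
  linarith

theorem dec_low_tau {s s' : ℝ} (h0 : 0 ≤ s) (h : s ≤ s') (h1 : s' < 1) : tau s ≤ tau s' := by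
  unfold tau
  apply neg_le_neg
  apply Real.log_le_log
  · nlinarith
  · nlinarith

/-- lower bound for the mean of `1 / l` for bounded `k` -/
theorem dec_low (hC : CAc_stmt) (n : ℕ) : ∃ c : ℝ, 0 < c ∧ ∀ j k : ℕ, ∀ t : ℝ, k < n → 0 ≤ t →
    t < T0 → c ≤ (100 + La t) * Es j k t (fun s => 1 / l0 t s) := by
  have htau0 : 0 ≤ tau (1 / 2) := by
    have h := dec_low_tau (s := 0) (s' := 1 / 2) le_rfl (by norm_num) (by norm_num)
    have h2 : tau 0 = 0 := by simp [tau]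
    linarith
  have hpos : 0 < 100 / (100 + tau (1 / 2)) / (1 + 2 * (4 : ℝ) ^ (2 * n + 1)) := by positivity
  refine ⟨_, hpos, ?_⟩
  intro j k t hk ht hT
  have hI := dec_Iw_pos hC j k t ht hT
  -- facts about l0
  have hfact : ∀ s : ℝ, 0 ≤ s → s < 1 → 0 ≤ La t ∧ 100 + La t + tau s = l0 t s ∧ 100 ≤ l0 t s := by
    intro s h0 h1
    obtain ⟨a1, -, -, a4, a5, -⟩ := hC t s (by linarith) hT h0 h1
    exact ⟨a1, a4, a5⟩
  have hLa : 0 ≤ La t := (hfact 0 le_rfl one_pos).1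
  have hlmono : ∀ s s' : ℝ, 0 ≤ s → s ≤ s' → s' < 1 → l0 t s ≤ l0 t s' := by
    intro s s' h0 h h1
    rw [← (hfact s h0 (by linarith)).2.1, ← (hfact s' (by linarith) h1).2.1]
    linarith [dec_low_tau h0 h h1]
  have hYmono : ∀ s s' : ℝ, 0 ≤ s → s ≤ s' → s' < 1 → Yc t s' ≤ Yc t s := by
    intro s s' h0 h h1
    unfold Yc
    have h2 : Real.log (l0 t s) ≤ Real.log (l0 t s') :=
      Real.log_le_log (by linarith [(hfact s h0 (by linarith)).2.2]) (hlmono s s' h0 h h1)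
    nlinarith
  have hEmono : ∀ s s' : ℝ, 0 ≤ s → s ≤ s' → s' < 1 →
      Real.exp ((j + 1) * Yc t s') ≤ Real.exp ((j + 1) * Yc t s) := by
    intro s s' h0 h h1
    apply Real.exp_le_exp.mpr
    exact mul_le_mul_of_nonneg_left (hYmono s s' h0 h h1) (by positivity)
  have hdnn : ∀ s : ℝ, 0 ≤ s → 0 ≤ den j k t s := by
    intro s h0
    unfold den
    positivity
  -- integrability
  have hint1 : IntegrableOn (fun s => den j k t s) (Set.Ioo (0 : ℝ) 1) := by
    have h := dec_int hC j k t ht hT (fun _ => 1) measurable_const 1 (by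
      intro s hs
      have := (hfact s hs.1.le hs.2).2.2
      rw [abs_one]
      linarith)
    simpa using h
  have hint2 : IntegrableOn (fun s => 1 / l0 t s * den j k t s) (Set.Ioo (0 : ℝ) 1) := by
    refine dec_int hC j k t ht hT (fun s => 1 / l0 t s) ((dec_l0_meas t).const_div 1) 1 ?_
    intro s hs
    have h3 := (hfact s hs.1.le hs.2).2.2
    have h4 : 0 < l0 t s := by linarith
    rw [abs_of_pos (by positivity), one_mul]
    calc 1 / l0 t s ≤ 1 := by
          rw [div_le_one h4]; linarith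
      _ ≤ l0 t s := by linarith
  have hA : Set.Ioc (0 : ℝ) (1 / 2) ⊆ Set.Ioo (0 : ℝ) 1 := by
    intro s hs
    exact ⟨hs.1, lt_of_le_of_lt hs.2 (by norm_num)⟩
  have hA2 : Set.Ioc (1 / 4 : ℝ) (1 / 2) ⊆ Set.Ioc (0 : ℝ) (1 / 2) := by
    intro s hs
    exact ⟨by linarith [hs.1], hs.2⟩
  have hB : Set.Ioo (1 / 2 : ℝ) 1 ⊆ Set.Ioo (0 : ℝ) 1 := by
    intro s hs
    exact ⟨by linarith [hs.1], hs.2⟩
  have hAB : Set.Ioc (0 : ℝ) (1 / 2) ∪ Set.Ioo (1 / 2 : ℝ) 1 = Set.Ioo (0 : ℝ) 1 :=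
    Set.Ioc_union_Ioo_eq_Ioo (by norm_num) (by norm_num)
  have hdis : Disjoint (Set.Ioc (0 : ℝ) (1 / 2)) (Set.Ioo (1 / 2 : ℝ) 1) := by
    rw [Set.disjoint_left]
    intro s h1 h2
    linarith [h1.2, h2.1]
  set W := Real.exp ((j + 1) * Yc t (1 / 2)) with hW
  have hWpos : 0 < W := Real.exp_pos _
  have e1 : Iw j k t = (∫ s in Set.Ioc (0 : ℝ) (1 / 2), den j k t s) +
      ∫ s in Set.Ioo (1 / 2 : ℝ) 1, den j k t s := by
    unfold Iw
    rw [← hAB, setIntegral_union hdis measurableSet_Ioo (hint1.mono_set hA) (hint1.mono_set hB)]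
  have e2 : (∫ s in Set.Ioo (1 / 2 : ℝ) 1, den j k t s) ≤ W / 2 := by
    have h1 : (∫ s in Set.Ioo (1 / 2 : ℝ) 1, den j k t s) ≤ ∫ _ in Set.Ioo (1 / 2 : ℝ) 1, W := by
      refine setIntegral_mono_on (hint1.mono_set hB) ?_ measurableSet_Ioo ?_
      · exact integrableOn_const (by simp) 
      · intro s hs
        unfold den
        have h2 := hEmono (1 / 2) s (by norm_num) hs.1.le hs.2
        have h3 : s ^ (2 * k + 1) ≤ 1 := pow_le_one₀ (by linarith [hs.1]) hs.2.le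
        have h4 : 0 ≤ s ^ (2 * k + 1) := by
          have : 0 ≤ s := by linarith [hs.1]
          positivity
        calc s ^ (2 * k + 1) * Real.exp ((j + 1) * Yc t s) ≤ 1 * W := by
              apply mul_le_mul h3 h2 (Real.exp_pos _).le zero_le_one
          _ = W := one_mul _
    refine h1.trans (le_of_eq ?_)
    rw [setIntegral_const, smul_eq_mul, measureReal_def, Real.volume_Ioo,
      ENNReal.toReal_ofReal (by norm_num)]
    ring
  have e3 : (1 / 4 : ℝ) ^ (2 * k + 1) * W / 4 ≤ ∫ s in Set.Ioc (0 : ℝ) (1 / 2), den j k t s := by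
    have h1 : (∫ s in Set.Ioc (1 / 4 : ℝ) (1 / 2), den j k t s) ≤
        ∫ s in Set.Ioc (0 : ℝ) (1 / 2), den j k t s := by
      refine setIntegral_mono_set (hint1.mono_set hA) ?_ (Filter.Eventually.of_forall hA2)
      rw [Filter.EventuallyLE, ae_restrict_iff' measurableSet_Ioc]
      exact Filter.Eventually.of_forall (fun s hs => hdnn s hs.1.le)
    have h2 : (∫ _ in Set.Ioc (1 / 4 : ℝ) (1 / 2), (1 / 4 : ℝ) ^ (2 * k + 1) * W) ≤
        ∫ s in Set.Ioc (1 / 4 : ℝ) (1 / 2), den j k t s := by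
      refine setIntegral_mono_on ?_ (hint1.mono_set (hA2.trans hA)) measurableSet_Ioc ?_
      · exact integrableOn_const (by simp)
      · intro s hs
        unfold den
        have h3 := hEmono s (1 / 2) (by linarith [hs.1]) hs.2 (by norm_num)
        have h4 : (1 / 4 : ℝ) ^ (2 * k + 1) ≤ s ^ (2 * k + 1) :=
          pow_le_pow_left₀ (by norm_num) hs.1.le _
        have h5 : (0 : ℝ) ≤ s ^ (2 * k + 1) := le_trans (by positivity) h4
        exact mul_le_mul h4 h3 hWpos.le h5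
    refine le_trans (le_of_eq ?_) (h2.trans h1)
    rw [setIntegral_const, smul_eq_mul, measureReal_def, Real.volume_Ioc,
      ENNReal.toReal_ofReal (by norm_num)]
    ring
  set IA := ∫ s in Set.Ioc (0 : ℝ) (1 / 2), den j k t s with hIA
  have e4 : Iw j k t ≤ (1 + 2 * (4 : ℝ) ^ (2 * n + 1)) * IA := by
    have h1 : W / 2 = 2 * (4 : ℝ) ^ (2 * k + 1) * ((1 / 4 : ℝ) ^ (2 * k + 1) * W / 4) := by
      have h2 : (4 : ℝ) ^ (2 * k + 1) * (1 / 4 : ℝ) ^ (2 * k + 1) = 1 := by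
        rw [← mul_pow]; norm_num
      calc W / 2 = 1 * (W / 2) := (one_mul _).symm
        _ = ((4 : ℝ) ^ (2 * k + 1) * (1 / 4 : ℝ) ^ (2 * k + 1)) * (W / 2) := by rw [h2]
        _ = _ := by ring
    have hIA0 : 0 ≤ IA := le_trans (by positivity) e3
    have h3 : (4 : ℝ) ^ (2 * k + 1) ≤ (4 : ℝ) ^ (2 * n + 1) :=
      pow_le_pow_right₀ (by norm_num) (by omega)
    calc Iw j k t ≤ IA + W / 2 := by rw [e1]; linarith
      _ = IA + 2 * (4 : ℝ) ^ (2 * k + 1) * ((1 / 4 : ℝ) ^ (2 * k + 1) * W / 4) := by rw [← h1]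
      _ ≤ IA + 2 * (4 : ℝ) ^ (2 * k + 1) * IA := by
          have := mul_le_mul_of_nonneg_left e3 (show (0:ℝ) ≤ 2 * (4 : ℝ) ^ (2 * k + 1) by positivity)
          linarith
      _ ≤ IA + 2 * (4 : ℝ) ^ (2 * n + 1) * IA := by
          have := mul_le_mul_of_nonneg_right h3 hIA0
          linarith
      _ = _ := by ring
  have e5 : 100 / (100 + tau (1 / 2)) * IA ≤
      (100 + La t) * ∫ s in Set.Ioo (0 : ℝ) 1, 1 / l0 t s * den j k t s := by
    have h1 : (∫ s in Set.Ioc (0 : ℝ) (1 / 2), 1 / l0 t s * den j k t s) ≤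
        ∫ s in Set.Ioo (0 : ℝ) 1, 1 / l0 t s * den j k t s := by
      refine setIntegral_mono_set hint2 ?_ (Filter.Eventually.of_forall hA)
      rw [Filter.EventuallyLE, ae_restrict_iff' measurableSet_Ioo]
      refine Filter.Eventually.of_forall (fun s hs => ?_)
      have h3 := (hfact s hs.1.le hs.2).2.2
      have h4 : 0 < l0 t s := by linarith
      exact mul_nonneg (by positivity) (hdnn s hs.1.le)
    have h2 : 100 / (100 + tau (1 / 2)) * IA ≤
        ∫ s in Set.Ioc (0 : ℝ) (1 / 2), (100 + La t) * (1 / l0 t s * den j k t s) := by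
      rw [hIA, ← integral_const_mul]
      refine setIntegral_mono_on ((hint1.mono_set hA).const_mul _)
        ((hint2.mono_set hA).const_mul _) measurableSet_Ioc ?_
      intro s hs
      have hs1 : s < 1 := lt_of_le_of_lt hs.2 (by norm_num)
      obtain ⟨-, f2, f3⟩ := hfact s hs.1.le hs1
      have h4 : 0 < l0 t s := by linarith
      have h5 : tau s ≤ tau (1 / 2) := dec_low_tau hs.1.le hs.2 (by norm_num)
      have h6 : 100 / (100 + tau (1 / 2)) ≤ (100 + La t) * (1 / l0 t s) := by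
        rw [mul_one_div, div_le_div_iff₀ (by positivity) h4, ← f2]
        nlinarith [mul_nonneg hLa htau0]
      calc 100 / (100 + tau (1 / 2)) * den j k t s ≤
            ((100 + La t) * (1 / l0 t s)) * den j k t s :=
              mul_le_mul_of_nonneg_right h6 (hdnn s hs.1.le)
        _ = _ := by ring
    rw [integral_const_mul] at h2
    refine h2.trans ?_
    exact mul_le_mul_of_nonneg_left h1 (by linarith)
  unfold Es
  rw [← mul_div_assoc, le_div_iff₀ hI]
  refine le_trans ?_ e5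
  rw [div_mul_eq_mul_div, div_le_iff₀ (by positivity), mul_assoc]
  refine mul_le_mul_of_nonneg_left ?_ (by positivity)
  rw [mul_comm IA]
  exact e4

theorem dec_mm (hC : CAc_stmt) (j k : ℕ) (t : ℝ) (h0 : 0 ≤ t) (hT : t < T0) :
    (j + 1) * Es j k t (fun s => Real.log (l0 t s)) ≤ mm j k t ∧ (k + 1) * La1 t ≤ mm j k t ∧
    t * La2 t * ((k + 1) + (j + 1) * Es j k t (fun s => 1 / l0 t s)) ≤ mm j k t ∧
    4 ≤ Es j k t (fun s => Real.log (l0 t s)) ∧ 0 ≤ Es j k t (fun s => 1 / l0 t s) := by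
  obtain ⟨-, ha, hab, -⟩ := hC t 0 (by linarith) hT le_rfl one_pos
  have hb : 0 ≤ La2 t := by nlinarith
  have hl : ∀ s ∈ Set.Ioo (0 : ℝ) 1, 100 ≤ l0 t s := fun s hs =>
    (hC t s (by linarith) hT hs.1.le hs.2).2.2.2.2.1
  have hm := dec_l0_meas t
  have I1 : IntegrableOn (fun s => Real.log (l0 t s) * den j k t s) (Set.Ioo (0 : ℝ) 1) := by
    apply dec_int hC j k t h0 hT (fun s => Real.log (l0 t s)) (by fun_prop) 1
    intro s hs
    have h1 := hl s hs
    rw [abs_of_nonneg (Real.log_nonneg (by linarith))]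
    have := Real.log_le_sub_one_of_pos (by linarith : 0 < l0 t s)
    linarith
  have I2 : IntegrableOn (fun s => (1 / l0 t s) * den j k t s) (Set.Ioo (0 : ℝ) 1) := by
    apply dec_int hC j k t h0 hT (fun s => 1 / l0 t s) (by fun_prop) 1
    intro s hs
    have h1 := hl s hs
    have h2 : 0 < l0 t s := by linarith
    rw [abs_of_nonneg (by positivity), div_le_iff₀ h2]
    nlinarith
  have I3 : IntegrableOn (fun s => ((t * La2 t) * (1 / l0 t s)) * den j k t s)
      (Set.Ioo (0 : ℝ) 1) := by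
    have := I2.const_mul (t * La2 t)
    refine this.congr (Filter.Eventually.of_forall fun s => ?_)
    simp only
    ring
  have I4 : ∀ c : ℝ, IntegrableOn (fun s => c * den j k t s) (Set.Ioo (0 : ℝ) 1) := by
    intro c
    apply dec_int hC j k t h0 hT (fun _ => c) measurable_const |c|
    intro s hs
    have h1 := hl s hs
    have := abs_nonneg c
    nlinarith
  have hfun : (fun s => Real.log (l0 t s) + t * La2 t / l0 t s) =
      fun s => Real.log (l0 t s) + (t * La2 t) * (1 / l0 t s) := by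
    funext s
    ring
  have hE : Es j k t (fun s => Real.log (l0 t s) + t * La2 t / l0 t s) =
      Es j k t (fun s => Real.log (l0 t s)) + t * La2 t * Es j k t (fun s => 1 / l0 t s) := by
    rw [hfun, dec_Es_add j k t (fun s => Real.log (l0 t s)) (fun s => (t * La2 t) * (1 / l0 t s))
      I1 I3, dec_Es_mul]
  have h4 : 4 ≤ Es j k t (fun s => Real.log (l0 t s)) := by
    rw [← dec_Es_const hC j k t h0 hT 4]
    exact dec_Es_mono hC j k t h0 hT _ _ (I4 4) I1
      (fun s hs => (dec_pt hC t s h0 hT hs.1 hs.2).2.2.2.2)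
  have h5 : 0 ≤ Es j k t (fun s => 1 / l0 t s) := by
    rw [← dec_Es_const hC j k t h0 hT 0]
    refine dec_Es_mono hC j k t h0 hT _ _ (I4 0) I2 (fun s hs => ?_)
    have h1 := hl s hs
    have h2 : 0 < l0 t s := by linarith
    positivity
  have hmm : mm j k t = (k + 1) * (La1 t + t * La2 t) +
      (j + 1) * (Es j k t (fun s => Real.log (l0 t s)) +
        t * La2 t * Es j k t (fun s => 1 / l0 t s)) := by
    unfold mm
    rw [hE]
  rw [hmm]
  set EL := Es j k t (fun s => Real.log (l0 t s))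
  set EI := Es j k t (fun s => 1 / l0 t s)
  have hj : (0 : ℝ) ≤ j := Nat.cast_nonneg j
  have hk : (0 : ℝ) ≤ k := Nat.cast_nonneg k
  have p1 : 0 ≤ ((k : ℝ) + 1) * La1 t := by positivity
  have p2 : 0 ≤ ((k : ℝ) + 1) * (t * La2 t) := by positivity
  have p3 : 0 ≤ ((j : ℝ) + 1) * (t * La2 t * EI) := by positivity
  have p4 : 0 ≤ ((j : ℝ) + 1) * EL := by
    have : 0 ≤ EL := by linarith
    positivity
  refine ⟨by linarith, by linarith, by linarith, h4, h5⟩

theorem dec_mminf (hC : CAc_stmt) (B : ℝ) : ∃ n0 : ℕ, ∀ j k : ℕ, ∀ t : ℝ, n0 ≤ j ∨ n0 ≤ k →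
    0 ≤ t → t < T0 → B ≤ mm j k t := by
  obtain ⟨k0, hk0⟩ := dec_conc hC ⌈B⌉₊ B
  have hB : B ≤ (⌈B⌉₊ : ℝ) := Nat.le_ceil B
  refine ⟨max ⌈B⌉₊ k0, ?_⟩
  intro j k t hjk h0 hT
  obtain ⟨h1, -, -, h4, -⟩ := dec_mm hC j k t h0 hT
  have hj0 : (0 : ℝ) ≤ j := Nat.cast_nonneg j
  by_cases hj : ⌈B⌉₊ ≤ j
  · have hjr : ((⌈B⌉₊ : ℕ) : ℝ) ≤ j := by exact_mod_cast hj
    nlinarith
  · push Not at hj
    have hk : k0 ≤ k := by
      rcases hjk with h | h
      · exact absurd (lt_of_lt_of_le hj (le_trans (le_max_left _ _) h)) (lt_irrefl _)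
      · exact le_trans (le_max_right _ _) h
    have h5 := hk0 j k t hj hk h0 hT
    nlinarith

theorem dec_r_pt (hC : CAc_stmt) (j k : ℕ) (t s : ℝ) (h0 : 0 ≤ t) (hT : t < T0) (hs0 : 0 < s)
    (hs1 : s < 1) : 0 < V2 j k t s ∧ (2 * k + 1 : ℝ) ≤ V2 j k t s ∧ 100 ≤ l0 t s ∧
    100 + La t ≤ l0 t s ∧ 0 ≤ La t ∧ tau s ≤ l0 t s ∧ 0 ≤ R2 t s * Ycs t s ^ 2 / 4 ∧
    1 ≤ th t ∧ th t ≤ l0 t s ∧
    (R2 t s * Ycs t s ^ 2 / 4) * (l0 t s ^ 2 * (j + 1)) ≤ 2 * V2 j k t s ∧
    (R2 t s * Ycs t s ^ 2 / 4) * l0 t s ^ 3 ≤ 5 * Real.exp (2 * tau s) := by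
  obtain ⟨p1, p2, p3, p4, p5⟩ := dec_pt hC t s h0 hT hs0 hs1
  obtain ⟨v1, v2, v3, v4, v5⟩ := dec_V2 hC j k t s h0 hT hs0 hs1
  obtain ⟨c1, c2, c3, c4, c5, c6⟩ := hC t s (by linarith) hT hs0.le hs1
  have htau : 0 ≤ tau s := by
    unfold tau
    have : Real.log (1 - s ^ 2) ≤ 0 := Real.log_nonpos (by nlinarith) (by nlinarith)
    linarith
  have hR : 0 < R2 t s := Real.exp_pos _
  have hQ : 0 ≤ R2 t s * Ycs t s ^ 2 / 4 := by positivity
  generalize l0 t s = l at *
  generalize R2 t s * Ycs t s ^ 2 = q at *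
  generalize V2 j k t s = V at *
  have hl : 0 < l := by linarith
  have ht2 : 0 ≤ tau2 s / l := by
    have : 0 ≤ 2 / (100 + La t) := by positivity
    linarith
  have hj : (0 : ℝ) ≤ j := Nat.cast_nonneg j
  have hk : (0 : ℝ) ≤ k := Nat.cast_nonneg k
  have hprod : 0 ≤ (99 : ℝ) / 100 * (j + 1) * (tau2 s / l) := by positivity
  have e1 : tau2 s / l * l = tau2 s := div_mul_cancel₀ _ hl.ne'
  generalize tau2 s / l = y at *
  have hq3 : q * l ^ 3 ≤ 5 * tau1 s ^ 2 := by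
    rw [le_div_iff₀ (by positivity)] at v5
    exact v5
  have hq2 : q * l ^ 2 ≤ 5 * y := by
    have h1 : (q * l ^ 2) * l ≤ (5 * y) * l := by nlinarith
    exact le_of_mul_le_mul_right h1 hl
  refine ⟨by linarith, by linarith, c5, by linarith, c1, by linarith, hQ, p1, p3, ?_, ?_⟩
  · have h1 : q * l ^ 2 * (j + 1) ≤ 5 * y * (j + 1) :=
      mul_le_mul_of_nonneg_right hq2 (by positivity)
    nlinarith
  · nlinarith

theorem dec_r_r1 (θ Q l V j : ℝ) (hj : 0 ≤ j) (hl : 100 ≤ l) (hQ : 0 ≤ Q) (hθ1 : 1 ≤ θ)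
    (hθ : θ ≤ l) (h : Q * (l ^ 2 * (j + 1)) ≤ 2 * V) : θ * Q * (j + 1) ≤ V := by
  have a : 0 ≤ Q * (j + 1) := by positivity
  have b : θ * 100 ≤ l ^ 2 := by nlinarith
  have c := mul_le_mul_of_nonneg_right b a
  have d : 0 ≤ θ * Q * (j + 1) := by
    have : 0 ≤ θ := by linarith
    positivity
  have e : l ^ 2 * (Q * (j + 1)) = Q * (l ^ 2 * (j + 1)) := by ring
  have f : θ * 100 * (Q * (j + 1)) = 100 * (θ * Q * (j + 1)) := by ring
  linarith

theorem dec_r_r2 (θ Q l V j L ε : ℝ) (hj : 0 ≤ j) (hl : 100 ≤ l) (hQ : 0 ≤ Q) (hV : 0 < V)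
    (hθ1 : 1 ≤ θ) (hθ : θ ≤ l) (h : Q * (l ^ 2 * (j + 1)) ≤ 2 * V) (hL : 0 < L)
    (hLl : L ≤ l) (hε : 2 ≤ ε * L) : θ * Q ≤ ε * V := by
  have a : 0 ≤ Q * l ^ 2 := by positivity
  have b : Q * l ^ 2 ≤ Q * (l ^ 2 * (j + 1)) := by nlinarith
  have c : θ * L ≤ l ^ 2 := by nlinarith
  have d := mul_le_mul_of_nonneg_right c hQ
  have e : 2 * V ≤ (ε * L) * V := mul_le_mul_of_nonneg_right hε hV.le
  have f : (θ * Q) * L ≤ (ε * V) * L := by
    have : l ^ 2 * Q = Q * l ^ 2 := by ring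
    have : θ * L * Q = (θ * Q) * L := by ring
    have : (ε * L) * V = (ε * V) * L := by ring
    linarith
  exact le_of_mul_le_mul_right f hL

theorem dec_r_r3 (θ Q l E : ℝ) (hl : 100 ≤ l) (hQ : 0 ≤ Q) (hθ : θ ≤ l)
    (h : Q * l ^ 3 ≤ E) : θ * Q ≤ E := by
  have b : θ ≤ l ^ 3 := by
    have h1 : 1 ≤ l ^ 2 := by nlinarith
    have h2 : l * 1 ≤ l * l ^ 2 := mul_le_mul_of_nonneg_left h1 (by linarith)
    have h3 : l * l ^ 2 = l ^ 3 := by ring
    linarith
  have c := mul_le_mul_of_nonneg_right b hQ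
  linarith

theorem dec_r (hC : CAc_stmt) : ∃ r : ℕ → ℕ → ℝ → ℝ,
    (∀ j k t, 0 ≤ t → t < T0 → 0 ≤ r j k t ∧ ∀ s ∈ Set.Ioo (0 : ℝ) 1,
      R2 t s * Ycs t s ^ 2 / 4 ≤ r j k t * V2 j k t s) ∧
    (∀ j k t, 0 ≤ t → t < T0 → th t * r j k t ≤ 1) ∧
    (∀ ε : ℝ, 0 < ε → ∃ n0 : ℕ, ∀ j k t, n0 ≤ j ∨ n0 ≤ k → 0 ≤ t → t < T0 →
      th t * r j k t ≤ ε) ∧
    (∀ ε : ℝ, 0 < ε → ∃ N : ℝ, ∀ j k t, 0 ≤ t → t < T0 → N ≤ La t → r j k t ≤ ε) := by
  obtain ⟨Q, hQdef⟩ : ∃ Q : ℝ → ℝ → ℝ, ∀ t s, Q t s = R2 t s * Ycs t s ^ 2 / 4 :=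
    ⟨_, fun t s => rfl⟩
  obtain ⟨r, hrdef⟩ : ∃ r : ℕ → ℕ → ℝ → ℝ, ∀ j k t,
      r j k t = sSup ((fun s => Q t s / V2 j k t s) '' Set.Ioo (0 : ℝ) 1) :=
    ⟨_, fun j k t => rfl⟩
  have hpt := dec_r_pt hC
  simp only [← hQdef] at hpt ⊢
  have hne : ∀ j k t, ((fun s => Q t s / V2 j k t s) '' Set.Ioo (0 : ℝ) 1).Nonempty :=
    fun j k t => ⟨_, 1 / 2, ⟨by norm_num, by norm_num⟩, rfl⟩
  have hle : ∀ j k t B, 0 ≤ t → t < T0 → (∀ s, 0 < s → s < 1 → Q t s ≤ B * V2 j k t s) →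
      r j k t ≤ B := by
    intro j k t B h0 hT h
    rw [hrdef]
    refine csSup_le (hne j k t) ?_
    rintro _ ⟨s, hs, rfl⟩
    obtain ⟨hV, _⟩ := hpt j k t s h0 hT hs.1 hs.2
    exact (div_le_iff₀ hV).2 (h s hs.1 hs.2)
  have hthr : ∀ j k t B, 0 ≤ t → t < T0 →
      (∀ s, 0 < s → s < 1 → th t * Q t s ≤ B * V2 j k t s) → th t * r j k t ≤ B := by
    intro j k t B h0 hT h
    obtain ⟨_, _, _, _, _, _, _, hth, _⟩ := hpt j k t (1 / 2) h0 hT (by norm_num) (by norm_num)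
    have hth0 : 0 < th t := by linarith
    have h1 : r j k t ≤ B / th t := by
      refine hle j k t _ h0 hT (fun s hs0 hs1 => ?_)
      have h2 := h s hs0 hs1
      rw [div_mul_eq_mul_div, le_div_iff₀ hth0]
      linarith
    rw [le_div_iff₀ hth0] at h1
    linarith
  have hb1 : ∀ j k t s, 0 ≤ t → t < T0 → 0 < s → s < 1 →
      th t * Q t s * (j + 1) ≤ V2 j k t s := by
    intro j k t s h0 hT hs0 hs1
    obtain ⟨hV, hVk, hl, hl2, hLa, htau, hQ, hth, hth2, h1, h2⟩ := hpt j k t s h0 hT hs0 hs1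
    exact dec_r_r1 _ _ _ _ _ (Nat.cast_nonneg j) hl hQ hth hth2 h1
  have hbdd : ∀ j k t, 0 ≤ t → t < T0 →
      BddAbove ((fun s => Q t s / V2 j k t s) '' Set.Ioo (0 : ℝ) 1) := by
    intro j k t h0 hT
    refine ⟨1, ?_⟩
    rintro _ ⟨s, hs, rfl⟩
    obtain ⟨hV, hVk, hl, hl2, hLa, htau, hQ, hth, hth2, h1, h2⟩ := hpt j k t s h0 hT hs.1 hs.2
    have h3 := hb1 j k t s h0 hT hs.1 hs.2
    rw [div_le_iff₀ hV, one_mul]
    have hj : (0 : ℝ) ≤ j := Nat.cast_nonneg j
    have h4 : Q t s ≤ th t * Q t s := by nlinarith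
    have h5 : 0 ≤ th t * Q t s := by nlinarith
    nlinarith
  refine ⟨r, ?_, ?_, ?_, ?_⟩
  · intro j k t h0 hT
    have h1 : ∀ s ∈ Set.Ioo (0 : ℝ) 1, Q t s / V2 j k t s ≤ r j k t := by
      intro s hs
      rw [hrdef]
      exact le_csSup (hbdd j k t h0 hT) ⟨s, hs, rfl⟩
    refine ⟨?_, ?_⟩
    · have h2 := h1 (1 / 2) ⟨by norm_num, by norm_num⟩
      obtain ⟨hV, _, _, _, _, _, hQ, _⟩ := hpt j k t (1 / 2) h0 hT (by norm_num) (by norm_num)
      exact le_trans (div_nonneg hQ hV.le) h2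
    · intro s hs
      obtain ⟨hV, _⟩ := hpt j k t s h0 hT hs.1 hs.2
      exact (div_le_iff₀ hV).1 (h1 s hs)
  · intro j k t h0 hT
    refine hthr j k t 1 h0 hT (fun s hs0 hs1 => ?_)
    have h1 := hb1 j k t s h0 hT hs0 hs1
    obtain ⟨hV, hVk, hl, hl2, hLa, htau, hQ, hth, hth2, _⟩ := hpt j k t s h0 hT hs0 hs1
    have hj : (0 : ℝ) ≤ j := Nat.cast_nonneg j
    have h5 : 0 ≤ th t * Q t s := by nlinarith
    nlinarith
  · intro ε hε
    obtain ⟨L, hL0, hL⟩ : ∃ L : ℝ, 0 < L ∧ 2 ≤ ε * L :=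
      ⟨2 / ε, by positivity, by rw [mul_div_cancel₀ _ hε.ne']⟩
    obtain ⟨n1, hn1⟩ := exists_nat_gt (1 / ε)
    obtain ⟨n2, hn2⟩ := exists_nat_gt (5 * Real.exp (2 * L) / ε)
    rw [div_lt_iff₀ hε] at hn1 hn2
    refine ⟨max n1 n2, ?_⟩
    intro j k t hjk h0 hT
    refine hthr j k t ε h0 hT (fun s hs0 hs1 => ?_)
    obtain ⟨hV, hVk, hl, hl2, hLa, htau, hQ, hth, hth2, e1, e2⟩ := hpt j k t s h0 hT hs0 hs1
    have hj0 : (0 : ℝ) ≤ j := Nat.cast_nonneg j
    have hQ5 : 0 ≤ th t * Q t s := by nlinarith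
    have hthQ : th t * Q t s ≤ l0 t s * Q t s := mul_le_mul_of_nonneg_right hth2 hQ
    rcases hjk with hj | hk
    · have h1 := hb1 j k t s h0 hT hs0 hs1
      have hj' : (n1 : ℝ) ≤ j := by exact_mod_cast le_trans (le_max_left _ _) hj
      have h2 : 1 ≤ ε * (j + 1) := by nlinarith
      have h3 : th t * Q t s ≤ ε * (th t * Q t s * (j + 1)) := by nlinarith
      have h4 : ε * (th t * Q t s * (j + 1)) ≤ ε * V2 j k t s := mul_le_mul_of_nonneg_left h1 hε.le
      linarith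
    · have hk' : (n2 : ℝ) ≤ k := by exact_mod_cast le_trans (le_max_right _ _) hk
      by_cases hlL : L ≤ l0 t s
      · exact dec_r_r2 _ _ _ _ _ L ε hj0 hl hQ hV hth hth2 e1 hL0 hlL hL
      · push Not at hlL
        have h1 : Real.exp (2 * tau s) ≤ Real.exp (2 * L) := Real.exp_le_exp.2 (by linarith)
        have h2 := dec_r_r3 _ _ _ _ hl hQ hth2 e2
        have h5 : (k : ℝ) * ε ≤ ε * V2 j k t s := by
          rw [mul_comm]
          exact mul_le_mul_of_nonneg_left (by linarith [(Nat.cast_nonneg k : (0 : ℝ) ≤ k)]) hε.le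
        have h6 : (n2 : ℝ) * ε ≤ k * ε := mul_le_mul_of_nonneg_right hk' hε.le
        linarith
  · intro ε hε
    refine ⟨2 / ε, ?_⟩
    intro j k t h0 hT hN
    refine hle j k t ε h0 hT (fun s hs0 hs1 => ?_)
    obtain ⟨hV, hVk, hl, hl2, hLa, htau, hQ, hth, hth2, e1, e2⟩ := hpt j k t s h0 hT hs0 hs1
    have hj0 : (0 : ℝ) ≤ j := Nat.cast_nonneg j
    rw [div_le_iff₀ hε] at hN
    have h1 : Q t s * l0 t s ^ 2 ≤ 2 * V2 j k t s := by
      have : 0 ≤ Q t s * l0 t s ^ 2 := by positivity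
      nlinarith
    have h2 : La t ≤ l0 t s ^ 2 := by nlinarith
    have h3 : 2 ≤ l0 t s ^ 2 * ε := by nlinarith
    have h4 : Q t s * 2 ≤ ε * (Q t s * l0 t s ^ 2) := by nlinarith
    nlinarith

theorem dec_r2_aux (x : ℝ) (hx : 0 ≤ x) : (1 + x) * (Real.exp (-x) * (100 + x)) ≤ 400 := by
  have h1 : 1 + x / 2 ≤ Real.exp (x / 2) := by linarith [Real.add_one_le_exp (x / 2)]
  have h2 : Real.exp (-x) = (Real.exp (x / 2))⁻¹ ^ 2 := by
    rw [← Real.exp_neg, ← Real.exp_nat_mul]; congr 1; push_cast; ring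
  have h3 : 0 < Real.exp (x / 2) := Real.exp_pos _
  have h4 : (1 + x) * (Real.exp (x / 2))⁻¹ ≤ 2 := by
    rw [mul_inv_le_iff₀ h3]; linarith
  have h5 : 0 ≤ (1 + x) * (Real.exp (x / 2))⁻¹ := by positivity
  have h6 : ((1 + x) * (Real.exp (x / 2))⁻¹) ^ 2 ≤ 4 := by nlinarith
  have h7 : (1 + x) ^ 2 * Real.exp (-x) ≤ 4 := by rw [h2, ← mul_pow]; exact h6
  have h8 : 0 < Real.exp (-x) := Real.exp_pos _
  have h9 : (1 + x) * (Real.exp (-x) * (100 + x)) ≤ 100 * ((1 + x) ^ 2 * Real.exp (-x)) := by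
    have : 0 ≤ (1 + x) * Real.exp (-x) * (99 * x) := by positivity
    nlinarith
  linarith

theorem dec_r2 (hC : CAc_stmt) : ∃ r2 : ℕ → ℕ → ℝ → ℝ,
    (∀ j k t, 0 ≤ t → t < T0 → 0 ≤ r2 j k t ∧ ∀ s ∈ Set.Ioo (0 : ℝ) 1,
      d0 t ≤ r2 j k t * V2 j k t s) ∧
    (∀ j k t, 0 ≤ t → t < T0 → th t * r2 j k t ≤ 400) ∧
    (∀ ε : ℝ, 0 < ε → ∃ n0 : ℕ, ∀ j k t, n0 ≤ j ∨ n0 ≤ k → 0 ≤ t → t < T0 →
      th t * r2 j k t ≤ ε) ∧
    (∀ ε : ℝ, 0 < ε → ∃ N : ℝ, ∀ j k t, 0 ≤ t → t < T0 → N ≤ La t → r2 j k t ≤ ε) := by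
  have hLa : ∀ t, 0 ≤ t → t < T0 → 0 ≤ La t ∧ 0 < d0 t ∧ d0 t = Real.exp (-La t) := by
    intro t h0 hT
    obtain ⟨h1, _, _, _, _, h2, _, h3, _⟩ := hC t 0 (by linarith) hT le_rfl one_pos
    exact ⟨h1, h2, h3⟩
  have hth : ∀ t, 0 ≤ t → t < T0 → 1 ≤ th t ∧ th t ≤ 1 + La t := by
    intro t h0 hT
    obtain ⟨h1, h2, _⟩ := dec_pt hC t (1 / 2) h0 hT (by norm_num) (by norm_num)
    exact ⟨h1, h2⟩
  -- the main bound
  have hmain : ∀ (j k : ℕ) (t : ℝ), 0 ≤ t → t < T0 →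
      (1 + La t) * (d0 t * (100 + La t) / (2 * k + j + 2)) ≤ 400 / (2 * k + j + 2) := by
    intro j k t h0 hT
    obtain ⟨h1, h2, h3⟩ := hLa t h0 hT
    have h4 := dec_r2_aux (La t) h1
    rw [← h3] at h4
    rw [← mul_div_assoc]
    apply div_le_div_of_nonneg_right h4
    positivity
  have hnn : ∀ (j k : ℕ) (t : ℝ), 0 ≤ t → t < T0 → 0 ≤ d0 t * (100 + La t) / (2 * k + j + 2) := by
    intro j k t h0 hT
    obtain ⟨h1, h2, h3⟩ := hLa t h0 hT
    positivity
  have hmain2 : ∀ (j k : ℕ) (t : ℝ), 0 ≤ t → t < T0 →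
      th t * (d0 t * (100 + La t) / (2 * k + j + 2)) ≤ 400 / (2 * k + j + 2) := by
    intro j k t h0 hT
    exact (mul_le_mul_of_nonneg_right (hth t h0 hT).2 (hnn j k t h0 hT)).trans (hmain j k t h0 hT)
  refine ⟨fun j k t => d0 t * (100 + La t) / (2 * k + j + 2), ?_, ?_, ?_, ?_⟩
  · intro j k t h0 hT
    refine ⟨hnn j k t h0 hT, ?_⟩
    intro s hs
    obtain ⟨h1, h2, h3⟩ := hLa t h0 hT
    obtain ⟨g1, _, g2, _⟩ := dec_V2 hC j k t s h0 hT hs.1 hs.2
    have hpos : (0:ℝ) < 100 + La t := by linarith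
    have hj : (0:ℝ) ≤ j := Nat.cast_nonneg _
    have hk : (0:ℝ) ≤ k := Nat.cast_nonneg _
    have g3 : (2 * k + 1 : ℝ) + 99 / 100 * (j + 1) * (2 / (100 + La t)) ≤ V2 j k t s := by
      have : 99 / 100 * ((j:ℝ) + 1) * (2 / (100 + La t)) ≤ 99 / 100 * (j + 1) * (tau2 s / l0 t s) :=
        mul_le_mul_of_nonneg_left g2 (by positivity)
      linarith
    have g4 : (2 * k + j + 2 : ℝ) ≤ (100 + La t) * V2 j k t s := by
      have := mul_le_mul_of_nonneg_left g3 hpos.le
      have e : (100 + La t) * ((2 * k + 1 : ℝ) + 99 / 100 * (j + 1) * (2 / (100 + La t))) =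
        (100 + La t) * (2 * k + 1) + 99 / 50 * (j + 1) := by field_simp; ring
      rw [e] at this
      have : (2 * k + 1 : ℝ) ≤ (100 + La t) * (2 * k + 1) := by nlinarith
      nlinarith
    have hd : (0:ℝ) < 2 * k + j + 2 := by positivity
    change d0 t ≤ d0 t * (100 + La t) / (2 * k + j + 2) * V2 j k t s
    rw [div_mul_eq_mul_div, le_div_iff₀ hd, mul_assoc]
    exact mul_le_mul_of_nonneg_left g4 h2.le
  · intro j k t h0 hT
    refine (hmain2 j k t h0 hT).trans ?_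
    rw [div_le_iff₀ (by positivity)]
    have hj : (0:ℝ) ≤ j := Nat.cast_nonneg _
    have hk : (0:ℝ) ≤ k := Nat.cast_nonneg _
    nlinarith
  · intro ε hε
    obtain ⟨n0, hn0⟩ := exists_nat_ge (400 / ε)
    refine ⟨n0, ?_⟩
    intro j k t hjk h0 hT
    refine (hmain2 j k t h0 hT).trans ?_
    rw [div_le_iff₀ (by positivity)]
    rw [div_le_iff₀ hε] at hn0
    have hj : (0:ℝ) ≤ j := Nat.cast_nonneg _
    have hk : (0:ℝ) ≤ k := Nat.cast_nonneg _
    have h5 : (n0 : ℝ) ≤ 2 * k + j + 2 := by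
      rcases hjk with h | h
      · have : (n0 : ℝ) ≤ j := by exact_mod_cast h
        linarith
      · have : (n0 : ℝ) ≤ k := by exact_mod_cast h
        linarith
    have := mul_le_mul_of_nonneg_left h5 hε.le
    linarith
  · intro ε hε
    refine ⟨400 / ε, ?_⟩
    intro j k t h0 hT hN
    obtain ⟨h1, h2, h3⟩ := hLa t h0 hT
    have h4 := hmain j k t h0 hT
    have hj : (0:ℝ) ≤ j := Nat.cast_nonneg _
    have hk : (0:ℝ) ≤ k := Nat.cast_nonneg _
    have h5 : (400:ℝ) / (2 * k + j + 2) ≤ 400 := by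
      rw [div_le_iff₀ (by positivity)]; nlinarith
    have h6 := h4.trans h5
    rw [div_le_iff₀ hε] at hN
    by_contra hcon
    push Not at hcon
    have h7 : (1 + La t) * ε < (1 + La t) * (d0 t * (100 + La t) / (2 * k + j + 2)) :=
      mul_lt_mul_of_pos_left hcon (by linarith)
    nlinarith

theorem dec_a0_aux (hC : CAc_stmt) (j k : ℕ) (t : ℝ) (h0 : 0 ≤ t) (hT : t < T0) :
    0 ≤ La t ∧ 1 ≤ th t ∧ th t ≤ 1 + La t ∧ 4 ≤ mm j k t ∧
      10 ^ 6 * (La t + La t ^ 2 / 2) ≤ mm j k t := by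
  obtain ⟨hLa, hLa1, -⟩ := hC t (1 / 2) (by linarith) hT (by norm_num) (by norm_num)
  obtain ⟨ht1, ht2, -⟩ := dec_pt hC t (1 / 2) h0 hT (by norm_num) (by norm_num)
  obtain ⟨hm1, hm2, -, hm4, -⟩ := dec_mm hC j k t h0 hT
  have hE := (dec_La1 hC t h0 hT).1
  have hexp := Real.quadratic_le_exp_of_nonneg hLa
  have hj : (0 : ℝ) ≤ j := Nat.cast_nonneg j
  have hk : (0 : ℝ) ≤ k := Nat.cast_nonneg k
  refine ⟨hLa, ht1, ht2, ?_, ?_⟩
  · nlinarith [mul_nonneg hj (by linarith : (0 : ℝ) ≤ Es j k t (fun s => Real.log (l0 t s)))]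
  · nlinarith [mul_nonneg hk hLa1]

theorem dec_a0 (hC : CAc_stmt) : ∃ C : ℝ, 0 ≤ C ∧
    (∀ (j k : ℕ) (t : ℝ), 0 ≤ t → t < T0 → th t / mm j k t ≤ C) ∧
    (∀ ε : ℝ, 0 < ε → ∃ n0 : ℕ, ∀ (j k : ℕ) (t : ℝ), n0 ≤ j ∨ n0 ≤ k → 0 ≤ t → t < T0 →
      th t / mm j k t ≤ ε) := by
  refine ⟨1, zero_le_one, ?_, ?_⟩
  · intro j k t h0 hT
    obtain ⟨hLa, ht1, ht2, hm4, hm⟩ := dec_a0_aux hC j k t h0 hT
    rw [div_le_one (by linarith)]
    rcases le_total (La t) 1 with h | h
    · linarith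
    · nlinarith
  · intro ε hε
    obtain ⟨n0, hn0⟩ := dec_mminf hC ((1 + 1 / ε) / ε)
    refine ⟨n0, ?_⟩
    intro j k t hjk h0 hT
    obtain ⟨hLa, ht1, ht2, hm4, hm⟩ := dec_a0_aux hC j k t h0 hT
    have hmB := hn0 j k t hjk h0 hT
    rw [div_le_iff₀ (by linarith)]
    rcases le_total (1 / ε) (La t) with h | h
    · have h1 : 1 ≤ ε * La t := by
        rw [div_le_iff₀ hε] at h
        linarith
      have h2 : La t * (1 + La t) ≤ mm j k t := by nlinarith
      calc th t ≤ 1 + La t := ht2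
        _ ≤ (ε * La t) * (1 + La t) := by nlinarith
        _ = ε * (La t * (1 + La t)) := by ring
        _ ≤ ε * mm j k t := mul_le_mul_of_nonneg_left h2 hε.le
    · have h2 : (1 + 1 / ε) = ε * ((1 + 1 / ε) / ε) := by
        field_simp
      calc th t ≤ 1 + La t := ht2
        _ ≤ 1 + 1 / ε := by linarith
        _ = ε * ((1 + 1 / ε) / ε) := h2
        _ ≤ ε * mm j k t := mul_le_mul_of_nonneg_left hmB hε.le

theorem dec_a1 (hC : CAc_stmt) : ∃ C : ℝ, 0 ≤ C ∧
    (∀ (j k : ℕ) (t : ℝ), 0 ≤ t → t < T0 →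
      th t * Es j k t (fun s => t * R2 t s * Yct t s ^ 2) / mm j k t ≤ C) ∧
    (∀ ε : ℝ, 0 < ε → ∃ n0 : ℕ, ∀ (j k : ℕ) (t : ℝ), n0 ≤ j ∨ n0 ≤ k → 0 ≤ t → t < T0 →
      th t * Es j k t (fun s => t * R2 t s * Yct t s ^ 2) / mm j k t ≤ ε) := by
  have hLa : ∀ t, 0 ≤ t → t < T0 → 0 ≤ La t ∧ 0 ≤ La1 t ∧ 100 * La1 t + La1 t ^ 2 ≤ La2 t := by
    intro t h0 hT
    obtain ⟨h1, h2, h3, _⟩ := hC t 0 (by linarith) hT le_rfl (by norm_num)
    exact ⟨h1, h2, h3⟩
  have hT0 : T0 = 1 + 1 / 10000 := by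
    unfold T0 tB
    norm_num
  -- pointwise bound
  have hpt : ∀ t s : ℝ, 0 ≤ t → t < T0 → 0 < s → s < 1 →
      th t * (t * R2 t s * Yct t s ^ 2) ≤ 48 + (9 / 10000) * (t * La1 t ^ 2) * (1 / l0 t s) := by
    intro t s h0 hT hs0 hs1
    obtain ⟨p1, p2, p3, p4, p5⟩ := dec_pt hC t s h0 hT hs0 hs1
    obtain ⟨hLa0, hLa1, _, _, hl, _, _, _, _, _, _, _, _, _, _, _, _, hR, hRp⟩ :=
      hC t s (by linarith) hT hs0.le hs1
    have hR1 : R2 t s ≤ 1 / l0 t s := hR h0
    have hlpos : 0 < l0 t s := by linarith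
    rw [hT0] at hT
    have ht2 : t ≤ 1.0001 := by linarith
    -- the square
    have hY : Yct t s ^ 2 ≤ 2 * Real.log (l0 t s) ^ 2 + 2 * ((1 + t) * La1 t / l0 t s) ^ 2 := by
      unfold Yct
      nlinarith [sq_nonneg (Real.log (l0 t s) - (1 + t) * La1 t / l0 t s)]
    have hA : th t * (t * R2 t s * (2 * Real.log (l0 t s) ^ 2)) ≤ 48 := by
      have e1 : th t * (t * R2 t s * (2 * Real.log (l0 t s) ^ 2)) =
          2 * t * R2 t s * (th t * Real.log (l0 t s) ^ 2) := by ring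
      rw [e1]
      have e2 : 2 * t * R2 t s * (th t * Real.log (l0 t s) ^ 2) ≤
          2 * t * (1 / l0 t s) * (16 * l0 t s) := by
        apply mul_le_mul
        · exact mul_le_mul_of_nonneg_left hR1 (by positivity)
        · exact p4
        · have : 0 ≤ th t := by linarith
          positivity
        · positivity
      have e3 : 2 * t * (1 / l0 t s) * (16 * l0 t s) = 32 * t := by
        field_simp
        ring
      rw [e3] at e2
      linarith
    have hB : th t * (t * R2 t s * (2 * ((1 + t) * La1 t / l0 t s) ^ 2)) ≤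
        (9 / 10000) * (t * La1 t ^ 2) * (1 / l0 t s) := by
      rcases le_or_gt t 1 with h1 | h1
      · obtain ⟨_, h2⟩ := dec_La1 hC t h0 (by rw [hT0]; exact hT)
        obtain ⟨h3, _, _⟩ := h2 h1
        rw [h3]
        simp
      · have hR3 : R2 t s ≤ 1 / l0 t s ^ 2 := by
          unfold R2 Yc
          have h4 : 1 / l0 t s ^ 2 = Real.exp (-2 * Real.log (l0 t s)) := by
            rw [show -2 * Real.log (l0 t s) = -(Real.log (l0 t s) + Real.log (l0 t s)) by ring,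
              Real.exp_neg, Real.exp_add, Real.exp_log hlpos, one_div, sq]
          rw [h4]
          apply Real.exp_le_exp.mpr
          nlinarith
        have e1 : th t * (t * R2 t s * (2 * ((1 + t) * La1 t / l0 t s) ^ 2)) =
            (th t * R2 t s) * (2 * (1 + t) ^ 2 * (t * La1 t ^ 2) / l0 t s ^ 2) := by
          field_simp
        rw [e1]
        have e2 : th t * R2 t s ≤ l0 t s * (1 / l0 t s ^ 2) :=
          mul_le_mul p3 hR3 hRp.le hlpos.le
        have e3 : l0 t s * (1 / l0 t s ^ 2) = 1 / l0 t s := by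
          field_simp
        rw [e3] at e2
        have e4 : 2 * (1 + t) ^ 2 * (t * La1 t ^ 2) / l0 t s ^ 2 ≤
            (9 / 10000) * (t * La1 t ^ 2) := by
          rw [div_le_iff₀ (by positivity)]
          have h5 : 0 ≤ t * La1 t ^ 2 := by positivity
          have h6 : 2 * (1 + t) ^ 2 ≤ 9 := by nlinarith
          have h7 : (10000 : ℝ) ≤ l0 t s ^ 2 := by nlinarith
          have h8 : 2 * (1 + t) ^ 2 ≤ 9 / 10000 * l0 t s ^ 2 := by linarith
          calc 2 * (1 + t) ^ 2 * (t * La1 t ^ 2) ≤ (9 / 10000 * l0 t s ^ 2) * (t * La1 t ^ 2) :=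
                mul_le_mul_of_nonneg_right h8 h5
            _ = 9 / 10000 * (t * La1 t ^ 2) * l0 t s ^ 2 := by ring
        calc (th t * R2 t s) * (2 * (1 + t) ^ 2 * (t * La1 t ^ 2) / l0 t s ^ 2) ≤
              (1 / l0 t s) * ((9 / 10000) * (t * La1 t ^ 2)) :=
              mul_le_mul e2 e4 (by positivity) (by positivity)
          _ = _ := by ring
    have hth0 : 0 ≤ th t * (t * R2 t s) := by
      have : 0 ≤ th t := by linarith
      positivity
    calc th t * (t * R2 t s * Yct t s ^ 2) = th t * (t * R2 t s) * Yct t s ^ 2 := by ring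
      _ ≤ th t * (t * R2 t s) *
          (2 * Real.log (l0 t s) ^ 2 + 2 * ((1 + t) * La1 t / l0 t s) ^ 2) :=
          mul_le_mul_of_nonneg_left hY hth0
      _ = th t * (t * R2 t s * (2 * Real.log (l0 t s) ^ 2)) +
          th t * (t * R2 t s * (2 * ((1 + t) * La1 t / l0 t s) ^ 2)) := by ring
      _ ≤ _ := add_le_add hA hB
  -- measurability
  have hYm : ∀ t : ℝ, Measurable (fun s => th t * (t * R2 t s * Yct t s ^ 2)) := by
    intro t
    have h1 : Measurable (fun s => Real.log (l0 t s)) := Real.measurable_log.comp (dec_l0_meas t)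
    have h2 : Measurable (fun s => R2 t s) := by
      unfold R2 Yc
      exact Real.measurable_exp.comp (h1.const_mul _)
    have h3 : Measurable (fun s => Yct t s) := by
      unfold Yct
      exact h1.neg.sub ((dec_l0_meas t).const_div _)
    exact ((h2.const_mul t).mul (h3.pow_const 2)).const_mul _
  -- averaged bound
  have hEs : ∀ (j k : ℕ) (t : ℝ), 0 ≤ t → t < T0 →
      th t * Es j k t (fun s => t * R2 t s * Yct t s ^ 2) ≤
        48 + (9 / 10000) * (t * La1 t ^ 2) * Es j k t (fun s => 1 / l0 t s) := by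
    intro j k t h0 hT
    obtain ⟨hLa0, hLa1, hLa2⟩ := hLa t h0 hT
    have hl : ∀ s ∈ Set.Ioo (0 : ℝ) 1, 100 ≤ l0 t s := by
      intro s hs
      obtain ⟨_, _, _, _, hl, _⟩ := hC t s (by linarith) hT hs.1.le hs.2
      exact hl
    have hi1 : IntegrableOn (fun s => 1 / l0 t s * den j k t s) (Set.Ioo (0 : ℝ) 1) := by
      refine dec_int hC j k t h0 hT (fun s => 1 / l0 t s) ((dec_l0_meas t).const_div 1) 1 ?_
      intro s hs
      have := hl s hs
      rw [abs_of_pos (by positivity), one_mul, div_le_iff₀ (by linarith)]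
      nlinarith
    have hi2 : IntegrableOn (fun s => (9 / 10000 * (t * La1 t ^ 2)) * (1 / l0 t s) * den j k t s)
        (Set.Ioo (0 : ℝ) 1) := by
      have h8 : IntegrableOn (fun s => (9 / 10000 * (t * La1 t ^ 2)) * (1 / l0 t s * den j k t s))
          (Set.Ioo (0 : ℝ) 1) := hi1.const_mul (9 / 10000 * (t * La1 t ^ 2))
      refine h8.congr_fun ?_ measurableSet_Ioo
      intro s _
      ring
    have hi3 : IntegrableOn (fun s => (48 : ℝ) * den j k t s) (Set.Ioo (0 : ℝ) 1) := by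
      refine dec_int hC j k t h0 hT (fun _ => 48) measurable_const 1 ?_
      intro s hs
      have := hl s hs
      rw [abs_of_pos (by norm_num)]
      linarith
    have hi4 : IntegrableOn (fun s => (48 + (9 / 10000 * (t * La1 t ^ 2)) * (1 / l0 t s)) *
        den j k t s) (Set.Ioo (0 : ℝ) 1) := by
      refine (hi3.add hi2).congr_fun ?_ measurableSet_Ioo
      intro s _
      simp only [Pi.add_apply]
      ring
    have hi5 : IntegrableOn (fun s => th t * (t * R2 t s * Yct t s ^ 2) * den j k t s)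
        (Set.Ioo (0 : ℝ) 1) := by
      refine dec_int hC j k t h0 hT (fun s => th t * (t * R2 t s * Yct t s ^ 2)) (hYm t)
        (48 + 9 / 10000 * (t * La1 t ^ 2)) ?_
      intro s hs
      have h1 := hpt t s h0 hT hs.1 hs.2
      have h2 := hl s hs
      obtain ⟨p1, _⟩ := dec_pt hC t s h0 hT hs.1 hs.2
      obtain ⟨_, _, _, _, _, _, _, _, _, _, _, _, _, _, _, _, _, _, hRp⟩ :=
        hC t s (by linarith) hT hs.1.le hs.2
      have h3 : 0 ≤ th t * (t * R2 t s * Yct t s ^ 2) := by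
        have : 0 ≤ th t := by linarith
        positivity
      rw [abs_of_nonneg h3]
      have h4 : 1 / l0 t s ≤ 1 := by
        rw [div_le_one (by linarith)]
        linarith
      have h5 : 0 ≤ 9 / 10000 * (t * La1 t ^ 2) := by positivity
      have h6 : 9 / 10000 * (t * La1 t ^ 2) * (1 / l0 t s) ≤ 9 / 10000 * (t * La1 t ^ 2) := by
        nlinarith
      nlinarith
    have h7 := dec_Es_mono hC j k t h0 hT _ _ hi5 hi4 (fun s hs => hpt t s h0 hT hs.1 hs.2)
    rw [dec_Es_mul, dec_Es_add j k t (fun _ => 48)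
      (fun s => (9 / 10000 * (t * La1 t ^ 2)) * (1 / l0 t s)) hi3 hi2,
      dec_Es_const hC j k t h0 hT, dec_Es_mul] at h7
    exact h7
  -- consequence
  have hmain : ∀ (j k : ℕ) (t : ℝ), 0 ≤ t → t < T0 → 0 < mm j k t ∧
      th t * Es j k t (fun s => t * R2 t s * Yct t s ^ 2) / mm j k t ≤
        48 / mm j k t + (9 / 10000) / (j + 1) ∧
      th t * Es j k t (fun s => t * R2 t s * Yct t s ^ 2) / mm j k t ≤
        48 / mm j k t + (9 / 10000) / (k + 1) ∧ 4 ≤ mm j k t := by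
    intro j k t h0 hT
    obtain ⟨m1, m2, m3, m4, m5⟩ := dec_mm hC j k t h0 hT
    obtain ⟨hLa0, hLa1, hLa2⟩ := hLa t h0 hT
    have hj : (0 : ℝ) ≤ j := Nat.cast_nonneg j
    have hk : (0 : ℝ) ≤ k := Nat.cast_nonneg k
    have hmm4 : 4 ≤ mm j k t := by nlinarith
    have hmm : 0 < mm j k t := by linarith
    have hE1 : Es j k t (fun s => 1 / l0 t s) ≤ 1 := by
      have hl : ∀ s ∈ Set.Ioo (0 : ℝ) 1, 100 ≤ l0 t s := by
        intro s hs
        obtain ⟨_, _, _, _, hl, _⟩ := hC t s (by linarith) hT hs.1.le hs.2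
        exact hl
      refine (dec_Es_mono hC j k t h0 hT (fun s => 1 / l0 t s) (fun _ => 1) ?_ ?_ ?_).trans
        (dec_Es_const hC j k t h0 hT 1).le
      · refine dec_int hC j k t h0 hT (fun s => 1 / l0 t s) ((dec_l0_meas t).const_div 1) 1 ?_
        intro s hs
        have := hl s hs
        rw [abs_of_pos (by positivity), one_mul, div_le_iff₀ (by linarith)]
        nlinarith
      · refine dec_int hC j k t h0 hT (fun _ => 1) measurable_const 1 ?_
        intro s hs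
        have := hl s hs
        rw [abs_one]
        linarith
      · intro s hs
        have := hl s hs
        rw [div_le_one (by linarith)]
        linarith
    have hq : 0 ≤ t * La1 t ^ 2 := by positivity
    have hq2 : t * La1 t ^ 2 ≤ t * La2 t := by
      apply mul_le_mul_of_nonneg_left _ h0
      nlinarith
    have hE2 := hEs j k t h0 hT
    generalize Es j k t (fun s => 1 / l0 t s) = E at m3 m5 hE1 hE2
    have hjE : t * La1 t ^ 2 * E * (j + 1) ≤ mm j k t := by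
      have h1 : t * La1 t ^ 2 * (E * (j + 1)) ≤ t * La2 t * (E * (j + 1)) :=
        mul_le_mul_of_nonneg_right hq2 (by positivity)
      have h2 : 0 ≤ t * La2 t * ((k : ℝ) + 1) := mul_nonneg (hq.trans hq2) (by positivity)
      nlinarith
    have hkE : t * La1 t ^ 2 * E * (k + 1) ≤ mm j k t := by
      have h1 : t * La1 t ^ 2 * (E * (k + 1)) ≤ t * La2 t * (1 * (k + 1)) :=
        mul_le_mul hq2 (mul_le_mul_of_nonneg_right hE1 (by positivity)) (by positivity)
          (hq.trans hq2)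
      have h2 : 0 ≤ t * La2 t * (((j : ℝ) + 1) * E) := mul_nonneg (hq.trans hq2) (by positivity)
      nlinarith
    refine ⟨hmm, ?_, ?_, hmm4⟩
    · rw [div_le_iff₀ hmm]
      have e1 : (48 / mm j k t + 9 / 10000 / (j + 1)) * mm j k t =
          48 + 9 / 10000 * (mm j k t / (j + 1)) := by
        field_simp
      rw [e1]
      have e2 : t * La1 t ^ 2 * E ≤ mm j k t / (j + 1) := by
        rw [le_div_iff₀ (by positivity)]
        exact hjE
      linarith
    · rw [div_le_iff₀ hmm]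
      have e1 : (48 / mm j k t + 9 / 10000 / (k + 1)) * mm j k t =
          48 + 9 / 10000 * (mm j k t / (k + 1)) := by
        field_simp
      rw [e1]
      have e2 : t * La1 t ^ 2 * E ≤ mm j k t / (k + 1) := by
        rw [le_div_iff₀ (by positivity)]
        exact hkE
      linarith
  refine ⟨13, by norm_num, ?_, ?_⟩
  · intro j k t h0 hT
    obtain ⟨h1, h2, _, h4⟩ := hmain j k t h0 hT
    refine h2.trans ?_
    have e1 : 48 / mm j k t ≤ 12 := by
      rw [div_le_iff₀ h1]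
      linarith
    have e2 : (9 / 10000 : ℝ) / (j + 1) ≤ 1 := by
      rw [div_le_one (by positivity)]
      have : (0 : ℝ) ≤ j := Nat.cast_nonneg j
      linarith
    linarith
  · intro ε hε
    obtain ⟨n1, hn1⟩ := dec_mminf hC (96 / ε)
    obtain ⟨n2, hn2⟩ := exists_nat_gt (1 / ε)
    have hbig : ∀ n : ℕ, n2 ≤ n → (9 / 10000 : ℝ) / (n + 1) ≤ ε / 2 := by
      intro n hn
      have h1 : (n2 : ℝ) ≤ n := by exact_mod_cast hn
      rw [div_le_iff₀ (by positivity)]
      have h2 : 1 < ε * n2 := by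
        rw [div_lt_iff₀ hε] at hn2
        linarith
      nlinarith
    refine ⟨max n1 n2, fun j k t hjk h0 hT => ?_⟩
    obtain ⟨h1, h2, h3, h4⟩ := hmain j k t h0 hT
    have h5 : 96 / ε ≤ mm j k t := by
      refine hn1 j k t ?_ h0 hT
      rcases hjk with h | h
      · exact Or.inl ((le_max_left _ _).trans h)
      · exact Or.inr ((le_max_left _ _).trans h)
    have h6 : 48 / mm j k t ≤ ε / 2 := by
      rw [div_le_iff₀ h1]
      rw [div_le_iff₀ hε] at h5
      linarith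
    rcases hjk with h | h
    · have := hbig j ((le_max_right _ _).trans h)
      linarith
    · have := hbig k ((le_max_right _ _).trans h)
      linarith

private theorem j25499_exp (L : ℝ) (hL : 0 ≤ L) :
    (1 + L) * Real.exp (-L) ≤ 1 ∧ (1 + L) * Real.exp (-L) * (100 + L) ≤ 400 := by
  have h1 : 1 + L ≤ Real.exp L := by linarith [Real.add_one_le_exp L]
  have h2 : 1 + L / 2 ≤ Real.exp (L / 2) := by linarith [Real.add_one_le_exp (L / 2)]
  have h3 : Real.exp L * Real.exp (-L) = 1 := by rw [← Real.exp_add]; simp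
  have h4 : Real.exp (L / 2) * Real.exp (L / 2) = Real.exp L := by
    rw [← Real.exp_add]; congr 1; ring
  have h5 : 0 < Real.exp (-L) := Real.exp_pos _
  refine ⟨?_, ?_⟩
  · exact (mul_le_mul_of_nonneg_right h1 h5.le).trans_eq h3
  · have h6 : (1 + L) * (100 + L) ≤ 400 * Real.exp L := by nlinarith
    calc (1 + L) * Real.exp (-L) * (100 + L) = ((1 + L) * (100 + L)) * Real.exp (-L) := by ring
      _ ≤ (400 * Real.exp L) * Real.exp (-L) := mul_le_mul_of_nonneg_right h6 h5.le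
      _ = 400 := by rw [mul_assoc, h3, mul_one]

private theorem j25499_key (hC : CAc_stmt) (j k : ℕ) (t : ℝ) (h0 : 0 ≤ t) (hT : t < T0) :
    0 < mm j k t ∧ (k + 1 : ℝ) * (th t * (t * d0 t * La1 t ^ 2)) ≤ mm j k t ∧
    ∀ c : ℝ, 0 ≤ c → c ≤ (100 + La t) * Es j k t (fun s => 1 / l0 t s) →
      c * (j + 1 : ℝ) * (th t * (t * d0 t * La1 t ^ 2)) ≤ 400 * mm j k t := by
  obtain ⟨m1, -, m3, m4, m5⟩ := dec_mm hC j k t h0 hT
  obtain ⟨p1, p2, -, -, -⟩ := dec_pt hC t (1 / 2) h0 hT (by norm_num) (by norm_num)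
  obtain ⟨c1, c2, c3, -, -, c6, -, c8, -⟩ := hC t 0 (by linarith) hT le_rfl (by norm_num)
  obtain ⟨e1, e2⟩ := j25499_exp (La t) c1
  have hj : (0 : ℝ) ≤ j := Nat.cast_nonneg j
  have hk : (0 : ℝ) ≤ k := Nat.cast_nonneg k
  have hth : 0 ≤ th t := by linarith
  have hmm : 0 < mm j k t := by
    have : (4 : ℝ) ≤ (j + 1) * Es j k t (fun s => Real.log (l0 t s)) := by nlinarith
    linarith
  have hsq : La1 t ^ 2 ≤ La2 t := by nlinarith
  have hL2 : 0 ≤ t * La2 t := mul_nonneg h0 (le_trans (sq_nonneg _) hsq)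
  have htd : th t * d0 t ≤ (1 + La t) * Real.exp (-La t) := by
    rw [c8]; exact mul_le_mul_of_nonneg_right p2 (Real.exp_pos _).le
  have htd0 : 0 ≤ th t * d0 t := mul_nonneg hth c6.le
  have hX : th t * (t * d0 t * La1 t ^ 2) ≤ (th t * d0 t) * (t * La2 t) := by
    have : th t * (t * d0 t * La1 t ^ 2) = (th t * d0 t) * (t * La1 t ^ 2) := by ring
    rw [this]
    exact mul_le_mul_of_nonneg_left (mul_le_mul_of_nonneg_left hsq h0) htd0
  set Q := Es j k t (fun s => 1 / l0 t s) with hQ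
  set X := th t * (t * d0 t * La1 t ^ 2) with hXd
  set A := t * La2 t with hA
  have hjQ : 0 ≤ A * ((j + 1) * Q) := mul_nonneg hL2 (mul_nonneg (by linarith) m5)
  have hkA : 0 ≤ A * (k + 1) := mul_nonneg hL2 (by linarith)
  have m3' : A * (k + 1) + A * ((j + 1) * Q) ≤ mm j k t := by
    have := m3; rw [mul_add] at this; exact this
  refine ⟨hmm, ?_, fun c hc0 hc => ?_⟩
  · have hXA : X ≤ A := by
      have : (th t * d0 t) * A ≤ 1 * A :=
        mul_le_mul_of_nonneg_right (htd.trans e1) hL2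
      linarith
    have : (k + 1 : ℝ) * X ≤ (k + 1) * A := mul_le_mul_of_nonneg_left hXA (by linarith)
    linarith
  · have hL : 0 < 100 + La t := by linarith
    -- multiply by `100 + La`
    have h1 : (th t * d0 t) * (100 + La t) ≤ 400 :=
      le_trans (mul_le_mul_of_nonneg_right htd hL.le) e2
    have h2 : c * (j + 1 : ℝ) * A ≤ (100 + La t) * mm j k t := by
      have h3 : c * ((j + 1 : ℝ) * A) ≤ ((100 + La t) * Q) * ((j + 1 : ℝ) * A) :=
        mul_le_mul_of_nonneg_right hc (mul_nonneg (by linarith) hL2)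
      have h4 : ((100 + La t) * Q) * ((j + 1 : ℝ) * A) = (100 + La t) * (A * ((j + 1) * Q)) := by
        ring
      have h5 : (100 + La t) * (A * ((j + 1) * Q)) ≤ (100 + La t) * mm j k t :=
        mul_le_mul_of_nonneg_left (by linarith) hL.le
      calc c * (j + 1 : ℝ) * A = c * ((j + 1 : ℝ) * A) := by ring
        _ ≤ _ := h3
        _ = _ := h4
        _ ≤ _ := h5
    have h6 : (100 + La t) * (c * (j + 1 : ℝ) * X) ≤ (100 + La t) * (400 * mm j k t) := by
      have hcj : 0 ≤ c * (j + 1 : ℝ) := mul_nonneg hc0 (by linarith)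
      calc (100 + La t) * (c * (j + 1 : ℝ) * X)
          ≤ (100 + La t) * (c * (j + 1 : ℝ) * ((th t * d0 t) * A)) :=
            mul_le_mul_of_nonneg_left (mul_le_mul_of_nonneg_left hX hcj) hL.le
        _ = ((th t * d0 t) * (100 + La t)) * (c * (j + 1 : ℝ) * A) := by ring
        _ ≤ 400 * (c * (j + 1 : ℝ) * A) :=
            mul_le_mul_of_nonneg_right h1 (mul_nonneg hcj hL2)
        _ ≤ 400 * ((100 + La t) * mm j k t) := mul_le_mul_of_nonneg_left h2 (by norm_num)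
        _ = (100 + La t) * (400 * mm j k t) := by ring
    exact le_of_mul_le_mul_left h6 hL

theorem dec_a2 (hC : CAc_stmt) : ∃ C : ℝ, 0 ≤ C ∧
    (∀ (j k : ℕ) (t : ℝ), 0 ≤ t → t < T0 → th t * (t * d0 t * La1 t ^ 2) / mm j k t ≤ C) ∧
    (∀ ε : ℝ, 0 < ε → ∃ n0 : ℕ, ∀ (j k : ℕ) (t : ℝ), n0 ≤ j ∨ n0 ≤ k → 0 ≤ t → t < T0 →
      th t * (t * d0 t * La1 t ^ 2) / mm j k t ≤ ε) := by
  have hsmall : ∀ (j k : ℕ) (t : ℝ), 0 ≤ t → t < T0 →
      th t * (t * d0 t * La1 t ^ 2) / mm j k t ≤ 1 / ((k : ℝ) + 1) := by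
    intro j k t h0 hT
    obtain ⟨a1, a2, -⟩ := j25499_key hC j k t h0 hT
    have hk : (0 : ℝ) < k + 1 := by positivity
    rw [div_le_div_iff₀ a1 hk, one_mul, mul_comm]
    exact a2
  refine ⟨1, zero_le_one, fun j k t h0 hT => (hsmall j k t h0 hT).trans ?_, fun ε hε => ?_⟩
  · have hk : (0 : ℝ) < k + 1 := by positivity
    rw [div_le_one hk]
    have : (0 : ℝ) ≤ k := Nat.cast_nonneg k
    linarith
  · obtain ⟨n1, hn1⟩ := exists_nat_one_div_lt hε
    obtain ⟨c, hc, hlow⟩ := dec_low hC n1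
    obtain ⟨n2, hn2⟩ := exists_nat_gt (400 / (c * ε))
    refine ⟨max n1 n2, fun j k t hjk h0 hT => ?_⟩
    by_cases hk : n1 ≤ k
    · refine (hsmall j k t h0 hT).trans (le_trans ?_ hn1.le)
      have h1 : (0 : ℝ) < n1 + 1 := by positivity
      have h2 : (n1 : ℝ) ≤ k := by exact_mod_cast hk
      exact one_div_le_one_div_of_le h1 (by linarith)
    · push Not at hk
      have hj : n2 ≤ j := by
        rcases hjk with h | h
        · exact (le_max_right _ _).trans h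
        · exact absurd ((le_max_left _ _).trans h) (by omega)
      obtain ⟨a1, -, a3⟩ := j25499_key hC j k t h0 hT
      have h4 := a3 c hc.le (hlow j k t hk h0 hT)
      have hj2 : (n2 : ℝ) ≤ j := by exact_mod_cast hj
      have h5 : 400 < (j : ℝ) * (c * ε) := by
        have : 400 / (c * ε) < j := lt_of_lt_of_le hn2 hj2
        rwa [div_lt_iff₀ (by positivity)] at this
      have h6 : 400 ≤ c * (j + 1 : ℝ) * ε := by nlinarith [mul_pos hc hε]
      rw [div_le_iff₀ a1]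
      have h7 : c * (j + 1 : ℝ) * (th t * (t * d0 t * La1 t ^ 2)) ≤
          c * (j + 1 : ℝ) * (ε * mm j k t) := by
        calc c * (j + 1 : ℝ) * (th t * (t * d0 t * La1 t ^ 2)) ≤ 400 * mm j k t := h4
          _ ≤ (c * (j + 1 : ℝ) * ε) * mm j k t := mul_le_mul_of_nonneg_right h6 a1.le
          _ = c * (j + 1 : ℝ) * (ε * mm j k t) := by ring
      exact le_of_mul_le_mul_left h7 (by positivity)

theorem dec (hC : CAc_stmt) (hPW : PWc_stmt) : DECc_stmt := by
  obtain ⟨r, hrV, hrC, hrε, hrN⟩ := dec_r hC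
  obtain ⟨r2, hr2V, hr2C, hr2ε, hr2N⟩ := dec_r2 hC
  obtain ⟨C0, hC0, ha0, ha0ε⟩ := dec_a0 hC
  obtain ⟨C1, hC1, ha1, ha1ε⟩ := dec_a1 hC
  obtain ⟨C2, hC2, ha2, ha2ε⟩ := dec_a2 hC
  have hth : ∀ t, 0 ≤ t → t < T0 → 1 ≤ th t := fun t h0 hT =>
    (dec_pt hC t (1 / 2) h0 hT (by norm_num) (by norm_num)).1
  have key : ∀ (j k : ℕ) (t ε : ℝ), 0 ≤ t → t < T0 → th t / mm j k t ≤ ε / 8 →
      th t * Es j k t (fun s => t * R2 t s * Yct t s ^ 2) / mm j k t ≤ ε / 48 →
      th t * (t * d0 t * La1 t ^ 2) / mm j k t ≤ ε / 48 →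
      th t * r j k t ≤ ε / 10 → th t * r2 j k t ≤ ε / 10 →
      CoefLe j k t (r j k t) (r2 j k t) ε := by
    intro j k t ε h0 hT e0 e1 e2 e3 e4
    have h1 := hth t h0 hT
    have hr0 := (hrV j k t h0 hT).1
    have hr20 := (hr2V j k t h0 hT).1
    have hr3 : r j k t ≤ th t * r j k t := by nlinarith
    have hr4 : r2 j k t ≤ th t * r2 j k t := by nlinarith
    refine ⟨?_, ?_, ?_, ?_, ?_⟩
    · have : 8 * th t / mm j k t = 8 * (th t / mm j k t) := by ring
      rw [this]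
      linarith
    · have : 24 * th t * (Es j k t (fun s => t * R2 t s * Yct t s ^ 2) / mm j k t + r j k t / 5) =
          24 * (th t * Es j k t (fun s => t * R2 t s * Yct t s ^ 2) / mm j k t) +
            24 / 5 * (th t * r j k t) := by ring
      rw [this]
      linarith
    · have : 24 * th t * (t * d0 t * La1 t ^ 2 / mm j k t + r2 j k t / 5) =
          24 * (th t * (t * d0 t * La1 t ^ 2) / mm j k t) +
            24 / 5 * (th t * r2 j k t) := by ring
      rw [this]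
      linarith
    · linarith
    · linarith
  refine ⟨8 * C0 + 48 * C1 + 48 * C2 + 4010, r, r2, by positivity, ?_, ?_, ?_, ?_⟩
  · intro j k t h0 hT
    obtain ⟨h1, h2⟩ := hrV j k t h0 hT
    obtain ⟨h3, h4⟩ := hr2V j k t h0 hT
    exact ⟨h1, h3, fun s hs => ⟨h2 s hs, h4 s hs⟩⟩
  · intro j k t h0 hT
    have e0 := ha0 j k t h0 hT
    have e1 := ha1 j k t h0 hT
    have e2 := ha2 j k t h0 hT
    have e3 := hrC j k t h0 hT
    have e4 := hr2C j k t h0 hT
    refine key j k t _ h0 hT ?_ ?_ ?_ ?_ ?_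
    · linarith
    · linarith
    · linarith
    · linarith
    · linarith
  · intro ε hε
    obtain ⟨n1, h1⟩ := ha0ε (ε / 8) (by positivity)
    obtain ⟨n2, h2⟩ := ha1ε (ε / 48) (by positivity)
    obtain ⟨n3, h3⟩ := ha2ε (ε / 48) (by positivity)
    obtain ⟨n4, h4⟩ := hrε (ε / 10) (by positivity)
    obtain ⟨n5, h5⟩ := hr2ε (ε / 10) (by positivity)
    refine ⟨n1 + n2 + n3 + n4 + n5, fun j k t hjk h0 hT => ?_⟩
    refine key j k t ε h0 hT (h1 j k t ?_ h0 hT) (h2 j k t ?_ h0 hT) (h3 j k t ?_ h0 hT)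
      (h4 j k t ?_ h0 hT) (h5 j k t ?_ h0 hT)
    all_goals
      rcases hjk with h | h
      · left
        omega
      · right
        omega
  · intro ε hε
    obtain ⟨N1, h1⟩ := hrN (ε / 8) (by positivity)
    obtain ⟨N2, h2⟩ := hr2N (ε / 8) (by positivity)
    refine ⟨max N1 N2, fun j k t h0 hT hN => ?_⟩
    have e1 := h1 j k t h0 hT ((le_max_left _ _).trans hN)
    have e2 := h2 j k t h0 hT ((le_max_right _ _).trans hN)
    exact ⟨by linarith, by linarith⟩

end DbarC.JDE
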