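import Pool.Agent.H314.DN.Stmts4
import Pool.Agent.H314.DN.CA1
import Pool.Agent.H314.DN.CA2

set_option autoImplicit false

open MeasureTheory Complex Filter Topology
open scoped ContDiff InnerProductSpace ENNReal ComplexConjugate

namespace DbarC

open DbarN

/-! ### The domain -/

/-- `ω` -/
noncomputable def w0 (t : ℝ) : ℝ := om (1 / 100) 100 t
/-- `δ = 1 - ω` -/
noncomputable def d0 (t : ℝ) : ℝ := dl (1 / 100) 100 t
/-- `Λ = -log δ` and derivatives -/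
noncomputable def La (t : ℝ) : ℝ := Lm (1 / 100) 100 t
noncomputable def La1 (t : ℝ) : ℝ := Lm1 (1 / 100) 100 t
noncomputable def La2 (t : ℝ) : ℝ := Lm2 (1 / 100) 100 t
/-- `ℓ = 100 + Λ(t) + τ(s)` -/
noncomputable def l0 (t s : ℝ) : ℝ := el (1 / 100) 100 t s
/-- end of the `t`-interval: `ω(T0) = 1` -/
noncomputable def T0 : ℝ := tB (1 / 100) 100

/-- `G(t,y) = exp(100 - y^{-1/(1+t)})` -/
noncomputable def Gy (t y : ℝ) : ℝ :=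
  if y ≤ 0 then 0 else Real.exp (100 - y ^ (-(1 / (1 + t))))

/-- the defining function `F` (the domain is `F < 1`) -/
noncomputable def FF (x : E3) : ℝ := w0 (‖x 0‖ ^ 2) + Gy (‖x 0‖ ^ 2) (‖x 1‖ ^ 2) + ‖x 2‖ ^ 2

/-- the domain -/
def Om : Set E3 := {x | ‖x 0‖ ^ 2 < 2 ∧ FF x < 1}

/-- the disc over which `Om` lies -/
def BD : Set ℂ := {z | ‖z‖ ^ 2 < T0}

/-- `Y = log R² = -(1+t) log ℓ` and derivatives -/
noncomputable def Yc (t s : ℝ) : ℝ := -(1 + t) * Real.log (l0 t s)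
noncomputable def Yct (t s : ℝ) : ℝ := -Real.log (l0 t s) - (1 + t) * La1 t / l0 t s
noncomputable def Yctt (t s : ℝ) : ℝ :=
  -2 * La1 t / l0 t s - (1 + t) * (La2 t / l0 t s - La1 t ^ 2 / l0 t s ^ 2)
noncomputable def Ycs (t s : ℝ) : ℝ := -(1 + t) * tau1 s / l0 t s
noncomputable def Ycss (t s : ℝ) : ℝ :=
  -(1 + t) * (tau2 s / l0 t s - tau1 s ^ 2 / l0 t s ^ 2)
noncomputable def Ycts (t s : ℝ) : ℝ :=
  -tau1 s / l0 t s + (1 + t) * La1 t * tau1 s / l0 t s ^ 2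
/-- squared fibre radius `R² = ℓ^{-(1+t)}` -/
noncomputable def R2 (t s : ℝ) : ℝ := Real.exp (Yc t s)

/-- density `s^{2k+1} R^{2(j+1)}` -/
noncomputable def den (j k : ℕ) (t s : ℝ) : ℝ := s ^ (2 * k + 1) * Real.exp ((j + 1) * Yc t s)
noncomputable def Iw (j k : ℕ) (t : ℝ) : ℝ := ∫ s in Set.Ioo (0 : ℝ) 1, den j k t s
/-- fibre average of functions of `s` -/
noncomputable def Es (j k : ℕ) (t : ℝ) (H : ℝ → ℝ) : ℝ :=
  (∫ s in Set.Ioo (0 : ℝ) 1, H s * den j k t s) / Iw j k t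
noncomputable def ww (j k : ℕ) (t : ℝ) : ℝ := d0 t ^ (k + 1) * Iw j k t
noncomputable def psi (j k : ℕ) (t : ℝ) : ℝ := - Real.log (ww j k t)
noncomputable def mm (j k : ℕ) (t : ℝ) : ℝ :=
  (k + 1) * (La1 t + t * La2 t) +
    (j + 1) * Es j k t (fun s => Real.log (l0 t s) + t * La2 t / l0 t s)
/-- extra weight `ϑ = (1+Λ)^{1/4}` -/
noncomputable def th (t : ℝ) : ℝ := (1 + La t) ^ (1 / 4 : ℝ)

/-- second derivative of the fibre potential in `s` -/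
noncomputable def V2 (j k : ℕ) (t s : ℝ) : ℝ := (2 * k + 1) / s ^ 2 - (j + 1) * Ycss t s

/-- the point over `z` with fibre coordinates `(v,s)` -/
noncomputable def Pt (z : ℂ) (v s : ℝ) : E3 :=
  ![z, ((v * Real.sqrt (R2 (‖z‖ ^ 2) s) : ℝ) : ℂ), ((Real.sqrt (d0 (‖z‖ ^ 2)) * s : ℝ) : ℂ)]
noncomputable def mono (j k : ℕ) (z : ℂ) (v s : ℝ) : ℝ :=
  (v * Real.sqrt (R2 (‖z‖ ^ 2) s)) ^ j * (Real.sqrt (d0 (‖z‖ ^ 2)) * s) ^ k
/-- fibre expectation -/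
noncomputable def EE (j k : ℕ) (t : ℝ) (H : ℝ → ℝ → ℝ) : ℝ :=
  (∫ v in Set.Ioo (0 : ℝ) 1, ∫ s in Set.Ioo (0 : ℝ) 1,
    H v s * (v ^ (2 * j + 1) * den j k t s)) * ((2 * j + 2) / Iw j k t)
noncomputable def EC (j k : ℕ) (t : ℝ) (H : ℝ → ℝ → ℂ) : ℂ :=
  (∫ v in Set.Ioo (0 : ℝ) 1, ∫ s in Set.Ioo (0 : ℝ) 1,
    H v s * ((v ^ (2 * j + 1) * den j k t s : ℝ) : ℂ)) * (((2 * j + 2) / Iw j k t : ℝ) : ℂ)
noncomputable def cc (j k : ℕ) (F : E3 → ℂ) (z : ℂ) (v s : ℝ) : ℂ :=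
  F (Pt z v s) / (mono j k z v s : ℂ)
noncomputable def GG (j k : ℕ) (F : E3 → ℂ) (i : Fin 3) (z : ℂ) (v s : ℝ) : ℂ :=
  dbar i F (Pt z v s) / (mono j k z v s : ℂ)
noncomputable def aa (j k : ℕ) (F : E3 → ℂ) (z : ℂ) : ℂ := EC j k (‖z‖ ^ 2) (cc j k F z)

end DbarC
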