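import Pool.Agent.H314.DC.St3
import Pool.Agent.H314.DN.FD

set_option autoImplicit false

open MeasureTheory Complex Filter Topology
open scoped ContDiff InnerProductSpace ENNReal ComplexConjugate

namespace DbarC.JFDj
open DbarN
open DbarN.JCA1 DbarN.JCA2 DbarN.JFD

/-- the parameters are `(v, s, R, w, y)` -/
noncomputable def fibDcBq (q : ℂ × (ℝ × ℝ × ℝ × ℝ × ℝ)) : ℝ := Real.sqrt (d0 (‖q.1‖ ^ 2))
noncomputable def fibDcS (q : ℂ × (ℝ × ℝ × ℝ × ℝ × ℝ)) : ℝ :=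
  -q.2.2.2.2.2 - (1 + ‖q.1‖ ^ 2) * La1 (‖q.1‖ ^ 2) * q.2.2.2.2.1
noncomputable def fibDcP1 (j k : ℕ) (q : ℂ × (ℝ × ℝ × ℝ × ℝ × ℝ)) : ℝ :=
  q.2.1 ^ (j + 1) * q.2.2.1 ^ (k + 1) * q.2.2.2.1 ^ (j + 1) * ((fibDcBq q)⁻¹) ^ k
noncomputable def fibDcP (j k : ℕ) (q : ℂ × (ℝ × ℝ × ℝ × ℝ × ℝ)) : ℝ :=
  q.2.1 ^ (j + 1) * q.2.2.1 ^ (k + 1) * q.2.2.2.1 ^ (j + 2) * ((fibDcBq q)⁻¹) ^ k
noncomputable def fibDcPt (q : ℂ × (ℝ × ℝ × ℝ × ℝ × ℝ)) : E3 :=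
  ![q.1, ((q.2.1 * q.2.2.2.1 : ℝ) : ℂ), ((fibDcBq q * q.2.2.1 : ℝ) : ℂ)]
noncomputable def fibDcR (j : ℕ) (F : E3 → ℂ) (q : ℂ × (ℝ × ℝ × ℝ × ℝ × ℝ)) : ℂ :=
  ((q.2.1 * q.2.2.2.1 * fibDcS q : ℝ) : ℂ) * dbar 1 F (fibDcPt q) -
  ((q.2.2.2.1 * q.2.2.1 * fibDcBq q * La1 (‖q.1‖ ^ 2) : ℝ) : ℂ) * dbar 2 F (fibDcPt q) +
  (((j + 1) * fibDcS q : ℝ) : ℂ) * F (fibDcPt q)
noncomputable def fibDcN (j k : ℕ) (F : E3 → ℂ) (q : ℂ × (ℝ × ℝ × ℝ × ℝ × ℝ)) : ℂ :=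
  (fibDcP j k q : ℂ) * F (fibDcPt q)
noncomputable def fibDcN' (j k : ℕ) (F : E3 → ℂ) (q : ℂ × (ℝ × ℝ × ℝ × ℝ × ℝ)) : ℂ →L[ℝ] ℂ :=
  fibDcP j k q • ((fderiv ℝ F (fibDcPt q)).comp
    (ContinuousLinearMap.single ℝ (fun _ : Fin 3 => ℂ) 0)) +
  (2 • innerSL ℝ q.1).smulRight ((fibDcP1 j k q : ℂ) * fibDcR j F q)

/-- the compact parameter set -/
def fibDcK : Set (ℝ × ℝ × ℝ × ℝ × ℝ) :=
  Set.Icc 0 1 ×ˢ (Set.Icc 0 1 ×ˢ (Set.Icc 0 1 ×ˢ (Set.Icc 0 1 ×ˢ Set.Icc 0 2)))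

theorem fibDc_K_compact : IsCompact fibDcK :=
  isCompact_Icc.prod (isCompact_Icc.prod (isCompact_Icc.prod (isCompact_Icc.prod isCompact_Icc)))

theorem fibDc_par : ParOK 1 (1 / 100) 100 :=
  ⟨one_pos, le_refl _, by norm_num, le_refl _, le_refl _⟩

theorem fibDc_t {z : ℂ} (hz : z ∈ BD) : ‖z‖ ^ 2 < T0 := hz

theorem fibDc_t' (z : ℂ) : -1 < ‖z‖ ^ 2 := by
  have : 0 ≤ ‖z‖ ^ 2 := by positivity
  linarith

theorem fibDc_BD_open : IsOpen BD := isOpen_lt (by fun_prop) continuous_const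

theorem fibDc_d0_pos {t : ℝ} (ht : t < T0) : 0 < d0 t :=
  dl_pos (by norm_num) (by norm_num) ht

theorem fibDc_B_pos {q : ℂ × (ℝ × ℝ × ℝ × ℝ × ℝ)} (hq : q ∈ BD ×ˢ fibDcK) : 0 < fibDcBq q :=
  Real.sqrt_pos.2 (fibDc_d0_pos hq.1)

theorem fibDc_B_cont : Continuous fibDcBq := by
  have h1 : Continuous d0 :=
    continuous_iff_continuousAt.mpr fun t =>
      (dl_hasDerivAt (k1 := 1 / 100) (l1 := 100) (by norm_num) t).continuousAt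
  unfold fibDcBq
  exact Real.continuous_sqrt.comp (h1.comp (by fun_prop))

theorem fibDc_La1_cont : ContinuousOn (fun q : ℂ × (ℝ × ℝ × ℝ × ℝ × ℝ) => La1 (‖q.1‖ ^ 2))
    (BD ×ˢ fibDcK) := by
  have h1 : ContinuousOn La1 (Set.Iio T0) := fun t ht =>
    (Lm1_hasDerivAt (k1 := 1 / 100) (l1 := 100) (by norm_num) (by norm_num)
      ht).continuousAt.continuousWithinAt
  exact h1.comp (by fun_prop) (fun q hq => hq.1)

theorem fibDc_S_cont : ContinuousOn fibDcS (BD ×ˢ fibDcK) := by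
  have h1 := fibDc_La1_cont
  unfold fibDcS
  exact ((Continuous.continuousOn (by fun_prop)).sub
    (((Continuous.continuousOn (by fun_prop)).mul h1).mul (Continuous.continuousOn (by fun_prop))))

theorem fibDc_P1_cont (j k : ℕ) : ContinuousOn (fibDcP1 j k) (BD ×ˢ fibDcK) := by
  unfold fibDcP1
  have h1 : ContinuousOn (fun q : ℂ × (ℝ × ℝ × ℝ × ℝ × ℝ) => (fibDcBq q)⁻¹) (BD ×ˢ fibDcK) :=
    fibDc_B_cont.continuousOn.inv₀ (fun q hq => (fibDc_B_pos hq).ne')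
  exact ContinuousOn.mul (Continuous.continuousOn (by fun_prop)) (h1.pow k)

theorem fibDc_P_cont (j k : ℕ) : ContinuousOn (fibDcP j k) (BD ×ˢ fibDcK) := by
  unfold fibDcP
  have h1 : ContinuousOn (fun q : ℂ × (ℝ × ℝ × ℝ × ℝ × ℝ) => (fibDcBq q)⁻¹) (BD ×ˢ fibDcK) :=
    fibDc_B_cont.continuousOn.inv₀ (fun q hq => (fibDc_B_pos hq).ne')
  exact ContinuousOn.mul (Continuous.continuousOn (by fun_prop)) (h1.pow k)

theorem fibDc_Pt_cont : Continuous fibDcPt := by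
  have h1 := fibDc_B_cont
  refine continuous_pi (fun i => ?_)
  fin_cases i
  · exact continuous_fst
  · show Continuous (fun q : ℂ × (ℝ × ℝ × ℝ × ℝ × ℝ) => ((q.2.1 * q.2.2.2.1 : ℝ) : ℂ))
    fun_prop
  · show Continuous (fun q : ℂ × (ℝ × ℝ × ℝ × ℝ × ℝ) => ((fibDcBq q * q.2.2.1 : ℝ) : ℂ))
    fun_prop

theorem fibDc_R_cont (j : ℕ) (F : E3 → ℂ) (hF : ContDiff ℝ ∞ F) :
    ContinuousOn (fibDcR j F) (BD ×ˢ fibDcK) := by
  have hx := fibDc_S_cont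
  have hPt := fibDc_Pt_cont
  have hB := fibDc_B_cont
  have hL := fibDc_La1_cont
  unfold fibDcR
  refine ContinuousOn.add (ContinuousOn.sub (ContinuousOn.mul ?_ ?_) (ContinuousOn.mul ?_ ?_))
    (ContinuousOn.mul ?_ ?_)
  · exact Complex.continuous_ofReal.comp_continuousOn
      ((Continuous.continuousOn (by fun_prop)).mul hx)
  · exact ((fibD_dbar_cont F hF 1).comp hPt).continuousOn
  · exact Complex.continuous_ofReal.comp_continuousOn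
      ((Continuous.continuousOn (by fun_prop)).mul hL)
  · exact ((fibD_dbar_cont F hF 2).comp hPt).continuousOn
  · exact Complex.continuous_ofReal.comp_continuousOn
      (continuousOn_const.mul hx)
  · exact (hF.continuous.comp hPt).continuousOn

theorem fibDc_N_cont (j k : ℕ) (F : E3 → ℂ) (hF : ContDiff ℝ ∞ F) :
    ContinuousOn (fibDcN j k F) (BD ×ˢ fibDcK) := by
  unfold fibDcN
  exact (Complex.continuous_ofReal.comp_continuousOn (fibDc_P_cont j k)).mul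
    (hF.continuous.comp fibDc_Pt_cont).continuousOn

theorem fibDc_N'_cont (j k : ℕ) (F : E3 → ℂ) (hF : ContDiff ℝ ∞ F) :
    ContinuousOn (fibDcN' j k F) (BD ×ˢ fibDcK) := by
  unfold fibDcN'
  have h1 : Continuous (fderiv ℝ F) := hF.continuous_fderiv (by simp)
  have h2 : Continuous (fun q : ℂ × (ℝ × ℝ × ℝ × ℝ × ℝ) => (fderiv ℝ F (fibDcPt q)).comp
    (ContinuousLinearMap.single ℝ (fun _ : Fin 3 => ℂ) 0)) :=
    (h1.comp fibDc_Pt_cont).clm_comp continuous_const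
  refine ContinuousOn.add ((fibDc_P_cont j k).smul h2.continuousOn) ?_
  have h3 : Continuous (fun q : ℂ × (ℝ × ℝ × ℝ × ℝ × ℝ) => (2 • innerSL ℝ q.1 : ℂ →L[ℝ] ℝ)) := by
    fun_prop
  have h4 : ContinuousOn (fun q : ℂ × (ℝ × ℝ × ℝ × ℝ × ℝ) =>
      (fibDcP1 j k q : ℂ) * fibDcR j F q) (BD ×ˢ fibDcK) :=
    (Complex.continuous_ofReal.comp_continuousOn (fibDc_P1_cont j k)).mul (fibDc_R_cont j F hF)
  have h5 : ∀ q : ℂ × (ℝ × ℝ × ℝ × ℝ × ℝ), (2 • innerSL ℝ q.1 : ℂ →L[ℝ] ℝ).smulRight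
      ((fibDcP1 j k q : ℂ) * fibDcR j F q) =
      ContinuousLinearMap.smulRightL ℝ ℂ ℂ (2 • innerSL ℝ q.1 : ℂ →L[ℝ] ℝ)
      ((fibDcP1 j k q : ℂ) * fibDcR j F q) := fun q => rfl
  simp_rw [h5]
  exact ContinuousOn.clm_apply
    (((ContinuousLinearMap.smulRightL ℝ ℂ ℂ).continuous.comp h3).continuousOn) h4

/-- the path of parameters -/
noncomputable def fibDcp (z : ℂ) (a : ℝ × ℝ) : ℝ × ℝ × ℝ × ℝ × ℝ :=
  (a.1, a.2, Real.sqrt (R2 (‖z‖ ^ 2) a.2), Real.sqrt (R2 (‖z‖ ^ 2) a.2) / l0 (‖z‖ ^ 2) a.2,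
    Real.sqrt (R2 (‖z‖ ^ 2) a.2) * Real.log (l0 (‖z‖ ^ 2) a.2))

/-- facts extracted from `CAc` -/
theorem fibDc_facts (hC : CAc_stmt) {t s : ℝ} (ht1 : -1 < t) (ht : t < T0) (hs : 0 < s)
    (hs1 : s < 1) : 100 ≤ l0 t s ∧ 0 < R2 t s ∧
    HasDerivAt (fun t => l0 t s) (La1 t) t ∧ HasDerivAt (fun s => l0 t s) (tau1 s) s ∧
    HasDerivAt (fun t => Real.sqrt (R2 t s)) (Real.sqrt (R2 t s) * Yct t s / 2) t ∧
    ContinuousAt (fun s => Real.sqrt (R2 t s)) s ∧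
    HasDerivAt (fun t => Yc t s) (Yct t s) t ∧
    (0 ≤ t → R2 t s ≤ 1 / l0 t s) := by
  obtain ⟨-, -, -, -, h100, -, -, -, -, -, hlt, hls, hYt, -, hYs, -, -, hR, hRp⟩ :=
    hC t s ht1 ht hs.le hs1
  refine ⟨h100, hRp, hlt, hls, ?_, ?_, hYt, hR⟩
  · have h1 : HasDerivAt (fun t => R2 t s) (R2 t s * Yct t s) t := hYt.exp
    refine (h1.sqrt hRp.ne').congr_deriv ?_
    have h2 : Real.sqrt (R2 t s) ≠ 0 := (Real.sqrt_pos.2 hRp).ne'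
    have h3 : Real.sqrt (R2 t s) * Real.sqrt (R2 t s) = R2 t s := Real.mul_self_sqrt hRp.le
    rw [div_eq_div_iff (by positivity) (by norm_num)]
    linear_combination (-2 * Yct t s) * h3
  · exact (Real.continuous_sqrt.continuousAt).comp hYs.exp.continuousAt

theorem fibDc_p_mem (hC : CAc_stmt) {z : ℂ} (hz : z ∈ BD) {a : ℝ × ℝ}
    (ha : a ∈ Set.Icc (0 : ℝ) 1 ×ˢ Set.Ioo (0 : ℝ) 1) : fibDcp z a ∈ fibDcK := by
  obtain ⟨h1, h2, -, -, -, -, -, h3⟩ := fibDc_facts hC (fibDc_t' z) (fibDc_t hz) ha.2.1 ha.2.2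
  have h4 := h3 (by positivity)
  have hl0 : 0 < l0 (‖z‖ ^ 2) a.2 := by linarith
  obtain ⟨R, hR⟩ : ∃ R, R = Real.sqrt (R2 (‖z‖ ^ 2) a.2) := ⟨_, rfl⟩
  obtain ⟨L, hL⟩ : ∃ L, L = l0 (‖z‖ ^ 2) a.2 := ⟨_, rfl⟩
  have hR0 : 0 ≤ R := by rw [hR]; exact Real.sqrt_nonneg _
  have hRR : R * R = R2 (‖z‖ ^ 2) a.2 := by rw [hR]; exact Real.mul_self_sqrt h2.le
  rw [← hRR] at h4
  rw [← hL] at h1 h4 hl0
  have hsL : 0 < Real.sqrt L := Real.sqrt_pos.2 hl0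
  have hsLL : Real.sqrt L * Real.sqrt L = L := Real.mul_self_sqrt hl0.le
  have hRL : R * Real.sqrt L ≤ 1 := by
    have h5 : (R * Real.sqrt L) * (R * Real.sqrt L) ≤ 1 := by
      have h6 : (R * Real.sqrt L) * (R * Real.sqrt L) = (R * R) * L := by
        linear_combination (R * R) * hsLL
      rw [h6]
      calc (R * R) * L ≤ (1 / L) * L := mul_le_mul_of_nonneg_right h4 hl0.le
        _ = 1 := by field_simp
    nlinarith [mul_nonneg hR0 hsL.le]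
  have hlog : Real.log L ≤ 2 * Real.sqrt L := by
    have h5 : Real.log (Real.sqrt L * Real.sqrt L) = Real.log (Real.sqrt L) + Real.log (Real.sqrt L) :=
      Real.log_mul hsL.ne' hsL.ne'
    rw [hsLL] at h5
    have h6 := Real.log_le_sub_one_of_pos hsL
    linarith
  have hlog0 : 0 ≤ Real.log L := Real.log_nonneg (by linarith)
  have hR1 : R ≤ 1 := by
    have h5 : (1 : ℝ) ≤ Real.sqrt L := by
      rw [Real.one_le_sqrt]; linarith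
    nlinarith
  refine ⟨⟨ha.1.1, ha.1.2⟩, ⟨ha.2.1.le, ha.2.2.le⟩, ⟨?_, ?_⟩, ⟨?_, ?_⟩, ⟨?_, ?_⟩⟩
  · show 0 ≤ Real.sqrt (R2 (‖z‖ ^ 2) a.2)
    rw [← hR]; exact hR0
  · show Real.sqrt (R2 (‖z‖ ^ 2) a.2) ≤ 1
    rw [← hR]; exact hR1
  · show 0 ≤ Real.sqrt (R2 (‖z‖ ^ 2) a.2) / l0 (‖z‖ ^ 2) a.2
    rw [← hR, ← hL]; positivity
  · show Real.sqrt (R2 (‖z‖ ^ 2) a.2) / l0 (‖z‖ ^ 2) a.2 ≤ 1
    rw [← hR, ← hL, div_le_one hl0]; linarith
  · show 0 ≤ Real.sqrt (R2 (‖z‖ ^ 2) a.2) * Real.log (l0 (‖z‖ ^ 2) a.2)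
    rw [← hR, ← hL]; positivity
  · show Real.sqrt (R2 (‖z‖ ^ 2) a.2) * Real.log (l0 (‖z‖ ^ 2) a.2) ≤ 2
    rw [← hR, ← hL]
    nlinarith [mul_le_mul_of_nonneg_left hlog hR0]

theorem fibDc_cont1 (hC : CAc_stmt) {z : ℂ} (hz : z ∈ BD) :
    ContinuousOn (fun s => (Real.sqrt (R2 (‖z‖ ^ 2) s),
      Real.sqrt (R2 (‖z‖ ^ 2) s) / l0 (‖z‖ ^ 2) s,
      Real.sqrt (R2 (‖z‖ ^ 2) s) * Real.log (l0 (‖z‖ ^ 2) s))) (Set.Ioo (0 : ℝ) 1) := by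
  intro s hs
  obtain ⟨h1, -, -, h4, -, h6, -, -⟩ := fibDc_facts hC (fibDc_t' z) (fibDc_t hz) hs.1 hs.2
  apply ContinuousAt.continuousWithinAt
  exact h6.prodMk ((h6.div h4.continuousAt (by linarith)).prodMk
    (h6.mul (h4.continuousAt.log (by linarith))))

theorem fibDc_cont2 (hC : CAc_stmt) {s : ℝ} (hs : s ∈ Set.Ioo (0 : ℝ) 1) :
    ContinuousOn (fun z : ℂ => (Real.sqrt (R2 (‖z‖ ^ 2) s),
      Real.sqrt (R2 (‖z‖ ^ 2) s) / l0 (‖z‖ ^ 2) s,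
      Real.sqrt (R2 (‖z‖ ^ 2) s) * Real.log (l0 (‖z‖ ^ 2) s))) BD := by
  intro z hz
  obtain ⟨h1, -, h3, -, h5, -, -, -⟩ := fibDc_facts hC (fibDc_t' z) (fibDc_t hz) hs.1 hs.2
  have h6 : ContinuousAt (fun z : ℂ => l0 (‖z‖ ^ 2) s) z :=
    ContinuousAt.comp (f := fun z : ℂ => ‖z‖ ^ 2) (g := fun t => l0 t s) h3.continuousAt
      (by fun_prop)
  have h7 : ContinuousAt (fun z : ℂ => Real.sqrt (R2 (‖z‖ ^ 2) s)) z :=
    ContinuousAt.comp (f := fun z : ℂ => ‖z‖ ^ 2) (g := fun t => Real.sqrt (R2 t s))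
      h5.continuousAt (by fun_prop)
  apply ContinuousAt.continuousWithinAt
  exact h7.prodMk ((h7.div h6 (by linarith)).prodMk (h7.mul (h6.log (by linarith))))

theorem fibDc_Seq (z : ℂ) (v s : ℝ) : fibDcS (z, fibDcp z (v, s)) =
    Real.sqrt (R2 (‖z‖ ^ 2) s) * Yct (‖z‖ ^ 2) s := by
  unfold fibDcS fibDcp Yct
  dsimp only
  ring

theorem fibDc_PP1 (j k : ℕ) (q : ℂ × (ℝ × ℝ × ℝ × ℝ × ℝ)) :
    fibDcP j k q = fibDcP1 j k q * q.2.2.2.1 := by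
  unfold fibDcP fibDcP1
  ring

theorem fibDc_Pteq (z : ℂ) (v s : ℝ) : fibDcPt (z, fibDcp z (v, s)) = Pt z v s := rfl

theorem fibDc_deriv (hC : CAc_stmt) (j k : ℕ) (F : E3 → ℂ) (hF : ContDiff ℝ ∞ F)
    (hm : IsModeFn j k F) (v s : ℝ) (hv : 0 < v) (hs : 0 < s) (hs1 : s < 1) (z : ℂ)
    (hz : z ∈ BD) :
    HasFDerivAt (fun w : ℂ => fibDcN j k F (w, fibDcp w (v, s)))
      (fibDcN' j k F (z, fibDcp z (v, s))) z := by
  have hz' : ‖z‖ ^ 2 < T0 := hz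
  have hz1 := fibDc_t' z
  obtain ⟨t, htd⟩ : ∃ t, t = ‖z‖ ^ 2 := ⟨_, rfl⟩
  rw [← htd] at hz' hz1
  obtain ⟨hel, hR2, held, -, hAd, -, -, -⟩ := fibDc_facts hC hz1 hz' hs hs1
  -- A
  let A : ℝ → ℝ := fun t => Real.sqrt (R2 t s)
  have hApos : 0 < A t := Real.sqrt_pos.2 hR2
  have hAd' : HasDerivAt A (A t * Yct t s / 2) t := hAd
  -- B
  let B : ℝ → ℝ := fun t => Real.sqrt (d0 t)
  have hdl : 0 < d0 t := fibDc_d0_pos hz'
  have hBpos : 0 < B t := Real.sqrt_pos.2 hdl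
  have hB2 : B t ^ 2 = d0 t := Real.sq_sqrt hdl.le
  have hBd : HasDerivAt B (-(1 / 2) * B t * La1 t) t := by
    have h0 : HasDerivAt d0 (-om1 (1 / 100) 100 t) t :=
      dl_hasDerivAt (k1 := 1 / 100) (l1 := 100) (by norm_num) t
    have h1 := h0.sqrt hdl.ne'
    refine h1.congr_deriv ?_
    have hB0 : B t ≠ 0 := hBpos.ne'
    have h3 : om1 (1 / 100) 100 t = La1 t * B t ^ 2 := by
      rw [hB2]
      show om1 (1 / 100) 100 t = om1 (1 / 100) 100 t / d0 t * d0 t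
      field_simp
    rw [h3]
    show -(La1 t * B t ^ 2) / (2 * B t) = _
    field_simp
  have hBi : HasDerivAt (fun t => (B t)⁻¹) ((B t)⁻¹ * (1 / 2 * La1 t)) t := by
    refine (hBd.fun_inv hBpos.ne').congr_deriv ?_
    have : B t ≠ 0 := hBpos.ne'
    field_simp
  -- p
  let p : ℝ → ℝ := fun t => v ^ (j + 1) * s ^ (k + 1) * A t ^ (j + 2) * ((B t)⁻¹) ^ k
  have hpd : HasDerivAt p (p t * (((j + 2 : ℕ) : ℝ) * (A t * Yct t s / 2) / A t +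
      k * (1 / 2 * La1 t))) t := by
    have h1 := fibD_powlog A _ t hAd' hApos.ne' (j + 2)
    have h2 := fibD_powlog (fun t => (B t)⁻¹) _ t hBi (inv_pos.2 hBpos).ne' k
    refine ((h1.const_mul (v ^ (j + 1) * s ^ (k + 1))).mul h2).congr_deriv ?_
    have : B t ≠ 0 := hBpos.ne'
    have : A t ≠ 0 := hApos.ne'
    simp only [p]
    field_simp
  let g1 : ℝ → ℝ := fun t => v * A t
  have hg1 : HasDerivAt g1 (v * (A t * Yct t s / 2)) t := hAd'.const_mul v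
  let g2 : ℝ → ℝ := fun t => B t * s
  have hg2 : HasDerivAt g2 ((-(1 / 2) * B t * La1 t) * s) t := hBd.mul_const s
  have hch := fibD_chain F hF z p g1 g2 _ _ _ (htd ▸ hpd) (htd ▸ hg1) (htd ▸ hg2)
    ![z, (g1 (‖z‖ ^ 2) : ℂ), (g2 (‖z‖ ^ 2) : ℂ)] rfl
  have hg1pos : g1 t ≠ 0 := (mul_pos hv hApos).ne'
  have hg2pos : g2 t ≠ 0 := (mul_pos hBpos hs).ne'
  have hm1 := fibD_mode1 j k F hF hm ![z, (g1 (‖z‖ ^ 2) : ℂ), (g2 (‖z‖ ^ 2) : ℂ)] (g1 t) hg1pos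
    (by rw [htd]; rfl)
  have hm2 := fibD_mode2 j k F hF hm ![z, (g1 (‖z‖ ^ 2) : ℂ), (g2 (‖z‖ ^ 2) : ℂ)] (g2 t) hg2pos
    (by rw [htd]; rfl)
  refine hch.congr_fderiv ?_
  have hPeq : fibDcP j k (z, fibDcp z (v, s)) = p (‖z‖ ^ 2) := rfl
  have hPteq : fibDcPt (z, fibDcp z (v, s)) =
    ![z, (g1 (‖z‖ ^ 2) : ℂ), (g2 (‖z‖ ^ 2) : ℂ)] := rfl
  have hP1eq : p (‖z‖ ^ 2) = fibDcP1 j k (z, fibDcp z (v, s)) * A (‖z‖ ^ 2) :=
    fibDc_PP1 j k (z, fibDcp z (v, s))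
  unfold fibDcN'
  rw [hPeq, hPteq]
  congr 2
  unfold fibDcR
  rw [hPteq, hm1, hm2, hP1eq]
  generalize F ![z, (g1 (‖z‖ ^ 2) : ℂ), (g2 (‖z‖ ^ 2) : ℂ)] = FF
  generalize dbar 1 F ![z, (g1 (‖z‖ ^ 2) : ℂ), (g2 (‖z‖ ^ 2) : ℂ)] = D1
  generalize dbar 2 F ![z, (g1 (‖z‖ ^ 2) : ℂ), (g2 (‖z‖ ^ 2) : ℂ)] = D2
  generalize fibDcP1 j k (z, fibDcp z (v, s)) = P1
  have hBeq : fibDcBq (z, fibDcp z (v, s)) = B t := by rw [htd]; rfl
  have hSeq : fibDcS (z, fibDcp z (v, s)) = A t * Yct t s := by rw [fibDc_Seq, ← htd]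
  have hReq : (fibDcp z (v, s)).2.2.1 = A t := by rw [htd]; rfl
  rw [hBeq, hSeq]
  dsimp only
  rw [hReq, ← htd]
  have e1 : (fibDcp z (v, s)).1 = v := rfl
  have e2 : (fibDcp z (v, s)).2.1 = s := rfl
  rw [e1, e2]
  simp only [g1, g2]
  have hAc : (A t : ℂ) ≠ 0 := by exact_mod_cast hApos.ne'
  have hBc : (B t : ℂ) ≠ 0 := by exact_mod_cast hBpos.ne'
  have hvc : (v : ℂ) ≠ 0 := by exact_mod_cast hv.ne'
  have hsc : (s : ℂ) ≠ 0 := by exact_mod_cast hs.ne'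
  push_cast
  field_simp
  ring

theorem fibDc_mono_pos (hC : CAc_stmt) (j k : ℕ) {z : ℂ} (hz : z ∈ BD) {v s : ℝ} (hv : 0 < v)
    (hs : 0 < s) (hs1 : s < 1) : 0 < mono j k z v s := by
  obtain ⟨-, h2, -⟩ := fibDc_facts hC (fibDc_t' z) (fibDc_t hz) hs hs1
  have h3 : 0 < Real.sqrt (R2 (‖z‖ ^ 2) s) := Real.sqrt_pos.2 h2
  have h4 : 0 < Real.sqrt (d0 (‖z‖ ^ 2)) := Real.sqrt_pos.2 (fibDc_d0_pos (fibDc_t hz))
  unfold mono
  positivity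

theorem fibDc_expY (j : ℕ) (t s : ℝ) : Real.exp ((j + 1) * Yc t s) =
    Real.sqrt (R2 t s) ^ (2 * (j + 1)) := by
  have h1 : 0 ≤ R2 t s := (Real.exp_pos _).le
  rw [pow_mul, Real.sq_sqrt h1]
  unfold R2
  rw [← Real.exp_nat_mul]
  push_cast
  ring_nf

theorem fibDc_weight (hC : CAc_stmt) (j k : ℕ) {z : ℂ} (hz : z ∈ BD) {v s : ℝ} (hv : 0 < v)
    (hs : 0 < s) (hs1 : s < 1) : v ^ (2 * j + 1) * den j k (‖z‖ ^ 2) s =
      fibDcP j k (z, fibDcp z (v, s)) * mono j k z v s := by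
  obtain ⟨-, h2, -⟩ := fibDc_facts hC (fibDc_t' z) (fibDc_t hz) hs hs1
  have h3 : 0 < Real.sqrt (R2 (‖z‖ ^ 2) s) := Real.sqrt_pos.2 h2
  have h4 : 0 < Real.sqrt (d0 (‖z‖ ^ 2)) := Real.sqrt_pos.2 (fibDc_d0_pos (fibDc_t hz))
  unfold den mono
  rw [fibDc_expY]
  show _ = (v ^ (j + 1) * s ^ (k + 1) * Real.sqrt (R2 (‖z‖ ^ 2) s) ^ (j + 2) *
    ((Real.sqrt (d0 (‖z‖ ^ 2)))⁻¹) ^ k) * _
  generalize Real.sqrt (R2 (‖z‖ ^ 2) s) = A at *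
  generalize Real.sqrt (d0 (‖z‖ ^ 2)) = B at *
  have hA : A ≠ 0 := h3.ne'
  have hB : B ≠ 0 := h4.ne'
  rw [show 2 * j + 1 = j + (j + 1) by ring, show 2 * k + 1 = k + (k + 1) by ring,
    show 2 * (j + 1) = j + (j + 2) by ring, pow_add v j (j + 1), pow_add s k (k + 1),
    pow_add A j (j + 2), mul_pow, mul_pow, inv_pow]
  field_simp

/-- the `s`-integrand -/
noncomputable def fibDcM (j k : ℕ) (q : ℂ × (ℝ × ℝ × ℝ × ℝ × ℝ)) : ℝ :=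
  q.2.2.1 ^ (2 * k + 1) * q.2.2.2.1 ^ (2 * (j + 1))
noncomputable def fibDcm (j k : ℕ) (q : ℂ × (ℝ × ℝ × ℝ × ℝ × ℝ)) : ℝ :=
  (j + 1) * q.2.2.1 ^ (2 * k + 1) * fibDcS q * q.2.2.2.1 ^ (2 * j + 1)
noncomputable def fibDcM' (j k : ℕ) (q : ℂ × (ℝ × ℝ × ℝ × ℝ × ℝ)) : ℂ →L[ℝ] ℝ :=
  fibDcm j k q • (2 • innerSL ℝ q.1)

theorem fibDc_Meq (j k : ℕ) (z : ℂ) (s : ℝ) :
    fibDcM j k (z, fibDcp z (0, s)) = den j k (‖z‖ ^ 2) s := by
  unfold den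
  rw [fibDc_expY]
  rfl

theorem fibDc_meq (j k : ℕ) (z : ℂ) (s : ℝ) :
    fibDcm j k (z, fibDcp z (0, s)) =
      (j + 1) * (Yct (‖z‖ ^ 2) s * den j k (‖z‖ ^ 2) s) := by
  unfold fibDcm
  show (j + 1) * s ^ (2 * k + 1) * fibDcS (z, fibDcp z (0, s)) *
    (Real.sqrt (R2 (‖z‖ ^ 2) s)) ^ (2 * j + 1) = _
  rw [fibDc_Seq]
  unfold den
  rw [fibDc_expY]
  ring

theorem fibDc_Md (hC : CAc_stmt) (j k : ℕ) {z : ℂ} (hz : z ∈ BD) {s : ℝ} (hs : 0 < s)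
    (hs1 : s < 1) :
    HasFDerivAt (fun w : ℂ => fibDcM j k (w, fibDcp w (0, s)))
      (fibDcM' j k (z, fibDcp z (0, s))) z := by
  obtain ⟨-, -, -, -, -, -, h5, -⟩ := fibDc_facts hC (fibDc_t' z) (fibDc_t hz) hs hs1
  have hq : HasFDerivAt (fun w : ℂ => ‖w‖ ^ 2) (2 • innerSL ℝ z) z :=
    (hasStrictFDerivAt_norm_sq z).hasFDerivAt
  have h6 : HasDerivAt (fun t => den j k t s)
      ((j + 1) * (Yct (‖z‖ ^ 2) s * den j k (‖z‖ ^ 2) s)) (‖z‖ ^ 2) := by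
    have h7 := ((h5.const_mul ((j : ℝ) + 1)).exp).const_mul (s ^ (2 * k + 1))
    refine h7.congr_deriv ?_
    unfold den
    ring
  have h8 := h6.comp_hasFDerivAt z hq
  have h9 : (fun w : ℂ => fibDcM j k (w, fibDcp w (0, s))) =
      (fun t => den j k t s) ∘ (fun w : ℂ => ‖w‖ ^ 2) := by
    funext w
    exact fibDc_Meq j k w s
  rw [h9]
  unfold fibDcM'
  rw [fibDc_meq j k z s]
  exact h8

theorem fibDc_M_cont (j k : ℕ) : ContinuousOn (fibDcM j k) (BD ×ˢ fibDcK) := by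
  apply Continuous.continuousOn
  unfold fibDcM
  fun_prop

theorem fibDc_m_cont (j k : ℕ) : ContinuousOn (fibDcm j k) (BD ×ˢ fibDcK) := by
  have h1 := fibDc_S_cont
  unfold fibDcm
  exact ((Continuous.continuousOn (by fun_prop)).mul h1).mul (Continuous.continuousOn (by fun_prop))

theorem fibDc_M'_cont (j k : ℕ) : ContinuousOn (fibDcM' j k) (BD ×ˢ fibDcK) := by
  have h1 := fibDc_m_cont j k
  unfold fibDcM'
  exact h1.smul (Continuous.continuousOn (by fun_prop))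

theorem fibDc_J (hC : CAc_stmt) (j k : ℕ) (F : E3 → ℂ) (hF : ContDiff ℝ ∞ F)
    (hm : IsModeFn j k F)
    (μ1 : Measure ℝ) (hμ1 : μ1 = volume.restrict (Set.Ioo (0 : ℝ) 1)) :
    (∀ z ∈ BD, Integrable (fun a => fibDcN j k F (z, fibDcp z a)) (μ1.prod μ1)) ∧
    (∀ z ∈ BD, Integrable (fun a => fibDcN' j k F (z, fibDcp z a)) (μ1.prod μ1)) ∧
    (∀ z ∈ BD, HasFDerivAt
      (fun z => ∫ a, fibDcN j k F (z, fibDcp z a) ∂(μ1.prod μ1))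
      (∫ a, fibDcN' j k F (z, fibDcp z a) ∂(μ1.prod μ1)) z) ∧
    ContDiffOn ℝ 1 (fun z => ∫ a, fibDcN j k F (z, fibDcp z a) ∂(μ1.prod μ1)) BD := by
  have hμ : (volume : Measure (ℝ × ℝ)).restrict (Set.Ioo (0 : ℝ) 1 ×ˢ Set.Ioo (0 : ℝ) 1) =
      μ1.prod μ1 := by
    rw [hμ1, Measure.volume_eq_prod, Measure.prod_restrict]
  have h := fibD_param (volume : Measure (ℝ × ℝ)) BD fibDc_BD_open
    (Set.Ioo (0 : ℝ) 1 ×ˢ Set.Ioo (0 : ℝ) 1) (measurableSet_Ioo.prod measurableSet_Ioo)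
    (by
      rw [Measure.volume_eq_prod, Measure.prod_prod]
      simp)
    fibDcK fibDc_K_compact fibDcp
    (fun z hz a ha => fibDc_p_mem hC hz ⟨⟨ha.1.1.le, ha.1.2.le⟩, ha.2⟩)
    (fun z hz => by
      unfold fibDcp
      have h1 := (fibDc_cont1 hC hz).comp (continuous_snd (X := ℝ) (Y := ℝ)).continuousOn
        (s := Set.Ioo (0 : ℝ) 1 ×ˢ Set.Ioo (0 : ℝ) 1) (fun a ha => ha.2)
      exact continuous_fst.continuousOn.prodMk (continuous_snd.continuousOn.prodMk h1))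
    (fun a ha => by
      unfold fibDcp
      exact continuousOn_const.prodMk (continuousOn_const.prodMk (fibDc_cont2 hC ha.2)))
    (fibDcN j k F) (fibDc_N_cont j k F hF) (fibDcN' j k F)
    (fibDc_N'_cont j k F hF)
    (fun a ha z hz => fibDc_deriv hC j k F hF hm a.1 a.2 ha.1.1 ha.2.1 ha.2.2 z hz)
  simp only [IntegrableOn] at h
  rw [hμ] at h
  exact h

theorem fibDc_I (hC : CAc_stmt) (j k : ℕ) (μ1 : Measure ℝ)
    (hμ1 : μ1 = volume.restrict (Set.Ioo (0 : ℝ) 1)) :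
    (∀ z ∈ BD, Integrable (fun s => den j k (‖z‖ ^ 2) s) μ1) ∧
    (∀ z ∈ BD, Integrable (fun s => Yct (‖z‖ ^ 2) s * den j k (‖z‖ ^ 2) s) μ1) ∧
    (∀ z ∈ BD, HasFDerivAt (fun z : ℂ => Iw j k (‖z‖ ^ 2))
      (((j + 1) * ∫ s, Yct (‖z‖ ^ 2) s * den j k (‖z‖ ^ 2) s ∂μ1) •
        (2 • innerSL ℝ z)) z) ∧
    ContDiffOn ℝ 1 (fun z : ℂ => Iw j k (‖z‖ ^ 2)) BD := by
  have hmem : ∀ z ∈ BD, ∀ s ∈ Set.Ioo (0 : ℝ) 1, fibDcp z (0, s) ∈ fibDcK := fun z hz s hs =>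
    fibDc_p_mem hC hz (a := (0, s)) ⟨⟨le_refl _, zero_le_one⟩, hs⟩
  obtain ⟨h1, h2, h3, h4⟩ := fibD_param (volume : Measure ℝ) BD fibDc_BD_open
    (Set.Ioo (0 : ℝ) 1) measurableSet_Ioo (by simp)
    fibDcK fibDc_K_compact (fun z s => fibDcp z (0, s)) hmem
    (fun z hz => by
      unfold fibDcp
      exact continuousOn_const.prodMk (continuousOn_id.prodMk (fibDc_cont1 hC hz)))
    (fun s hs => by
      unfold fibDcp
      exact continuousOn_const.prodMk (continuousOn_const.prodMk (fibDc_cont2 hC hs)))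
    (fibDcM j k) (fibDc_M_cont j k) (fibDcM' j k) (fibDc_M'_cont j k)
    (fun s hs z hz => fibDc_Md hC j k hz hs.1 hs.2)
  simp only [fibDc_Meq] at h1 h3 h4
  subst hμ1
  have h5 : ∀ z ∈ BD, ∀ s ∈ Set.Ioo (0 : ℝ) 1,
      fibDcM' j k (z, fibDcp z (0, s)) =
      ((j + 1) * (Yct (‖z‖ ^ 2) s * den j k (‖z‖ ^ 2) s)) • (2 • innerSL ℝ z) := by
    intro z hz s hs
    unfold fibDcM'
    rw [fibDc_meq j k z s]
  have hmint : ∀ z ∈ BD, Integrable (fun s => Yct (‖z‖ ^ 2) s *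
      den j k (‖z‖ ^ 2) s) (volume.restrict (Set.Ioo (0 : ℝ) 1)) := by
    intro z hz
    have h6 := fibD_int (volume : Measure ℝ) (Set.Ioo (0 : ℝ) 1) measurableSet_Ioo (by simp)
      fibDcK fibDc_K_compact (fun s => fibDcp z (0, s)) (hmem z hz)
      (by
        unfold fibDcp
        exact continuousOn_const.prodMk (continuousOn_id.prodMk (fibDc_cont1 hC hz)))
      (fun b => fibDcm j k (z, b))
      ((fibDc_m_cont j k).comp (by fun_prop) (fun b hb => ⟨hz, hb⟩))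
    have h7 : IntegrableOn (fun s => ((j : ℝ) + 1) * (Yct (‖z‖ ^ 2) s *
        den j k (‖z‖ ^ 2) s)) (Set.Ioo (0 : ℝ) 1) volume :=
      h6.congr_fun (fun s hs => fibDc_meq j k z s) measurableSet_Ioo
    have h8 := h7.const_mul (((j : ℝ) + 1)⁻¹)
    refine h8.congr (Eventually.of_forall fun s => ?_)
    have : (j : ℝ) + 1 ≠ 0 := by positivity
    dsimp only
    field_simp
  refine ⟨h1, hmint, ?_, h4⟩
  intro z hz
  refine (h3 z hz).congr_fderiv ?_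
  rw [setIntegral_congr_fun measurableSet_Ioo (h5 z hz), integral_smul_const,
    integral_const_mul]

theorem fibDc_Ipos (hC : CAc_stmt) (j k : ℕ) {z : ℂ} (hz : z ∈ BD) : 0 < Iw j k (‖z‖ ^ 2) := by
  unfold Iw
  rw [← integral_Ioc_eq_integral_Ioo, ← intervalIntegral.integral_of_le zero_le_one]
  apply intervalIntegral.intervalIntegral_pos_of_pos_on _ _ one_pos
  · rw [intervalIntegrable_iff_integrableOn_Ioo_of_le zero_le_one]
    exact (fibDc_I hC j k _ rfl).1 z hz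
  · intro s hs
    have := hs.1
    unfold den
    positivity

theorem fibDc (hC : CAc_stmt) : FibDc_stmt := by
  intro j k F hF hm
  obtain ⟨μ1, hμ1⟩ : ∃ μ1 : Measure ℝ, μ1 = volume.restrict (Set.Ioo (0 : ℝ) 1) := ⟨_, rfl⟩
  obtain ⟨hJ1, hJ2, hJ3, hJ4⟩ := fibDc_J hC j k F hF hm μ1 hμ1
  obtain ⟨hI1, hI2, hI3, hI4⟩ := fibDc_I hC j k μ1 hμ1
  have hI0 : ∀ z ∈ BD, Iw j k (‖z‖ ^ 2) ≠ 0 := fun z hz => (fibDc_Ipos hC j k hz).ne'
  -- pointwise identities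
  have hW : ∀ z ∈ BD, ∀ v ∈ Set.Ioo (0 : ℝ) 1, ∀ s ∈ Set.Ioo (0 : ℝ) 1, ∀ c : ℂ,
      c / (mono j k z v s : ℂ) * ((v ^ (2 * j + 1) * den j k (‖z‖ ^ 2) s : ℝ) : ℂ) =
      (fibDcP j k (z, fibDcp z (v, s)) : ℂ) * c := by
    intro z hz v hv s hs c
    rw [fibDc_weight hC j k hz hv.1 hs.1 hs.2]
    have h1 : (mono j k z v s : ℂ) ≠ 0 := by
      exact_mod_cast (fibDc_mono_pos hC j k hz hv.1 hs.1 hs.2).ne'
    push_cast
    field_simp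
  have hJeq : ∀ z ∈ BD, (∫ v in Set.Ioo (0 : ℝ) 1, ∫ s in Set.Ioo (0 : ℝ) 1,
      cc j k F z v s * ((v ^ (2 * j + 1) * den j k (‖z‖ ^ 2) s : ℝ) : ℂ)) =
      ∫ a, fibDcN j k F (z, fibDcp z a) ∂(μ1.prod μ1) := by
    intro z hz
    have hsf : SFinite μ1 := by rw [hμ1]; infer_instance
    rw [integral_prod _ (hJ1 z hz), hμ1]
    refine setIntegral_congr_fun measurableSet_Ioo (fun v hv => ?_)
    refine setIntegral_congr_fun measurableSet_Ioo (fun s hs => ?_)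
    show F (Pt z v s) / (mono j k z v s : ℂ) * _ = _
    rw [hW z hz v hv s hs]
    unfold fibDcN
    rw [fibDc_Pteq]
  have haa : ∀ z ∈ BD, aa j k F z =
      (∫ a, fibDcN j k F (z, fibDcp z a) ∂(μ1.prod μ1)) *
      (((2 * j + 2) / Iw j k (‖z‖ ^ 2) : ℝ) : ℂ) := by
    intro z hz
    unfold aa EC
    rw [hJeq z hz]
  constructor
  · have h1 : ContDiffOn ℝ 1 (fun z : ℂ => (((2 * j + 2) / Iw j k (‖z‖ ^ 2) : ℝ) : ℂ))
        BD :=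
      Complex.ofRealCLM.contDiff.comp_contDiffOn (contDiffOn_const.div hI4 hI0)
    exact (hJ4.mul h1).congr haa
  · intro z hz
    have hopen : BD ∈ 𝓝 z := fibDc_BD_open.mem_nhds hz
    obtain ⟨I0, hI0d⟩ : ∃ I0, I0 = Iw j k (‖z‖ ^ 2) := ⟨_, rfl⟩
    obtain ⟨dI, hdI⟩ : ∃ dI, dI = ∫ s, Yct (‖z‖ ^ 2) s * den j k (‖z‖ ^ 2) s ∂μ1 :=
      ⟨_, rfl⟩
    obtain ⟨J0, hJ0⟩ : ∃ J0, J0 = ∫ a, fibDcN j k F (z, fibDcp z a) ∂(μ1.prod μ1) :=
      ⟨_, rfl⟩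
    obtain ⟨J', hJ'⟩ : ∃ J', J' = ∫ a, fibDcN' j k F (z, fibDcp z a) ∂(μ1.prod μ1) :=
      ⟨_, rfl⟩
    have hI0n : I0 ≠ 0 := by rw [hI0d]; exact hI0 z hz
    have hd1 : HasDerivAt (fun y : ℝ => (2 * (j : ℝ) + 2) / y) (-(2 * (j : ℝ) + 2) / I0 ^ 2) I0 := by
      have := (hasDerivAt_inv hI0n).const_mul (2 * (j : ℝ) + 2)
      refine (this.congr_deriv ?_)
      ring
    have hd2 : HasFDerivAt (fun w : ℂ => (2 * (j : ℝ) + 2) / Iw j k (‖w‖ ^ 2))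
        ((-(2 * (j : ℝ) + 2) / I0 ^ 2) • ((((j : ℝ) + 1) * dI) • (2 • innerSL ℝ z))) z := by
      have h3 := hI3 z hz
      rw [← hdI] at h3
      rw [hI0d] at hd1 ⊢
      exact hd1.comp_hasFDerivAt z h3
    have hd3 := Complex.ofRealCLM.hasFDerivAt.comp z hd2
    have hJd := hJ3 z hz
    rw [← hJ'] at hJd
    have hd4 := hJd.mul hd3
    have hd5 : HasFDerivAt (aa j k F) _ z :=
      hd4.congr_of_eventuallyEq (by filter_upwards [hopen] with w hw using haa w hw)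
    have hin2 : ∀ w : ℂ, (2 • innerSL ℝ z) w = 2 * inner ℝ z w := by
      intro w
      rw [_root_.smul_apply, innerSL_apply_apply, nsmul_eq_mul]; norm_num
    have hD : ∀ w : ℂ, fderiv ℝ (aa j k F) z w =
        J0 * (((-(2 * (j : ℝ) + 2) / I0 ^ 2) * ((((j : ℝ) + 1) * dI) * (2 * inner ℝ z w)) : ℝ) : ℂ) +
        (((2 * (j : ℝ) + 2) / I0 : ℝ) : ℂ) * J' w := by
      intro w
      rw [hd5.fderiv, _root_.add_apply, _root_.smul_apply, _root_.smul_apply,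
        ContinuousLinearMap.comp_apply, ← hJ0, Function.comp_apply, ← hI0d, _root_.smul_apply,
        _root_.smul_apply, hin2]
      simp only [smul_eq_mul, Complex.ofRealCLM_apply]
    have hN : ∀ v s : ℝ, ∀ w : ℂ, fibDcN' j k F (z, fibDcp z (v, s)) w =
        (fibDcP j k (z, fibDcp z (v, s)) : ℂ) *
          fderiv ℝ F (Pt z v s) (Pi.single 0 w) +
        ((2 * inner ℝ z w : ℝ) : ℂ) * ((fibDcP1 j k (z, fibDcp z (v, s)) : ℂ) *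
          fibDcR j F (z, fibDcp z (v, s))) := by
      intro v s w
      unfold fibDcN'
      rw [fibDc_Pteq, _root_.add_apply, _root_.smul_apply, ContinuousLinearMap.comp_apply,
        ContinuousLinearMap.smulRight_apply, ContinuousLinearMap.single_apply, hin2]
      simp only [Complex.real_smul]
    have hin1 : (inner ℝ z (1 : ℂ) : ℝ) = z.re := by simp [Complex.inner]
    have hinI : (inner ℝ z I : ℝ) = z.im := by simp [Complex.inner]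
    obtain ⟨c0, hc0⟩ : ∃ c0, c0 = ((j : ℂ) + 1) * z * aa j k F z := ⟨_, rfl⟩
    have hpt : ∀ v ∈ Set.Ioo (0 : ℝ) 1, ∀ s ∈ Set.Ioo (0 : ℝ) 1,
      (GG j k F 0 z v s +
      GG j k F 1 z v s * (v * z * Real.sqrt (R2 (‖z‖ ^ 2) s) * Yct (‖z‖ ^ 2) s) -
      GG j k F 2 z v s * (s * z * Real.sqrt (d0 (‖z‖ ^ 2)) * La1 (‖z‖ ^ 2)) +
      (j + 1) * z * (cc j k F z v s - aa j k F z) * Yct (‖z‖ ^ 2) s) *
      ((v ^ (2 * j + 1) * den j k (‖z‖ ^ 2) s : ℝ) : ℂ) =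
      (1 / 2) * (fibDcN' j k F (z, fibDcp z (v, s)) 1 +
        I * fibDcN' j k F (z, fibDcp z (v, s)) I) -
      c0 * ((v ^ (2 * j + 1) * (Yct (‖z‖ ^ 2) s * den j k (‖z‖ ^ 2) s) : ℝ) : ℂ) := by
      intro v hv s hs
      have e0 := hW z hz v hv s hs (dbar 0 F (Pt z v s))
      have e1 := hW z hz v hv s hs (dbar 1 F (Pt z v s))
      have e2 := hW z hz v hv s hs (dbar 2 F (Pt z v s))
      have e3 := hW z hz v hv s hs (F (Pt z v s))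
      rw [hN, hN, hin1, hinI, hc0]
      have hd0 : dbar 0 F (Pt z v s) = (1 / 2) *
        (fderiv ℝ F (Pt z v s) (Pi.single 0 1) +
          I * fderiv ℝ F (Pt z v s) (Pi.single 0 I)) := rfl
      have hR : fibDcR j F (z, fibDcp z (v, s)) =
        ((v * Real.sqrt (R2 (‖z‖ ^ 2) s) * (Real.sqrt (R2 (‖z‖ ^ 2) s) * Yct (‖z‖ ^ 2) s) : ℝ) : ℂ) *
          dbar 1 F (Pt z v s) -
        ((Real.sqrt (R2 (‖z‖ ^ 2) s) * s * Real.sqrt (d0 (‖z‖ ^ 2)) * La1 (‖z‖ ^ 2) : ℝ) : ℂ) *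
          dbar 2 F (Pt z v s) +
        ((((j : ℝ) + 1) * (Real.sqrt (R2 (‖z‖ ^ 2) s) * Yct (‖z‖ ^ 2) s) : ℝ) : ℂ) *
          F (Pt z v s) := by
        unfold fibDcR
        rw [fibDc_Seq, fibDc_Pteq]
        rfl
      have hPP : fibDcP j k (z, fibDcp z (v, s)) = fibDcP1 j k (z, fibDcp z (v, s)) *
        Real.sqrt (R2 (‖z‖ ^ 2) s) := fibDc_PP1 j k (z, fibDcp z (v, s))
      rw [hR]
      have hzri : z = (z.re : ℂ) + I * (z.im : ℂ) := by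
        rw [mul_comm]; exact (Complex.re_add_im z).symm
      have hWW : ((v ^ (2 * j + 1) * (Yct (‖z‖ ^ 2) s * den j k (‖z‖ ^ 2) s) : ℝ) : ℂ) =
        (Yct (‖z‖ ^ 2) s : ℂ) * ((v ^ (2 * j + 1) * den j k (‖z‖ ^ 2) s : ℝ) : ℂ) := by
        push_cast; ring
      rw [hWW]
      unfold GG cc
      rw [hPP] at e0 e1 e2 e3 ⊢
      generalize ((v ^ (2 * j + 1) * den j k (‖z‖ ^ 2) s : ℝ) : ℂ) = W at *
      generalize fibDcP1 j k (z, fibDcp z (v, s)) = P at *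
      generalize F (Pt z v s) = FF at *
      generalize dbar 0 F (Pt z v s) = D0 at *
      generalize dbar 1 F (Pt z v s) = D1 at *
      generalize dbar 2 F (Pt z v s) = D2 at *
      generalize fderiv ℝ F (Pt z v s) (Pi.single 0 1) = a1 at *
      generalize fderiv ℝ F (Pt z v s) (Pi.single 0 I) = aI at *
      generalize aa j k F z = AZ at *
      generalize Real.sqrt (R2 (‖z‖ ^ 2) s) = SA at *
      generalize Real.sqrt (d0 (‖z‖ ^ 2)) = SB at *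
      generalize La1 (‖z‖ ^ 2) = LL at *
      generalize Yct (‖z‖ ^ 2) s = YT at *
      push_cast at e0 e1 e2 e3 ⊢
      linear_combination e0 + (v * z * SA * YT) * e1 - (s * z * SB * LL) * e2 +
        ((j + 1) * z * YT) * e3 + (P * SA) * hd0 + (P * (v * SA * (SA * YT) * D1 -
          SA * s * SB * LL * D2 + (j + 1) * (SA * YT) * FF)) * hzri
    have hsf : SFinite μ1 := by rw [hμ1]; infer_instance
    have hvI : Integrable (fun v : ℝ => v ^ (2 * j + 1)) μ1 := by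
      rw [hμ1]
      exact (Continuous.integrableOn_Icc (by fun_prop)).mono_set Set.Ioo_subset_Icc_self
    have hprod : Integrable (fun a : ℝ × ℝ => a.1 ^ (2 * j + 1) *
        (Yct (‖z‖ ^ 2) a.2 * den j k (‖z‖ ^ 2) a.2)) (μ1.prod μ1) :=
      hvI.mul_prod (hI2 z hz)
    have hN1i : ∀ w : ℂ, Integrable (fun a => fibDcN' j k F (z, fibDcp z a) w)
        (μ1.prod μ1) := fun w => (hJ2 z hz).apply_continuousLinearMap w
    have hN1v : ∀ w : ℂ, ∫ a, fibDcN' j k F (z, fibDcp z a) w ∂(μ1.prod μ1) = J' w := by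
      intro w
      rw [hJ', ContinuousLinearMap.integral_apply (hJ2 z hz)]
    have key : ∀ G : ℝ → ℝ → ℂ, (∀ v ∈ Set.Ioo (0 : ℝ) 1, ∀ s ∈ Set.Ioo (0 : ℝ) 1, G v s =
        (1 / 2) * (fibDcN' j k F (z, fibDcp z (v, s)) 1 +
          I * fibDcN' j k F (z, fibDcp z (v, s)) I) -
        c0 * ((v ^ (2 * j + 1) * (Yct (‖z‖ ^ 2) s * den j k (‖z‖ ^ 2) s) : ℝ) : ℂ)) →
        ∫ v in Set.Ioo (0 : ℝ) 1, ∫ s in Set.Ioo (0 : ℝ) 1, G v s =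
        (1 / 2) * (J' 1 + I * J' I) - c0 * ((1 / (2 * (j : ℝ) + 2) * dI : ℝ) : ℂ) := by
      intro G hG
      have hA : Integrable (fun a : ℝ × ℝ => (1 / 2 : ℂ) *
          (fibDcN' j k F (z, fibDcp z a) 1 +
          I * fibDcN' j k F (z, fibDcp z a) I)) (μ1.prod μ1) :=
        ((hN1i 1).add ((hN1i I).const_mul I)).const_mul (1 / 2)
      have hB : Integrable (fun a : ℝ × ℝ => c0 * ((a.1 ^ (2 * j + 1) *
          (Yct (‖z‖ ^ 2) a.2 * den j k (‖z‖ ^ 2) a.2) : ℝ) : ℂ)) (μ1.prod μ1) :=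
        hprod.ofReal.const_mul c0
      have h1 : ∫ v in Set.Ioo (0 : ℝ) 1, ∫ s in Set.Ioo (0 : ℝ) 1, G v s =
          ∫ a, ((1 / 2 : ℂ) * (fibDcN' j k F (z, fibDcp z a) 1 +
            I * fibDcN' j k F (z, fibDcp z a) I) -
            c0 * ((a.1 ^ (2 * j + 1) * (Yct (‖z‖ ^ 2) a.2 *
              den j k (‖z‖ ^ 2) a.2) : ℝ) : ℂ)) ∂(μ1.prod μ1) := by
        have hAB : Integrable (fun a : ℝ × ℝ => (1 / 2 : ℂ) *
            (fibDcN' j k F (z, fibDcp z a) 1 +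
            I * fibDcN' j k F (z, fibDcp z a) I) - c0 * ((a.1 ^ (2 * j + 1) *
            (Yct (‖z‖ ^ 2) a.2 * den j k (‖z‖ ^ 2) a.2) : ℝ) : ℂ)) (μ1.prod μ1) :=
          hA.sub hB
        rw [integral_prod _ hAB, hμ1]
        refine setIntegral_congr_fun measurableSet_Ioo (fun v hv => ?_)
        exact setIntegral_congr_fun measurableSet_Ioo (fun s hs => hG v hv s hs)
      rw [h1, integral_sub hA hB, integral_const_mul, integral_const_mul,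
        integral_add (hN1i 1) ((hN1i I).const_mul I), integral_const_mul, hN1v, hN1v,
        integral_complex_ofReal, integral_prod_mul (μ := μ1) (ν := μ1) (fun v : ℝ => v ^ (2 * j + 1))
          (fun s => Yct (‖z‖ ^ 2) s * den j k (‖z‖ ^ 2) s), ← hdI]
      have h2 : ∫ v, v ^ (2 * j + 1) ∂μ1 = 1 / (2 * j + 2) := by
        rw [hμ1]; exact fibD_vint j
      rw [h2]
    unfold EC
    dsimp only
    rw [key _ hpt]
    unfold db1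
    rw [hD, hD, hin1, hinI, hc0, haa z hz, ← hJ0, ← hI0d]
    have hI0c : (I0 : ℂ) ≠ 0 := by exact_mod_cast hI0n
    have hjc : (2 * (j : ℂ) + 2) ≠ 0 := by
      have : (2 * (j : ℝ) + 2) ≠ 0 := by positivity
      exact_mod_cast this
    have hzri : z = (z.re : ℂ) + I * (z.im : ℂ) := by
      rw [mul_comm]; exact (Complex.re_add_im z).symm
    push_cast
    have hterm : ((j : ℂ) + 1) * z * (J0 * ((2 * j + 2) / I0)) * (1 / (2 * j + 2) * dI) *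
        ((2 * j + 2) / I0) = - (J0 * (-(2 * (j : ℂ) + 2) / I0 ^ 2 * ((j + 1) * dI))) * z := by
      field_simp
    linear_combination (-(J0 * (-(2 * (j : ℂ) + 2) / I0 ^ 2 * ((j + 1) * dI)))) * hzri + hterm

end DbarC.JFDj
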