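import Pool.Agent.H314.DC.St2

set_option autoImplicit false

open MeasureTheory Complex Filter Topology
open scoped ContDiff InnerProductSpace ENNReal ComplexConjugate

namespace DbarC.JFHj
open DbarN

namespace FHP

theorem fderiv_Ph {F : E3 → ℝ} {x : E3} (h : DifferentiableAt ℝ F x) (v : E3) :
    fderiv ℝ (Ph F) x v = ((fderiv ℝ F x v : ℝ) : ℂ) := by
  have h1 : HasFDerivAt (Ph F) (Complex.ofRealCLM.comp (fderiv ℝ F x)) x :=
    Complex.ofRealCLM.hasFDerivAt.comp x h.hasFDerivAt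
  rw [h1.fderiv]
  rfl

theorem hasF2 {F : E3 → ℝ} (hF : ContDiff ℝ ∞ F) (w x : E3) :
    HasFDerivAt (fun y => ((fderiv ℝ F y w : ℝ) : ℂ))
      (Complex.ofRealCLM.comp ((ContinuousLinearMap.apply ℝ ℝ w).comp
        (fderiv ℝ (fderiv ℝ F) x))) x := by
  have h1 : ContDiff ℝ ∞ (fderiv ℝ F) := hF.fderiv_right (m := ∞) (by simp)
  have h2 : DifferentiableAt ℝ (fderiv ℝ F) x := h1.differentiable (by simp) x
  have h3 : HasFDerivAt (fun y => fderiv ℝ F y w)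
      ((ContinuousLinearMap.apply ℝ ℝ w).comp (fderiv ℝ (fderiv ℝ F) x)) x :=
    (ContinuousLinearMap.apply ℝ ℝ w).hasFDerivAt.comp x h2.hasFDerivAt
  exact Complex.ofRealCLM.hasFDerivAt.comp x h3

theorem hess_eq {F : E3 → ℝ} (hF : ContDiff ℝ ∞ F) (x : E3) (j k : Fin 3) :
    Hess F j k x = (1 / 4) *
      (((fderiv ℝ (fderiv ℝ F) x (Pi.single j 1) (Pi.single k 1) +
          fderiv ℝ (fderiv ℝ F) x (Pi.single j I) (Pi.single k I) : ℝ) : ℂ) +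
        I * ((fderiv ℝ (fderiv ℝ F) x (Pi.single j 1) (Pi.single k I) -
          fderiv ℝ (fderiv ℝ F) x (Pi.single j I) (Pi.single k 1) : ℝ) : ℂ)) := by
  have hd : Differentiable ℝ F := hF.differentiable (by simp)
  have e : dbar k (Ph F) = fun y => (1 / 2 : ℂ) * (((fderiv ℝ F y (Pi.single k 1) : ℝ) : ℂ) +
      I * ((fderiv ℝ F y (Pi.single k I) : ℝ) : ℂ)) := by
    funext y
    unfold dbar
    rw [fderiv_Ph (hd y), fderiv_Ph (hd y)]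
  have h1 := hasF2 hF (Pi.single k 1) x
  have h2 := hasF2 hF (Pi.single k I) x
  have h3 := ((h1.add (h2.const_mul I)).const_mul (1 / 2 : ℂ))
  have h4 : HasFDerivAt (dbar k (Ph F)) ((1 / 2 : ℂ) •
      (Complex.ofRealCLM.comp ((ContinuousLinearMap.apply ℝ ℝ (Pi.single k 1 : E3)).comp
        (fderiv ℝ (fderiv ℝ F) x)) +
      I • Complex.ofRealCLM.comp ((ContinuousLinearMap.apply ℝ ℝ (Pi.single k I : E3)).comp
        (fderiv ℝ (fderiv ℝ F) x)))) x := by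
    rw [e]
    exact h3
  unfold Hess dz
  rw [h4.fderiv]
  simp only [ContinuousLinearMap.smul_apply, ContinuousLinearMap.add_apply,
    ContinuousLinearMap.comp_apply, ContinuousLinearMap.apply_apply, Complex.ofRealCLM_apply,
    smul_eq_mul]
  push_cast
  have hI : I * I = -1 := Complex.I_mul_I
  linear_combination (-(1 / 4 : ℂ) * ((fderiv ℝ (fderiv ℝ F) x (Pi.single j I) (Pi.single k I) : ℝ) : ℂ)) * hI

theorem dec (a : E3) : a = ∑ j, ((a j).re • (Pi.single j (1 : ℂ) : E3) +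
    (a j).im • (Pi.single j I : E3)) := by
  funext k
  fin_cases k <;> simp [Fin.sum_univ_three, Pi.single_apply]

theorem bil_exp (B : E3 →L[ℝ] E3 →L[ℝ] ℝ) (a : E3) : B a a = ∑ j, ∑ k,
    ((a j).re * (a k).re * B (Pi.single j 1) (Pi.single k 1) +
      (a j).re * (a k).im * B (Pi.single j 1) (Pi.single k I) +
      (a j).im * (a k).re * B (Pi.single j I) (Pi.single k 1) +
      (a j).im * (a k).im * B (Pi.single j I) (Pi.single k I)) := by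
  conv_lhs => rw [dec a]
  rw [Finset.sum_comm]
  simp only [map_sum, map_add, map_smul, ContinuousLinearMap.sum_apply,
    ContinuousLinearMap.add_apply, ContinuousLinearMap.smul_apply, smul_eq_mul]
  refine Finset.sum_congr rfl fun j _ => ?_
  rw [Finset.mul_sum, Finset.mul_sum, ← Finset.sum_add_distrib]
  refine Finset.sum_congr rfl fun k _ => ?_
  ring

theorem lev_eq {F : E3 → ℝ} (hF : ContDiff ℝ ∞ F) (x : E3) (a : Fin 3 → ℂ) :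
    Lev F x a = (1 / 4) * (fderiv ℝ (fderiv ℝ F) x a a +
      fderiv ℝ (fderiv ℝ F) x (I • a) (I • a)) := by
  rw [bil_exp (fderiv ℝ (fderiv ℝ F) x) a, bil_exp (fderiv ℝ (fderiv ℝ F) x) (I • a)]
  unfold Lev
  rw [← Finset.sum_add_distrib, Finset.mul_sum, Complex.re_sum]
  refine Finset.sum_congr rfl fun j _ => ?_
  rw [← Finset.sum_add_distrib, Finset.mul_sum, Complex.re_sum]
  refine Finset.sum_congr rfl fun k _ => ?_
  rw [hess_eq hF]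
  simp only [Pi.smul_apply, smul_eq_mul, Complex.mul_re, Complex.mul_im, Complex.add_re,
    Complex.add_im, Complex.I_re, Complex.I_im, Complex.ofReal_re, Complex.ofReal_im,
    Complex.conj_re, Complex.conj_im]
  norm_num
  ring

theorem line2 {F : E3 → ℝ} (hF : ContDiff ℝ ∞ F) (x v : E3) (φ φ1 : ℝ → ℝ) (φ2 : ℝ)
    (hφ : ∀ᶠ s in 𝓝 (0 : ℝ), F (x + s • v) = φ s)
    (h1 : ∀ᶠ s in 𝓝 (0 : ℝ), HasDerivAt φ (φ1 s) s) (h2 : HasDerivAt φ1 φ2 0) :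
    fderiv ℝ (fderiv ℝ F) x v v = φ2 := by
  have hd : Differentiable ℝ F := hF.differentiable (by simp)
  have hc1 : ContDiff ℝ ∞ (fderiv ℝ F) := hF.fderiv_right (m := ∞) (by simp)
  have hline : ∀ s : ℝ, HasDerivAt (fun s : ℝ => x + s • v) v s := by
    intro s
    have := ((hasDerivAt_id s).smul_const v).const_add x
    simpa using this
  have hg : ∀ s : ℝ, HasDerivAt (fun s : ℝ => F (x + s • v)) (fderiv ℝ F (x + s • v) v) s := by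
    intro s
    exact (hd (x + s • v)).hasFDerivAt.comp_hasDerivAt s (hline s)
  have heq : ∀ᶠ s in 𝓝 (0 : ℝ), fderiv ℝ F (x + s • v) v = φ1 s := by
    filter_upwards [hφ.eventually_nhds, h1] with s hs1 hs2
    have h3 : HasDerivAt φ (fderiv ℝ F (x + s • v) v) s := (hg s).congr_of_eventuallyEq
      (by filter_upwards [hs1] with r hr using hr.symm)
    exact h3.unique hs2
  have h4 : HasDerivAt (fun s : ℝ => fderiv ℝ F (x + s • v)) (fderiv ℝ (fderiv ℝ F) x v) 0 := by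
    have h5 : HasFDerivAt (fderiv ℝ F) (fderiv ℝ (fderiv ℝ F) x) (x + (0 : ℝ) • v) := by
      rw [zero_smul, add_zero]
      exact (hc1.differentiable (by simp) x).hasFDerivAt
    exact h5.comp_hasDerivAt 0 (hline 0)
  have h6 : HasDerivAt (fun s : ℝ => fderiv ℝ F (x + s • v) v) (fderiv ℝ (fderiv ℝ F) x v v) 0 := by
    exact ((ContinuousLinearMap.apply ℝ ℝ v).hasFDerivAt.comp_hasDerivAt 0 h4)
  have h7 : HasDerivAt φ1 (fderiv ℝ (fderiv ℝ F) x v v) 0 := h6.congr_of_eventuallyEq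
    (by filter_upwards [heq] with r hr using hr.symm)
  exact h7.unique h2


/-! explicit derivatives -/

noncomputable def qd (t p m s : ℝ) : ℝ := t + 2 * p * s + m * s ^ 2

theorem qd_zero (t p m : ℝ) : qd t p m 0 = t := by unfold qd; ring

theorem qd_deriv (t p m s : ℝ) : HasDerivAt (qd t p m) (2 * p + 2 * m * s) s := by
  have h := (((hasDerivAt_id s).const_mul (2 * p)).const_add t).add
    (((hasDerivAt_id s).pow 2).const_mul m)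
  refine (h.congr_deriv ?_).congr_of_eventuallyEq (Filter.Eventually.of_forall fun r => ?_)
  · simp; ring
  · simp [qd]

theorem ld_deriv (p m s : ℝ) : HasDerivAt (fun s : ℝ => 2 * p + 2 * m * s) (2 * m) s := by
  have h := ((hasDerivAt_id s).const_mul (2 * m)).const_add (2 * p)
  simpa using h

noncomputable def sg (t p m y q n s : ℝ) : ℝ := Real.log (qd y q n s) / (1 + qd t p m s)

noncomputable def sg1 (t p m y q n s : ℝ) : ℝ :=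
  ((2 * q + 2 * n * s) / qd y q n s * (1 + qd t p m s) -
    Real.log (qd y q n s) * (2 * p + 2 * m * s)) / (1 + qd t p m s) ^ 2

noncomputable def sg2 (t p m y q n : ℝ) : ℝ :=
  ((((2 * n) * y - (2 * q) * (2 * q)) / y ^ 2 * (1 + t) + (2 * q) / y * (2 * p) -
    ((2 * q) / y * (2 * p) + Real.log y * (2 * m))) * (1 + t) ^ 2 -
    ((2 * q) / y * (1 + t) - Real.log y * (2 * p)) * (2 * (1 + t) * (2 * p))) / ((1 + t) ^ 2) ^ 2

theorem sg_deriv (t p m y q n s : ℝ) (hT : 0 < 1 + qd t p m s) (hY : 0 < qd y q n s) :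
    HasDerivAt (sg t p m y q n) (sg1 t p m y q n s) s := by
  have h1 := (qd_deriv y q n s).log hY.ne'
  have h2 := (qd_deriv t p m s).const_add 1
  exact h1.div h2 hT.ne'

theorem sg1_deriv (t p m y q n : ℝ) (hT : 0 < 1 + t) (hY : 0 < y) :
    HasDerivAt (sg1 t p m y q n) (sg2 t p m y q n) 0 := by
  have hT' : 0 < 1 + qd t p m 0 := by rw [qd_zero]; exact hT
  have hY' : 0 < qd y q n 0 := by rw [qd_zero]; exact hY
  have h1 := (qd_deriv y q n 0).log hY'.ne'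
  have h2 := (qd_deriv t p m 0).const_add 1
  have h3 := (ld_deriv q n 0).div (qd_deriv y q n 0) hY'.ne'
  have h4 := (h3.mul h2).sub (h1.mul (ld_deriv p m 0))
  have h5 := h4.div (h2.pow 2) (pow_ne_zero 2 hT'.ne')
  refine h5.congr_deriv ?_
  unfold sg2
  simp only [qd_zero, Pi.div_apply, Pi.mul_apply, Pi.sub_apply, Pi.pow_apply]
  norm_num

noncomputable def ps (t p m y q n s : ℝ) : ℝ := Real.exp (100 - Real.exp (-sg t p m y q n s))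

theorem ps_deriv (t p m y q n s : ℝ) (hT : 0 < 1 + qd t p m s) (hY : 0 < qd y q n s) :
    HasDerivAt (ps t p m y q n) (ps t p m y q n s * (Real.exp (-sg t p m y q n s) *
      sg1 t p m y q n s)) s := by
  have h := ((sg_deriv t p m y q n s hT hY).neg.exp.const_sub 100).exp
  refine h.congr_deriv ?_
  simp only [Pi.neg_apply]
  unfold ps
  ring

theorem ps1_deriv (t p m y q n : ℝ) (hT : 0 < 1 + t) (hY : 0 < y) :
    HasDerivAt (fun s => ps t p m y q n s * (Real.exp (-sg t p m y q n s) *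
      sg1 t p m y q n s)) (ps t p m y q n 0 * Real.exp (-sg t p m y q n 0) *
      ((Real.exp (-sg t p m y q n 0) - 1) * sg1 t p m y q n 0 ^ 2 + sg2 t p m y q n)) 0 := by
  have hT' : 0 < 1 + qd t p m 0 := by rw [qd_zero]; exact hT
  have hY' : 0 < qd y q n 0 := by rw [qd_zero]; exact hY
  have h1 := ps_deriv t p m y q n 0 hT' hY'
  have h2 := (sg_deriv t p m y q n 0 hT' hY').neg.exp
  have h3 := h1.mul (h2.mul (sg1_deriv t p m y q n hT hY))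
  refine h3.congr_deriv ?_
  simp only [Pi.mul_apply, Pi.neg_apply]
  ring

theorem w0_deriv (t : ℝ) : HasDerivAt w0 (om1 (1 / 100) 100 t) t :=
  DbarN.JCA1.om_hasDerivAt (by norm_num) t

theorem w01_deriv (t : ℝ) : HasDerivAt (om1 (1 / 100) 100) (om2 (1 / 100) 100 t) t :=
  DbarN.JCA1.om1_hasDerivAt (by norm_num) t

theorem nsq (z w : ℂ) (s : ℝ) : ‖z + s • w‖ ^ 2 = qd (‖z‖ ^ 2) ((conj z * w).re) (‖w‖ ^ 2) s := by
  unfold qd
  rw [← Complex.normSq_eq_norm_sq, ← Complex.normSq_eq_norm_sq, ← Complex.normSq_eq_norm_sq,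
    Complex.normSq_apply, Complex.normSq_apply, Complex.normSq_apply]
  simp only [Complex.real_smul, Complex.add_re, Complex.add_im, Complex.mul_re, Complex.mul_im,
    Complex.ofReal_re, Complex.ofReal_im, Complex.conj_re, Complex.conj_im]
  ring

theorem FF_line (x v : E3) (s : ℝ) (hy : 0 < qd (‖x 1‖ ^ 2) ((conj (x 1) * v 1).re) (‖v 1‖ ^ 2) s) :
    FF (x + s • v) = w0 (qd (‖x 0‖ ^ 2) ((conj (x 0) * v 0).re) (‖v 0‖ ^ 2) s) +
      ps (‖x 0‖ ^ 2) ((conj (x 0) * v 0).re) (‖v 0‖ ^ 2) (‖x 1‖ ^ 2) ((conj (x 1) * v 1).re)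
        (‖v 1‖ ^ 2) s + qd (‖x 2‖ ^ 2) ((conj (x 2) * v 2).re) (‖v 2‖ ^ 2) s := by
  unfold FF
  simp only [Pi.add_apply, Pi.smul_apply, nsq]
  unfold Gy ps sg
  rw [if_neg (not_le.2 hy), Real.rpow_def_of_pos hy]
  congr 4
  rw [mul_neg, mul_one_div]

theorem lap_FF (hF : ContDiff ℝ ∞ FF) (x v : E3) (hx : 0 < ‖x 1‖ ^ 2) :
    fderiv ℝ (fderiv ℝ FF) x v v =
      (om2 (1 / 100) 100 (‖x 0‖ ^ 2) * (2 * (conj (x 0) * v 0).re) ^ 2 +
        om1 (1 / 100) 100 (‖x 0‖ ^ 2) * (2 * ‖v 0‖ ^ 2)) +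
      ps (‖x 0‖ ^ 2) ((conj (x 0) * v 0).re) (‖v 0‖ ^ 2) (‖x 1‖ ^ 2) ((conj (x 1) * v 1).re)
        (‖v 1‖ ^ 2) 0 * Real.exp (-sg (‖x 0‖ ^ 2) ((conj (x 0) * v 0).re) (‖v 0‖ ^ 2) (‖x 1‖ ^ 2)
        ((conj (x 1) * v 1).re) (‖v 1‖ ^ 2) 0) *
      ((Real.exp (-sg (‖x 0‖ ^ 2) ((conj (x 0) * v 0).re) (‖v 0‖ ^ 2) (‖x 1‖ ^ 2)
        ((conj (x 1) * v 1).re) (‖v 1‖ ^ 2) 0) - 1) *
        sg1 (‖x 0‖ ^ 2) ((conj (x 0) * v 0).re) (‖v 0‖ ^ 2) (‖x 1‖ ^ 2)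
        ((conj (x 1) * v 1).re) (‖v 1‖ ^ 2) 0 ^ 2 +
        sg2 (‖x 0‖ ^ 2) ((conj (x 0) * v 0).re) (‖v 0‖ ^ 2) (‖x 1‖ ^ 2)
        ((conj (x 1) * v 1).re) (‖v 1‖ ^ 2)) + 2 * ‖v 2‖ ^ 2 := by
  set t := ‖x 0‖ ^ 2 with ht
  set y := ‖x 1‖ ^ 2 with hy
  set p := (conj (x 0) * v 0).re with hp
  set q := (conj (x 1) * v 1).re with hq
  set m := ‖v 0‖ ^ 2 with hm
  set n := ‖v 1‖ ^ 2 with hn
  have ht0 : 0 ≤ t := by positivity
  have hYe : ∀ᶠ s in 𝓝 (0 : ℝ), 0 < qd y q n s := by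
    have hc : ContinuousAt (qd y q n) 0 := (qd_deriv y q n 0).continuousAt
    exact hc.eventually (lt_mem_nhds (by rw [qd_zero]; exact hx))
  have hTe : ∀ᶠ s in 𝓝 (0 : ℝ), 0 < 1 + qd t p m s := by
    have hc : ContinuousAt (fun s => 1 + qd t p m s) 0 :=
      continuousAt_const.add (qd_deriv t p m 0).continuousAt
    exact hc.eventually (lt_mem_nhds (by
      show 0 < 1 + qd t p m 0
      rw [qd_zero]; linarith))
  refine line2 hF x v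
    (fun s => w0 (qd t p m s) + ps t p m y q n s + qd (‖x 2‖ ^ 2) ((conj (x 2) * v 2).re)
      (‖v 2‖ ^ 2) s)
    (fun s => om1 (1 / 100) 100 (qd t p m s) * (2 * p + 2 * m * s) +
      ps t p m y q n s * (Real.exp (-sg t p m y q n s) * sg1 t p m y q n s) +
      (2 * (conj (x 2) * v 2).re + 2 * ‖v 2‖ ^ 2 * s)) _ ?_ ?_ ?_
  · filter_upwards [hYe] with s hs
    exact FF_line x v s hs
  · filter_upwards [hYe, hTe] with s hs hs'
    have h1 : HasDerivAt (fun s => w0 (qd t p m s)) (om1 (1 / 100) 100 (qd t p m s) *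
        (2 * p + 2 * m * s)) s := (w0_deriv _).comp s (qd_deriv t p m s)
    exact (h1.add (ps_deriv t p m y q n s hs' hs)).add (qd_deriv _ _ _ s)
  · have h1 : HasDerivAt (fun s => om1 (1 / 100) 100 (qd t p m s)) (om2 (1 / 100) 100 (qd t p m 0) *
        (2 * p + 2 * m * 0)) 0 := (w01_deriv _).comp 0 (qd_deriv t p m 0)
    have h2 := h1.mul (ld_deriv p m 0)
    have h3 := (h2.add (ps1_deriv t p m y q n (by linarith) hx)).add
      (ld_deriv (conj (x 2) * v 2).re (‖v 2‖ ^ 2) 0)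
    refine h3.congr_deriv ?_
    simp only [qd_zero]
    ring


/-! algebra -/

theorem sg_zero (t p m y q n : ℝ) : sg t p m y q n 0 = Real.log y / (1 + t) := by
  unfold sg
  rw [qd_zero, qd_zero]

theorem sg1_zero {t y b L : ℝ} (ht : 0 ≤ t) (hy : 0 < y) (hb : b = 1 / (1 + t))
    (hL : L = -Real.log y) (p m q n : ℝ) :
    sg1 t p m y q n 0 = 2 * (b * q / y + b ^ 2 * L * p) := by
  have h1 : (1 + t) ≠ 0 := by linarith
  have h2 : y ≠ 0 := hy.ne'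
  have h3 : Real.log y = -L := by rw [hL]; ring
  unfold sg1
  rw [qd_zero, qd_zero, h3, hb]
  field_simp
  ring

theorem sg2_eq {t y b L : ℝ} (ht : 0 ≤ t) (hy : 0 < y) (hb : b = 1 / (1 + t))
    (hL : L = -Real.log y) (p m q n : ℝ) :
    sg2 t p m y q n = b * (2 * n * y - 4 * q ^ 2) / y ^ 2 + 2 * m * L * b ^ 2 -
      8 * b ^ 2 * q * p / y - 8 * L * b ^ 3 * p ^ 2 := by
  have h1 : (1 + t) ≠ 0 := by linarith
  have h2 : y ≠ 0 := hy.ne'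
  have h3 : Real.log y = -L := by rw [hL]; ring
  unfold sg2
  rw [h3, hb]
  field_simp
  ring

theorem om2_nonneg {t : ℝ} (ht : t < 1004 / 1000) : 0 ≤ om2 (1 / 100) 100 t := by
  by_cases h : t ≤ 1
  · unfold om2
    rw [DbarN.JCA1.om_of_le_one (by norm_num) h]
    simp
  · push Not at h
    have h0 := DbarN.JCA1.om_nonneg (k1 := 1 / 100) (l1 := 100) t
    unfold om2
    apply mul_nonneg h0
    obtain ⟨s, hs⟩ : ∃ s, s = t - 1 := ⟨_, rfl⟩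
    rw [← hs]
    have hs0 : 0 < s := by linarith
    have hs1 : s < 4 / 1000 := by linarith
    have h4 : (1 / 100 : ℝ) ^ 2 / s ^ 4 - 2 * (1 / 100) / s ^ 3 =
        (1 / 100) * (1 / 100 - 2 * s) / s ^ 4 := by
      field_simp
    rw [h4]
    apply div_nonneg _ (by positivity)
    apply mul_nonneg (by norm_num)
    linarith

/-- the Levi form where `x₁ ≠ 0` -/
theorem lev_FF (hF : ContDiff ℝ ∞ FF) (x : E3) (a : Fin 3 → ℂ) (hx : 0 < ‖x 1‖ ^ 2) (b L e : ℝ)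
    (hb : b = 1 / (1 + ‖x 0‖ ^ 2)) (hL : L = -Real.log (‖x 1‖ ^ 2))
    (he : e = Real.exp (L * b)) (P1 P2 Q1 Q2 u1 u2 : ℝ) (hP1 : P1 = (conj (x 0) * a 0).re)
    (hP2 : P2 = (conj (x 0) * a 0).im) (hQ1 : Q1 = (conj (x 1) * a 1).re)
    (hQ2 : Q2 = (conj (x 1) * a 1).im) (hu1 : u1 = b * Q1 / ‖x 1‖ ^ 2 + b ^ 2 * L * P1)
    (hu2 : u2 = b * Q2 / ‖x 1‖ ^ 2 + b ^ 2 * L * P2) :
    P1 ^ 2 + P2 ^ 2 = ‖x 0‖ ^ 2 * ‖a 0‖ ^ 2 ∧ Q1 ^ 2 + Q2 ^ 2 = ‖x 1‖ ^ 2 * ‖a 1‖ ^ 2 ∧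
    Lev FF x a = om2 (1 / 100) 100 (‖x 0‖ ^ 2) * (‖x 0‖ ^ 2 * ‖a 0‖ ^ 2) +
      om1 (1 / 100) 100 (‖x 0‖ ^ 2) * ‖a 0‖ ^ 2 + Real.exp (100 - e) * e *
      ((e - 1) * (u1 ^ 2 + u2 ^ 2) - 2 * b * (P1 * u1 + P2 * u2) + L * b ^ 2 * ‖a 0‖ ^ 2) +
      ‖a 2‖ ^ 2 := by
  have hPP : P1 ^ 2 + P2 ^ 2 = ‖x 0‖ ^ 2 * ‖a 0‖ ^ 2 := by
    rw [hP1, hP2, ← mul_pow]
    have : ‖x 0‖ * ‖a 0‖ = ‖conj (x 0) * a 0‖ := by rw [norm_mul, RCLike.norm_conj]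
    rw [this, ← Complex.normSq_eq_norm_sq, Complex.normSq_apply]
    ring
  have hQQ : Q1 ^ 2 + Q2 ^ 2 = ‖x 1‖ ^ 2 * ‖a 1‖ ^ 2 := by
    rw [hQ1, hQ2, ← mul_pow]
    have : ‖x 1‖ * ‖a 1‖ = ‖conj (x 1) * a 1‖ := by rw [norm_mul, RCLike.norm_conj]
    rw [this, ← Complex.normSq_eq_norm_sq, Complex.normSq_apply]
    ring
  refine ⟨hPP, hQQ, ?_⟩
  have ht0 : 0 ≤ ‖x 0‖ ^ 2 := by positivity
  have e0 : (conj (x 0) * (I • a) 0).re = -P2 := by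
    rw [hP2]
    simp [Complex.mul_re, Complex.mul_im]
    ring
  have e1 : (conj (x 1) * (I • a) 1).re = -Q2 := by
    rw [hQ2]
    simp [Complex.mul_re, Complex.mul_im]
    ring
  have n0 : ∀ j, ‖(I • a) j‖ ^ 2 = ‖a j‖ ^ 2 := by
    intro j
    rw [Pi.smul_apply, norm_smul, Complex.norm_I, one_mul]
  have hse : Real.exp (-(Real.log (‖x 1‖ ^ 2) / (1 + ‖x 0‖ ^ 2))) = e := by
    rw [he, hL, hb]
    congr 1
    ring
  rw [lev_eq hF x a, lap_FF hF x a hx, lap_FF hF x (I • a) hx, e0, e1, n0, n0, n0, ← hP1, ← hQ1]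
  unfold ps
  simp only [sg_zero, hse, sg1_zero ht0 hx hb hL, sg2_eq ht0 hx hb hL]
  generalize om2 (1 / 100) 100 (‖x 0‖ ^ 2) = w2
  generalize om1 (1 / 100) 100 (‖x 0‖ ^ 2) = w1
  generalize Real.exp (100 - e) = Ee
  have hyne : ‖x 1‖ ^ 2 ≠ 0 := hx.ne'
  generalize ‖x 1‖ ^ 2 = y at *
  generalize ‖x 0‖ ^ 2 = t at *
  generalize ‖a 0‖ ^ 2 = A at *
  generalize ‖a 1‖ ^ 2 = N at *
  generalize ‖a 2‖ ^ 2 = C at *
  have k1 : 2 * (b * Q1 / y + b ^ 2 * L * P1) = 2 * u1 := by rw [hu1]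
  have k2 : 2 * (b * -Q2 / y + b ^ 2 * L * -P2) = -(2 * u2) := by rw [hu2]; ring
  rw [k1, k2]
  have k3 : b * (2 * N * y - 4 * Q1 ^ 2) / y ^ 2 + b * (2 * N * y - 4 * (-Q2) ^ 2) / y ^ 2 = 0 := by
    have : b * (2 * N * y - 4 * Q1 ^ 2) / y ^ 2 + b * (2 * N * y - 4 * (-Q2) ^ 2) / y ^ 2 =
        4 * b * (y * N - (Q1 ^ 2 + Q2 ^ 2)) / y ^ 2 := by ring
    rw [this, hQQ]
    simp
  have k4 : P1 * u1 + P2 * u2 = b * (P1 * Q1 + P2 * Q2) / y + b ^ 2 * L * (t * A) := by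
    rw [hu1, hu2, ← hPP]; ring
  rw [k4]
  linear_combination (1 / 4 * Ee * e) * k3 + (w2 - 2 * Ee * e * L * b ^ 3) * hPP


/-! bounds -/

theorem L_ge {y : ℝ} (hy : 0 < y) (hy2 : y < 2 / 100) : 346 / 100 ≤ -Real.log y := by
  have h1 : Real.log y ≤ Real.log ((2 : ℝ)⁻¹ ^ 5) :=
    Real.log_le_log hy (by norm_num; linarith)
  rw [Real.log_pow, Real.log_inv] at h1
  have h2 := Real.log_two_gt_d9
  push_cast at h1
  linarith

theorem key_bd {t L b e A U P1 P2 u1 u2 : ℝ} (ht0 : 0 ≤ t) (ht : t < 1004 / 1000)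
    (hL : 346 / 100 ≤ L) (hb : b = 1 / (1 + t)) (he : e = Real.exp (L * b)) (hA : 0 ≤ A)
    (hU : U = u1 ^ 2 + u2 ^ 2) (hP : P1 ^ 2 + P2 ^ 2 = t * A) :
    498 / 1000 ≤ b ∧ b ≤ 1 ∧ 4 ≤ e ∧
    U + 4 / 10 * A ≤ (e - 1) * U - 2 * b * (P1 * u1 + P2 * u2) + L * b ^ 2 * A := by
  have hb1 : 498 / 1000 ≤ b := by
    rw [hb, le_div_iff₀ (by linarith)]
    linarith
  have hb2 : b ≤ 1 := by
    rw [hb, div_le_iff₀ (by linarith)]
    linarith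
  have hLb : 1723 / 1000 ≤ L * b := by
    have : (346 / 100 : ℝ) * (498 / 1000) ≤ L * b :=
      mul_le_mul hL hb1 (by norm_num) (by linarith)
    linarith
  have he4 : 4 ≤ e := by
    have h1 := Real.quadratic_le_exp_of_nonneg (x := L * b) (by linarith)
    rw [← he] at h1
    nlinarith
  refine ⟨hb1, hb2, he4, ?_⟩
  have hU0 : 0 ≤ U := by rw [hU]; positivity
  have hL0 : 0 < L := by linarith
  have h1 : 2 * b * (P1 * u1 + P2 * u2) * L ≤ b ^ 2 * L ^ 2 / 4 * (t * A) + 4 * U := by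
    rw [hU, ← hP]
    nlinarith [sq_nonneg (b * L / 2 * P1 - 2 * u1), sq_nonneg (b * L / 2 * P2 - 2 * u2)]
  have h2 : 4 + L ≤ L * (e - 1) := by nlinarith
  have h3 : 4 / 10 * L ≤ L ^ 2 * b ^ 2 * (1 - t / 4) := by
    have g1 : (498 / 1000 : ℝ) ^ 2 ≤ b ^ 2 := pow_le_pow_left₀ (by norm_num) hb1 2
    have g2 : (346 / 100 : ℝ) * L ≤ L ^ 2 := by nlinarith
    have g3 : (749 / 1000 : ℝ) ≤ 1 - t / 4 := by linarith
    have g4 : (346 / 100 : ℝ) * L * (498 / 1000) ^ 2 ≤ L ^ 2 * b ^ 2 :=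
      mul_le_mul g2 g1 (by norm_num) (by positivity)
    have g5 : (346 / 100 : ℝ) * L * (498 / 1000) ^ 2 * (749 / 1000) ≤ L ^ 2 * b ^ 2 * (1 - t / 4) :=
      mul_le_mul g4 g3 (by norm_num) (by positivity)
    nlinarith
  have h4 := mul_le_mul_of_nonneg_right h2 hU0
  have h5 := mul_le_mul_of_nonneg_right h3 hA
  have h6 : L * (U + 4 / 10 * A) ≤
      L * ((e - 1) * U - 2 * b * (P1 * u1 + P2 * u2) + L * b ^ 2 * A) := by nlinarith
  exact le_of_mul_le_mul_left h6 hL0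

/-- lower bound for the Levi form where `x₁ ≠ 0` -/
theorem lev_lower (hF : ContDiff ℝ ∞ FF) (x : E3) (a : Fin 3 → ℂ) (hx : 0 < ‖x 1‖ ^ 2)
    (ht : ‖x 0‖ ^ 2 < 1004 / 1000) (hy : ‖x 1‖ ^ 2 < 2 / 100) : ∃ U e : ℝ, 0 ≤ U ∧
    e = Real.exp (-Real.log (‖x 1‖ ^ 2) * (1 / (1 + ‖x 0‖ ^ 2))) ∧ 4 ≤ e ∧
    ‖a 1‖ ^ 2 ≤ U + (Real.log (‖x 1‖ ^ 2)) ^ 2 * ‖a 0‖ ^ 2 ∧
    Real.exp (100 - e) * e * (U + 4 / 10 * ‖a 0‖ ^ 2) + ‖a 2‖ ^ 2 ≤ Lev FF x a := by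
  have ht0 : 0 ≤ ‖x 0‖ ^ 2 := by positivity
  obtain ⟨b, hb⟩ : ∃ b, b = 1 / (1 + ‖x 0‖ ^ 2) := ⟨_, rfl⟩
  obtain ⟨L, hL⟩ : ∃ L, L = -Real.log (‖x 1‖ ^ 2) := ⟨_, rfl⟩
  obtain ⟨e, he⟩ : ∃ e, e = Real.exp (L * b) := ⟨_, rfl⟩
  obtain ⟨P1, hP1⟩ : ∃ P, P = (conj (x 0) * a 0).re := ⟨_, rfl⟩
  obtain ⟨P2, hP2⟩ : ∃ P, P = (conj (x 0) * a 0).im := ⟨_, rfl⟩
  obtain ⟨Q1, hQ1⟩ : ∃ P, P = (conj (x 1) * a 1).re := ⟨_, rfl⟩
  obtain ⟨Q2, hQ2⟩ : ∃ P, P = (conj (x 1) * a 1).im := ⟨_, rfl⟩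
  obtain ⟨u1, hu1⟩ : ∃ u, u = b * Q1 / ‖x 1‖ ^ 2 + b ^ 2 * L * P1 := ⟨_, rfl⟩
  obtain ⟨u2, hu2⟩ : ∃ u, u = b * Q2 / ‖x 1‖ ^ 2 + b ^ 2 * L * P2 := ⟨_, rfl⟩
  obtain ⟨hPP, hQQ, hlev⟩ := lev_FF hF x a hx b L e hb hL he P1 P2 Q1 Q2 u1 u2 hP1 hP2 hQ1 hQ2
    hu1 hu2
  have hLge := L_ge hx hy
  rw [← hL] at hLge
  obtain ⟨hb1, hb2, he4, hkey⟩ := key_bd (U := u1 ^ 2 + u2 ^ 2) (A := ‖a 0‖ ^ 2) ht0 ht hLge hb he
    (by positivity) rfl hPP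
  have hlog : Real.log (‖x 1‖ ^ 2) = -L := by rw [hL]; ring
  refine ⟨u1 ^ 2 + u2 ^ 2, e, by positivity, ?_, he4, ?_, ?_⟩
  · rw [← hL, ← hb]; exact he
  · rw [hlog]
    have hy0 := hx
    have hN0 : 0 ≤ ‖a 1‖ ^ 2 := by positivity
    have hA0 : 0 ≤ ‖a 0‖ ^ 2 := by positivity
    generalize ‖x 1‖ ^ 2 = y at *
    generalize ‖x 0‖ ^ 2 = t at *
    generalize ‖a 0‖ ^ 2 = A at *
    generalize ‖a 1‖ ^ 2 = N at *
    have hyne : y ≠ 0 := hy0.ne'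
    have q1 : b * Q1 = y * (u1 - b ^ 2 * L * P1) := by rw [hu1]; field_simp; ring
    have q2 : b * Q2 = y * (u2 - b ^ 2 * L * P2) := by rw [hu2]; field_simp; ring
    have h1 : b ^ 2 * (y * N) = y ^ 2 * ((u1 - b ^ 2 * L * P1) ^ 2 + (u2 - b ^ 2 * L * P2) ^ 2) := by
      rw [← hQQ]
      calc b ^ 2 * (Q1 ^ 2 + Q2 ^ 2) = (b * Q1) ^ 2 + (b * Q2) ^ 2 := by ring
        _ = _ := by rw [q1, q2]; ring
    have h2 : b ^ 2 * N = y * ((u1 - b ^ 2 * L * P1) ^ 2 + (u2 - b ^ 2 * L * P2) ^ 2) := by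
      apply mul_left_cancel₀ hyne
      linear_combination h1
    have h3 : (u1 - b ^ 2 * L * P1) ^ 2 + (u2 - b ^ 2 * L * P2) ^ 2 ≤
        2 * (u1 ^ 2 + u2 ^ 2) + 2 * (b ^ 4 * L ^ 2 * (t * A)) := by
      rw [← hPP]
      nlinarith [sq_nonneg (u1 + b ^ 2 * L * P1), sq_nonneg (u2 + b ^ 2 * L * P2)]
    have h4 : b ^ 4 * L ^ 2 * (t * A) ≤ 2 * (L ^ 2 * A) := by
      have g1 : b ^ 4 ≤ 1 := pow_le_one₀ (by linarith) hb2
      have g2 : t * A ≤ 2 * A := mul_le_mul_of_nonneg_right (by linarith) hA0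
      have g3 : b ^ 4 * L ^ 2 ≤ 1 * L ^ 2 := mul_le_mul_of_nonneg_right g1 (sq_nonneg L)
      calc b ^ 4 * L ^ 2 * (t * A) ≤ 1 * L ^ 2 * (2 * A) :=
            mul_le_mul g3 g2 (by positivity) (by positivity)
        _ = _ := by ring
    have h5 : b ^ 2 * N ≤ (2 / 100) * (2 * (u1 ^ 2 + u2 ^ 2) + 4 * (L ^ 2 * A)) := by
      rw [h2]
      have g : 0 ≤ 2 * (u1 ^ 2 + u2 ^ 2) + 4 * (L ^ 2 * A) := by positivity
      calc y * ((u1 - b ^ 2 * L * P1) ^ 2 + (u2 - b ^ 2 * L * P2) ^ 2)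
          ≤ y * (2 * (u1 ^ 2 + u2 ^ 2) + 4 * (L ^ 2 * A)) :=
            mul_le_mul_of_nonneg_left (by linarith) hy0.le
        _ ≤ _ := mul_le_mul_of_nonneg_right hy.le g
    have h6 : (248 / 1000 : ℝ) * N ≤ b ^ 2 * N := by
      apply mul_le_mul_of_nonneg_right _ hN0
      nlinarith
    have h7 : 0 ≤ L ^ 2 * A := by positivity
    have h8 : 0 ≤ u1 ^ 2 + u2 ^ 2 := by positivity
    nlinarith
  · rw [hlev]
    have g1 := om2_nonneg ht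
    have g2 : 0 ≤ om1 (1 / 100) 100 (‖x 0‖ ^ 2) := DbarN.JCA1.om1_nonneg (by norm_num) _
    have g3 : 0 ≤ om2 (1 / 100) 100 (‖x 0‖ ^ 2) * (‖x 0‖ ^ 2 * ‖a 0‖ ^ 2) :=
      mul_nonneg g1 (by positivity)
    have g4 : 0 ≤ om1 (1 / 100) 100 (‖x 0‖ ^ 2) * ‖a 0‖ ^ 2 := mul_nonneg g2 (by positivity)
    have g5 := mul_le_mul_of_nonneg_left hkey
      (show 0 ≤ Real.exp (100 - e) * e from mul_nonneg (Real.exp_pos _).le (by linarith))
    linarith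

theorem lev_cont (hF : ContDiff ℝ ∞ FF) (a : Fin 3 → ℂ) : Continuous fun x => Lev FF x a := by
  have h1 : ContDiff ℝ ∞ (fderiv ℝ FF) := hF.fderiv_right (m := ∞) (by simp)
  have h2 : Continuous (fderiv ℝ (fderiv ℝ FF)) := h1.continuous_fderiv (by simp)
  have e : (fun x => Lev FF x a) = fun x => (1 / 4) * (fderiv ℝ (fderiv ℝ FF) x a a +
      fderiv ℝ (fderiv ℝ FF) x (I • a) (I • a)) := funext fun x => lev_eq hF x a
  rw [e]
  exact continuous_const.mul (((h2.clm_apply continuous_const).clm_apply continuous_const).add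
    ((h2.clm_apply continuous_const).clm_apply continuous_const))

theorem part1_pos (hF : ContDiff ℝ ∞ FF) (x : E3) (a : Fin 3 → ℂ) (hx : 0 < ‖x 1‖ ^ 2)
    (ht : ‖x 0‖ ^ 2 < 1004 / 1000) (hy : ‖x 1‖ ^ 2 < 2 / 100) : ‖a 2‖ ^ 2 ≤ Lev FF x a := by
  obtain ⟨U, e, hU, _, he4, _, h⟩ := lev_lower hF x a hx ht hy
  have : 0 ≤ Real.exp (100 - e) * e * (U + 4 / 10 * ‖a 0‖ ^ 2) := by
    have := (Real.exp_pos (100 - e)).le
    positivity
  linarith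

theorem part1 (hF : ContDiff ℝ ∞ FF) (x : E3) (ht : ‖x 0‖ ^ 2 < 1004 / 1000)
    (hy : ‖x 1‖ ^ 2 < 2 / 100) (a : Fin 3 → ℂ) : ‖a 2‖ ^ 2 ≤ Lev FF x a := by
  by_cases hx : 0 < ‖x 1‖ ^ 2
  · exact part1_pos hF x a hx ht hy
  · have hx1 : x 1 = 0 := by
      by_contra hne
      exact hx (by positivity)
    have hlim : Tendsto (fun r : ℝ => Lev FF (x + r • (Pi.single 1 1 : E3)) a) (𝓝[>] 0)
        (𝓝 (Lev FF x a)) := by
      have hc : Continuous fun r : ℝ => Lev FF (x + r • (Pi.single 1 1 : E3)) a :=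
        (lev_cont hF a).comp (by fun_prop)
      have h := hc.tendsto 0
      simp only [zero_smul, add_zero] at h
      exact h.mono_left nhdsWithin_le_nhds
    refine ge_of_tendsto hlim ?_
    have hr : Set.Ioo (0 : ℝ) (1 / 10) ∈ 𝓝[>] (0 : ℝ) := Ioo_mem_nhdsGT (by norm_num)
    filter_upwards [hr] with r hr
    have e0 : (x + r • (Pi.single 1 1 : E3)) 0 = x 0 := by simp
    have e1 : (x + r • (Pi.single 1 1 : E3)) 1 = (r : ℂ) := by simp [hx1]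
    have e2 : ‖(r : ℂ)‖ ^ 2 = r ^ 2 := by
      rw [Complex.norm_real, Real.norm_eq_abs, sq_abs]
    apply part1_pos hF
    · rw [e1, e2]; exact pow_pos hr.1 2
    · rw [e0]; exact ht
    · rw [e1, e2]
      have := hr.1
      have := hr.2
      nlinarith

theorem part2 (hF : ContDiff ℝ ∞ FF) (y0 : ℝ) (hy0 : 0 < y0) : ∃ c : ℝ, 0 < c ∧ ∀ x : E3,
    ‖x 0‖ ^ 2 < 1004 / 1000 → y0 ≤ ‖x 1‖ ^ 2 →
    ‖x 1‖ ^ 2 < 2 / 100 → ∀ a : Fin 3 → ℂ, c * ∑ j, ‖a j‖ ^ 2 ≤ Lev FF x a := by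
  obtain ⟨κ, hκ⟩ : ∃ κ, κ = Real.exp (100 - Real.exp (-Real.log y0)) := ⟨_, rfl⟩
  have hκ0 : 0 < κ := by rw [hκ]; exact Real.exp_pos _
  obtain ⟨M, hM⟩ : ∃ M, M = 1 + (Real.log y0) ^ 2 := ⟨_, rfl⟩
  have hM1 : 1 ≤ M := by rw [hM]; nlinarith [sq_nonneg (Real.log y0)]
  have hM0 : 0 < M := by linarith
  refine ⟨min 1 (κ / 4) / M, div_pos (lt_min one_pos (by positivity)) hM0, ?_⟩
  intro x ht hy1 hy2 a
  have hx : 0 < ‖x 1‖ ^ 2 := lt_of_lt_of_le hy0 hy1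
  obtain ⟨U, e, hU, he, he4, hN, h⟩ := lev_lower hF x a hx ht hy2
  have hA0 : 0 ≤ ‖a 0‖ ^ 2 := by positivity
  have hN0 : 0 ≤ ‖a 1‖ ^ 2 := by positivity
  have hC0 : 0 ≤ ‖a 2‖ ^ 2 := by positivity
  have ht0 : 0 ≤ ‖x 0‖ ^ 2 := by positivity
  have hL := L_ge hx hy2
  have hlog : Real.log y0 ≤ Real.log (‖x 1‖ ^ 2) := Real.log_le_log hy0 hy1
  have hlog2 : (Real.log (‖x 1‖ ^ 2)) ^ 2 ≤ (Real.log y0) ^ 2 := by
    rw [sq_le_sq]
    rw [abs_of_nonpos (by linarith), abs_of_nonpos (by linarith)]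
    linarith
  have hele : e ≤ Real.exp (-Real.log y0) := by
    rw [he]
    apply Real.exp_le_exp.2
    have hb : 1 / (1 + ‖x 0‖ ^ 2) ≤ 1 := by
      rw [div_le_one (by linarith)]; linarith
    have h1 : -Real.log (‖x 1‖ ^ 2) * (1 / (1 + ‖x 0‖ ^ 2)) ≤ -Real.log (‖x 1‖ ^ 2) * 1 :=
      mul_le_mul_of_nonneg_left hb (by linarith)
    linarith
  have hK : κ ≤ Real.exp (100 - e) * e := by
    have h1 : κ ≤ Real.exp (100 - e) := by
      rw [hκ]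
      apply Real.exp_le_exp.2
      linarith
    have h2 : Real.exp (100 - e) * 1 ≤ Real.exp (100 - e) * e :=
      mul_le_mul_of_nonneg_left (by linarith) (Real.exp_pos _).le
    linarith
  rw [Fin.sum_univ_three]
  have hsum : ‖a 0‖ ^ 2 + ‖a 1‖ ^ 2 + ‖a 2‖ ^ 2 ≤ M * (‖a 0‖ ^ 2 + U) + ‖a 2‖ ^ 2 := by
    have h1 := mul_le_mul_of_nonneg_right hlog2 hA0
    have h2 : M * (‖a 0‖ ^ 2 + U) = ‖a 0‖ ^ 2 + (Real.log y0) ^ 2 * ‖a 0‖ ^ 2 + M * U := by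
      rw [hM]; ring
    have h3 : U ≤ M * U := by nlinarith
    rw [h2]
    linarith
  have hc0 : 0 ≤ min 1 (κ / 4) / M := div_nonneg (le_min zero_le_one (by positivity)) hM0.le
  have h1 := mul_le_mul_of_nonneg_left hsum hc0
  refine h1.trans (le_trans ?_ h)
  have h2 : min 1 (κ / 4) / M * (M * (‖a 0‖ ^ 2 + U) + ‖a 2‖ ^ 2) =
      min 1 (κ / 4) * (‖a 0‖ ^ 2 + U) + min 1 (κ / 4) / M * ‖a 2‖ ^ 2 := by
    field_simp
  rw [h2]
  have h3 : min 1 (κ / 4) / M ≤ 1 := by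
    rw [div_le_one hM0]
    exact (min_le_left _ _).trans hM1
  have h4 : min 1 (κ / 4) * (‖a 0‖ ^ 2 + U) ≤ κ / 4 * (‖a 0‖ ^ 2 + U) :=
    mul_le_mul_of_nonneg_right (min_le_right _ _) (by linarith)
  have h5 := mul_le_mul_of_nonneg_right h3 hC0
  have h6 : κ * (U + 4 / 10 * ‖a 0‖ ^ 2) ≤
      Real.exp (100 - e) * e * (U + 4 / 10 * ‖a 0‖ ^ 2) :=
    mul_le_mul_of_nonneg_right hK (by linarith)
  have h7 : κ / 4 * (‖a 0‖ ^ 2 + U) ≤ κ * (U + 4 / 10 * ‖a 0‖ ^ 2) := by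
    have g1 : 0 ≤ κ * U := by positivity
    have g2 : 0 ≤ κ * ‖a 0‖ ^ 2 := by positivity
    nlinarith
  linarith

end FHP

theorem fh (hG : GyS_stmt) (hF : FFs_stmt) : FH_stmt :=
  ⟨fun x ht hy a => FHP.part1 hF x ht hy a, fun y0 hy0 => FHP.part2 hF y0 hy0⟩

end DbarC.JFHj
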