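import Pool.Agent.H314.DC.St2

set_option autoImplicit false

open MeasureTheory Complex Filter Topology
open scoped ContDiff InnerProductSpace ENNReal ComplexConjugate

namespace DbarC.JFS
open DbarN

theorem ffs (hG : GyS_stmt) : FFs_stmt := by
  unfold FFs_stmt FF
  have hc : ∀ i : Fin 3, ContDiff ℝ ∞ (fun x : E3 => ‖x i‖ ^ 2) := by
    intro i
    have h1 : ContDiff ℝ ∞ (fun x : E3 => x i) := contDiff_apply ℝ ℂ i
    exact h1.norm_sq ℝ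
  have h1 : ContDiff ℝ ∞ (fun x : E3 => w0 (‖x 0‖ ^ 2)) := by
    have : ContDiff ℝ ∞ w0 := JCA1.om_contDiff (k1 := 1 / 100) (l1 := 100)
    exact this.comp (hc 0)
  have h2 : ContDiff ℝ ∞ (fun x : E3 => Gy (‖x 0‖ ^ 2) (‖x 1‖ ^ 2)) := by
    have h3 : ContDiff ℝ ∞ (fun x : E3 => ((‖x 0‖ ^ 2, ‖x 1‖ ^ 2) : ℝ × ℝ)) := (hc 0).prodMk (hc 1)
    rw [← contDiffOn_univ] at h3 ⊢
    exact ContDiffOn.comp (g := fun p : ℝ × ℝ => Gy p.1 p.2) hG h3 (fun x _ => by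
      show -1 < ‖x 0‖ ^ 2
      have := sq_nonneg ‖x 0‖
      linarith)
  exact (h1.add h2).add (hc 2)

end DbarC.JFS
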