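import Pool.Agent.H314.DC.St2

set_option autoImplicit false

open MeasureTheory Complex Filter Topology
open scoped ContDiff InnerProductSpace ENNReal ComplexConjugate

namespace DbarC.JGL
open DbarN

theorem glu_dbar_smooth {φ : E3 → ℂ} (h : ContDiff ℝ ∞ φ) (j : Fin 3) :
    ContDiff ℝ ∞ (dbar j φ) := by
  have h1 : ContDiff ℝ ∞ (fderiv ℝ φ) := h.fderiv_right (m := ∞) (by simp)
  unfold dbar
  exact contDiff_const.mul ((h1.clm_apply contDiff_const).add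
    (contDiff_const.mul (h1.clm_apply contDiff_const)))

theorem glu_dz_smooth {φ : E3 → ℂ} (h : ContDiff ℝ ∞ φ) (j : Fin 3) :
    ContDiff ℝ ∞ (dz j φ) := by
  have h1 : ContDiff ℝ ∞ (fderiv ℝ φ) := h.fderiv_right (m := ∞) (by simp)
  unfold dz
  exact contDiff_const.mul ((h1.clm_apply contDiff_const).sub
    (contDiff_const.mul (h1.clm_apply contDiff_const)))

theorem glu_dbar_lin {φ ψ : E3 → ℂ} {x : E3} (hφ : DifferentiableAt ℝ φ x)
    (hψ : DifferentiableAt ℝ ψ x) (c : ℂ) (j : Fin 3) :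
    dbar j (fun y => φ y + c * ψ y) x = dbar j φ x + c * dbar j ψ x := by
  have h : HasFDerivAt (fun y => φ y + c * ψ y) (fderiv ℝ φ x + c • fderiv ℝ ψ x) x :=
    hφ.hasFDerivAt.add (hψ.hasFDerivAt.const_mul c)
  unfold dbar
  rw [h.fderiv]
  simp only [add_apply, smul_apply, smul_eq_mul]
  ring

theorem glu_dz_lin {φ ψ : E3 → ℂ} {x : E3} (hφ : DifferentiableAt ℝ φ x)
    (hψ : DifferentiableAt ℝ ψ x) (c : ℂ) (j : Fin 3) :
    dz j (fun y => φ y + c * ψ y) x = dz j φ x + c * dz j ψ x := by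
  have h : HasFDerivAt (fun y => φ y + c * ψ y) (fderiv ℝ φ x + c • fderiv ℝ ψ x) x :=
    hφ.hasFDerivAt.add (hψ.hasFDerivAt.const_mul c)
  unfold dz
  rw [h.fderiv]
  simp only [add_apply, smul_apply, smul_eq_mul]
  ring

theorem glu_Ph_smooth {Φ : E3 → ℝ} (h : ContDiff ℝ ∞ Φ) : ContDiff ℝ ∞ (Ph Φ) :=
  Complex.ofRealCLM.contDiff.comp h

theorem glu_Hess_lin {Φ Ψ : E3 → ℝ} (hΦ : ContDiff ℝ ∞ Φ) (hΨ : ContDiff ℝ ∞ Ψ) (c : ℝ)
    (j k : Fin 3) (x : E3) :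
    Hess (fun y => Φ y + c * Ψ y) j k x = Hess Φ j k x + c * Hess Ψ j k x := by
  unfold Hess
  have h1 : Ph (fun y => Φ y + c * Ψ y) = fun y => Ph Φ y + (c : ℂ) * Ph Ψ y := by
    funext y
    simp [Ph]
  have h2 : dbar k (Ph (fun y => Φ y + c * Ψ y)) =
      fun y => dbar k (Ph Φ) y + (c : ℂ) * dbar k (Ph Ψ) y := by
    funext y
    rw [h1]
    exact glu_dbar_lin ((glu_Ph_smooth hΦ).differentiable (by simp) y)
      ((glu_Ph_smooth hΨ).differentiable (by simp) y) c k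
  rw [h2]
  exact glu_dz_lin ((glu_dbar_smooth (glu_Ph_smooth hΦ) k).differentiable (by simp) x)
      ((glu_dbar_smooth (glu_Ph_smooth hΨ) k).differentiable (by simp) x) c j

theorem glu_Hess_cont {Φ : E3 → ℝ} (h : ContDiff ℝ ∞ Φ) (j k : Fin 3) :
    Continuous (Hess Φ j k) :=
  (glu_dz_smooth (glu_dbar_smooth (glu_Ph_smooth h) k) j).continuous

theorem glu_Hess_congr {Φ Ψ : E3 → ℝ} {x : E3} (h : Φ =ᶠ[𝓝 x] Ψ) (j k : Fin 3) :
    Hess Φ j k x = Hess Ψ j k x := by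
  have h1 : Ph Φ =ᶠ[𝓝 x] Ph Ψ := by
    filter_upwards [h] with y hy
    unfold Ph
    rw [hy]
  have h2 : dbar k (Ph Φ) =ᶠ[𝓝 x] dbar k (Ph Ψ) := by
    filter_upwards [h1.fderiv (𝕜 := ℝ)] with y hy
    unfold dbar
    rw [hy]
  unfold Hess dz
  rw [h2.fderiv_eq]

theorem glu_Hess_zero (x : E3) (j k : Fin 3) : Hess (fun _ => (0 : ℝ)) j k x = 0 := by
  have h1 : dbar k (Ph (fun _ => (0 : ℝ))) = fun _ => 0 := by
    funext y
    unfold dbar Ph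
    simp
  unfold Hess
  rw [h1]
  unfold dz
  simp

theorem glu_Lev_lin {Φ Ψ : E3 → ℝ} (hΦ : ContDiff ℝ ∞ Φ) (hΨ : ContDiff ℝ ∞ Ψ) (c : ℝ)
    (x : E3) (a : Fin 3 → ℂ) :
    Lev (fun y => Φ y + c * Ψ y) x a = Lev Φ x a + c * Lev Ψ x a := by
  unfold Lev
  have : ∑ j, ∑ k, Hess (fun y => Φ y + c * Ψ y) j k x * a j * conj (a k) =
      ∑ j, ∑ k, Hess Φ j k x * a j * conj (a k) +
        (c : ℂ) * ∑ j, ∑ k, Hess Ψ j k x * a j * conj (a k) := by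
    rw [Finset.mul_sum, ← Finset.sum_add_distrib]
    refine Finset.sum_congr rfl fun j _ => ?_
    rw [Finset.mul_sum, ← Finset.sum_add_distrib]
    refine Finset.sum_congr rfl fun k _ => ?_
    rw [glu_Hess_lin hΦ hΨ]
    ring
  rw [this, Complex.add_re, Complex.re_ofReal_mul]

theorem glu_Lev_congr {Φ Ψ : E3 → ℝ} {x : E3} (h : Φ =ᶠ[𝓝 x] Ψ) (a : Fin 3 → ℂ) :
    Lev Φ x a = Lev Ψ x a := by
  unfold Lev
  simp only [glu_Hess_congr h]

theorem glu_Lev_zero (x : E3) (a : Fin 3 → ℂ) : Lev (fun _ => (0 : ℝ)) x a = 0 := by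
  unfold Lev
  simp [glu_Hess_zero]

theorem glu_Lev_bound {Φ : E3 → ℝ} (h : ContDiff ℝ ∞ Φ) {L : Set E3} (hL : IsCompact L) :
    ∃ B : ℝ, 0 ≤ B ∧ ∀ x ∈ L, ∀ a, -(B * ∑ j, ‖a j‖ ^ 2) ≤ Lev Φ x a := by
  have hex : ∀ j k : Fin 3, ∃ C, ∀ x ∈ L, ‖Hess Φ j k x‖ ≤ C := fun j k =>
    hL.exists_bound_of_continuousOn (glu_Hess_cont h j k).continuousOn
  choose C hC using hex
  refine ⟨3 * ∑ j, ∑ k, |C j k|, by positivity, fun x hx a => ?_⟩
  have hB : ∀ j k, ‖Hess Φ j k x‖ ≤ ∑ j, ∑ k, |C j k| := by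
    intro j k
    calc ‖Hess Φ j k x‖ ≤ C j k := hC j k x hx
      _ ≤ |C j k| := le_abs_self _
      _ ≤ ∑ k, |C j k| := Finset.single_le_sum (f := fun k => |C j k|)
          (fun i _ => abs_nonneg _) (Finset.mem_univ k)
      _ ≤ _ := Finset.single_le_sum (f := fun j => ∑ k, |C j k|)
          (fun i _ => Finset.sum_nonneg fun _ _ => abs_nonneg _) (Finset.mem_univ j)
  obtain ⟨B0, hB0⟩ : ∃ B0, B0 = ∑ j, ∑ k, |C j k| := ⟨_, rfl⟩
  rw [← hB0] at hB ⊢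
  have hB0n : 0 ≤ B0 := by rw [hB0]; positivity
  have h1 : |Lev Φ x a| ≤ ∑ j, ∑ k, B0 * (‖a j‖ * ‖a k‖) := by
    unfold Lev
    calc |(∑ j, ∑ k, Hess Φ j k x * a j * conj (a k)).re|
        ≤ ‖∑ j, ∑ k, Hess Φ j k x * a j * conj (a k)‖ := Complex.abs_re_le_norm _
      _ ≤ ∑ j, ‖∑ k, Hess Φ j k x * a j * conj (a k)‖ := norm_sum_le _ _
      _ ≤ ∑ j, ∑ k, B0 * (‖a j‖ * ‖a k‖) := by
        refine Finset.sum_le_sum fun j _ => ?_
        refine (norm_sum_le _ _).trans (Finset.sum_le_sum fun k _ => ?_)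
        rw [norm_mul, norm_mul, RCLike.norm_conj, mul_assoc]
        exact mul_le_mul_of_nonneg_right (hB j k) (by positivity)
  have h2 : ∑ j, ∑ k, B0 * (‖a j‖ * ‖a k‖) ≤ 3 * B0 * ∑ j, ‖a j‖ ^ 2 := by
    simp only [Fin.sum_univ_three]
    nlinarith [mul_nonneg hB0n (sq_nonneg (‖a 0‖ - ‖a 1‖)),
      mul_nonneg hB0n (sq_nonneg (‖a 0‖ - ‖a 2‖)), mul_nonneg hB0n (sq_nonneg (‖a 1‖ - ‖a 2‖))]
  have h3 := neg_abs_le (Lev Φ x a)
  linarith

theorem glu (hP : P1G_stmt) : GLU_stmt := by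
  intro K U hK hKc hKne hU hKU _ φ hφ hφU
  obtain ⟨K2, hK2, hKK2, hK2U⟩ := exists_compact_between hK hU hKU
  obtain ⟨K3, hK3, hK23, hK3U⟩ := exists_compact_between hK2 hU hK2U
  obtain ⟨f, hf1, hf0, hf⟩ := exists_contMDiffMap_one_nhds_of_subset_interior (n := ⊤)
    (modelWithCornersSelf ℝ E3) hK2.isClosed hK23
  obtain ⟨W, hW, hK2W, hW1⟩ := eventually_nhdsSet_iff_exists.1 hf1
  obtain ⟨P, hPs, hPL, hP0, hPK, hPV, hPc⟩ := hP K (interior K2) hK hKc hKne isOpen_interior hKK2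
  obtain ⟨θ, hθs, hθ01, hθ1, hθ0⟩ : ∃ θ : E3 → ℝ, ContDiff ℝ ∞ θ ∧ (∀ x, 0 ≤ θ x ∧ θ x ≤ 1) ∧
      (∀ x ∈ W, θ x = 1) ∧ (∀ x, x ∉ K3 → θ x = 0) :=
    ⟨f, f.contMDiff.contDiff, hf, hW1, hf0⟩
  have hθφ : ContDiff ℝ ∞ (fun x => θ x * φ x) := hθs.mul hφ
  obtain ⟨B, hB0, hB⟩ := glu_Lev_bound hθφ hK3
  have hL : IsCompact (K3 \ interior K2) := hK3.diff isOpen_interior
  obtain ⟨c, hc, hcL⟩ := hPc (K3 \ interior K2) hL Set.disjoint_sdiff_left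
  have hN : 0 < B / c + 1 := by positivity
  have hVW : interior K2 ⊆ W := interior_subset.trans hK2W
  refine ⟨fun x => θ x * φ x + (B / c + 1) * P x, interior K2, hθφ.add (contDiff_const.mul hPs),
    ?_, isOpen_interior, hKK2, interior_subset.trans hK2U, ?_, ?_, ?_⟩
  · intro x a
    rw [glu_Lev_lin hθφ hPs]
    have hNP : 0 ≤ (B / c + 1) * Lev P x a := mul_nonneg hN.le (hPL x a)
    by_cases hxV : x ∈ interior K2
    · have h1 : (fun x => θ x * φ x) =ᶠ[𝓝 x] φ := by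
        filter_upwards [hW.mem_nhds (hVW hxV)] with y hy
        rw [hθ1 y hy, one_mul]
      rw [glu_Lev_congr h1]
      have := hφU x (hK2U (interior_subset hxV)) a
      linarith
    · by_cases hx3 : x ∈ K3
      · have h1 := hB x hx3 a
        have h2 := hcL x ⟨hx3, hxV⟩ a
        have h3 : 0 ≤ ∑ j, ‖a j‖ ^ 2 := by positivity
        have h4 : (B / c + 1) * (c * ∑ j, ‖a j‖ ^ 2) ≤ (B / c + 1) * Lev P x a :=
          mul_le_mul_of_nonneg_left h2 hN.le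
        have h5 : (B / c + 1) * (c * ∑ j, ‖a j‖ ^ 2) = B * ∑ j, ‖a j‖ ^ 2 +
            c * ∑ j, ‖a j‖ ^ 2 := by
          field_simp
        have h6 : 0 ≤ c * ∑ j, ‖a j‖ ^ 2 := by positivity
        linarith
      · have h1 : (fun x => θ x * φ x) =ᶠ[𝓝 x] fun _ => (0 : ℝ) := by
          filter_upwards [hK3.isClosed.isOpen_compl.mem_nhds hx3] with y hy
          rw [hθ0 y hy, zero_mul]
        rw [glu_Lev_congr h1, glu_Lev_zero]
        linarith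
  · intro x hx
    have h1 : θ x = 1 := hθ1 x (hVW (hKK2 hx))
    show θ x * φ x + (B / c + 1) * P x = φ x
    rw [h1, hPK x hx]
    ring
  · intro x hx
    have h1 : θ x = 1 := hθ1 x (hVW hx)
    have h2 : 0 ≤ (B / c + 1) * P x := mul_nonneg hN.le (hP0 x)
    show φ x ≤ θ x * φ x + (B / c + 1) * P x
    rw [h1]
    linarith
  · intro hφ0
    have h1 : ∀ x, 0 ≤ θ x * φ x := fun x => mul_nonneg (hθ01 x).1 (hφ0 x)
    refine ⟨fun x => add_nonneg (h1 x) (mul_nonneg hN.le (hP0 x)), fun x hx => ?_⟩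
    exact add_pos_of_nonneg_of_pos (h1 x) (mul_pos hN (hPV x hx))

end DbarC.JGL
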