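import Pool.Agent.H314.DC.St2

set_option autoImplicit false

open MeasureTheory Complex Filter Topology
open scoped ContDiff InnerProductSpace ENNReal ComplexConjugate

namespace DbarC.JGS
open DbarN

namespace GyS258

/-- the coefficient functions -/
def gens : Set (ℝ × ℝ → ℝ) :=
  {f | f = (fun p => p.1) ∨ f = (fun p => p.2⁻¹) ∨ f = (fun p => p.2 ^ (-p.1)) ∨
    f = (fun p => Real.log p.2)}

/-- the algebra of coefficient functions -/
noncomputable def gA : Subalgebra ℝ (ℝ × ℝ → ℝ) := Algebra.adjoin ℝ gens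

noncomputable abbrev fB : ℝ × ℝ → ℝ := fun p => p.1
noncomputable abbrev fI : ℝ × ℝ → ℝ := fun p => p.2⁻¹
noncomputable abbrev fP : ℝ × ℝ → ℝ := fun p => p.2 ^ (-p.1)
noncomputable abbrev fL : ℝ × ℝ → ℝ := fun p => Real.log p.2

theorem fB_mem : fB ∈ gA := Algebra.subset_adjoin (Or.inl rfl)
theorem fI_mem : fI ∈ gA := Algebra.subset_adjoin (Or.inr (Or.inl rfl))
theorem fP_mem : fP ∈ gA := Algebra.subset_adjoin (Or.inr (Or.inr (Or.inl rfl)))
theorem fL_mem : fL ∈ gA := Algebra.subset_adjoin (Or.inr (Or.inr (Or.inr rfl)))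

theorem fP_der (p : ℝ × ℝ) (hp : 0 < p.2) : HasFDerivAt fP
    ((-(fP p * fL p)) • ContinuousLinearMap.fst ℝ ℝ ℝ +
      (-(p.1 * fP p * fI p)) • ContinuousLinearMap.snd ℝ ℝ ℝ) p := by
  have h1 : HasFDerivAt (fun q : ℝ × ℝ => q.2) (ContinuousLinearMap.snd ℝ ℝ ℝ) p := hasFDerivAt_snd
  have h2 : HasFDerivAt (fun q : ℝ × ℝ => -q.1) (-(ContinuousLinearMap.fst ℝ ℝ ℝ)) p :=
    hasFDerivAt_fst.neg
  have h3 := h1.rpow h2 hp
  refine HasFDerivAt.congr_fderiv (f' := ((-p.1 * p.2 ^ (-p.1 - 1)) •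
    ContinuousLinearMap.snd ℝ ℝ ℝ + (p.2 ^ (-p.1) * Real.log p.2) •
    -ContinuousLinearMap.fst ℝ ℝ ℝ)) h3 ?_
  refine ContinuousLinearMap.ext fun v => ?_
  simp only [_root_.add_apply, _root_.smul_apply, _root_.neg_apply, smul_eq_mul,
    ContinuousLinearMap.coe_fst', ContinuousLinearMap.coe_snd']
  rw [Real.rpow_sub_one hp.ne']
  ring

theorem gD (g : ℝ × ℝ → ℝ) (hg : g ∈ gA) : ∃ gb ∈ gA, ∃ gy ∈ gA, ∀ p : ℝ × ℝ, 0 < p.2 →
    HasFDerivAt g (gb p • ContinuousLinearMap.fst ℝ ℝ ℝ + gy p • ContinuousLinearMap.snd ℝ ℝ ℝ) p := by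
  refine Algebra.adjoin_induction (p := fun g _ => ∃ gb ∈ gA, ∃ gy ∈ gA, ∀ p : ℝ × ℝ, 0 < p.2 →
    HasFDerivAt g (gb p • ContinuousLinearMap.fst ℝ ℝ ℝ +
      gy p • ContinuousLinearMap.snd ℝ ℝ ℝ) p) ?_ ?_ ?_ ?_ hg
  · rintro f (rfl | rfl | rfl | rfl)
    · refine ⟨1, one_mem _, 0, zero_mem _, fun p _ => ?_⟩
      simpa using (hasFDerivAt_fst : HasFDerivAt (fun q : ℝ × ℝ => q.1) _ p)
    · refine ⟨0, zero_mem _, -(fI * fI), neg_mem (mul_mem fI_mem fI_mem), fun p hp => ?_⟩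
      have h0 : HasFDerivAt (fun q : ℝ × ℝ => q.2) (ContinuousLinearMap.snd ℝ ℝ ℝ) p :=
        hasFDerivAt_snd
      have h2 : HasFDerivAt (fun q : ℝ × ℝ => q.2⁻¹)
        ((-(p.2 ^ 2)⁻¹) • ContinuousLinearMap.snd ℝ ℝ ℝ) p :=
        (hasDerivAt_inv hp.ne').comp_hasFDerivAt p h0
      refine h2.congr_fderiv (ContinuousLinearMap.ext fun v => ?_)
      simp [sq, mul_inv]
    · refine ⟨-(fP * fL), neg_mem (mul_mem fP_mem fL_mem), -(fB * fP * fI),
        neg_mem (mul_mem (mul_mem fB_mem fP_mem) fI_mem), fun p hp => ?_⟩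
      exact fP_der p hp
    · refine ⟨0, zero_mem _, fI, fI_mem, fun p hp => ?_⟩
      have h0 : HasFDerivAt (fun q : ℝ × ℝ => q.2) (ContinuousLinearMap.snd ℝ ℝ ℝ) p :=
        hasFDerivAt_snd
      have h2 : HasFDerivAt (fun q : ℝ × ℝ => Real.log q.2)
        ((p.2⁻¹) • ContinuousLinearMap.snd ℝ ℝ ℝ) p :=
        (Real.hasDerivAt_log hp.ne').comp_hasFDerivAt p h0
      refine h2.congr_fderiv (ContinuousLinearMap.ext fun v => ?_)
      simp
  · intro r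
    refine ⟨0, zero_mem _, 0, zero_mem _, fun p _ => ?_⟩
    have h1 : HasFDerivAt (fun _ : ℝ × ℝ => r) (0 : ℝ × ℝ →L[ℝ] ℝ) p := hasFDerivAt_const _ _
    refine h1.congr_fderiv (ContinuousLinearMap.ext fun v => ?_)
    simp
  · rintro f g _ _ ⟨fb, hfb, fy, hfy, hf⟩ ⟨gb, hgb, gy, hgy, hg⟩
    refine ⟨fb + gb, add_mem hfb hgb, fy + gy, add_mem hfy hgy, fun p hp => ?_⟩
    have h1 := (hf p hp).add (hg p hp)
    refine h1.congr_fderiv (ContinuousLinearMap.ext fun v => ?_)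
    simp only [_root_.add_apply, _root_.smul_apply, smul_eq_mul, Pi.add_apply]
    ring
  · rintro f g hfA hgA ⟨fb, hfb, fy, hfy, hf⟩ ⟨gb, hgb, gy, hgy, hg⟩
    refine ⟨f * gb + g * fb, add_mem (mul_mem hfA hgb) (mul_mem hgA hfb),
      f * gy + g * fy, add_mem (mul_mem hfA hgy) (mul_mem hgA hfy), fun p hp => ?_⟩
    have h1 := (hf p hp).mul (hg p hp)
    refine h1.congr_fderiv (ContinuousLinearMap.ext fun v => ?_)
    simp only [_root_.add_apply, _root_.smul_apply, smul_eq_mul, Pi.add_apply, Pi.mul_apply]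
    ring

theorem gB (B : ℝ) (hB : 0 < B) (g : ℝ × ℝ → ℝ) (hg : g ∈ gA) : ∃ (C : ℝ) (n : ℕ), 0 ≤ C ∧
    ∀ p : ℝ × ℝ, 0 < p.1 → p.1 ≤ B → 0 < p.2 → p.2 ≤ 1 → |g p| ≤ C * (p.2⁻¹) ^ n := by
  refine Algebra.adjoin_induction (p := fun g _ => ∃ (C : ℝ) (n : ℕ), 0 ≤ C ∧
    ∀ p : ℝ × ℝ, 0 < p.1 → p.1 ≤ B → 0 < p.2 → p.2 ≤ 1 → |g p| ≤ C * (p.2⁻¹) ^ n) ?_ ?_ ?_ ?_ hg
  · rintro f (rfl | rfl | rfl | rfl)
    · refine ⟨B, 0, hB.le, fun p h1 h2 _ _ => ?_⟩
      simp only [pow_zero, mul_one]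
      rw [abs_of_pos h1]
      exact h2
    · refine ⟨1, 1, zero_le_one, fun p _ _ h3 _ => ?_⟩
      simp only [pow_one, one_mul]
      rw [abs_of_pos (inv_pos.mpr h3)]
    · refine ⟨1, ⌈B⌉₊, zero_le_one, fun p _ h2 h3 h4 => ?_⟩
      simp only [one_mul]
      rw [abs_of_pos (Real.rpow_pos_of_pos h3 _), Real.rpow_neg h3.le, ← Real.inv_rpow h3.le,
        ← Real.rpow_natCast]
      exact Real.rpow_le_rpow_of_exponent_le ((one_le_inv₀ h3).mpr h4) (h2.trans (Nat.le_ceil B))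
    · refine ⟨1, 1, zero_le_one, fun p _ _ h3 h4 => ?_⟩
      simp only [pow_one, one_mul]
      rw [abs_of_nonpos (Real.log_nonpos h3.le h4), ← Real.log_inv]
      exact Real.log_le_self (inv_pos.mpr h3).le
  · intro r
    refine ⟨|r|, 0, abs_nonneg _, fun p _ _ _ _ => ?_⟩
    simp only [pow_zero, mul_one]
    exact le_of_eq rfl
  · rintro f g _ _ ⟨C1, n1, hC1, h1⟩ ⟨C2, n2, hC2, h2⟩
    refine ⟨C1 + C2, n1 + n2, by positivity, fun p a b c d => ?_⟩
    have hu : 1 ≤ p.2⁻¹ := (one_le_inv₀ c).mpr d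
    have e1 : (p.2⁻¹) ^ n1 ≤ (p.2⁻¹) ^ (n1 + n2) := pow_le_pow_right₀ hu (by omega)
    have e2 : (p.2⁻¹) ^ n2 ≤ (p.2⁻¹) ^ (n1 + n2) := pow_le_pow_right₀ hu (by omega)
    have e3 := h1 p a b c d
    have e4 := h2 p a b c d
    have e5 := mul_le_mul_of_nonneg_left e1 hC1
    have e6 := mul_le_mul_of_nonneg_left e2 hC2
    have e7 : |(f + g) p| ≤ |f p| + |g p| := abs_add_le _ _
    linarith
  · rintro f g _ _ ⟨C1, n1, hC1, h1⟩ ⟨C2, n2, hC2, h2⟩
    refine ⟨C1 * C2, n1 + n2, by positivity, fun p a b c d => ?_⟩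
    have e3 := h1 p a b c d
    have e4 := h2 p a b c d
    have e7 : |(f * g) p| = |f p| * |g p| := abs_mul _ _
    rw [e7]
    refine (mul_le_mul e3 e4 (abs_nonneg _) (by
      have := inv_pos.mpr c
      positivity)).trans (le_of_eq ?_)
    rw [pow_add]
    ring

theorem gE (b1 : ℝ) (hb1 : 0 < b1) (n : ℕ) : ∃ C : ℝ, 0 ≤ C ∧ ∀ b y : ℝ, b1 ≤ b → 0 < y → y ≤ 1 →
    (y⁻¹) ^ n * Real.exp (-(y ^ (-b))) ≤ C * y ^ 2 := by
  set m : ℕ := ⌈((n : ℝ) + 2) / b1⌉₊ with hm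
  have hmb : (n : ℝ) + 2 ≤ b1 * m := by
    have h1 := Nat.le_ceil (((n : ℝ) + 2) / b1)
    rw [div_le_iff₀ hb1] at h1
    rw [hm]
    linarith
  refine ⟨(m.factorial : ℝ), by positivity, fun b y hb hy hy1 => ?_⟩
  have hu : 1 ≤ y⁻¹ := (one_le_inv₀ hy).mpr hy1
  have hu0 : 0 < y⁻¹ := by positivity
  set x : ℝ := (y⁻¹) ^ b1 with hx
  have hx0 : 0 < x := Real.rpow_pos_of_pos hu0 _
  have h1 : x ≤ y ^ (-b) := by
    rw [Real.rpow_neg hy.le, ← Real.inv_rpow hy.le]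
    exact Real.rpow_le_rpow_of_exponent_le hu hb
  have h2 : Real.exp (-(y ^ (-b))) ≤ Real.exp (-x) := Real.exp_le_exp.mpr (by linarith)
  have h3 : x ^ m / m.factorial ≤ Real.exp x := Real.pow_div_factorial_le_exp _ hx0.le m
  have h4 : (y⁻¹) ^ (n + 2) ≤ x ^ m := by
    rw [hx, ← Real.rpow_natCast ((y⁻¹) ^ b1) m, ← Real.rpow_mul hu0.le,
      ← Real.rpow_natCast (y⁻¹) (n + 2)]
    apply Real.rpow_le_rpow_of_exponent_le hu
    push_cast
    exact hmb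
  have hfac : (0 : ℝ) < m.factorial := by positivity
  have h5 : (y⁻¹) ^ (n + 2) ≤ m.factorial * Real.exp x := by
    rw [div_le_iff₀ hfac] at h3
    linarith
  have h6 : (y⁻¹) ^ (n + 2) * Real.exp (-x) ≤ m.factorial := by
    have h7 := mul_le_mul_of_nonneg_right h5 (Real.exp_pos (-x)).le
    rw [mul_assoc, ← Real.exp_add, add_neg_cancel, Real.exp_zero, mul_one] at h7
    exact h7
  have h8 : (y⁻¹) ^ n * Real.exp (-x) = ((y⁻¹) ^ (n + 2) * Real.exp (-x)) * y ^ 2 := by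
    rw [pow_add]
    field_simp
  calc (y⁻¹) ^ n * Real.exp (-(y ^ (-b))) ≤ (y⁻¹) ^ n * Real.exp (-x) :=
        mul_le_mul_of_nonneg_left h2 (by positivity)
    _ = ((y⁻¹) ^ (n + 2) * Real.exp (-x)) * y ^ 2 := h8
    _ ≤ m.factorial * y ^ 2 := mul_le_mul_of_nonneg_right h6 (by positivity)

/-- the functions of the class -/
noncomputable def HH (g : ℝ × ℝ → ℝ) (p : ℝ × ℝ) : ℝ :=
  if p.2 ≤ 0 then 0 else g p * Real.exp (-(p.2 ^ (-p.1)))

theorem hD (g : ℝ × ℝ → ℝ) (hg : g ∈ gA) : ∃ gb ∈ gA, ∃ gy ∈ gA, ∀ p : ℝ × ℝ, 0 < p.1 →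
    HasFDerivAt (HH g) (HH gb p • ContinuousLinearMap.fst ℝ ℝ ℝ +
      HH gy p • ContinuousLinearMap.snd ℝ ℝ ℝ) p := by
  obtain ⟨gb, hgb, gy, hgy, hder⟩ := gD g hg
  refine ⟨gb + g * (fP * fL), add_mem hgb (mul_mem hg (mul_mem fP_mem fL_mem)),
    gy + g * (fB * fP * fI), add_mem hgy (mul_mem hg (mul_mem (mul_mem fB_mem fP_mem) fI_mem)),
    fun p hp => ?_⟩
  rcases lt_trichotomy p.2 0 with h | h | h
  · have e0 : ∀ G : ℝ × ℝ → ℝ, HH G p = 0 := fun G => by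
      unfold HH
      rw [if_pos h.le]
    rw [e0, e0, zero_smul, zero_smul, add_zero]
    have hev : HH g =ᶠ[𝓝 p] fun _ => (0 : ℝ) := by
      have : ∀ᶠ q : ℝ × ℝ in 𝓝 p, q.2 < 0 := continuousAt_snd.eventually_lt_const h
      filter_upwards [this] with q hq
      unfold HH
      rw [if_pos hq.le]
    exact (hasFDerivAt_const (0 : ℝ) p).congr_of_eventuallyEq hev
  · have e0 : ∀ G : ℝ × ℝ → ℝ, HH G p = 0 := fun G => by
      unfold HH
      rw [if_pos h.le]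
    rw [e0, e0, zero_smul, zero_smul, add_zero]
    obtain ⟨C, n, hC, hCn⟩ := gB (2 * p.1) (by linarith) g hg
    obtain ⟨C', hC', hE⟩ := gE (p.1 / 2) (by linarith) n
    refine Asymptotics.IsBigO.hasFDerivAt (n := 2) ?_ (by norm_num)
    refine Asymptotics.IsBigO.of_bound (C * C') ?_
    have ev1 : ∀ᶠ q : ℝ × ℝ in 𝓝 p, p.1 / 2 < q.1 :=
      continuousAt_fst.eventually_const_lt (by linarith)
    have ev2 : ∀ᶠ q : ℝ × ℝ in 𝓝 p, q.1 < 2 * p.1 :=
      continuousAt_fst.eventually_lt_const (by linarith)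
    have ev3 : ∀ᶠ q : ℝ × ℝ in 𝓝 p, q.2 < 1 :=
      continuousAt_snd.eventually_lt_const (by rw [h]; norm_num)
    filter_upwards [ev1, ev2, ev3] with q h1 h2 h3
    rw [norm_pow, norm_norm, Real.norm_eq_abs]
    by_cases hq : q.2 ≤ 0
    · unfold HH
      rw [if_pos hq, abs_zero]
      positivity
    · have hq' : 0 < q.2 := not_le.mp hq
      have h4 := hCn q (by linarith) h2.le hq' h3.le
      have h5 := hE q.1 q.2 h1.le hq' h3.le
      have h6 : |HH g q| = |g q| * Real.exp (-(q.2 ^ (-q.1))) := by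
        unfold HH
        rw [if_neg hq, abs_mul, abs_of_pos (Real.exp_pos _)]
      have h7 : q.2 ≤ ‖q - p‖ := by
        have := norm_snd_le (q - p)
        rw [Prod.snd_sub, h, sub_zero, Real.norm_eq_abs] at this
        exact (le_abs_self _).trans this
      rw [h6]
      calc |g q| * Real.exp (-(q.2 ^ (-q.1)))
          ≤ (C * (q.2⁻¹) ^ n) * Real.exp (-(q.2 ^ (-q.1))) :=
            mul_le_mul_of_nonneg_right h4 (Real.exp_pos _).le
        _ = C * ((q.2⁻¹) ^ n * Real.exp (-(q.2 ^ (-q.1)))) := by ring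
        _ ≤ C * (C' * q.2 ^ 2) := mul_le_mul_of_nonneg_left h5 hC
        _ = C * C' * q.2 ^ 2 := by ring
        _ ≤ C * C' * ‖q - p‖ ^ 2 := by
            apply mul_le_mul_of_nonneg_left _ (by positivity)
            exact pow_le_pow_left₀ hq'.le h7 2
  · have hev : HH g =ᶠ[𝓝 p] fun q => g q * Real.exp (-(fP q)) := by
      have : ∀ᶠ q : ℝ × ℝ in 𝓝 p, 0 < q.2 := continuousAt_snd.eventually_const_lt h
      filter_upwards [this] with q hq
      unfold HH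
      rw [if_neg (not_le.mpr hq)]
    have h1 := (hder p h).mul ((fP_der p h).neg.exp)
    have e0 : ∀ G : ℝ × ℝ → ℝ, HH G p = G p * Real.exp (-(fP p)) := fun G => by
      unfold HH
      rw [if_neg (not_le.mpr h)]
    refine HasFDerivAt.congr_of_eventuallyEq ?_ hev
    rw [e0, e0]
    refine h1.congr_fderiv (ContinuousLinearMap.ext fun v => ?_)
    simp only [_root_.add_apply, _root_.smul_apply, _root_.neg_apply, smul_eq_mul, Pi.add_apply,
      Pi.mul_apply, Pi.neg_apply]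
    ring

theorem hCn (n : ℕ) : ∀ g ∈ gA, ContDiffOn ℝ n (HH g) {p | 0 < p.1} := by
  have hU : IsOpen {p : ℝ × ℝ | 0 < p.1} := isOpen_lt continuous_const continuous_fst
  induction n with
  | zero =>
    intro g hg
    obtain ⟨gb, -, gy, -, h⟩ := hD g hg
    rw [Nat.cast_zero, contDiffOn_zero]
    exact fun p hp => (h p hp).continuousAt.continuousWithinAt
  | succ n ih =>
    intro g hg
    obtain ⟨gb, hgb, gy, hgy, h⟩ := hD g hg
    rw [Nat.cast_add, Nat.cast_one, contDiffOn_succ_iff_fderiv_of_isOpen hU]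
    refine ⟨fun p hp => (h p hp).differentiableAt.differentiableWithinAt, ?_, ?_⟩
    · intro hn
      exact absurd hn (by simp)
    · have h1 : ContDiffOn ℝ n (fun p => HH gb p • ContinuousLinearMap.fst ℝ ℝ ℝ +
          HH gy p • ContinuousLinearMap.snd ℝ ℝ ℝ) {p : ℝ × ℝ | 0 < p.1} :=
        ((ih gb hgb).smul contDiffOn_const).add ((ih gy hgy).smul contDiffOn_const)
      exact h1.congr fun p hp => (h p hp).fderiv

end GyS258

theorem gyS : GyS_stmt := by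
  unfold GyS_stmt
  rw [contDiffOn_infty]
  intro n
  have h1 := GyS258.hCn n 1 (one_mem _)
  have h2 : ContDiffOn ℝ n (fun p : ℝ × ℝ => (1 / (1 + p.1), p.2)) {p | -1 < p.1} := by
    refine ContDiffOn.prodMk ?_ contDiff_snd.contDiffOn
    refine ContDiffOn.div contDiffOn_const (contDiff_const.add contDiff_fst).contDiffOn ?_
    intro p hp
    have : -1 < p.1 := hp
    exact ne_of_gt (by linarith)
  have h3 : Set.MapsTo (fun p : ℝ × ℝ => (1 / (1 + p.1), p.2)) {p | -1 < p.1} {p | 0 < p.1} := by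
    intro p hp
    have : -1 < p.1 := hp
    show 0 < 1 / (1 + p.1)
    exact one_div_pos.mpr (by linarith)
  have h4 := (contDiffOn_const (c := Real.exp 100)).mul (h1.comp h2 h3)
  refine h4.congr fun p _ => ?_
  show Gy p.1 p.2 = Real.exp 100 * GyS258.HH 1 (1 / (1 + p.1), p.2)
  unfold Gy GyS258.HH
  split_ifs with hy
  · simp
  · rw [sub_eq_add_neg, Real.exp_add]
    simp

end DbarC.JGS
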