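import Pool.Agent.H314.DC.St1
import Pool.Agent.H314.DN.HS1

set_option autoImplicit false

open MeasureTheory Complex Filter Topology
open scoped ContDiff InnerProductSpace ENNReal ComplexConjugate

namespace DbarC.JHA
open DbarN DbarN.JHS1

theorem hs1S (hW : WS1_stmt) : HS1S_stmt := by
  intro Ω hΩo hPS hΩb
  have hK : IsCompact (closure Ω) := hΩb.isCompact_closure
  obtain ⟨R, hR⟩ := hΩb.subset_closedBall 0
  have hB : ∀ x ∈ Ω, nsq x ≤ 3 * R ^ 2 := by
    intro x hx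
    have h1 : ‖x‖ ≤ R := by
      have := hR hx
      rwa [mem_closedBall_zero_iff] at this
    unfold nsq
    have h2 : ∀ j, ‖x j‖ ^ 2 ≤ R ^ 2 := fun j =>
      pow_le_pow_left₀ (norm_nonneg _) ((norm_le_pi_norm x j).trans h1) 2
    rw [Fin.sum_univ_three]
    linarith [h2 0, h2 1, h2 2]
  refine ⟨Real.exp (3 * R ^ 2), (Real.exp_pos _).le, ?_⟩
  intro v U hv hU hKU hcurl η hη
  obtain ⟨χ, V, hχs, hχc, hχ01, hVo, hKV, hVU, hχ1⟩ := cutoff (closure Ω) U hK hU hKU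
  obtain ⟨P, hPs, hPc, hP0, hPK, hPV⟩ := hPS V hVo hKV
  have hHP : ∀ (x : E3) (a : Fin 3 → ℂ), 0 ≤ (∑ j, ∑ k, Hess P j k x * a j * conj (a k)).re := by
    intro x a
    have := hPc x a
    rwa [zero_mul] at this
  have hvT : ∀ j, Tst (v j) := fun j => ⟨(hv j).smooth, (hv j).compact⟩
  have hχs' : ContDiff ℝ ∞ (fun x => (χ x : ℂ)) := Complex.ofRealCLM.contDiff.comp hχs
  let g : Fin 3 → E3 → ℂ := fun j x => (χ x : ℂ) * v j x
  have hgT : ∀ j, Tst (g j) := fun j => (hvT j).mulL hχs'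
  have hg : ∀ j, IsTest Set.univ (g j) := fun j => ⟨(hgT j).sm, (hgT j).cp, Set.subset_univ _⟩
  have hgV : ∀ j, ∀ x ∈ V, g j x = v j x := by
    intro j x hx
    change (χ x : ℂ) * v j x = v j x
    rw [hχ1 x hx]
    simp
  let cu : Fin 3 → E3 → ℂ := fun i x => dbar (i + 1) (g (i + 2)) x - dbar (i + 2) (g (i + 1)) x
  have hcuT : ∀ i, Tst (cu i) := by
    intro i
    have h1 := ((hgT (i + 2)).dbar (i + 1)).add (((hgT (i + 1)).dbar (i + 2)).neg)
    have h2 : cu i = fun x => dbar (i + 1) (g (i + 2)) x + - dbar (i + 2) (g (i + 1)) x := by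
      funext x
      exact sub_eq_add_neg _ _
    rw [h2]
    exact h1
  have hcu0 : ∀ i, ∀ x ∈ V, cu i x = 0 := by
    intro i x hx
    change dbar (i + 1) (g (i + 2)) x - dbar (i + 2) (g (i + 1)) x = 0
    rw [dbar_congr_near hVo (hgV (i + 2)) (i + 1) x hx, dbar_congr_near hVo (hgV (i + 1)) (i + 2) x hx]
    exact hcurl x (hVU hx) i
  have hlim : Tendsto (fun N : ℕ => ∑ i : Fin 3, ∫ x, ‖cu i x‖ ^ 2 * Real.exp (-(nsq x + N * P x)))
      atTop (𝓝 0) := by
    have h1 := tendsto_finsetSum (f := fun (i : Fin 3) (N : ℕ) =>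
      ∫ x, ‖cu i x‖ ^ 2 * Real.exp (-(nsq x + N * P x))) (x := atTop) (a := fun _ => (0 : ℝ))
      Finset.univ (fun i _ => lim_curl (hcuT i) P hPs.continuous hP0 V (hcu0 i) hPV)
    simpa using h1
  have hpos' : 0 < η / Real.exp (3 * R ^ 2) := by positivity
  obtain ⟨N, hN⟩ := (hlim.eventually (gt_mem_nhds hpos')).exists
  have hΦs : ContDiff ℝ ∞ (fun x => nsq x + (N : ℝ) * P x) := nsq_smooth.add (contDiff_const.mul hPs)
  obtain ⟨f, e, hf2, he2, hweak, hfe, hee⟩ := hW (fun x => nsq x + (N : ℝ) * P x) hΦs 1 one_pos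
    (hpos P hPs N (Nat.cast_nonneg N) hHP) g hg
  have hΦB : ∀ x ∈ Ω, nsq x + (N : ℝ) * P x ≤ 3 * R ^ 2 := by
    intro x hx
    rw [hPK x hx, mul_zero, add_zero]
    exact hB x hx
  have hΦ0 : ∀ x, 0 ≤ nsq x + (N : ℝ) * P x := fun x =>
    add_nonneg (nsq_nonneg x) (mul_nonneg (Nat.cast_nonneg N) (hP0 x))
  have rf := restr Ω hΩo.measurableSet _ hΦs.continuous _ hΦB f hf2
  have re := fun j => restr Ω hΩo.measurableSet _ hΦs.continuous _ hΦB (e j) (he2 j)
  refine ⟨f, e, rf.1, fun j => (re j).1, ?_, ?_, ?_⟩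
  · intro j φ hφ
    have hφ' : IsTest Set.univ φ := ⟨hφ.smooth, hφ.compact, Set.subset_univ _⟩
    have h1 := hweak j φ hφ'
    rw [setIntegral_eq_integral_of_forall_compl_eq_zero (fun x hx => by
      rw [dbar_zero_off hφ j x hx, mul_zero]), h1,
      setIntegral_eq_integral_of_forall_compl_eq_zero (fun x hx => by
      rw [zero_off hφ x hx, mul_zero])]
    congr 1
    apply integral_congr_ae
    refine Filter.Eventually.of_forall (fun x => ?_)
    change (g j x - e j x) * φ x = (v j x - e j x) * φ x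
    by_cases hx : x ∈ Ω
    · rw [hgV j x (hKV (subset_closure hx))]
    · rw [zero_off hφ x hx, mul_zero, mul_zero]
  · refine rf.2.trans ?_
    apply mul_le_mul_of_nonneg_left _ (Real.exp_pos _).le
    rw [one_mul] at hfe
    refine hfe.trans ?_
    apply Finset.sum_le_sum
    intro j _
    apply integral_mono ((hgT j).normsq_exp hΦs.continuous) (hvT j).normsq
    intro x
    change ‖g j x‖ ^ 2 * Real.exp (-(nsq x + (N : ℝ) * P x)) ≤ ‖v j x‖ ^ 2
    have h1 : ‖g j x‖ ≤ ‖v j x‖ := by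
      change ‖(χ x : ℂ) * v j x‖ ≤ ‖v j x‖
      rw [norm_mul, Complex.norm_real, Real.norm_eq_abs, abs_of_nonneg (hχ01 x).1]
      calc χ x * ‖v j x‖ ≤ 1 * ‖v j x‖ := mul_le_mul_of_nonneg_right (hχ01 x).2 (norm_nonneg _)
        _ = _ := one_mul _
    have h2 : Real.exp (-(nsq x + (N : ℝ) * P x)) ≤ 1 := by
      apply Real.exp_le_one_iff.2
      linarith [hΦ0 x]
    calc ‖g j x‖ ^ 2 * Real.exp (-(nsq x + (N : ℝ) * P x)) ≤ ‖v j x‖ ^ 2 * 1 :=
          mul_le_mul (pow_le_pow_left₀ (norm_nonneg _) h1 2) h2 (Real.exp_pos _).le (by positivity)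
      _ = _ := mul_one _
  · calc ∑ j, ∫ x in Ω, ‖e j x‖ ^ 2 ≤ ∑ j, Real.exp (3 * R ^ 2) *
          ∫ x, ‖e j x‖ ^ 2 * Real.exp (-(nsq x + (N : ℝ) * P x)) :=
          Finset.sum_le_sum (fun j _ => (re j).2)
      _ = Real.exp (3 * R ^ 2) * (1 * ∑ j, ∫ x, ‖e j x‖ ^ 2 * Real.exp (-(nsq x + (N : ℝ) * P x))) := by
          rw [one_mul, Finset.mul_sum]
      _ ≤ Real.exp (3 * R ^ 2) * (η / Real.exp (3 * R ^ 2)) := by
          apply mul_le_mul_of_nonneg_left _ (Real.exp_pos _).le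
          exact hee.trans hN.le
      _ = η := by
          field_simp

end DbarC.JHA
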