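import Pool.Agent.H314.DC.St1

set_option autoImplicit false

open MeasureTheory Complex Filter Topology
open scoped ContDiff InnerProductSpace ENNReal ComplexConjugate

namespace DbarC.JHB
open DbarN

theorem hor1S_sum (p q p' q' : Fin 3) (F : Fin 3 → Fin 3 → ℂ) :
    ∑ a, ∑ b, (((if a = p ∧ b = q then (1:ℂ) else 0) - (if a = p' ∧ b = q' then 1 else 0)) * F a b)
      = F p q - F p' q' := by
  have h : ∀ p q : Fin 3, ∑ a, ∑ b, ((if a = p ∧ b = q then (1:ℂ) else 0) * F a b) = F p q := by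
    intro p q
    rw [Finset.sum_eq_single p, Finset.sum_eq_single q]
    · simp
    · intro b _ hb
      simp [hb]
    · intro h'
      exact absurd (Finset.mem_univ _) h'
    · intro a _ ha
      simp [ha]
    · intro h'
      exact absurd (Finset.mem_univ _) h'
  simp only [sub_mul, Finset.sum_sub_distrib, h]

theorem hor1S_sq {μ : Measure E3} {f : E3 → ℂ} (hf : MemLp f 2 μ) :
    (eLpNorm f 2 μ).toReal ^ 2 = ∫ x, ‖f x‖ ^ 2 ∂μ := by
  rw [hf.eLpNorm_eq_integral_rpow_norm (by norm_num) (by norm_num)]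
  have h1 : (fun a => ‖f a‖ ^ (2 : ℝ≥0∞).toReal) = fun a => ‖f a‖ ^ 2 := by
    funext a
    rw [ENNReal.toReal_ofNat, Real.rpow_ofNat]
  rw [h1]
  have h2 : 0 ≤ ∫ a, ‖f a‖ ^ 2 ∂μ := integral_nonneg fun a => by positivity
  rw [ENNReal.toReal_ofReal (Real.rpow_nonneg h2 _), ENNReal.toReal_ofNat, ← Real.rpow_natCast,
    ← Real.rpow_mul h2]
  norm_num

theorem hor1S_eta (Ω : Set E3) (x : Form Ω) (δ : ℝ) (hδ : 0 ≤ δ) (h : ∑ j, ‖x j‖ ^ 2 ≤ δ ^ 2) :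
    ‖x‖ ≤ δ := by
  rw [← PiLp.norm_sq_eq_of_L2] at h
  exact (sq_le_sq₀ (norm_nonneg _) hδ).1 h

/-- a form from its coefficient functions -/
noncomputable def hor1S_fm (Ω : Set E3) (v : Fin 3 → E3 → ℂ)
    (hv : ∀ j, MemLp (v j) 2 (volume.restrict Ω)) : Form Ω :=
  WithLp.toLp 2 (fun j => (hv j).toLp (v j))

theorem hor1S_fm_apply (Ω : Set E3) (v : Fin 3 → E3 → ℂ)
    (hv : ∀ j, MemLp (v j) 2 (volume.restrict Ω)) (j : Fin 3) :
    hor1S_fm Ω v hv j = (hv j).toLp (v j) := rfl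

theorem hor1S_fm_sub (Ω : Set E3) (v e : Fin 3 → E3 → ℂ)
    (hv : ∀ j, MemLp (v j) 2 (volume.restrict Ω)) (he : ∀ j, MemLp (e j) 2 (volume.restrict Ω)) :
    hor1S_fm Ω (fun j => v j - e j) (fun j => (hv j).sub (he j)) =
      hor1S_fm Ω v hv - hor1S_fm Ω e he := by
  apply PiLp.ext
  intro j
  rw [hor1S_fm_apply, PiLp.sub_apply, hor1S_fm_apply, hor1S_fm_apply]
  exact MemLp.toLp_sub (hv j) (he j)

theorem hor1S_n1 (Ω : Set E3) (v : Fin 3 → E3 → ℂ)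
    (hv : ∀ j, MemLp (v j) 2 (volume.restrict Ω)) (u : Form Ω) (η : ℝ) (hη : 0 < η)
    (h : ∀ j, eLpNorm (v j - (u j : E3 → ℂ)) 2 (volume.restrict Ω) ≤ ENNReal.ofReal (η / 4)) :
    ‖hor1S_fm Ω v hv - u‖ ≤ η / 2 := by
  apply hor1S_eta Ω _ _ (by linarith)
  have h3 : ∀ j : Fin 3, ‖(hor1S_fm Ω v hv - u) j‖ ^ 2 ≤ (η / 4) ^ 2 := by
    intro j
    rw [PiLp.sub_apply, hor1S_fm_apply]
    apply pow_le_pow_left₀ (norm_nonneg _)
    rw [Lp.norm_def]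
    have h5 : (((hv j).toLp (v j) - u j : L2 Ω) : E3 → ℂ) =ᵐ[volume.restrict Ω]
        v j - (u j : E3 → ℂ) := by
      filter_upwards [Lp.coeFn_sub ((hv j).toLp (v j)) (u j), (hv j).coeFn_toLp] with x hx hx'
      rw [hx, Pi.sub_apply, hx', Pi.sub_apply]
    rw [eLpNorm_congr_ae h5]
    exact ENNReal.toReal_le_of_le_ofReal (by linarith) (h j)
  calc ∑ j, ‖(hor1S_fm Ω v hv - u) j‖ ^ 2 ≤ ∑ _j : Fin 3, (η / 4) ^ 2 :=
        Finset.sum_le_sum fun j _ => h3 j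
    _ ≤ (η / 2) ^ 2 := by
        rw [Finset.sum_const, Finset.card_univ, Fintype.card_fin, nsmul_eq_mul]
        push_cast
        nlinarith [sq_nonneg η]

theorem hor1S_n2 (Ω : Set E3) (e : Fin 3 → E3 → ℂ)
    (he : ∀ j, MemLp (e j) 2 (volume.restrict Ω)) (η : ℝ) (hη : 0 < η)
    (h : ∑ j, ∫ x in Ω, ‖e j x‖ ^ 2 ≤ (η / 2) ^ 2) :
    ‖hor1S_fm Ω e he‖ ≤ η / 2 := by
  apply hor1S_eta Ω _ _ (by linarith)
  refine le_trans (le_of_eq ?_) h
  refine Finset.sum_congr rfl fun j _ => ?_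
  rw [hor1S_fm_apply, Lp.norm_toLp, hor1S_sq (he j)]

theorem hor1S_dbar (Ω : Set E3) (v : Fin 3 → E3 → ℂ) (f : E3 → ℂ)
    (hv : ∀ j, MemLp (v j) 2 (volume.restrict Ω)) (hfm : MemLp f 2 (volume.restrict Ω))
    (hfe : ∀ j φ, IsTest Ω φ → ∫ x in Ω, f x * dbar j φ x = - ∫ x in Ω, v j x * φ x) :
    IsDbar0 Ω (hfm.toLp f) (hor1S_fm Ω v hv) := by
  intro j φ hφ
  have h1 : ∫ x in Ω, (hfm.toLp f : E3 → ℂ) x * dbar j φ x = ∫ x in Ω, f x * dbar j φ x := by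
    apply integral_congr_ae
    filter_upwards [hfm.coeFn_toLp] with x hx
    rw [hx]
  have h2 : ∫ x in Ω, (((hv j).toLp (v j) : L2 Ω) : E3 → ℂ) x * φ x =
      ∫ x in Ω, v j x * φ x := by
    apply integral_congr_ae
    filter_upwards [(hv j).coeFn_toLp] with x hx
    rw [hx]
  rw [h1, hfe j φ hφ, hor1S_fm_apply, h2]

theorem hor1S_asm (Ω : Set E3) (u : Form Ω) (v e : Fin 3 → E3 → ℂ) (f : E3 → ℂ)
    (hv : ∀ j, MemLp (v j) 2 (volume.restrict Ω)) (he : ∀ j, MemLp (e j) 2 (volume.restrict Ω))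
    (hfm : MemLp f 2 (volume.restrict Ω))
    (hfe : ∀ j φ, IsTest Ω φ → ∫ x in Ω, f x * dbar j φ x = - ∫ x in Ω, (v j x - e j x) * φ x)
    (η K : ℝ) (hη : 0 < η) (hK : 0 ≤ K) (hf : ∫ x in Ω, ‖f x‖ ^ 2 ≤ K ^ 2)
    (hvu : ∀ j, eLpNorm (v j - (u j : E3 → ℂ)) 2 (volume.restrict Ω) ≤ ENNReal.ofReal (η / 4))
    (hen : ∑ j, ∫ x in Ω, ‖e j x‖ ^ 2 ≤ (η / 2) ^ 2) :
    ∃ (f' : L2 Ω) (g' : Form Ω), IsDbar0 Ω f' g' ∧ ‖f'‖ ≤ K + η ∧ ‖g' - u‖ ≤ η := by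
  refine ⟨hfm.toLp f, hor1S_fm Ω (fun j => v j - e j) (fun j => (hv j).sub (he j)), ?_, ?_, ?_⟩
  · exact hor1S_dbar Ω _ f _ hfm hfe
  · have h1 : ‖hfm.toLp f‖ ^ 2 ≤ K ^ 2 := by
      rw [Lp.norm_toLp, hor1S_sq hfm]
      exact hf
    have h2 := (sq_le_sq₀ (norm_nonneg _) hK).1 h1
    linarith
  · rw [hor1S_fm_sub Ω v e hv he]
    have h1 : hor1S_fm Ω v hv - hor1S_fm Ω e he - u = (hor1S_fm Ω v hv - u) - hor1S_fm Ω e he := by
      abel
    rw [h1]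
    refine (norm_sub_le _ _).trans ?_
    have h2 := hor1S_n1 Ω v hv u η hη hvu
    have h3 := hor1S_n2 Ω e he η hη hen
    linarith

theorem hor1S_closed (Ω : Set E3) (u : Fin 3 → E3 → ℂ) (w : Fin 3 → E3 → ℂ) (g : E3 → ℂ)
    (Mg : E3 → ℂ) (r : ℝ) (U : Set E3) (i : Fin 3)
    (_hum : ∀ i, MemLp (u i) 2 (volume.restrict Ω)) (_hgm : MemLp g 2 (volume.restrict Ω))
    (hUr : ∀ (α : Fin 3 → Fin 3 → ℂ),
        (∀ φ, IsTest Ω φ →
          ∫ x in Ω, ∑ i, u i x * (∑ j, α i j * dbar j φ x) = - ∫ x in Ω, g x * φ x) →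
        ∀ x ∈ U, ∑ i, ∑ j, α i j * dbar j (w i) x = (r : ℂ) * Mg x)
    (hu : ∀ φ : E3 → ℂ, IsTest Ω φ →
    ∫ x in Ω, (u (i + 2) x * dbar (i + 1) φ x - u (i + 1) x * dbar (i + 2) φ x)
      = - ∫ x in Ω, g x * φ x) (hMg : Mg = 0) :
    ∀ x ∈ U, dbar (i + 1) (w (i + 2)) x - dbar (i + 2) (w (i + 1)) x = 0 := by
  intro x hx
  have h1 := hUr (fun a b => (if a = i + 2 ∧ b = i + 1 then (1:ℂ) else 0) -
    (if a = i + 1 ∧ b = i + 2 then 1 else 0))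
    (by
      intro φ hφ
      rw [← hu φ hφ]
      congr 1
      funext y
      have h2 := hor1S_sum (i + 2) (i + 1) (i + 1) (i + 2) (fun a b => u a y * dbar b φ y)
      rw [← h2]
      refine Finset.sum_congr rfl fun a _ => ?_
      rw [Finset.mul_sum]
      refine Finset.sum_congr rfl fun b _ => ?_
      ring) x hx
  rw [hor1S_sum (i + 2) (i + 1) (i + 1) (i + 2) (fun a b => dbar b (w a) x)] at h1
  rw [hMg, Pi.zero_apply, mul_zero] at h1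
  exact h1

theorem hor1S_zero (Ω : Set E3) (g Mg : E3 → ℂ) (r : ℝ) (hr : 0 < r)
    (hT : IsTest Set.univ Mg) (hg : g =ᵐ[volume.restrict Ω] 0)
    (hN : ENNReal.ofReal (r ^ 3) * eLpNorm Mg 2 volume ≤ eLpNorm g 2 (volume.restrict Ω)) :
    Mg = 0 := by
  have h5 : eLpNorm g 2 (volume.restrict Ω) = 0 := by
    rw [eLpNorm_congr_ae hg]
    exact eLpNorm_zero
  rw [h5] at hN
  have h7 : eLpNorm Mg 2 volume = 0 := by
    have h8 := le_antisymm hN bot_le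
    rcases mul_eq_zero.1 h8 with h9 | h9
    · exfalso
      rw [ENNReal.ofReal_eq_zero] at h9
      have := pow_pos hr 3
      linarith
    · exact h9
  have hcont := hT.smooth.continuous
  rw [eLpNorm_eq_zero_iff hcont.aestronglyMeasurable (by norm_num)] at h7
  exact (Continuous.ae_eq_iff_eq (volume : Measure E3) hcont continuous_zero).1 h7

theorem hor1S_bound (Ω : Set E3) (u v : E3 → ℂ) (r : ℝ) (hr : 1 / 2 < r)
    (hu : MemLp u 2 (volume.restrict Ω)) (hv : MemLp v 2 (volume : Measure E3))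
    (hN : ENNReal.ofReal (r ^ 3) * eLpNorm v 2 volume ≤ eLpNorm u 2 (volume.restrict Ω)) :
    ∫ x, ‖v x‖ ^ 2 ≤ 64 * (eLpNorm u 2 (volume.restrict Ω)).toReal ^ 2 := by
  rw [← hor1S_sq hv]
  have h4 : ENNReal.toReal (ENNReal.ofReal (r ^ 3) * eLpNorm v 2 volume) ≤
      (eLpNorm u 2 (volume.restrict Ω)).toReal :=
    ENNReal.toReal_mono hu.2.ne hN
  rw [ENNReal.toReal_mul, ENNReal.toReal_ofReal (pow_pos (by linarith) 3).le] at h4
  have h5 : (1 / 8 : ℝ) ≤ r ^ 3 := by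
    have := pow_le_pow_left₀ (by norm_num : (0:ℝ) ≤ 1 / 2) hr.le 3
    norm_num at this
    linarith
  have h6 : 0 ≤ (eLpNorm v 2 (volume : Measure E3)).toReal := ENNReal.toReal_nonneg
  have h7 : (eLpNorm v 2 (volume : Measure E3)).toReal ≤
      8 * (eLpNorm u 2 (volume.restrict Ω)).toReal := by
    nlinarith
  calc (eLpNorm v 2 (volume : Measure E3)).toReal ^ 2 ≤
        (8 * (eLpNorm u 2 (volume.restrict Ω)).toReal) ^ 2 := pow_le_pow_left₀ h6 h7 2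
    _ = 64 * (eLpNorm u 2 (volume.restrict Ω)).toReal ^ 2 := by ring

theorem hor1S (hS : HS1S_stmt) (hM : MollS_stmt) (hC : Cl0_stmt) (Ω : Set E3) (ho : IsOpen Ω)
    (hs : StarS Ω) (hb : Bornology.IsBounded Ω) (h0 : (0 : E3) ∈ Ω) (hP : PS_prop Ω) :
    Hor1S_prop Ω := by
  obtain ⟨C, hC0, hsol⟩ := hS Ω ho hP hb
  obtain ⟨M, r, B, hr1, hr01, hMf', hMU, -⟩ := hM Ω ho hs hb h0
  have hMf : ∀ f, MemLp f 2 (volume.restrict Ω) →
      (∀ n, IsTest Set.univ (M n f)) ∧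
      Tendsto (fun n => eLpNorm (M n f - f) 2 (volume.restrict Ω)) atTop (𝓝 0) ∧
      ∀ n, ENNReal.ofReal (r n ^ 3) * eLpNorm (M n f) 2 volume ≤ eLpNorm f 2 (volume.restrict Ω) :=
    fun f hf => ⟨(hMf' f hf).1, (hMf' f hf).2.2.1, (hMf' f hf).2.2.2⟩
  refine ⟨8 * Real.sqrt C, by positivity, ?_⟩
  intro u hu
  apply hC Ω ho u (8 * Real.sqrt C * ‖u‖) (by positivity)
  intro η hη
  obtain ⟨w, hw⟩ : ∃ w : Fin 3 → E3 → ℂ, ∀ j, w j = (u j : E3 → ℂ) := ⟨fun j => u j, fun _ => rfl⟩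
  obtain ⟨g, hg⟩ : ∃ g : Fin 3 → E3 → ℂ, ∀ j, g j = ((0 : Form Ω) j : E3 → ℂ) :=
    ⟨fun j => (0 : Form Ω) j, fun _ => rfl⟩
  have hgm : ∀ j, MemLp (g j) 2 (volume.restrict Ω) := fun j => by
    rw [hg j]
    exact Lp.memLp _
  have hg0 : ∀ j, g j =ᵐ[volume.restrict Ω] 0 := fun j => by
    rw [hg j]
    exact Lp.coeFn_zero _ _ _
  have hwn : ∀ j, (eLpNorm (w j) 2 (volume.restrict Ω)).toReal = ‖u j‖ := fun j => by
    rw [hw j, Lp.norm_def]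
  have hwm : ∀ j, MemLp (w j) 2 (volume.restrict Ω) := fun j => by
    rw [hw j]
    exact Lp.memLp _
  have hwu : ∀ (i : Fin 3) (φ : E3 → ℂ), IsTest Ω φ →
    ∫ x in Ω, (w (i + 2) x * dbar (i + 1) φ x - w (i + 1) x * dbar (i + 2) φ x)
      = - ∫ x in Ω, g i x * φ x := by
    intro i φ hφ
    rw [hw, hw, hg]
    exact hu i φ hφ
  -- choose `n`
  have e1 : ∀ᶠ n in atTop, (1 / 2 : ℝ) < r n := hr1.eventually (lt_mem_nhds (by norm_num))
  have e2 : ∀ j : Fin 3, ∀ᶠ n in atTop,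
      eLpNorm (M n (w j) - w j) 2 (volume.restrict Ω) < ENNReal.ofReal (η / 4) := fun j =>
    ((hMf (w j) (hwm j)).2.1).eventually (gt_mem_nhds (ENNReal.ofReal_pos.2 (by linarith)))
  have e2' : ∀ᶠ n in atTop, ∀ j : Fin 3,
      eLpNorm (M n (w j) - w j) 2 (volume.restrict Ω) < ENNReal.ofReal (η / 4) :=
    Filter.eventually_all.2 e2
  obtain ⟨n, hn1, hn2⟩ := (e1.and e2').exists
  obtain ⟨U, hUo, hUc, hUr⟩ := hMU n
  have hrn := hr01 n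
  -- the smooth forms
  have hvT : ∀ j, IsTest Set.univ (M n (w j)) := fun j => (hMf (w j) (hwm j)).1 n
  have hvm : ∀ j, MemLp (M n (w j)) 2 (volume : Measure E3) := fun j =>
    (hvT j).smooth.continuous.memLp_of_hasCompactSupport (hvT j).compact
  have hvmΩ : ∀ j, MemLp (M n (w j)) 2 (volume.restrict Ω) := fun j => (hvm j).restrict Ω
  -- closedness
  have hclosed : ∀ x ∈ U, ∀ i : Fin 3,
      dbar (i + 1) (M n (w (i + 2))) x - dbar (i + 2) (M n (w (i + 1))) x = 0 := by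
    intro x hx i
    have hM0 : M n (g i) = 0 := by
      obtain ⟨hT, -, hN⟩ := hMf (g i) (hgm i)
      exact hor1S_zero Ω (g i) (M n (g i)) (r n) hrn.1 (hT n) (hg0 i) (hN n)
    exact hor1S_closed Ω w (fun j => M n (w j)) (g i) (M n (g i)) (r n) U i hwm (hgm i)
      (fun α h => hUr α w (g i) hwm (hgm i) h) (hwu i) hM0 x hx
  obtain ⟨f, e, hfm, hem, hfe, hfn, hen⟩ := hsol (fun j => M n (w j)) U hvT hUo hUc hclosed
    ((η / 2) ^ 2) (by positivity)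
  refine hor1S_asm Ω u (fun j => M n (w j)) e f hvmΩ hem hfm hfe η (8 * Real.sqrt C * ‖u‖) hη
    (by positivity) ?_ ?_ hen
  · refine hfn.trans ?_
    have h2 : ∀ j, ∫ x, ‖M n (w j) x‖ ^ 2 ≤ 64 * ‖u j‖ ^ 2 := by
      intro j
      have h3 := hor1S_bound Ω (w j) (M n (w j)) (r n) hn1 (hwm j) (hvm j)
        ((hMf (w j) (hwm j)).2.2 n)
      rw [hwn j] at h3
      exact h3
    calc C * ∑ j, ∫ x, ‖M n (w j) x‖ ^ 2 ≤ C * ∑ j, 64 * ‖u j‖ ^ 2 :=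
          mul_le_mul_of_nonneg_left (Finset.sum_le_sum fun j _ => h2 j) hC0
      _ = (8 * Real.sqrt C * ‖u‖) ^ 2 := by
          rw [← Finset.mul_sum, ← PiLp.norm_sq_eq_of_L2, mul_pow, mul_pow, Real.sq_sqrt hC0]
          ring
  · intro j
    rw [← hw j]
    exact (hn2 j).le

end DbarC.JHB
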