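import Pool.Agent.H314.DC.St1
import Pool.Agent.H314.DN.HS2
import Pool.Agent.H314.DN.HE2

set_option autoImplicit false

open MeasureTheory Complex Filter Topology
open scoped ContDiff InnerProductSpace ENNReal ComplexConjugate

namespace DbarC.JHC
open DbarN

theorem hs2V_transfer {Ω : Set E3} (hΩ : IsOpen Ω) {Φ : E3 → ℝ} (hΦ : Continuous Φ) {L : ℝ}
    (hL : ∀ x ∈ Ω, Φ x ≤ L) {f : E3 → ℂ}
    (hf : MemLp (fun x => f x * Real.exp (-Φ x / 2)) 2 (volume : Measure E3)) :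
    MemLp f 2 (volume.restrict Ω) ∧
      Integrable (fun x => ‖f x‖ ^ 2 * Real.exp (-Φ x)) (volume : Measure E3) ∧
      ∫ x in Ω, ‖f x‖ ^ 2 ≤ Real.exp L * ∫ x, ‖f x‖ ^ 2 * Real.exp (-Φ x) := by
  have hmeas : AEStronglyMeasurable f (volume : Measure E3) := by
    have h1 : f = fun x => (f x * Real.exp (-Φ x / 2)) * ((Real.exp (Φ x / 2) : ℝ) : ℂ) := by
      funext x
      rw [mul_assoc, ← Complex.ofReal_mul, ← Real.exp_add]
      have : -Φ x / 2 + Φ x / 2 = 0 := by ring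
      rw [this]
      simp
    rw [h1]
    refine hf.aestronglyMeasurable.mul ?_
    exact (Complex.continuous_ofReal.comp
      (Real.continuous_exp.comp (hΦ.div_const 2))).aestronglyMeasurable
  have hn : ∀ x, ‖f x * Real.exp (-Φ x / 2)‖ = ‖f x‖ * Real.exp (-Φ x / 2) := by
    intro x
    rw [norm_mul, Complex.norm_real, Real.norm_eq_abs, abs_of_pos (Real.exp_pos _)]
  have hn2 : ∀ x, ‖f x * Real.exp (-Φ x / 2)‖ ^ 2 = ‖f x‖ ^ 2 * Real.exp (-Φ x) := by
    intro x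
    rw [hn, mul_pow, ← Real.exp_nat_mul]
    congr 2
    push_cast
    ring
  have hM : MemLp f 2 (volume.restrict Ω) := by
    refine (hf.restrict Ω).of_le_mul (c := Real.exp (L / 2)) hmeas.restrict ?_
    refine (ae_restrict_iff' hΩ.measurableSet).mpr (Filter.Eventually.of_forall fun x hx => ?_)
    rw [hn, mul_comm ‖f x‖, ← mul_assoc, ← Real.exp_add]
    have h1 : 0 ≤ L / 2 + -Φ x / 2 := by linarith [hL x hx]
    have h2 := Real.one_le_exp h1
    exact le_mul_of_one_le_left (norm_nonneg _) h2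
  have hi2 : Integrable (fun x => ‖f x‖ ^ 2 * Real.exp (-Φ x)) (volume : Measure E3) := by
    have h1 := (memLp_two_iff_integrable_sq_norm hf.aestronglyMeasurable).mp hf
    simpa only [hn2] using h1
  have hi1 : Integrable (fun x => ‖f x‖ ^ 2) ((volume : Measure E3).restrict Ω) :=
    (memLp_two_iff_integrable_sq_norm hM.aestronglyMeasurable).mp hM
  refine ⟨hM, hi2, ?_⟩
  calc ∫ x in Ω, ‖f x‖ ^ 2 ≤ ∫ x in Ω, Real.exp L * (‖f x‖ ^ 2 * Real.exp (-Φ x)) := by
        refine setIntegral_mono_on hi1 (hi2.const_mul _).integrableOn hΩ.measurableSet ?_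
        intro x hx
        have h1 : 1 ≤ Real.exp L * Real.exp (-Φ x) := by
          rw [← Real.exp_add]
          exact Real.one_le_exp (by linarith [hL x hx])
        have h2 := sq_nonneg ‖f x‖
        nlinarith
    _ ≤ ∫ x, Real.exp L * (‖f x‖ ^ 2 * Real.exp (-Φ x)) := by
        refine setIntegral_le_integral (hi2.const_mul _) (Filter.Eventually.of_forall fun x => ?_)
        show (0:ℝ) ≤ Real.exp L * (‖f x‖ ^ 2 * Real.exp (-Φ x))
        positivity
    _ = _ := by rw [integral_const_mul]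

theorem hs2V_pos {Φ P : E3 → ℝ} (hΦ : ContDiff ℝ ∞ Φ) (hP : ContDiff ℝ ∞ P) {c : E3 → ℝ}
    (hpos : HPos2V Φ c) (hP1 : HPos1 P 0) {N : ℝ} (hN : 0 ≤ N) :
    HPos2V (fun y => Φ y + N * P y) c := by
  intro x a
  have h1 := hpos x a
  have h2 := DbarN.JHE2.hess_trace P x (fun b => by
    have := hP1 x b
    rwa [zero_mul] at this) a
  have key : (∑ j, Hess (fun y => Φ y + N * P y) j j x) * (∑ k, (‖a k‖ : ℂ) ^ 2) -
        ∑ j, ∑ k, Hess (fun y => Φ y + N * P y) k j x * a j * conj (a k) =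
      ((∑ j, Hess Φ j j x) * (∑ k, (‖a k‖ : ℂ) ^ 2) -
        ∑ j, ∑ k, Hess Φ k j x * a j * conj (a k)) +
      (N : ℂ) * ((∑ j, Hess P j j x) * (∑ k, (‖a k‖ : ℂ) ^ 2) -
        ∑ j, ∑ k, Hess P k j x * a j * conj (a k)) := by
    simp only [DbarN.JHS2.hs2_Hess_lin hΦ hP, Fin.sum_univ_three]
    ring
  rw [key, Complex.add_re, Complex.re_ofReal_mul]
  have h3 := mul_nonneg hN h2
  linarith

theorem hs2V_sq (a b : ℂ) {t : ℝ} (ht : 0 < t) :
    ‖a - b‖ ^ 2 ≤ (1 + t) * ‖a‖ ^ 2 + (1 + 1 / t) * ‖b‖ ^ 2 := by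
  have h1 : ‖a - b‖ ≤ ‖a‖ + ‖b‖ := norm_sub_le a b
  have h2 : ‖a - b‖ ^ 2 ≤ (‖a‖ + ‖b‖) ^ 2 := pow_le_pow_left₀ (norm_nonneg _) h1 2
  have h3 : 2 * ‖a‖ * ‖b‖ ≤ t * ‖a‖ ^ 2 + 1 / t * ‖b‖ ^ 2 := by
    have h4 : 0 ≤ (t * ‖a‖ - ‖b‖) ^ 2 / t := by positivity
    have h5 : (t * ‖a‖ - ‖b‖) ^ 2 / t = t * ‖a‖ ^ 2 + 1 / t * ‖b‖ ^ 2 - 2 * ‖a‖ * ‖b‖ := by
      field_simp
      ring
    linarith
  nlinarith

theorem hs2V (hW : WS2V_stmt) : HS2V_stmt := by
  intro Ω hΩ hPS hbd Φ hΦ c B hcm hc1 hcB hpos v U hv hU hKU hdiv η hη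
  obtain ⟨P, hPs, hP1, hP0, hPΩ, hPU⟩ := hPS U hU hKU
  have hPc : Continuous P := hPs.continuous
  have hΦc : Continuous Φ := hΦ.continuous
  -- bound of Φ on Ω
  obtain ⟨L, hL⟩ : ∃ L : ℝ, ∀ x ∈ Ω, Φ x ≤ L := by
    obtain ⟨L, hL⟩ := (hbd.isCompact_closure.image hΦc).bddAbove
    exact ⟨L, fun x hx => hL ⟨x, subset_closure hx, rfl⟩⟩
  obtain ⟨D, hD⟩ : ∃ D : E3 → ℂ, D = fun x => ∑ i, dbar i (v i) x := ⟨_, rfl⟩
  have hDc : Continuous D := by
    rw [hD]
    exact continuous_finset_sum _ fun i _ => (JHS2.hs2_dbar_smooth (hv i).smooth i).continuous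
  have hDs : HasCompactSupport D := by
    refine HasCompactSupport.intro (K := ⋃ i : Fin 3, tsupport (v i))
      (isCompact_iUnion fun i => (hv i).compact) ?_
    intro x hx
    rw [hD]
    refine Finset.sum_eq_zero fun i _ => JHS2.hs2_dbar_notMem ?_ i
    intro hx'
    exact hx (Set.mem_iUnion.mpr ⟨i, hx'⟩)
  have hcs : ∀ {g : E3 → ℂ}, Continuous g → HasCompactSupport g →
      Integrable (fun x => ‖g x‖ ^ 2 * Real.exp (-Φ x)) (volume : Measure E3) := by
    intro g hg hgs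
    have h1 : Continuous (fun x => ‖g x‖ ^ 2 * Real.exp (-Φ x)) := by fun_prop
    refine h1.integrable_of_hasCompactSupport ?_
    refine HasCompactSupport.intro (K := tsupport g) hgs ?_
    intro x hx
    rw [image_eq_zero_of_notMem_tsupport hx]
    simp
  have hDi := hcs hDc hDs
  have hlim : Tendsto (fun N : ℕ => ∫ x, ‖D x‖ ^ 2 * Real.exp (-(Φ x + N * P x))) atTop
      (𝓝 0) := by
    have h1 := tendsto_integral_of_dominated_convergence (μ := (volume : Measure E3))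
      (F := fun (N : ℕ) x => ‖D x‖ ^ 2 * Real.exp (-(Φ x + N * P x))) (f := fun _ => (0:ℝ))
      (fun x => ‖D x‖ ^ 2 * Real.exp (-Φ x)) ?_ hDi ?_ ?_
    · simpa using h1
    · intro N
      have : Continuous (fun x => ‖D x‖ ^ 2 * Real.exp (-(Φ x + N * P x))) := by fun_prop
      exact this.aestronglyMeasurable
    · intro N
      refine Filter.Eventually.of_forall fun x => ?_
      rw [Real.norm_eq_abs, abs_of_nonneg (by positivity)]
      have h2 : Real.exp (-(Φ x + N * P x)) ≤ Real.exp (-Φ x) := by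
        have := mul_nonneg (Nat.cast_nonneg (α := ℝ) N) (hP0 x)
        exact Real.exp_le_exp.mpr (by linarith)
      exact mul_le_mul_of_nonneg_left h2 (sq_nonneg _)
    · refine Filter.Eventually.of_forall fun x => ?_
      by_cases hPx : P x = 0
      · have hxU : x ∈ U := by
          by_contra hxU
          exact (hPU x hxU).ne' hPx
        have hDx : D x = 0 := by rw [hD]; exact hdiv x hxU
        simp [hDx]
      · have hPx' : 0 < P x := lt_of_le_of_ne (hP0 x) (Ne.symm hPx)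
        have h2 : Tendsto (fun N : ℕ => Φ x + N * P x) atTop atTop := by
          exact tendsto_atTop_add_const_left _ _
            (tendsto_natCast_atTop_atTop.atTop_mul_const hPx')
        have h3 := (Real.tendsto_exp_neg_atTop_nhds_zero.comp h2).const_mul (‖D x‖ ^ 2)
        rw [mul_zero] at h3
        exact h3
  have hc0 : ∀ x, 0 < c x := fun x => lt_of_lt_of_le one_pos (hc1 x)
  -- the main quantity
  have hVi : Integrable (fun x => (∑ j, ‖v j x‖ ^ 2) / c x * Real.exp (-Φ x))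
      (volume : Measure E3) := by
    have h1 : Integrable (fun x => ∑ j, ‖v j x‖ ^ 2 * Real.exp (-Φ x)) (volume : Measure E3) :=
      integrable_finset_sum _ fun j _ => hcs (hv j).smooth.continuous (hv j).compact
    refine h1.mono' ?_ (Filter.Eventually.of_forall fun x => ?_)
    · have hm1 : Measurable (fun x => ∑ j, ‖v j x‖ ^ 2) := by
        have : Continuous (fun x => ∑ j, ‖v j x‖ ^ 2) :=
          continuous_finset_sum _ fun j _ => (hv j).smooth.continuous.norm.pow 2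
        exact this.measurable
      have hm2 : Measurable (fun x => Real.exp (-Φ x)) := by
        have : Continuous (fun x => Real.exp (-Φ x)) := by fun_prop
        exact this.measurable
      exact ((hm1.div hcm).mul hm2).aestronglyMeasurable
    · have h0 : 0 ≤ ∑ j, ‖v j x‖ ^ 2 := Finset.sum_nonneg fun j _ => sq_nonneg _
      rw [Real.norm_of_nonneg (mul_nonneg (div_nonneg h0 (hc0 x).le) (Real.exp_pos _).le),
        ← Finset.sum_mul]
      exact mul_le_mul_of_nonneg_right (div_le_self h0 (hc1 x)) (Real.exp_pos _).le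
  obtain ⟨Iv, hIv⟩ : ∃ Iv : ℝ, Iv = ∫ x, (∑ j, ‖v j x‖ ^ 2) / c x * Real.exp (-Φ x) := ⟨_, rfl⟩
  have hIv0 : 0 ≤ Iv := by
    rw [hIv]
    refine integral_nonneg fun x => ?_
    exact mul_nonneg (div_nonneg (Finset.sum_nonneg fun j _ => sq_nonneg _) (hc0 x).le)
      (Real.exp_pos _).le
  obtain ⟨t, ht⟩ : ∃ t : ℝ, t = η / (2 * (Iv + 1)) := ⟨_, rfl⟩
  have ht0 : 0 < t := by rw [ht]; positivity
  have htI : t * Iv ≤ η / 2 := by
    rw [ht, div_mul_eq_mul_div, div_le_div_iff₀ (by positivity) (by positivity)]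
    nlinarith
  have hcst : 0 < (1 + 1 / t) + Real.exp L := by positivity
  have hδpos : 0 < (η / 2) / ((1 + 1 / t) + Real.exp L) := by positivity
  obtain ⟨N, hN⟩ := (hlim.eventually (gt_mem_nhds hδpos)).exists
  have hN0 : (0:ℝ) ≤ (N:ℝ) := Nat.cast_nonneg N
  obtain ⟨ΦN, hΦN⟩ : ∃ ΦN : E3 → ℝ, ΦN = fun y => Φ y + (N:ℝ) * P y := ⟨_, rfl⟩
  have hΦNs : ContDiff ℝ ∞ ΦN := by
    rw [hΦN]
    exact hΦ.add (contDiff_const.mul hPs)
  have hΦNc : Continuous ΦN := hΦNs.continuous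
  have hΦNp : HPos2V ΦN c := by
    rw [hΦN]
    exact hs2V_pos hΦ hPs hpos hP1 hN0
  have hΦNle : ∀ x, Real.exp (-ΦN x) ≤ Real.exp (-Φ x) := by
    intro x
    have := mul_nonneg hN0 (hP0 x)
    rw [hΦN]
    exact Real.exp_le_exp.mpr (by linarith)
  have hΦNΩ : ∀ x ∈ Ω, ΦN x = Φ x := by
    intro x hx
    rw [hΦN]
    simp [hPΩ x hx]
  have hLN : ∀ x ∈ Ω, ΦN x ≤ L := fun x hx => by
    rw [hΦNΩ x hx]
    exact hL x hx
  obtain ⟨w, e, hw, he, hrel, hw2, he2⟩ := hW ΦN hΦNs c B hcm hc1 hcB hΦNp v hv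
  have hδ : ∑ j, ∫ x, ‖e j x‖ ^ 2 * Real.exp (-ΦN x) ≤
      (η / 2) / ((1 + 1 / t) + Real.exp L) := by
    refine he2.trans ?_
    rw [hD] at hN
    rw [hΦN]
    exact hN.le
  have hδ0 : 0 ≤ ∑ j, ∫ x, ‖e j x‖ ^ 2 * Real.exp (-ΦN x) :=
    Finset.sum_nonneg fun j _ => integral_nonneg fun x =>
      mul_nonneg (sq_nonneg _) (Real.exp_pos _).le
  have hδ1 : ((1 + 1 / t) + Real.exp L) * ∑ j, ∫ x, ‖e j x‖ ^ 2 * Real.exp (-ΦN x) ≤ η / 2 := by
    rw [le_div_iff₀ hcst] at hδ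
    linarith
  have hei : ∀ j, Integrable (fun x => ‖e j x‖ ^ 2 * Real.exp (-ΦN x)) (volume : Measure E3) :=
    fun j => (hs2V_transfer hΩ hΦNc hLN (he j)).2.1
  have hwi : ∀ j, Integrable (fun x => ‖w j x‖ ^ 2 * Real.exp (-ΦN x)) (volume : Measure E3) :=
    fun j => (hs2V_transfer hΩ hΦNc hLN (hw j)).2.1
  refine ⟨w, e, fun j => (hs2V_transfer hΩ hΦNc hLN (hw j)).1,
    fun j => (hs2V_transfer hΩ hΦNc hLN (he j)).1, ?_, ?_, ?_⟩
  · intro i φ hφ
    have hφ' : IsTest Set.univ φ := ⟨hφ.smooth, hφ.compact, Set.subset_univ _⟩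
    have h1 := hrel i φ hφ'
    have hout : ∀ x, x ∉ Ω → x ∉ tsupport φ := fun x hx hx' => hx (hφ.supp hx')
    rw [setIntegral_eq_integral_of_forall_compl_eq_zero,
      setIntegral_eq_integral_of_forall_compl_eq_zero]
    · exact h1
    · intro x hx
      rw [image_eq_zero_of_notMem_tsupport (hout x hx), mul_zero]
    · intro x hx
      rw [JHS2.hs2_dbar_notMem (hout x hx), JHS2.hs2_dbar_notMem (hout x hx), mul_zero, mul_zero,
        sub_zero]
  · rw [← hIv]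
    have h1 : ∑ j, ∫ x in Ω, ‖w j x‖ ^ 2 * Real.exp (-Φ x) ≤
        ∑ j, ∫ x, ‖w j x‖ ^ 2 * Real.exp (-ΦN x) := by
      refine Finset.sum_le_sum fun j _ => ?_
      have h2 : ∫ x in Ω, ‖w j x‖ ^ 2 * Real.exp (-Φ x) =
          ∫ x in Ω, ‖w j x‖ ^ 2 * Real.exp (-ΦN x) := by
        refine setIntegral_congr_fun hΩ.measurableSet fun x hx => ?_
        beta_reduce
        rw [hΦNΩ x hx]
      rw [h2]
      exact setIntegral_le_integral (hwi j) (Filter.Eventually.of_forall fun x =>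
        mul_nonneg (sq_nonneg _) (Real.exp_pos _).le)
    have hgi : Integrable (fun x => (1 + t) * ((∑ j, ‖v j x‖ ^ 2) / c x * Real.exp (-Φ x)) +
        (1 + 1 / t) * ∑ j, ‖e j x‖ ^ 2 * Real.exp (-ΦN x)) (volume : Measure E3) :=
      (hVi.const_mul _).add ((integrable_finset_sum _ fun j _ => hei j).const_mul _)
    have h3 : ∫ x, (∑ j, ‖v j x - e j x‖ ^ 2) / c x * Real.exp (-ΦN x) ≤
        ∫ x, ((1 + t) * ((∑ j, ‖v j x‖ ^ 2) / c x * Real.exp (-Φ x)) +
        (1 + 1 / t) * ∑ j, ‖e j x‖ ^ 2 * Real.exp (-ΦN x)) := by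
      refine integral_mono_of_nonneg (Filter.Eventually.of_forall fun x => ?_) hgi
        (Filter.Eventually.of_forall fun x => ?_)
      · exact mul_nonneg (div_nonneg (Finset.sum_nonneg fun j _ => sq_nonneg _) (hc0 x).le)
          (Real.exp_pos _).le
      · beta_reduce
        have hcx := hc0 x
        have hE := Real.exp_pos (-ΦN x)
        have hE' := hΦNle x
        have hV0 : 0 ≤ ∑ j, ‖v j x‖ ^ 2 := Finset.sum_nonneg fun j _ => sq_nonneg _
        have he0 : 0 ≤ ∑ j, ‖e j x‖ ^ 2 := Finset.sum_nonneg fun j _ => sq_nonneg _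
        have hs : ∑ j, ‖v j x - e j x‖ ^ 2 ≤
            (1 + t) * (∑ j, ‖v j x‖ ^ 2) + (1 + 1 / t) * ∑ j, ‖e j x‖ ^ 2 := by
          rw [Finset.mul_sum, Finset.mul_sum, ← Finset.sum_add_distrib]
          exact Finset.sum_le_sum fun j _ => hs2V_sq _ _ ht0
        rw [← Finset.sum_mul]
        calc (∑ j, ‖v j x - e j x‖ ^ 2) / c x * Real.exp (-ΦN x)
            ≤ ((1 + t) * (∑ j, ‖v j x‖ ^ 2) + (1 + 1 / t) * ∑ j, ‖e j x‖ ^ 2) / c x *
              Real.exp (-ΦN x) := by gcongr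
          _ = (1 + t) * ((∑ j, ‖v j x‖ ^ 2) / c x * Real.exp (-ΦN x)) +
              (1 + 1 / t) * ((∑ j, ‖e j x‖ ^ 2) / c x * Real.exp (-ΦN x)) := by ring
          _ ≤ (1 + t) * ((∑ j, ‖v j x‖ ^ 2) / c x * Real.exp (-Φ x)) +
              (1 + 1 / t) * ((∑ j, ‖e j x‖ ^ 2) * Real.exp (-ΦN x)) := by
              have := div_le_self he0 (hc1 x)
              gcongr
    have h4 : ∫ x, ((1 + t) * ((∑ j, ‖v j x‖ ^ 2) / c x * Real.exp (-Φ x)) +
        (1 + 1 / t) * ∑ j, ‖e j x‖ ^ 2 * Real.exp (-ΦN x)) =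
        (1 + t) * Iv + (1 + 1 / t) * ∑ j, ∫ x, ‖e j x‖ ^ 2 * Real.exp (-ΦN x) := by
      rw [integral_add (hVi.const_mul _) ((integrable_finset_sum _ fun j _ => hei j).const_mul _),
        integral_const_mul, integral_const_mul, integral_finset_sum _ fun j _ => hei j, hIv]
    have h5 : (1 + 1 / t) * ∑ j, ∫ x, ‖e j x‖ ^ 2 * Real.exp (-ΦN x) ≤ η / 2 := by
      refine le_trans ?_ hδ1
      refine mul_le_mul_of_nonneg_right ?_ hδ0
      linarith [Real.exp_pos L]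
    have h6 := h1.trans (hw2.trans h3)
    rw [h4] at h6
    nlinarith
  · have h1 : ∑ j, ∫ x in Ω, ‖e j x‖ ^ 2 ≤
        Real.exp L * ∑ j, ∫ x, ‖e j x‖ ^ 2 * Real.exp (-ΦN x) := by
      rw [Finset.mul_sum]
      exact Finset.sum_le_sum fun j _ => (hs2V_transfer hΩ hΦNc hLN (he j)).2.2
    have h5 : Real.exp L * ∑ j, ∫ x, ‖e j x‖ ^ 2 * Real.exp (-ΦN x) ≤ η / 2 := by
      refine le_trans ?_ hδ1
      refine mul_le_mul_of_nonneg_right ?_ hδ0
      have : 0 < 1 / t := by positivity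
      linarith
    linarith

end DbarC.JHC
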