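import Pool.Agent.H314.DC.St1

set_option autoImplicit false

open MeasureTheory Complex Filter Topology
open scoped ContDiff InnerProductSpace ENNReal ComplexConjugate

namespace DbarC.JHD
open DbarN

theorem fi2_normsq {μ : Measure E3} {F : E3 → ℂ} (hF : MemLp F 2 μ) :
    (eLpNorm F 2 μ).toReal ^ 2 = ∫ x, ‖F x‖ ^ 2 ∂μ := by
  rw [hF.eLpNorm_eq_integral_rpow_norm (by norm_num) (by norm_num)]
  have h0 : 0 ≤ ∫ x, ‖F x‖ ^ 2 ∂μ := integral_nonneg fun x => by positivity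
  have h1 : ∫ x, ‖F x‖ ^ (2 : ℝ≥0∞).toReal ∂μ = ∫ x, ‖F x‖ ^ 2 ∂μ := by
    simp
  rw [h1, ENNReal.toReal_ofReal (by positivity), ← Real.rpow_natCast, ← Real.rpow_mul h0]
  simp

theorem fi2_form_normsq {Ω : Set E3} {w : Fin 3 → E3 → ℂ}
    (hw : ∀ j, MemLp (w j) 2 ((volume : Measure E3).restrict Ω)) :
    ‖(WithLp.toLp 2 (fun j => (hw j).toLp (w j)) : Form Ω)‖ ^ 2 = ∑ j, ∫ x in Ω, ‖w j x‖ ^ 2 := by
  rw [PiLp.norm_sq_eq_of_L2]
  refine Finset.sum_congr rfl fun j _ => ?_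
  rw [← fi2_normsq (hw j)]
  show ‖(hw j).toLp (w j)‖ ^ 2 = _
  rw [Lp.norm_toLp]

theorem fi2_tendsto {Ω S : Set E3} (hS : S ⊆ Ω) (F : ℕ → E3 → ℂ) (f : E3 → ℂ)
    (hF : ∀ n, MemLp (F n) 2 ((volume : Measure E3).restrict Ω))
    (hf : MemLp f 2 ((volume : Measure E3).restrict Ω))
    (h : Tendsto (fun n => eLpNorm (F n - f) 2 (volume.restrict Ω)) atTop (𝓝 0)) :
    Tendsto (fun n => ∫ x in S, ‖F n x‖ ^ 2) atTop (𝓝 (∫ x in S, ‖f x‖ ^ 2)) := by
  have hle : (volume : Measure E3).restrict S ≤ (volume : Measure E3).restrict Ω :=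
    Measure.restrict_mono hS le_rfl
  have hF' : ∀ n, MemLp (F n) 2 ((volume : Measure E3).restrict S) := fun n =>
    (hF n).mono_measure hle
  have hf' : MemLp f 2 ((volume : Measure E3).restrict S) := hf.mono_measure hle
  have h' : Tendsto (fun n => eLpNorm (F n - f) 2 (volume.restrict S)) atTop (𝓝 0) := by
    refine tendsto_of_tendsto_of_tendsto_of_le_of_le tendsto_const_nhds h
      (fun n => zero_le) (fun n => ?_)
    exact eLpNorm_mono_measure _ hle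
  have h1 := (Lp.tendsto_Lp_iff_tendsto_eLpNorm'' F hF' f hf').2 h'
  have h2 := h1.norm.pow 2
  simp only [Lp.norm_toLp, fi2_normsq (hF' _), fi2_normsq hf'] at h2
  exact h2

theorem fi2_int {Ω K : Set E3} (ho : IsOpen Ω) (hKm : MeasurableSet K) (hKΩ : K ⊆ Ω)
    (Φ : E3 → ℝ) (h5 : ∀ x ∈ Ω, 0 ≤ Φ x ∧ Φ x ≤ 5) (M B E : ℝ) (hM : 1 ≤ M)
    (hE : ∀ x : E3, ‖x‖ ≤ B → Real.exp (-Φ x) ≤ E) (cf : E3 → ℝ)
    (hcf1 : ∀ x, x ∈ Ω → x ∉ K → cf x = M) (hcf2 : ∀ x, x ∈ K → cf x = 1)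
    (hcf3 : ∀ x, x ∉ Ω → cf x = 1) (hcf : ∀ x, 1 ≤ cf x)
    (v : Fin 3 → E3 → ℂ) (hv : ∀ j, IsTest Set.univ (v j)) (hvB : ∀ j x, B < ‖x‖ → v j x = 0) :
    ∫ x, (∑ j, ‖v j x‖ ^ 2) / cf x * Real.exp (-Φ x) ≤
      (1 / M) * (∑ j, ∫ x in Ω, ‖v j x‖ ^ 2) + (∑ j, ∫ x in K, ‖v j x‖ ^ 2) +
        E * ((∑ j, ∫ x, ‖v j x‖ ^ 2) - ∑ j, ∫ x in Ω, ‖v j x‖ ^ 2) := by
  have hM0 : 0 < M := by linarith
  have hvi : ∀ j, Integrable (fun x => ‖v j x‖ ^ 2) := by
    intro j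
    exact ((hv j).smooth.continuous.memLp_of_hasCompactSupport (p := 2) (hv j).compact).integrable_norm_pow
      (by norm_num)
  obtain ⟨S, hSdef⟩ : ∃ S : E3 → ℝ, ∀ x, S x = ∑ j, ‖v j x‖ ^ 2 := ⟨_, fun x => rfl⟩
  have hS0 : ∀ x, 0 ≤ S x := fun x => by
    rw [hSdef]; exact Finset.sum_nonneg fun j _ => by positivity
  have hSi : Integrable S := by
    have : S = fun x => ∑ j, ‖v j x‖ ^ 2 := funext hSdef
    rw [this]
    exact integrable_finsetSum _ fun j _ => hvi j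
  have hSint : ∀ T : Set E3, ∫ x in T, S x = ∑ j, ∫ x in T, ‖v j x‖ ^ 2 := by
    intro T
    simp only [hSdef]
    exact integral_finsetSum _ fun j _ => (hvi j).integrableOn
  have hSint' : ∫ x, S x = ∑ j, ∫ x, ‖v j x‖ ^ 2 := by
    simp only [hSdef]
    exact integral_finsetSum _ fun j _ => hvi j
  have hΩm : MeasurableSet Ω := ho.measurableSet
  have hcompl : ∫ x in Ωᶜ, S x = (∫ x, S x) - ∫ x in Ω, S x := by
    rw [← integral_add_compl hΩm hSi]; ring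
  have hgi1 : Integrable (Ω.indicator S) := hSi.indicator hΩm
  have hgi2 : Integrable (K.indicator S) := hSi.indicator hKm
  have hgi3 : Integrable (Ωᶜ.indicator S) := hSi.indicator hΩm.compl
  have hgi12 : Integrable (fun x => (1 / M) * Ω.indicator S x + K.indicator S x) :=
    (hgi1.const_mul _).add hgi2
  have hgi : Integrable (fun x => (1 / M) * Ω.indicator S x + K.indicator S x
      + E * Ωᶜ.indicator S x) :=
    hgi12.add (hgi3.const_mul _)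
  have hle : ∀ x, S x / cf x * Real.exp (-Φ x) ≤ (1 / M) * Ω.indicator S x + K.indicator S x
      + E * Ωᶜ.indicator S x := by
    intro x
    have hSx := hS0 x
    by_cases hxΩ : x ∈ Ω
    · have he : Real.exp (-Φ x) ≤ 1 := by
        rw [Real.exp_le_one_iff]
        linarith [(h5 x hxΩ).1]
      have he0 := (Real.exp_pos (-Φ x)).le
      have hxc : x ∉ Ωᶜ := fun h => h hxΩ
      rw [Set.indicator_of_mem hxΩ, Set.indicator_of_notMem hxc]
      by_cases hxK : x ∈ K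
      · rw [Set.indicator_of_mem hxK, hcf2 x hxK, div_one]
        have h1 : S x * Real.exp (-Φ x) ≤ S x := mul_le_of_le_one_right hSx he
        have h2 : 0 ≤ (1 / M) * S x := by positivity
        linarith
      · rw [Set.indicator_of_notMem hxK, hcf1 x hxΩ hxK]
        have h1 : S x / M * Real.exp (-Φ x) ≤ S x / M := mul_le_of_le_one_right (by positivity) he
        have h2 : S x / M = 1 / M * S x := by ring
        linarith
    · have hxK : x ∉ K := fun h => hxΩ (hKΩ h)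
      rw [Set.indicator_of_notMem hxΩ, Set.indicator_of_notMem hxK,
        Set.indicator_of_mem (show x ∈ Ωᶜ from hxΩ), hcf3 x hxΩ, div_one]
      rcases le_or_gt ‖x‖ B with hB | hB
      · have h1 := hE x hB
        have h2 : S x * Real.exp (-Φ x) ≤ S x * E := mul_le_mul_of_nonneg_left h1 hSx
        linarith
      · have h1 : S x = 0 := by
          rw [hSdef]
          refine Finset.sum_eq_zero fun j _ => ?_
          rw [hvB j x hB]; simp
        rw [h1]; simp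
  have hmain : ∫ x, (∑ j, ‖v j x‖ ^ 2) / cf x * Real.exp (-Φ x) ≤
      ∫ x, ((1 / M) * Ω.indicator S x + K.indicator S x + E * Ωᶜ.indicator S x) := by
    refine integral_mono_of_nonneg (Eventually.of_forall fun x => ?_) hgi
      (Eventually.of_forall fun x => ?_)
    · have h1 : 0 ≤ ∑ j, ‖v j x‖ ^ 2 := Finset.sum_nonneg fun j _ => by positivity
      have h2 : 0 < cf x := by linarith [hcf x]
      show 0 ≤ (∑ j, ‖v j x‖ ^ 2) / cf x * Real.exp (-Φ x)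
      positivity
    · show (∑ j, ‖v j x‖ ^ 2) / cf x * Real.exp (-Φ x) ≤ _
      rw [← hSdef]
      exact hle x
  refine hmain.trans (le_of_eq ?_)
  have e1 : ∫ x, ((1 / M) * Ω.indicator S x + K.indicator S x + E * Ωᶜ.indicator S x)
      = (1 / M) * (∫ x in Ω, S x) + (∫ x in K, S x) + E * ∫ x in Ωᶜ, S x := by
    rw [← integral_indicator hΩm, ← integral_indicator hKm, ← integral_indicator hΩm.compl,
      ← integral_const_mul, ← integral_const_mul, ← integral_add (hgi1.const_mul _) hgi2,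
      ← integral_add hgi12 (hgi3.const_mul _)]
  rw [e1, hcompl, hSint Ω, hSint K, hSint']

theorem fi2_low {Ω : Set E3} (ho : IsOpen Ω) (Φ : E3 → ℝ) (hΦ : ContDiff ℝ ∞ Φ)
    (h5 : ∀ x ∈ Ω, 0 ≤ Φ x ∧ Φ x ≤ 5) (w : E3 → ℂ) (hw : MemLp w 2 (volume.restrict Ω)) :
    ∫ x in Ω, ‖w x‖ ^ 2 ≤ Real.exp 5 * ∫ x in Ω, ‖w x‖ ^ 2 * Real.exp (-Φ x) := by
  have hwi : Integrable (fun x => ‖w x‖ ^ 2) (volume.restrict Ω) :=
    hw.integrable_norm_pow (by norm_num)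
  have hae : ∀ᵐ x ∂(volume.restrict Ω), x ∈ Ω := ae_restrict_mem ho.measurableSet
  have hexp : Continuous fun x => Real.exp (-Φ x) := Real.continuous_exp.comp hΦ.continuous.neg
  have hi : Integrable (fun x => ‖w x‖ ^ 2 * Real.exp (-Φ x)) (volume.restrict Ω) := by
    refine hwi.mono' (hwi.aestronglyMeasurable.mul hexp.aestronglyMeasurable) ?_
    filter_upwards [hae] with x hx
    have he : Real.exp (-Φ x) ≤ 1 := by
      rw [Real.exp_le_one_iff]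
      linarith [(h5 x hx).1]
    rw [Real.norm_of_nonneg (by positivity)]
    exact mul_le_of_le_one_right (by positivity) he
  rw [← integral_const_mul]
  refine integral_mono_ae hwi (hi.const_mul _) ?_
  filter_upwards [hae] with x hx
  have h1 : 1 ≤ Real.exp 5 * Real.exp (-Φ x) := by
    rw [← Real.exp_add, Real.one_le_exp_iff]
    linarith [(h5 x hx).2]
  have h2 : 0 ≤ ‖w x‖ ^ 2 := by positivity
  calc ‖w x‖ ^ 2 = ‖w x‖ ^ 2 * 1 := (mul_one _).symm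
    _ ≤ ‖w x‖ ^ 2 * (Real.exp 5 * Real.exp (-Φ x)) := mul_le_mul_of_nonneg_left h1 h2
    _ = Real.exp 5 * (‖w x‖ ^ 2 * Real.exp (-Φ x)) := by ring

theorem fi2 (hS : HS2V_stmt) (hM : MollS_stmt) (hC : Cl1_stmt) (Ω : Set E3) (ho : IsOpen Ω)
    (hs : StarS Ω) (hb : Bornology.IsBounded Ω) (h0 : (0 : E3) ∈ Ω) (hP : PS_prop Ω)
    (hWt : Wt_prop Ω) : FI2_prop Ω := by
  classical
  intro η hη
  obtain ⟨L, hL⟩ : ∃ L : ℝ, L = 1 + Real.exp 5 / η := ⟨_, rfl⟩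
  have hLp : 0 < Real.exp 5 / η := by positivity
  have hL1 : 1 ≤ L := by linarith
  have hL0 : 0 < L := by linarith
  have hLη : Real.exp 5 * (1 / L) ≤ η := by
    rw [mul_one_div, div_le_iff₀ hL0, hL, mul_add, mul_div_cancel₀ _ hη.ne']
    linarith
  obtain ⟨K, Φ, hK, hKΩ, hΦ, hΦ5, hΦ1, hΦM⟩ := hWt L hL1
  refine ⟨K, Real.exp 5, hK, hKΩ, fun c hc => ?_⟩
  obtain ⟨cf, hcfd⟩ : ∃ cf : E3 → ℝ, cf = fun x => if x ∈ Ω \ K then L else 1 := ⟨_, rfl⟩
  have hcf1 : ∀ x, x ∈ Ω → x ∉ K → cf x = L := by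
    intro x h1 h2
    rw [hcfd]
    exact if_pos ⟨h1, h2⟩
  have hcf2 : ∀ x, x ∈ K → cf x = 1 := by
    intro x h1
    rw [hcfd]
    exact if_neg fun h => h.2 h1
  have hcf3 : ∀ x, x ∉ Ω → cf x = 1 := by
    intro x h1
    rw [hcfd]
    exact if_neg fun h => h1 h.1
  have hcfm : Measurable cf := by
    rw [hcfd]
    exact Measurable.ite (ho.measurableSet.diff hK.measurableSet) measurable_const measurable_const
  have hcfa : ∀ x, 1 ≤ cf x := by
    intro x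
    rw [hcfd]
    show (1:ℝ) ≤ if x ∈ Ω \ K then L else 1
    split_ifs
    · exact hL1
    · exact le_rfl
  have hcfb : ∀ x, cf x ≤ L := by
    intro x
    rw [hcfd]
    show (if x ∈ Ω \ K then L else 1) ≤ L
    split_ifs
    · exact le_rfl
    · exact hL1
  have hpos : HPos2V Φ cf := by
    intro x a
    by_cases hx : x ∈ Ω \ K
    · rw [hcf1 x hx.1 hx.2]
      exact hΦM x hx.1 hx.2 a
    · have : cf x = 1 := by
        rw [hcfd]
        exact if_neg hx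
      rw [this]
      exact hΦ1 x a
  obtain ⟨M, r, B, hr, hr01, hM1, hM2, -⟩ := hM Ω ho hs hb h0
  obtain ⟨E, hE⟩ : ∃ E : ℝ, ∀ x : E3, ‖x‖ ≤ B → Real.exp (-Φ x) ≤ E := by
    obtain ⟨E, hE⟩ := (isCompact_closedBall (0 : E3) B).exists_bound_of_continuousOn
      (f := fun x => Real.exp (-Φ x)) (Real.continuous_exp.comp hΦ.continuous.neg).continuousOn
    refine ⟨E, fun x hx => ?_⟩
    have := hE x (by rw [Metric.mem_closedBall, dist_zero_right]; exact hx)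
    rwa [Real.norm_of_nonneg (Real.exp_pos _).le] at this
  obtain ⟨E', hE'⟩ : ∃ E' : ℝ, E' = max E 0 := ⟨_, rfl⟩
  have hE'0 : 0 ≤ E' := by rw [hE']; exact le_max_right _ _
  have hE'1 : ∀ x : E3, ‖x‖ ≤ B → Real.exp (-Φ x) ≤ E' := fun x hx =>
    (hE x hx).trans (by rw [hE']; exact le_max_left _ _)
  have hcm : ∀ j, MemLp (c j) 2 (volume.restrict Ω) := fun j => Lp.memLp (c j)
  obtain ⟨β, hβ⟩ : ∃ β : ℝ, β = ∑ j, ∫ x in K, ‖c j x‖ ^ 2 := ⟨_, rfl⟩
  have hβ0 : 0 ≤ β := by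
    rw [hβ]
    exact Finset.sum_nonneg fun j _ => integral_nonneg fun x => by positivity
  rw [← hβ]
  obtain ⟨D, hD⟩ : ∃ D : ℝ, D = η * ‖c‖ ^ 2 + Real.exp 5 * β := ⟨_, rfl⟩
  have hD0 : 0 ≤ D := by rw [hD]; positivity
  have hAsq : Real.sqrt D ^ 2 = D := Real.sq_sqrt hD0
  -- the sequences
  have hcj : ∀ j, ‖c j‖ ^ 2 = ∫ x in Ω, ‖c j x‖ ^ 2 := by
    intro j
    rw [← fi2_normsq (hcm j), Lp.norm_def]
  have hcn : ‖c‖ ^ 2 = ∑ j, ∫ x in Ω, ‖c j x‖ ^ 2 := by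
    rw [PiLp.norm_sq_eq_of_L2]
    exact Finset.sum_congr rfl fun j _ => hcj j
  have htest' : ∀ n j, IsTest Set.univ (M n (c j)) := fun n j => (hM1 (c j) (hcm j)).1 n
  have hvm : ∀ n j, MemLp (M n (c j)) 2 (volume : Measure E3) := fun n j =>
    (htest' n j).smooth.continuous.memLp_of_hasCompactSupport (htest' n j).compact
  have hvm' : ∀ n j, MemLp (M n (c j)) 2 (volume.restrict Ω) := fun n j => (hvm n j).restrict Ω
  have ha : Tendsto (fun n => ∑ j, ∫ x in Ω, ‖M n (c j) x‖ ^ 2) atTop (𝓝 (‖c‖ ^ 2)) := by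
    rw [hcn]
    exact tendsto_finsetSum _ fun j _ => fi2_tendsto subset_rfl (fun n => M n (c j)) (c j)
      (fun n => hvm' n j) (hcm j) (hM1 (c j) (hcm j)).2.2.1
  have hbt : Tendsto (fun n => ∑ j, ∫ x in K, ‖M n (c j) x‖ ^ 2) atTop (𝓝 β) := by
    rw [hβ]
    exact tendsto_finsetSum _ fun j _ => fi2_tendsto hKΩ (fun n => M n (c j)) (c j)
      (fun n => hvm' n j) (hcm j) (hM1 (c j) (hcm j)).2.2.1
  have hri : Tendsto (fun n => ((r n ^ 3) ^ 2)⁻¹ * ‖c‖ ^ 2) atTop (𝓝 (‖c‖ ^ 2)) := by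
    have h1 : Tendsto (fun n => ((r n ^ 3) ^ 2)⁻¹) atTop (𝓝 ((1 ^ 3) ^ 2)⁻¹) :=
      ((hr.pow 3).pow 2).inv₀ (by norm_num)
    have h2 := h1.mul_const (‖c‖ ^ 2)
    simpa using h2
  have hT : Tendsto (fun n => Real.exp 5 * ((1 / L) * (∑ j, ∫ x in Ω, ‖M n (c j) x‖ ^ 2) +
      (∑ j, ∫ x in K, ‖M n (c j) x‖ ^ 2) + E' * (((r n ^ 3) ^ 2)⁻¹ * ‖c‖ ^ 2 -
        ∑ j, ∫ x in Ω, ‖M n (c j) x‖ ^ 2))) atTop
      (𝓝 (Real.exp 5 * ((1 / L) * ‖c‖ ^ 2 + β + E' * (‖c‖ ^ 2 - ‖c‖ ^ 2)))) :=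
    (((ha.const_mul _).add hbt).add ((hri.sub ha).const_mul _)).const_mul _
  have hlim : Real.exp 5 * ((1 / L) * ‖c‖ ^ 2 + β + E' * (‖c‖ ^ 2 - ‖c‖ ^ 2)) ≤ D := by
    rw [sub_self, mul_zero, add_zero, mul_add, ← mul_assoc, hD]
    have : Real.exp 5 * (1 / L) * ‖c‖ ^ 2 ≤ η * ‖c‖ ^ 2 :=
      mul_le_mul_of_nonneg_right hLη (by positivity)
    linarith
  obtain ⟨v, hv1, hv2⟩ := hC Ω ho c (Real.sqrt D) (Real.sqrt_nonneg _) (by
    intro ε hε
    have hev1 : ∀ᶠ n in atTop, Real.exp 5 * ((1 / L) * (∑ j, ∫ x in Ω, ‖M n (c j) x‖ ^ 2) +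
      (∑ j, ∫ x in K, ‖M n (c j) x‖ ^ 2) + E' * (((r n ^ 3) ^ 2)⁻¹ * ‖c‖ ^ 2 -
        ∑ j, ∫ x in Ω, ‖M n (c j) x‖ ^ 2)) < D + ε ^ 2 / 2 :=
      hT.eventually (gt_mem_nhds (by
        have : 0 < ε ^ 2 / 2 := by positivity
        linarith))
    have hev2 : ∀ j : Fin 3, ∀ᶠ n in atTop,
        eLpNorm (M n (c j) - (c j : E3 → ℂ)) 2 (volume.restrict Ω) < ENNReal.ofReal (ε / 4) := by
      intro j
      exact (hM1 (c j) (hcm j)).2.2.1.eventually (gt_mem_nhds (by positivity))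
    obtain ⟨n, hn1, hn2⟩ := (hev1.and (eventually_all.2 hev2)).exists
    obtain ⟨hrn0, hrn1⟩ := hr01 n
    have htest : ∀ j, IsTest Set.univ (M n (c j)) := htest' n
    -- M n 0 = 0
    have hM0 : M n 0 = 0 := by
      have h1 := (hM1 0 MemLp.zero)
      have h2 := h1.2.2.2 n
      rw [eLpNorm_zero, nonpos_iff_eq_zero, mul_eq_zero] at h2
      rcases h2 with h2 | h2
      · rw [ENNReal.ofReal_eq_zero] at h2
        have : 0 < r n ^ 3 := by positivity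
        linarith
      · have hcont : Continuous (M n 0) := (h1.1 n).smooth.continuous
        rw [eLpNorm_eq_zero_iff hcont.aestronglyMeasurable (by norm_num)] at h2
        exact (Continuous.ae_eq_iff_eq volume hcont continuous_zero).1 h2
    obtain ⟨U, hU, hUΩ, hUeq⟩ := hM2 n
    have hdiv : ∀ x ∈ U, ∑ i : Fin 3, dbar i (M n (c i)) x = 0 := by
      intro x hx
      have h1 := hUeq (fun i j => if i = j then 1 else 0) (fun i => c i) 0 hcm MemLp.zero (by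
        intro φ hφ
        have h2 := hc φ hφ
        simp only [ite_mul, one_mul, zero_mul, Finset.sum_ite_eq, Finset.mem_univ, if_true,
          Pi.zero_apply, integral_zero, neg_zero]
        exact h2) x hx
      simp only [ite_mul, one_mul, zero_mul, Finset.sum_ite_eq, Finset.mem_univ, if_true] at h1
      rw [h1, hM0]
      simp
    obtain ⟨δ, hδ⟩ : ∃ δ : ℝ, δ = min ((ε / 2) ^ 2) (ε ^ 2 / 2 / Real.exp 5) := ⟨_, rfl⟩
    have hδ0 : 0 < δ := by rw [hδ]; exact lt_min (by positivity) (by positivity)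
    have hδ1 : δ ≤ (ε / 2) ^ 2 := by rw [hδ]; exact min_le_left _ _
    have hδ2 : Real.exp 5 * δ ≤ ε ^ 2 / 2 := by
      have h1 : δ ≤ ε ^ 2 / 2 / Real.exp 5 := by rw [hδ]; exact min_le_right _ _
      rw [le_div_iff₀ (Real.exp_pos 5)] at h1
      linarith
    obtain ⟨w, e, hw, he, hwe, hwn, hen⟩ := hS Ω ho hP hb Φ hΦ cf L hcfm hcfa hcfb hpos
      (fun j => M n (c j)) U htest hU hUΩ hdiv δ hδ0
    let f' : Form Ω := WithLp.toLp 2 (fun j => (hw j).toLp (w j))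
    let v' : Form Ω := WithLp.toLp 2 (fun j => (hvm' n j).toLp (M n (c j)))
    let e' : Form Ω := WithLp.toLp 2 (fun j => (he j).toLp (e j))
    have hf' : ∀ j, (f' j : E3 → ℂ) =ᵐ[volume.restrict Ω] w j := fun j => (hw j).coeFn_toLp
    have hv' : ∀ j, (v' j : E3 → ℂ) =ᵐ[volume.restrict Ω] M n (c j) := fun j =>
      (hvm' n j).coeFn_toLp
    have he' : ∀ j, (e' j : E3 → ℂ) =ᵐ[volume.restrict Ω] e j := fun j => (he j).coeFn_toLp
    have hg' : ∀ j, ((v' - e') j : E3 → ℂ) =ᵐ[volume.restrict Ω] fun x => M n (c j) x - e j x := by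
      intro j
      have h1 : ((v' - e') j : L2 Ω) = v' j - e' j := rfl
      rw [h1]
      filter_upwards [Lp.coeFn_sub (v' j) (e' j), hv' j, he' j] with x h2 h3 h4
      rw [h2, Pi.sub_apply, h3, h4]
    refine ⟨f', v' - e', ?_, ?_, ?_⟩
    · intro i φ hφ
      have h1 := hwe i φ hφ
      have h2 : ∫ x in Ω, (f' (i + 2) x * dbar (i + 1) φ x - f' (i + 1) x * dbar (i + 2) φ x)
          = ∫ x in Ω, (w (i + 2) x * dbar (i + 1) φ x - w (i + 1) x * dbar (i + 2) φ x) := by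
        apply integral_congr_ae
        filter_upwards [hf' (i + 2), hf' (i + 1)] with x h3 h4
        rw [h3, h4]
      have h3 : ∫ x in Ω, (v' - e') i x * φ x = ∫ x in Ω, (M n (c i) x - e i x) * φ x := by
        apply integral_congr_ae
        filter_upwards [hg' i] with x h4
        rw [h4]
      rw [h2, h3, h1]
    · have h1 : ‖f'‖ ^ 2 = ∑ j, ∫ x in Ω, ‖w j x‖ ^ 2 := fi2_form_normsq hw
      have h2 : ∀ j, (r n ^ 3) ^ 2 * ∫ x, ‖M n (c j) x‖ ^ 2 ≤ ‖c j‖ ^ 2 := by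
        intro j
        rw [← fi2_normsq (hvm n j)]
        have h3 := (hM1 (c j) (hcm j)).2.2.2 n
        have h4 := ENNReal.toReal_mono (hcm j).2.ne h3
        rw [ENNReal.toReal_mul, ENNReal.toReal_ofReal (by positivity)] at h4
        have h5 : ‖c j‖ = (eLpNorm (c j) 2 (volume.restrict Ω)).toReal := Lp.norm_def _
        rw [h5, ← mul_pow]
        exact pow_le_pow_left₀ (by positivity) h4 2
      have h3 : ∑ j, ∫ x, ‖M n (c j) x‖ ^ 2 ≤ ((r n ^ 3) ^ 2)⁻¹ * ‖c‖ ^ 2 := by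
        have h4 : (0:ℝ) < (r n ^ 3) ^ 2 := by positivity
        rw [le_inv_mul_iff₀ h4, PiLp.norm_sq_eq_of_L2, Finset.mul_sum]
        exact Finset.sum_le_sum fun j _ => h2 j
      have h4 : ‖f'‖ ^ 2 ≤ Real.exp 5 * ∑ j, ∫ x in Ω, ‖w j x‖ ^ 2 * Real.exp (-Φ x) := by
        rw [h1, Finset.mul_sum]
        exact Finset.sum_le_sum fun j _ => fi2_low ho Φ hΦ hΦ5 (w j) (hw j)
      have h5 := fi2_int ho hK.measurableSet hKΩ Φ hΦ5 L B E' hL1 hE'1 cf hcf1 hcf2 hcf3 hcfa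
        (fun j => M n (c j)) htest (fun j x hx => (hM1 (c j) (hcm j)).2.1 n x hx)
      have h6 : E' * ((∑ j, ∫ x, ‖M n (c j) x‖ ^ 2) - ∑ j, ∫ x in Ω, ‖M n (c j) x‖ ^ 2) ≤
          E' * (((r n ^ 3) ^ 2)⁻¹ * ‖c‖ ^ 2 - ∑ j, ∫ x in Ω, ‖M n (c j) x‖ ^ 2) :=
        mul_le_mul_of_nonneg_left (by linarith) hE'0
      have h7 : ‖f'‖ ^ 2 ≤ D + ε ^ 2 := by
        have h8 : Real.exp 5 * (∑ j, ∫ x in Ω, ‖w j x‖ ^ 2 * Real.exp (-Φ x)) ≤
            Real.exp 5 * (((1 / L) * (∑ j, ∫ x in Ω, ‖M n (c j) x‖ ^ 2) +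
              (∑ j, ∫ x in K, ‖M n (c j) x‖ ^ 2) + E' * (((r n ^ 3) ^ 2)⁻¹ * ‖c‖ ^ 2 -
                ∑ j, ∫ x in Ω, ‖M n (c j) x‖ ^ 2)) + δ) := by
          refine mul_le_mul_of_nonneg_left ?_ (Real.exp_pos 5).le
          linarith
        rw [mul_add] at h8
        linarith
      have h8 : ‖f'‖ ^ 2 ≤ (Real.sqrt D + ε) ^ 2 := by
        have h9 : 0 ≤ Real.sqrt D * ε := mul_nonneg (Real.sqrt_nonneg _) hε.le
        nlinarith
      exact le_of_sq_le_sq h8 (by positivity)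
    · have h1 : ‖e'‖ ≤ ε / 2 := by
        have h2 : ‖e'‖ ^ 2 ≤ (ε / 2) ^ 2 := by
          rw [show ‖e'‖ ^ 2 = ∑ j, ∫ x in Ω, ‖e j x‖ ^ 2 from fi2_form_normsq he]
          exact hen.trans hδ1
        exact le_of_sq_le_sq h2 (by positivity)
      have h2 : ‖v' - c‖ ≤ ε / 2 := by
        have h3 : ∀ j, ‖(v' - c) j‖ ^ 2 ≤ (ε / 4) ^ 2 := by
          intro j
          have h4 : ‖(v' - c) j‖ ≤ ε / 4 := by
            have h5 : ((v' - c) j : L2 Ω) = (hvm' n j).toLp (M n (c j)) - (hcm j).toLp (c j) := by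
              rw [Lp.toLp_coeFn]; rfl
            rw [h5, ← MemLp.toLp_sub, Lp.norm_toLp]
            exact ENNReal.toReal_le_of_le_ofReal (by positivity) (hn2 j).le
          exact pow_le_pow_left₀ (norm_nonneg _) h4 2
        have h4 : ‖v' - c‖ ^ 2 ≤ (ε / 2) ^ 2 := by
          rw [PiLp.norm_sq_eq_of_L2, Fin.sum_univ_three]
          have := h3 0
          have := h3 1
          have := h3 2
          nlinarith [sq_nonneg ε]
        exact le_of_sq_le_sq h4 (by positivity)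
      calc ‖v' - e' - c‖ = ‖(v' - c) - e'‖ := by congr 1; abel
        _ ≤ ‖v' - c‖ + ‖e'‖ := norm_sub_le _ _
        _ ≤ ε / 2 + ε / 2 := add_le_add h2 h1
        _ = ε := by ring)
  refine ⟨v, hv1, ?_⟩
  rw [← hD, ← hAsq]
  exact pow_le_pow_left₀ (norm_nonneg _) hv2 2

end DbarC.JHD
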