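import Pool.Agent.H314.DC.St2
import Pool.Agent.H314.DN.N1

set_option autoImplicit false

open MeasureTheory Complex Filter Topology
open scoped ContDiff InnerProductSpace ENNReal ComplexConjugate

namespace DbarC.JHL
open DbarN

theorem hardy_cb (R : ℝ) :
    (Metric.closedBall (0 : ℂ) R : Set ℂ) =ᵐ[volume] (Metric.ball (0 : ℂ) R : Set ℂ) := by
  rw [← Metric.ball_union_sphere]
  have h1 : (Metric.sphere (0 : ℂ) R : Set ℂ) =ᵐ[volume] (∅ : Set ℂ) :=
    ae_eq_empty.2 (Measure.addHaar_sphere (volume : Measure ℂ) (0 : ℂ) R)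
  have h2 := (ae_eq_refl (μ := volume) (Metric.ball (0 : ℂ) R : Set ℂ)).union h1
  rw [Set.union_empty] at h2
  exact h2

theorem hardy_annulus (F : ℂ → ℝ) (hc : Continuous F) (hF : ∀ w : ℂ, F w = F (‖w‖ : ℂ))
    (R r : ℝ) (hr : 0 < r) (hR : r ≤ R) :
    ∫ w in Metric.ball (0 : ℂ) R \ Metric.closedBall (0 : ℂ) r, F w =
      (2 * (volume : Measure ℂ).real (Metric.ball 0 1)) *
        ∫ y in r..R, y * F (y : ℂ) := by
  have hint : ∀ ρ : ℝ, IntegrableOn F (Metric.closedBall (0 : ℂ) ρ) volume := fun ρ =>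
    hc.continuousOn.integrableOn_compact (isCompact_closedBall _ _)
  have h0 : (Metric.ball (0 : ℂ) R \ Metric.closedBall (0 : ℂ) r : Set ℂ) =ᵐ[volume]
      (Metric.closedBall (0 : ℂ) R \ Metric.closedBall (0 : ℂ) r : Set ℂ) := by
    have h1 : (Metric.closedBall (0 : ℂ) R : Set ℂ) =ᵐ[volume] (Metric.ball (0 : ℂ) R : Set ℂ) :=
      hardy_cb R
    exact (h1.symm).diff (ae_eq_refl _)
  rw [setIntegral_congr_set h0, setIntegral_sdiff measurableSet_closedBall (hint R)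
    (Metric.closedBall_subset_closedBall hR)]
  have h2 : ∀ ρ : ℝ, 0 < ρ → ∫ w in Metric.closedBall (0 : ℂ) ρ, F w =
      (2 * (volume : Measure ℂ).real (Metric.ball 0 1)) * ∫ y in (0 : ℝ)..ρ, y * F (y : ℂ) := by
    intro ρ hρ
    rw [setIntegral_congr_set (hardy_cb ρ)]
    exact DbarN.JN1.neg1_radial' F hF ρ hρ
  rw [h2 R (hr.trans_le hR), h2 r hr, ← mul_sub]
  congr 1
  rw [intervalIntegral.integral_interval_sub_left]
  · exact (by fun_prop : Continuous fun y : ℝ => y * F (y : ℂ)).intervalIntegrable _ _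
  · exact (by fun_prop : Continuous fun y : ℝ => y * F (y : ℂ)).intervalIntegrable _ _

/-- common facts -/
theorem hardy_facts (j : ℤ) (f : ℂ → ℂ) (hf : ContDiff ℝ ∞ f)
    (hm : ∀ (θ : ℝ) (w : ℂ),
      f (Complex.exp (θ * I) * w) = Complex.exp (I * (j * θ)) * f w) :
    (∀ w : ℂ, ‖f w‖ ^ 2 = ‖f (‖w‖ : ℂ)‖ ^ 2) ∧
    (∀ w : ℂ, ‖db1 f w‖ ^ 2 = ‖db1 f (‖w‖ : ℂ)‖ ^ 2) ∧
    Continuous (db1 f) ∧ Continuous f ∧
    (∀ t : ℝ, HasDerivAt (fun t : ℝ => f (t : ℂ)) (fderiv ℝ f (t : ℂ) 1) t) ∧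
    (∀ t : ℝ, t * inner ℝ (f (t : ℂ)) (fderiv ℝ f (t : ℂ) 1) =
          2 * t * inner ℝ (f (t : ℂ)) (db1 f (t : ℂ)) + j * ‖f (t : ℂ)‖ ^ 2) := by
  have hd : ∀ x, HasFDerivAt f (fderiv ℝ f x) x := fun x =>
    ((hf.differentiable (by simp)) x).hasFDerivAt
  have hpol : ∀ w : ℂ, w = Complex.exp ((Complex.arg w : ℝ) * I) * (‖w‖ : ℂ) := by
    intro w
    rw [mul_comm]
    exact (Complex.norm_mul_exp_arg_mul_I w).symm
  have n1 : ∀ θ : ℝ, ‖Complex.exp (I * (j * θ))‖ = 1 := by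
    intro θ
    rw [show I * ((j : ℂ) * θ) = (((j : ℝ) * θ : ℝ) : ℂ) * I by push_cast; ring]
    exact Complex.norm_exp_ofReal_mul_I _
  have hr1 : ∀ w : ℂ, ‖f w‖ ^ 2 = ‖f (‖w‖ : ℂ)‖ ^ 2 := by
    intro w
    have h1 : ‖f w‖ = ‖f (‖w‖ : ℂ)‖ := by
      conv_lhs => rw [hpol w]
      rw [hm, norm_mul, n1, one_mul]
    rw [h1]
  have hr2 : ∀ w : ℂ, ‖db1 f w‖ ^ 2 = ‖db1 f (‖w‖ : ℂ)‖ ^ 2 := by
    intro w
    have h1 : ‖db1 f w‖ = ‖db1 f (‖w‖ : ℂ)‖ := by
      conv_lhs => rw [hpol w]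
      rw [DbarN.JN1.neg1_db_rot j f hf hm]
    rw [h1]
  have hcd : Continuous (db1 f) := by
    have h1 : Continuous (fderiv ℝ f) := hf.continuous_fderiv (by simp)
    unfold db1
    fun_prop
  have hcf : Continuous f := hf.continuous
  have hode : ∀ t : ℝ, (t : ℂ) * fderiv ℝ f (t : ℂ) 1 =
      2 * (t : ℂ) * db1 f (t : ℂ) + (j : ℂ) * f (t : ℂ) := by
    intro t
    have h1 := DbarN.JN1.neg1_theta j f hf hm (t : ℂ)
    have h2 : fderiv ℝ f (t : ℂ) (I * (t : ℂ)) = (t : ℂ) * fderiv ℝ f (t : ℂ) I := by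
      rw [show I * (t : ℂ) = t • I by rw [Complex.real_smul, mul_comm], map_smul,
        Complex.real_smul]
    rw [h2] at h1
    have h3 : (2 : ℂ) * db1 f (t : ℂ) = fderiv ℝ f (t : ℂ) 1 + I * fderiv ℝ f (t : ℂ) I := by
      unfold db1; ring
    have hI : I * I = -1 := Complex.I_mul_I
    linear_combination (-(t : ℂ)) * h3 - I * h1 - ((j : ℂ) * f (t : ℂ)) * hI
  have hder : ∀ t : ℝ, HasDerivAt (fun t : ℝ => f (t : ℂ)) (fderiv ℝ f (t : ℂ) 1) t := by
    intro t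
    have h1 : HasDerivAt (fun t : ℝ => (t : ℂ)) 1 t := Complex.ofRealCLM.hasDerivAt
    exact (hd (t : ℂ)).comp_hasDerivAt t h1
  refine ⟨hr1, hr2, hcd, hcf, hder, ?_⟩
  intro t
  have h2 : t • fderiv ℝ f (t : ℂ) 1 = (2 * t) • db1 f (t : ℂ) + (j : ℝ) • f (t : ℂ) := by
    rw [Complex.real_smul, Complex.real_smul, Complex.real_smul]
    push_cast
    exact hode t
  rw [← real_inner_smul_right, h2, inner_add_right, real_inner_smul_right,
    real_inner_smul_right, real_inner_self_eq_norm_sq]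

theorem hardy : Hardy_stmt := by
  intro j hj f hf hm R hR
  obtain ⟨hr1, hr2, hcd, hcf, hder, hin⟩ := hardy_facts j f hf hm
  -- value at the origin
  have hf0 : f 0 = 0 := by
    have h1 := hm (Real.pi / j) 0
    have hj0 : (j : ℂ) ≠ 0 := by
      exact_mod_cast hj.ne
    have h2 : I * ((j : ℂ) * ((Real.pi / j : ℝ) : ℂ)) = Real.pi * I := by
      push_cast
      field_simp
    rw [h2, Complex.exp_pi_mul_I, mul_zero] at h1
    have h3 : (2 : ℂ) * f 0 = 0 := by linear_combination h1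
    simpa using h3
  have hjR : (j : ℝ) < 0 := by exact_mod_cast hj
  obtain ⟨m, hmj⟩ : ∃ m : ℝ, m = -(j : ℝ) := ⟨_, rfl⟩
  have hm0 : 0 < m := by rw [hmj]; linarith
  have habs : |(j : ℝ)| = m := by rw [hmj, abs_of_neg hjR]
  have hj' : (j : ℝ) = -m := by rw [hmj]; ring
  set g : ℝ → ℝ := fun s => s * ‖db1 f (s : ℂ)‖ ^ 2 with hg
  have hgc : Continuous g := by
    rw [hg]
    fun_prop
  set Q : ℝ → ℝ := fun t => 2 * (∫ s in (0 : ℝ)..t, g s) - m * ‖f (t : ℂ)‖ ^ 2 with hQ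
  have hQd : ∀ t : ℝ, HasDerivAt Q
      (2 * g t - m * (2 * inner ℝ (f (t : ℂ)) (fderiv ℝ f (t : ℂ) 1))) t := by
    intro t
    have h1 : HasDerivAt (fun t : ℝ => ∫ s in (0 : ℝ)..t, g s) (g t) t :=
      intervalIntegral.integral_hasDerivAt_right (hgc.intervalIntegrable _ _)
        (hgc.stronglyMeasurableAtFilter _ _) hgc.continuousAt
    exact (h1.const_mul 2).sub (((hder t).norm_sq).const_mul m)
  have hQmono : MonotoneOn Q (Set.Ici 0) := by
    apply monotoneOn_of_deriv_nonneg (convex_Ici 0)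
    · exact fun t _ => (hQd t).continuousAt.continuousWithinAt
    · exact fun t _ => (hQd t).differentiableAt.differentiableWithinAt
    · intro t ht
      rw [interior_Ici] at ht
      have ht0 : 0 < t := ht
      rw [(hQd t).deriv]
      have h1 := hin t
      have h2 : inner ℝ (f (t : ℂ)) (db1 f (t : ℂ)) ≤ ‖f (t : ℂ)‖ * ‖db1 f (t : ℂ)‖ :=
        real_inner_le_norm _ _
      have h3 : 0 ≤ t * (2 * g t - m * (2 * inner ℝ (f (t : ℂ)) (fderiv ℝ f (t : ℂ) 1))) := by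
        have h4 : t * (2 * g t - m * (2 * inner ℝ (f (t : ℂ)) (fderiv ℝ f (t : ℂ) 1))) =
            2 * t ^ 2 * ‖db1 f (t : ℂ)‖ ^ 2 - 4 * m * t * inner ℝ (f (t : ℂ)) (db1 f (t : ℂ)) +
              2 * m ^ 2 * ‖f (t : ℂ)‖ ^ 2 := by
          have : t * (2 * g t - m * (2 * inner ℝ (f (t : ℂ)) (fderiv ℝ f (t : ℂ) 1))) =
            2 * t * g t - 2 * m * (t * inner ℝ (f (t : ℂ)) (fderiv ℝ f (t : ℂ) 1)) := by ring
          rw [this, h1, hg, hj']
          ring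
        rw [h4]
        have h5 : (m * t) * inner ℝ (f (t : ℂ)) (db1 f (t : ℂ)) ≤
            (m * t) * (‖f (t : ℂ)‖ * ‖db1 f (t : ℂ)‖) :=
          mul_le_mul_of_nonneg_left h2 (by positivity)
        nlinarith [sq_nonneg (t * ‖db1 f (t : ℂ)‖ - m * ‖f (t : ℂ)‖)]
      exact nonneg_of_mul_nonneg_right h3 ht0
  have hQ0 : Q 0 = 0 := by
    simp [hQ, hf0]
  have hpt : ∀ t : ℝ, 0 ≤ t → m * ‖f (t : ℂ)‖ ^ 2 ≤ 2 * ∫ s in (0 : ℝ)..t, g s := by
    intro t ht
    have h1 := hQmono (Set.mem_Ici.2 le_rfl) (Set.mem_Ici.2 ht) ht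
    rw [hQ0] at h1
    simp only [hQ] at h1
    linarith
  have hgn : ∀ s : ℝ, 0 ≤ s → 0 ≤ g s := by
    intro s hs
    rw [hg]
    positivity
  have hGmono : ∀ t : ℝ, 0 ≤ t → t ≤ R → ∫ s in (0 : ℝ)..t, g s ≤ ∫ s in (0 : ℝ)..R, g s := by
    intro t ht htR
    rw [← intervalIntegral.integral_add_adjacent_intervals (hgc.intervalIntegrable 0 t)
      (hgc.intervalIntegrable t R)]
    have h1 : 0 ≤ ∫ s in t..R, g s := by
      apply intervalIntegral.integral_nonneg htR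
      intro u hu
      exact hgn u (ht.trans hu.1)
    linarith
  have h1D : ∫ y in (0 : ℝ)..R, y * ‖f (y : ℂ)‖ ^ 2 ≤ R ^ 2 / m * ∫ s in (0 : ℝ)..R, g s := by
    have h1 : ∫ y in (0 : ℝ)..R, y * ‖f (y : ℂ)‖ ^ 2 ≤
        ∫ y in (0 : ℝ)..R, y * (2 / m * ∫ s in (0 : ℝ)..R, g s) := by
      apply intervalIntegral.integral_mono_on hR.le
      · apply Continuous.intervalIntegrable
        fun_prop
      · apply Continuous.intervalIntegrable
        fun_prop
      · intro y hy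
        apply mul_le_mul_of_nonneg_left _ hy.1
        have h2 := hpt y hy.1
        have h3 := hGmono y hy.1 hy.2
        rw [div_mul_eq_mul_div, le_div_iff₀ hm0]
        linarith
    rw [intervalIntegral.integral_mul_const, integral_id] at h1
    refine h1.trans (le_of_eq ?_)
    field_simp
    ring
  rw [DbarN.JN1.neg1_radial' (fun w => ‖f w‖ ^ 2) hr1 R hR,
    DbarN.JN1.neg1_radial' (fun w => ‖db1 f w‖ ^ 2) hr2 R hR, habs]
  have hC : 0 ≤ 2 * (volume : Measure ℂ).real (Metric.ball 0 1) := by positivity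
  calc _ ≤ (2 * (volume : Measure ℂ).real (Metric.ball 0 1)) *
        (R ^ 2 / m * ∫ s in (0 : ℝ)..R, g s) := mul_le_mul_of_nonneg_left h1D hC
    _ = _ := by
      rw [hg]
      ring

theorem layer : Layer_stmt := by
  intro n
  refine ⟨19 + 32 * n, by positivity, ?_⟩
  intro j hjn f hf hm R h hR hh hh2
  obtain ⟨hr1, hr2, hcd, hcf, hder, hin⟩ := hardy_facts j f hf hm
  have hjn' : (j : ℝ) ≤ n := by
    have h1 : j ≤ (n : ℤ) := (le_abs_self j).trans hjn
    exact_mod_cast h1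
  have hn0 : (0 : ℝ) ≤ n := Nat.cast_nonneg n
  have hr0 : 0 < (1 - h) * R := by
    apply mul_pos _ hR
    linarith
  have hrR : (1 - h) * R ≤ R := by nlinarith
  set k : ℝ → ℝ := fun s => (8 + 32 * n) / R ^ 2 * (s * ‖f (s : ℂ)‖ ^ 2) +
    8 * (s * ‖db1 f (s : ℂ)‖ ^ 2) with hk
  have hkc : Continuous k := by
    rw [hk]
    fun_prop
  have hkn : ∀ s : ℝ, 0 ≤ s → 0 ≤ k s := by
    intro s hs
    rw [hk]
    positivity
  set Q : ℝ → ℝ := fun t => (∫ s in (0 : ℝ)..t, k s) - ‖f (t : ℂ)‖ ^ 2 with hQ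
  have hQd : ∀ t : ℝ, HasDerivAt Q
      (k t - (2 * inner ℝ (f (t : ℂ)) (fderiv ℝ f (t : ℂ) 1))) t := by
    intro t
    have h1 : HasDerivAt (fun t : ℝ => ∫ s in (0 : ℝ)..t, k s) (k t) t :=
      intervalIntegral.integral_hasDerivAt_right (hkc.intervalIntegrable _ _)
        (hkc.stronglyMeasurableAtFilter _ _) hkc.continuousAt
    exact h1.sub ((hder t).norm_sq)
  have hQmono : MonotoneOn Q (Set.Ici (R / 4)) := by
    apply monotoneOn_of_deriv_nonneg (convex_Ici _)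
    · exact fun t _ => (hQd t).continuousAt.continuousWithinAt
    · exact fun t _ => (hQd t).differentiableAt.differentiableWithinAt
    · intro t ht
      rw [interior_Ici] at ht
      have ht4 : R / 4 < t := ht
      have ht0 : 0 < t := lt_trans (by positivity) ht4
      rw [(hQd t).deriv]
      have h1 := hin t
      have h2 : inner ℝ (f (t : ℂ)) (db1 f (t : ℂ)) ≤ ‖f (t : ℂ)‖ * ‖db1 f (t : ℂ)‖ :=
        real_inner_le_norm _ _
      have h3 : 0 ≤ t * (k t - (2 * inner ℝ (f (t : ℂ)) (fderiv ℝ f (t : ℂ) 1))) := by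
        have h4 : t * (k t - (2 * inner ℝ (f (t : ℂ)) (fderiv ℝ f (t : ℂ) 1))) =
            (8 + 32 * n) * (t / R) ^ 2 * ‖f (t : ℂ)‖ ^ 2 + 8 * t ^ 2 * ‖db1 f (t : ℂ)‖ ^ 2
              - 4 * t * inner ℝ (f (t : ℂ)) (db1 f (t : ℂ)) -
              2 * j * ‖f (t : ℂ)‖ ^ 2 := by
          have : t * (k t - (2 * inner ℝ (f (t : ℂ)) (fderiv ℝ f (t : ℂ) 1))) =
            t * k t - 2 * (t * inner ℝ (f (t : ℂ)) (fderiv ℝ f (t : ℂ) 1)) := by ring
          rw [this, h1, hk]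
          field_simp
          ring
        rw [h4]
        have h5 : t * inner ℝ (f (t : ℂ)) (db1 f (t : ℂ)) ≤
            t * (‖f (t : ℂ)‖ * ‖db1 f (t : ℂ)‖) :=
          mul_le_mul_of_nonneg_left h2 ht0.le
        have h6 : (1 / 16 : ℝ) ≤ (t / R) ^ 2 := by
          have h7 : (1 / 4 : ℝ) ≤ t / R := by
            rw [le_div_iff₀ hR]; linarith
          nlinarith
        have h8 : (8 + 32 * (n : ℝ)) * (1 / 16) * ‖f (t : ℂ)‖ ^ 2 ≤
            (8 + 32 * n) * (t / R) ^ 2 * ‖f (t : ℂ)‖ ^ 2 := by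
          apply mul_le_mul_of_nonneg_right _ (by positivity)
          apply mul_le_mul_of_nonneg_left h6 (by positivity)
        have h9 : 2 * (j : ℝ) * ‖f (t : ℂ)‖ ^ 2 ≤ 2 * n * ‖f (t : ℂ)‖ ^ 2 := by
          apply mul_le_mul_of_nonneg_right _ (by positivity)
          linarith
        nlinarith [sq_nonneg (4 * (t * ‖db1 f (t : ℂ)‖) - ‖f (t : ℂ)‖)]
      exact nonneg_of_mul_nonneg_right h3 ht0
  set A : ℝ := ∫ y in (0 : ℝ)..R, y * ‖f (y : ℂ)‖ ^ 2 with hA
  set B : ℝ := ∫ y in (0 : ℝ)..R, y * ‖db1 f (y : ℂ)‖ ^ 2 with hB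
  have hcA : Continuous fun y : ℝ => y * ‖f (y : ℂ)‖ ^ 2 := by fun_prop
  have hcB : Continuous fun y : ℝ => y * ‖db1 f (y : ℂ)‖ ^ 2 := by fun_prop
  have hA0 : 0 ≤ A := by
    apply intervalIntegral.integral_nonneg hR.le
    intro u hu
    have := hu.1
    positivity
  have hB0 : 0 ≤ B := by
    apply intervalIntegral.integral_nonneg hR.le
    intro u hu
    have := hu.1
    positivity
  have hK : ∫ s in (0 : ℝ)..R, k s = (8 + 32 * n) / R ^ 2 * A + 8 * B := by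
    have i1 : IntervalIntegrable (fun s : ℝ => (8 + 32 * (n : ℝ)) / R ^ 2 *
        (s * ‖f (s : ℂ)‖ ^ 2)) volume 0 R :=
      (continuous_const.mul hcA).intervalIntegrable _ _
    have i2 : IntervalIntegrable (fun s : ℝ => 8 * (s * ‖db1 f (s : ℂ)‖ ^ 2)) volume 0 R :=
      (continuous_const.mul hcB).intervalIntegrable _ _
    rw [hk, intervalIntegral.integral_add i1 i2, intervalIntegral.integral_const_mul,
      intervalIntegral.integral_const_mul]
  -- monotonicity of integrals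
  have hsub : ∀ (u : ℝ → ℝ), Continuous u → (∀ s, 0 ≤ s → 0 ≤ u s) → ∀ a b : ℝ, 0 ≤ a → a ≤ b →
      b ≤ R → ∫ s in a..b, u s ≤ ∫ s in (0 : ℝ)..R, u s := by
    intro u hu hun a b ha hab hbR
    rw [← intervalIntegral.integral_add_adjacent_intervals (hu.intervalIntegrable 0 a)
      (hu.intervalIntegrable a R), ← intervalIntegral.integral_add_adjacent_intervals
      (hu.intervalIntegrable a b) (hu.intervalIntegrable b R)]
    have h1 : 0 ≤ ∫ s in (0 : ℝ)..a, u s := by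
      apply intervalIntegral.integral_nonneg ha
      intro v hv
      exact hun v hv.1
    have h2 : 0 ≤ ∫ s in b..R, u s := by
      apply intervalIntegral.integral_nonneg hbR
      intro v hv
      exact hun v ((ha.trans hab).trans hv.1)
    linarith
  have hpt : ∀ r r' : ℝ, R / 4 ≤ r' → r' ≤ r → r ≤ R →
      ‖f (r : ℂ)‖ ^ 2 ≤ ‖f (r' : ℂ)‖ ^ 2 + ((8 + 32 * n) / R ^ 2 * A + 8 * B) := by
    intro r r' h1 h2 h3
    have h4 := hQmono (Set.mem_Ici.2 h1) (Set.mem_Ici.2 (h1.trans h2)) h2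
    simp only [hQ] at h4
    have h5 : (∫ s in (0 : ℝ)..r, k s) - ∫ s in (0 : ℝ)..r', k s = ∫ s in r'..r, k s :=
      intervalIntegral.integral_interval_sub_left (hkc.intervalIntegrable _ _)
        (hkc.intervalIntegrable _ _)
    have h6 := hsub k hkc hkn r' r (le_trans (by positivity) h1) h2 h3
    rw [hK] at h6
    linarith
  have hsup : ∀ r : ℝ, R / 2 ≤ r → r ≤ R →
      ‖f (r : ℂ)‖ ^ 2 ≤ (32 / 3) / R ^ 2 * A + ((8 + 32 * n) / R ^ 2 * A + 8 * B) := by
    intro r h1 h2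
    have h3 : ∫ y in (R / 4)..(R / 2), y * (‖f (r : ℂ)‖ ^ 2 -
        ((8 + 32 * n) / R ^ 2 * A + 8 * B)) ≤ ∫ y in (R / 4)..(R / 2), y * ‖f (y : ℂ)‖ ^ 2 := by
      apply intervalIntegral.integral_mono_on (by linarith)
      · apply Continuous.intervalIntegrable
        fun_prop
      · apply Continuous.intervalIntegrable
        fun_prop
      · intro y hy
        apply mul_le_mul_of_nonneg_left _ (le_trans (by positivity) hy.1)
        have h4 := hpt r y hy.1 (hy.2.trans h1) h2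
        linarith
    rw [intervalIntegral.integral_mul_const, integral_id] at h3
    have h4 := hsub _ hcA (fun s hs => by positivity) (R / 4) (R / 2) (by positivity)
      (by linarith) (by linarith)
    have h5 : ((R / 2) ^ 2 - (R / 4) ^ 2) / 2 * (‖f (r : ℂ)‖ ^ 2 -
        ((8 + 32 * n) / R ^ 2 * A + 8 * B)) ≤ A := h3.trans h4
    have h6 : ((R / 2) ^ 2 - (R / 4) ^ 2) / 2 = 3 / 32 * R ^ 2 := by ring
    rw [h6] at h5
    have h7 : ‖f (r : ℂ)‖ ^ 2 - ((8 + 32 * n) / R ^ 2 * A + 8 * B) ≤ (32 / 3) / R ^ 2 * A := by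
      rw [← sub_nonneg]
      have h8 : 0 < 3 / 32 * R ^ 2 := by positivity
      have h9 : (3 / 32 * R ^ 2) * ((32 / 3) / R ^ 2 * A -
        (‖f (r : ℂ)‖ ^ 2 - ((8 + 32 * n) / R ^ 2 * A + 8 * B))) = A - (3 / 32 * R ^ 2) *
        (‖f (r : ℂ)‖ ^ 2 - ((8 + 32 * n) / R ^ 2 * A + 8 * B)) := by
        have : (3 / 32 * R ^ 2) * ((32 / 3) / R ^ 2 * A) = A := by
          field_simp
        rw [mul_sub, this]
      refine nonneg_of_mul_nonneg_right ?_ h8
      rw [h9]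
      linarith
    linarith
  have hfin : ∫ y in ((1 - h) * R)..R, y * ‖f (y : ℂ)‖ ^ 2 ≤
      (19 + 32 * n) * h * (A + R ^ 2 * B) := by
    have h1 : ∫ y in ((1 - h) * R)..R, y * ‖f (y : ℂ)‖ ^ 2 ≤ ∫ y in ((1 - h) * R)..R,
        R * ((32 / 3) / R ^ 2 * A + ((8 + 32 * n) / R ^ 2 * A + 8 * B)) := by
      apply intervalIntegral.integral_mono_on hrR
      · exact hcA.intervalIntegrable _ _
      · exact continuous_const.intervalIntegrable _ _
      · intro y hy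
        have h2 : R / 2 ≤ y := le_trans (by nlinarith) hy.1
        have h3 := hsup y h2 hy.2
        apply mul_le_mul hy.2 h3 (by positivity) hR.le
    rw [intervalIntegral.integral_const, smul_eq_mul] at h1
    have h2 : (R - (1 - h) * R) * (R * ((32 / 3) / R ^ 2 * A + ((8 + 32 * n) / R ^ 2 * A + 8 * B)))
        = h * ((32 / 3 + 8 + 32 * n) * A + 8 * (R ^ 2 * B)) := by
      field_simp
      ring
    rw [h2] at h1
    refine h1.trans ?_
    have h3 : (32 / 3 + 8 + 32 * (n : ℝ)) * A + 8 * (R ^ 2 * B) ≤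
        (19 + 32 * n) * (A + R ^ 2 * B) := by
      have h4 : 0 ≤ R ^ 2 * B := by positivity
      have h5 : 0 ≤ (n : ℝ) * (R ^ 2 * B) := by positivity
      nlinarith
    calc _ ≤ h * ((19 + 32 * n) * (A + R ^ 2 * B)) := mul_le_mul_of_nonneg_left h3 hh.le
      _ = _ := by ring
  rw [hardy_annulus (fun w => ‖f w‖ ^ 2) (by fun_prop) hr1 R ((1 - h) * R) hr0 hrR,
    DbarN.JN1.neg1_radial' (fun w => ‖f w‖ ^ 2) hr1 R hR,
    DbarN.JN1.neg1_radial' (fun w => ‖db1 f w‖ ^ 2) hr2 R hR]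
  have hC : 0 ≤ 2 * (volume : Measure ℂ).real (Metric.ball 0 1) := by positivity
  calc _ ≤ (2 * (volume : Measure ℂ).real (Metric.ball 0 1)) *
        ((19 + 32 * n) * h * (A + R ^ 2 * B)) := mul_le_mul_of_nonneg_left hfin hC
    _ = _ := by
      ring

end DbarC.JHL
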