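import Pool.Agent.H314.DC.St2

set_option autoImplicit false

open MeasureTheory Complex Filter Topology
open scoped ContDiff InnerProductSpace ENNReal ComplexConjugate

namespace DbarC.JKC
open DbarN

theorem kc_norm_rot (a b : ℝ) (x : E3) (i : Fin 3) : ‖rot a b x i‖ = ‖x i‖ := by
  fin_cases i
  · simp [rot]
  · simp [rot, Complex.norm_exp_ofReal_mul_I]
  · simp [rot, Complex.norm_exp_ofReal_mul_I]

theorem kc_sq_lt {h a y : ℝ} (h0 : 0 < h) (h1 : h < 1) (ha : 0 < a)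
    (hy : y ≤ (1 - h) ^ 2 * a) : y < a := by
  have h2 : (1 - h) ^ 2 < 1 := by nlinarith
  have h3 : (1 - h) ^ 2 * a < 1 * a := mul_lt_mul_of_pos_right h2 ha
  linarith

theorem kc_d0_cont : Continuous d0 := by
  unfold d0 dl
  exact continuous_const.sub (DbarN.JCA1.om_contDiff (k1 := 1 / 100) (l1 := 100)).continuous

theorem kc_tau_nonneg {s : ℝ} (h0 : 0 ≤ s) (h1 : s < 1) : 0 ≤ tau s := by
  unfold tau
  have h2 : 1 - s ^ 2 ≤ 1 := by nlinarith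
  have h3 : 0 ≤ 1 - s ^ 2 := by nlinarith
  have := Real.log_nonpos h3 h2
  linarith

theorem kc_l0_ge {t s : ℝ} (ht : 0 < d0 t) (h0 : 0 ≤ s) (h1 : s < 1) : 100 ≤ l0 t s := by
  unfold l0 el
  have h2 := kc_tau_nonneg h0 h1
  have h3 : 0 ≤ Lm (1 / 100) 100 t := by
    unfold Lm
    have := Real.log_nonpos (le_of_lt ht) (DbarN.JCA1.dl_le_one (k1 := 1 / 100) (l1 := 100) t)
    unfold d0 at this
    linarith
  linarith

theorem kc_R2_pos (t s : ℝ) : 0 < R2 t s := Real.exp_pos _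

theorem kc_R2_le {t s : ℝ} (h : 100 ≤ l0 t s) (ht : 0 ≤ t) : R2 t s ≤ 1 := by
  unfold R2
  rw [Real.exp_le_one_iff]
  unfold Yc
  have h1 : 0 ≤ Real.log (l0 t s) := Real.log_nonneg (by linarith)
  nlinarith

theorem kc_KK_eq (N h : ℝ) : KK N h = {x ∈ {x : E3 | Real.exp (-N) ≤ d0 (‖x 0‖ ^ 2) ∧
    ‖x 2‖ ≤ (1 - h) * Real.sqrt (d0 (‖x 0‖ ^ 2))} |
    ‖x 1‖ ≤ (1 - h) * Real.sqrt (R2 (‖x 0‖ ^ 2) (‖x 2‖ / Real.sqrt (d0 (‖x 0‖ ^ 2))))} := by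
  ext x
  simp only [KK, Set.mem_ofPred_eq]
  have key : (‖x 0‖ ^ 2 < T0 ∧ La (‖x 0‖ ^ 2) ≤ N) ↔ Real.exp (-N) ≤ d0 (‖x 0‖ ^ 2) := by
    constructor
    · rintro ⟨h1, h2⟩
      have h3 : 0 < d0 (‖x 0‖ ^ 2) := DbarN.JCA1.dl_pos (by norm_num) (by norm_num) h1
      rw [← Real.le_log_iff_exp_le h3]
      unfold La Lm at h2
      unfold d0
      linarith
    · intro h1
      have h3 : 0 < d0 (‖x 0‖ ^ 2) := (Real.exp_pos _).trans_le h1
      refine ⟨?_, ?_⟩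
      · refine (DbarN.JCA1.om_lt_one_iff (k1 := 1 / 100) (l1 := 100) (by norm_num)
          (by norm_num) _).1 ?_
        unfold d0 dl at h3
        linarith
      · rw [← Real.le_log_iff_exp_le h3] at h1
        unfold La Lm
        unfold d0 at h1
        linarith
  constructor
  · rintro ⟨h1, h2, h3, h4⟩
    exact ⟨⟨key.1 ⟨h1, h2⟩, h3⟩, h4⟩
  · rintro ⟨⟨h1, h3⟩, h4⟩
    exact ⟨(key.2 h1).1, (key.2 h1).2, h3, h4⟩

theorem kc_s_lt {N h : ℝ} (hh : 0 < h) {x : E3} (h1 : Real.exp (-N) ≤ d0 (‖x 0‖ ^ 2))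
    (h2 : ‖x 2‖ ≤ (1 - h) * Real.sqrt (d0 (‖x 0‖ ^ 2))) :
    0 ≤ ‖x 2‖ / Real.sqrt (d0 (‖x 0‖ ^ 2)) ∧ ‖x 2‖ / Real.sqrt (d0 (‖x 0‖ ^ 2)) < 1 := by
  have h3 : 0 < d0 (‖x 0‖ ^ 2) := (Real.exp_pos _).trans_le h1
  have h4 : 0 < Real.sqrt (d0 (‖x 0‖ ^ 2)) := Real.sqrt_pos.2 h3
  refine ⟨by positivity, ?_⟩
  rw [div_lt_one h4]
  nlinarith

theorem kk_prop (hM : MemC_stmt) : KK_stmt := by
  intro N h hh0 hh1
  have hcl : IsClosed (KK N h) := by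
    rw [kc_KK_eq]
    have hc0 : Continuous (fun x : E3 => d0 (‖x 0‖ ^ 2)) :=
      kc_d0_cont.comp (by fun_prop)
    have hA : IsClosed {x : E3 | Real.exp (-N) ≤ d0 (‖x 0‖ ^ 2) ∧
        ‖x 2‖ ≤ (1 - h) * Real.sqrt (d0 (‖x 0‖ ^ 2))} := by
      have hA1 : IsClosed {x : E3 | Real.exp (-N) ≤ d0 (‖x 0‖ ^ 2)} :=
        isClosed_le continuous_const hc0
      have hA2 : IsClosed {x : E3 | ‖x 2‖ ≤ (1 - h) * Real.sqrt (d0 (‖x 0‖ ^ 2))} :=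
        isClosed_le (by fun_prop) (continuous_const.mul (Real.continuous_sqrt.comp hc0))
      exact hA1.inter hA2
    refine hA.isClosed_le (by fun_prop) ?_
    refine continuousOn_const.mul (Real.continuous_sqrt.comp_continuousOn ?_)
    have hs : ContinuousOn (fun x : E3 => ‖x 2‖ / Real.sqrt (d0 (‖x 0‖ ^ 2)))
        {x : E3 | Real.exp (-N) ≤ d0 (‖x 0‖ ^ 2) ∧
          ‖x 2‖ ≤ (1 - h) * Real.sqrt (d0 (‖x 0‖ ^ 2))} := by
      refine ContinuousOn.div (by fun_prop) (Real.continuous_sqrt.comp hc0).continuousOn ?_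
      intro x hx
      exact (Real.sqrt_pos.2 ((Real.exp_pos _).trans_le hx.1)).ne'
    unfold R2 Yc l0 el Lm tau
    refine Real.continuous_exp.comp_continuousOn ?_
    refine ContinuousOn.mul (by fun_prop) (ContinuousOn.log ?_ ?_)
    · refine ContinuousOn.add (ContinuousOn.add continuousOn_const (ContinuousOn.neg
        (ContinuousOn.log hc0.continuousOn ?_))) (ContinuousOn.neg (ContinuousOn.log
        (continuousOn_const.sub (hs.pow 2)) ?_))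
      · intro x hx
        exact ((Real.exp_pos _).trans_le hx.1).ne'
      · intro x hx
        obtain ⟨h1, h2⟩ := kc_s_lt hh0 hx.1 hx.2
        have : 0 < 1 - (‖x 2‖ / Real.sqrt (d0 (‖x 0‖ ^ 2))) ^ 2 := by nlinarith
        exact this.ne'
    · intro x hx
      obtain ⟨h1, h2⟩ := kc_s_lt hh0 hx.1 hx.2
      have h3 := kc_l0_ge ((Real.exp_pos _).trans_le hx.1) h1 h2
      unfold l0 el Lm tau at h3
      intro h4
      rw [h4] at h3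
      norm_num at h3
  have hmem : ∀ x ∈ KK N h, 0 < d0 (‖x 0‖ ^ 2) ∧ ‖x 0‖ ^ 2 < T0 ∧
      ‖x 2‖ ≤ (1 - h) * Real.sqrt (d0 (‖x 0‖ ^ 2)) ∧
      ‖x 1‖ ≤ (1 - h) * Real.sqrt (R2 (‖x 0‖ ^ 2) (‖x 2‖ / Real.sqrt (d0 (‖x 0‖ ^ 2)))) ∧
      R2 (‖x 0‖ ^ 2) (‖x 2‖ / Real.sqrt (d0 (‖x 0‖ ^ 2))) ≤ 1 := by
    intro x hx
    have hx' := hx
    rw [kc_KK_eq] at hx'
    obtain ⟨h1, h2⟩ := kc_s_lt hh0 hx'.1.1 hx'.1.2
    have h0 := (Real.exp_pos _).trans_le hx'.1.1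
    exact ⟨h0, hx.1, hx'.1.2, hx'.2, kc_R2_le (kc_l0_ge h0 h1 h2) (by positivity)⟩
  have hd1 : ∀ t, d0 t ≤ 1 := fun t => DbarN.JCA1.dl_le_one (k1 := 1 / 100) (l1 := 100) t
  refine ⟨?_, ?_, ?_⟩
  · refine Metric.isCompact_of_isClosed_isBounded hcl ?_
    refine (Metric.isBounded_closedBall (x := (0 : E3)) (r := 2)).subset ?_
    intro x hx
    obtain ⟨h0, h1, h2, h3, h4⟩ := hmem x hx
    rw [mem_closedBall_zero_iff, pi_norm_le_iff_of_nonneg (by norm_num)]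
    have hT : T0 ≤ 4 := by unfold T0 tB; norm_num
    intro i
    fin_cases i
    · show ‖x 0‖ ≤ 2
      nlinarith [norm_nonneg (x 0)]
    · show ‖x 1‖ ≤ 2
      have h5 : Real.sqrt (R2 (‖x 0‖ ^ 2) (‖x 2‖ / Real.sqrt (d0 (‖x 0‖ ^ 2)))) ≤ 1 := by
        rw [Real.sqrt_le_one]
        exact h4
      have h6 := Real.sqrt_nonneg (R2 (‖x 0‖ ^ 2) (‖x 2‖ / Real.sqrt (d0 (‖x 0‖ ^ 2))))
      nlinarith
    · show ‖x 2‖ ≤ 2
      have h5 : Real.sqrt (d0 (‖x 0‖ ^ 2)) ≤ 1 := by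
        rw [Real.sqrt_le_one]
        exact hd1 _
      have h6 := Real.sqrt_nonneg (d0 (‖x 0‖ ^ 2))
      nlinarith
  · intro x hx
    obtain ⟨h0, h1, h2, h3, h4⟩ := hmem x hx
    rw [hM x]
    have hR := kc_R2_pos (‖x 0‖ ^ 2) (‖x 2‖ / Real.sqrt (d0 (‖x 0‖ ^ 2)))
    refine ⟨h1, ?_, ?_⟩
    · have h5 := Real.sq_sqrt h0.le
      have h6 := pow_le_pow_left₀ (norm_nonneg (x 2)) h2 2
      rw [mul_pow, h5] at h6
      exact kc_sq_lt hh0 hh1 h0 h6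
    · have h5 := Real.sq_sqrt hR.le
      have h6 := pow_le_pow_left₀ (norm_nonneg (x 1)) h3 2
      rw [mul_pow, h5] at h6
      exact kc_sq_lt hh0 hh1 hR h6
  · intro θ₁ θ₂ x
    simp only [KK, Set.mem_ofPred_eq, kc_norm_rot]

theorem kc_Gy_nonneg (t y : ℝ) : 0 ≤ Gy t y := by
  unfold Gy
  split_ifs
  · exact le_rfl
  · exact (Real.exp_pos _).le

theorem kc_Gy_big {t y : ℝ} (ht : 0 ≤ t) (hy : 1 ≤ y) : 1 < Gy t y := by
  unfold Gy
  rw [if_neg (by linarith)]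
  rw [Real.one_lt_exp_iff]
  have h1 : y ^ (-(1 / (1 + t))) ≤ 1 := by
    refine Real.rpow_le_one_of_one_le_of_nonpos hy ?_
    have : 0 < 1 / (1 + t) := by positivity
    linarith
  linarith

theorem kl_prop (hF : FFs_stmt) : KL_stmt := by
  intro h hh0 hh1
  have hFc : Continuous FF := ContDiff.continuous hF
  have hgc : Continuous (fun x : E3 => 1 - w0 (‖x 0‖ ^ 2) - Gy (‖x 0‖ ^ 2) (‖x 1‖ ^ 2)) := by
    have h1 : (fun x : E3 => 1 - w0 (‖x 0‖ ^ 2) - Gy (‖x 0‖ ^ 2) (‖x 1‖ ^ 2)) =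
        fun x : E3 => 1 - FF x + ‖x 2‖ ^ 2 := by
      funext x
      unfold FF
      ring
    rw [h1]
    exact (continuous_const.sub hFc).add (by fun_prop)
  have hw : ∀ t, 0 ≤ w0 t := fun t => DbarN.JCA1.om_nonneg (k1 := 1 / 100) (l1 := 100) t
  refine ⟨?_, ?_, ?_⟩
  · refine Metric.isCompact_of_isClosed_isBounded ?_ ?_
    · have hA1 : IsClosed {x : E3 | ‖x 0‖ ^ 2 ≤ 1004 / 1000} :=
        isClosed_le (by fun_prop) continuous_const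
      have hA2 : IsClosed {x : E3 | h ≤ 1 - w0 (‖x 0‖ ^ 2) - Gy (‖x 0‖ ^ 2) (‖x 1‖ ^ 2)} :=
        isClosed_le continuous_const hgc
      have hA3 : IsClosed {x : E3 | ‖x 2‖ ≤ (1 - h) *
          Real.sqrt (1 - w0 (‖x 0‖ ^ 2) - Gy (‖x 0‖ ^ 2) (‖x 1‖ ^ 2))} :=
        isClosed_le (by fun_prop) (continuous_const.mul (Real.continuous_sqrt.comp hgc))
      exact hA1.inter (hA2.inter hA3)
    · refine (Metric.isBounded_closedBall (x := (0 : E3)) (r := 2)).subset ?_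
      intro x hx
      obtain ⟨h1, h2, h3⟩ := hx
      rw [mem_closedBall_zero_iff, pi_norm_le_iff_of_nonneg (by norm_num)]
      intro i
      fin_cases i
      · show ‖x 0‖ ≤ 2
        nlinarith [norm_nonneg (x 0)]
      · show ‖x 1‖ ≤ 2
        by_contra hc
        push Not at hc
        have h4 := kc_Gy_big (t := ‖x 0‖ ^ 2) (y := ‖x 1‖ ^ 2) (by positivity) (by nlinarith)
        have h5 := hw (‖x 0‖ ^ 2)
        linarith
      · show ‖x 2‖ ≤ 2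
        have h5 : Real.sqrt (1 - w0 (‖x 0‖ ^ 2) - Gy (‖x 0‖ ^ 2) (‖x 1‖ ^ 2)) ≤ 1 := by
          rw [Real.sqrt_le_one]
          have h5 := hw (‖x 0‖ ^ 2)
          have h6 := kc_Gy_nonneg (‖x 0‖ ^ 2) (‖x 1‖ ^ 2)
          linarith
        have h6 := Real.sqrt_nonneg (1 - w0 (‖x 0‖ ^ 2) - Gy (‖x 0‖ ^ 2) (‖x 1‖ ^ 2))
        nlinarith
  · intro x hx
    obtain ⟨h1, h2, h3⟩ := hx
    refine ⟨by linarith, ?_⟩
    have h4 : 0 ≤ 1 - w0 (‖x 0‖ ^ 2) - Gy (‖x 0‖ ^ 2) (‖x 1‖ ^ 2) := by linarith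
    have h5 := Real.sq_sqrt h4
    have h6 := pow_le_pow_left₀ (norm_nonneg (x 2)) h3 2
    rw [mul_pow, h5] at h6
    have h7 := kc_sq_lt hh0 hh1 (lt_of_lt_of_le hh0 h2) h6
    unfold FF
    linarith
  · intro θ₁ θ₂ x
    simp only [KL, Set.mem_ofPred_eq, kc_norm_rot]

end DbarC.JKC
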