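import Pool.Agent.H314.DC.St1

set_option autoImplicit false

open MeasureTheory Complex Filter Topology
open scoped ContDiff InnerProductSpace ENNReal ComplexConjugate

namespace DbarC.JKV.KV
open DbarN

/-! ### calculus of `dbar`, `dz` -/

theorem kV_fd {v : E3 → ℂ} (hv : ContDiff ℝ ∞ v) (e : E3) :
    ContDiff ℝ ∞ (fun x => fderiv ℝ v x e) :=
  (hv.fderiv_right (m := ∞) (by simp)).clm_apply contDiff_const

theorem kV_dbar_smooth {v : E3 → ℂ} (hv : ContDiff ℝ ∞ v) (j : Fin 3) :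
    ContDiff ℝ ∞ (dbar j v) := by
  unfold dbar
  exact contDiff_const.mul ((kV_fd hv _).add (contDiff_const.mul (kV_fd hv _)))

theorem kV_dz_smooth {v : E3 → ℂ} (hv : ContDiff ℝ ∞ v) (j : Fin 3) :
    ContDiff ℝ ∞ (dz j v) := by
  unfold dz
  exact contDiff_const.mul ((kV_fd hv _).sub (contDiff_const.mul (kV_fd hv _)))

theorem kV_diff {v : E3 → ℂ} (hv : ContDiff ℝ ∞ v) (x : E3) : DifferentiableAt ℝ v x :=
  (hv.differentiable (by simp)) x

theorem kV_dbar_cs {v : E3 → ℂ} (hv : HasCompactSupport v) (j : Fin 3) :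
    HasCompactSupport (dbar j v) := by
  unfold dbar
  have h1 := hv.fderiv_apply ℝ (Pi.single j 1)
  have h2 := (hv.fderiv_apply ℝ (Pi.single j I)).mul_left (f := fun _ => I)
  exact (h1.add h2).mul_left (f := fun _ => (1 / 2 : ℂ))

theorem kV_dz_cs {v : E3 → ℂ} (hv : HasCompactSupport v) (j : Fin 3) :
    HasCompactSupport (dz j v) := by
  unfold dz
  have h1 := hv.fderiv_apply ℝ (Pi.single j 1)
  have h2 := (hv.fderiv_apply ℝ (Pi.single j I)).mul_left (f := fun _ => I)
  exact (h1.sub h2).mul_left (f := fun _ => (1 / 2 : ℂ))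

theorem kV_Ph {Φ : E3 → ℝ} (hΦ : ContDiff ℝ ∞ Φ) : ContDiff ℝ ∞ (Ph Φ) := by
  unfold Ph
  exact Complex.ofRealCLM.contDiff.comp hΦ

theorem kV_test {v : E3 → ℂ} (h1 : ContDiff ℝ ∞ v) (h2 : HasCompactSupport v) :
    IsTest Set.univ v := ⟨h1, h2, Set.subset_univ _⟩

theorem kV_AA_test {Φ : E3 → ℝ} (hΦ : ContDiff ℝ ∞ Φ) (j : Fin 3) {v : E3 → ℂ}
    (hv : IsTest Set.univ v) : IsTest Set.univ (AA Φ j v) := by
  apply kV_test
  · unfold AA
    exact (kV_dbar_smooth hv.smooth j).add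
      ((contDiff_const.mul (kV_dbar_smooth (kV_Ph hΦ) j)).mul hv.smooth)
  · unfold AA
    exact (kV_dbar_cs hv.compact j).add
      (hv.compact.mul_left (f := fun x => (1 / 2) * dbar j (Ph Φ) x))

theorem kV_AS_test {Φ : E3 → ℝ} (hΦ : ContDiff ℝ ∞ Φ) (j : Fin 3) {v : E3 → ℂ}
    (hv : IsTest Set.univ v) : IsTest Set.univ (AS Φ j v) := by
  apply kV_test
  · unfold AS
    exact (kV_dz_smooth hv.smooth j).neg.add
      ((contDiff_const.mul (kV_dz_smooth (kV_Ph hΦ) j)).mul hv.smooth)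
  · unfold AS
    exact (kV_dz_cs hv.compact j).neg.add
      (hv.compact.mul_left (f := fun x => (1 / 2) * dz j (Ph Φ) x))

theorem kV_conj_test {v : E3 → ℂ} (hv : IsTest Set.univ v) :
    IsTest Set.univ (fun x => conj (v x)) := by
  apply kV_test
  · exact Complex.conjCLE.contDiff.comp hv.smooth
  · exact hv.compact.comp_left (g := fun z => conj z) (map_zero _)

theorem kV_mul_test {u v : E3 → ℂ} (hu : ContDiff ℝ ∞ u) (hv : IsTest Set.univ v) :
    IsTest Set.univ (fun x => u x * v x) :=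
  kV_test (hu.mul hv.smooth) (hv.compact.mul_left (f := u))

theorem kV_int {v : E3 → ℂ} (hv : IsTest Set.univ v) : Integrable v :=
  hv.smooth.continuous.integrable_of_hasCompactSupport hv.compact

/-- first order product rule -/
theorem kV_fd_rule {p q r : E3 → ℂ} {x : E3} (hp : DifferentiableAt ℝ p x)
    (hq : DifferentiableAt ℝ q x) (hr : DifferentiableAt ℝ r x) (s : ℂ) (e : E3) :
    fderiv ℝ (fun y => s * p y + (1 / 2) * q y * r y) x e
      = s * fderiv ℝ p x e + (1 / 2) * (fderiv ℝ q x e * r x + q x * fderiv ℝ r x e) := by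
  have h := ((hp.hasFDerivAt.const_mul s).add
    ((hq.hasFDerivAt.const_mul (1 / 2 : ℂ)).mul hr.hasFDerivAt)).fderiv
  have e1 : (fun y => s * p y + (1 / 2) * q y * r y)
      = ((fun y => s * p y) + fun y => (1 / 2) * q y * r y) := rfl
  rw [e1]
  have h' := congrArg (fun T : E3 →L[ℝ] ℂ => T e) h
  refine h'.trans ?_
  simp only [_root_.add_apply, _root_.smul_apply, smul_eq_mul]
  ring

theorem kV_dbar_rule {p q r : E3 → ℂ} {x : E3} (hp : DifferentiableAt ℝ p x)
    (hq : DifferentiableAt ℝ q x) (hr : DifferentiableAt ℝ r x) (s : ℂ) (j : Fin 3) :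
    dbar j (fun y => s * p y + (1 / 2) * q y * r y) x
      = s * dbar j p x + (1 / 2) * (dbar j q x * r x + q x * dbar j r x) := by
  unfold dbar
  rw [kV_fd_rule hp hq hr, kV_fd_rule hp hq hr]
  ring

theorem kV_dz_rule {p q r : E3 → ℂ} {x : E3} (hp : DifferentiableAt ℝ p x)
    (hq : DifferentiableAt ℝ q x) (hr : DifferentiableAt ℝ r x) (s : ℂ) (j : Fin 3) :
    dz j (fun y => s * p y + (1 / 2) * q y * r y) x
      = s * dz j p x + (1 / 2) * (dz j q x * r x + q x * dz j r x) := by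
  unfold dz
  rw [kV_fd_rule hp hq hr, kV_fd_rule hp hq hr]
  ring

/-- second derivatives -/
theorem kV_symm {v : E3 → ℂ} (hv : ContDiff ℝ ∞ v) (x e e' : E3) :
    fderiv ℝ (fun y => fderiv ℝ v y e) x e' = fderiv ℝ (fun y => fderiv ℝ v y e') x e := by
  have hd : DifferentiableAt ℝ (fderiv ℝ v) x :=
    ((hv.fderiv_right (m := ∞) (by simp)).differentiable (by simp)) x
  have h1 : ∀ a b : E3, fderiv ℝ (fun y => fderiv ℝ v y a) x b
      = fderiv ℝ (fderiv ℝ v) x b a := by
    intro a b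
    have := (hd.hasFDerivAt.clm_apply (hasFDerivAt_const a x)).fderiv
    rw [this]
    simp
  rw [h1, h1]
  have hs : IsSymmSndFDerivAt ℝ v x := by
    apply (hv.contDiffAt (x := x)).isSymmSndFDerivAt
    simp only [minSmoothness_of_isRCLikeNormedField]
    exact WithTop.coe_le_coe.2 le_top
  exact hs.eq e' e

theorem kV_fd_lin {p q : E3 → ℂ} {x : E3} (hp : DifferentiableAt ℝ p x)
    (hq : DifferentiableAt ℝ q x) (s : ℂ) (e : E3) :
    fderiv ℝ (fun y => (1 / 2) * (p y + s * q y)) x e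
      = (1 / 2) * (fderiv ℝ p x e + s * fderiv ℝ q x e) := by
  have h := ((hp.hasFDerivAt.add (hq.hasFDerivAt.const_mul s)).const_mul (1 / 2 : ℂ)).fderiv
  have h' := congrArg (fun T : E3 →L[ℝ] ℂ => T e) h
  refine h'.trans ?_
  simp only [_root_.add_apply, _root_.smul_apply, smul_eq_mul]

theorem kV_comm {v : E3 → ℂ} (hv : ContDiff ℝ ∞ v) (j k : Fin 3) (x : E3) :
    dbar j (dz k v) x = dz k (dbar j v) x := by
  have hd : ∀ e : E3, DifferentiableAt ℝ (fun y => fderiv ℝ v y e) x :=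
    fun e => kV_diff (kV_fd hv e) x
  have h1 : ∀ e, fderiv ℝ (dz k v) x e = (1 / 2) *
      (fderiv ℝ (fun y => fderiv ℝ v y (Pi.single k 1)) x e
        + (-I) * fderiv ℝ (fun y => fderiv ℝ v y (Pi.single k I)) x e) := by
    intro e
    rw [← kV_fd_lin (hd _) (hd _)]
    congr 2
    funext y
    simp only [dz]
    ring
  have h2 : ∀ e, fderiv ℝ (dbar j v) x e = (1 / 2) *
      (fderiv ℝ (fun y => fderiv ℝ v y (Pi.single j 1)) x e
        + I * fderiv ℝ (fun y => fderiv ℝ v y (Pi.single j I)) x e) := by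
    intro e
    rw [← kV_fd_lin (hd _) (hd _)]
    rfl
  have e1 : dbar j (dz k v) x = (1 / 2) * (fderiv ℝ (dz k v) x (Pi.single j 1)
      + I * fderiv ℝ (dz k v) x (Pi.single j I)) := rfl
  have e2 : dz k (dbar j v) x = (1 / 2) * (fderiv ℝ (dbar j v) x (Pi.single k 1)
      - I * fderiv ℝ (dbar j v) x (Pi.single k I)) := rfl
  rw [e1, e2, h1, h1, h2, h2, kV_symm hv x (Pi.single k 1) (Pi.single j 1),
    kV_symm hv x (Pi.single k 1) (Pi.single j I), kV_symm hv x (Pi.single k I) (Pi.single j 1),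
    kV_symm hv x (Pi.single k I) (Pi.single j I)]
  ring

/-- the commutator -/
theorem kV_commutator {Φ : E3 → ℝ} (hΦ : ContDiff ℝ ∞ Φ) {v : E3 → ℂ} (hv : ContDiff ℝ ∞ v)
    (j k : Fin 3) (x : E3) :
    AS Φ k (AA Φ j v) x = AA Φ j (AS Φ k v) x - Hess Φ k j x * v x := by
  have hP := kV_Ph hΦ
  have e1 : AA Φ j v = fun y => (1 : ℂ) * dbar j v y + (1 / 2) * dbar j (Ph Φ) y * v y := by
    funext y; simp only [AA, one_mul]
  have e2 : AS Φ k v = fun y => (-1 : ℂ) * dz k v y + (1 / 2) * dz k (Ph Φ) y * v y := by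
    funext y; simp only [AS]; ring
  have h1 : AS Φ k (AA Φ j v) x = - dz k (AA Φ j v) x + (1 / 2) * dz k (Ph Φ) x * AA Φ j v x := rfl
  have h2 : AA Φ j (AS Φ k v) x = dbar j (AS Φ k v) x + (1 / 2) * dbar j (Ph Φ) x * AS Φ k v x :=
    rfl
  rw [h1, h2, e1, e2, kV_dz_rule (kV_diff (kV_dbar_smooth hv j) x)
    (kV_diff (kV_dbar_smooth hP j) x) (kV_diff hv x),
    kV_dbar_rule (kV_diff (kV_dz_smooth hv k) x)
    (kV_diff (kV_dz_smooth hP k) x) (kV_diff hv x), kV_comm hv, kV_comm hP]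
  have h3 : Hess Φ k j x = dz k (dbar j (Ph Φ)) x := rfl
  rw [h3]
  ring

/-- conjugation -/
theorem kV_fd_conj {v : E3 → ℂ} {x : E3} (hv : DifferentiableAt ℝ v x) (e : E3) :
    fderiv ℝ (fun y => conj (v y)) x e = conj (fderiv ℝ v x e) := by
  have h : HasFDerivAt (fun y => conj (v y))
      ((Complex.conjCLE : ℂ →L[ℝ] ℂ).comp (fderiv ℝ v x)) x :=
    (Complex.conjCLE : ℂ →L[ℝ] ℂ).hasFDerivAt.comp x hv.hasFDerivAt
  rw [h.fderiv]
  rfl

theorem kV_conj_dz {v : E3 → ℂ} {x : E3} (hv : DifferentiableAt ℝ v x) (j : Fin 3) :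
    conj (dz j v x) = dbar j (fun y => conj (v y)) x := by
  unfold dz dbar
  rw [kV_fd_conj hv, kV_fd_conj hv]
  simp only [map_mul, map_sub, Complex.conj_I, map_div₀, map_one, Complex.conj_ofNat]
  ring

theorem kV_conj_dz_Ph {Φ : E3 → ℝ} (hΦ : ContDiff ℝ ∞ Φ) (j : Fin 3) (x : E3) :
    conj (dz j (Ph Φ) x) = dbar j (Ph Φ) x := by
  rw [kV_conj_dz (kV_diff (kV_Ph hΦ) x)]
  congr 1
  funext y
  simp [Ph]

/-- integration by parts -/
theorem kV_ibp_fd {a b : E3 → ℂ} (ha : IsTest Set.univ a) (hb : IsTest Set.univ b) (e : E3) :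
    ∫ x, fderiv ℝ a x e * b x = - ∫ x, a x * fderiv ℝ b x e := by
  have h := integral_mul_fderiv_eq_neg_fderiv_mul_of_integrable (μ := (volume : Measure E3))
    (f := a) (g := b) (v := e)
    (kV_int (kV_mul_test (kV_fd ha.smooth e) hb))
    (kV_int (kV_test (ha.smooth.mul (kV_fd hb.smooth e)) (ha.compact.mul_right)))
    (kV_int (kV_mul_test ha.smooth hb))
    (fun x _ => kV_diff ha.smooth x) (fun x _ => kV_diff hb.smooth x)
  rw [h, neg_neg]

theorem kV_ibp {a b : E3 → ℂ} (ha : IsTest Set.univ a) (hb : IsTest Set.univ b) (j : Fin 3) :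
    ∫ x, dbar j a x * b x = - ∫ x, a x * dbar j b x := by
  have i1 : ∀ e, Integrable (fun x => fderiv ℝ a x e * b x) :=
    fun e => kV_int (kV_mul_test (kV_fd ha.smooth e) hb)
  have i2 : ∀ e, Integrable (fun x => a x * fderiv ℝ b x e) :=
    fun e => kV_int (kV_test (ha.smooth.mul (kV_fd hb.smooth e)) (ha.compact.mul_right))
  have h1 : (fun x => dbar j a x * b x) = fun x => (1 / 2) *
      (fderiv ℝ a x (Pi.single j 1) * b x) + (I / 2) * (fderiv ℝ a x (Pi.single j I) * b x) := by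
    funext x; simp only [dbar]; ring
  have h2 : (fun x => a x * dbar j b x) = fun x => (1 / 2) *
      (a x * fderiv ℝ b x (Pi.single j 1)) + (I / 2) * (a x * fderiv ℝ b x (Pi.single j I)) := by
    funext x; simp only [dbar]; ring
  rw [h1, h2, integral_add ((i1 _).const_mul _) ((i1 _).const_mul _),
    integral_add ((i2 _).const_mul _) ((i2 _).const_mul _), integral_const_mul,
    integral_const_mul, integral_const_mul, integral_const_mul, kV_ibp_fd ha hb,
    kV_ibp_fd ha hb]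
  ring

/-- adjoint relation -/
theorem kV_adj {Φ : E3 → ℝ} (hΦ : ContDiff ℝ ∞ Φ) {a b : E3 → ℂ} (ha : IsTest Set.univ a)
    (hb : IsTest Set.univ b) (j : Fin 3) :
    ∫ x, AA Φ j a x * conj (b x) = ∫ x, a x * conj (AS Φ j b x) := by
  have hcb := kV_conj_test hb
  have hP := kV_Ph hΦ
  have h1 : (fun x => AA Φ j a x * conj (b x)) = fun x => dbar j a x * conj (b x)
      + (1 / 2) * dbar j (Ph Φ) x * (a x * conj (b x)) := by
    funext x; simp only [AA]; ring
  have h2 : (fun x => a x * conj (AS Φ j b x)) = fun x => -(a x * dbar j (fun y => conj (b y)) x)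
      + (1 / 2) * dbar j (Ph Φ) x * (a x * conj (b x)) := by
    funext x
    simp only [AS, map_add, map_neg, map_mul, map_div₀, map_one, Complex.conj_ofNat]
    rw [kV_conj_dz_Ph hΦ, kV_conj_dz (kV_diff hb.smooth x)]
    ring
  have i3 : Integrable (fun x => (1 / 2) * dbar j (Ph Φ) x * (a x * conj (b x))) :=
    kV_int (kV_mul_test (contDiff_const.mul (kV_dbar_smooth hP j)) (kV_mul_test ha.smooth hcb))
  have i1 : Integrable (fun x => dbar j a x * conj (b x)) :=
    kV_int (kV_mul_test (kV_dbar_smooth ha.smooth j) hcb)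
  have i2 : Integrable (fun x => a x * dbar j (fun y => conj (b y)) x) :=
    kV_int (kV_test (ha.smooth.mul (kV_dbar_smooth hcb.smooth j)) (ha.compact.mul_right))
  have i2' : Integrable (fun x => -(a x * dbar j (fun y => conj (b y)) x)) := i2.neg
  rw [h1, h2, integral_add i1 i3, integral_add i2' i3, integral_neg, kV_ibp ha hcb]

theorem kV_adj' {Φ : E3 → ℝ} (hΦ : ContDiff ℝ ∞ Φ) {a b : E3 → ℂ} (ha : IsTest Set.univ a)
    (hb : IsTest Set.univ b) (j : Fin 3) :
    ∫ x, a x * conj (AA Φ j b x) = ∫ x, AS Φ j a x * conj (b x) := by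
  have h := congrArg conj (kV_adj hΦ hb ha j)
  rw [← integral_conj, ← integral_conj] at h
  simp only [map_mul, Complex.conj_conj] at h
  have e1 : (fun x => a x * conj (AA Φ j b x)) = fun x => conj (AA Φ j b x) * a x := by
    funext x; ring
  have e2 : (fun x => AS Φ j a x * conj (b x)) = fun x => conj (b x) * AS Φ j a x := by
    funext x; ring
  rw [e1, e2, h]

theorem kV_ip_int {a b : E3 → ℂ} (ha : IsTest Set.univ a) (hb : IsTest Set.univ b) :
    Integrable (fun x => a x * conj (b x)) :=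
  kV_int (kV_mul_test ha.smooth (kV_conj_test hb))

theorem kV_hess_smooth {Φ : E3 → ℝ} (hΦ : ContDiff ℝ ∞ Φ) (j k : Fin 3) :
    ContDiff ℝ ∞ (Hess Φ j k) := by
  unfold Hess
  exact kV_dz_smooth (kV_dbar_smooth (kV_Ph hΦ) k) j

theorem kV_hess_int {Φ : E3 → ℝ} (hΦ : ContDiff ℝ ∞ Φ) (j k : Fin 3) {a b : E3 → ℂ}
    (ha : IsTest Set.univ a) (hb : IsTest Set.univ b) :
    Integrable (fun x => Hess Φ j k x * (a x * conj (b x))) :=
  kV_int (kV_mul_test (kV_hess_smooth hΦ j k) (kV_mul_test ha.smooth (kV_conj_test hb)))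

/-- step (4) -/
theorem kV_step {Φ : E3 → ℝ} (hΦ : ContDiff ℝ ∞ Φ) {a b : E3 → ℂ} (ha : IsTest Set.univ a)
    (hb : IsTest Set.univ b) (j k : Fin 3) :
    ∫ x, AA Φ j a x * conj (AA Φ k b x) = (∫ x, AS Φ k a x * conj (AS Φ j b x))
      - ∫ x, Hess Φ k j x * (a x * conj (b x)) := by
  rw [kV_adj' hΦ (kV_AA_test hΦ j ha) hb k, ← kV_adj hΦ (kV_AS_test hΦ k ha) hb j,
    ← integral_sub (kV_ip_int (kV_AA_test hΦ j (kV_AS_test hΦ k ha)) hb)
      (kV_hess_int hΦ k j ha hb)]
  congr 1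
  funext x
  rw [kV_commutator hΦ ha.smooth]
  ring

theorem kV_expand {p q : E3 → ℂ} (hp : IsTest Set.univ p) (hq : IsTest Set.univ q) :
    ∫ x, (p x - q x) * conj (p x - q x) = (∫ x, p x * conj (p x)) + (∫ x, q x * conj (q x))
      - (∫ x, p x * conj (q x)) - ∫ x, q x * conj (p x) := by
  have e : (fun x => (p x - q x) * conj (p x - q x)) = fun x =>
      (p x * conj (p x) + q x * conj (q x)) - (p x * conj (q x) + q x * conj (p x)) := by
    funext x
    rw [map_sub]
    ring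
  have i1 : Integrable (fun x => p x * conj (p x) + q x * conj (q x)) :=
    (kV_ip_int hp hp).add (kV_ip_int hq hq)
  have i2 : Integrable (fun x => p x * conj (q x) + q x * conj (p x)) :=
    (kV_ip_int hp hq).add (kV_ip_int hq hp)
  rw [e, integral_sub i1 i2, integral_add (kV_ip_int hp hp) (kV_ip_int hq hq),
    integral_add (kV_ip_int hp hq) (kV_ip_int hq hp)]
  ring

theorem kV_total {Φ : E3 → ℝ} (hΦ : ContDiff ℝ ∞ Φ) (g : Fin 3 → E3 → ℂ)
    (hg : ∀ j, IsTest Set.univ (g j)) :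
    (∫ x, (∑ j, AA Φ j (g j) x) * conj (∑ j, AA Φ j (g j) x)) +
      ∑ k : Fin 3, ∫ x, (AS Φ (k + 2) (g (k + 1)) x - AS Φ (k + 1) (g (k + 2)) x) *
        conj (AS Φ (k + 2) (g (k + 1)) x - AS Φ (k + 1) (g (k + 2)) x)
    = (∑ j, ∑ k, ∫ x, AA Φ j (g k) x * conj (AA Φ j (g k) x)) +
      ∫ x, ((∑ j, Hess Φ j j x) * (∑ k, g k x * conj (g k x)) -
        ∑ j, ∑ k, Hess Φ k j x * (g j x * conj (g k x))) := by
  have hA : ∀ j k, IsTest Set.univ (AA Φ j (g k)) := fun j k => kV_AA_test hΦ j (hg k)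
  have hS : ∀ j k, IsTest Set.univ (AS Φ j (g k)) := fun j k => kV_AS_test hΦ j (hg k)
  have iS : ∀ j k l m, Integrable (fun x => AS Φ j (g k) x * conj (AS Φ l (g m) x)) :=
    fun j k l m => kV_ip_int (hS j k) (hS l m)
  have iH : ∀ j k l m, Integrable (fun x => Hess Φ j k x * (g l x * conj (g m x))) :=
    fun j k l m => kV_hess_int hΦ j k (hg l) (hg m)
  -- first term
  have h1 : (∫ x, (∑ j, AA Φ j (g j) x) * conj (∑ j, AA Φ j (g j) x))
      = ∑ j, ∑ k, ((∫ x, AS Φ k (g j) x * conj (AS Φ j (g k) x))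
        - ∫ x, Hess Φ k j x * (g j x * conj (g k x))) := by
    have e : (fun x => (∑ j, AA Φ j (g j) x) * conj (∑ j, AA Φ j (g j) x))
        = fun x => ∑ j, ∑ k, AA Φ j (g j) x * conj (AA Φ k (g k) x) := by
      funext x
      rw [map_sum, Finset.sum_mul_sum]
    rw [e, integral_finsetSum _ (fun j _ => integrable_finsetSum _
      (fun k _ => kV_ip_int (hA j j) (hA k k)))]
    apply Finset.sum_congr rfl
    intro j _
    rw [integral_finsetSum _ (fun k _ => kV_ip_int (hA j j) (hA k k))]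
    apply Finset.sum_congr rfl
    intro k _
    exact kV_step hΦ (hg j) (hg k) j k
  -- second term
  have h2 : (∑ k : Fin 3, ∫ x, (AS Φ (k + 2) (g (k + 1)) x - AS Φ (k + 1) (g (k + 2)) x) *
        conj (AS Φ (k + 2) (g (k + 1)) x - AS Φ (k + 1) (g (k + 2)) x))
      = (∑ j, ∑ k, ∫ x, AS Φ j (g k) x * conj (AS Φ j (g k) x))
        - ∑ j, ∑ k, ∫ x, AS Φ k (g j) x * conj (AS Φ j (g k) x) := by
    have e : ∀ k : Fin 3, ∫ x, (AS Φ (k + 2) (g (k + 1)) x - AS Φ (k + 1) (g (k + 2)) x) *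
        conj (AS Φ (k + 2) (g (k + 1)) x - AS Φ (k + 1) (g (k + 2)) x)
        = (∫ x, AS Φ (k + 2) (g (k + 1)) x * conj (AS Φ (k + 2) (g (k + 1)) x))
          + (∫ x, AS Φ (k + 1) (g (k + 2)) x * conj (AS Φ (k + 1) (g (k + 2)) x))
          - (∫ x, AS Φ (k + 2) (g (k + 1)) x * conj (AS Φ (k + 1) (g (k + 2)) x))
          - ∫ x, AS Φ (k + 1) (g (k + 2)) x * conj (AS Φ (k + 2) (g (k + 1)) x) := by
      intro k
      exact kV_expand (hS _ _) (hS _ _)
    simp only [e, Fin.sum_univ_three]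
    have a1 : (0 : Fin 3) + 1 = 1 := rfl
    have a2 : (0 : Fin 3) + 2 = 2 := rfl
    have a3 : (1 : Fin 3) + 1 = 2 := rfl
    have a4 : (1 : Fin 3) + 2 = 0 := rfl
    have a5 : (2 : Fin 3) + 1 = 0 := rfl
    have a6 : (2 : Fin 3) + 2 = 1 := rfl
    rw [a1, a2, a3, a4, a5, a6]
    ring
  -- diagonal
  have h3 : ∀ j k, ∫ x, AS Φ j (g k) x * conj (AS Φ j (g k) x)
      = (∫ x, AA Φ j (g k) x * conj (AA Φ j (g k) x))
        + ∫ x, Hess Φ j j x * (g k x * conj (g k x)) := by
    intro j k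
    rw [kV_step hΦ (hg k) (hg k) j j]
    ring
  have h4 : (∫ x, ((∑ j, Hess Φ j j x) * (∑ k, g k x * conj (g k x)) -
        ∑ j, ∑ k, Hess Φ k j x * (g j x * conj (g k x))))
      = (∑ j, ∑ k, ∫ x, Hess Φ j j x * (g k x * conj (g k x)))
        - ∑ j, ∑ k, ∫ x, Hess Φ k j x * (g j x * conj (g k x)) := by
    have e : (fun x => ((∑ j, Hess Φ j j x) * (∑ k, g k x * conj (g k x)) -
        ∑ j, ∑ k, Hess Φ k j x * (g j x * conj (g k x))))
        = fun x => (∑ j, ∑ k, Hess Φ j j x * (g k x * conj (g k x))) -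
        ∑ j, ∑ k, Hess Φ k j x * (g j x * conj (g k x)) := by
      funext x
      rw [Finset.sum_mul_sum]
    rw [e, integral_sub (integrable_finsetSum _ (fun j _ => integrable_finsetSum _
      (fun k _ => iH j j k k))) (integrable_finsetSum _ (fun j _ => integrable_finsetSum _
      (fun k _ => iH k j j k)))]
    congr 1
    · rw [integral_finsetSum _ (fun j _ => integrable_finsetSum _ (fun k _ => iH j j k k))]
      apply Finset.sum_congr rfl
      intro j _
      rw [integral_finsetSum _ (fun k _ => iH j j k k)]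
    · rw [integral_finsetSum _ (fun j _ => integrable_finsetSum _ (fun k _ => iH k j j k))]
      apply Finset.sum_congr rfl
      intro j _
      rw [integral_finsetSum _ (fun k _ => iH k j j k)]
  rw [h1, h2, h4]
  simp only [h3, Finset.sum_sub_distrib, Finset.sum_add_distrib]
  ring


end DbarC.JKV.KV

namespace DbarC.JKV
open DbarN DbarC.JKV.KV

theorem kohn2V : Kohn2V_stmt := by
  intro Φ hΦ c B hcm hc1 hcB hH g hg
  have hT := kV_total hΦ g hg
  have hsq : ∀ f : E3 → ℂ, ((∫ x, ‖f x‖ ^ 2 : ℝ) : ℂ) = ∫ x, f x * conj (f x) := by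
    intro f
    refine (integral_ofReal (𝕜 := ℂ)).symm.trans ?_
    congr 1
    funext x
    rw [Complex.mul_conj, Complex.normSq_eq_norm_sq]
    rfl
  have hre := congrArg Complex.re hT
  simp only [← hsq] at hre
  rw [Complex.add_re, Complex.add_re, Complex.re_sum, Complex.ofReal_re, Complex.re_sum] at hre
  simp only [Complex.ofReal_re, Complex.re_sum] at hre
  rw [hre]
  have hpos : 0 ≤ ∑ j : Fin 3, ∑ k : Fin 3, ∫ x, ‖AA Φ j (g k) x‖ ^ 2 :=
    Finset.sum_nonneg fun j _ => Finset.sum_nonneg fun k _ =>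
      integral_nonneg fun x => by positivity
  have iH : ∀ j k l m, Integrable (fun x => Hess Φ j k x * (g l x * conj (g m x))) :=
    fun j k l m => kV_hess_int hΦ j k (hg l) (hg m)
  have hI : Integrable (fun x => ((∑ j, Hess Φ j j x) * (∑ k, g k x * conj (g k x)) -
        ∑ j, ∑ k, Hess Φ k j x * (g j x * conj (g k x)))) := by
    have e : (fun x => ((∑ j, Hess Φ j j x) * (∑ k, g k x * conj (g k x)) -
        ∑ j, ∑ k, Hess Φ k j x * (g j x * conj (g k x))))
        = fun x => (∑ j, ∑ k, Hess Φ j j x * (g k x * conj (g k x))) -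
        ∑ j, ∑ k, Hess Φ k j x * (g j x * conj (g k x)) := by
      funext x
      rw [Finset.sum_mul_sum]
    rw [e]
    exact (integrable_finsetSum _ (fun j _ => integrable_finsetSum _
      (fun k _ => iH j j k k))).sub (integrable_finsetSum _ (fun j _ => integrable_finsetSum _
      (fun k _ => iH k j j k)))
  have hgi : ∀ j, Integrable (fun x => ‖g j x‖ ^ 2) := by
    intro j
    have h1 := (kV_ip_int (hg j) (hg j)).re
    refine h1.congr (Filter.Eventually.of_forall fun x => ?_)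
    simp only
    change (g j x * conj (g j x)).re = _
    rw [Complex.mul_conj, Complex.normSq_eq_norm_sq]
    rfl
  have hre2 : (∫ x, ((∑ j, Hess Φ j j x) * (∑ k, g k x * conj (g k x)) -
        ∑ j, ∑ k, Hess Φ k j x * (g j x * conj (g k x)))).re
      = ∫ x, ((∑ j, Hess Φ j j x) * (∑ k, g k x * conj (g k x)) -
        ∑ j, ∑ k, Hess Φ k j x * (g j x * conj (g k x))).re :=
    (integral_re hI).symm
  have hgs : Integrable (fun x => ∑ j, ‖g j x‖ ^ 2) :=
    integrable_finsetSum _ (fun j _ => hgi j)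
  have hci : Integrable (fun x => c x * ∑ j, ‖g j x‖ ^ 2) := by
    refine (hgs.const_mul B).mono' (hcm.aestronglyMeasurable.mul hgs.aestronglyMeasurable) ?_
    refine Filter.Eventually.of_forall fun x => ?_
    have h0 : 0 ≤ ∑ j, ‖g j x‖ ^ 2 := Finset.sum_nonneg fun j _ => by positivity
    have hc0 : 0 ≤ c x := by linarith [hc1 x]
    rw [Real.norm_eq_abs, abs_of_nonneg (mul_nonneg hc0 h0)]
    exact mul_le_mul_of_nonneg_right (hcB x) h0
  have hmain : ∫ x, c x * ∑ j, ‖g j x‖ ^ 2 ≤ ∫ x, ((∑ j, Hess Φ j j x) *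
      (∑ k, g k x * conj (g k x)) - ∑ j, ∑ k, Hess Φ k j x * (g j x * conj (g k x))).re := by
    apply integral_mono hci hI.re
    intro x
    have h1 := hH x (fun j => g j x)
    refine h1.trans (le_of_eq ?_)
    change _ = ((∑ j, Hess Φ j j x) * (∑ k, g k x * conj (g k x)) -
        ∑ j, ∑ k, Hess Φ k j x * (g j x * conj (g k x))).re
    congr 2
    · congr 1
      apply Finset.sum_congr rfl
      intro k _
      rw [Complex.mul_conj, Complex.normSq_eq_norm_sq]
      push_cast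
      rfl
    · apply Finset.sum_congr rfl
      intro j _
      apply Finset.sum_congr rfl
      intro k _
      ring
  rw [hre2]
  linarith

end DbarC.JKV
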