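import Pool.Agent.H314.DC.St1
import Pool.Agent.H314.DN.MO

set_option autoImplicit false

open MeasureTheory Complex Filter Topology
open scoped ContDiff InnerProductSpace ENNReal ComplexConjugate

namespace DbarC.JMOs
open DbarN

theorem choose_deltaS (Ω : Set E3) (hΩ : IsOpen Ω) (hstar : StarS Ω)
    (hb : Bornology.IsBounded Ω) (r ε : ℝ) (hr0 : 0 < r) (hr1 : r < 1)
    (hε : 0 < ε) : ∃ (δ : ℝ) (U : Set E3), 0 < δ ∧ δ ≤ ε ∧ IsOpen U ∧ closure Ω ⊆ U ∧
      ∀ x ∈ U, Metric.closedBall (r • x) δ ⊆ Ω := by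
  have hK : IsCompact ((fun x : E3 => r • x) '' closure Ω) :=
    (hb.isCompact_closure).image (continuous_const_smul r)
  have hKΩ : (fun x : E3 => r • x) '' closure Ω ⊆ Ω := by
    rintro _ ⟨x, hx, rfl⟩
    exact hstar x hx r hr0.le hr1
  obtain ⟨δ₀, hδ₀, hsub⟩ := hK.exists_cthickening_subset_open hΩ hKΩ
  refine ⟨min (δ₀ / 2) ε, (fun x : E3 => r • x) ⁻¹'
    Metric.thickening (δ₀ / 2) ((fun x : E3 => r • x) '' closure Ω), lt_min (by linarith) hε,
    min_le_right _ _, ?_, ?_, ?_⟩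
  · exact Metric.isOpen_thickening.preimage (continuous_const_smul r)
  · intro x hx
    exact Metric.self_subset_thickening (by linarith) _ ⟨x, hx, rfl⟩
  · intro x hx y hy
    have hx' : r • x ∈ Metric.thickening (δ₀ / 2) ((fun x : E3 => r • x) '' closure Ω) := hx
    rw [Metric.mem_thickening_iff] at hx'
    obtain ⟨k, hk, hxk⟩ := hx'
    refine hsub (Metric.mem_cthickening_of_dist_le y k δ₀ _ hk ?_)
    have h1 : dist y (r • x) ≤ δ₀ / 2 := (Metric.mem_closedBall.1 hy).trans (min_le_left _ _)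
    linarith [dist_triangle y (r • x) k]

theorem TT_zeroS {δ r D : ℝ} (hδ : 0 < δ) (hδ1 : δ ≤ 1) (hr : 1 / 2 ≤ r) (h : E3 → ℂ)
    (hD : ∀ t, h t ≠ 0 → ‖t‖ ≤ D) (x : E3) (hx : 2 * (D + 1) < ‖x‖) :
    DbarN.JMO.MO.TT δ r h x = 0 := by
  unfold DbarN.JMO.MO.TT
  rw [DbarN.JMO.MO.cv_apply]
  refine integral_eq_zero_of_ae (Filter.Eventually.of_forall fun t => ?_)
  change h t * DbarN.JMO.MO.kc δ (r • x - t) = 0
  by_contra hne
  have h1 : h t ≠ 0 := left_ne_zero_of_mul hne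
  have h2 : DbarN.JMO.MO.kc δ (r • x - t) ≠ 0 := right_ne_zero_of_mul hne
  have h3 := DbarN.JMO.MO.kc_supp hδ h2
  have h4 := hD t h1
  have h5 : ‖r • x‖ ≤ ‖r • x - t‖ + ‖t‖ := by
    have := norm_add_le (r • x - t) t
    rwa [sub_add_cancel] at this
  rw [norm_smul, Real.norm_of_nonneg (by linarith)] at h5
  have h6 : 1 / 2 * ‖x‖ ≤ r * ‖x‖ := mul_le_mul_of_nonneg_right hr (norm_nonneg _)
  linarith

theorem mollS : MollS_stmt := by
  intro Ω hΩ hstar hb h0
  have hm : MeasurableSet Ω := hΩ.measurableSet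
  let r : ℕ → ℝ := fun n => 1 - 1 / ((n : ℝ) + 2)
  have hr0 : Tendsto r atTop (𝓝 1) := by
    have h1 : Tendsto (fun n : ℕ => 1 / (((n + 1 : ℕ) : ℝ) + 1)) atTop (𝓝 0) :=
      (tendsto_one_div_add_atTop_nhds_zero_nat (𝕜 := ℝ)).comp (tendsto_add_atTop_nat 1)
    have h2 := (tendsto_const_nhds (x := (1 : ℝ))).sub h1
    rw [sub_zero] at h2
    refine h2.congr fun n => ?_
    simp only [r]
    push_cast
    ring
  have hrh : ∀ n, 1 / 2 ≤ r n := by
    intro n
    simp only [r]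
    have : 1 / ((n : ℝ) + 2) ≤ 1 / 2 := by
      apply one_div_le_one_div_of_le (by norm_num)
      have := Nat.cast_nonneg (α := ℝ) n
      linarith
    linarith
  have hr1 : ∀ n, r n < 1 := by
    intro n
    simp only [r]
    have : 0 < 1 / ((n : ℝ) + 2) := by positivity
    linarith
  have hrpos : ∀ n, 0 < r n := fun n => lt_of_lt_of_le (by norm_num) (hrh n)
  have hch := fun n : ℕ => choose_deltaS Ω hΩ hstar hb (r n) (1 / ((n : ℝ) + 1)) (hrpos n)
    (hr1 n) (by positivity)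
  choose δ U hδ hδle hUo hUc hUb using hch
  have hδ1 : ∀ n, δ n ≤ 1 := by
    intro n
    refine (hδle n).trans ?_
    rw [div_le_one (by positivity)]
    have := Nat.cast_nonneg (α := ℝ) n
    linarith
  have hδ0 : Tendsto δ atTop (𝓝 0) :=
    squeeze_zero (fun n => (hδ n).le) hδle (tendsto_one_div_add_atTop_nhds_zero_nat (𝕜 := ℝ))
  have hL2 : ∀ f : E3 → ℂ, MemLp f 2 (volume.restrict Ω) →
      MemLp (Ω.indicator f) 2 (volume : Measure E3) := fun f hf =>
    (memLp_indicator_iff_restrict hm).2 hf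
  have hLI : ∀ f : E3 → ℂ, MemLp f 2 (volume.restrict Ω) →
      LocallyIntegrable (Ω.indicator f) (volume : Measure E3) := fun f hf =>
    (hL2 f hf).locallyIntegrable (by norm_num)
  obtain ⟨D, hD⟩ := hb.exists_norm_le
  refine ⟨fun n f => DbarN.JMO.MO.TT (δ n) (r n) (Ω.indicator f), r, 2 * (D + 1), hr0,
    fun n => ⟨hrpos n, hr1 n⟩, ?_, ?_, ?_⟩
  · intro f hf
    refine ⟨fun n => ?_, fun n x hx => ?_, ?_, fun n => ?_⟩
    · refine DbarN.JMO.MO.TT_test (hδ n) (hrpos n) (hLI f hf) ?_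
      refine HasCompactSupport.of_support_subset_isCompact hb.isCompact_closure ?_
      exact (Set.support_indicator_subset).trans subset_closure
    · refine TT_zeroS (hδ n) (hδ1 n) (hrh n) _ (fun t ht => ?_) x hx
      exact hD t (Set.mem_of_indicator_ne_zero ht)
    · have h1 := DbarN.JMO.MO.TT_tendsto Ω hb hm δ r hδ hδ0 hrh hr1 hr0 _ (hL2 f hf)
      refine h1.congr fun n => ?_
      refine eLpNorm_congr_ae ?_
      rw [Filter.EventuallyEq, ae_restrict_iff' hm]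
      refine Filter.Eventually.of_forall fun x hx => ?_
      simp [hx]
    · have h1 := DbarN.JMO.MO.TT_contract (hδ n) (hrpos n) (hL2 f hf)
      rwa [eLpNorm_indicator_eq_eLpNorm_restrict hm] at h1
  · intro n
    refine ⟨U n, hUo n, hUc n, fun α u g hu hg hrel x hx => ?_⟩
    exact DbarN.JMO.MO.TT_rel (hδ n) Ω hm x (hUb n x hx) α u g (fun i => hLI _ (hu i)) hrel
  · intro n θ₁ θ₂ c f hinv hf hrot x
    refine DbarN.JMO.MO.TT_rot (δ n) (r n) θ₁ θ₂ c _ ?_ x
    rw [ae_restrict_iff' hm] at hrot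
    filter_upwards [hrot] with y hy
    by_cases hyΩ : y ∈ Ω
    · rw [Set.indicator_of_mem ((hinv y).2 hyΩ), Set.indicator_of_mem hyΩ]
      exact hy hyΩ
    · rw [Set.indicator_of_notMem (fun h => hyΩ ((hinv y).1 h)), Set.indicator_of_notMem hyΩ,
        mul_zero]

end DbarC.JMOs
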