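import Pool.Agent.H314.DC.St2

set_option autoImplicit false

open MeasureTheory Complex Filter Topology
open scoped ContDiff InnerProductSpace ENNReal ComplexConjugate

namespace DbarC.JPC
open DbarN

theorem om_pc_tangent (x c : ℝ) (hx : x < 1) (hc : c < 1) :
    (1 - c)⁻¹ + (x - c) * ((1 - c)⁻¹) ^ 2 ≤ (1 - x)⁻¹ := by
  have h1 : 0 < 1 - x := by linarith
  have h2 : 0 < 1 - c := by linarith
  have h3 : (1 - x)⁻¹ - ((1 - c)⁻¹ + (x - c) * ((1 - c)⁻¹) ^ 2) =
      (x - c) ^ 2 / ((1 - x) * (1 - c) ^ 2) := by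
    field_simp
    ring
  have h4 : 0 ≤ (x - c) ^ 2 / ((1 - x) * (1 - c) ^ 2) := by positivity
  linarith

theorem om_pc_T0 : T0 < 1004 / 1000 := by
  unfold T0 tB
  norm_num

theorem om_pseudoconvex (hS : SM_stmt) (hF : FFs_stmt) (hH : FH_stmt) (hD : DomC_stmt) :
    Pseudoconvex Om := by
  obtain ⟨hO, h0, hB, -, -, hcl, -, -⟩ := hD
  have hT : T0 < 1004 / 1000 := om_pc_T0
  have hFc : Continuous FF := ContDiff.continuous hF
  have hlt : ∀ x ∈ Om, FF x < 1 := fun x hx => hx.2
  refine ⟨fun x => (1 - FF x)⁻¹, ?_, ?_, ?_⟩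
  · apply ContinuousOn.inv₀ (by fun_prop)
    intro x hx
    have := hlt x hx
    intro h
    linarith
  · intro M
    have heq : {x ∈ Om | (1 - FF x)⁻¹ ≤ M} = {x | 0 < M} ∩ (closure Om ∩ {x | FF x ≤ 1 - M⁻¹}) := by
      ext x
      constructor
      · rintro ⟨hx, hM⟩
        have h1 : 0 < 1 - FF x := by linarith [hlt x hx]
        have h2 : 0 < M := lt_of_lt_of_le (inv_pos.mpr h1) hM
        refine ⟨h2, subset_closure hx, ?_⟩
        change FF x ≤ 1 - M⁻¹
        have h3 : M⁻¹ ≤ 1 - FF x := by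
          rw [inv_le_comm₀ h2 h1]
          exact hM
        linarith
      · rintro ⟨hM, hx, hFx⟩
        change 0 < M at hM
        change FF x ≤ 1 - M⁻¹ at hFx
        have hM' : 0 < M⁻¹ := inv_pos.mpr hM
        obtain ⟨h1, -, -, -⟩ := hcl x hx
        refine ⟨⟨by linarith, by linarith⟩, ?_⟩
        change (1 - FF x)⁻¹ ≤ M
        rw [inv_le_comm₀ (by linarith) hM]
        linarith
    rw [heq]
    by_cases hM : 0 < M
    · have h1 : {x : E3 | 0 < M} = Set.univ := by
        ext x
        simp [hM]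
      rw [h1, Set.univ_inter]
      apply Metric.isCompact_of_isClosed_isBounded
      · exact isClosed_closure.inter (isClosed_le hFc continuous_const)
      · exact hB.closure.subset Set.inter_subset_left
    · have h1 : {x : E3 | 0 < M} = ∅ := by
        ext x
        simp [hM]
      rw [h1, Set.empty_inter]
      exact isCompact_empty
  · intro a b hab
    have hLev : ∀ ζ : ℂ, ‖ζ‖ ≤ 1 → ∀ c, 0 ≤ Lev FF (a + ζ • b) c := by
      intro ζ hζ c
      obtain ⟨h1, h2, -, -⟩ := hcl _ (subset_closure (hab ζ hζ))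
      have h3 := hH.1 (a + ζ • b) (by linarith) (by linarith) c
      have h4 : 0 ≤ ‖c 2‖ ^ 2 := by positivity
      linarith
    have hsm := hS FF hF a b hLev
    have hgc : Continuous fun θ : ℝ => FF (a + Complex.exp (θ * I) • b) := by
      apply hFc.comp
      fun_prop
    have hmem : ∀ θ : ℝ, a + Complex.exp (θ * I) • b ∈ Om := by
      intro θ
      apply hab
      rw [Complex.norm_exp_ofReal_mul_I]
    have ha : a ∈ Om := by
      have := hab 0 (by simp)
      simpa using this
    have hc := hlt a ha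
    have hpi : 0 < 2 * Real.pi := by positivity
    set c := FF a with hcdef
    have hψc : Continuous fun θ : ℝ => (1 - FF (a + Complex.exp (θ * I) • b))⁻¹ := by
      apply Continuous.inv₀ (by fun_prop)
      intro θ h
      have := hlt _ (hmem θ)
      linarith
    have hmono : ∫ θ in (0 : ℝ)..(2 * Real.pi), ((1 - c)⁻¹ +
        (FF (a + Complex.exp (θ * I) • b) - c) * ((1 - c)⁻¹) ^ 2) ≤
        ∫ θ in (0 : ℝ)..(2 * Real.pi), (1 - FF (a + Complex.exp (θ * I) • b))⁻¹ := by
      apply intervalIntegral.integral_mono_on hpi.le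
      · apply Continuous.intervalIntegrable
        fun_prop
      · exact hψc.intervalIntegrable _ _
      · intro θ _
        exact om_pc_tangent _ _ (hlt _ (hmem θ)) hc
    have hval : ∫ θ in (0 : ℝ)..(2 * Real.pi), ((1 - c)⁻¹ +
        (FF (a + Complex.exp (θ * I) • b) - c) * ((1 - c)⁻¹) ^ 2) =
        2 * Real.pi * (1 - c)⁻¹ + ((∫ θ in (0 : ℝ)..(2 * Real.pi),
          FF (a + Complex.exp (θ * I) • b)) - 2 * Real.pi * c) * ((1 - c)⁻¹) ^ 2 := by
      rw [intervalIntegral.integral_add, intervalIntegral.integral_mul_const,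
        intervalIntegral.integral_sub]
      · simp only [intervalIntegral.integral_const, sub_zero, smul_eq_mul]
      · exact hgc.intervalIntegrable _ _
      · exact continuous_const.intervalIntegrable _ _
      · exact continuous_const.intervalIntegrable _ _
      · apply Continuous.intervalIntegrable
        fun_prop
    rw [hval] at hmono
    have h5 : 2 * Real.pi * c ≤ ∫ θ in (0 : ℝ)..(2 * Real.pi),
        FF (a + Complex.exp (θ * I) • b) := by
      have h6 := mul_le_mul_of_nonneg_left hsm hpi.le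
      rwa [← mul_assoc, mul_inv_cancel₀ hpi.ne', one_mul] at h6
    have h7 : 0 ≤ ((∫ θ in (0 : ℝ)..(2 * Real.pi),
          FF (a + Complex.exp (θ * I) • b)) - 2 * Real.pi * c) * ((1 - c)⁻¹) ^ 2 :=
      mul_nonneg (by linarith) (by positivity)
    have h8 : 2 * Real.pi * (1 - c)⁻¹ ≤
        ∫ θ in (0 : ℝ)..(2 * Real.pi), (1 - FF (a + Complex.exp (θ * I) • b))⁻¹ := by linarith
    change (1 - c)⁻¹ ≤ (2 * Real.pi)⁻¹ *
      ∫ θ in (0 : ℝ)..(2 * Real.pi), (1 - FF (a + Complex.exp (θ * I) • b))⁻¹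
    rw [← div_eq_inv_mul, le_div_iff₀ hpi, mul_comm]
    exact h8

end DbarC.JPC
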