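import Pool.Agent.H314.DC.St3
import Pool.Agent.H314.DN.PD

set_option autoImplicit false

open MeasureTheory Complex Filter Topology
open scoped ContDiff InnerProductSpace ENNReal ComplexConjugate

namespace DbarC.JPDj
open DbarN
open DbarN.JPD DbarN.JCA1 DbarN.JCA2

theorem psiDc_l0 (hC : CAc_stmt) {t s : ℝ} (ht : t ∈ Set.Ioo (-1) T0)
    (hs : s ∈ Set.Ioo (0 : ℝ) 1) :
    100 ≤ l0 t s ∧ ContinuousAt (fun t => l0 t s) t ∧ ContinuousAt (fun s => l0 t s) s ∧
      HasDerivAt (fun t => Yc t s) (Yct t s) t ∧ HasDerivAt (fun t => Yct t s) (Yctt t s) t := by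
  obtain ⟨_, _, _, _, h5, _, _, _, _, _, h11, h12, h13, h14, _⟩ := hC t s ht.1 ht.2 hs.1.le hs.2
  exact ⟨h5, h11.continuousAt, h12.continuousAt, h13, h14⟩

theorem psiDc_inv (hC : CAc_stmt) : NB19164 T0 (fun t s => 1 / l0 t s) := by
  refine ⟨?_, ?_, ?_⟩
  · intro t ht s hs
    obtain ⟨h3, _, h5, _⟩ := psiDc_l0 hC ht hs
    exact (continuousAt_const.div h5 (by linarith)).continuousWithinAt
  · intro s hs t ht
    obtain ⟨h3, h4, _⟩ := psiDc_l0 hC ht hs
    exact (continuousAt_const.div h4 (by linarith)).continuousWithinAt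
  · intro t0 ht0
    refine ⟨1, ?_⟩
    have hm : ∀ᶠ t in 𝓝 t0, t ∈ Set.Ioo (-1) T0 := isOpen_Ioo.mem_nhds ht0
    filter_upwards [hm] with t ht s hs
    obtain ⟨h3, _, _⟩ := psiDc_l0 hC ht hs
    rw [abs_of_nonneg (by positivity), div_le_one (by linarith)]
    linarith

theorem psiDc_D (hC : CAc_stmt) (j i : ℕ) :
    NB19164 T0 (fun t s => Real.log (l0 t s) ^ i * Real.exp ((j + 1) * Yc t s)) := by
  unfold Yc
  refine ⟨?_, ?_, ?_⟩
  · intro t ht s hs
    obtain ⟨h3, _, h5, _⟩ := psiDc_l0 hC ht hs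
    have h6 : ContinuousAt (fun s => Real.log (l0 t s)) s := h5.log (by linarith)
    have h7 : ContinuousAt (fun s => Real.log (l0 t s) ^ i *
        Real.exp ((j + 1) * (-(1 + t) * Real.log (l0 t s)))) s :=
      (h6.pow i).mul (continuousAt_const.mul (continuousAt_const.mul h6)).rexp
    exact h7.continuousWithinAt
  · intro s hs t ht
    obtain ⟨h3, h4, _⟩ := psiDc_l0 hC ht hs
    have h6 : ContinuousAt (fun t => Real.log (l0 t s)) t := h4.log (by linarith)
    have h8 : ContinuousAt (fun t : ℝ => -(1 + t)) t := by fun_prop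
    have h7 : ContinuousAt (fun t => Real.log (l0 t s) ^ i *
        Real.exp ((j + 1) * (-(1 + t) * Real.log (l0 t s)))) t :=
      (h6.pow i).mul (continuousAt_const.mul (h8.mul h6)).rexp
    exact h7.continuousWithinAt
  · intro t0 ht0
    set c : ℝ := (1 + t0) / 2 with hc
    have hc0 : 0 < c := by
      have := ht0.1
      rw [hc]
      linarith
    refine ⟨(i.factorial : ℝ) / c ^ i, ?_⟩
    have hm : ∀ᶠ t in 𝓝 t0, t ∈ Set.Ioo (-1) T0 := isOpen_Ioo.mem_nhds ht0
    have hm2 : ∀ᶠ t in 𝓝 t0, c - 1 < t := by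
      apply lt_mem_nhds
      rw [hc]
      have := ht0.1
      linarith
    filter_upwards [hm, hm2] with t ht ht2 s hs
    obtain ⟨h3, _, _⟩ := psiDc_l0 hC ht hs
    have hL : 0 ≤ Real.log (l0 t s) := Real.log_nonneg (by linarith)
    generalize Real.log (l0 t s) = L at hL
    rw [abs_of_nonneg (by positivity)]
    have h6 : Real.exp ((j + 1) * (-(1 + t) * L)) ≤ Real.exp (-(c * L)) := by
      apply Real.exp_le_exp.2
      have h7 : c * L ≤ (1 + t) * L := mul_le_mul_of_nonneg_right (by linarith) hL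
      have h8 : 0 ≤ (1 + t) * L := mul_nonneg (by linarith) hL
      have h9 : (0 : ℝ) ≤ (j : ℝ) := Nat.cast_nonneg j
      nlinarith [mul_nonneg h9 h8]
    have h10 := Real.pow_div_factorial_le_exp (c * L) (by positivity) i
    have hf : (0 : ℝ) < (i.factorial : ℝ) := by exact_mod_cast Nat.factorial_pos i
    rw [div_le_iff₀ hf, mul_pow] at h10
    calc L ^ i * Real.exp ((j + 1) * (-(1 + t) * L)) ≤ L ^ i * Real.exp (-(c * L)) :=
          mul_le_mul_of_nonneg_left h6 (by positivity)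
      _ ≤ (i.factorial : ℝ) / c ^ i := by
          rw [le_div_iff₀ (by positivity), Real.exp_neg]
          have h11 := Real.exp_pos (c * L)
          rw [← div_eq_mul_inv, div_mul_eq_mul_div, div_le_iff₀ h11]
          linarith

theorem psiDc_all (hC : CAc_stmt) (j k : ℕ) :
    NB19164 T0 (fun t s => den j k t s) ∧
    NB19164 T0 (fun t s => Yct t s * den j k t s) ∧
    NB19164 T0 (fun t s => Yct t s ^ 2 * den j k t s) ∧
    NB19164 T0 (fun t s => Yctt t s * den j k t s) ∧
    NB19164 T0 (fun t s => (Real.log (l0 t s) + t * La2 t / l0 t s) * den j k t s) := by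
  have ha := psiDc_inv hC
  have n0 := psiDc_D hC j 0
  have n1 := psiDc_D hC j 1
  have n2 := psiDc_D hC j 2
  have hc2 : NB19164 T0 (fun t _ => La2 t) :=
    NB19164.of_t ((Lm2_continuousOn (by norm_num) (by norm_num)).mono (fun t ht => ht.2))
  have hc1 : NB19164 T0 (fun t _ => La1 t) :=
    NB19164.of_t (fun t ht =>
      (Lm1_hasDerivAt (by norm_num) (by norm_num) ht.2).continuousAt.continuousWithinAt)
  have h1t : NB19164 T0 (fun t _ => 1 + t) := NB19164.of_t (by fun_prop)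
  have hid : NB19164 T0 (fun t _ => t) := NB19164.of_t (by fun_prop)
  have hm1 : NB19164 T0 (fun _ _ => (-1 : ℝ)) := NB19164.const _
  have hm2 : NB19164 T0 (fun _ _ => (-2 : ℝ)) := NB19164.const _
  have h2c : NB19164 T0 (fun _ _ => (2 : ℝ)) := NB19164.const _
  have hs : NB19164 T0 (fun _ s => s ^ (2 * k + 1)) := by
    refine NB19164.of_s (by fun_prop) 1 ?_
    intro s hs
    rw [abs_of_nonneg (pow_nonneg hs.1.le _)]
    exact pow_le_one₀ hs.1.le hs.2.le
  have hden : NB19164 T0 (fun t s => den j k t s) := by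
    refine (hs.mul n0).congr ?_
    intro t s
    unfold den
    rw [pow_zero, one_mul]
  refine ⟨hden, ?_, ?_, ?_, ?_⟩
  · refine ((hm1.mul (hs.mul n1)).add ((((hm1.mul h1t).mul hc1).mul ha).mul hden)).congr ?_
    intro t s
    unfold Yct den
    ring
  · refine ((hs.mul n2).add (((((h2c.mul h1t).mul hc1).mul ha).mul (hs.mul n1)).add
      ((((h1t.mul hc1).mul ha).pow 2).mul hden))).congr ?_
    intro t s
    unfold Yct den
    ring
  · refine ((((hm2.mul hc1).mul ha).add ((hm1.mul h1t).mul ((hc2.mul ha).add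
      ((hm1.mul (hc1.pow 2)).mul (ha.pow 2))))).mul hden).congr ?_
    intro t s
    unfold Yctt
    ring
  · refine ((hs.mul n1).add (((hid.mul hc2).mul ha).mul hden)).congr ?_
    intro t s
    unfold den
    ring

theorem psiDc_den (hC : CAc_stmt) (j k : ℕ) {t s : ℝ}
    (ht : t ∈ Set.Ioo (-1) T0) (hs : s ∈ Set.Ioo (0 : ℝ) 1) :
    0 < den j k t s ∧
      HasDerivAt (fun t => den j k t s) ((j + 1) * (Yct t s * den j k t s)) t ∧
      HasDerivAt (fun t => Yct t s) (Yctt t s) t := by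
  obtain ⟨_, _, _, h4, h5⟩ := psiDc_l0 hC ht hs
  refine ⟨?_, ?_, h5⟩
  · unfold den
    exact mul_pos (pow_pos hs.1 _) (Real.exp_pos _)
  · have h6 := ((h4.const_mul ((j : ℝ) + 1)).exp).const_mul (s ^ (2 * k + 1))
    have e : ((j : ℝ) + 1) * (Yct t s * den j k t s) =
        s ^ (2 * k + 1) * (Real.exp (((j : ℝ) + 1) * Yc t s) * (((j : ℝ) + 1) * Yct t s)) := by
      unfold den
      ring
    rw [e]
    exact h6

theorem psiDc_Iw_pos (hC : CAc_stmt) (j k : ℕ) {t : ℝ}
    (ht : t ∈ Set.Ioo (-1) T0) : 0 < Iw j k t := by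
  unfold Iw
  rw [setIntegral_pos_iff_support_of_nonneg_ae]
  · have hsub : Set.Ioo (0 : ℝ) 1 ⊆ (Function.support fun s => den j k t s) ∩
        Set.Ioo (0 : ℝ) 1 := by
      intro s hs
      exact ⟨(psiDc_den hC j k ht hs).1.ne', hs⟩
    refine lt_of_lt_of_le ?_ (measure_mono hsub)
    rw [Real.volume_Ioo]
    simp
  · rw [Filter.EventuallyLE, ae_restrict_iff' measurableSet_Ioo]
    filter_upwards with s hs
    exact (psiDc_den hC j k ht hs).1.le
  · exact (psiDc_all hC j k).1.int ht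

theorem psiDc (hC : CAc_stmt) : PsiDc_stmt := by
  intro j k
  obtain ⟨nD, nYD, nY2D, nYYD, nMD⟩ := psiDc_all hC j k
  have hk : (0 : ℝ) < 1 / 100 := by norm_num
  have hl0 : (0 : ℝ) < 100 := by norm_num
  have hjc : NB19164 T0 (fun _ _ => ((j : ℝ) + 1)) := NB19164.const _
  -- derivatives of the integrals
  have dI : ∀ t ∈ Set.Ioo (-1) T0, HasDerivAt (Iw j k)
      ((j + 1) * ∫ s in Set.Ioo (0 : ℝ) 1, Yct t s * den j k t s) t := by
    intro t ht
    have h1 := nD.deriv_int (hjc.mul nYD)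
      (fun t ht s hs => (psiDc_den hC j k ht hs).2.1) ht
    rw [integral_const_mul] at h1
    exact h1
  have dI1 : ∀ t ∈ Set.Ioo (-1) T0, HasDerivAt
      (fun t => ∫ s in Set.Ioo (0 : ℝ) 1, Yct t s * den j k t s)
      ((∫ s in Set.Ioo (0 : ℝ) 1, Yctt t s * den j k t s) +
        (j + 1) * ∫ s in Set.Ioo (0 : ℝ) 1, Yct t s ^ 2 * den j k t s) t := by
    intro t ht
    have h1 := nYD.deriv_int (nYYD.add (hjc.mul nY2D))
      (fun t ht s hs => by
        obtain ⟨_, h3, h4⟩ := psiDc_den hC j k ht hs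
        have h5 := h4.mul h3
        have e5 : Yctt t s * den j k t s + ((j : ℝ) + 1) * (Yct t s ^ 2 * den j k t s) =
            Yctt t s * den j k t s + Yct t s *
              ((j + 1) * (Yct t s * den j k t s)) := by ring
        rw [e5]
        exact h5) ht
    rw [integral_add (nYYD.int ht) ((hjc.mul nY2D).int ht),
      integral_const_mul] at h1
    exact h1
  have hIp : ∀ t ∈ Set.Ioo (-1) T0, 0 < Iw j k t :=
    fun t ht => psiDc_Iw_pos hC j k ht
  have hdp : ∀ t ∈ Set.Ioo (-1) T0, 0 < d0 t := fun t ht => dl_pos hk hl0 ht.2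
  have hww : ∀ t ∈ Set.Ioo (-1) T0, 0 < ww j k t := by
    intro t ht
    unfold ww
    exact mul_pos (pow_pos (hdp t ht) _) (hIp t ht)
  have cI : ContinuousOn (Iw j k) (Set.Ioo (-1) T0) :=
    fun t ht => (dI t ht).continuousAt.continuousWithinAt
  have dL1 : ∀ t ∈ Set.Ioo (-1) T0, HasDerivAt La1 (La2 t) t :=
    fun t ht => Lm1_hasDerivAt hk hl0 ht.2
  have cL1 : ContinuousOn La1 (Set.Ioo (-1) T0) :=
    fun t ht => (dL1 t ht).continuousAt.continuousWithinAt
  have cL2 : ContinuousOn La2 (Set.Ioo (-1) T0) :=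
    (Lm2_continuousOn hk hl0).mono (fun t ht => ht.2)
  have hne : ∀ t ∈ Set.Ioo (-1) T0, Iw j k t ≠ 0 := fun t ht => (hIp t ht).ne'
  refine ⟨?_, ?_, ?_, ?_, fun t h1 h2 => hww t ⟨h1, h2⟩⟩
  · intro t ht1 ht2
    have ht : t ∈ Set.Ioo (-1) T0 := ⟨ht1, ht2⟩
    have hd0 : HasDerivAt d0 (-om1 (1 / 100) 100 t) t := dl_hasDerivAt hk t
    have h3 := (hd0.fun_pow (k + 1)).mul (dI t ht)
    have h4 : HasDerivAt (psi j k) (-((((k + 1 : ℕ) : ℝ) * d0 t ^ (k + 1 - 1) *
        -om1 (1 / 100) 100 t * Iw j k t + d0 t ^ (k + 1) *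
        ((j + 1) * ∫ s in Set.Ioo (0 : ℝ) 1, Yct t s * den j k t s)) /
        (d0 t ^ (k + 1) * Iw j k t))) t := (h3.log (hww t ht).ne').neg
    have h5 := hdp t ht
    have h6 := hIp t ht
    have hLa1 : La1 t = om1 (1 / 100) 100 t / d0 t := rfl
    have e4 : (k + 1) * La1 t - (j + 1) * Es j k t (fun s => Yct t s) =
        -((((k + 1 : ℕ) : ℝ) * d0 t ^ (k + 1 - 1) *
        -om1 (1 / 100) 100 t * Iw j k t + d0 t ^ (k + 1) *
        ((j + 1) * ∫ s in Set.Ioo (0 : ℝ) 1, Yct t s * den j k t s)) /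
        (d0 t ^ (k + 1) * Iw j k t)) := by
      rw [hLa1]
      unfold Es
      rw [Nat.add_sub_cancel]
      generalize (∫ s in Set.Ioo (0 : ℝ) 1, Yct t s * den j k t s) = q
      push_cast
      rw [pow_succ]
      field_simp
      ring
    rw [e4]
    exact h4
  · intro t ht1 ht2
    have ht : t ∈ Set.Ioo (-1) T0 := ⟨ht1, ht2⟩
    have h6 := hIp t ht
    have h3 := ((dL1 t ht).const_mul ((k : ℝ) + 1)).sub
      (((dI1 t ht).div (dI t ht) h6.ne').const_mul ((j : ℝ) + 1))
    have e4 : (k + 1) * La2 t - (j + 1) * Es j k t (fun s => Yctt t s) -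
        (j + 1) ^ 2 * (Es j k t (fun s => Yct t s ^ 2) -
          Es j k t (fun s => Yct t s) ^ 2) =
        ((k : ℝ) + 1) * La2 t - ((j : ℝ) + 1) *
        ((((∫ s in Set.Ioo (0 : ℝ) 1, Yctt t s * den j k t s) +
        (j + 1) * ∫ s in Set.Ioo (0 : ℝ) 1, Yct t s ^ 2 * den j k t s) * Iw j k t -
        (∫ s in Set.Ioo (0 : ℝ) 1, Yct t s * den j k t s) *
        ((j + 1) * ∫ s in Set.Ioo (0 : ℝ) 1, Yct t s * den j k t s)) /
        Iw j k t ^ 2) := by
      unfold Es
      generalize (∫ s in Set.Ioo (0 : ℝ) 1, Yct t s * den j k t s) = q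
      generalize (∫ s in Set.Ioo (0 : ℝ) 1, Yctt t s * den j k t s) = q2
      generalize (∫ s in Set.Ioo (0 : ℝ) 1, Yct t s ^ 2 * den j k t s) = q3
      field_simp
      ring
    rw [e4]
    exact h3
  · unfold Es
    have c1 := nYYD.cont_int
    have c2 := nY2D.cont_int
    have c3 := nYD.cont_int
    exact ((continuousOn_const.mul cL2).sub (continuousOn_const.mul (c1.div cI hne))).sub
      (continuousOn_const.mul ((c2.div cI hne).sub ((c3.div cI hne).pow 2)))
  · unfold mm Es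
    have c1 := nMD.cont_int
    exact (continuousOn_const.mul (cL1.add (continuousOn_id.mul cL2))).add
      (continuousOn_const.mul (c1.div cI hne))

end DbarC.JPDj
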