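import Pool.Agent.H314.DC.St2

set_option autoImplicit false

open MeasureTheory Complex Filter Topology
open scoped ContDiff InnerProductSpace ENNReal ComplexConjugate

namespace DbarC.JPG
open DbarN

theorem h400_hess_convex_nonneg (P : E3 → ℝ) (hP : ContDiff ℝ ∞ P) (hc : ConvexOn ℝ Set.univ P) (x w : E3) :
    0 ≤ fderiv ℝ (fderiv ℝ P) x w w := by
  have hd : Differentiable ℝ P := hP.differentiable (by simp)
  have hF : ContDiff ℝ 1 (fderiv ℝ P) := hP.fderiv_right (by norm_cast)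
  have hFd : Differentiable ℝ (fderiv ℝ P) := hF.differentiable (by simp)
  have hline : ∀ t : ℝ, HasDerivAt (fun t : ℝ => x + t • w) w t := by
    intro t
    have := ((hasDerivAt_id t).smul_const w).const_add x
    simpa using this
  have hg1 : ∀ t : ℝ, HasDerivAt (fun t : ℝ => P (x + t • w)) (fderiv ℝ P (x + t • w) w) t := by
    intro t
    exact (hd (x + t • w)).hasFDerivAt.comp_hasDerivAt t (hline t)
  have hconv : ConvexOn ℝ Set.univ (fun t : ℝ => P (x + t • w)) := by
    refine ⟨convex_univ, ?_⟩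
    intro s _ t _ α β hα hβ hαβ
    have := hc.2 (Set.mem_univ (x + s • w)) (Set.mem_univ (x + t • w)) hα hβ hαβ
    have e : α • (x + s • w) + β • (x + t • w) = x + (α • s + β • t) • w := by
      have : x = (α + β) • x := by rw [hαβ, one_smul]
      conv_rhs => rw [this]
      simp only [smul_eq_mul]
      module
    rw [e] at this
    exact this
  have hmono : Monotone (deriv (fun t : ℝ => P (x + t • w))) := by
    have := hconv.monotoneOn_deriv (fun t _ => (hg1 t).differentiableAt)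
    exact monotoneOn_univ.mp this
  have hderiv : deriv (fun t : ℝ => P (x + t • w)) = fun t => fderiv ℝ P (x + t • w) w := by
    funext t
    exact (hg1 t).deriv
  rw [hderiv] at hmono
  have hg2 : HasDerivAt (fun t : ℝ => fderiv ℝ P (x + t • w) w) (fderiv ℝ (fderiv ℝ P) x w w) 0 := by
    have h1 : HasFDerivAt (fderiv ℝ P) (fderiv ℝ (fderiv ℝ P) x) (x + (0:ℝ) • w) := by
      rw [zero_smul, add_zero]
      exact (hFd x).hasFDerivAt
    have h2 := h1.comp_hasDerivAt (0:ℝ) (hline 0)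
    exact ((ContinuousLinearMap.apply ℝ ℝ w).hasFDerivAt).comp_hasDerivAt (0:ℝ) h2
  rw [← hg2.deriv]
  have := (hmono.monotoneOn Set.univ).derivWithin_nonneg (x := (0:ℝ))
  rwa [derivWithin_univ] at this

theorem h400_hess_convex_formula (P : E3 → ℝ) (hP : ContDiff ℝ ∞ P) (x : E3) (j k : Fin 3) :
    Hess P j k x = (1 / 4) *
      (((fderiv ℝ (fderiv ℝ P) x (Pi.single j 1) (Pi.single k 1) : ℝ) : ℂ)
        + I * ((fderiv ℝ (fderiv ℝ P) x (Pi.single j 1) (Pi.single k I) : ℝ) : ℂ)
        - I * ((fderiv ℝ (fderiv ℝ P) x (Pi.single j I) (Pi.single k 1) : ℝ) : ℂ)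
        + ((fderiv ℝ (fderiv ℝ P) x (Pi.single j I) (Pi.single k I) : ℝ) : ℂ)) := by
  have hd : Differentiable ℝ P := hP.differentiable (by simp)
  have hF : ContDiff ℝ 1 (fderiv ℝ P) := hP.fderiv_right (by norm_cast)
  have hFd : Differentiable ℝ (fderiv ℝ P) := hF.differentiable (by simp)
  have h1 : ∀ y v, fderiv ℝ (Ph P) y v = ((fderiv ℝ P y v : ℝ) : ℂ) := by
    intro y v
    have : HasFDerivAt (Ph P) (Complex.ofRealCLM.comp (fderiv ℝ P y)) y :=
      Complex.ofRealCLM.hasFDerivAt.comp y (hd y).hasFDerivAt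
    rw [this.fderiv]
    rfl
  have h2 : dbar k (Ph P) = fun y => (1 / 2) * (((fderiv ℝ P y (Pi.single k 1) : ℝ) : ℂ)
      + I * ((fderiv ℝ P y (Pi.single k I) : ℝ) : ℂ)) := by
    funext y
    unfold dbar
    rw [h1, h1]
  have h3 : ∀ v : E3, HasFDerivAt (fun y => ((fderiv ℝ P y v : ℝ) : ℂ))
      (Complex.ofRealCLM.comp ((ContinuousLinearMap.apply ℝ ℝ v).comp (fderiv ℝ (fderiv ℝ P) x))) x := by
    intro v
    exact Complex.ofRealCLM.hasFDerivAt.comp x
      ((ContinuousLinearMap.apply ℝ ℝ v).hasFDerivAt.comp x (hFd x).hasFDerivAt)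
  have h4 : HasFDerivAt (dbar k (Ph P))
      ((1 / 2 : ℂ) • ((Complex.ofRealCLM.comp ((ContinuousLinearMap.apply ℝ ℝ (Pi.single k 1 : E3)).comp
          (fderiv ℝ (fderiv ℝ P) x)))
        + I • (Complex.ofRealCLM.comp ((ContinuousLinearMap.apply ℝ ℝ (Pi.single k I : E3)).comp
          (fderiv ℝ (fderiv ℝ P) x))))) x := by
    rw [h2]
    exact ((h3 (Pi.single k 1)).add ((h3 (Pi.single k I)).const_mul I)).const_mul (1 / 2 : ℂ)
  unfold Hess dz
  rw [h4.fderiv]
  simp only [smul_apply, add_apply, ContinuousLinearMap.comp_apply,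
    Complex.ofRealCLM_apply, ContinuousLinearMap.apply_apply, smul_eq_mul]
  linear_combination (-(1/4 : ℂ) * ((fderiv ℝ (fderiv ℝ P) x (Pi.single j I) (Pi.single k I) : ℝ) : ℂ)) * Complex.I_mul_I

/-- the Levi form through the real Hessian -/
theorem h400_lev (P : E3 → ℝ) (hP : ContDiff ℝ ∞ P) (x : E3) (a : Fin 3 → ℂ) :
    Lev P x a = (1 / 4) * (fderiv ℝ (fderiv ℝ P) x a a +
      fderiv ℝ (fderiv ℝ P) x (fun j => I * a j) (fun j => I * a j)) := by
  obtain ⟨B, hB⟩ : ∃ B, B = fderiv ℝ (fderiv ℝ P) x := ⟨_, rfl⟩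
  have hs1 : ∀ j, (Pi.single j (a j) : E3) = (a j).re • (Pi.single j (1:ℂ) : E3) + (a j).im • (Pi.single j I : E3) := by
    intro j
    rw [← Pi.single_smul, ← Pi.single_smul, ← Pi.single_add]
    congr 1
    rw [Complex.real_smul, Complex.real_smul, mul_one]
    exact (Complex.re_add_im (a j)).symm
  have hs2 : ∀ j, (Pi.single j (I * a j) : E3) =
      (-(a j).im) • (Pi.single j (1:ℂ) : E3) + (a j).re • (Pi.single j I : E3) := by
    intro j
    rw [← Pi.single_smul, ← Pi.single_smul, ← Pi.single_add]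
    congr 1
    rw [Complex.real_smul, Complex.real_smul, mul_one]
    apply Complex.ext <;> simp
  have hexp : ∀ f : Fin 3 → ℂ, B f f = ∑ j, ∑ k, B (Pi.single j (f j) : E3) (Pi.single k (f k) : E3) := by
    intro f
    have e : f = ∑ j, (Pi.single j (f j) : E3) := (Finset.univ_sum_single f).symm
    have e1 : B f = ∑ j, B (Pi.single j (f j) : E3) :=
      (congrArg (fun w => B w) e).trans (map_sum _ _ _)
    rw [e1, sum_apply]
    apply Finset.sum_congr rfl
    intro j _
    exact (congrArg (fun w => B (Pi.single j (f j) : E3) w) e).trans (map_sum _ _ _)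
  have hterm : ∀ j k, (Hess P j k x * a j * conj (a k)).re =
      (1 / 4) * (B (Pi.single j (a j) : E3) (Pi.single k (a k) : E3)
        + B (Pi.single j (I * a j) : E3) (Pi.single k (I * a k) : E3)) := by
    intro j k
    rw [h400_hess_convex_formula P hP x j k, ← hB, hs1 j, hs1 k, hs2 j, hs2 k]
    simp only [map_add, map_smul, add_apply, smul_apply, smul_eq_mul]
    obtain ⟨b00, h00⟩ : ∃ b, b = B (Pi.single j (1:ℂ) : E3) (Pi.single k (1:ℂ) : E3) := ⟨_, rfl⟩
    obtain ⟨b01, h01⟩ : ∃ b, b = B (Pi.single j (1:ℂ) : E3) (Pi.single k I : E3) := ⟨_, rfl⟩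
    obtain ⟨b10, h10⟩ : ∃ b, b = B (Pi.single j I : E3) (Pi.single k (1:ℂ) : E3) := ⟨_, rfl⟩
    obtain ⟨b11, h11⟩ : ∃ b, b = B (Pi.single j I : E3) (Pi.single k I : E3) := ⟨_, rfl⟩
    rw [← h00, ← h01, ← h10, ← h11]
    have e1 : (1 / 4 : ℂ) * (((b00 : ℝ) : ℂ) + I * ((b01 : ℝ) : ℂ) - I * ((b10 : ℝ) : ℂ) + ((b11 : ℝ) : ℂ)) =
        (((b00 + b11) / 4 : ℝ) : ℂ) + (((b01 - b10) / 4 : ℝ) : ℂ) * I := by
      push_cast
      ring
    rw [e1]
    simp only [Complex.mul_re, Complex.mul_im, Complex.add_re, Complex.add_im, Complex.ofReal_re,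
      Complex.ofReal_im, Complex.I_re, Complex.I_im, Complex.conj_re, Complex.conj_im]
    ring
  unfold Lev
  rw [← hB, hexp a, hexp (fun j => I * a j), ← Finset.sum_add_distrib, Finset.mul_sum, Complex.re_sum]
  apply Finset.sum_congr rfl
  intro j _
  rw [← Finset.sum_add_distrib, Finset.mul_sum, Complex.re_sum]
  apply Finset.sum_congr rfl
  intro k _
  exact hterm j k

/-- first derivative along a line -/
theorem h400_d1 (P : E3 → ℝ) (hP : ContDiff ℝ ∞ P) (x w : E3) (t : ℝ) :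
    HasDerivAt (fun t : ℝ => P (x + t • w)) (fderiv ℝ P (x + t • w) w) t := by
  have hd : Differentiable ℝ P := hP.differentiable (by simp)
  have hline : HasDerivAt (fun t : ℝ => x + t • w) w t := by
    have := ((hasDerivAt_id t).smul_const w).const_add x
    simpa using this
  exact (hd (x + t • w)).hasFDerivAt.comp_hasDerivAt t hline

/-- second derivative along a line -/
theorem h400_d2 (P : E3 → ℝ) (hP : ContDiff ℝ ∞ P) (x w : E3) :
    HasDerivAt (fun t : ℝ => fderiv ℝ P (x + t • w) w) (fderiv ℝ (fderiv ℝ P) x w w) 0 := by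
  have hF : ContDiff ℝ 1 (fderiv ℝ P) := hP.fderiv_right (by norm_cast)
  have hFd : Differentiable ℝ (fderiv ℝ P) := hF.differentiable (by simp)
  have hline : HasDerivAt (fun t : ℝ => x + t • w) w 0 := by
    have := ((hasDerivAt_id (0:ℝ)).smul_const w).const_add x
    simpa using this
  have h1 : HasFDerivAt (fderiv ℝ P) (fderiv ℝ (fderiv ℝ P) x) (x + (0:ℝ) • w) := by
    rw [zero_smul, add_zero]
    exact (hFd x).hasFDerivAt
  have h2 := h1.comp_hasDerivAt (0:ℝ) hline
  exact ((ContinuousLinearMap.apply ℝ ℝ w).hasFDerivAt).comp_hasDerivAt (0:ℝ) h2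

noncomputable def h400_E1 (x : ℝ) : ℝ := ∫ t in (0:ℝ)..x, expNegInvGlue t

noncomputable def h400_E (x : ℝ) : ℝ := ∫ t in (0:ℝ)..x, h400_E1 t

theorem h400_glue_cont : Continuous expNegInvGlue :=
  (expNegInvGlue.contDiff (n := 0)).continuous

theorem h400_E1_deriv (x : ℝ) : HasDerivAt h400_E1 (expNegInvGlue x) x :=
  (h400_glue_cont.integral_hasStrictDerivAt 0 x).hasDerivAt

theorem h400_E1_cont : Continuous h400_E1 :=
  continuous_iff_continuousAt.mpr (fun x => (h400_E1_deriv x).continuousAt)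

theorem h400_E_deriv (x : ℝ) : HasDerivAt h400_E (h400_E1 x) x :=
  (h400_E1_cont.integral_hasStrictDerivAt 0 x).hasDerivAt

theorem h400_E_smooth : ContDiff ℝ ∞ h400_E := by
  rw [contDiff_infty_iff_deriv]
  refine ⟨fun x => (h400_E_deriv x).differentiableAt, ?_⟩
  have h1 : deriv h400_E = h400_E1 := funext (fun x => (h400_E_deriv x).deriv)
  rw [h1, contDiff_infty_iff_deriv]
  refine ⟨fun x => (h400_E1_deriv x).differentiableAt, ?_⟩
  have h2 : deriv h400_E1 = expNegInvGlue := funext (fun x => (h400_E1_deriv x).deriv)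
  rw [h2]
  exact expNegInvGlue.contDiff

theorem h400_E1_zero {x : ℝ} (hx : x ≤ 0) : h400_E1 x = 0 := by
  unfold h400_E1
  have h1 : ∫ t in (0:ℝ)..x, expNegInvGlue t = ∫ t in (0:ℝ)..x, (0:ℝ) := by
    apply intervalIntegral.integral_congr
    intro t ht
    rw [Set.uIcc_of_ge hx] at ht
    exact expNegInvGlue.zero_of_nonpos ht.2
  rw [h1, intervalIntegral.integral_zero]

theorem h400_E1_pos {x : ℝ} (hx : 0 < x) : 0 < h400_E1 x :=
  intervalIntegral.intervalIntegral_pos_of_pos_on (h400_glue_cont.intervalIntegrable _ _)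
    (fun t ht => expNegInvGlue.pos_of_pos ht.1) hx

theorem h400_E1_nonneg (x : ℝ) : 0 ≤ h400_E1 x := by
  rcases le_or_gt x 0 with h | h
  · rw [h400_E1_zero h]
  · exact (h400_E1_pos h).le

theorem h400_E_zero {x : ℝ} (hx : x ≤ 0) : h400_E x = 0 := by
  unfold h400_E
  have h1 : ∫ t in (0:ℝ)..x, h400_E1 t = ∫ t in (0:ℝ)..x, (0:ℝ) := by
    apply intervalIntegral.integral_congr
    intro t ht
    rw [Set.uIcc_of_ge hx] at ht
    exact h400_E1_zero ht.2
  rw [h1, intervalIntegral.integral_zero]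

theorem h400_E_pos {x : ℝ} (hx : 0 < x) : 0 < h400_E x :=
  intervalIntegral.intervalIntegral_pos_of_pos_on (h400_E1_cont.intervalIntegrable _ _)
    (fun t ht => h400_E1_pos ht.1) hx

theorem h400_E_nonneg (x : ℝ) : 0 ≤ h400_E x := by
  rcases le_or_gt x 0 with h | h
  · rw [h400_E_zero h]
  · exact (h400_E_pos h).le

noncomputable def h400_q (x : E3) : ℝ := ∑ j, ‖x j‖ ^ 2

theorem h400_q_smooth : ContDiff ℝ ∞ h400_q := by
  unfold h400_q
  apply ContDiff.sum
  intro j _
  exact (contDiff_apply ℝ ℂ j).norm_sq ℝ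

theorem h400_q_nonneg (x : E3) : 0 ≤ h400_q x := Finset.sum_nonneg (fun j _ => by positivity)

theorem h400_q_I (x : E3) : h400_q (fun j => I * x j) = h400_q x := by
  unfold h400_q
  apply Finset.sum_congr rfl
  intro j _
  rw [norm_mul, Complex.norm_I, one_mul]

theorem h400_q_line (x w : E3) : ∃ b : ℝ, ∀ t : ℝ,
    h400_q (x + t • w) = h400_q x + 2 * t * b + t ^ 2 * h400_q w := by
  refine ⟨∑ j, ((x j).re * (w j).re + (x j).im * (w j).im), ?_⟩
  intro t
  unfold h400_q
  rw [Finset.mul_sum, Finset.mul_sum, ← Finset.sum_add_distrib, ← Finset.sum_add_distrib]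
  apply Finset.sum_congr rfl
  intro j _
  rw [← Complex.normSq_eq_norm_sq, ← Complex.normSq_eq_norm_sq, ← Complex.normSq_eq_norm_sq,
    Complex.normSq_apply, Complex.normSq_apply, Complex.normSq_apply]
  simp only [Pi.add_apply, Pi.smul_apply, Complex.add_re, Complex.add_im, Complex.smul_re,
    Complex.smul_im, smul_eq_mul]
  ring

/-- the chain rule -/
theorem h400_chain (g : E3 → ℝ) (hg : ContDiff ℝ ∞ g) (x w : E3) :
    fderiv ℝ (fderiv ℝ (fun y => h400_E (g y))) x w w =
      expNegInvGlue (g x) * (fderiv ℝ g x w) ^ 2 + h400_E1 (g x) * fderiv ℝ (fderiv ℝ g) x w w := by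
  have hP : ContDiff ℝ ∞ (fun y => h400_E (g y)) := h400_E_smooth.comp hg
  have h1 : ∀ t : ℝ, fderiv ℝ (fun y => h400_E (g y)) (x + t • w) w =
      h400_E1 (g (x + t • w)) * fderiv ℝ g (x + t • w) w := by
    intro t
    exact (h400_d1 _ hP x w t).unique ((h400_E_deriv _).comp t (h400_d1 g hg x w t))
  have h2 := h400_d2 _ hP x w
  simp only [h1] at h2
  have h3 : HasDerivAt (fun t : ℝ => h400_E1 (g (x + t • w)))
      (expNegInvGlue (g (x + (0:ℝ) • w)) * fderiv ℝ g (x + (0:ℝ) • w) w) 0 :=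
    (h400_E1_deriv _).comp (0:ℝ) (h400_d1 g hg x w 0)
  have h4 := h2.unique (h3.mul (h400_d2 g hg x w))
  rw [h4, zero_smul, add_zero]
  ring

theorem h400_d2g (P0 : E3 → ℝ) (hP0 : ContDiff ℝ ∞ P0) (e R : ℝ) (x w : E3) :
    fderiv ℝ (fderiv ℝ (fun y => P0 y + e * (h400_q y - R))) x w w =
      fderiv ℝ (fderiv ℝ P0) x w w + 2 * e * h400_q w := by
  have hg : ContDiff ℝ ∞ (fun y => P0 y + e * (h400_q y - R)) :=
    hP0.add (contDiff_const.mul (h400_q_smooth.sub contDiff_const))
  obtain ⟨b, hb⟩ := h400_q_line x w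
  have h1 : ∀ t : ℝ, fderiv ℝ (fun y => P0 y + e * (h400_q y - R)) (x + t • w) w =
      fderiv ℝ P0 (x + t • w) w + e * (2 * b + 2 * t * h400_q w) := by
    intro t
    apply (h400_d1 _ hg x w t).unique
    simp only [hb]
    have h2 : HasDerivAt (fun t : ℝ => e * (h400_q x + 2 * t * b + t ^ 2 * h400_q w - R))
        (e * (2 * b + 2 * t * h400_q w)) t := by
      have h3 : HasDerivAt (fun t : ℝ => h400_q x + 2 * t * b + t ^ 2 * h400_q w - R)
          (2 * b + 2 * t * h400_q w) t := by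
        have e1 : HasDerivAt (fun t : ℝ => 2 * t * b) (2 * b) t := by
          have := ((hasDerivAt_id t).const_mul (2:ℝ)).mul_const b
          simpa using this
        have e2 : HasDerivAt (fun t : ℝ => t ^ 2 * h400_q w) (2 * t * h400_q w) t := by
          have := (hasDerivAt_pow 2 t).mul_const (h400_q w)
          simpa using this
        exact ((e1.const_add (h400_q x)).add e2).sub_const R
      exact h3.const_mul e
    exact (h400_d1 P0 hP0 x w t).add h2
  have h2 := h400_d2 _ hg x w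
  simp only [h1] at h2
  have h3 : HasDerivAt (fun t : ℝ => e * (2 * b + 2 * t * h400_q w)) (2 * e * h400_q w) 0 := by
    have e1 : HasDerivAt (fun t : ℝ => 2 * t * h400_q w) (2 * h400_q w) (0:ℝ) := by
      have := ((hasDerivAt_id (0:ℝ)).const_mul (2:ℝ)).mul_const (h400_q w)
      simpa using this
    have e2 := (e1.const_add (2 * b)).const_mul e
    have e3 : e * (2 * h400_q w) = 2 * e * h400_q w := by ring
    rwa [e3] at e2
  exact h2.unique ((h400_d2 P0 hP0 x w).add h3)

theorem h400_lower (P0 : E3 → ℝ) (hP0 : ContDiff ℝ ∞ P0) (hc : ConvexOn ℝ Set.univ P0) (e R : ℝ)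
    (x : E3) (a : Fin 3 → ℂ) :
    e * h400_E1 (P0 x + e * (h400_q x - R)) * ∑ j, ‖a j‖ ^ 2 ≤
      Lev (fun y => h400_E (P0 y + e * (h400_q y - R))) x a := by
  have hg : ContDiff ℝ ∞ (fun y => P0 y + e * (h400_q y - R)) :=
    hP0.add (contDiff_const.mul (h400_q_smooth.sub contDiff_const))
  have hP : ContDiff ℝ ∞ (fun y => h400_E (P0 y + e * (h400_q y - R))) := h400_E_smooth.comp hg
  have hw : ∀ w : E3, 2 * e * h400_E1 (P0 x + e * (h400_q x - R)) * h400_q w ≤
      fderiv ℝ (fderiv ℝ (fun y => h400_E (P0 y + e * (h400_q y - R)))) x w w := by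
    intro w
    rw [h400_chain _ hg, h400_d2g P0 hP0]
    have h1 := h400_hess_convex_nonneg P0 hP0 hc x w
    have h2 := h400_E1_nonneg (P0 x + e * (h400_q x - R))
    have h3 : 0 ≤ expNegInvGlue (P0 x + e * (h400_q x - R)) *
        (fderiv ℝ (fun y => P0 y + e * (h400_q y - R)) x w) ^ 2 :=
      mul_nonneg (expNegInvGlue.nonneg _) (sq_nonneg _)
    have h4 := mul_nonneg h2 h1
    nlinarith
  rw [h400_lev _ hP]
  have h1 := hw a
  have h2 := hw (fun j => I * a j)
  rw [h400_q_I] at h2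
  have h3 : h400_q a = ∑ j, ‖a j‖ ^ 2 := rfl
  rw [← h3]
  linarith

theorem p1G (hP : Pfun_stmt) : P1G_stmt := by
  intro K U hK hKc hKn hU hKU
  obtain ⟨P0, hP0, hconv, hnn, hzero, hpos⟩ := hP K U hK hKc hKn hU hKU
  have hqc : Continuous h400_q := h400_q_smooth.continuous
  -- the radius
  obtain ⟨R', hR'⟩ := hK.exists_bound_of_continuousOn hqc.continuousOn
  obtain ⟨R, hR⟩ : ∃ R, R = max R' 0 := ⟨_, rfl⟩
  have hR0 : 0 ≤ R := by
    rw [hR]
    exact le_max_right _ _
  have hKR : ∀ x ∈ K, h400_q x ≤ R := by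
    intro x hx
    rw [hR]
    exact ((le_abs_self _).trans (hR' x hx)).trans (le_max_left _ _)
  -- the constant
  have hexe : ∃ e : ℝ, 0 < e ∧ ∀ x, x ∉ U → 0 < P0 x + e * (h400_q x - R) := by
    have hCc : IsCompact ({x : E3 | h400_q x ≤ R} ∩ Uᶜ) := by
      have h1 : {x : E3 | h400_q x ≤ R} ⊆ Metric.closedBall 0 (Real.sqrt R) := by
        intro x hx
        rw [Metric.mem_closedBall, dist_zero_right, pi_norm_le_iff_of_nonneg (Real.sqrt_nonneg _)]
        intro j
        apply Real.le_sqrt_of_sq_le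
        have h2 : ‖x j‖ ^ 2 ≤ ∑ j, ‖x j‖ ^ 2 :=
          Finset.single_le_sum (f := fun j => ‖x j‖ ^ 2) (fun i _ => by positivity)
            (Finset.mem_univ j)
        exact h2.trans hx
      have h2 : IsClosed {x : E3 | h400_q x ≤ R} := isClosed_le hqc continuous_const
      exact ((isCompact_closedBall (0 : E3) (Real.sqrt R)).of_isClosed_subset h2 h1).inter_right
        hU.isClosed_compl
    by_cases hCe : ({x : E3 | h400_q x ≤ R} ∩ Uᶜ).Nonempty
    · obtain ⟨x0, hx0, hmin⟩ := hCc.exists_isMinOn hCe hP0.continuous.continuousOn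
      have hm : 0 < P0 x0 := hpos x0 hx0.2
      refine ⟨P0 x0 / (R + 1), by positivity, ?_⟩
      intro x hx
      have he : 0 < P0 x0 / (R + 1) := by positivity
      by_cases hq : h400_q x ≤ R
      · have h1 : P0 x0 ≤ P0 x := isMinOn_iff.mp hmin x ⟨hq, hx⟩
        have h2 : P0 x0 / (R + 1) * R < P0 x0 := by
          rw [div_mul_eq_mul_div, div_lt_iff₀ (by positivity)]
          nlinarith
        have h3 : 0 ≤ P0 x0 / (R + 1) * h400_q x := mul_nonneg he.le (h400_q_nonneg x)
        nlinarith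
      · have h1 : 0 < P0 x0 / (R + 1) * (h400_q x - R) := mul_pos he (by linarith [not_le.mp hq])
        linarith [hnn x]
    · refine ⟨1, one_pos, ?_⟩
      intro x hx
      have hq : ¬ h400_q x ≤ R := fun h => hCe ⟨x, h, hx⟩
      linarith [hnn x, not_le.mp hq]
  obtain ⟨e, he, hgpos⟩ := hexe
  have hg : ContDiff ℝ ∞ (fun y => P0 y + e * (h400_q y - R)) :=
    hP0.add (contDiff_const.mul (h400_q_smooth.sub contDiff_const))
  refine ⟨fun y => h400_E (P0 y + e * (h400_q y - R)), h400_E_smooth.comp hg, ?_, ?_, ?_, ?_, ?_⟩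
  · intro x a
    refine le_trans ?_ (h400_lower P0 hP0 hconv e R x a)
    exact mul_nonneg (mul_nonneg he.le (h400_E1_nonneg _))
      (Finset.sum_nonneg (fun j _ => by positivity))
  · intro x
    exact h400_E_nonneg _
  · intro x hx
    apply h400_E_zero
    rw [hzero x hx]
    nlinarith [hKR x hx]
  · intro x hx
    exact h400_E_pos (hgpos x hx)
  · intro L hL hLU
    by_cases hLe : L.Nonempty
    · obtain ⟨x0, hx0, hmin⟩ := hL.exists_isMinOn hLe
        (h400_E1_cont.comp hg.continuous).continuousOn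
      have hx0U : x0 ∉ U := fun h => Set.disjoint_left.mp hLU hx0 h
      have hm : 0 < h400_E1 (P0 x0 + e * (h400_q x0 - R)) := h400_E1_pos (hgpos x0 hx0U)
      refine ⟨e * h400_E1 (P0 x0 + e * (h400_q x0 - R)), by positivity, ?_⟩
      intro x hx a
      refine le_trans ?_ (h400_lower P0 hP0 hconv e R x a)
      have h1 : h400_E1 (P0 x0 + e * (h400_q x0 - R)) ≤ h400_E1 (P0 x + e * (h400_q x - R)) :=
        isMinOn_iff.mp hmin x hx
      apply mul_le_mul_of_nonneg_right _ (Finset.sum_nonneg (fun j _ => by positivity))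
      exact mul_le_mul_of_nonneg_left h1 he.le
    · refine ⟨1, one_pos, ?_⟩
      intro x hx
      exact absurd ⟨x, hx⟩ hLe

end DbarC.JPG
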