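import Pool.Agent.H314.DC.St3
import Pool.Agent.H314.DN.PM

set_option autoImplicit false

open MeasureTheory Complex Filter Topology
open scoped ContDiff InnerProductSpace ENNReal ComplexConjugate

namespace DbarC.JPMj
open DbarN DbarN.JPM

theorem R2_pos_pj (t s : ℝ) : 0 < R2 t s := Real.exp_pos _

theorem R2_pow_pj (j : ℕ) (t s : ℝ) : Real.exp ((j + 1) * Yc t s) = R2 t s ^ (j + 1) := by
  unfold R2
  rw [← Real.exp_nat_mul]
  push_cast
  rfl

theorem l0_meas_pj (t : ℝ) : Measurable (fun s : ℝ => l0 t s) := by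
  unfold l0 el tau
  fun_prop

theorem R2_meas_pj (t : ℝ) : Measurable (fun s : ℝ => R2 t s) := by
  have h := l0_meas_pj t
  unfold R2 Yc
  exact ((Real.measurable_log.comp h).const_mul _).exp

theorem R2_meas2_pj (t : ℝ) : Measurable (fun p : ℝ × ℝ => R2 t p.2) :=
  (R2_meas_pj t).comp measurable_snd

theorem fib_pj (hC : CAc_stmt) {t s : ℝ} (ht0 : 0 ≤ t) (ht : t < T0) (h0 : 0 ≤ s) (h1 : s < 1) :
    0 < R2 t s ∧ R2 t s ≤ 1 / 100 ∧ 0 < d0 t ∧ d0 t ≤ 1 ∧ 100 ≤ l0 t s ∧ R2 t s ≤ 1 / l0 t s ∧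
    0 ≤ La t ∧ 100 + La t ≤ l0 t s ∧ 0 ≤ La1 t ∧ 0 ≤ La2 t := by
  obtain ⟨a1, a2, a3, a4, a5, a6, a7, a8, -, -, -, -, -, -, -, -, -, a9, a10⟩ :=
    hC t s (by linarith) ht h0 h1
  have h2 := a9 ht0
  have htau : 0 ≤ tau s := by
    unfold tau
    have : Real.log (1 - s ^ 2) ≤ 0 := Real.log_nonpos (by nlinarith) (by nlinarith)
    linarith
  refine ⟨a10, h2.trans ?_, a6, a7, a5, h2, a1, by linarith, a2, ?_⟩
  · exact one_div_le_one_div_of_le (by norm_num) a5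
  · nlinarith

theorem BD_open_pj : IsOpen BD := by
  unfold BD
  exact isOpen_lt (by fun_prop) continuous_const

/-- weight on a fibre -/
theorem wt_pj (j k : ℕ) (t v s : ℝ) : v ^ (2 * j + 1) * den j k t s =
    v * s * R2 t s * (v ^ (2 * j) * s ^ (2 * k) * R2 t s ^ j) := by
  unfold den
  rw [R2_pow_pj]
  ring

theorem mono2_pj (j k : ℕ) (z : ℂ) {v s : ℝ} (hd : 0 < d0 (‖z‖ ^ 2)) :
    mono j k z v s ^ 2 = d0 (‖z‖ ^ 2) ^ k *
      (v ^ (2 * j) * s ^ (2 * k) * R2 (‖z‖ ^ 2) s ^ j) := by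
  have hR := R2_pos_pj (‖z‖ ^ 2) s
  unfold mono
  have e1 : ((v * Real.sqrt (R2 (‖z‖ ^ 2) s)) ^ j) ^ 2 = v ^ (2 * j) * R2 (‖z‖ ^ 2) s ^ j := by
    rw [← pow_mul, mul_comm j 2, mul_pow, pow_mul (Real.sqrt _), Real.sq_sqrt hR.le]
  have e2 : ((Real.sqrt (d0 (‖z‖ ^ 2)) * s) ^ k) ^ 2 = d0 (‖z‖ ^ 2) ^ k * s ^ (2 * k) := by
    rw [← pow_mul, mul_comm k 2, mul_pow, pow_mul (Real.sqrt _), Real.sq_sqrt hd.le]
  rw [mul_pow, e1, e2]
  ring

theorem bd_pj (hC : CAc_stmt) (j k : ℕ) (z : ℂ) (hz : z ∈ BD) :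
    ∃ C0 : ℝ, 0 ≤ C0 ∧ ∀ v ∈ Set.Ioo (0 : ℝ) 1, ∀ s ∈ Set.Ioo (0 : ℝ) 1,
      0 < mono j k z v s ∧ mono j k z v s ≤ 1 ∧
      0 ≤ v ^ (2 * j + 1) * den j k (‖z‖ ^ 2) s ∧
      v ^ (2 * j + 1) * den j k (‖z‖ ^ 2) s ≤ C0 * mono j k z v s ^ 2 := by
  have hzt : ‖z‖ ^ 2 < T0 := hz
  obtain ⟨-, -, hd0, hd1, -⟩ := fib_pj hC (sq_nonneg ‖z‖) hzt le_rfl one_pos
  refine ⟨1 / d0 (‖z‖ ^ 2) ^ k, by positivity, ?_⟩
  rintro v ⟨hv0, hv1⟩ s ⟨hs0, hs1⟩
  obtain ⟨hR0, hR1, -⟩ := fib_pj hC (sq_nonneg ‖z‖) hzt hs0.le hs1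
  have hs2 : Real.sqrt (R2 (‖z‖ ^ 2) s) ≤ 1 := by
    rw [Real.sqrt_le_left (by norm_num)]; linarith
  have hs3 : Real.sqrt (d0 (‖z‖ ^ 2)) ≤ 1 := by
    rw [Real.sqrt_le_left (by norm_num)]; linarith
  have hs4 : 0 < Real.sqrt (R2 (‖z‖ ^ 2) s) := Real.sqrt_pos.2 hR0
  have hs5 : 0 < Real.sqrt (d0 (‖z‖ ^ 2)) := Real.sqrt_pos.2 hd0
  refine ⟨by unfold mono; positivity, ?_, ?_, ?_⟩
  · unfold mono
    have h1 : (v * Real.sqrt (R2 (‖z‖ ^ 2) s)) ^ j ≤ 1 :=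
      pow_le_one₀ (by positivity) (mul_le_one₀ hv1.le hs4.le hs2)
    have h2 : (Real.sqrt (d0 (‖z‖ ^ 2)) * s) ^ k ≤ 1 :=
      pow_le_one₀ (by positivity) (mul_le_one₀ hs3 hs0.le hs1.le)
    exact mul_le_one₀ h1 (by positivity) h2
  · rw [wt_pj]; positivity
  · rw [wt_pj, mono2_pj j k z hd0]
    have e1 : 1 / d0 (‖z‖ ^ 2) ^ k * (d0 (‖z‖ ^ 2) ^ k *
        (v ^ (2 * j) * s ^ (2 * k) * R2 (‖z‖ ^ 2) s ^ j)) =
        1 * (v ^ (2 * j) * s ^ (2 * k) * R2 (‖z‖ ^ 2) s ^ j) := by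
      field_simp
    rw [e1]
    apply mul_le_mul_of_nonneg_right _ (by positivity)
    have h1 : v * s ≤ 1 := mul_le_one₀ hv1.le hs0.le hs1.le
    exact mul_le_one₀ h1 hR0.le (by linarith)

theorem Pt_norm_pj (hC : CAc_stmt) (z : ℂ) (hz : z ∈ BD) {v s : ℝ}
    (hv : v ∈ Set.Ioo (0 : ℝ) 1) (hs : s ∈ Set.Ioo (0 : ℝ) 1) :
    Pt z v s ∈ Metric.closedBall (0 : E3) (max ‖z‖ 2) := by
  have hzt : ‖z‖ ^ 2 < T0 := hz
  obtain ⟨hR0, hR1, hd0, hd1, -⟩ := fib_pj hC (sq_nonneg ‖z‖) hzt hs.1.le hs.2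
  have hs2 : Real.sqrt (R2 (‖z‖ ^ 2) s) ≤ 1 := by
    rw [Real.sqrt_le_left (by norm_num)]; linarith
  have hs3 : Real.sqrt (d0 (‖z‖ ^ 2)) ≤ 1 := by
    rw [Real.sqrt_le_left (by norm_num)]; linarith
  have hs4 : 0 ≤ Real.sqrt (R2 (‖z‖ ^ 2) s) := Real.sqrt_nonneg _
  have hs5 : 0 ≤ Real.sqrt (d0 (‖z‖ ^ 2)) := Real.sqrt_nonneg _
  rw [mem_closedBall_zero_iff, pi_norm_le_iff_of_nonneg (by positivity)]
  intro i
  fin_cases i
  · exact le_max_left _ _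
  · refine le_trans ?_ (le_max_right _ _)
    show ‖((v * Real.sqrt (R2 (‖z‖ ^ 2) s) : ℝ) : ℂ)‖ ≤ 2
    rw [Complex.norm_real, Real.norm_of_nonneg (mul_nonneg hv.1.le hs4)]
    have := mul_le_one₀ hv.2.le hs4 hs2
    linarith
  · refine le_trans ?_ (le_max_right _ _)
    show ‖((Real.sqrt (d0 (‖z‖ ^ 2)) * s : ℝ) : ℂ)‖ ≤ 2
    rw [Complex.norm_real, Real.norm_of_nonneg (mul_nonneg hs5 hs.1.le)]
    have := mul_le_one₀ hs3 hs.1.le hs.2.le
    linarith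

theorem pt_pj (hC : CAc_stmt) (z : ℂ) (hz : z ∈ BD) {G : Type}
    [NormedAddCommGroup G] (K : E3 → G) (hK : Continuous K) :
    ∃ C : ℝ, 0 ≤ C ∧ ∀ v ∈ Set.Ioo (0 : ℝ) 1, ∀ s ∈ Set.Ioo (0 : ℝ) 1,
      ‖K (Pt z v s)‖ ≤ C := by
  obtain ⟨C, hCb⟩ := (isCompact_closedBall (0 : E3) (max ‖z‖ 2)).exists_bound_of_continuousOn
    hK.continuousOn
  refine ⟨max C 0, le_max_right _ _, ?_⟩
  intro v hv s hs
  exact (hCb _ (Pt_norm_pj hC z hz hv hs)).trans (le_max_left _ _)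

theorem Pt_meas_pj (z : ℂ) : Measurable (fun p : ℝ × ℝ => Pt z p.1 p.2) := by
  have h := R2_meas2_pj (‖z‖ ^ 2)
  rw [measurable_pi_iff]
  intro i
  fin_cases i
  · show Measurable (fun p : ℝ × ℝ => z)
    exact measurable_const
  · show Measurable (fun p : ℝ × ℝ => ((p.1 * Real.sqrt (R2 (‖z‖ ^ 2) p.2) : ℝ) : ℂ))
    apply Complex.measurable_ofReal.comp
    fun_prop
  · show Measurable (fun p : ℝ × ℝ => ((Real.sqrt (d0 (‖z‖ ^ 2)) * p.2 : ℝ) : ℂ))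
    apply Complex.measurable_ofReal.comp
    fun_prop

theorem mono_meas_pj (j k : ℕ) (z : ℂ) : Measurable (fun p : ℝ × ℝ => mono j k z p.1 p.2) := by
  have h := R2_meas2_pj (‖z‖ ^ 2)
  unfold mono
  fun_prop

theorem den_meas_pj (j k : ℕ) (t : ℝ) :
    Measurable (fun p : ℝ × ℝ => p.1 ^ (2 * j + 1) * den j k t p.2) := by
  have h := R2_meas2_pj t
  unfold den
  simp only [R2_pow_pj]
  fun_prop

theorem EE_pj (j k : ℕ) (t : ℝ) (H : ℝ → ℝ → ℝ)
    (hint : Integrable (fun p : ℝ × ℝ =>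
      H p.1 p.2 * (p.1 ^ (2 * j + 1) * den j k t p.2)) mu_fv) :
    EE j k t H = (∫ p : ℝ × ℝ, H p.1 p.2 * (p.1 ^ (2 * j + 1) * den j k t p.2) ∂mu_fv) *
      ((2 * j + 2) / Iw j k t) := by
  unfold EE
  rw [integral_prod _ hint]

theorem EC_pj (j k : ℕ) (t : ℝ) (H : ℝ → ℝ → ℂ)
    (hint : Integrable (fun p : ℝ × ℝ =>
      H p.1 p.2 * ((p.1 ^ (2 * j + 1) * den j k t p.2 : ℝ) : ℂ)) mu_fv) :
    EC j k t H =
      (∫ p : ℝ × ℝ, H p.1 p.2 * ((p.1 ^ (2 * j + 1) * den j k t p.2 : ℝ) : ℂ) ∂mu_fv) *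
      (((2 * j + 2) / Iw j k t : ℝ) : ℂ) := by
  unfold EC
  rw [integral_prod _ hint]

/-- integrability of `g(s) K(Pt)/mono² × weight` -/
theorem intA_pj (hC : CAc_stmt) (j k : ℕ) (z : ℂ) (hz : z ∈ BD)
    (K : E3 → ℝ) (hK : Continuous K) (g : ℝ → ℝ) (hg : Measurable g)
    (hg1 : ∀ s ∈ Set.Ioo (0 : ℝ) 1, |g s| ≤ 1) :
    Integrable (fun p : ℝ × ℝ => g p.2 * (K (Pt z p.1 p.2) / mono j k z p.1 p.2 ^ 2) *
      (p.1 ^ (2 * j + 1) * den j k (‖z‖ ^ 2) p.2)) mu_fv := by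
  obtain ⟨C0, hC0, hbd⟩ := bd_pj hC j k z hz
  obtain ⟨CK, hCK0, hCK⟩ := pt_pj hC z hz K hK
  refine int_fv _ ?_ (CK * C0) ?_
  · apply Measurable.aestronglyMeasurable
    have h1 := Pt_meas_pj z
    have h2 := mono_meas_pj j k z
    have h3 := den_meas_pj j k (‖z‖ ^ 2)
    exact ((hg.comp measurable_snd).mul ((hK.measurable.comp h1).div (h2.pow_const 2))).mul h3
  · intro v hv s hs
    obtain ⟨h1, h2, h3, h4⟩ := hbd v hv s hs
    have h5 := hCK v hv s hs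
    have hm2 : 0 < mono j k z v s ^ 2 := by positivity
    show ‖g s * (K (Pt z v s) / mono j k z v s ^ 2) *
      (v ^ (2 * j + 1) * den j k (‖z‖ ^ 2) s)‖ ≤ CK * C0
    rw [norm_mul, norm_mul, norm_div, Real.norm_of_nonneg h3, Real.norm_of_nonneg hm2.le]
    have hg2 : ‖g s‖ ≤ 1 := hg1 s hs
    calc ‖g s‖ * (‖K (Pt z v s)‖ / mono j k z v s ^ 2) *
        (v ^ (2 * j + 1) * den j k (‖z‖ ^ 2) s) ≤
        1 * (CK / mono j k z v s ^ 2) * (C0 * mono j k z v s ^ 2) := by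
          refine mul_le_mul ?_ h4 h3 (by positivity)
          refine mul_le_mul hg2 ?_ (by positivity) zero_le_one
          exact div_le_div_of_nonneg_right h5 hm2.le
      _ = CK * C0 := by field_simp

theorem intA1_pj (hC : CAc_stmt) (j k : ℕ) (z : ℂ) (hz : z ∈ BD)
    (K : E3 → ℝ) (hK : Continuous K) :
    Integrable (fun p : ℝ × ℝ => K (Pt z p.1 p.2) / mono j k z p.1 p.2 ^ 2 *
      (p.1 ^ (2 * j + 1) * den j k (‖z‖ ^ 2) p.2)) mu_fv := by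
  have h := intA_pj hC j k z hz K hK (fun _ => 1) measurable_const (fun s _ => by simp)
  simpa using h

theorem intB_pj (hC : CAc_stmt) (j k : ℕ) (z : ℂ) (hz : z ∈ BD)
    (K : E3 → ℂ) (hK : Continuous K) :
    Integrable (fun p : ℝ × ℝ => cc j k K z p.1 p.2 *
      ((p.1 ^ (2 * j + 1) * den j k (‖z‖ ^ 2) p.2 : ℝ) : ℂ)) mu_fv := by
  obtain ⟨C0, hC0, hbd⟩ := bd_pj hC j k z hz
  obtain ⟨CK, hCK0, hCK⟩ := pt_pj hC z hz K hK
  refine int_fv _ ?_ (CK * C0 * 1) ?_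
  · apply Measurable.aestronglyMeasurable
    have h1 := Pt_meas_pj z
    have h2 := mono_meas_pj j k z
    have h3 := den_meas_pj j k (‖z‖ ^ 2)
    exact ((hK.measurable.comp h1).div (Complex.measurable_ofReal.comp h2)).mul
      (Complex.measurable_ofReal.comp h3)
  · intro v hv s hs
    obtain ⟨h1, h2, h3, h4⟩ := hbd v hv s hs
    have h5 := hCK v hv s hs
    show ‖K (Pt z v s) / (mono j k z v s : ℂ) *
      ((v ^ (2 * j + 1) * den j k (‖z‖ ^ 2) s : ℝ) : ℂ)‖ ≤ CK * C0 * 1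
    rw [norm_mul, norm_div, Complex.norm_real, Complex.norm_real, Real.norm_of_nonneg h3,
      Real.norm_of_nonneg h1.le]
    calc ‖K (Pt z v s)‖ / mono j k z v s *
        (v ^ (2 * j + 1) * den j k (‖z‖ ^ 2) s) ≤
        CK / mono j k z v s * (C0 * mono j k z v s ^ 2) := by
          refine mul_le_mul ?_ h4 h3 (by positivity)
          exact div_le_div_of_nonneg_right h5 h1.le
      _ = CK * C0 * mono j k z v s := by field_simp
      _ ≤ CK * C0 * 1 := mul_le_mul_of_nonneg_left h2 (by positivity)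

theorem intC_pj (hC : CAc_stmt) (j k : ℕ) (z : ℂ) (hz : z ∈ BD) :
    Integrable (fun p : ℝ × ℝ => p.1 ^ (2 * j + 1) * den j k (‖z‖ ^ 2) p.2) mu_fv := by
  obtain ⟨C0, hC0, hbd⟩ := bd_pj hC j k z hz
  refine int_fv _ (den_meas_pj j k (‖z‖ ^ 2)).aestronglyMeasurable (C0 * 1 ^ 2) ?_
  intro v hv s hs
  obtain ⟨h1, h2, h3, h4⟩ := hbd v hv s hs
  show ‖v ^ (2 * j + 1) * den j k (‖z‖ ^ 2) s‖ ≤ C0 * 1 ^ 2
  rw [Real.norm_of_nonneg h3]
  exact h4.trans (mul_le_mul_of_nonneg_left (pow_le_pow_left₀ h1.le h2 2) hC0)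

theorem memIoo_pj {z : ℂ} (hz : z ∈ BD) :
    ‖z‖ ^ 2 ∈ Set.Ioo (-1) T0 := ⟨by nlinarith [sq_nonneg ‖z‖], hz⟩

theorem memIco_pj {z : ℂ} (hz : z ∈ BD) :
    ‖z‖ ^ 2 ∈ Set.Ico 0 T0 := ⟨sq_nonneg ‖z‖, hz⟩

theorem Iw_pos_pj (hC : CAc_stmt) (hChi : Chi_stmt) (j k : ℕ) {t : ℝ} (ht0 : 0 ≤ t)
    (ht : t < T0) : 0 < Iw j k t := by
  obtain ⟨chi1, chi2, -, -, -, -, -, -, hw⟩ := hChi j k
  have h1 := (hw t ⟨by linarith, ht⟩).1
  obtain ⟨-, -, hd0, -⟩ := fib_pj hC ht0 ht le_rfl one_pos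
  unfold ww at h1
  exact (pos_iff_pos_of_mul_pos h1).1 (by positivity)

theorem one_pj (hC : CAc_stmt) (hChi : Chi_stmt) (j k : ℕ) (z : ℂ)
    (hz : z ∈ BD) :
    (∫ p : ℝ × ℝ, p.1 ^ (2 * j + 1) * den j k (‖z‖ ^ 2) p.2 ∂mu_fv) *
      ((2 * j + 2) / Iw j k (‖z‖ ^ 2)) = 1 := by
  have hI : Iw j k (‖z‖ ^ 2) ≠ 0 := (Iw_pos_pj hC hChi j k (sq_nonneg _) hz).ne'
  rw [integral_prod _ (intC_pj hC j k z hz)]
  have h1 : ∀ v : ℝ, ∫ s in Set.Ioo (0 : ℝ) 1, v ^ (2 * j + 1) * den j k (‖z‖ ^ 2) s =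
      v ^ (2 * j + 1) * Iw j k (‖z‖ ^ 2) := by
    intro v
    rw [integral_const_mul]
    rfl
  simp only [h1]
  rw [integral_mul_const]
  have h2 : ∫ v in Set.Ioo (0 : ℝ) 1, v ^ (2 * j + 1) = 1 / (2 * j + 2) := by
    rw [← integral_Ioc_eq_integral_Ioo, ← intervalIntegral.integral_of_le zero_le_one,
      integral_pow]
    push_cast
    rw [one_pow, zero_pow (by omega)]
    ring
  rw [h2]
  have h3 : (2 * (j : ℝ) + 2) ≠ 0 := by positivity
  field_simp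

theorem expand_pj (hC : CAc_stmt) (hChi : Chi_stmt) (j k : ℕ) (z : ℂ)
    (hz : z ∈ BD) (F : E3 → ℂ) (hF : Continuous F) (A : ℂ) :
    EE j k (‖z‖ ^ 2) (fun v s => ‖cc j k F z v s - A‖ ^ 2) =
      (∫ p : ℝ × ℝ, ‖F (Pt z p.1 p.2)‖ ^ 2 / mono j k z p.1 p.2 ^ 2 *
        (p.1 ^ (2 * j + 1) * den j k (‖z‖ ^ 2) p.2) ∂mu_fv) *
        ((2 * j + 2) / Iw j k (‖z‖ ^ 2)) -
      2 * (conj A * aa j k F z).re + ‖A‖ ^ 2 := by
  have hA := intA1_pj hC j k z hz (fun x => ‖F x‖ ^ 2) (hF.norm.pow 2)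
  have hB := intB_pj hC j k z hz F hF
  have hCC := intC_pj hC j k z hz
  have hB2 := hB.const_mul (conj A)
  have hB3 := hB2.re
  have hfun : (fun p : ℝ × ℝ => ‖cc j k F z p.1 p.2 - A‖ ^ 2 *
      (p.1 ^ (2 * j + 1) * den j k (‖z‖ ^ 2) p.2)) =
      fun p : ℝ × ℝ => (‖F (Pt z p.1 p.2)‖ ^ 2 / mono j k z p.1 p.2 ^ 2 *
        (p.1 ^ (2 * j + 1) * den j k (‖z‖ ^ 2) p.2) -
        2 * RCLike.re (conj A * (cc j k F z p.1 p.2 *
          ((p.1 ^ (2 * j + 1) * den j k (‖z‖ ^ 2) p.2 : ℝ) : ℂ)))) +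
        ‖A‖ ^ 2 * (p.1 ^ (2 * j + 1) * den j k (‖z‖ ^ 2) p.2) := by
    funext p
    have h1 : ‖F (Pt z p.1 p.2)‖ ^ 2 / mono j k z p.1 p.2 ^ 2 =
        ‖cc j k F z p.1 p.2‖ ^ 2 := by
      unfold cc
      rw [norm_div, div_pow, Complex.norm_real, Real.norm_eq_abs, sq_abs]
    rw [h1]
    generalize cc j k F z p.1 p.2 = c
    generalize p.1 ^ (2 * j + 1) * den j k (‖z‖ ^ 2) p.2 = W
    have h2 : ‖c - A‖ ^ 2 = ‖c‖ ^ 2 - 2 * (conj A * c).re + ‖A‖ ^ 2 := by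
      rw [Complex.sq_norm, Complex.sq_norm, Complex.sq_norm, Complex.normSq_apply,
        Complex.normSq_apply, Complex.normSq_apply]
      simp only [Complex.sub_re, Complex.sub_im, Complex.mul_re, Complex.conj_re,
        Complex.conj_im]
      ring
    have h3 : RCLike.re (conj A * (c * (W : ℂ))) = (conj A * c).re * W := by
      show (conj A * (c * (W : ℂ))).re = _
      rw [← mul_assoc, Complex.re_mul_ofReal]
    rw [h2, h3]
    ring
  have hint : Integrable (fun p : ℝ × ℝ => ‖cc j k F z p.1 p.2 - A‖ ^ 2 *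
      (p.1 ^ (2 * j + 1) * den j k (‖z‖ ^ 2) p.2)) mu_fv := by
    rw [hfun]
    exact (hA.sub (hB3.const_mul 2)).add (hCC.const_mul (‖A‖ ^ 2))
  rw [EE_pj _ _ _ _ hint, hfun]
  have hs := split_fv _ _ _ hA hB3 hCC 2 (‖A‖ ^ 2)
  beta_reduce at hs
  rw [hs, integral_re hB2, integral_const_mul]
  have haa : aa j k F z = _ := EC_pj j k (‖z‖ ^ 2) (cc j k F z) hB
  rw [haa]
  have h1 := one_pj hC hChi j k z hz
  generalize (∫ p : ℝ × ℝ, cc j k F z p.1 p.2 *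
    ((p.1 ^ (2 * j + 1) * den j k (‖z‖ ^ 2) p.2 : ℝ) : ℂ) ∂mu_fv) = Q
  generalize ((2 * (j : ℝ) + 2) / Iw j k (‖z‖ ^ 2)) = c0 at h1 ⊢
  have h2 : (conj A * (Q * (c0 : ℂ))).re = RCLike.re (conj A * Q) * c0 := by
    show _ = (conj A * Q).re * c0
    rw [← mul_assoc, Complex.re_mul_ofReal]
  rw [h2, add_mul, sub_mul, mul_assoc (‖A‖ ^ 2), h1]
  ring

theorem fibre_var_pj (hC : CAc_stmt) (hChi : Chi_stmt) (j k : ℕ) (z : ℂ)
    (hz : z ∈ BD) (F : E3 → ℂ) (hF : Continuous F) (A : ℂ) :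
    EE j k (‖z‖ ^ 2) (fun v s => ‖cc j k F z v s - A‖ ^ 2) =
      EE j k (‖z‖ ^ 2) (fun v s => ‖cc j k F z v s - aa j k F z‖ ^ 2) +
      ‖aa j k F z - A‖ ^ 2 := by
  rw [expand_pj hC hChi j k z hz F hF A, expand_pj hC hChi j k z hz F hF (aa j k F z)]
  exact alg_fv _ _ _


theorem den_nonneg_pj (j k : ℕ) (t : ℝ) {s : ℝ} (h0 : 0 ≤ s) : 0 ≤ den j k t s := by
  unfold den; positivity

theorem EE_nonneg_pj (hC : CAc_stmt) (hChi : Chi_stmt) (j k : ℕ) {t : ℝ} (ht0 : 0 ≤ t)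
    (ht : t < T0) {H : ℝ → ℝ → ℝ} (hH : ∀ v s, 0 ≤ H v s) : 0 ≤ EE j k t H := by
  unfold EE
  have h1 := Iw_pos_pj hC hChi j k ht0 ht
  apply mul_nonneg
  · apply setIntegral_nonneg measurableSet_Ioo
    intro v hv
    apply setIntegral_nonneg measurableSet_Ioo
    intro s hs
    have h2 := den_nonneg_pj j k t hs.1.le
    have h3 := hv.1
    have h4 := hH v s
    positivity
  · positivity

theorem EE_congr_pj (j k : ℕ) (t : ℝ) {H1 H2 : ℝ → ℝ → ℝ}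
    (h : ∀ v ∈ Set.Ioo (0 : ℝ) 1, ∀ s ∈ Set.Ioo (0 : ℝ) 1, H1 v s = H2 v s) :
    EE j k t H1 = EE j k t H2 := by
  unfold EE
  congr 1
  apply setIntegral_congr_fun measurableSet_Ioo
  intro v hv
  apply setIntegral_congr_fun measurableSet_Ioo
  intro s hs
  simp only
  rw [h v hv s hs]

theorem GGn_pj (j k : ℕ) (F : E3 → ℂ) (i : Fin 3) (z : ℂ) (v s : ℝ) :
    ‖GG j k F i z v s‖ ^ 2 = ‖dbar i F (Pt z v s)‖ ^ 2 / mono j k z v s ^ 2 := by
  unfold GG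
  rw [norm_div, div_pow, Complex.norm_real, Real.norm_eq_abs, sq_abs]

theorem sum3_pj (hC : CAc_stmt) (j k : ℕ) (F : E3 → ℂ)
    (hF : ContDiff ℝ ∞ F) (z : ℂ) (hz : z ∈ BD) :
    EE j k (‖z‖ ^ 2) (fun v s => (∑ i, ‖dbar i F (Pt z v s)‖ ^ 2) / mono j k z v s ^ 2) =
      E0 j k F 0 z + E0 j k F 1 z + E0 j k F 2 z := by
  have hc : ∀ i, Continuous (fun x => ‖dbar i F x‖ ^ 2) :=
    fun i => (cont_dbar_pm i F hF).norm.pow 2
  have hi : ∀ i : Fin 3, Integrable (fun p : ℝ × ℝ =>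
      ‖dbar i F (Pt z p.1 p.2)‖ ^ 2 / mono j k z p.1 p.2 ^ 2 *
      (p.1 ^ (2 * j + 1) * den j k (‖z‖ ^ 2) p.2)) mu_fv :=
    fun i => intA1_pj hC j k z hz (fun x => ‖dbar i F x‖ ^ 2) (hc i)
  have hE : ∀ i : Fin 3, E0 j k F i z = (∫ p : ℝ × ℝ,
      ‖dbar i F (Pt z p.1 p.2)‖ ^ 2 / mono j k z p.1 p.2 ^ 2 *
      (p.1 ^ (2 * j + 1) * den j k (‖z‖ ^ 2) p.2) ∂mu_fv) *
      ((2 * j + 2) / Iw j k (‖z‖ ^ 2)) := by
    intro i
    unfold E0
    simp only [GGn_pj]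
    exact EE_pj j k (‖z‖ ^ 2) _ (hi i)
  have hfun : (fun p : ℝ × ℝ => (∑ i, ‖dbar i F (Pt z p.1 p.2)‖ ^ 2) /
      mono j k z p.1 p.2 ^ 2 * (p.1 ^ (2 * j + 1) * den j k (‖z‖ ^ 2) p.2)) =
      fun p : ℝ × ℝ => (‖dbar 0 F (Pt z p.1 p.2)‖ ^ 2 / mono j k z p.1 p.2 ^ 2 *
      (p.1 ^ (2 * j + 1) * den j k (‖z‖ ^ 2) p.2) +
      ‖dbar 1 F (Pt z p.1 p.2)‖ ^ 2 / mono j k z p.1 p.2 ^ 2 *
      (p.1 ^ (2 * j + 1) * den j k (‖z‖ ^ 2) p.2)) +
      ‖dbar 2 F (Pt z p.1 p.2)‖ ^ 2 / mono j k z p.1 p.2 ^ 2 *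
      (p.1 ^ (2 * j + 1) * den j k (‖z‖ ^ 2) p.2) := by
    funext p
    rw [Fin.sum_univ_three]
    ring
  have h01 : Integrable (fun p : ℝ × ℝ => ‖dbar 0 F (Pt z p.1 p.2)‖ ^ 2 / mono j k z p.1 p.2 ^ 2 *
      (p.1 ^ (2 * j + 1) * den j k (‖z‖ ^ 2) p.2) +
      ‖dbar 1 F (Pt z p.1 p.2)‖ ^ 2 / mono j k z p.1 p.2 ^ 2 *
      (p.1 ^ (2 * j + 1) * den j k (‖z‖ ^ 2) p.2)) mu_fv := (hi 0).add (hi 1)
  rw [EE_pj j k (‖z‖ ^ 2) _ (by rw [hfun]; exact h01.add (hi 2)), hfun,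
    integral_add h01 (hi 2), integral_add (hi 0) (hi 1), hE, hE, hE]
  ring

theorem EE_R2_pj (hC : CAc_stmt) (hChi : Chi_stmt) (j k : ℕ) (F : E3 → ℂ)
    (hF : ContDiff ℝ ∞ F) (z : ℂ) (hz : z ∈ BD) (c : ℝ)
    (hc : ∀ s ∈ Set.Ioo (0 : ℝ) 1, R2 (‖z‖ ^ 2) s ≤ c) :
    EE j k (‖z‖ ^ 2) (fun v s => R2 (‖z‖ ^ 2) s * ‖GG j k F 1 z v s‖ ^ 2) ≤
      c * E0 j k F 1 z := by
  have hzt : ‖z‖ ^ 2 < T0 := hz
  have hI := Iw_pos_pj hC hChi j k (sq_nonneg ‖z‖) hzt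
  have hcd : Continuous (fun x => ‖dbar 1 F x‖ ^ 2) := (cont_dbar_pm 1 F hF).norm.pow 2
  have hi := intA1_pj hC j k z hz (fun x => ‖dbar 1 F x‖ ^ 2) hcd
  have hi2 := intA_pj hC j k z hz (fun x => ‖dbar 1 F x‖ ^ 2) hcd (R2 (‖z‖ ^ 2))
    (R2_meas_pj _) (fun s hs => by
      obtain ⟨hR0, hR1, -⟩ := fib_pj hC (sq_nonneg ‖z‖) hzt hs.1.le hs.2
      rw [abs_of_pos hR0]; linarith)
  unfold E0
  simp only [GGn_pj]
  rw [EE_pj j k (‖z‖ ^ 2) _ hi2, EE_pj j k (‖z‖ ^ 2) _ hi, ← mul_assoc]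
  apply mul_le_mul_of_nonneg_right _ (by positivity)
  rw [← integral_const_mul]
  apply integral_mono_ae hi2 (hi.const_mul c)
  have h1 : mu_fv = (volume : Measure (ℝ × ℝ)).restrict
      (Set.Ioo (0 : ℝ) 1 ×ˢ Set.Ioo (0 : ℝ) 1) := Measure.prod_restrict _ _
  rw [h1]
  filter_upwards [ae_restrict_mem (measurableSet_Ioo.prod measurableSet_Ioo)] with p hp
  have h2 := hc p.2 hp.2
  have h3 : 0 ≤ p.1 ^ (2 * j + 1) * den j k (‖z‖ ^ 2) p.2 :=
    mul_nonneg (pow_nonneg hp.1.1.le _) (den_nonneg_pj j k _ hp.2.1.le)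
  have h4 : 0 ≤ ‖dbar 1 F (Pt z p.1 p.2)‖ ^ 2 / mono j k z p.1 p.2 ^ 2 := by positivity
  have h5 := mul_le_mul_of_nonneg_right h2 (mul_nonneg h4 h3)
  refine le_trans (le_of_eq ?_) (h5.trans (le_of_eq ?_))
  · ring
  · ring

theorem log_l_pj {x : ℝ} (hx : 100 ≤ x) : 4 ≤ Real.log x := by
  rw [Real.le_log_iff_exp_le (by linarith)]
  have h1 : Real.exp 4 = Real.exp 1 ^ 4 := by
    rw [← Real.exp_nat_mul]; norm_num
  have h2 := Real.exp_one_lt_d9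
  have h3 : Real.exp 1 ^ 4 ≤ 2.7182818286 ^ 4 :=
    pow_le_pow_left₀ (Real.exp_pos 1).le h2.le 4
  rw [h1]
  refine h3.trans (le_trans ?_ hx)
  norm_num

theorem EsX_pj (hC : CAc_stmt) (hPW : PWc_stmt) (hChi : Chi_stmt) (j k : ℕ) {t : ℝ}
    (ht0 : 0 ≤ t) (ht : t < T0) :
    0 ≤ (j + 1) * Es j k t (fun s => t * (Ycts t s ^ 2 / (-Ycss t s))) ∧
    (j + 1) * Es j k t (fun s => t * (Ycts t s ^ 2 / (-Ycss t s))) ≤ mm j k t / 40 := by
  have hI := Iw_pos_pj hC hChi j k ht0 ht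
  obtain ⟨-, -, -, -, -, -, -, -, hLa1, hLa2⟩ := fib_pj hC ht0 ht le_rfl one_pos
  have hnn : ∀ s ∈ Set.Ioo (0 : ℝ) 1, 0 ≤ t * (Ycts t s ^ 2 / (-Ycss t s)) := by
    intro s hs
    have h1 := (hPW t s ht0 ht hs.1 hs.2).1
    have : 0 < -Ycss t s := by linarith
    positivity
  have h0 : 0 ≤ ∫ s in Set.Ioo (0 : ℝ) 1, t * (Ycts t s ^ 2 / (-Ycss t s)) * den j k t s :=
    setIntegral_nonneg measurableSet_Ioo fun s hs =>
      mul_nonneg (hnn s hs) (den_nonneg_pj j k t hs.1.le)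
  have hg : IntegrableOn (fun s => (Real.log (l0 t s) + t * La2 t / l0 t s) * den j k t s)
      (Set.Ioo (0 : ℝ) 1) := by
    refine Measure.integrableOn_of_bounded (M := 1 + t * La2 t) measure_Ioo_lt_top.ne ?_ ?_
    · apply Measurable.aestronglyMeasurable
      have h1 := l0_meas_pj t
      have h2 := R2_meas_pj t
      apply Measurable.mul
      · exact (Real.measurable_log.comp h1).add (measurable_const.div h1)
      · unfold den
        simp only [R2_pow_pj]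
        fun_prop
    · refine (ae_restrict_iff' measurableSet_Ioo).2 (Eventually.of_forall fun s hs => ?_)
      obtain ⟨hR0, hR1, -, -, hl, hRl, -⟩ := fib_pj hC ht0 ht hs.1.le hs.2
      have hl0 : 0 < l0 t s := by linarith
      have hlog : 0 ≤ Real.log (l0 t s) := Real.log_nonneg (by linarith)
      have hlog2 : Real.log (l0 t s) ≤ l0 t s := (Real.log_le_sub_one_of_pos hl0).trans (by linarith)
      have hd0 := den_nonneg_pj j k t hs.1.le
      have hd1 : den j k t s ≤ 1 / l0 t s := by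
        unfold den
        rw [R2_pow_pj]
        have e1 : s ^ (2 * k + 1) ≤ 1 := pow_le_one₀ hs.1.le hs.2.le
        have e2 : R2 t s ^ (j + 1) ≤ R2 t s := by
          rw [pow_succ]
          have : R2 t s ^ j ≤ 1 := pow_le_one₀ hR0.le (by linarith)
          nlinarith
        calc s ^ (2 * k + 1) * R2 t s ^ (j + 1) ≤ 1 * R2 t s := by
              apply mul_le_mul e1 e2 (by positivity) zero_le_one
          _ ≤ 1 / l0 t s := by rw [one_mul]; exact hRl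
      have hsum : 0 ≤ Real.log (l0 t s) + t * La2 t / l0 t s := by positivity
      rw [Real.norm_of_nonneg (mul_nonneg hsum hd0)]
      calc (Real.log (l0 t s) + t * La2 t / l0 t s) * den j k t s ≤
          (Real.log (l0 t s) + t * La2 t / l0 t s) * (1 / l0 t s) :=
            mul_le_mul_of_nonneg_left hd1 hsum
        _ = Real.log (l0 t s) / l0 t s + t * La2 t / l0 t s * (1 / l0 t s) := by ring
        _ ≤ 1 + t * La2 t := by
            have e3 : Real.log (l0 t s) / l0 t s ≤ 1 := (div_le_one hl0).2 hlog2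
            have e4 : t * La2 t / l0 t s ≤ t * La2 t := div_le_self (by positivity) (by linarith)
            have e5 : 1 / l0 t s ≤ 1 := by
              rw [div_le_one hl0]; linarith
            have e6 : t * La2 t / l0 t s * (1 / l0 t s) ≤ t * La2 t := by
              have e7 : 0 ≤ t * La2 t / l0 t s := by positivity
              nlinarith
            linarith
  have hle : ∫ s in Set.Ioo (0 : ℝ) 1, t * (Ycts t s ^ 2 / (-Ycss t s)) * den j k t s ≤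
      (1 / 40) * ∫ s in Set.Ioo (0 : ℝ) 1,
        (Real.log (l0 t s) + t * La2 t / l0 t s) * den j k t s := by
    rw [← integral_const_mul]
    apply integral_mono_of_nonneg
    · refine (ae_restrict_iff' measurableSet_Ioo).2 (Eventually.of_forall fun s hs => ?_)
      exact mul_nonneg (hnn s hs) (den_nonneg_pj j k t hs.1.le)
    · exact hg.const_mul _
    · refine (ae_restrict_iff' measurableSet_Ioo).2 (Eventually.of_forall fun s hs => ?_)
      obtain ⟨hR0, hR1, -, -, hl, hRl, -⟩ := fib_pj hC ht0 ht hs.1.le hs.2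
      have hl0 : 0 < l0 t s := by linarith
      have h1 := (hPW t s ht0 ht hs.1 hs.2).2.2
      have hlog := log_l_pj hl
      have hd0 := den_nonneg_pj j k t hs.1.le
      have e1 : 1 / l0 t s ≤ (1 / 40) * Real.log (l0 t s) := by
        have : 1 / l0 t s ≤ 1 / 100 := one_div_le_one_div_of_le (by norm_num) hl
        linarith
      have e2 : t * La2 t / l0 t s ^ 2 ≤ (1 / 40) * (t * La2 t / l0 t s) := by
        have e3 : t * La2 t / l0 t s ^ 2 = (1 / l0 t s) * (t * La2 t / l0 t s) := by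
          field_simp
        rw [e3]
        apply mul_le_mul_of_nonneg_right _ (by positivity)
        have : 1 / l0 t s ≤ 1 / 100 := one_div_le_one_div_of_le (by norm_num) hl
        linarith
      have e4 : t * (Ycts t s ^ 2 / (-Ycss t s)) ≤
          (1 / 40) * (Real.log (l0 t s) + t * La2 t / l0 t s) := by linarith
      have e5 := mul_le_mul_of_nonneg_right e4 hd0
      refine e5.trans (le_of_eq ?_)
      ring
  constructor
  · unfold Es
    positivity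
  · have h2 : Es j k t (fun s => t * (Ycts t s ^ 2 / (-Ycss t s))) ≤
        (1 / 40) * Es j k t (fun s => Real.log (l0 t s) + t * La2 t / l0 t s) := by
      unfold Es
      rw [← mul_div_assoc]
      exact div_le_div_of_nonneg_right hle hI.le
    unfold mm
    have h3 : 0 ≤ (k + 1) * (La1 t + t * La2 t) := by positivity
    have h4 : (j + 1) * Es j k t (fun s => t * (Ycts t s ^ 2 / (-Ycss t s))) ≤
        (j + 1) * ((1 / 40) * Es j k t (fun s => Real.log (l0 t s) + t * La2 t / l0 t s)) :=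
      mul_le_mul_of_nonneg_left h2 (by positivity)
    linarith

/-- arithmetic of the coefficient estimate -/
theorem arith_pj {th' m A1 A2 X r r2 ε E0' E1 E2 : ℝ} {p q : ℂ} (hth : 0 < th') (hm : 0 < m)
    (hX : 0 ≤ X) (hX2 : X ≤ m / 40) (hr : 0 ≤ r) (hr2 : 0 ≤ r2)
    (hE0 : 0 ≤ E0') (hE1 : 0 ≤ E1) (hE2 : 0 ≤ E2)
    (h1 : ‖p‖ ^ 2 ≤ E0') (h2 : ‖q‖ ^ 2 ≤ 3 * (A1 * E1 + A2 * E2 + X * (8 * r * E1 + 8 * r2 * E2)))
    (a0 : 8 * th' / m ≤ ε) (a1 : 24 * th' * (A1 / m + r / 5) ≤ ε)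
    (a2 : 24 * th' * (A2 / m + r2 / 5) ≤ ε) :
    ‖p + q‖ ^ 2 / (m / 4) * th' ≤ ε * (E0' + E1 + E2) := by
  have n1 : ‖p + q‖ ≤ ‖p‖ + ‖q‖ := norm_add_le _ _
  have n2 : ‖p + q‖ ^ 2 ≤ 2 * ‖p‖ ^ 2 + 2 * ‖q‖ ^ 2 := by
    have : ‖p + q‖ ^ 2 ≤ (‖p‖ + ‖q‖) ^ 2 := pow_le_pow_left₀ (norm_nonneg _) n1 2
    nlinarith [sq_nonneg (‖p‖ - ‖q‖)]
  have n3 : X * (8 * r * E1 + 8 * r2 * E2) ≤ m / 40 * (8 * r * E1 + 8 * r2 * E2) :=
    mul_le_mul_of_nonneg_right hX2 (by positivity)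
  have n4 : ‖p + q‖ ^ 2 ≤ 2 * E0' + 6 * (A1 * E1 + A2 * E2 + m / 40 * (8 * r * E1 + 8 * r2 * E2)) := by
    linarith
  have n5 : ‖p + q‖ ^ 2 / (m / 4) * th' = ‖p + q‖ ^ 2 * (4 * th' / m) := by
    field_simp
  rw [n5]
  have n6 := mul_le_mul_of_nonneg_right n4 (by positivity : 0 ≤ 4 * th' / m)
  refine n6.trans ?_
  have n7 : (2 * E0' + 6 * (A1 * E1 + A2 * E2 + m / 40 * (8 * r * E1 + 8 * r2 * E2))) *
      (4 * th' / m) = (8 * th' / m) * E0' + (24 * th' * (A1 / m + r / 5)) * E1 +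
      (24 * th' * (A2 / m + r2 / 5)) * E2 := by
    field_simp
    ring
  rw [n7]
  have m0 := mul_le_mul_of_nonneg_right a0 hE0
  have m1 := mul_le_mul_of_nonneg_right a1 hE1
  have m2 := mul_le_mul_of_nonneg_right a2 hE2
  linarith

/-- chain of lintegrals -/
theorem chain_pj (B R : Set ℂ) (hB : MeasurableSet B) (κ1 κ2 κ3 : ℝ) (h1 : 0 ≤ κ1) (h2 : 0 ≤ κ2)
    (h3 : 0 ≤ κ3) (w θ V S D β : ℂ → ℝ) (hw : ∀ z ∈ B, 0 < w z) (hS : ∀ z ∈ B, 0 ≤ S z)
    (hD : ∀ z ∈ B, 0 ≤ D z) (hβ : ∀ z, 0 ≤ β z) (hθ : ∀ z ∈ B, 0 ≤ θ z)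
    (hVS : ∀ z ∈ B, z ∈ R → V z ≤ κ1 * S z)
    (hθR : ∀ z ∈ B, z ∈ R → 1 ≤ κ3 * θ z)
    (hDS : ∀ z ∈ B, D z * θ z ≤ κ2 * S z)
    (hDm : IntegrableOn (fun z => D z * (w z * θ z)) B)
    (hβm : IntegrableOn (fun z => β z * (w z * θ z)) B)
    (hle : ∫ z in B, β z * (w z * θ z) ≤ ∫ z in B, D z * (w z * θ z)) :
    ∫⁻ z in B, R.indicator (fun z => ENNReal.ofReal (w z * (V z + β z))) z ≤
      ENNReal.ofReal (κ1 + κ3 * κ2) * ∫⁻ z in B, ENNReal.ofReal (w z * S z) := by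
  have s1 : ∫⁻ z in B, R.indicator (fun z => ENNReal.ofReal (w z * (V z + β z))) z ≤
      ∫⁻ z in B, (ENNReal.ofReal κ1 * ENNReal.ofReal (w z * S z) +
        ENNReal.ofReal κ3 * ENNReal.ofReal (β z * (w z * θ z))) := by
    apply setLIntegral_mono' hB
    intro z hz
    by_cases hR : z ∈ R
    · rw [Set.indicator_of_mem hR, ← ENNReal.ofReal_mul h1, ← ENNReal.ofReal_mul h3,
        ← ENNReal.ofReal_add]
      · apply ENNReal.ofReal_le_ofReal
        have a1 := mul_le_mul_of_nonneg_left (hVS z hz hR) (hw z hz).le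
        have a2 := mul_le_mul_of_nonneg_left (hθR z hz hR) (mul_nonneg (hw z hz).le (hβ z))
        linarith
      · have := hw z hz
        have := hS z hz
        positivity
      · have := hw z hz
        have := hβ z
        have := hθ z hz
        positivity
    · rw [Set.indicator_of_notMem hR]
      exact zero_le
  have s2 : ∫⁻ z in B, (ENNReal.ofReal κ1 * ENNReal.ofReal (w z * S z) +
        ENNReal.ofReal κ3 * ENNReal.ofReal (β z * (w z * θ z))) =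
      ENNReal.ofReal κ1 * (∫⁻ z in B, ENNReal.ofReal (w z * S z)) +
        ENNReal.ofReal κ3 * ∫⁻ z in B, ENNReal.ofReal (β z * (w z * θ z)) := by
    rw [lintegral_add_right', lintegral_const_mul' _ _ ENNReal.ofReal_ne_top,
      lintegral_const_mul' _ _ ENNReal.ofReal_ne_top]
    exact (hβm.aestronglyMeasurable.aemeasurable.ennreal_ofReal).const_mul _
  have s3 : ∫⁻ z in B, ENNReal.ofReal (β z * (w z * θ z)) ≤
      ∫⁻ z in B, ENNReal.ofReal (D z * (w z * θ z)) := by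
    rw [← ofReal_integral_eq_lintegral_ofReal hβm, ← ofReal_integral_eq_lintegral_ofReal hDm]
    · exact ENNReal.ofReal_le_ofReal hle
    · rw [Filter.EventuallyLE, ae_restrict_iff' hB]
      exact Filter.Eventually.of_forall (fun z hz =>
        mul_nonneg (hD z hz) (mul_nonneg (hw z hz).le (hθ z hz)))
    · rw [Filter.EventuallyLE, ae_restrict_iff' hB]
      exact Filter.Eventually.of_forall (fun z hz =>
        mul_nonneg (hβ z) (mul_nonneg (hw z hz).le (hθ z hz)))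
  have s4 : ∫⁻ z in B, ENNReal.ofReal (D z * (w z * θ z)) ≤
      ENNReal.ofReal κ2 * ∫⁻ z in B, ENNReal.ofReal (w z * S z) := by
    rw [← lintegral_const_mul' _ _ ENNReal.ofReal_ne_top]
    apply setLIntegral_mono' hB
    intro z hz
    rw [← ENNReal.ofReal_mul h2]
    apply ENNReal.ofReal_le_ofReal
    have := mul_le_mul_of_nonneg_left (hDS z hz) (hw z hz).le
    linarith
  calc _ ≤ _ := s1
    _ = _ := s2
    _ ≤ ENNReal.ofReal κ1 * (∫⁻ z in B, ENNReal.ofReal (w z * S z)) +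
        ENNReal.ofReal κ3 * (ENNReal.ofReal κ2 * ∫⁻ z in B, ENNReal.ofReal (w z * S z)) := by
        gcongr
        exact s3.trans s4
    _ = _ := by
        rw [ENNReal.ofReal_add h1 (mul_nonneg h3 h2), ENNReal.ofReal_mul h3]
        ring

theorem alg_pj {g v s R δ : ℝ} (hv : 0 < v) (hs : 0 < s) (hR : 0 < R) (hδ : 0 < δ) (j k : ℕ) :
    g * (4 * Real.pi ^ 2 * v * R * δ * s) = (4 * Real.pi ^ 2 * δ ^ (k + 1)) *
      (g / (δ ^ k * (v ^ (2 * j) * s ^ (2 * k) * R ^ j)) *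
        (v * s * R * (v ^ (2 * j) * s ^ (2 * k) * R ^ j))) := by
  have h1 : 0 < v ^ (2 * j) * s ^ (2 * k) * R ^ j := by positivity
  generalize v ^ (2 * j) * s ^ (2 * k) * R ^ j = W at h1 ⊢
  field_simp
  ring

/-- fibre formula -/
theorem fibre_formula_pj (hC : CAc_stmt) (hPol : Polc_stmt) (hChi : Chi_stmt)
    (j k : ℕ) (H : E3 → ℝ) (hm : Measurable H) (h0 : ∀ x, 0 ≤ H x)
    (hrot : ∀ θ₁ θ₂ x, H (rot θ₁ θ₂ x) = H x)
    (hb : ∀ z ∈ BD, ∃ M : ℝ, ∀ v ∈ Set.Ioo (0 : ℝ) 1, ∀ s ∈ Set.Ioo (0 : ℝ) 1,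
      H (Pt z v s) ≤ M) :
    ∫⁻ x in Om, ENNReal.ofReal (H x) =
      ENNReal.ofReal (4 * Real.pi ^ 2 / (2 * j + 2)) *
        ∫⁻ z in BD, ENNReal.ofReal (ww j k (‖z‖ ^ 2) *
          EE j k (‖z‖ ^ 2) (fun v s => H (Pt z v s) / mono j k z v s ^ 2)) := by
  have h1 := hPol (fun x => ENNReal.ofReal (H x)) hm.ennreal_ofReal
    (fun a b x => by rw [hrot])
  rw [h1, ← lintegral_const_mul' _ _ ENNReal.ofReal_ne_top]
  refine setLIntegral_congr_fun BD_open_pj.measurableSet fun z hz => ?_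
  have ht : ‖z‖ ^ 2 < T0 := hz
  have ht0 : 0 ≤ ‖z‖ ^ 2 := by positivity
  obtain ⟨-, -, hd0, hd1, -⟩ := fib_pj hC ht0 ht le_rfl one_pos
  have hIw := (Iw_pos_pj hC hChi j k ht0 ht).ne'
  obtain ⟨M, hM⟩ := hb z hz
  -- the function on the fibre
  set h : ℝ → ℝ → ℝ := fun v s => H (Pt z v s) *
    (4 * Real.pi ^ 2 * v * R2 (‖z‖ ^ 2) s * d0 (‖z‖ ^ 2) * s) with hh
  have hmeas : Measurable (Function.uncurry h) := by
    have hX := R2_meas2_pj (‖z‖ ^ 2)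
    have hP : Measurable (fun p : ℝ × ℝ => H (Pt z p.1 p.2)) := hm.comp (Pt_meas_pj z)
    have hW : Measurable (fun p : ℝ × ℝ => 4 * Real.pi ^ 2 * p.1 *
        R2 (‖z‖ ^ 2) p.2 * d0 (‖z‖ ^ 2) * p.2) :=
      (((measurable_fst.const_mul _).mul hX).mul_const _).mul measurable_snd
    exact hP.mul hW
  have hwt : ∀ v ∈ Set.Ioo (0 : ℝ) 1, ∀ s ∈ Set.Ioo (0 : ℝ) 1,
      0 ≤ 4 * Real.pi ^ 2 * v * R2 (‖z‖ ^ 2) s * d0 (‖z‖ ^ 2) * s ∧
      4 * Real.pi ^ 2 * v * R2 (‖z‖ ^ 2) s * d0 (‖z‖ ^ 2) * s ≤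
        4 * Real.pi ^ 2 * 1 * 1 * 1 * 1 := by
    intro v hv s hs
    obtain ⟨hR0, hR1, -⟩ := fib_pj hC ht0 ht hs.1.le hs.2
    have hv0 := hv.1
    have hs0 := hs.1
    constructor
    · positivity
    · have a1 : v ≤ 1 := hv.2.le
      have a2 : R2 (‖z‖ ^ 2) s ≤ 1 := by linarith
      have a3 : s ≤ 1 := hs.2.le
      gcongr
  have hnn : ∀ v ∈ Set.Ioo (0 : ℝ) 1, ∀ s ∈ Set.Ioo (0 : ℝ) 1, 0 ≤ h v s := fun v hv s hs =>
    mul_nonneg (h0 _) (hwt v hv s hs).1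
  have hbd : ∀ v ∈ Set.Ioo (0 : ℝ) 1, ∀ s ∈ Set.Ioo (0 : ℝ) 1,
      h v s ≤ M * (4 * Real.pi ^ 2 * 1 * 1 * 1 * 1) := fun v hv s hs =>
    mul_le_mul (hM v hv s hs) (hwt v hv s hs).2 (hwt v hv s hs).1
      ((h0 _).trans (hM v hv s hs))
  have hL := lint_ff h hmeas _ hnn hbd
  have hL2 : ∫⁻ v in Set.Ioo (0 : ℝ) 1, ∫⁻ s in Set.Ioo (0 : ℝ) 1,
      ENNReal.ofReal (H (Pt z v s)) * ENNReal.ofReal (4 * Real.pi ^ 2 * v *
        R2 (‖z‖ ^ 2) s * d0 (‖z‖ ^ 2) * s) =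
      ∫⁻ v in Set.Ioo (0 : ℝ) 1, ∫⁻ s in Set.Ioo (0 : ℝ) 1, ENNReal.ofReal (h v s) := by
    refine lintegral_congr fun v => lintegral_congr fun s => ?_
    rw [hh]
    simp only
    rw [ENNReal.ofReal_mul (h0 _)]
  rw [hL2, hL]
  -- the algebra
  have hint : ∫ v in Set.Ioo (0 : ℝ) 1, ∫ s in Set.Ioo (0 : ℝ) 1, h v s =
      (4 * Real.pi ^ 2 * d0 (‖z‖ ^ 2) ^ (k + 1)) *
        ∫ v in Set.Ioo (0 : ℝ) 1, ∫ s in Set.Ioo (0 : ℝ) 1,
          H (Pt z v s) / mono j k z v s ^ 2 *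
            (v ^ (2 * j + 1) * den j k (‖z‖ ^ 2) s) := by
    rw [← integral_const_mul]
    refine setIntegral_congr_fun measurableSet_Ioo fun v hv => ?_
    rw [← integral_const_mul]
    refine setIntegral_congr_fun measurableSet_Ioo fun s hs => ?_
    have hR := R2_pos_pj (‖z‖ ^ 2) s
    have hv0 := hv.1
    have hs0 := hs.1
    simp only [hh]
    rw [wt_pj, mono2_pj j k z hd0]
    exact alg_pj hv0 hs0 hR hd0 j k
  rw [hint]
  set I0 := ∫ v in Set.Ioo (0 : ℝ) 1, ∫ s in Set.Ioo (0 : ℝ) 1,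
          H (Pt z v s) / mono j k z v s ^ 2 *
            (v ^ (2 * j + 1) * den j k (‖z‖ ^ 2) s) with hI0
  have hEE : EE j k (‖z‖ ^ 2) (fun v s =>
      H (Pt z v s) / mono j k z v s ^ 2) =
      I0 * ((2 * j + 2) / Iw j k (‖z‖ ^ 2)) := rfl
  have hc : 0 ≤ 4 * Real.pi ^ 2 / (2 * (j : ℝ) + 2) := by positivity
  rw [hEE, ← ENNReal.ofReal_mul hc]
  congr 1
  rw [ww]
  have hj : (2 * (j : ℝ) + 2) ≠ 0 := by positivity
  field_simp

theorem Pt_bdd_pj (hC : CAc_stmt) {z : ℂ} (hz : z ∈ BD)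
    (G : E3 → ℝ) (hG : Continuous G) :
    ∃ M : ℝ, ∀ v ∈ Set.Ioo (0 : ℝ) 1, ∀ s ∈ Set.Ioo (0 : ℝ) 1, G (Pt z v s) ≤ M := by
  obtain ⟨C, hC0, hCb⟩ := pt_pj hC z hz G hG
  exact ⟨C, fun v hv s hs => (le_abs_self _).trans (hCb v hv s hs)⟩

theorem mono_pos_pj (hC : CAc_stmt) (j k : ℕ) {z : ℂ} (hz : z ∈ BD)
    {v s : ℝ} (hv : v ∈ Set.Ioo (0 : ℝ) 1) (hs : s ∈ Set.Ioo (0 : ℝ) 1) :
    0 < mono j k z v s := by
  obtain ⟨C0, -, hbd⟩ := bd_pj hC j k z hz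
  exact (hbd v hv s hs).1


theorem T0_pos_pj : 0 < T0 := by
  unfold T0 tB
  norm_num

theorem La_meas_pj : Measurable La := by
  have h : Measurable expNegInvGlue :=
    (expNegInvGlue.contDiff (n := (1 : ℕ∞))).continuous.measurable
  unfold La Lm dl om
  have h2 : Measurable (fun t : ℝ => expNegInvGlue ((t - 1) / (1 / 100))) :=
    h.comp (by fun_prop)
  exact (Real.measurable_log.comp (measurable_const.sub (h2.const_mul _))).neg

/-- the planar data and the general estimate -/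
theorem core_pj (hPL : PLr_stmt) (hPol : Polc_stmt) (hChi : Chi_stmt) (hPW : PWc_stmt)
    (hFD : FibDc_stmt) (hFib : Fibc_stmt) (hM : MemC_stmt)
    (hD : DomC_stmt) (hC : CAc_stmt) (j k : ℕ) (F : E3 → ℂ) (hF : ContDiff ℝ ∞ F)
    (hmode : IsModeFn j k F) (r r2 : ℝ → ℝ) (C0 : ℝ) (hC0 : 0 ≤ C0)
    (hr : ∀ t, 0 ≤ t → t < T0 → 0 ≤ r t ∧ 0 ≤ r2 t ∧ ∀ s ∈ Set.Ioo (0 : ℝ) 1,
      R2 t s * Ycs t s ^ 2 / 4 ≤ r t * V2 j k t s ∧ d0 t ≤ r2 t * V2 j k t s)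
    (hcoef : ∀ t, 0 ≤ t → t < T0 → CoefLe j k t (r t) (r2 t) C0) :
    ∃ H0 : ℂ → ℂ, MemLp (fun x : E3 => H0 (x 0) * x 1 ^ j * x 2 ^ k) 2 (volume.restrict Om) ∧
      (∀ (i : Fin 3) φ, IsTest Om φ →
        ∫ x in Om, (H0 (x 0) * x 1 ^ j * x 2 ^ k) * dbar i φ x = 0) ∧
      ∀ (R : Set ℂ), MeasurableSet R → ∀ κ1 κ2 κ3 : ℝ, 0 ≤ κ1 → 0 ≤ κ2 → 0 ≤ κ3 →
        (∀ z ∈ BD, z ∈ R → EE j k (‖z‖ ^ 2) (fun v s => ‖cc j k F z v s - aa j k F z‖ ^ 2) ≤
          κ1 * (E0 j k F 0 z + E0 j k F 1 z + E0 j k F 2 z)) →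
        (∀ z ∈ BD, z ∈ R → 1 ≤ κ3 * th (‖z‖ ^ 2)) →
        (∀ t, 0 ≤ t → t < T0 → CoefLe j k t (r t) (r2 t) κ2) →
        ∫ x in Om ∩ {x | x 0 ∈ R}, ‖F x - H0 (x 0) * x 1 ^ j * x 2 ^ k‖ ^ 2 ≤
          (κ1 + κ3 * κ2) * ∑ i, ∫ x in Om, ‖dbar i F x‖ ^ 2 := by
  obtain ⟨chi1, chi2, hd1, hd2, hc2, hcm, hmp, hlow, hww⟩ := hChi j k
  have hChi' : Chi_stmt := hChi
  obtain ⟨hΩo, -, hΩb, -, -, -⟩ := hD
  obtain ⟨ha, -⟩ := hFD j k F hF hmode
  have hBo : IsOpen BD := BD_open_pj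
  have hBm : MeasurableSet BD := hBo.measurableSet
  set a : ℂ → ℂ := aa j k F with hadef
  set w : ℂ → ℝ := fun z => ww j k (‖z‖ ^ 2) with hwdef
  set θ : ℂ → ℝ := fun z => th (‖z‖ ^ 2) with hθdef
  set W : ℂ → ℝ := fun z => Real.exp (-chi j k (‖z‖ ^ 2)) with hWdef
  have hWw : ∀ z ∈ BD, W z = w z * θ z := fun z hz => (hww _ (memIoo_pj hz)).2.2
  have hwp : ∀ z ∈ BD, 0 < w z := fun z hz => (hww _ (memIoo_pj hz)).1
  have hθ1 : ∀ z ∈ BD, 1 ≤ θ z := fun z hz => (hww _ (memIoo_pj hz)).2.1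
  have hWpos : ∀ z, 0 < W z := fun z => Real.exp_pos _
  have hWc : ContinuousOn W BD := by
    have h1 : ContinuousOn (chi j k) (Set.Ioo (-1) T0) :=
      fun t ht => (hd1 t ht).continuousAt.continuousWithinAt
    have h2 : ContinuousOn (fun z : ℂ => chi j k (‖z‖ ^ 2)) BD :=
      h1.comp (by fun_prop) (fun z hz => memIoo_pj hz)
    exact (h2.neg).rexp
  have hmc : ContinuousOn (fun z : ℂ => mm j k (‖z‖ ^ 2)) BD :=
    hcm.comp (by fun_prop) (fun z hz => memIoo_pj hz)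
  have hmpos : ∀ z ∈ BD, 0 < mm j k (‖z‖ ^ 2) := fun z hz => hmp _ (memIco_pj hz)
  set D : ℂ → ℝ := fun z => ‖db1 a z‖ ^ 2 / (mm j k (‖z‖ ^ 2) / 4) with hDdef
  set V : ℂ → ℝ := fun z => EE j k (‖z‖ ^ 2) (fun v s => ‖cc j k F z v s - a z‖ ^ 2) with hVdef
  set S : ℂ → ℝ := fun z => E0 j k F 0 z + E0 j k F 1 z + E0 j k F 2 z with hSdef
  have hE0 : ∀ (i : Fin 3), ∀ z ∈ BD, 0 ≤ E0 j k F i z := fun i z hz =>
    EE_nonneg_pj hC hChi' j k (sq_nonneg _) hz (fun v s => by positivity)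
  have hS0 : ∀ z ∈ BD, 0 ≤ S z := fun z hz => by
    have h1 := hE0 0 z hz
    have h2 := hE0 1 z hz
    have h3 := hE0 2 z hz
    simp only [hSdef]
    linarith
  have hDc : ContinuousOn D BD := by
    have h1 := db1_contOn_pm BD hBo a ha
    apply ContinuousOn.div (by fun_prop) (by fun_prop)
    intro z hz
    have := hmpos z hz
    positivity
  have hD0 : ∀ z ∈ BD, 0 ≤ D z := fun z hz => by
    have := hmpos z hz
    simp only [hDdef]
    positivity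
  have hDS : ∀ κ2 : ℝ, (∀ t, 0 ≤ t → t < T0 → CoefLe j k t (r t) (r2 t) κ2) →
      ∀ z ∈ BD, D z * θ z ≤ κ2 * S z := by
    intro κ2 hk2 z hz
    have hzt : ‖z‖ ^ 2 < T0 := hz
    have hz0 : 0 ≤ ‖z‖ ^ 2 := sq_nonneg _
    obtain ⟨hr0, hr20, hrs⟩ := hr _ hz0 hzt
    obtain ⟨⟨p, q, hpq, hp, hq⟩, -⟩ := hFib j k F hF hmode z hz _ _ hrs
    obtain ⟨c0, c1, c2, -, -⟩ := hk2 _ hz0 hzt
    obtain ⟨hX0, hX1⟩ := EsX_pj hC hPW hChi' j k hz0 hzt
    have hth : 0 < th (‖z‖ ^ 2) := lt_of_lt_of_le one_pos (hθ1 z hz)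
    simp only [hDdef, hSdef, hθdef]
    rw [hadef, hpq]
    refine arith_pj hth (hmpos z hz) hX0 hX1 hr0 hr20 (hE0 0 z hz) (hE0 1 z hz) (hE0 2 z hz)
      hp (hq.trans (le_of_eq ?_)) c0 c1 c2
    ring
  -- fibre formula for the derivatives
  set c0 : ℝ := 4 * Real.pi ^ 2 / (2 * j + 2) with hc0
  have hc0p : 0 < c0 := by
    have := Real.pi_pos
    positivity
  have hdc : ∀ i, Continuous (dbar i F) := fun i => cont_dbar_pm i F hF
  have I1 : ∫⁻ x in Om, ENNReal.ofReal (∑ i, ‖dbar i F x‖ ^ 2) =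
      ENNReal.ofReal c0 * ∫⁻ z in BD, ENNReal.ofReal (w z * S z) := by
    rw [fibre_formula_pj hC hPol hChi' j k (fun x => ∑ i, ‖dbar i F x‖ ^ 2)
      (by fun_prop) (fun x => by positivity) ?_ ?_]
    · congr 1
      apply setLIntegral_congr_fun hBm
      intro z hz
      simp only
      rw [sum3_pj hC j k F hF z hz]
    · intro θ₁ θ₂ x
      simp only [norm_dbar_rot_pm hF hmode]
    · intro z hz
      exact Pt_bdd_pj hC hz (fun x => ∑ i, ‖dbar i F x‖ ^ 2) (by fun_prop)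
  have hfin : ∫⁻ x in Om, ENNReal.ofReal (∑ i, ‖dbar i F x‖ ^ 2) < ⊤ := by
    have h1 : IntegrableOn (fun x => ∑ i, ‖dbar i F x‖ ^ 2) Om :=
      bdd_int_pm _ hΩb _ (by fun_prop)
    exact h1.lintegral_lt_top
  have hSfin : ∫⁻ z in BD, ENNReal.ofReal (w z * S z) < ⊤ := by
    rw [I1] at hfin
    by_contra hcon
    have h1 : ∫⁻ z in BD, ENNReal.ofReal (w z * S z) = ⊤ := by
      simpa using hcon
    rw [h1, ENNReal.mul_top (ENNReal.ofReal_pos.2 hc0p).ne'] at hfin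
    exact lt_irrefl _ hfin
  have hDS0 := hDS C0 hcoef
  have hDi : IntegrableOn (fun z => D z * W z) BD := by
    refine ⟨(hDc.mul hWc).aestronglyMeasurable hBm, ?_⟩
    rw [hasFiniteIntegral_iff_ofReal]
    · refine lt_of_le_of_lt ?_ (ENNReal.mul_lt_top (a := ENNReal.ofReal C0)
        ENNReal.ofReal_lt_top hSfin)
      rw [← lintegral_const_mul' _ _ ENNReal.ofReal_ne_top]
      apply setLIntegral_mono' hBm
      intro z hz
      rw [← ENNReal.ofReal_mul hC0]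
      apply ENNReal.ofReal_le_ofReal
      rw [hWw z hz]
      have h1 := mul_le_mul_of_nonneg_left (hDS0 z hz) (hwp z hz).le
      linarith
    · rw [Filter.EventuallyLE, ae_restrict_iff' hBm]
      exact Filter.Eventually.of_forall (fun z hz => mul_nonneg (hD0 z hz) (hWpos z).le)
  -- planar solution
  obtain ⟨b, hbm, hbi, hble, hbeq⟩ := hPL T0 (chi j k) chi1 chi2 (fun t => mm j k t / 4)
    T0_pos_pj hd1 hd2 hc2
    ((hcm.mono (fun t ht => ⟨by linarith [ht.1], ht.2⟩)).div_const 4)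
    (fun t ht => by have := hmp t ht; positivity) hlow
    (db1 a) (db1_contOn_pm BD hBo a ha) hDi
  have hbm' : AEStronglyMeasurable b (volume.restrict BD) := hbm
  set b' : ℂ → ℂ := hbm'.mk b with hb'
  have hb'm : Measurable b' := hbm'.stronglyMeasurable_mk.measurable
  have hbb' : b =ᵐ[volume.restrict BD] b' := hbm'.ae_eq_mk
  set A : ℂ → ℂ := fun z => BD.indicator a z - b' z with hA
  have hAm : Measurable A := by
    apply Measurable.sub _ hb'm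
    classical
    have h1 := ContinuousOn.measurable_piecewise (s := BD) (f := a) (g := 0) ha.continuousOn
      continuousOn_const hBm
    rwa [Set.piecewise_eq_indicator] at h1
  have hAae : ∀ᵐ z ∂(volume.restrict BD), A z = a z - b z := by
    filter_upwards [hbb', ae_restrict_mem hBm] with z hz hzB
    simp only [hA]
    rw [Set.indicator_of_mem hzB, hz]
  have hhw := hw_pm BD hBo W hWc (fun z _ => hWpos z) a ha b hbm' hbi hbeq A hAae
  set h : E3 → ℂ := fun x => A (x 0) * x 1 ^ j * x 2 ^ k with hh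
  have hhm : Measurable h := by
    have h1 : Measurable (fun x : E3 => A (x 0)) := hAm.comp (measurable_pi_apply 0)
    have h2 : Measurable (fun x : E3 => x 1) := measurable_pi_apply 1
    have h3 : Measurable (fun x : E3 => x 2) := measurable_pi_apply 2
    exact (h1.mul (h2.pow_const j)).mul (h3.pow_const k)
  have hFc : Continuous F := hF.continuous
  -- fibre formula for `F - h`
  have I2 : ∀ R : Set ℂ, MeasurableSet R →
      ∫⁻ x in Om, ENNReal.ofReal (({x : E3 | x 0 ∈ R}).indicator (fun x => ‖F x - h x‖ ^ 2) x) =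
      ENNReal.ofReal c0 * ∫⁻ z in BD,
        R.indicator (fun z => ENNReal.ofReal (w z * (V z + ‖b' z‖ ^ 2))) z := by
    intro R hR
    have hR' : MeasurableSet {x : E3 | x 0 ∈ R} := (measurable_pi_apply (0 : Fin 3)) hR
    rw [fibre_formula_pj hC hPol hChi' j k
      (({x : E3 | x 0 ∈ R}).indicator (fun x => ‖F x - h x‖ ^ 2))
      (((hFc.measurable.sub hhm).norm.pow_const 2).indicator hR')
      (fun x => Set.indicator_nonneg (fun x _ => by positivity) x) ?_ ?_]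
    · congr 1
      apply setLIntegral_congr_fun hBm
      intro z hz
      simp only
      by_cases hzR : z ∈ R
      · rw [Set.indicator_of_mem hzR]
        have hin : ∀ v s, ({x : E3 | x 0 ∈ R}).indicator (fun x => ‖F x - h x‖ ^ 2) (Pt z v s) =
            ‖F (Pt z v s) - h (Pt z v s)‖ ^ 2 := by
          intro v s
          have : Pt z v s ∈ {x : E3 | x 0 ∈ R} := hzR
          rw [Set.indicator_of_mem this]
        simp only [hin]
        congr 2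
        have h1 := fibre_var_pj hC hChi' j k z hz F hFc (A z)
        have h2 : aa j k F z - A z = b' z := by
          simp only [hA, Set.indicator_of_mem hz]
          rw [← hadef]
          ring
        rw [h2] at h1
        rw [← h1]
        apply EE_congr_pj
        intro v hv s hs
        have h3 := mono_pos_pj hC j k hz hv hs
        have h4 : h (Pt z v s) = A z * (mono j k z v s : ℂ) := by
          simp only [hh, Pt, mono]
          simp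
          ring
        rw [h4]
        unfold cc
        have h5 : F (Pt z v s) / (mono j k z v s : ℂ) - A z =
            (F (Pt z v s) - A z * (mono j k z v s : ℂ)) /
              (mono j k z v s : ℂ) := by
          have : (mono j k z v s : ℂ) ≠ 0 := by exact_mod_cast h3.ne'
          field_simp
        rw [h5, norm_div, div_pow, Complex.norm_real, Real.norm_eq_abs, sq_abs]
      · rw [Set.indicator_of_notMem hzR]
        have hin : ∀ v s, ({x : E3 | x 0 ∈ R}).indicator (fun x => ‖F x - h x‖ ^ 2) (Pt z v s) =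
            0 := by
          intro v s
          have : Pt z v s ∉ {x : E3 | x 0 ∈ R} := hzR
          rw [Set.indicator_of_notMem this]
        simp only [hin]
        have : EE j k (‖z‖ ^ 2) (fun v s => 0 / mono j k z v s ^ 2) = 0 := by
          unfold EE
          simp
        rw [this]
        simp
    · intro θ₁ θ₂ x
      have h1 : h (rot θ₁ θ₂ x) = Complex.exp (I * (j * θ₁ + k * θ₂)) * h x := by
        simp only [hh, rot]
        simp only [Matrix.cons_val_zero, Matrix.cons_val_one, Matrix.cons_val, mul_pow]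
        rw [← Complex.exp_nat_mul, ← Complex.exp_nat_mul]
        have : Complex.exp (I * (j * θ₁ + k * θ₂)) = Complex.exp (j * (θ₁ * I)) *
            Complex.exp (k * (θ₂ * I)) := by
          rw [← Complex.exp_add]
          congr 1
          ring
        rw [this]
        ring
      have h2 : F (rot θ₁ θ₂ x) = Complex.exp (I * (j * θ₁ + k * θ₂)) * F x := by
        have := hmode θ₁ θ₂ x
        simpa using this
      have h3 : ‖Complex.exp (I * (j * θ₁ + k * θ₂))‖ = 1 := by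
        rw [show I * ((j:ℂ) * θ₁ + k * θ₂) = ((j * θ₁ + k * θ₂ : ℝ) : ℂ) * I by push_cast; ring]
        exact Complex.norm_exp_ofReal_mul_I _
      by_cases hx : x 0 ∈ R
      · have m1 : rot θ₁ θ₂ x ∈ {x : E3 | x 0 ∈ R} := hx
        have m2 : x ∈ {x : E3 | x 0 ∈ R} := hx
        rw [Set.indicator_of_mem m1, Set.indicator_of_mem m2, h1, h2, ← mul_sub, norm_mul, h3,
          one_mul]
      · have m1 : rot θ₁ θ₂ x ∉ {x : E3 | x 0 ∈ R} := hx
        have m2 : x ∉ {x : E3 | x 0 ∈ R} := hx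
        rw [Set.indicator_of_notMem m1, Set.indicator_of_notMem m2]
    · intro z hz
      obtain ⟨M, hMM⟩ := Pt_bdd_pj hC hz (fun x => ‖F x - A z * x 1 ^ j * x 2 ^ k‖ ^ 2)
        (by fun_prop)
      refine ⟨M, ?_⟩
      intro v hv s hs
      have := hMM v hv s hs
      refine le_trans ?_ this
      refine le_trans (Set.indicator_le_self' (fun x _ => by positivity) _) (le_of_eq ?_)
      simp only [hh]
      rfl
  have hb'i : IntegrableOn (fun z => ‖b' z‖ ^ 2 * (w z * θ z)) BD := by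
    have h1 : IntegrableOn (fun z => ‖b' z‖ ^ 2 * W z) BD := by
      refine (Integrable.congr hbi ?_)
      filter_upwards [hbb'] with z hz
      rw [hz]
    refine h1.congr_fun ?_ hBm
    intro z hz
    simp only
    rw [hWw z hz]
  have hDi' : IntegrableOn (fun z => D z * (w z * θ z)) BD := by
    refine hDi.congr_fun ?_ hBm
    intro z hz
    simp only
    rw [hWw z hz]
  have hb'le : ∫ z in BD, ‖b' z‖ ^ 2 * (w z * θ z) ≤ ∫ z in BD, D z * (w z * θ z) := by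
    have e1 : ∫ z in BD, ‖b' z‖ ^ 2 * (w z * θ z) = ∫ z in BD, ‖b z‖ ^ 2 * W z := by
      apply integral_congr_ae
      filter_upwards [hbb', ae_restrict_mem hBm] with z hz hzB
      rw [hz, hWw z hzB]
    have e2 : ∫ z in BD, D z * (w z * θ z) = ∫ z in BD, D z * W z := by
      apply integral_congr_ae
      filter_upwards [ae_restrict_mem hBm] with z hzB
      rw [hWw z hzB]
    rw [e1, e2]
    exact hble
  have hgen : ∀ (R : Set ℂ), MeasurableSet R → ∀ κ1 κ2 κ3 : ℝ, 0 ≤ κ1 → 0 ≤ κ2 → 0 ≤ κ3 →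
        (∀ z ∈ BD, z ∈ R → V z ≤ κ1 * S z) →
        (∀ z ∈ BD, z ∈ R → 1 ≤ κ3 * θ z) →
        (∀ t, 0 ≤ t → t < T0 → CoefLe j k t (r t) (r2 t) κ2) →
        ∫⁻ x in Om, ENNReal.ofReal (({x : E3 | x 0 ∈ R}).indicator
          (fun x => ‖F x - h x‖ ^ 2) x) ≤
        ENNReal.ofReal (κ1 + κ3 * κ2) * ∫⁻ x in Om, ENNReal.ofReal (∑ i, ‖dbar i F x‖ ^ 2) := by
    intro R hR κ1 κ2 κ3 k1 k2 k3 hVS hθR hco
    have hchain := chain_pj BD R hBm κ1 κ2 κ3 k1 k2 k3 w θ V S D (fun z => ‖b' z‖ ^ 2) hwp hS0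
      hD0 (fun z => by positivity) (fun z hz => (zero_le_one.trans (hθ1 z hz))) hVS hθR
      (hDS κ2 hco) hDi' hb'i hb'le
    rw [I1, I2 R hR]
    calc _ ≤ ENNReal.ofReal c0 * (ENNReal.ofReal (κ1 + κ3 * κ2) *
          ∫⁻ z in BD, ENNReal.ofReal (w z * S z)) := by gcongr
      _ = _ := by ring
  have hFhm : AEStronglyMeasurable (fun x => F x - h x) (volume.restrict Om) :=
    (hFc.measurable.sub hhm).aestronglyMeasurable
  have hFhm2 : AEStronglyMeasurable (fun x => ‖F x - h x‖ ^ 2)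
      (volume.restrict Om) := hFhm.norm.pow 2
  -- crude bound for the variance
  have hVS0 : ∀ z ∈ BD, V z ≤ (1 + C0) * S z := by
    intro z hz
    have hzt : ‖z‖ ^ 2 < T0 := hz
    have hz0 : 0 ≤ ‖z‖ ^ 2 := sq_nonneg _
    obtain ⟨hr0, hr20, hrs⟩ := hr _ hz0 hzt
    obtain ⟨-, hv⟩ := hFib j k F hF hmode z hz _ _ hrs
    obtain ⟨-, -, -, b1, b2⟩ := hcoef _ hz0 hzt
    have hR2 := EE_R2_pj hC hChi' j k F hF z hz (1 / 100) (fun s hs =>
      (fib_pj hC hz0 hzt hs.1.le hs.2).2.1)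
    have e0 := hE0 0 z hz
    have e1 := hE0 1 z hz
    have e2 := hE0 2 z hz
    have h4 : (4 : ℝ) / (2 * j + 1) ≤ 4 := by
      rw [div_le_iff₀ (by positivity)]
      have : (0 : ℝ) ≤ j := Nat.cast_nonneg j
      linarith
    have h5 : 4 / (2 * (j : ℝ) + 1) * EE j k (‖z‖ ^ 2) (fun v s =>
        R2 (‖z‖ ^ 2) s * ‖GG j k F 1 z v s‖ ^ 2) ≤ 4 * (1 / 100 * E0 j k F 1 z) := by
      apply mul_le_mul h4 hR2 _ (by norm_num)
      exact EE_nonneg_pj hC hChi' j k hz0 hzt (fun v s => by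
        have := R2_pos_pj (‖z‖ ^ 2) s
        positivity)
    have h6 := mul_le_mul_of_nonneg_right b1 e1
    have h7 := mul_le_mul_of_nonneg_right b2 e2
    have h8 : V z ≤ 4 * (1 / 100 * E0 j k F 1 z) + C0 * E0 j k F 1 z + C0 * E0 j k F 2 z := by
      refine hv.trans ?_
      linarith
    simp only [hSdef]
    nlinarith [mul_nonneg hC0 e0]
  have hfull : ∫⁻ x in Om, ENNReal.ofReal (‖F x - h x‖ ^ 2) < ⊤ := by
    have h1 := hgen Set.univ MeasurableSet.univ (1 + C0) C0 1 (by positivity) hC0 zero_le_one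
      (fun z hz _ => hVS0 z hz) (fun z hz _ => by rw [one_mul]; exact hθ1 z hz) hcoef
    simp only [Set.mem_univ, Set.setOf_true, Set.indicator_univ] at h1
    exact lt_of_le_of_lt h1 (ENNReal.mul_lt_top ENNReal.ofReal_lt_top hfin)
  have hFhi : IntegrableOn (fun x => ‖F x - h x‖ ^ 2) Om := by
    refine ⟨hFhm2, ?_⟩
    rw [hasFiniteIntegral_iff_ofReal (Filter.Eventually.of_forall (fun x => by positivity))]
    exact hfull
  refine ⟨A, ?_, ?_, ?_⟩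
  · have h1 : MemLp (fun x => F x - h x) 2 (volume.restrict Om) := by
      rw [memLp_two_iff_integrable_sq_norm hFhm]
      exact hFhi
    have h2 := (bdd_memLp_pm _ hΩb F hFc).sub h1
    have h3 : (F - fun x => F x - h x) = h := by
      funext x
      simp
    rwa [h3] at h2
  · intro i φ hφ
    refine weak_hol Om hΩo BD hBo ?_ A hAm hhw j k i φ hφ
    intro x hx
    exact ((hM x).1 hx).1
  · intro R hR κ1 κ2 κ3 k1 k2 k3 hVS hθR hco
    have hmain := hgen R hR κ1 κ2 κ3 k1 k2 k3 hVS hθR hco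
    have hR' : MeasurableSet {x : E3 | x 0 ∈ R} := (measurable_pi_apply (0 : Fin 3)) hR
    have e1 : ∑ i, ∫ x in Om, ‖dbar i F x‖ ^ 2 = ∫ x in Om, ∑ i, ‖dbar i F x‖ ^ 2 := by
      rw [integral_finsetSum]
      intro i _
      exact bdd_int_pm _ hΩb _ (by fun_prop)
    rw [e1]
    have e0 : ∫ x in Om ∩ {x | x 0 ∈ R}, ‖F x - A (x 0) * x 1 ^ j * x 2 ^ k‖ ^ 2 =
        ∫ x in Om, ({x : E3 | x 0 ∈ R}).indicator (fun x => ‖F x - h x‖ ^ 2) x :=
      (setIntegral_indicator hR').symm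
    rw [e0]
    rw [integral_eq_lintegral_of_nonneg_ae (Filter.Eventually.of_forall (fun x =>
        Set.indicator_nonneg (fun x _ => by positivity) x))
      (hFhm2.indicator hR'), integral_eq_lintegral_of_nonneg_ae
      (Filter.Eventually.of_forall (fun x => by positivity))
      (Continuous.aestronglyMeasurable (by fun_prop))]
    have e2 := ENNReal.toReal_mono (ENNReal.mul_lt_top ENNReal.ofReal_lt_top hfin).ne hmain
    rwa [ENNReal.toReal_mul, ENNReal.toReal_ofReal (by positivity)] at e2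


theorem pos_main (hPL : PLr_stmt) (hPol : Polc_stmt) (hChi : Chi_stmt) (hPW : PWc_stmt)
    (hFD : FibDc_stmt) (hFib : Fibc_stmt) (hV : VARK_stmt) (hE : DECc_stmt) (hM : MemC_stmt)
    (hD : DomC_stmt) (hC : CAc_stmt) : PosMain_stmt := by
  obtain ⟨C0, r, r2, hC0, hr, hcoef, hdec, hreg⟩ := hE
  refine ⟨2 * C0 + 1, by positivity, ?_⟩
  intro ε hε
  obtain ⟨ε', hε'⟩ : ∃ ε', ε' = ε / 4 := ⟨_, rfl⟩
  have hε'0 : 0 < ε' := by rw [hε']; positivity
  obtain ⟨n1, hn1⟩ := hdec ε' hε'0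
  obtain ⟨n2, hn2⟩ := hV ε' hε'0
  obtain ⟨n3, hn3⟩ : ∃ n3 : ℕ, 1 / ε' ≤ n3 := ⟨⌈1 / ε'⌉₊, Nat.le_ceil _⟩
  obtain ⟨N1, hN1⟩ := hreg ε' hε'0
  obtain ⟨δ3, hδ3⟩ : ∃ δ3, δ3 = ε' / (C0 + 1) := ⟨_, rfl⟩
  have hδ30 : 0 < δ3 := by rw [hδ3]; positivity
  obtain ⟨N, hN⟩ : ∃ N, N = max N1 (max (4 / ε') ((1 / δ3) ^ 4)) := ⟨_, rfl⟩
  have hNa : N1 ≤ N := by rw [hN]; exact le_max_left _ _
  have hNb : 4 / ε' ≤ N := by rw [hN]; exact (le_max_left _ _).trans (le_max_right _ _)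
  have hNc : (1 / δ3) ^ 4 ≤ N := by rw [hN]; exact (le_max_right _ _).trans (le_max_right _ _)
  refine ⟨max n1 (max n2 n3), N, ?_⟩
  intro j k F hF hmode
  obtain ⟨H0, hmem, hweak, hest⟩ := core_pj hPL hPol hChi hPW hFD hFib hM hD hC j k F hF hmode
    (r j k) (r2 j k) C0 hC0 (fun t h1 h2 => hr j k t h1 h2) (fun t h1 h2 => hcoef j k t h1 h2)
  have hS : 0 ≤ ∑ i, ∫ x in Om, ‖dbar i F x‖ ^ 2 :=
    Finset.sum_nonneg fun i _ => integral_nonneg fun x => by positivity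
  have hth : ∀ z ∈ BD, 1 ≤ th (‖z‖ ^ 2) := by
    intro z hz
    obtain ⟨chi1, chi2, -, -, -, -, -, -, hw⟩ := hChi j k
    exact (hw _ (memIoo_pj hz)).2.1
  have hE0 : ∀ (i : Fin 3), ∀ z ∈ BD, 0 ≤ E0 j k F i z := fun i z hz =>
    EE_nonneg_pj hC hChi j k (sq_nonneg _) hz (fun v s => by positivity)
  -- general variance bound
  have hVar : ∀ z ∈ BD, ∀ c b : ℝ, (∀ s ∈ Set.Ioo (0 : ℝ) 1, R2 (‖z‖ ^ 2) s ≤ c) →
      8 * r j k (‖z‖ ^ 2) ≤ b → 8 * r2 j k (‖z‖ ^ 2) ≤ b →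
      EE j k (‖z‖ ^ 2) (fun v s => ‖cc j k F z v s - aa j k F z‖ ^ 2) ≤
        (4 / (2 * j + 1) * c + b) * (E0 j k F 0 z + E0 j k F 1 z + E0 j k F 2 z) := by
    intro z hz c b hc hb1 hb2
    have hzt : ‖z‖ ^ 2 < T0 := hz
    have hz0 : 0 ≤ ‖z‖ ^ 2 := sq_nonneg _
    obtain ⟨hr0, hr20, hrs⟩ := hr j k _ hz0 hzt
    obtain ⟨-, hv⟩ := hFib j k F hF hmode z hz _ _ hrs
    have hR2 := EE_R2_pj hC hChi j k F hF z hz c hc
    have e0 := hE0 0 z hz
    have e1 := hE0 1 z hz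
    have e2 := hE0 2 z hz
    have hc0 : 0 < c := lt_of_lt_of_le (R2_pos_pj (‖z‖ ^ 2) (1 / 2)) (hc (1 / 2) (by norm_num))
    have hb0 : 0 ≤ b := le_trans (by positivity) hb1
    have h4 : 0 < (4 : ℝ) / (2 * j + 1) := by positivity
    have h5 := mul_le_mul_of_nonneg_left hR2 h4.le
    have h6 := mul_le_mul_of_nonneg_right hb1 e1
    have h7 := mul_le_mul_of_nonneg_right hb2 e2
    refine hv.trans ?_
    have h8 : 0 ≤ 4 / (2 * (j : ℝ) + 1) * c * E0 j k F 0 z := by positivity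
    have h9 : 0 ≤ 4 / (2 * (j : ℝ) + 1) * c * E0 j k F 2 z := by positivity
    have h10 : 0 ≤ b * E0 j k F 0 z := by positivity
    nlinarith
  have hR100 : ∀ z ∈ BD, ∀ s ∈ Set.Ioo (0 : ℝ) 1, R2 (‖z‖ ^ 2) s ≤ 1 / 100 := fun z hz s hs =>
    (fib_pj hC (sq_nonneg _) hz hs.1.le hs.2).2.1
  have hj0 : (0 : ℝ) ≤ j := Nat.cast_nonneg j
  have h44 : (4 : ℝ) / (2 * j + 1) ≤ 4 := by
    rw [div_le_iff₀ (by positivity)]
    linarith
  have huniv : Om ∩ {x : E3 | x 0 ∈ (Set.univ : Set ℂ)} = Om := by simp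
  refine ⟨H0, hmem, hweak, ?_, ?_, ?_⟩
  · have h1 := hest Set.univ MeasurableSet.univ (1 + C0) C0 1 (by positivity) hC0 zero_le_one
      (fun z hz _ => by
        have hzt : ‖z‖ ^ 2 < T0 := hz
        obtain ⟨-, -, -, b1, b2⟩ := hcoef j k _ (sq_nonneg ‖z‖) hzt
        refine (hVar z hz (1 / 100) C0 (hR100 z hz) b1 b2).trans ?_
        apply mul_le_mul_of_nonneg_right _ (by
          have := hE0 0 z hz
          have := hE0 1 z hz
          have := hE0 2 z hz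
          positivity)
        linarith)
      (fun z hz _ => by rw [one_mul]; exact hth z hz) (fun t h1 h2 => hcoef j k t h1 h2)
    rw [huniv] at h1
    refine h1.trans (le_of_eq ?_)
    ring
  · intro hn
    have hn1' : n1 ≤ j ∨ n1 ≤ k := hn.imp (le_trans (le_max_left _ _)) (le_trans (le_max_left _ _))
    have h1 := hest Set.univ MeasurableSet.univ (2 * ε') ε' 1 (by positivity) hε'0.le zero_le_one
      (fun z hz _ => by
        have hzt : ‖z‖ ^ 2 < T0 := hz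
        have e0 := hE0 0 z hz
        have e1 := hE0 1 z hz
        have e2 := hE0 2 z hz
        rcases hn with hnj | hnk
        · obtain ⟨-, -, -, b1, b2⟩ := hn1 j k _ hn1' (sq_nonneg ‖z‖) hzt
          refine (hVar z hz (1 / 100) ε' (hR100 z hz) b1 b2).trans ?_
          apply mul_le_mul_of_nonneg_right _ (by positivity)
          have hj3 : (n3 : ℝ) ≤ j := by
            exact_mod_cast le_trans (le_trans (le_max_right _ _) (le_max_right _ _)) hnj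
          have h5 : 1 / ε' ≤ 2 * (j : ℝ) + 1 := by linarith
          have h6 : (4 : ℝ) / (2 * j + 1) ≤ 4 * ε' := by
            rw [div_le_iff₀ (by positivity)]
            rw [div_le_iff₀ hε'0] at h5
            linarith
          linarith
        · have hk2 : n2 ≤ k := le_trans (le_trans (le_max_left _ _) (le_max_right _ _)) hnk
          refine (hn2 j k hk2 F hF hmode z hz).trans ?_
          nlinarith [mul_nonneg hε'0.le e0, mul_nonneg hε'0.le e1, mul_nonneg hε'0.le e2])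
      (fun z hz _ => by rw [one_mul]; exact hth z hz)
      (fun t h1 h2 => hn1 j k t hn1' h1 h2)
    rw [huniv] at h1
    refine h1.trans ?_
    apply mul_le_mul_of_nonneg_right _ hS
    rw [hε']
    linarith
  · have hRm : MeasurableSet {z : ℂ | N ≤ La (‖z‖ ^ 2)} :=
      measurableSet_le measurable_const (La_meas_pj.comp (by fun_prop))
    have h1 := hest {z : ℂ | N ≤ La (‖z‖ ^ 2)} hRm (2 * ε') C0 δ3 (by positivity) hC0 hδ30.le
      (fun z hz hzR => by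
        have hzt : ‖z‖ ^ 2 < T0 := hz
        have hzN : N ≤ La (‖z‖ ^ 2) := hzR
        have e0 := hE0 0 z hz
        have e1 := hE0 1 z hz
        have e2 := hE0 2 z hz
        obtain ⟨b1, b2⟩ := hN1 j k _ (sq_nonneg ‖z‖) hzt (hNa.trans hzN)
        have hN0 : 0 < 4 / ε' := by positivity
        have hR : ∀ s ∈ Set.Ioo (0 : ℝ) 1, R2 (‖z‖ ^ 2) s ≤ ε' / 4 := by
          intro s hs
          obtain ⟨hR0, hR1, -, -, hl, hRl, -, hlLa, -⟩ :=
            fib_pj hC (sq_nonneg ‖z‖) hzt hs.1.le hs.2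
          refine hRl.trans ?_
          have h5 : 4 / ε' ≤ l0 (‖z‖ ^ 2) s := by linarith
          have h6 := one_div_le_one_div_of_le hN0 h5
          refine h6.trans (le_of_eq ?_)
          rw [one_div_div]
        refine (hVar z hz (ε' / 4) ε' hR b1 b2).trans ?_
        apply mul_le_mul_of_nonneg_right _ (by positivity)
        have h7 := mul_le_mul_of_nonneg_right h44 (by positivity : 0 ≤ ε' / 4)
        linarith)
      (fun z hz hzR => by
        have hzN : N ≤ La (‖z‖ ^ 2) := hzR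
        have h5 : (1 / δ3) ^ 4 ≤ 1 + La (‖z‖ ^ 2) := by linarith
        have h6 : 1 / δ3 ≤ th (‖z‖ ^ 2) := by
          unfold th
          have h7 : ((1 / δ3) ^ 4) ^ (((4 : ℕ) : ℝ)⁻¹) = 1 / δ3 :=
            Real.pow_rpow_inv_natCast (by positivity) (by norm_num)
          have h8 : (1 / 4 : ℝ) = ((4 : ℕ) : ℝ)⁻¹ := by norm_num
          rw [h8, ← h7]
          exact Real.rpow_le_rpow (by positivity) h5 (by positivity)
        rw [div_le_iff₀ hδ30] at h6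
        linarith)
      (fun t h1 h2 => hcoef j k t h1 h2)
    have h2 : Om ∩ {x : E3 | x 0 ∈ {z : ℂ | N ≤ La (‖z‖ ^ 2)}} = Om ∩ {x | N ≤ La (‖x 0‖ ^ 2)} := rfl
    rw [h2] at h1
    refine h1.trans ?_
    apply mul_le_mul_of_nonneg_right _ hS
    have h3 : δ3 * C0 ≤ ε' := by
      rw [hδ3, div_mul_eq_mul_div, div_le_iff₀ (by positivity)]
      nlinarith
    rw [hε'] at h3 ⊢
    linarith

end DbarC.JPMj
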