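import Pool.Agent.H314.DC.St3

set_option autoImplicit false

open MeasureTheory Complex Filter Topology
open scoped ContDiff InnerProductSpace ENNReal ComplexConjugate

namespace DbarC.JPO
open DbarN

namespace PO258

theorem pol_fubini (G : E3 → ℝ≥0∞) (hG : Measurable G) :
    ∫⁻ x, G x = ∫⁻ z : ℂ, ∫⁻ x2 : ℂ, ∫⁻ x1 : ℂ, G ![z, x1, x2] := by
  have h1 := (volume_preserving_piFinSuccAbove (fun _ : Fin 3 => ℂ) 0).symm
  have h2 := (volume_preserving_finTwoArrow ℂ).symm
  rw [← h1.lintegral_comp_emb (MeasurableEquiv.measurableEmbedding _) G, Measure.volume_eq_prod,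
    lintegral_prod _ (by
      exact (hG.comp (MeasurableEquiv.measurable _)).aemeasurable)]
  apply lintegral_congr
  intro z
  have hz : Measurable (fun y : Fin 2 → ℂ =>
      G ((MeasurableEquiv.piFinSuccAbove (fun _ : Fin 3 => ℂ) 0).symm (z, y))) :=
    hG.comp ((MeasurableEquiv.measurable _).comp measurable_prodMk_left)
  have hz2 : Measurable (fun a : ℂ × ℂ => G ((MeasurableEquiv.piFinSuccAbove (fun _ : Fin 3 => ℂ) 0).symm
      (z, MeasurableEquiv.finTwoArrow.symm a))) := hz.comp (MeasurableEquiv.measurable _)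
  rw [← h2.lintegral_comp_emb (MeasurableEquiv.measurableEmbedding _), Measure.volume_eq_prod,
    lintegral_prod_symm _ hz2.aemeasurable]
  apply lintegral_congr
  intro x2
  apply lintegral_congr
  intro x1
  congr 1
  funext i
  fin_cases i <;> rfl

theorem pol_scale (R : ℝ) (hR : 0 < R) (g : ℝ → ℝ≥0∞) :
    ∫⁻ r in Set.Ioo 0 R, g r = ∫⁻ v in Set.Ioo (0:ℝ) 1, ENNReal.ofReal R * g (R * v) := by
  have himg : (fun v : ℝ => R * v) '' Set.Ioo (0:ℝ) 1 = Set.Ioo 0 R := by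
    ext r
    constructor
    · rintro ⟨v, hv, rfl⟩
      exact ⟨mul_pos hR hv.1, by nlinarith [hv.2]⟩
    · intro hr
      refine ⟨r / R, ⟨div_pos hr.1 hR, by rw [div_lt_one hR]; exact hr.2⟩, ?_⟩
      show R * (r / R) = r
      field_simp
  rw [← himg, lintegral_image_eq_lintegral_abs_deriv_mul (f' := fun _ => R) measurableSet_Ioo
    (fun x _ => by
      have := ((hasDerivAt_id x).const_mul R).hasDerivWithinAt (s := Set.Ioo (0:ℝ) 1)
      simpa using this)
    (fun a _ b _ h => mul_left_cancel₀ hR.ne' h)]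
  rw [abs_of_pos hR]

theorem pol_polar (R : ℝ) (hR : 0 < R) (g : ℂ → ℝ≥0∞) (hg : Measurable g)
    (hrot : ∀ (θ : ℝ) (w : ℂ), g (Complex.exp (θ * I) * w) = g w) :
    ∫⁻ w in {w : ℂ | ‖w‖ < R}, g w =
      ∫⁻ v in Set.Ioo (0:ℝ) 1, ENNReal.ofReal (2 * Real.pi * R ^ 2 * v) * g ((R * v : ℝ) : ℂ) := by
  have hmeas : MeasurableSet {w : ℂ | ‖w‖ < R} := measurableSet_lt measurable_norm measurable_const
  rw [← lintegral_indicator hmeas, ← Complex.lintegral_comp_polarCoord_symm]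
  have h1 : ∀ p ∈ polarCoord.target, ENNReal.ofReal p.1 •
      ({w : ℂ | ‖w‖ < R}).indicator g (Complex.polarCoord.symm p) =
      (Set.Iio R).indicator (fun r : ℝ => ENNReal.ofReal r * g (r : ℂ)) p.1 := by
    intro p hp
    have hp1 : 0 < p.1 := hp.1
    have hn : ‖Complex.polarCoord.symm p‖ = p.1 := by
      rw [Complex.norm_polarCoord_symm, abs_of_pos hp1]
    have he : Complex.polarCoord.symm p = Complex.exp (p.2 * I) * (p.1 : ℂ) := by
      rw [Complex.polarCoord_symm_apply, Complex.exp_mul_I]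
      push_cast
      ring
    by_cases h : p.1 < R
    · rw [Set.indicator_of_mem (show Complex.polarCoord.symm p ∈ {w : ℂ | ‖w‖ < R} by
          show ‖Complex.polarCoord.symm p‖ < R
          rw [hn]; exact h), Set.indicator_of_mem (show p.1 ∈ Set.Iio R from h), smul_eq_mul, he, hrot]
    · rw [Set.indicator_of_notMem (show Complex.polarCoord.symm p ∉ {w : ℂ | ‖w‖ < R} by
          show ¬ ‖Complex.polarCoord.symm p‖ < R
          rw [hn]; exact h), Set.indicator_of_notMem (show p.1 ∉ Set.Iio R from h), smul_zero]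
  rw [setLIntegral_congr_fun polarCoord.open_target.measurableSet h1]
  have htarget : polarCoord.target = Set.Ioi (0:ℝ) ×ˢ Set.Ioo (-Real.pi) Real.pi := rfl
  have hFm : Measurable ((Set.Iio R).indicator (fun r : ℝ => ENNReal.ofReal r * g (r : ℂ))) :=
    (ENNReal.measurable_ofReal.mul (hg.comp Complex.measurable_ofReal)).indicator measurableSet_Iio
  have hFm2 : Measurable (fun p : ℝ × ℝ => (Set.Iio R).indicator (fun r : ℝ => ENNReal.ofReal r * g (r : ℂ)) p.1) :=
    hFm.comp measurable_fst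
  rw [htarget, Measure.volume_eq_prod, ← Measure.prod_restrict,
    lintegral_prod _ hFm2.aemeasurable]
  simp only [lintegral_const, Measure.restrict_apply_univ, Real.volume_Ioo]
  rw [lintegral_mul_const _ hFm, lintegral_indicator measurableSet_Iio,
    Measure.restrict_restrict measurableSet_Iio]
  have hset : Set.Iio R ∩ Set.Ioi 0 = Set.Ioo 0 R := by
    ext r; exact ⟨fun h => ⟨h.2, h.1⟩, fun h => ⟨h.2, h.1⟩⟩
  rw [hset, pol_scale R hR, ← lintegral_mul_const]
  · apply setLIntegral_congr_fun measurableSet_Ioo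
    intro v hv
    have hv0 : 0 < v := hv.1
    show ENNReal.ofReal R * (ENNReal.ofReal (R * v) * g ((R * v : ℝ) : ℂ)) * ENNReal.ofReal (Real.pi - -Real.pi)
      = ENNReal.ofReal (2 * Real.pi * R ^ 2 * v) * g ((R * v : ℝ) : ℂ)
    have : 2 * Real.pi * R ^ 2 * v = R * (R * v) * (Real.pi - -Real.pi) := by ring
    rw [this, ENNReal.ofReal_mul (p := R * (R * v)) (by positivity),
      ENNReal.ofReal_mul (p := R) (q := R * v) hR.le]
    ring
  · have h2 : Measurable (fun v : ℝ => R * v) := measurable_const.mul measurable_id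
    exact measurable_const.mul ((ENNReal.measurable_ofReal.comp h2).mul
      (hg.comp (Complex.measurable_ofReal.comp h2)))

theorem pol_d0_meas : Measurable d0 := by
  unfold d0 dl om
  exact measurable_const.sub (measurable_const.mul
    (expNegInvGlue.contDiff.continuous (n := 0).measurable.comp
    ((measurable_id.sub measurable_const).div_const (1 / 100))))

theorem pol_R2_meas : Measurable (fun p : ℝ × ℝ => R2 p.1 p.2) := by
  unfold R2 Yc l0 el Lm tau
  have h1 : Measurable (fun p : ℝ × ℝ => dl (1 / 100) 100 p.1) := pol_d0_meas.comp measurable_fst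
  have h2 : Measurable (fun p : ℝ × ℝ => - Real.log (dl (1 / 100) 100 p.1)) :=
    (Real.measurable_log.comp h1).neg
  have h3 : Measurable (fun p : ℝ × ℝ => - Real.log (1 - p.2 ^ 2)) :=
    (Real.measurable_log.comp (measurable_const.sub (measurable_snd.pow_const 2))).neg
  have h4 := (measurable_const (a := (100 : ℝ))).add h2 |>.add h3
  exact Real.measurable_exp.comp ((measurable_const.add measurable_fst).neg.mul
    (Real.measurable_log.comp h4))

theorem pol_R2_pos (t s : ℝ) : 0 < R2 t s := Real.exp_pos _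

theorem pol_d0_pos (hC : CAc_stmt) (t : ℝ) (h1 : -1 < t) (h2 : t < T0) : 0 < d0 t := by
  obtain ⟨-, -, -, -, -, h, -⟩ := hC t 0 h1 h2 le_rfl one_pos
  exact h

theorem pol_vec_meas {α : Type*} [MeasurableSpace α] (a b c : α → ℂ) (ha : Measurable a) (hb : Measurable b)
    (hc : Measurable c) : Measurable (fun w : α => (![a w, b w, c w] : E3)) := by
  rw [measurable_pi_iff]
  intro i
  fin_cases i
  · exact ha
  · exact hb
  · exact hc

theorem pol_fibre (hC : CAc_stmt) (H : E3 → ℝ≥0∞) (hH : Measurable H)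
    (hrot : ∀ θ₁ θ₂ x, H (rot θ₁ θ₂ x) = H x) (z : ℂ) (hz : ‖z‖ ^ 2 < T0)
    (D : ℝ) (hD : D = Real.sqrt (d0 (‖z‖ ^ 2))) :
    ∫⁻ x2 in {x2 : ℂ | ‖x2‖ < D}, ∫⁻ x1 in {x1 : ℂ | ‖x1‖ < Real.sqrt (R2 (‖z‖ ^ 2) (‖x2‖ / D))},
      H ![z, x1, x2] =
    ∫⁻ v in Set.Ioo (0 : ℝ) 1, ∫⁻ s in Set.Ioo (0 : ℝ) 1, H (Pt z v s) *
        ENNReal.ofReal (4 * Real.pi ^ 2 * v * R2 (‖z‖ ^ 2) s * d0 (‖z‖ ^ 2) * s) := by
  have hzt : (0 : ℝ) ≤ ‖z‖ ^ 2 := sq_nonneg _
  obtain ⟨t, ht⟩ : ∃ t, t = ‖z‖ ^ 2 := ⟨_, rfl⟩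
  rw [← ht] at hz hD hzt ⊢
  have hdl := pol_d0_pos hC t (by linarith) hz
  have hDpos : 0 < D := by rw [hD]; exact Real.sqrt_pos.mpr hdl
  have hXm := pol_R2_meas
  obtain ⟨ρ, hρ⟩ : ∃ ρ : ℝ → ℝ, ρ = fun s => Real.sqrt (R2 t s) := ⟨_, rfl⟩
  have hρm : Measurable ρ := by
    rw [hρ]
    have : Measurable (fun s : ℝ => R2 t s) := hXm.comp (measurable_const.prodMk measurable_id)
    exact this.sqrt
  have hρpos : ∀ s, 0 ≤ s → s < 1 → 0 < ρ s := by
    intro s hs0 hs1
    rw [hρ]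
    exact Real.sqrt_pos.mpr (pol_R2_pos t s)
  have hsub : ∀ x2 : ℂ, Real.sqrt (R2 t (‖x2‖ / D)) = ρ (‖x2‖ / D) := by
    intro x2; rw [hρ]
  -- the inner integral
  obtain ⟨Kf, hKf⟩ : ∃ Kf : ℂ → ℝ≥0∞, Kf = fun x2 => ∫⁻ v in Set.Ioo (0:ℝ) 1,
      ENNReal.ofReal (2 * Real.pi * (ρ (‖x2‖ / D)) ^ 2 * v) *
        H ![z, ((ρ (‖x2‖ / D) * v : ℝ) : ℂ), x2] := ⟨_, rfl⟩
  have hinner : ∀ x2 ∈ {x2 : ℂ | ‖x2‖ < D}, ∫⁻ x1 in {x1 : ℂ | ‖x1‖ < Real.sqrt (R2 t (‖x2‖ / D))},
      H ![z, x1, x2] = Kf x2 := by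
    intro x2 hx2
    have hx2' : ‖x2‖ < D := hx2
    rw [hsub x2, hKf]
    apply pol_polar
    · exact hρpos _ (div_nonneg (norm_nonneg _) hDpos.le) (by rw [div_lt_one hDpos]; exact hx2')
    · exact hH.comp (pol_vec_meas _ _ _ measurable_const measurable_id measurable_const)
    · intro θ w
      rw [← hrot θ 0 ![z, w, x2]]
      congr 1
      unfold rot
      funext i
      fin_cases i <;> simp
  have hdisc : MeasurableSet {x2 : ℂ | ‖x2‖ < D} := measurableSet_lt measurable_norm measurable_const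
  rw [setLIntegral_congr_fun hdisc hinner]
  have hjoint : Measurable (fun p : ℂ × ℝ => ENNReal.ofReal (2 * Real.pi * (ρ (‖p.1‖ / D)) ^ 2 * p.2) *
        H ![z, ((ρ (‖p.1‖ / D) * p.2 : ℝ) : ℂ), p.1]) := by
    have h1 : Measurable (fun p : ℂ × ℝ => ρ (‖p.1‖ / D)) :=
      hρm.comp (measurable_fst.norm.div_const D)
    apply Measurable.mul
    · exact ENNReal.measurable_ofReal.comp ((measurable_const.mul (h1.pow_const 2)).mul measurable_snd)
    · exact hH.comp (pol_vec_meas _ _ _ measurable_const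
        (Complex.measurable_ofReal.comp (h1.mul measurable_snd)) measurable_fst)
  have hKm : Measurable Kf := by
    rw [hKf]
    exact hjoint.lintegral_prod_right'
  have hKrot : ∀ (θ : ℝ) (w : ℂ), Kf (Complex.exp (θ * I) * w) = Kf w := by
    intro θ w
    rw [hKf]
    show ∫⁻ v in Set.Ioo (0:ℝ) 1, ENNReal.ofReal (2 * Real.pi * (ρ (‖Complex.exp (θ * I) * w‖ / D)) ^ 2 * v) *
        H ![z, ((ρ (‖Complex.exp (θ * I) * w‖ / D) * v : ℝ) : ℂ), Complex.exp (θ * I) * w] = 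
      ∫⁻ v in Set.Ioo (0:ℝ) 1, ENNReal.ofReal (2 * Real.pi * (ρ (‖w‖ / D)) ^ 2 * v) *
        H ![z, ((ρ (‖w‖ / D) * v : ℝ) : ℂ), w]
    have hn : ‖Complex.exp (θ * I) * w‖ = ‖w‖ := by
      rw [norm_mul, Complex.norm_exp_ofReal_mul_I, one_mul]
    rw [hn]
    apply lintegral_congr
    intro v
    congr 1
    rw [← hrot 0 θ ![z, ((ρ (‖w‖ / D) * v : ℝ) : ℂ), w]]
    congr 1
    unfold rot
    funext i
    fin_cases i <;> simp
  rw [pol_polar D hDpos Kf hKm hKrot]
  -- rewrite as a double integral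
  have hstep : ∀ s ∈ Set.Ioo (0:ℝ) 1, ENNReal.ofReal (2 * Real.pi * D ^ 2 * s) * Kf ((D * s : ℝ) : ℂ) =
      ∫⁻ v in Set.Ioo (0 : ℝ) 1, H (Pt z v s) *
        ENNReal.ofReal (4 * Real.pi ^ 2 * v * R2 t s * d0 t * s) := by
    intro s hs
    have hs0 : 0 < s := hs.1
    have hnorm : ‖((D * s : ℝ) : ℂ)‖ / D = s := by
      rw [Complex.norm_real, Real.norm_eq_abs, abs_of_pos (mul_pos hDpos hs0)]
      field_simp
    rw [hKf]
    show ENNReal.ofReal (2 * Real.pi * D ^ 2 * s) * ∫⁻ v in Set.Ioo (0:ℝ) 1,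
      ENNReal.ofReal (2 * Real.pi * (ρ (‖((D * s : ℝ) : ℂ)‖ / D)) ^ 2 * v) *
        H ![z, ((ρ (‖((D * s : ℝ) : ℂ)‖ / D) * v : ℝ) : ℂ), ((D * s : ℝ) : ℂ)] = _
    rw [hnorm, ← lintegral_const_mul]
    · apply setLIntegral_congr_fun measurableSet_Ioo
      intro v hv
      have hv0 : 0 < v := hv.1
      have hX1 := pol_R2_pos t s
      have hPt : (![z, ((ρ s * v : ℝ) : ℂ), ((D * s : ℝ) : ℂ)] : E3) = Pt z v s := by
        unfold Pt
        rw [hρ, hD, ← ht]
        congr 2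
        congr 1
        ring
      show ENNReal.ofReal (2 * Real.pi * D ^ 2 * s) * (ENNReal.ofReal (2 * Real.pi * (ρ s) ^ 2 * v) *
        H ![z, ((ρ s * v : ℝ) : ℂ), ((D * s : ℝ) : ℂ)]) = H (Pt z v s) *
        ENNReal.ofReal (4 * Real.pi ^ 2 * v * R2 t s * d0 t * s)
      rw [hPt, ← mul_assoc, ← ENNReal.ofReal_mul (by positivity), mul_comm]
      congr 2
      have h1 : D ^ 2 = d0 t := by
        rw [hD, Real.sq_sqrt hdl.le]
      have h2 : (ρ s) ^ 2 = R2 t s := by
        rw [hρ]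
        show (Real.sqrt (R2 t s)) ^ 2 = _
        rw [Real.sq_sqrt hX1.le]
      rw [h1, h2]
      ring
    · apply Measurable.mul
      · exact ENNReal.measurable_ofReal.comp (measurable_const.mul measurable_id)
      · exact hH.comp (pol_vec_meas _ _ _ measurable_const
          (Complex.measurable_ofReal.comp (measurable_const.mul measurable_id)) measurable_const)
  rw [setLIntegral_congr_fun measurableSet_Ioo hstep]
  have hmeas2 : Measurable (fun p : ℝ × ℝ => H (Pt z p.2 p.1) *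
        ENNReal.ofReal (4 * Real.pi ^ 2 * p.2 * R2 t p.1 * d0 t * p.1)) := by
    have hX : Measurable (fun p : ℝ × ℝ => R2 t p.1) :=
      hXm.comp (measurable_const.prodMk measurable_fst)
    apply Measurable.mul
    · apply hH.comp
      unfold Pt
      rw [← ht]
      exact pol_vec_meas _ _ _ measurable_const
        (Complex.measurable_ofReal.comp (measurable_snd.mul hX.sqrt))
        (Complex.measurable_ofReal.comp (measurable_const.mul measurable_fst))
    · exact ENNReal.measurable_ofReal.comp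
        ((((measurable_const.mul measurable_snd).mul hX).mul measurable_const).mul measurable_fst)
  exact lintegral_lintegral_swap hmeas2.aemeasurable

theorem polc0 (hM : MemC_stmt) (hC : CAc_stmt) : Polc_stmt := by
  intro H hH hrot
  have hXm := pol_R2_meas
  have hdm := pol_d0_meas
  have hmem := hM
  have hn : ∀ i : Fin 3, Measurable (fun x : E3 => ‖x i‖) := fun i => (measurable_pi_apply i).norm
  have hΩ : MeasurableSet (Om) := by
    have heq : Om = {x : E3 | ‖x 0‖ ^ 2 < T0 ∧ ‖x 2‖ ^ 2 < d0 (‖x 0‖ ^ 2) ∧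
        ‖x 1‖ ^ 2 < R2 (‖x 0‖ ^ 2) (‖x 2‖ / Real.sqrt (d0 (‖x 0‖ ^ 2)))} := by
      ext x; exact hmem x
    rw [heq]
    have hd2 : Measurable (fun x : E3 => d0 (‖x 0‖ ^ 2)) := hdm.comp ((hn 0).pow_const 2)
    have hX2 : Measurable (fun x : E3 => R2 (‖x 0‖ ^ 2) (‖x 2‖ / Real.sqrt (d0 (‖x 0‖ ^ 2)))) :=
      hXm.comp (((hn 0).pow_const 2).prodMk ((hn 2).div hd2.sqrt))
    exact (measurableSet_lt ((hn 0).pow_const 2) measurable_const).inter
      ((measurableSet_lt ((hn 2).pow_const 2) hd2).inter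
        (measurableSet_lt ((hn 1).pow_const 2) hX2))
  have hBB : MeasurableSet BD := measurableSet_lt (measurable_norm.pow_const 2) measurable_const
  rw [← lintegral_indicator hΩ, pol_fubini _ (hH.indicator hΩ), ← lintegral_indicator hBB]
  apply lintegral_congr
  intro z
  by_cases hz : z ∈ BD
  · rw [Set.indicator_of_mem hz]
    have hz' : ‖z‖ ^ 2 < T0 := hz
    have hdl := pol_d0_pos hC (‖z‖ ^ 2) (by have := sq_nonneg ‖z‖; linarith) hz'
    obtain ⟨D, hD⟩ : ∃ D, D = Real.sqrt (d0 (‖z‖ ^ 2)) := ⟨_, rfl⟩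
    have hDpos : 0 < D := by rw [hD]; exact Real.sqrt_pos.mpr hdl
    have hD2 : D ^ 2 = d0 (‖z‖ ^ 2) := by
      rw [hD, Real.sq_sqrt hdl.le]
    rw [← pol_fibre hC H hH hrot z hz' D hD]
    have hdisc : MeasurableSet {x2 : ℂ | ‖x2‖ < D} := measurableSet_lt measurable_norm measurable_const
    rw [← lintegral_indicator hdisc]
    apply lintegral_congr
    intro x2
    by_cases hx2 : ‖x2‖ < D
    · rw [Set.indicator_of_mem (show x2 ∈ {x2 : ℂ | ‖x2‖ < D} from hx2)]
      have hdisc1 : MeasurableSet {x1 : ℂ | ‖x1‖ < Real.sqrt (R2 (‖z‖ ^ 2) (‖x2‖ / D))} :=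
        measurableSet_lt measurable_norm measurable_const
      rw [← lintegral_indicator hdisc1]
      apply lintegral_congr
      intro x1
      have hX := pol_R2_pos (‖z‖ ^ 2) (‖x2‖ / D)
      have hρ : 0 ≤ Real.sqrt (R2 (‖z‖ ^ 2) (‖x2‖ / D)) := by positivity
      have hρ2 : (Real.sqrt (R2 (‖z‖ ^ 2) (‖x2‖ / D))) ^ 2 =
          R2 (‖z‖ ^ 2) (‖x2‖ / D) := by
        rw [Real.sq_sqrt hX.le]
      have hiff : (![z, x1, x2] : E3) ∈ Om ↔
          x1 ∈ {x1 : ℂ | ‖x1‖ < Real.sqrt (R2 (‖z‖ ^ 2) (‖x2‖ / D))} := by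
        rw [hmem]
        show (‖z‖ ^ 2 < T0 ∧ ‖x2‖ ^ 2 < d0 (‖z‖ ^ 2) ∧
          ‖x1‖ ^ 2 < R2 (‖z‖ ^ 2) (‖x2‖ / Real.sqrt (d0 (‖z‖ ^ 2)))) ↔
          ‖x1‖ < Real.sqrt (R2 (‖z‖ ^ 2) (‖x2‖ / D))
        rw [← hD, ← hD2]
        constructor
        · rintro ⟨_, _, h⟩
          exact lt_of_pow_lt_pow_left₀ 2 hρ (h.trans_eq hρ2.symm)
        · intro h
          exact ⟨hz', pow_lt_pow_left₀ hx2 (norm_nonneg _) two_ne_zero,
            (pow_lt_pow_left₀ h (norm_nonneg _) two_ne_zero).trans_eq hρ2⟩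
      by_cases hx1 : x1 ∈ {x1 : ℂ | ‖x1‖ < Real.sqrt (R2 (‖z‖ ^ 2) (‖x2‖ / D))}
      · rw [Set.indicator_of_mem (hiff.mpr hx1), Set.indicator_of_mem hx1]
      · rw [Set.indicator_of_notMem (fun h => hx1 (hiff.mp h)), Set.indicator_of_notMem hx1]
    · rw [Set.indicator_of_notMem (show x2 ∉ {x2 : ℂ | ‖x2‖ < D} from hx2)]
      have h0 : ∀ x1 : ℂ, (Om).indicator H ![z, x1, x2] = 0 := by
        intro x1
        apply Set.indicator_of_notMem
        intro h
        rw [hmem] at h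
        have h2 : ‖x2‖ ^ 2 < d0 (‖z‖ ^ 2) := h.2.1
        rw [← hD2] at h2
        exact hx2 (lt_of_pow_lt_pow_left₀ 2 hDpos.le h2)
      simp only [h0, lintegral_zero]
  · rw [Set.indicator_of_notMem hz]
    have h0 : ∀ x2 x1 : ℂ, (Om).indicator H ![z, x1, x2] = 0 := by
      intro x2 x1
      apply Set.indicator_of_notMem
      intro h
      rw [hmem] at h
      exact hz h.1
    simp only [h0, lintegral_zero]

end PO258

theorem polc (hM : MemC_stmt) (hC : CAc_stmt) : Polc_stmt := PO258.polc0 hM hC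

end DbarC.JPO
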