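import Pool.Agent.H314.DC.St2

set_option autoImplicit false

open MeasureTheory Complex Filter Topology
open scoped ContDiff InnerProductSpace ENNReal ComplexConjugate

namespace DbarC.JPSj
open DbarN

theorem psom_hess_formula (P : E3 → ℝ) (hP : ContDiff ℝ ∞ P) (x : E3) (j k : Fin 3) :
    Hess P j k x = (1 / 4) *
      (((fderiv ℝ (fderiv ℝ P) x (Pi.single j 1) (Pi.single k 1) : ℝ) : ℂ)
        + I * ((fderiv ℝ (fderiv ℝ P) x (Pi.single j 1) (Pi.single k I) : ℝ) : ℂ)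
        - I * ((fderiv ℝ (fderiv ℝ P) x (Pi.single j I) (Pi.single k 1) : ℝ) : ℂ)
        + ((fderiv ℝ (fderiv ℝ P) x (Pi.single j I) (Pi.single k I) : ℝ) : ℂ)) := by
  have hd : Differentiable ℝ P := hP.differentiable (by simp)
  have hF : ContDiff ℝ 1 (fderiv ℝ P) := hP.fderiv_right (by norm_cast)
  have hFd : Differentiable ℝ (fderiv ℝ P) := hF.differentiable (by simp)
  have h1 : ∀ y v, fderiv ℝ (Ph P) y v = ((fderiv ℝ P y v : ℝ) : ℂ) := by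
    intro y v
    have : HasFDerivAt (Ph P) (Complex.ofRealCLM.comp (fderiv ℝ P y)) y :=
      Complex.ofRealCLM.hasFDerivAt.comp y (hd y).hasFDerivAt
    rw [this.fderiv]
    rfl
  have h2 : dbar k (Ph P) = fun y => (1 / 2) * (((fderiv ℝ P y (Pi.single k 1) : ℝ) : ℂ)
      + I * ((fderiv ℝ P y (Pi.single k I) : ℝ) : ℂ)) := by
    funext y
    unfold dbar
    rw [h1, h1]
  have h3 : ∀ v : E3, HasFDerivAt (fun y => ((fderiv ℝ P y v : ℝ) : ℂ))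
      (Complex.ofRealCLM.comp ((ContinuousLinearMap.apply ℝ ℝ v).comp (fderiv ℝ (fderiv ℝ P) x))) x := by
    intro v
    exact Complex.ofRealCLM.hasFDerivAt.comp x
      ((ContinuousLinearMap.apply ℝ ℝ v).hasFDerivAt.comp x (hFd x).hasFDerivAt)
  have h4 : HasFDerivAt (dbar k (Ph P))
      ((1 / 2 : ℂ) • ((Complex.ofRealCLM.comp ((ContinuousLinearMap.apply ℝ ℝ (Pi.single k 1 : E3)).comp
          (fderiv ℝ (fderiv ℝ P) x)))
        + I • (Complex.ofRealCLM.comp ((ContinuousLinearMap.apply ℝ ℝ (Pi.single k I : E3)).comp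
          (fderiv ℝ (fderiv ℝ P) x))))) x := by
    rw [h2]
    exact ((h3 (Pi.single k 1)).add ((h3 (Pi.single k I)).const_mul I)).const_mul (1 / 2 : ℂ)
  unfold Hess dz
  rw [h4.fderiv]
  simp only [smul_apply, add_apply, ContinuousLinearMap.comp_apply,
    Complex.ofRealCLM_apply, ContinuousLinearMap.apply_apply, smul_eq_mul]
  linear_combination (-(1/4 : ℂ) * ((fderiv ℝ (fderiv ℝ P) x (Pi.single j I) (Pi.single k I) : ℝ) : ℂ)) * Complex.I_mul_I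


theorem psom_lev_formula (P : E3 → ℝ) (hP : ContDiff ℝ ∞ P) (x : E3) (a : Fin 3 → ℂ) :
    Lev P x a = (1 / 4) * (fderiv ℝ (fderiv ℝ P) x a a +
      fderiv ℝ (fderiv ℝ P) x (fun j => I * a j) (fun j => I * a j)) := by
  obtain ⟨B, hB⟩ : ∃ B, B = fderiv ℝ (fderiv ℝ P) x := ⟨_, rfl⟩
  rw [← hB]
  have hs1 : ∀ j, (Pi.single j (a j) : E3) = (a j).re • (Pi.single j (1:ℂ) : E3) + (a j).im • (Pi.single j I : E3) := by
    intro j
    rw [← Pi.single_smul, ← Pi.single_smul, ← Pi.single_add]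
    congr 1
    rw [Complex.real_smul, Complex.real_smul, mul_one]
    exact (Complex.re_add_im (a j)).symm
  have hs2 : ∀ j, (Pi.single j (I * a j) : E3) =
      (-(a j).im) • (Pi.single j (1:ℂ) : E3) + (a j).re • (Pi.single j I : E3) := by
    intro j
    rw [← Pi.single_smul, ← Pi.single_smul, ← Pi.single_add]
    congr 1
    rw [Complex.real_smul, Complex.real_smul, mul_one]
    apply Complex.ext <;> simp
  have hexp : ∀ f : Fin 3 → ℂ, B f f = ∑ j, ∑ k, B (Pi.single j (f j) : E3) (Pi.single k (f k) : E3) := by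
    intro f
    have e : f = ∑ j, (Pi.single j (f j) : E3) := (Finset.univ_sum_single f).symm
    have e1 : B f = ∑ j, B (Pi.single j (f j) : E3) :=
      (congrArg (fun w => B w) e).trans (map_sum _ _ _)
    rw [e1, sum_apply]
    apply Finset.sum_congr rfl
    intro j _
    exact (congrArg (fun w => B (Pi.single j (f j) : E3) w) e).trans (map_sum _ _ _)
  have hterm : ∀ j k, (Hess P j k x * a j * conj (a k)).re =
      (1 / 4) * (B (Pi.single j (a j) : E3) (Pi.single k (a k) : E3)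
        + B (Pi.single j (I * a j) : E3) (Pi.single k (I * a k) : E3)) := by
    intro j k
    rw [psom_hess_formula P hP x j k, ← hB, hs1 j, hs1 k, hs2 j, hs2 k]
    simp only [map_add, map_smul, add_apply, smul_apply, smul_eq_mul]
    obtain ⟨b00, h00⟩ : ∃ b, b = B (Pi.single j (1:ℂ) : E3) (Pi.single k (1:ℂ) : E3) := ⟨_, rfl⟩
    obtain ⟨b01, h01⟩ : ∃ b, b = B (Pi.single j (1:ℂ) : E3) (Pi.single k I : E3) := ⟨_, rfl⟩
    obtain ⟨b10, h10⟩ : ∃ b, b = B (Pi.single j I : E3) (Pi.single k (1:ℂ) : E3) := ⟨_, rfl⟩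
    obtain ⟨b11, h11⟩ : ∃ b, b = B (Pi.single j I : E3) (Pi.single k I : E3) := ⟨_, rfl⟩
    rw [← h00, ← h01, ← h10, ← h11]
    have e1 : (1 / 4 : ℂ) * (((b00 : ℝ) : ℂ) + I * ((b01 : ℝ) : ℂ) - I * ((b10 : ℝ) : ℂ) + ((b11 : ℝ) : ℂ)) =
        (((b00 + b11) / 4 : ℝ) : ℂ) + (((b01 - b10) / 4 : ℝ) : ℂ) * I := by
      push_cast
      ring
    rw [e1]
    simp only [Complex.mul_re, Complex.mul_im, Complex.add_re, Complex.add_im, Complex.ofReal_re,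
      Complex.ofReal_im, Complex.I_re, Complex.I_im, Complex.conj_re, Complex.conj_im]
    ring
  have hsum : (∑ j, ∑ k, Hess P j k x * a j * conj (a k)).re =
      (1 / 4) * (B a a + B (fun j => I * a j) (fun j => I * a j)) := by
    rw [hexp a, hexp (fun j => I * a j), ← Finset.sum_add_distrib, Finset.mul_sum, Complex.re_sum]
    apply Finset.sum_congr rfl
    intro j _
    rw [← Finset.sum_add_distrib, Finset.mul_sum, Complex.re_sum]
    apply Finset.sum_congr rfl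
    intro k _
    exact hterm j k
  exact hsum

theorem psom_E_exists : ∃ E E1 E2 : ℝ → ℝ, ContDiff ℝ ∞ E ∧ (∀ t, HasDerivAt E (E1 t) t) ∧
    (∀ t, HasDerivAt E1 (E2 t) t) ∧ (∀ t, 0 ≤ E1 t) ∧ (∀ t, 0 ≤ E2 t) ∧
    (∀ t, t ≤ 0 → E t = 0) ∧ (∀ t, 0 < t → 0 < E t) := by
  have hgc : Continuous expNegInvGlue := (expNegInvGlue.contDiff (n := 0)).continuous
  have hd1 : ∀ t : ℝ, HasDerivAt (fun t => ∫ s in (0 : ℝ)..t, expNegInvGlue s)
      (expNegInvGlue t) t := fun t =>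
    intervalIntegral.integral_hasDerivAt_right (hgc.intervalIntegrable _ _)
      (hgc.stronglyMeasurableAtFilter _ _) hgc.continuousAt
  have hE1c : Continuous (fun t => ∫ s in (0 : ℝ)..t, expNegInvGlue s) :=
    continuous_iff_continuousAt.mpr fun t => (hd1 t).continuousAt
  have hd0 : ∀ t : ℝ, HasDerivAt (fun t => ∫ u in (0 : ℝ)..t, ∫ s in (0 : ℝ)..u, expNegInvGlue s)
      (∫ s in (0 : ℝ)..t, expNegInvGlue s) t := fun t =>
    intervalIntegral.integral_hasDerivAt_right (hE1c.intervalIntegrable _ _)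
      (hE1c.stronglyMeasurableAtFilter _ _) hE1c.continuousAt
  have hE1s : ContDiff ℝ ∞ (fun t => ∫ s in (0 : ℝ)..t, expNegInvGlue s) := by
    rw [contDiff_infty_iff_deriv]
    refine ⟨fun t => (hd1 t).differentiableAt, ?_⟩
    have : deriv (fun t => ∫ s in (0 : ℝ)..t, expNegInvGlue s) = expNegInvGlue := by
      funext t
      exact (hd1 t).deriv
    rw [this]
    exact expNegInvGlue.contDiff
  have hEs : ContDiff ℝ ∞ (fun t => ∫ u in (0 : ℝ)..t, ∫ s in (0 : ℝ)..u, expNegInvGlue s) := by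
    rw [contDiff_infty_iff_deriv]
    refine ⟨fun t => (hd0 t).differentiableAt, ?_⟩
    have : deriv (fun t => ∫ u in (0 : ℝ)..t, ∫ s in (0 : ℝ)..u, expNegInvGlue s) =
        fun t => ∫ s in (0 : ℝ)..t, expNegInvGlue s := by
      funext t
      exact (hd0 t).deriv
    rw [this]
    exact hE1s
  have hz1 : ∀ t : ℝ, t ≤ 0 → ∫ s in (0 : ℝ)..t, expNegInvGlue s = 0 := by
    intro t ht
    have h1 : ∫ s in (0 : ℝ)..t, expNegInvGlue s = ∫ s in (0 : ℝ)..t, (0 : ℝ) := by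
      apply intervalIntegral.integral_congr
      intro s hs
      rw [Set.uIcc_of_ge ht] at hs
      exact expNegInvGlue.zero_of_nonpos hs.2
    rw [h1, intervalIntegral.integral_zero]
  have hp1 : ∀ t : ℝ, 0 < t → 0 < ∫ s in (0 : ℝ)..t, expNegInvGlue s := by
    intro t ht
    refine intervalIntegral.intervalIntegral_pos_of_pos_on (hgc.intervalIntegrable _ _) ?_ ht
    intro s hs
    exact expNegInvGlue.pos_of_pos hs.1
  refine ⟨fun t => ∫ u in (0 : ℝ)..t, ∫ s in (0 : ℝ)..u, expNegInvGlue s,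
    fun t => ∫ s in (0 : ℝ)..t, expNegInvGlue s, expNegInvGlue, hEs, hd0, hd1, ?_,
    expNegInvGlue.nonneg, ?_, ?_⟩
  · intro t
    rcases le_or_gt t 0 with h | h
    · exact (hz1 t h).ge
    · exact (hp1 t h).le
  · intro t ht
    have h1 : ∫ u in (0 : ℝ)..t, ∫ s in (0 : ℝ)..u, expNegInvGlue s = ∫ u in (0 : ℝ)..t, (0 : ℝ) := by
      apply intervalIntegral.integral_congr
      intro s hs
      rw [Set.uIcc_of_ge ht] at hs
      exact hz1 s hs.2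
    show ∫ u in (0 : ℝ)..t, ∫ s in (0 : ℝ)..u, expNegInvGlue s = 0
    rw [h1, intervalIntegral.integral_zero]
  · intro t ht
    refine intervalIntegral.intervalIntegral_pos_of_pos_on (hE1c.intervalIntegrable _ _) ?_ ht
    intro s hs
    exact hp1 s hs.1

theorem psom_second (E E1 E2 : ℝ → ℝ) (h0 : ∀ t, HasDerivAt E (E1 t) t)
    (h1 : ∀ t, HasDerivAt E1 (E2 t) t) (F : E3 → ℝ) (hF : ContDiff ℝ ∞ F) (x v w : E3) :
    fderiv ℝ (fderiv ℝ (fun y => E (F y - 1))) x v w =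
      E1 (F x - 1) * fderiv ℝ (fderiv ℝ F) x v w +
        E2 (F x - 1) * fderiv ℝ F x v * fderiv ℝ F x w := by
  have hd : Differentiable ℝ F := hF.differentiable (by simp)
  have hF1 : ContDiff ℝ 1 (fderiv ℝ F) := hF.fderiv_right (by norm_cast)
  have hFd : Differentiable ℝ (fderiv ℝ F) := hF1.differentiable (by simp)
  have hsub : ∀ y, HasFDerivAt (fun y => F y - 1) (fderiv ℝ F y) y := fun y =>
    (hd y).hasFDerivAt.sub_const 1
  have e1 : fderiv ℝ (fun y => E (F y - 1)) = fun y => E1 (F y - 1) • fderiv ℝ F y := by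
    funext y
    exact ((h0 (F y - 1)).comp_hasFDerivAt y (hsub y)).fderiv
  rw [e1]
  have e2 : HasFDerivAt (fun y => E1 (F y - 1)) (E2 (F x - 1) • fderiv ℝ F x) x :=
    (h1 (F x - 1)).comp_hasFDerivAt x (hsub x)
  have e3 := (e2.smul (hFd x).hasFDerivAt).fderiv
  show (fderiv ℝ ((fun y => E1 (F y - 1)) • fderiv ℝ F) x) v w = _
  rw [e3]
  simp only [ContinuousLinearMap.add_apply, ContinuousLinearMap.smul_apply,
    ContinuousLinearMap.smulRight_apply, smul_eq_mul]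

theorem psom_lev_comp (E E1 E2 : ℝ → ℝ) (hE : ContDiff ℝ ∞ E) (h0 : ∀ t, HasDerivAt E (E1 t) t)
    (h1 : ∀ t, HasDerivAt E1 (E2 t) t) (hp1 : ∀ t, 0 ≤ E1 t) (hp2 : ∀ t, 0 ≤ E2 t)
    (F : E3 → ℝ) (hF : ContDiff ℝ ∞ F) (x : E3) (a : Fin 3 → ℂ) (hL : 0 ≤ Lev F x a) :
    0 ≤ Lev (fun y => E (F y - 1)) x a := by
  have hs : ContDiff ℝ ∞ (fun y => E (F y - 1)) := hE.comp (hF.sub contDiff_const)
  rw [psom_lev_formula _ hs, psom_second E E1 E2 h0 h1 F hF, psom_second E E1 E2 h0 h1 F hF]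
  rw [psom_lev_formula F hF] at hL
  have hA := hp1 (F x - 1)
  have hB := hp2 (F x - 1)
  have h3 := mul_nonneg hA hL
  have h4 := mul_nonneg hB (sq_nonneg (fderiv ℝ F x a))
  have h5 := mul_nonneg hB (sq_nonneg (fderiv ℝ F x (fun j => I * a j)))
  nlinarith [h3, h4, h5]

theorem ps_om (hG : GLU_stmt) (hF : FFs_stmt) (hH : FH_stmt) (hD : DomC_stmt) : PS_prop Om := by
  obtain ⟨hH1, _⟩ := hH
  obtain ⟨_, h0Om, _, _, _, hcl, _, hin⟩ := hD
  obtain ⟨E, E1, E2, hE, h0, h1, hp1, hp2, hz, hpos⟩ := psom_E_exists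
  have hT0 : T0 = 1 + 1 / 10000 := by
    unfold T0 tB
    norm_num
  have hn : ∀ j : Fin 3, Continuous (fun x : E3 => ‖x j‖ ^ 2) := fun j =>
    ((continuous_apply j).norm).pow 2
  have hKcl : IsClosed {x : E3 | ‖x 0‖ ^ 2 ≤ T0 ∧ ‖x 1‖ ^ 2 ≤ 1 / 100 ∧ ‖x 2‖ ^ 2 ≤ 1} := by
    have e : {x : E3 | ‖x 0‖ ^ 2 ≤ T0 ∧ ‖x 1‖ ^ 2 ≤ 1 / 100 ∧ ‖x 2‖ ^ 2 ≤ 1} =
        {x : E3 | ‖x 0‖ ^ 2 ≤ T0} ∩ ({x : E3 | ‖x 1‖ ^ 2 ≤ 1 / 100} ∩
          {x : E3 | ‖x 2‖ ^ 2 ≤ 1}) := by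
      ext x
      rfl
    rw [e]
    exact (isClosed_le (hn 0) continuous_const).inter
      ((isClosed_le (hn 1) continuous_const).inter (isClosed_le (hn 2) continuous_const))
  have hUop : IsOpen {x : E3 | ‖x 0‖ ^ 2 < 1002 / 1000 ∧ ‖x 1‖ ^ 2 < 15 / 1000 ∧
      ‖x 2‖ ^ 2 < 2} := by
    have e : {x : E3 | ‖x 0‖ ^ 2 < 1002 / 1000 ∧ ‖x 1‖ ^ 2 < 15 / 1000 ∧ ‖x 2‖ ^ 2 < 2} =
        {x : E3 | ‖x 0‖ ^ 2 < 1002 / 1000} ∩ ({x : E3 | ‖x 1‖ ^ 2 < 15 / 1000} ∩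
          {x : E3 | ‖x 2‖ ^ 2 < 2}) := by
      ext x
      rfl
    rw [e]
    exact (isOpen_lt (hn 0) continuous_const).inter
      ((isOpen_lt (hn 1) continuous_const).inter (isOpen_lt (hn 2) continuous_const))
  have hUb : Bornology.IsBounded {x : E3 | ‖x 0‖ ^ 2 < 1002 / 1000 ∧ ‖x 1‖ ^ 2 < 15 / 1000 ∧
      ‖x 2‖ ^ 2 < 2} := by
    rw [isBounded_iff_forall_norm_le]
    refine ⟨2, fun x hx => ?_⟩
    obtain ⟨hx0, hx1, hx2⟩ := hx
    rw [pi_norm_le_iff_of_nonneg (by norm_num)]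
    intro j
    have hj : ‖x j‖ ^ 2 < 4 := by
      fin_cases j
      · exact lt_trans hx0 (by norm_num)
      · exact lt_trans hx1 (by norm_num)
      · exact lt_trans hx2 (by norm_num)
    nlinarith [norm_nonneg (x j)]
  have hKU : {x : E3 | ‖x 0‖ ^ 2 ≤ T0 ∧ ‖x 1‖ ^ 2 ≤ 1 / 100 ∧ ‖x 2‖ ^ 2 ≤ 1} ⊆
      {x : E3 | ‖x 0‖ ^ 2 < 1002 / 1000 ∧ ‖x 1‖ ^ 2 < 15 / 1000 ∧ ‖x 2‖ ^ 2 < 2} := by
    rintro x ⟨hx0, hx1, hx2⟩
    rw [hT0] at hx0
    exact ⟨by linarith, by linarith, by linarith⟩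
  have hKb : IsCompact {x : E3 | ‖x 0‖ ^ 2 ≤ T0 ∧ ‖x 1‖ ^ 2 ≤ 1 / 100 ∧ ‖x 2‖ ^ 2 ≤ 1} :=
    Metric.isCompact_of_isClosed_isBounded hKcl (hUb.subset hKU)
  have hnc : ∀ (j : Fin 3) (r : ℝ), 0 ≤ r → Convex ℝ {x : E3 | ‖x j‖ ^ 2 ≤ r} := by
    intro j r hr
    have e : {x : E3 | ‖x j‖ ^ 2 ≤ r} =
        (fun x : E3 => (ContinuousLinearMap.proj (R := ℝ) (φ := fun _ : Fin 3 => ℂ) j) x) ⁻¹'
          (Metric.closedBall (0 : ℂ) (Real.sqrt r)) := by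
      ext x
      simp only [Set.mem_preimage, mem_closedBall_zero_iff]
      show ‖x j‖ ^ 2 ≤ r ↔ ‖x j‖ ≤ Real.sqrt r
      rw [Real.le_sqrt (norm_nonneg _) hr]
    rw [e]
    exact (convex_closedBall (0 : ℂ) (Real.sqrt r)).is_linear_preimage
      (ContinuousLinearMap.proj (R := ℝ) (φ := fun _ : Fin 3 => ℂ) j).toLinearMap.isLinear
  have hKc : Convex ℝ {x : E3 | ‖x 0‖ ^ 2 ≤ T0 ∧ ‖x 1‖ ^ 2 ≤ 1 / 100 ∧ ‖x 2‖ ^ 2 ≤ 1} := by
    have e : {x : E3 | ‖x 0‖ ^ 2 ≤ T0 ∧ ‖x 1‖ ^ 2 ≤ 1 / 100 ∧ ‖x 2‖ ^ 2 ≤ 1} =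
        {x : E3 | ‖x 0‖ ^ 2 ≤ T0} ∩ ({x : E3 | ‖x 1‖ ^ 2 ≤ 1 / 100} ∩
          {x : E3 | ‖x 2‖ ^ 2 ≤ 1}) := by
      ext x
      rfl
    rw [e]
    exact (hnc 0 T0 (by rw [hT0]; norm_num)).inter
      ((hnc 1 _ (by norm_num)).inter (hnc 2 _ (by norm_num)))
  have hKn : {x : E3 | ‖x 0‖ ^ 2 ≤ T0 ∧ ‖x 1‖ ^ 2 ≤ 1 / 100 ∧ ‖x 2‖ ^ 2 ≤ 1}.Nonempty := by
    refine ⟨0, ?_, ?_, ?_⟩
    · rw [hT0]
      norm_num
    · norm_num
    · norm_num
  have hφ : ContDiff ℝ ∞ (fun y => E (FF y - 1)) := hE.comp (ContDiff.sub hF contDiff_const)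
  have hφL : ∀ x ∈ {x : E3 | ‖x 0‖ ^ 2 < 1002 / 1000 ∧ ‖x 1‖ ^ 2 < 15 / 1000 ∧ ‖x 2‖ ^ 2 < 2},
      ∀ a, 0 ≤ Lev (fun y => E (FF y - 1)) x a := by
    rintro x ⟨hx0, hx1, hx2⟩ a
    refine psom_lev_comp E E1 E2 hE h0 h1 hp1 hp2 FF hF x a ?_
    exact le_trans (sq_nonneg _) (hH1 x (by linarith) (by linarith) a)
  have hφ0 : ∀ x : E3, 0 ≤ E (FF x - 1) := by
    intro x
    rcases le_or_gt (FF x - 1) 0 with h | h
    · exact (hz _ h).ge
    · exact (hpos _ h).le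
  intro U hU hclU
  obtain ⟨Q, V, hQs, hQL, hVo, hKV, hVU, hQK, hQV, hQp⟩ := hG _ _ hKb hKc hKn hUop hKU hUb
    (fun y => E (FF y - 1)) hφ hφL
  obtain ⟨hQ0, hQpos⟩ := hQp hφ0
  refine ⟨Q, hQs, ?_, hQ0, ?_, ?_⟩
  · intro x a
    rw [zero_mul]
    exact hQL x a
  · intro x hx
    have hxK := hcl x (subset_closure hx)
    rw [hQK x ⟨hxK.1, hxK.2.1, hxK.2.2.1⟩]
    exact hz _ (by linarith [hx.2])
  · intro x hx
    by_cases hxV : x ∈ V
    · refine lt_of_lt_of_le ?_ (hQV x hxV)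
      have hxU0 := hVU hxV
      have hFx : 1 < FF x := by
        by_contra hcon
        push Not at hcon
        exact hx (hclU (hin x (by linarith [hxU0.1]) (by linarith [hxU0.2.1]) hcon))
      exact hpos _ (by linarith)
    · exact hQpos x hxV

end DbarC.JPSj
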