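import Pool.Agent.H314.DC.St3

set_option autoImplicit false

open MeasureTheory Complex Filter Topology
open scoped ContDiff InnerProductSpace ENNReal ComplexConjugate

namespace DbarC.JPWj
open DbarN

theorem pwc_tq (t u L M a b : ℝ) (ht : 0 ≤ t) (ht1 : t < 1 + 1 / 10000) (hu : 0 < u)
    (hu1 : u ≤ 1 / 100) (hL : 0 ≤ L) (hab : a ^ 2 ≤ b) (hb : 0 < b) :
    0 < (1 + t) * (b * u - a ^ 2 * u ^ 2) ∧
    t * ((-a * u + (1 + t) * L * a * u ^ 2) ^ 2 / ((1 + t) * (b * u - a ^ 2 * u ^ 2))) ≤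
      0.51 * u + 2.03 * t * L ^ 2 * u ^ 3 := by
  have hD : (1 + t) * (b * u) * 0.99 ≤ (1 + t) * (b * u - a ^ 2 * u ^ 2) := by
    have h1 : a ^ 2 * u ^ 2 ≤ b * u ^ 2 := mul_le_mul_of_nonneg_right hab (by positivity)
    have h2 : b * u ^ 2 ≤ b * u * (1 / 100) := by
      have : b * u * u ≤ b * u * (1 / 100) := mul_le_mul_of_nonneg_left hu1 (by positivity)
      nlinarith
    have h3 : b * u * 0.99 ≤ b * u - a ^ 2 * u ^ 2 := by
      norm_num
      linarith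
    have h4 := mul_le_mul_of_nonneg_left h3 (by linarith : (0 : ℝ) ≤ 1 + t)
    linarith
  have hD0 : 0 < (1 + t) * (b * u - a ^ 2 * u ^ 2) := by
    refine lt_of_lt_of_le ?_ hD
    positivity
  refine ⟨hD0, ?_⟩
  rw [← mul_div_assoc, div_le_iff₀ hD0]
  have hR0 : 0 ≤ 0.51 * u + 2.03 * t * L ^ 2 * u ^ 3 := by positivity
  refine le_trans ?_ (mul_le_mul_of_nonneg_left hD hR0)
  set x : ℝ := (1 + t) * L * u with hx
  have hx0 : 0 ≤ x := by positivity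
  have h1 : (-a * u + (1 + t) * L * a * u ^ 2) ^ 2 = a ^ 2 * (u ^ 2 * (1 - x) ^ 2) := by
    rw [hx]; ring
  have h2 : (1 - x) ^ 2 ≤ 1 + x ^ 2 := by nlinarith
  have h3 : t * (-a * u + (1 + t) * L * a * u ^ 2) ^ 2 ≤ t * (b * (u ^ 2 * (1 + x ^ 2))) := by
    rw [h1]
    refine mul_le_mul_of_nonneg_left ?_ ht
    refine mul_le_mul hab (mul_le_mul_of_nonneg_left h2 (by positivity)) (by positivity) hb.le
  refine h3.trans ?_
  have h4 : t ≤ 0.99 * 0.51 * (1 + t) := by norm_num; linarith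
  have h5 : t * x ^ 2 ≤ 0.99 * 2.03 * (1 + t) * t * (L ^ 2 * u ^ 2) := by
    have h6 : x ^ 2 = (1 + t) ^ 2 * (L ^ 2 * u ^ 2) := by rw [hx]; ring
    rw [h6]
    have h7 : (1 + t) ^ 2 ≤ 0.99 * 2.03 * (1 + t) := by
      have h8 : 1 + t ≤ 0.99 * 2.03 := by norm_num; linarith
      have := mul_le_mul_of_nonneg_right h8 (by linarith : (0 : ℝ) ≤ 1 + t)
      nlinarith
    have h9 : (0 : ℝ) ≤ t * (L ^ 2 * u ^ 2) := by positivity
    have h10 := mul_le_mul_of_nonneg_right h7 h9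
    linarith
  have h6 : t * (1 + x ^ 2) ≤ 0.99 * 0.51 * (1 + t) + 0.99 * 2.03 * (1 + t) * t * (L ^ 2 * u ^ 2) := by
    linarith
  have h7 : (0 : ℝ) ≤ b * u ^ 2 := by positivity
  have h8 := mul_le_mul_of_nonneg_right h6 h7
  calc t * (b * (u ^ 2 * (1 + x ^ 2))) = t * (1 + x ^ 2) * (b * u ^ 2) := by ring
    _ ≤ (0.99 * 0.51 * (1 + t) + 0.99 * 2.03 * (1 + t) * t * (L ^ 2 * u ^ 2)) * (b * u ^ 2) := h8
    _ = _ := by ring

theorem pwc_real (t u L M a b lg : ℝ) (ht : 0 ≤ t) (ht1 : t < 1 + 1 / 10000) (hu : 0 < u)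
    (hu1 : u ≤ 1 / 100) (hL : 0 ≤ L) (hM : 100 * L + L ^ 2 ≤ M) (hab : a ^ 2 ≤ b) (hb : 0 < b)
    (hlg : 4 ≤ lg) :
    (1 / 2) * (lg + t * M * u) ≤ lg + (1 + t) * L * u + t * (2 * L * u + (1 + t) * (M * u - L ^ 2 * u ^ 2)) -
      t * ((-a * u + (1 + t) * L * a * u ^ 2) ^ 2 / ((1 + t) * (b * u - a ^ 2 * u ^ 2))) ∧
    t * ((-a * u + (1 + t) * L * a * u ^ 2) ^ 2 / ((1 + t) * (b * u - a ^ 2 * u ^ 2))) ≤
      u + t * M * u ^ 2 := by
  obtain ⟨-, h1⟩ := pwc_tq t u L M a b ht ht1 hu hu1 hL hab hb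
  have hLM : L ^ 2 ≤ M := by linarith
  have hM0 : 0 ≤ M := le_trans (sq_nonneg L) hLM
  have h2 : 2.03 * t * L ^ 2 * u ^ 3 ≤ 0.0203 * (t * M * u ^ 2) := by
    have h3 : L ^ 2 * u ≤ M * (1 / 100) := mul_le_mul hLM hu1 hu.le hM0
    have h4 := mul_le_mul_of_nonneg_left h3 (by positivity : (0 : ℝ) ≤ 2.03 * t * u ^ 2)
    calc 2.03 * t * L ^ 2 * u ^ 3 = 2.03 * t * u ^ 2 * (L ^ 2 * u) := by ring
      _ ≤ 2.03 * t * u ^ 2 * (M * (1 / 100)) := h4
      _ = 0.0203 * (t * M * u ^ 2) := by norm_num; ring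
  have h5 : 0 ≤ t * M * u ^ 2 := by positivity
  constructor
  · have h6 : t * M * u ^ 2 ≤ t * M * u * (1 / 100) := by
      have h7 := mul_le_mul_of_nonneg_left hu1 (by positivity : (0 : ℝ) ≤ t * M * u)
      calc t * M * u ^ 2 = t * M * u * u := by ring
        _ ≤ _ := h7
    have h8 : 0.99 * (t * M * u) ≤ t * ((1 + t) * (M * u - L ^ 2 * u ^ 2)) := by
      have h9 : L ^ 2 * u ^ 2 ≤ M * u * (1 / 100) := by
        have h10 : L ^ 2 * u ^ 2 ≤ M * u ^ 2 := mul_le_mul_of_nonneg_right hLM (by positivity)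
        have h11 := mul_le_mul_of_nonneg_left hu1 (by positivity : (0 : ℝ) ≤ M * u)
        calc L ^ 2 * u ^ 2 ≤ M * u ^ 2 := h10
          _ = M * u * u := by ring
          _ ≤ _ := h11
      have h12 : 0.99 * (M * u) ≤ M * u - L ^ 2 * u ^ 2 := by norm_num; linarith
      have h13 : 0 ≤ M * u - L ^ 2 * u ^ 2 := le_trans (by positivity) h12
      have h14 : M * u - L ^ 2 * u ^ 2 ≤ (1 + t) * (M * u - L ^ 2 * u ^ 2) := by nlinarith
      have h15 := mul_le_mul_of_nonneg_left (h12.trans h14) ht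
      linarith
    have h16 : 0 ≤ (1 + t) * L * u := by positivity
    have h17 : 0 ≤ t * (2 * L * u) := by positivity
    have h18 : 0 ≤ t * M * u := by positivity
    have h19 : t * (2 * L * u + (1 + t) * (M * u - L ^ 2 * u ^ 2)) =
        t * (2 * L * u) + t * ((1 + t) * (M * u - L ^ 2 * u ^ 2)) := by ring
    rw [h19]
    norm_num at h1 h2 h8 ⊢
    linarith
  · norm_num at h1 h2 ⊢
    linarith

theorem pwc (hC : CAc_stmt) : PWc_stmt := by
  intro t s ht htT hs0 hs1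
  obtain ⟨hLa, hL, hM, -, hl, -⟩ := hC t s (by linarith) htT hs0.le hs1
  have hb := DbarN.JCA2.tau2_pos hs0.le hs1
  have hab := DbarN.JCA2.tau1_sq_le hs0.le hs1
  have ht1 : t < 1 + 1 / 10000 := by
    unfold T0 tB at htT
    norm_num at htT ⊢
    exact htT
  set l := l0 t s with hldef
  have hl0 : 0 < l := by linarith
  have hlg : 4 ≤ Real.log l := by
    have h1 : Real.log (2 ^ 6) ≤ Real.log l := Real.log_le_log (by norm_num) (by linarith)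
    rw [Real.log_pow] at h1
    have h2 := Real.log_two_gt_d9
    push_cast at h1
    linarith
  have hu : 0 < l⁻¹ := inv_pos.2 hl0
  have hu1 : l⁻¹ ≤ 1 / 100 := by
    rw [one_div]
    exact inv_anti₀ (by norm_num) hl
  obtain ⟨hD, -⟩ := pwc_tq t l⁻¹ (La1 t) (La2 t) (tau1 s) (tau2 s) ht ht1 hu hu1 hL hab hb
  obtain ⟨k1, k2⟩ := pwc_real t l⁻¹ (La1 t) (La2 t) (tau1 s) (tau2 s) (Real.log l) ht ht1 hu hu1 hL hM
    hab hb hlg
  have e1 : -Ycss t s = (1 + t) * (tau2 s * l⁻¹ - tau1 s ^ 2 * l⁻¹ ^ 2) := by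
    unfold Ycss
    rw [← hldef]
    ring
  have e2 : Ycts t s = -tau1 s * l⁻¹ + (1 + t) * La1 t * tau1 s * l⁻¹ ^ 2 := by
    unfold Ycts
    rw [← hldef]
    ring
  have e3 : -Yct t s - t * Yctt t s = Real.log l + (1 + t) * La1 t * l⁻¹ +
      t * (2 * La1 t * l⁻¹ + (1 + t) * (La2 t * l⁻¹ - La1 t ^ 2 * l⁻¹ ^ 2)) := by
    unfold Yct Yctt
    rw [← hldef]
    ring
  refine ⟨?_, ?_, ?_⟩
  · rw [← e1] at hD
    linarith
  · rw [e1, e2, e3]
    have e4 : t * La2 t / l = t * La2 t * l⁻¹ := div_eq_mul_inv _ _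
    rw [e4]
    exact k1
  · rw [e1, e2]
    have e4 : 1 / l + t * La2 t / l ^ 2 = l⁻¹ + t * La2 t * l⁻¹ ^ 2 := by
      rw [one_div, div_eq_mul_inv, inv_pow]
    rw [e4]
    exact k2

end DbarC.JPWj
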