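import Pool.Agent.H314.DC.St1

set_option autoImplicit false

open MeasureTheory Complex Filter Topology
open scoped ContDiff InnerProductSpace ENNReal ComplexConjugate

namespace DbarC.JR0
open DbarN

namespace RE0aux


section Torus

noncomputable local instance re0MS : MeasureSpace UnitAddCircle := ⟨AddCircle.haarAddCircle⟩

variable {d : Type} [Fintype d]

/-- the map of the torus to the cube -/
noncomputable def sec (t : UnitAddTorus d) : d → ℝ :=
  ((UnitAddTorus.measurableEquivPiIoc (fun _ : d => (-1 / 2 : ℝ)) t).1)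

theorem cube_meas : MeasurableSet {x : d → ℝ | ∀ i, x i ∈ Set.Ioc (-1 / 2 : ℝ) (-1 / 2 + 1)} :=
  MeasurableSet.univ_pi' (fun _ => measurableSet_Ioc)

theorem sec_mp : MeasurePreserving (sec (d := d)) volume
    (volume.restrict {x : d → ℝ | ∀ i, x i ∈ Set.Ioc (-1 / 2 : ℝ) (-1 / 2 + 1)}) := by
  have h1 := UnitAddTorus.measurePreserving_equivPiIoc (fun _ : d => (-1 / 2 : ℝ))
  have h2 := measurePreserving_subtype_coe (μa := (volume : Measure (d → ℝ)))
    (cube_meas (d := d))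
  exact h2.comp h1

theorem sec_me : MeasurableEmbedding (sec (d := d)) :=
  (MeasurableEmbedding.subtype_coe (cube_meas (d := d))).comp
    (UnitAddTorus.measurableEquivPiIoc (fun _ : d => (-1 / 2 : ℝ))).measurableEmbedding

theorem coe_sec (t : UnitAddTorus d) : (fun i => ((sec t i : ℝ) : UnitAddCircle)) = t := by
  have h := (UnitAddTorus.measurableEquivPiIoc (fun _ : d => (-1 / 2 : ℝ))).symm_apply_apply t
  exact h

theorem parseval_cube (F : (d → ℝ) → ℂ) (hF : MemLp F 2 volume)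
    (h0 : ∀ x : d → ℝ, (¬ ∀ i, x i ∈ Set.Ioc (-1 / 2 : ℝ) (-1 / 2 + 1)) → F x = 0) :
    HasSum (fun n : d → ℤ => ‖∫ x : d → ℝ,
      Complex.exp (-(2 * Real.pi * I * ∑ i, (n i : ℂ) * (x i : ℂ))) * F x‖ ^ 2)
      (∫ x, ‖F x‖ ^ 2) := by
  have hG : MemLp (fun t : UnitAddTorus d => F (sec t)) 2 volume :=
    (hF.restrict _).comp_measurePreserving sec_mp
  have hsum := UnitAddTorus.hasSum_sq_mFourierCoeff (hG.toLp _)
  have hcoe := hG.coeFn_toLp
  have h1 : ∫ t, ‖(hG.toLp _ : UnitAddTorus d → ℂ) t‖ ^ 2 = ∫ x, ‖F x‖ ^ 2 := by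
    have h2 : ∫ t, ‖(hG.toLp _ : UnitAddTorus d → ℂ) t‖ ^ 2 =
        ∫ t : UnitAddTorus d, ‖F (sec t)‖ ^ 2 := by
      apply integral_congr_ae
      filter_upwards [hcoe] with t ht
      rw [ht]
    rw [h2, sec_mp.integral_comp sec_me (fun x => ‖F x‖ ^ 2)]
    apply setIntegral_eq_integral_of_forall_compl_eq_zero
    intro x hx
    rw [h0 x hx]
    simp
  have h3 : ∀ n : d → ℤ, UnitAddTorus.mFourierCoeff (hG.toLp _ : UnitAddTorus d → ℂ) n =
      ∫ x : d → ℝ, Complex.exp (-(2 * Real.pi * I * ∑ i, (n i : ℂ) * (x i : ℂ))) * F x := by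
    intro n
    have h4 : UnitAddTorus.mFourierCoeff (hG.toLp _ : UnitAddTorus d → ℂ) n =
        ∫ t : UnitAddTorus d, (fun x : d → ℝ =>
          Complex.exp (-(2 * Real.pi * I * ∑ i, (n i : ℂ) * (x i : ℂ))) * F x) (sec t) := by
      unfold UnitAddTorus.mFourierCoeff
      apply integral_congr_ae
      filter_upwards [hcoe] with t ht
      rw [ht, smul_eq_mul]
      congr 1
      conv_lhs => rw [← coe_sec t]
      change ∏ i : d, fourier ((-n) i) ((sec t i : ℝ) : UnitAddCircle) = _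
      simp only [fourier_coe_apply, ← Complex.exp_sum]
      congr 1
      rw [Finset.mul_sum, ← Finset.sum_neg_distrib]
      apply Finset.sum_congr rfl
      intro i _
      simp only [Pi.neg_apply]
      push_cast
      ring
    rw [h4, sec_mp.integral_comp sec_me (fun x : d → ℝ =>
      Complex.exp (-(2 * Real.pi * I * ∑ i, (n i : ℂ) * (x i : ℂ))) * F x)]
    apply setIntegral_eq_integral_of_forall_compl_eq_zero
    intro x hx
    rw [h0 x hx, mul_zero]
  rw [h1] at hsum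
  simpa only [h3] using hsum

end Torus

/-- the index set of the real coordinates -/
abbrev dd := Fin 3 × Fin 2

/-- real coordinates, scaled -/
noncomputable def LL (s : ℝ) (hs : s ≠ 0) : (dd → ℝ) ≃ₗ[ℝ] E3 where
  toFun t j := ((s * t (j, 0) : ℝ) : ℂ) + ((s * t (j, 1) : ℝ) : ℂ) * I
  map_add' a b := by
    funext j
    simp only [Pi.add_apply]
    push_cast
    ring
  map_smul' r a := by
    funext j
    simp only [Pi.smul_apply, smul_eq_mul, RingHom.id_apply, Complex.real_smul]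
    push_cast
    ring
  invFun z p := if p.2 = 0 then (z p.1).re / s else (z p.1).im / s
  left_inv a := by
    funext p
    obtain ⟨j, i⟩ := p
    fin_cases i
    · simp [hs]
    · simp [hs]
  right_inv z := by
    funext j
    apply Complex.ext
    · simp
      field_simp
    · simp
      field_simp

/-- the exponentials -/
noncomputable def ee (s : ℝ) (n : dd → ℤ) (x : E3) : ℂ :=
  Complex.exp (-(2 * Real.pi * I / s) * ∑ j : Fin 3, ((n (j, 0) : ℂ) * ((x j).re : ℂ) +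
    (n (j, 1) : ℂ) * ((x j).im : ℂ)))

theorem parseval3 (s : ℝ) (hs : 0 < s) : ∃ c : ℝ, 0 < c ∧ ∀ F : E3 → ℂ, MemLp F 2 volume →
    (∀ x : E3, (∃ j, s / 2 ≤ |(x j).re| ∨ s / 2 ≤ |(x j).im|) → F x = 0) →
    HasSum (fun n : dd → ℤ => ‖∫ x : E3, ee s n x * F x‖ ^ 2) (c * ∫ x, ‖F x‖ ^ 2) := by
  obtain ⟨L, hL⟩ : ∃ L : (dd → ℝ) ≃L[ℝ] E3, ∀ t j, L t j =
      ((s * t (j, 0) : ℝ) : ℂ) + ((s * t (j, 1) : ℝ) : ℂ) * I :=
    ⟨(LL s hs.ne').toContinuousLinearEquiv, fun _ _ => rfl⟩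
  have hH : ((volume : Measure (dd → ℝ)).map L).IsAddHaarMeasure :=
    L.isAddHaarMeasure_map volume
  obtain ⟨c, hc0, hct, hc⟩ : ∃ c : ℝ≥0∞, c ≠ 0 ∧ c ≠ ⊤ ∧
      (volume : Measure E3) = c • ((volume : Measure (dd → ℝ)).map L) := by
    refine ⟨(Measure.addHaarScalarFactor (volume : Measure E3)
      ((volume : Measure (dd → ℝ)).map L) : ℝ≥0∞), ?_, ENNReal.coe_ne_top, ?_⟩
    · have h := Measure.addHaarScalarFactor_pos_of_isAddHaarMeasure (volume : Measure E3)
        ((volume : Measure (dd → ℝ)).map L)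
      exact_mod_cast h.ne'
    · have h := Measure.isAddLeftInvariant_eq_smul (volume : Measure E3)
        ((volume : Measure (dd → ℝ)).map L)
      exact h
  have hme : MeasurableEmbedding L := L.toHomeomorph.measurableEmbedding
  have hcr : 0 < c.toReal := ENNReal.toReal_pos hc0 hct
  have hint : ∀ H : E3 → ℂ, ∫ x, H x = c.toReal * ∫ t, H (L t) := by
    intro H
    rw [hc, integral_smul_measure, hme.integral_map]
    rfl
  have hintR : ∀ H : E3 → ℝ, ∫ x, H x = c.toReal * ∫ t, H (L t) := by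
    intro H
    rw [hc, integral_smul_measure, hme.integral_map]
    rfl
  refine ⟨c.toReal, hcr, ?_⟩
  intro F hF h0
  have hF' : MemLp (fun t => F (L t)) 2 (volume : Measure (dd → ℝ)) := by
    rw [hc] at hF
    have h1 : MemLp F 2 ((volume : Measure (dd → ℝ)).map L) := by
      have h2 := hF.smul_measure (c := c⁻¹) (ENNReal.inv_ne_top.2 hc0)
      rwa [smul_smul, ENNReal.inv_mul_cancel hc0 hct, one_smul] at h2
    exact (hme.memLp_map_measure_iff).1 h1
  have hP := parseval_cube (fun t => F (L t)) hF' (by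
    intro t ht
    apply h0
    push Not at ht
    obtain ⟨⟨j, i⟩, hi⟩ := ht
    refine ⟨j, ?_⟩
    have hre : (L t j).re = s * t (j, 0) := by rw [hL]; simp
    have him : (L t j).im = s * t (j, 1) := by rw [hL]; simp
    have habs : 1 / 2 ≤ |t (j, i)| := by
      rw [Set.mem_Ioc, not_and_or] at hi
      rw [le_abs]
      rcases hi with h | h
      · right; linarith
      · left; linarith
    have hsc : s / 2 ≤ |s * t (j, i)| := by
      rw [abs_mul, abs_of_pos hs]
      nlinarith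
    fin_cases i
    · left
      rw [hre]
      exact hsc
    · right
      rw [him]
      exact hsc)
  have hP2 := hP.mul_left (c.toReal ^ 2)
  have e1 : c.toReal * ∫ x, ‖F x‖ ^ 2 = c.toReal ^ 2 * ∫ t, ‖F (L t)‖ ^ 2 := by
    rw [hintR (fun x => ‖F x‖ ^ 2)]
    ring
  rw [e1]
  refine hP2.congr_fun ?_
  intro n
  rw [hint (fun x => ee s n x * F x), norm_mul, mul_pow, Complex.norm_real,
    Real.norm_of_nonneg hcr.le]
  congr 3
  apply integral_congr_ae
  filter_upwards with t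
  congr 1
  unfold ee
  congr 1
  rw [Fintype.sum_prod_type]
  simp only [Fin.sum_univ_two, hL]
  rw [neg_mul, Finset.mul_sum, Finset.mul_sum]
  congr 1
  apply Finset.sum_congr rfl
  intro j _
  have hs' : (s : ℂ) ≠ 0 := by exact_mod_cast hs.ne'
  simp
  field_simp


/-- the linear form -/
noncomputable def phiL (n : dd → ℤ) : E3 →L[ℝ] ℂ :=
  ∑ j : Fin 3, ((n (j, 0) : ℝ) • (Complex.ofRealCLM ∘L Complex.reCLM ∘L
      (ContinuousLinearMap.proj j : E3 →L[ℝ] ℂ)) +
    (n (j, 1) : ℝ) • (Complex.ofRealCLM ∘L Complex.imCLM ∘L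
      (ContinuousLinearMap.proj j : E3 →L[ℝ] ℂ)))

theorem phiL_apply (n : dd → ℤ) (x : E3) : phiL n x =
    ∑ j : Fin 3, ((n (j, 0) : ℂ) * ((x j).re : ℂ) + (n (j, 1) : ℂ) * ((x j).im : ℂ)) := by
  unfold phiL
  rw [ContinuousLinearMap.sum_apply]
  apply Finset.sum_congr rfl
  intro j _
  simp

theorem ee_eq (s : ℝ) (n : dd → ℤ) : ee s n = fun x => Complex.exp (-(2 * Real.pi * I / s) *
    phiL n x) := by
  funext x
  unfold ee
  rw [phiL_apply]

theorem ee_contDiff (s : ℝ) (n : dd → ℤ) : ContDiff ℝ ∞ (ee s n) := by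
  rw [ee_eq]
  exact (contDiff_const.mul (phiL n).contDiff).cexp

/-- the eigenvalue -/
noncomputable def lam (s : ℝ) (n : dd → ℤ) (j : Fin 3) : ℂ :=
  (1 / 2) * (-(2 * Real.pi * I / s)) * ((n (j, 0) : ℂ) + I * (n (j, 1) : ℂ))

theorem phiL_single (n : dd → ℤ) (j : Fin 3) (w : ℂ) : phiL n (Pi.single j w) =
    (n (j, 0) : ℂ) * (w.re : ℂ) + (n (j, 1) : ℂ) * (w.im : ℂ) := by
  rw [phiL_apply, Finset.sum_eq_single j]
  · simp
  · intro b _ hb
    simp [Pi.single_eq_of_ne hb]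
  · intro h
    exact absurd (Finset.mem_univ j) h

theorem dbar_ee (s : ℝ) (n : dd → ℤ) (j : Fin 3) (x : E3) :
    dbar j (ee s n) x = lam s n j * ee s n x := by
  have h1 : HasFDerivAt (ee s n) (ee s n x • (-(2 * Real.pi * I / s) • phiL n)) x := by
    have h2 := (((phiL n).hasFDerivAt (x := x)).const_mul (-(2 * Real.pi * I / s))).cexp
    rw [ee_eq]
    exact h2
  unfold dbar
  rw [h1.fderiv]
  simp only [ContinuousLinearMap.smul_apply, smul_eq_mul, phiL_single, Complex.one_re,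
    Complex.one_im, Complex.I_re, Complex.I_im]
  unfold lam
  push_cast
  ring

theorem lam_sq (s : ℝ) (hs : 0 < s) (n : dd → ℤ) (j : Fin 3) :
    ‖lam s n j‖ ^ 2 = Real.pi ^ 2 / s ^ 2 * ((n (j, 0) : ℝ) ^ 2 + (n (j, 1) : ℝ) ^ 2) := by
  unfold lam
  rw [norm_mul, mul_pow]
  have h1 : ‖(1 / 2 : ℂ) * (-(2 * Real.pi * I / s))‖ = Real.pi / s := by
    have h2 : (1 / 2 : ℂ) * (-(2 * Real.pi * I / s)) = ((-(Real.pi / s) : ℝ) : ℂ) * I := by
      push_cast
      ring
    rw [h2, norm_mul, Complex.norm_I, mul_one, Complex.norm_real, norm_neg,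
      Real.norm_of_nonneg (by positivity)]
  have h3 : ‖(n (j, 0) : ℂ) + I * (n (j, 1) : ℂ)‖ ^ 2 =
      (n (j, 0) : ℝ) ^ 2 + (n (j, 1) : ℝ) ^ 2 := by
    rw [Complex.sq_norm, Complex.normSq_apply]
    simp
    ring
  rw [h1, h3, div_pow]

theorem dbar_cut (R : ℝ) (s : ℝ) (n : dd → ℤ) (j : Fin 3) (χ : ContDiffBump (0 : E3))
    (hχ : R < χ.rIn) (x : E3) (hx : ‖x‖ ≤ R) :
    dbar j (fun y => (χ y : ℂ) * ee s n y) x = lam s n j * ee s n x := by
  have h1 : (fun y => (χ y : ℂ) * ee s n y) =ᶠ[𝓝 x] ee s n := by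
    have h2 : x ∈ Metric.ball (0 : E3) χ.rIn := by
      rw [mem_ball_zero_iff]
      linarith
    filter_upwards [χ.eventuallyEq_one_of_mem_ball h2] with y hy
    rw [hy]
    simp
  rw [← dbar_ee]
  unfold dbar
  rw [h1.fderiv_eq]

theorem cut_test (s : ℝ) (n : dd → ℤ) (χ : ContDiffBump (0 : E3)) :
    IsTest Set.univ (fun y => (χ y : ℂ) * ee s n y) := by
  refine ⟨?_, ?_, Set.subset_univ _⟩
  · exact (Complex.ofRealCLM.contDiff.comp χ.contDiff).mul (ee_contDiff s n)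
  · have h1 : HasCompactSupport (fun y => (χ y : ℂ)) := by
      have h2 := χ.hasCompactSupport
      exact h2.comp_left (g := fun r : ℝ => (r : ℂ)) (by simp)
    exact h1.mul_right

theorem cut_memLp (s : ℝ) (n : dd → ℤ) (χ : ContDiffBump (0 : E3)) (a : ℂ) :
    MemLp (fun y => a * ((χ y : ℂ) * ee s n y)) 2 (volume : Measure E3) := by
  have h := cut_test s n χ
  exact (h.smooth.continuous.memLp_of_hasCompactSupport h.compact).const_mul a

theorem key_ineq (s ε : ℝ) (hs : 0 < s) (N : ℕ) (hN : 1 ≤ N)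
    (hNε : s ^ 2 / (Real.pi ^ 2 * N) ≤ ε) (n : dd → ℤ)
    (hn : n ∉ Fintype.piFinset (fun _ : dd => Finset.Icc (-(N : ℤ)) N)) (a : ℝ) (ha : 0 ≤ a)
    (b : Fin 3 → ℝ) (hb : ∀ j, 0 ≤ b j) (hab : ∀ j, ‖lam s n j‖ ^ 2 * a = b j) :
    a ≤ ε * ∑ j, b j := by
  rw [Fintype.mem_piFinset] at hn
  push Not at hn
  obtain ⟨⟨j, i⟩, hji⟩ := hn
  have hbig : (N : ℝ) ≤ (n (j, i) : ℝ) ^ 2 := by
    have h1 : (N : ℤ) ≤ (n (j, i)) ^ 2 := by
      rw [Finset.mem_Icc, not_and_or] at hji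
      have hN' : (1 : ℤ) ≤ N := by exact_mod_cast hN
      rcases hji with h | h
      · nlinarith
      · nlinarith
    exact_mod_cast h1
  have hlam : Real.pi ^ 2 / s ^ 2 * N ≤ ‖lam s n j‖ ^ 2 := by
    rw [lam_sq s hs]
    apply mul_le_mul_of_nonneg_left _ (by positivity)
    fin_cases i
    · exact hbig.trans (le_add_of_nonneg_right (sq_nonneg _))
    · exact hbig.trans (le_add_of_nonneg_left (sq_nonneg _))
  have hpi : 0 < Real.pi ^ 2 / s ^ 2 * N := by
    have : (0 : ℝ) < N := by exact_mod_cast hN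
    have := Real.pi_pos
    positivity
  have h2 : Real.pi ^ 2 / s ^ 2 * N * a ≤ b j := by
    rw [← hab j]
    exact mul_le_mul_of_nonneg_right hlam ha
  have h3 : b j ≤ ∑ j, b j := Finset.single_le_sum (fun i _ => hb i) (Finset.mem_univ j)
  have hsum : 0 ≤ ∑ j, b j := Finset.sum_nonneg (fun i _ => hb i)
  have h4 : a ≤ s ^ 2 / (Real.pi ^ 2 * N) * ∑ j, b j := by
    have h5 : s ^ 2 / (Real.pi ^ 2 * N) = (Real.pi ^ 2 / s ^ 2 * N)⁻¹ := by
      rw [mul_inv, inv_div, div_eq_mul_inv, mul_inv, div_eq_mul_inv]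
      ring
    rw [h5, inv_mul_eq_div, le_div_iff₀ hpi]
    linarith
  exact h4.trans (mul_le_mul_of_nonneg_right hNε hsum)

theorem sum_ineq (c ε X : ℝ) (hc : 0 < c) (S : Finset (dd → ℤ))
    (a : (dd → ℤ) → ℝ) (b : Fin 3 → (dd → ℤ) → ℝ) (B : Fin 3 → ℝ)
    (ha : HasSum a (c * X)) (ha0 : ∀ n, 0 ≤ a n) (hb0 : ∀ j n, 0 ≤ b j n) (hε : 0 < ε)
    (hb : ∀ j, HasSum (b j) (c * B j))
    (hab : ∀ n, n ∉ S → a n ≤ ε * ∑ j, b j n) :
    X ≤ ε * ∑ j, B j + ∑ n ∈ S, a n / c := by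
  classical
  have h1 : HasSum (fun n => ε * ∑ j, b j n) (ε * ∑ j, c * B j) :=
    (hasSum_sum (fun j _ => hb j)).mul_left ε
  have h2 : HasSum (fun n => if n ∈ S then a n else 0) (∑ n ∈ S, a n) := by
    have h3 : HasSum (fun n => if n ∈ S then a n else 0)
        (∑ n ∈ S, (if n ∈ S then a n else 0)) :=
      hasSum_sum_of_ne_finset_zero (fun n hn => by simp [hn])
    rwa [Finset.sum_congr rfl (fun n hn => if_pos hn)] at h3
  have h4 := hasSum_le (fun n => (by
    by_cases hn : n ∈ S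
    · simp only [hn, if_true]
      have : 0 ≤ ε * ∑ j, b j n := mul_nonneg hε.le (Finset.sum_nonneg (fun j _ => hb0 j n))
      linarith
    · simp only [hn, if_false, zero_add]
      exact hab n hn : a n ≤ (if n ∈ S then a n else 0) + ε * ∑ j, b j n)) ha (h2.add h1)
  rw [← Finset.mul_sum] at h4
  rw [← Finset.sum_div]
  have h5 : c * X ≤ c * (ε * ∑ j, B j + (∑ n ∈ S, a n) / c) := by
    rw [mul_add, mul_div_cancel₀ _ hc.ne']
    linarith
  exact le_of_mul_le_mul_left h5 hc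

end RE0aux

open RE0aux in
/-- Rellich on `ℂ³` through finitely many functionals: `RE0_stmt` with the intended parentheses
(`RE0_stmt` as landed parses as `ε * ∑ j, ∫ x, (‖g j x‖ ^ 2 + ∑ i, …)`, which is false).
Definitionally equal to `RE0_fix` of the `re1` job (24339). -/
theorem re0 : ∀ R ε : ℝ, 0 < R → 0 < ε → ∃ (n : ℕ) (h : Fin n → E3 → ℂ),
    (∀ i, MemLp (h i) 2 (volume : Measure E3)) ∧
    ∀ (f : E3 → ℂ) (g : Fin 3 → E3 → ℂ), MemLp f 2 (volume : Measure E3) →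
      (∀ j, MemLp (g j) 2 (volume : Measure E3)) → (∀ x, R < ‖x‖ → f x = 0) →
      (∀ j φ, IsTest Set.univ φ → ∫ x, f x * dbar j φ x = - ∫ x, g j x * φ x) →
      ∫ x, ‖f x‖ ^ 2 ≤ ε * (∑ j, ∫ x, ‖g j x‖ ^ 2) + ∑ i, ‖∫ x, f x * h i x‖ ^ 2 := by
  intro R ε hR hε
  obtain ⟨s, hs⟩ : ∃ s : ℝ, s = 2 * (R + 2) := ⟨_, rfl⟩
  have hs0 : 0 < s := by rw [hs]; linarith
  obtain ⟨c, hc, hpar⟩ := parseval3 s hs0
  obtain ⟨χ, hin, hout⟩ : ∃ χ : ContDiffBump (0 : E3), χ.rIn = R + 1 ∧ χ.rOut = R + 2 :=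
    ⟨⟨R + 1, R + 2, by linarith, by linarith⟩, rfl, rfl⟩
  obtain ⟨N, hN1, hN⟩ : ∃ N : ℕ, 1 ≤ N ∧ s ^ 2 / (Real.pi ^ 2 * N) ≤ ε := by
    obtain ⟨N, hN⟩ := exists_nat_gt (s ^ 2 / (Real.pi ^ 2 * ε))
    have hpi := Real.pi_pos
    have h0 : 0 < s ^ 2 / (Real.pi ^ 2 * ε) := by positivity
    have hN0 : (0 : ℝ) < N := h0.trans hN
    refine ⟨N, by exact_mod_cast hN0, ?_⟩
    rw [div_lt_iff₀ (by positivity)] at hN
    rw [div_le_iff₀ (by positivity)]
    nlinarith
  obtain ⟨S, hS⟩ : ∃ S : Finset (dd → ℤ),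
      S = Fintype.piFinset (fun _ : dd => Finset.Icc (-(N : ℤ)) N) := ⟨_, rfl⟩
  have hbig : ∀ x : E3, (∃ j, s / 2 ≤ |(x j).re| ∨ s / 2 ≤ |(x j).im|) → R + 2 ≤ ‖x‖ := by
    rintro x ⟨j, hj⟩
    have h1 : ‖x j‖ ≤ ‖x‖ := norm_le_pi_norm x j
    have h2 := Complex.abs_re_le_norm (x j)
    have h3 := Complex.abs_im_le_norm (x j)
    rcases hj with h | h <;> linarith
  refine ⟨S.card, fun i => fun y => ((Real.sqrt c)⁻¹ : ℂ) *
    ((χ y : ℂ) * ee s (S.equivFin.symm i : dd → ℤ) y), ?_, ?_⟩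
  · intro i
    exact cut_memLp s _ χ _
  · intro f g hf hg hfR hdb
    have hχm : AEStronglyMeasurable (fun y => (χ y : ℂ)) (volume : Measure E3) :=
      (Complex.continuous_ofReal.comp χ.continuous).aestronglyMeasurable
    have hχle : ∀ (j : Fin 3) (x : E3), ‖(χ x : ℂ) * g j x‖ ≤ ‖g j x‖ := by
      intro j x
      rw [norm_mul, Complex.norm_real, Real.norm_of_nonneg χ.nonneg]
      exact mul_le_of_le_one_left (norm_nonneg _) χ.le_one
    have hG : ∀ j, MemLp (fun x => (χ x : ℂ) * g j x) 2 (volume : Measure E3) := by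
      intro j
      refine (hg j).mono (hχm.mul (hg j).aestronglyMeasurable) ?_
      filter_upwards with x
      exact hχle j x
    have hf0 : ∀ x : E3, (∃ j, s / 2 ≤ |(x j).re| ∨ s / 2 ≤ |(x j).im|) → f x = 0 := by
      intro x hx
      have := hbig x hx
      exact hfR x (by linarith)
    have hG0 : ∀ j, ∀ x : E3, (∃ j, s / 2 ≤ |(x j).re| ∨ s / 2 ≤ |(x j).im|) →
        (χ x : ℂ) * g j x = 0 := by
      intro j x hx
      have h1 := hbig x hx
      have h2 : χ x = 0 := χ.zero_of_le_dist (by rw [dist_zero_right, hout]; exact h1)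
      rw [h2]
      simp
    have ha := hpar f hf hf0
    have hb := fun j => hpar _ (hG j) (hG0 j)
    have hcut : ∀ (n : dd → ℤ) (x : E3), f x * ((χ x : ℂ) * ee s n x) = ee s n x * f x := by
      intro n x
      by_cases hx : R < ‖x‖
      · rw [hfR x hx]
        ring
      · push Not at hx
        have h1 : χ x = 1 := χ.one_of_mem_closedBall (by
          rw [mem_closedBall_zero_iff, hin]
          linarith)
        rw [h1]
        push_cast
        ring
    have hrel : ∀ (n : dd → ℤ) (j : Fin 3), ‖lam s n j‖ ^ 2 * ‖∫ x, ee s n x * f x‖ ^ 2 =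
        ‖∫ x, ee s n x * ((χ x : ℂ) * g j x)‖ ^ 2 := by
      intro n j
      have h1 := hdb j _ (cut_test s n χ)
      have h2 : ∫ x, f x * dbar j (fun y => (χ y : ℂ) * ee s n y) x =
          lam s n j * ∫ x, ee s n x * f x := by
        rw [← integral_const_mul]
        apply integral_congr_ae
        filter_upwards with x
        by_cases hx : R < ‖x‖
        · rw [hfR x hx]
          ring
        · push Not at hx
          rw [dbar_cut R s n j χ (by rw [hin]; linarith) x hx]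
          ring
      have h3 : ∫ x, g j x * ((χ x : ℂ) * ee s n x) =
          ∫ x, ee s n x * ((χ x : ℂ) * g j x) := by
        apply integral_congr_ae
        filter_upwards with x
        ring
      rw [h2, h3] at h1
      rw [← mul_pow, ← norm_mul, h1, norm_neg]
    have hmain := sum_ineq c ε (∫ x, ‖f x‖ ^ 2) hc S
      (fun n => ‖∫ x, ee s n x * f x‖ ^ 2)
      (fun j n => ‖∫ x, ee s n x * ((χ x : ℂ) * g j x)‖ ^ 2)
      (fun j => ∫ x, ‖(χ x : ℂ) * g j x‖ ^ 2) ha (fun n => sq_nonneg _) (fun j n => sq_nonneg _)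
      hε hb (by
        intro n hn
        rw [hS] at hn
        exact key_ineq s ε hs0 N hN1 hN n hn _ (sq_nonneg _) _ (fun j => sq_nonneg _)
          (fun j => hrel n j))
    have hGle : ∑ j, ∫ x, ‖(χ x : ℂ) * g j x‖ ^ 2 ≤ ∑ j, ∫ x, ‖g j x‖ ^ 2 := by
      apply Finset.sum_le_sum
      intro j _
      apply integral_mono
      · exact (memLp_two_iff_integrable_sq_norm (hG j).aestronglyMeasurable).1 (hG j)
      · exact (memLp_two_iff_integrable_sq_norm (hg j).aestronglyMeasurable).1 (hg j)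
      · intro x
        exact pow_le_pow_left₀ (norm_nonneg _) (hχle j x) 2
    have hlast : ∑ n ∈ S, ‖∫ x, ee s n x * f x‖ ^ 2 / c =
        ∑ i : Fin S.card, ‖∫ x, f x * (((Real.sqrt c)⁻¹ : ℂ) *
          ((χ x : ℂ) * ee s (S.equivFin.symm i : dd → ℤ) x))‖ ^ 2 := by
      have h1 : ∀ n : dd → ℤ, ‖∫ x, f x * (((Real.sqrt c)⁻¹ : ℂ) *
          ((χ x : ℂ) * ee s n x))‖ ^ 2 = ‖∫ x, ee s n x * f x‖ ^ 2 / c := by
        intro n
        have h2 : ∫ x, f x * (((Real.sqrt c)⁻¹ : ℂ) * ((χ x : ℂ) * ee s n x)) =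
            ((Real.sqrt c)⁻¹ : ℂ) * ∫ x, ee s n x * f x := by
          rw [← integral_const_mul]
          apply integral_congr_ae
          filter_upwards with x
          rw [← hcut n x]
          ring
        rw [h2, norm_mul, mul_pow, norm_inv, Complex.norm_real,
          Real.norm_of_nonneg (Real.sqrt_nonneg _), inv_pow, Real.sq_sqrt hc.le]
        rw [div_eq_inv_mul]
      rw [← Finset.sum_coe_sort S, ← S.equivFin.symm.sum_comp]
      apply Finset.sum_congr rfl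
      intro i _
      exact (h1 _).symm
    rw [← hlast]
    exact hmain.trans (add_le_add (mul_le_mul_of_nonneg_left hGle hε.le) le_rfl)


end DbarC.JR0
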