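import Pool.Agent.H314.DC.St1

set_option autoImplicit false

open MeasureTheory Complex Filter Topology
open scoped ContDiff InnerProductSpace ENNReal ComplexConjugate

namespace DbarC.JR1
open DbarN

/-- Rellich on `ℂ³` through finitely many functionals (RE0_stmt with the intended parentheses) -/
def RE0_fix : Prop := ∀ R ε : ℝ, 0 < R → 0 < ε → ∃ (n : ℕ) (h : Fin n → E3 → ℂ),
    (∀ i, MemLp (h i) 2 (volume : Measure E3)) ∧
    ∀ (f : E3 → ℂ) (g : Fin 3 → E3 → ℂ), MemLp f 2 (volume : Measure E3) →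
      (∀ j, MemLp (g j) 2 (volume : Measure E3)) → (∀ x, R < ‖x‖ → f x = 0) →
      (∀ j φ, IsTest Set.univ φ → ∫ x, f x * dbar j φ x = - ∫ x, g j x * φ x) →
      ∫ x, ‖f x‖ ^ 2 ≤ ε * (∑ j, ∫ x, ‖g j x‖ ^ 2) + ∑ i, ‖∫ x, f x * h i x‖ ^ 2

theorem re1_cutoff (K U : Set E3) (hK : IsCompact K) (hU : IsOpen U) (hKU : K ⊆ U) :
    ∃ (χ : E3 → ℝ) (K2 : Set E3), ContDiff ℝ ∞ χ ∧ IsCompact K2 ∧ K2 ⊆ U ∧ tsupport χ ⊆ K2 ∧
      (∀ x, 0 ≤ χ x ∧ χ x ≤ 1) ∧ ∀ x ∈ K, χ x = 1 := by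
  obtain ⟨K2, hK2, h1, h2⟩ := exists_compact_between hK hU hKU
  obtain ⟨f, hf1, hf0, hf⟩ := exists_contMDiffMap_one_nhds_of_subset_interior (n := ⊤)
    (modelWithCornersSelf ℝ E3) hK.isClosed h1
  obtain ⟨V, hV, hKV, hV1⟩ := eventually_nhdsSet_iff_exists.1 hf1
  have hsupp : tsupport (f : E3 → ℝ) ⊆ K2 := by
    apply closure_minimal _ hK2.isClosed
    intro x hx
    by_contra h
    exact hx (hf0 x h)
  exact ⟨f, K2, f.contMDiff.contDiff, hK2, h2, hsupp, hf, fun x hx => hV1 x (hKV hx)⟩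

theorem re1_dbar_cont {φ : E3 → ℂ} (h : ContDiff ℝ ∞ φ) (j : Fin 3) : Continuous (dbar j φ) := by
  have h1 : Continuous (fderiv ℝ φ) := h.continuous_fderiv (by simp)
  unfold dbar
  fun_prop

theorem re1_dbar_supp {ψ : E3 → ℂ} (j : Fin 3) :
    Function.support (dbar j ψ) ⊆ tsupport ψ := by
  intro x hx
  by_contra h
  apply hx
  have h1 : fderiv ℝ ψ x = 0 := fderiv_of_notMem_tsupport (𝕜 := ℝ) h
  simp [dbar, h1]

theorem re1_dbar_mul {a b : E3 → ℂ} (ha : ContDiff ℝ ∞ a) (hb : ContDiff ℝ ∞ b) (j : Fin 3)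
    (x : E3) : dbar j (fun x => a x * b x) x = a x * dbar j b x + b x * dbar j a x := by
  have h1 : DifferentiableAt ℝ a x := (ha.differentiable (by simp)) x
  have h2 : DifferentiableAt ℝ b x := (hb.differentiable (by simp)) x
  have h3 : fderiv ℝ (fun x => a x * b x) x = a x • fderiv ℝ b x + b x • fderiv ℝ a x :=
    fderiv_fun_mul h1 h2
  unfold dbar
  rw [h3]
  simp only [add_apply, smul_apply, smul_eq_mul]
  ring

theorem re1_normsq {μ : Measure E3} {F : E3 → ℂ} (hF : MemLp F 2 μ) :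
    (eLpNorm F 2 μ).toReal ^ 2 = ∫ x, ‖F x‖ ^ 2 ∂μ := by
  rw [hF.eLpNorm_eq_integral_rpow_norm (by norm_num) (by norm_num)]
  have h0 : 0 ≤ ∫ x, ‖F x‖ ^ 2 ∂μ := integral_nonneg fun x => by positivity
  have h1 : ∫ x, ‖F x‖ ^ (2 : ℝ≥0∞).toReal ∂μ = ∫ x, ‖F x‖ ^ 2 ∂μ := by
    simp
  rw [h1, ENNReal.toReal_ofReal (by positivity), ← Real.rpow_natCast, ← Real.rpow_mul h0]
  simp

theorem re1_Lp_normsq {Ω : Set E3} (f : L2 Ω) : ‖f‖ ^ 2 = ∫ x in Ω, ‖f x‖ ^ 2 := by
  rw [Lp.norm_def]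
  exact re1_normsq (Lp.memLp f)

theorem re1_pairing (Ω : Set E3) (ψ : E3 → ℂ)
    (hψ : MemLp ψ 2 ((volume : Measure E3).restrict Ω)) :
    ∃ L : L2 Ω →L[ℂ] ℂ, ∀ f : L2 Ω, L f = ∫ x in Ω, f x * ψ x := by
  have hm : MemLp (fun x => conj (ψ x)) 2 ((volume : Measure E3).restrict Ω) := hψ.star
  refine ⟨innerSL ℂ hm.toLp, ?_⟩
  intro f
  rw [innerSL_apply_apply, L2.inner_def]
  apply integral_congr_ae
  filter_upwards [hm.coeFn_toLp] with x hx
  rw [hx]
  simp [mul_comm]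

/-- multiplication by a bounded continuous function supported in `Ω` -/
theorem re1_mul_memLp {Ω : Set E3} (hΩ : MeasurableSet Ω) {a : E3 → ℂ} (ha : Continuous a)
    {D : ℝ} (hD : ∀ x, ‖a x‖ ≤ D) {f : E3 → ℂ} (hf : MemLp f 2 (volume.restrict Ω))
    (hs : ∀ x, x ∉ Ω → a x = 0) :
    MemLp (fun x => a x * f x) 2 (volume.restrict Ω) ∧
    MemLp (fun x => a x * f x) 2 (volume : Measure E3) := by
  have h1 : MemLp (fun x => a x * f x) 2 (volume.restrict Ω) := by
    refine MemLp.of_le_mul (c := D) hf (ha.aestronglyMeasurable.mul hf.1) ?_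
    refine Eventually.of_forall fun x => ?_
    rw [norm_mul]
    exact mul_le_mul_of_nonneg_right (hD x) (norm_nonneg _)
  refine ⟨h1, ?_⟩
  have h2 : (fun x => a x * f x) = Ω.indicator (fun x => a x * f x) := by
    funext x
    by_cases hx : x ∈ Ω
    · rw [Set.indicator_of_mem hx]
    · rw [Set.indicator_of_notMem hx, hs x hx, zero_mul]
  rw [h2]
  exact (memLp_indicator_iff_restrict hΩ).2 h1

theorem re1 (h0 : RE0_fix) : RE1_stmt := by
  intro Ω hΩ K hK hKΩ ε hε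
  obtain ⟨χ, K2, hχs, hK2, hK2Ω, hsupp, hχ01, hχ1⟩ := re1_cutoff K Ω hK hΩ hKΩ
  set a : E3 → ℂ := fun x => (χ x : ℂ) with ha
  have has : ContDiff ℝ ∞ a := ofRealCLM.contDiff.comp hχs
  have hac : Continuous a := has.continuous
  have hasupp : tsupport a ⊆ K2 := by
    refine (closure_mono ?_).trans hsupp
    intro x hx
    simp only [ha, Function.mem_support, ne_eq, ofReal_eq_zero] at hx
    exact hx
  have hacs : HasCompactSupport a := hK2.of_isClosed_subset (isClosed_tsupport _) hasupp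
  have ha0 : ∀ x, x ∉ K2 → a x = 0 := by
    intro x hx
    by_contra h
    exact hx (hasupp (subset_tsupport a h))
  have ha1 : ∀ x, ‖a x‖ ≤ 1 := by
    intro x
    simp only [ha, norm_real, Real.norm_eq_abs]
    rw [abs_of_nonneg (hχ01 x).1]
    exact (hχ01 x).2
  have hdc : ∀ j, Continuous (dbar j a) := fun j => re1_dbar_cont has j
  have hd0 : ∀ j x, x ∉ K2 → dbar j a x = 0 := by
    intro j x hx
    by_contra h
    exact hx (hasupp (re1_dbar_supp j h))
  have hdcs : ∀ j, HasCompactSupport (dbar j a) := fun j => hacs.mono' (re1_dbar_supp j)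
  have hDj : ∀ j : Fin 3, ∃ D : ℝ, ∀ x, ‖dbar j a x‖ ≤ D := by
    intro j
    exact (hdc j).bounded_above_of_compact_support (hdcs j)
  choose D0 hD0 using hDj
  set D : ℝ := 1 + ∑ i, |D0 i| with hDdef
  have hD : ∀ j x, ‖dbar j a x‖ ≤ D := by
    intro j x
    refine (hD0 j x).trans ((le_abs_self _).trans ?_)
    have := Finset.single_le_sum (f := fun i => |D0 i|) (fun i _ => abs_nonneg (D0 i))
      (Finset.mem_univ j)
    simp only [hDdef]
    linarith
  have hDpos : 0 < D := by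
    have := Finset.sum_nonneg (s := Finset.univ) (f := fun i => |D0 i|)
      (fun i _ => abs_nonneg (D0 i))
    simp only [hDdef]
    linarith
  obtain ⟨R0, hR0⟩ := hK2.isBounded.exists_norm_le
  set R : ℝ := max R0 1 with hR
  have hRpos : 0 < R := lt_of_lt_of_le one_pos (le_max_right _ _)
  have hKR : ∀ x, R < ‖x‖ → x ∉ K2 := by
    intro x hx h
    have := hR0 x h
    have := le_max_left R0 1
    linarith
  have hnΩ : ∀ x, x ∉ Ω → x ∉ K2 := fun x hx h => hx (hK2Ω h)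
  set ε' : ℝ := ε / (2 + 6 * D ^ 2) with hε'
  have hε'0 : 0 < ε' := by positivity
  obtain ⟨n, h, hh, hmain⟩ := h0 R ε' hRpos hε'0
  have hhm : ∀ i, MemLp (fun x => a x * h i x) 2 ((volume : Measure E3).restrict Ω) := fun i =>
    (re1_mul_memLp hΩ.measurableSet hac ha1 ((hh i).restrict Ω)
      (fun x hx => ha0 x (hnΩ x hx))).1
  choose L hL using fun i => re1_pairing Ω _ (hhm i)
  refine ⟨n, L, ?_⟩
  intro f g hfg
  set f' : E3 → ℂ := fun x => a x * f x with hf'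
  set g' : Fin 3 → E3 → ℂ := fun j x => a x * g j x + dbar j a x * f x with hg'
  have hfm := re1_mul_memLp hΩ.measurableSet hac ha1 (Lp.memLp f)
    (fun x hx => ha0 x (hnΩ x hx))
  have hg1 := fun j => re1_mul_memLp hΩ.measurableSet hac ha1 (Lp.memLp (g j))
    (fun x hx => ha0 x (hnΩ x hx))
  have hg2 := fun j => re1_mul_memLp hΩ.measurableSet (hdc j) (hD j) (Lp.memLp f)
    (fun x hx => hd0 j x (hnΩ x hx))
  have hgm : ∀ j, MemLp (g' j) 2 (volume : Measure E3) := fun j => (hg1 j).2.add (hg2 j).2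
  have hweak : ∀ (j : Fin 3) (φ : E3 → ℂ), IsTest Set.univ φ →
      ∫ x, f' x * dbar j φ x = - ∫ x, g' j x * φ x := by
    intro j φ hφ
    have ht : IsTest Ω (fun x => a x * φ x) := by
      refine ⟨has.mul hφ.smooth, hacs.mul_right, ?_⟩
      refine (closure_mono ?_).trans (hasupp.trans hK2Ω)
      intro x hx
      simp only [Function.mem_support, ne_eq, mul_eq_zero, not_or] at hx
      exact hx.1
    have key := hfg j _ ht
    have hφc := hφ.smooth.continuous
    have hφm : MemLp φ 2 ((volume : Measure E3).restrict Ω) :=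
      (hφc.memLp_of_hasCompactSupport hφ.compact (μ := volume)).restrict Ω
    have hdφ : Continuous (dbar j φ) := re1_dbar_cont hφ.smooth j
    have hdφs : HasCompactSupport (dbar j φ) := hφ.compact.mono' (re1_dbar_supp j)
    have hdφm : MemLp (dbar j φ) 2 ((volume : Measure E3).restrict Ω) :=
      (hdφ.memLp_of_hasCompactSupport hdφs (μ := volume)).restrict Ω
    have e1 : ∫ x, f' x * dbar j φ x = ∫ x in Ω, f' x * dbar j φ x := by
      symm
      refine setIntegral_eq_integral_of_forall_compl_eq_zero fun x hx => ?_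
      simp only [hf', ha0 x (hnΩ x hx), zero_mul]
    have e2 : ∫ x, g' j x * φ x = ∫ x in Ω, g' j x * φ x := by
      symm
      refine setIntegral_eq_integral_of_forall_compl_eq_zero fun x hx => ?_
      simp only [hg', ha0 x (hnΩ x hx), hd0 j x (hnΩ x hx), zero_mul, add_zero]
    have i1 : Integrable (fun x => f' x * dbar j φ x) (volume.restrict Ω) :=
      hfm.1.integrable_mul hdφm
    have i2 : Integrable (fun x => (dbar j a x * f x) * φ x) (volume.restrict Ω) :=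
      (hg2 j).1.integrable_mul hφm
    have i3 : Integrable (fun x => (a x * g j x) * φ x) (volume.restrict Ω) :=
      (hg1 j).1.integrable_mul hφm
    have e3 : ∫ x in Ω, f x * dbar j (fun x => a x * φ x) x =
        (∫ x in Ω, f' x * dbar j φ x) + ∫ x in Ω, (dbar j a x * f x) * φ x := by
      rw [← integral_add i1 i2]
      refine integral_congr_ae (Eventually.of_forall fun x => ?_)
      simp only [hf']
      rw [re1_dbar_mul has hφ.smooth j x]
      ring
    have e4 : ∫ x in Ω, g j x * (a x * φ x) = ∫ x in Ω, (a x * g j x) * φ x := by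
      refine integral_congr_ae (Eventually.of_forall fun x => ?_)
      ring
    have e5 : ∫ x in Ω, g' j x * φ x = (∫ x in Ω, (a x * g j x) * φ x) +
        ∫ x in Ω, (dbar j a x * f x) * φ x := by
      rw [← integral_add i3 i2]
      refine integral_congr_ae (Eventually.of_forall fun x => ?_)
      simp only [hg']
      ring
    rw [e1, e2, e5]
    rw [e3, e4] at key
    linear_combination key
  have hout : ∀ x, R < ‖x‖ → f' x = 0 := by
    intro x hx
    simp only [hf', ha0 x (hKR x hx), zero_mul]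
  have hfin := hmain f' g' hfm.2 hgm hout hweak
  -- the left hand side
  have hsq : ∀ {μ : Measure E3} {F : E3 → ℂ}, MemLp F 2 μ → Integrable (fun x => ‖F x‖ ^ 2) μ :=
    fun hF => hF.norm.integrable_sq
  have l1 : ∫ x in K, ‖f x‖ ^ 2 ≤ ∫ x, ‖f' x‖ ^ 2 := by
    have : ∫ x in K, ‖f x‖ ^ 2 = ∫ x in K, ‖f' x‖ ^ 2 := by
      refine setIntegral_congr_fun hK.measurableSet fun x hx => ?_
      simp only [hf', ha, hχ1 x hx, ofReal_one, one_mul]
    rw [this]
    exact setIntegral_le_integral (hsq hfm.2) (Eventually.of_forall fun x => sq_nonneg _)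
  -- the functionals
  have l2 : ∀ i, ∫ x, f' x * h i x = L i f := by
    intro i
    rw [hL i f]
    have : ∫ x, f' x * h i x = ∫ x in Ω, f' x * h i x := by
      symm
      refine setIntegral_eq_integral_of_forall_compl_eq_zero fun x hx => ?_
      simp only [hf', ha0 x (hnΩ x hx), zero_mul]
    rw [this]
    refine integral_congr_ae (Eventually.of_forall fun x => ?_)
    simp only [hf']
    ring
  -- the derivative terms
  have l3 : ∀ j, ∫ x, ‖g' j x‖ ^ 2 ≤ 2 * ‖g j‖ ^ 2 + 2 * D ^ 2 * ‖f‖ ^ 2 := by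
    intro j
    have e1 : ∫ x, ‖g' j x‖ ^ 2 = ∫ x in Ω, ‖g' j x‖ ^ 2 := by
      symm
      refine setIntegral_eq_integral_of_forall_compl_eq_zero fun x hx => ?_
      simp only [hg', ha0 x (hnΩ x hx), hd0 j x (hnΩ x hx), zero_mul, add_zero, norm_zero]
      norm_num
    rw [e1, re1_Lp_normsq (g j), re1_Lp_normsq f, ← integral_const_mul, ← integral_const_mul,
      ← integral_add ((hsq (Lp.memLp (g j))).const_mul _) ((hsq (Lp.memLp f)).const_mul _)]
    refine integral_mono ((hsq ((hg1 j).1.add (hg2 j).1)))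
      (((hsq (Lp.memLp (g j))).const_mul _).add ((hsq (Lp.memLp f)).const_mul _)) ?_
    intro x
    have h1 : ‖a x * g j x + dbar j a x * f x‖ ≤ ‖g j x‖ + D * ‖f x‖ := by
      refine (norm_add_le _ _).trans ?_
      rw [norm_mul, norm_mul]
      have h2 : ‖a x‖ * ‖g j x‖ ≤ 1 * ‖g j x‖ :=
        mul_le_mul_of_nonneg_right (ha1 x) (norm_nonneg _)
      have h3 : ‖dbar j a x‖ * ‖f x‖ ≤ D * ‖f x‖ :=
        mul_le_mul_of_nonneg_right (hD j x) (norm_nonneg _)
      linarith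
    have h2 : ‖a x * g j x + dbar j a x * f x‖ ^ 2 ≤ (‖g j x‖ + D * ‖f x‖) ^ 2 :=
      pow_le_pow_left₀ (norm_nonneg _) h1 2
    have h3 : (‖g j x‖ + D * ‖f x‖) ^ 2 ≤ 2 * ‖g j x‖ ^ 2 + 2 * D ^ 2 * ‖f x‖ ^ 2 := by
      nlinarith [sq_nonneg (‖g j x‖ - D * ‖f x‖)]
    exact h2.trans h3
  have hgn : ‖g‖ ^ 2 = ∑ j, ‖g j‖ ^ 2 := PiLp.norm_sq_eq_of_L2 _ g
  have l4 : ∑ j, ∫ x, ‖g' j x‖ ^ 2 ≤ (2 + 6 * D ^ 2) * (‖f‖ ^ 2 + ‖g‖ ^ 2) := by
    calc ∑ j, ∫ x, ‖g' j x‖ ^ 2 ≤ ∑ j : Fin 3, (2 * ‖g j‖ ^ 2 + 2 * D ^ 2 * ‖f‖ ^ 2) :=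
          Finset.sum_le_sum fun j _ => l3 j
      _ = 2 * ‖g‖ ^ 2 + 6 * D ^ 2 * ‖f‖ ^ 2 := by
          rw [Finset.sum_add_distrib, ← Finset.mul_sum, ← hgn, Finset.sum_const,
            Finset.card_univ, Fintype.card_fin, nsmul_eq_mul]
          push_cast
          ring
      _ ≤ _ := by
          nlinarith [sq_nonneg ‖f‖, sq_nonneg ‖g‖, mul_nonneg (sq_nonneg D) (sq_nonneg ‖g‖)]
  have l5 : ε' * ∑ j, ∫ x, ‖g' j x‖ ^ 2 ≤ ε * (‖f‖ ^ 2 + ‖g‖ ^ 2) := by
    calc ε' * ∑ j, ∫ x, ‖g' j x‖ ^ 2 ≤ ε' * ((2 + 6 * D ^ 2) * (‖f‖ ^ 2 + ‖g‖ ^ 2)) :=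
          mul_le_mul_of_nonneg_left l4 hε'0.le
      _ = _ := by
          rw [hε']
          field_simp
  simp only [l2] at hfin
  linarith

end DbarC.JR1
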