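import Pool.Agent.H314.DC.R0
import Pool.Agent.H314.DC.R1
import Pool.Agent.H314.DN.G3
import Pool.Agent.H314.DN.E1

set_option autoImplicit false

open MeasureTheory Complex Filter Topology
open scoped ContDiff InnerProductSpace ENNReal ComplexConjugate

namespace DbarC.JR2.JR2
open DbarN DbarC.JR0 DbarC.JR0.RE0aux

/-! The theorem proved here is `DbarC.JR2.re2 : RE2_stmt` with NO hypothesis (it uses the landed
`DC/R0.lean`, `DC/R1.lean`, `DN/G3.lean`, `DN/E1.lean` and a vector valued version `re0v` of the Fourier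
argument of `re0`; `RE0_stmt` of `St1.lean` parses wrongly and is not used). -/

/-- the eigenvalue for `∂_j` -/
noncomputable def lamz (s : ℝ) (n : dd → ℤ) (j : Fin 3) : ℂ := - conj (lam s n j)

theorem lamz_eq (s : ℝ) (n : dd → ℤ) (j : Fin 3) : lamz s n j =
    (1 / 2) * (-(2 * Real.pi * I / s)) * ((n (j, 0) : ℂ) - I * (n (j, 1) : ℂ)) := by
  unfold lamz lam
  simp only [map_mul, map_div₀, map_one, map_ofNat, map_neg, map_add, conj_I, conj_ofReal,
    map_intCast]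
  ring

theorem dz_ee (s : ℝ) (n : dd → ℤ) (j : Fin 3) (x : E3) :
    dz j (ee s n) x = lamz s n j * ee s n x := by
  have h1 : HasFDerivAt (ee s n) (ee s n x • (-(2 * Real.pi * I / s) • phiL n)) x := by
    have h2 := (((phiL n).hasFDerivAt (x := x)).const_mul (-(2 * Real.pi * I / s))).cexp
    rw [ee_eq]
    exact h2
  unfold dz
  rw [h1.fderiv]
  simp only [smul_apply, smul_eq_mul, phiL_single, Complex.one_re,
    Complex.one_im, Complex.I_re, Complex.I_im]
  rw [lamz_eq]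
  push_cast
  ring

theorem dz_cut (R : ℝ) (s : ℝ) (n : dd → ℤ) (j : Fin 3) (χ : ContDiffBump (0 : E3))
    (hχ : R < χ.rIn) (x : E3) (hx : ‖x‖ ≤ R) :
    dz j (fun y => (χ y : ℂ) * ee s n y) x = lamz s n j * ee s n x := by
  have h1 : (fun y => (χ y : ℂ) * ee s n y) =ᶠ[𝓝 x] ee s n := by
    have h2 : x ∈ Metric.ball (0 : E3) χ.rIn := by
      rw [mem_ball_zero_iff]
      linarith
    filter_upwards [χ.eventuallyEq_one_of_mem_ball h2] with y hy
    rw [hy]
    simp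
  rw [← dz_ee]
  unfold dz
  rw [h1.fderiv_eq]

theorem lagr (l u : Fin 3 → ℂ) (D : ℂ) (W : Fin 3 → ℂ) (hD : ∑ j, l j * u j = -D)
    (hW : ∀ k : Fin 3, (-conj (l (k + 2))) * u (k + 1) - (-conj (l (k + 1))) * u (k + 2) = - W k) :
    (∑ j, ‖l j‖ ^ 2) * (∑ j, ‖u j‖ ^ 2) = ‖D‖ ^ 2 + ∑ k, ‖W k‖ ^ 2 := by
  have hD' : D = -∑ j, l j * u j := by rw [hD, neg_neg]
  have hW0 : W 0 = conj (l 2) * u 1 - conj (l 1) * u 2 := by
    have := hW 0
    simp only [zero_add] at this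
    linear_combination this
  have hW1 : W 1 = conj (l 0) * u 2 - conj (l 2) * u 0 := by
    have := hW 1
    rw [show (1 + 2 : Fin 3) = 0 from rfl, show (1 + 1 : Fin 3) = 2 from rfl] at this
    linear_combination this
  have hW2 : W 2 = conj (l 1) * u 0 - conj (l 0) * u 1 := by
    have := hW 2
    rw [show (2 + 2 : Fin 3) = 1 from rfl, show (2 + 1 : Fin 3) = 0 from rfl] at this
    linear_combination this
  apply Complex.ofReal_injective
  simp only [Fin.sum_univ_three] at hD' ⊢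
  rw [hW0, hW1, hW2, hD']
  push_cast
  simp only [← Complex.mul_conj']
  simp only [map_neg, map_add, map_sub, map_mul, Complex.conj_conj]
  ring

theorem sum_ineq1 (c ε X B : ℝ) (hc : 0 < c) (S : Finset (dd → ℤ))
    (a b : (dd → ℤ) → ℝ) (ha : HasSum a (c * X))
    (hb0 : ∀ n, 0 ≤ b n) (hε : 0 < ε) (hb : HasSum b (c * B))
    (hab : ∀ n, n ∉ S → a n ≤ ε * b n) :
    X ≤ ε * B + ∑ n ∈ S, a n / c := by
  classical
  have h1 : HasSum (fun n => ε * b n) (ε * (c * B)) := hb.mul_left ε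
  have h2 : HasSum (fun n => if n ∈ S then a n else 0) (∑ n ∈ S, a n) := by
    have h3 : HasSum (fun n => if n ∈ S then a n else 0)
        (∑ n ∈ S, (if n ∈ S then a n else 0)) :=
      hasSum_sum_of_ne_finset_zero (fun n hn => by simp [hn])
    rwa [Finset.sum_congr rfl (fun n hn => if_pos hn)] at h3
  have h4 := hasSum_le (fun n => (by
    by_cases hn : n ∈ S
    · simp only [hn, if_true]
      have : 0 ≤ ε * b n := mul_nonneg hε.le (hb0 n)
      linarith
    · simp only [hn, if_false, zero_add]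
      exact hab n hn : a n ≤ (if n ∈ S then a n else 0) + ε * b n)) ha (h2.add h1)
  rw [← Finset.sum_div]
  have h5 : c * X ≤ c * (ε * B + (∑ n ∈ S, a n) / c) := by
    rw [mul_add, mul_div_cancel₀ _ hc.ne']
    linarith
  exact le_of_mul_le_mul_left h5 hc

/-- vector valued Rellich theorem for the `∂̄`-divergence and the formal adjoint of `∂̄` -/
theorem re0v : ∀ R ε : ℝ, 0 < R → 0 < ε → ∃ (m : ℕ) (h : Fin m → E3 → ℂ),
    (∀ i, MemLp (h i) 2 (volume : Measure E3)) ∧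
    ∀ (u : Fin 3 → E3 → ℂ) (D : E3 → ℂ) (W : Fin 3 → E3 → ℂ),
      (∀ j, MemLp (u j) 2 (volume : Measure E3)) → MemLp D 2 (volume : Measure E3) →
      (∀ j, MemLp (W j) 2 (volume : Measure E3)) → (∀ j x, R < ‖x‖ → u j x = 0) →
      (∀ φ, IsTest Set.univ φ → ∫ x, (∑ j, u j x * dbar j φ x) = - ∫ x, D x * φ x) →
      (∀ (k : Fin 3) φ, IsTest Set.univ φ →
        ∫ x, (u (k + 1) x * dz (k + 2) φ x - u (k + 2) x * dz (k + 1) φ x) =
          - ∫ x, W k x * φ x) →
      ∑ j, (∫ x, ‖u j x‖ ^ 2) ≤ ε * ((∫ x, ‖D x‖ ^ 2) + ∑ k, (∫ x, ‖W k x‖ ^ 2)) +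
        ∑ i, ∑ j, ‖∫ x, u j x * h i x‖ ^ 2 := by
  intro R ε hR hε
  obtain ⟨s, hs⟩ : ∃ s : ℝ, s = 2 * (R + 2) := ⟨_, rfl⟩
  have hs0 : 0 < s := by rw [hs]; linarith
  obtain ⟨c, hc, hpar⟩ := parseval3 s hs0
  obtain ⟨χ, hin, hout⟩ : ∃ χ : ContDiffBump (0 : E3), χ.rIn = R + 1 ∧ χ.rOut = R + 2 :=
    ⟨⟨R + 1, R + 2, by linarith, by linarith⟩, rfl, rfl⟩
  obtain ⟨N, hN1, hN⟩ : ∃ N : ℕ, 1 ≤ N ∧ s ^ 2 / (Real.pi ^ 2 * N) ≤ ε := by
    obtain ⟨N, hN⟩ := exists_nat_gt (s ^ 2 / (Real.pi ^ 2 * ε))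
    have hpi := Real.pi_pos
    have h0 : 0 < s ^ 2 / (Real.pi ^ 2 * ε) := by positivity
    have hN0 : (0 : ℝ) < N := h0.trans hN
    refine ⟨N, by exact_mod_cast hN0, ?_⟩
    rw [div_lt_iff₀ (by positivity)] at hN
    rw [div_le_iff₀ (by positivity)]
    nlinarith
  obtain ⟨S, hS⟩ : ∃ S : Finset (dd → ℤ),
      S = Fintype.piFinset (fun _ : dd => Finset.Icc (-(N : ℤ)) N) := ⟨_, rfl⟩
  have hbig : ∀ x : E3, (∃ j, s / 2 ≤ |(x j).re| ∨ s / 2 ≤ |(x j).im|) → R + 2 ≤ ‖x‖ := by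
    rintro x ⟨j, hj⟩
    have h1 : ‖x j‖ ≤ ‖x‖ := norm_le_pi_norm x j
    have h2 := Complex.abs_re_le_norm (x j)
    have h3 := Complex.abs_im_le_norm (x j)
    rcases hj with h | h <;> linarith
  refine ⟨S.card, fun i => fun y => ((Real.sqrt c)⁻¹ : ℂ) *
    ((χ y : ℂ) * ee s (S.equivFin.symm i : dd → ℤ) y), fun i => cut_memLp s _ χ _, ?_⟩
  intro u D W hu hD hW hsup hdb hdz
  have hχm : AEStronglyMeasurable (fun y => (χ y : ℂ)) (volume : Measure E3) :=
    (Complex.continuous_ofReal.comp χ.continuous).aestronglyMeasurable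
  have hχle : ∀ (G : E3 → ℂ) (x : E3), ‖(χ x : ℂ) * G x‖ ≤ ‖G x‖ := by
    intro G x
    rw [norm_mul, Complex.norm_real, Real.norm_of_nonneg χ.nonneg]
    exact mul_le_of_le_one_left (norm_nonneg _) χ.le_one
  have hχL : ∀ G : E3 → ℂ, MemLp G 2 (volume : Measure E3) →
      MemLp (fun x => (χ x : ℂ) * G x) 2 (volume : Measure E3) := by
    intro G hG
    refine hG.mono (hχm.mul hG.aestronglyMeasurable) ?_
    filter_upwards with x
    exact hχle G x
  have hχI : ∀ G : E3 → ℂ, MemLp G 2 (volume : Measure E3) →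
      ∫ x, ‖(χ x : ℂ) * G x‖ ^ 2 ≤ ∫ x, ‖G x‖ ^ 2 := by
    intro G hG
    apply integral_mono
    · exact (memLp_two_iff_integrable_sq_norm (hχL G hG).aestronglyMeasurable).1 (hχL G hG)
    · exact (memLp_two_iff_integrable_sq_norm hG.aestronglyMeasurable).1 hG
    · intro x
      exact pow_le_pow_left₀ (norm_nonneg _) (hχle G x) 2
  have hu0 : ∀ j, ∀ x : E3, (∃ j, s / 2 ≤ |(x j).re| ∨ s / 2 ≤ |(x j).im|) → u j x = 0 := by
    intro j x hx
    have := hbig x hx
    exact hsup j x (by linarith)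
  have hG0 : ∀ G : E3 → ℂ, ∀ x : E3, (∃ j, s / 2 ≤ |(x j).re| ∨ s / 2 ≤ |(x j).im|) →
      (χ x : ℂ) * G x = 0 := by
    intro G x hx
    have h1 := hbig x hx
    have h2 : χ x = 0 := χ.zero_of_le_dist (by rw [dist_zero_right, hout]; exact h1)
    rw [h2]
    simp
  have ha := fun j => hpar (u j) (hu j) (hu0 j)
  have hbD := hpar _ (hχL D hD) (hG0 D)
  have hbW := fun k => hpar _ (hχL (W k) (hW k)) (hG0 (W k))
  have hcut : ∀ (j : Fin 3) (n : dd → ℤ) (x : E3),
      u j x * ((χ x : ℂ) * ee s n x) = ee s n x * u j x := by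
    intro j n x
    by_cases hx : R < ‖x‖
    · rw [hsup j x hx]
      ring
    · push Not at hx
      have h1 : χ x = 1 := χ.one_of_mem_closedBall (by
        rw [mem_closedBall_zero_iff, hin]
        linarith)
      rw [h1]
      push_cast
      ring
  have hint : ∀ j n, Integrable (fun x => ee s n x * u j x) (volume : Measure E3) := by
    intro j n
    have h1 : MemLp (fun y => (χ y : ℂ) * ee s n y) 2 (volume : Measure E3) := by
      have := cut_memLp s n χ 1
      simpa using this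
    have h2 := (hu j).integrable_mul h1
    refine h2.congr ?_
    filter_upwards with x
    exact hcut j n x
  have hrelD : ∀ n, ∑ j, lam s n j * ∫ x, ee s n x * u j x =
      - ∫ x, ee s n x * ((χ x : ℂ) * D x) := by
    intro n
    have h1 := hdb _ (cut_test s n χ)
    have h2 : ∫ x, (∑ j, u j x * dbar j (fun y => (χ y : ℂ) * ee s n y) x) =
        ∑ j, lam s n j * ∫ x, ee s n x * u j x := by
      have h4 : ∀ x, ∑ j, u j x * dbar j (fun y => (χ y : ℂ) * ee s n y) x =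
          ∑ j, lam s n j * (ee s n x * u j x) := by
        intro x
        refine Finset.sum_congr rfl fun j _ => ?_
        by_cases hx : R < ‖x‖
        · rw [hsup j x hx]
          ring
        · push Not at hx
          rw [dbar_cut R s n j χ (by rw [hin]; linarith) x hx]
          ring
      rw [integral_congr_ae (Eventually.of_forall h4),
        integral_finsetSum _ (fun j _ => (hint j n).const_mul _)]
      exact Finset.sum_congr rfl fun j _ => integral_const_mul _ _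
    have h3 : ∫ x, D x * ((χ x : ℂ) * ee s n x) = ∫ x, ee s n x * ((χ x : ℂ) * D x) := by
      apply integral_congr_ae
      filter_upwards with x
      ring
    rw [← h2, h1, h3]
  have hrelW : ∀ n (k : Fin 3), (-conj (lam s n (k + 2))) * (∫ x, ee s n x * u (k + 1) x) -
      (-conj (lam s n (k + 1))) * (∫ x, ee s n x * u (k + 2) x) =
      - ∫ x, ee s n x * ((χ x : ℂ) * W k x) := by
    intro n k
    have h1 := hdz k _ (cut_test s n χ)
    have h2 : ∫ x, (u (k + 1) x * dz (k + 2) (fun y => (χ y : ℂ) * ee s n y) x -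
        u (k + 2) x * dz (k + 1) (fun y => (χ y : ℂ) * ee s n y) x) =
        (-conj (lam s n (k + 2))) * (∫ x, ee s n x * u (k + 1) x) -
        (-conj (lam s n (k + 1))) * (∫ x, ee s n x * u (k + 2) x) := by
      have h4 : ∀ x, u (k + 1) x * dz (k + 2) (fun y => (χ y : ℂ) * ee s n y) x -
          u (k + 2) x * dz (k + 1) (fun y => (χ y : ℂ) * ee s n y) x =
          lamz s n (k + 2) * (ee s n x * u (k + 1) x) -
          lamz s n (k + 1) * (ee s n x * u (k + 2) x) := by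
        intro x
        by_cases hx : R < ‖x‖
        · rw [hsup (k + 1) x hx, hsup (k + 2) x hx]
          ring
        · push Not at hx
          rw [dz_cut R s n (k + 2) χ (by rw [hin]; linarith) x hx,
            dz_cut R s n (k + 1) χ (by rw [hin]; linarith) x hx]
          ring
      rw [integral_congr_ae (Eventually.of_forall h4),
        integral_sub ((hint _ n).const_mul _) ((hint _ n).const_mul _),
        integral_const_mul, integral_const_mul]
      rfl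
    have h3 : ∫ x, W k x * ((χ x : ℂ) * ee s n x) =
        ∫ x, ee s n x * ((χ x : ℂ) * W k x) := by
      apply integral_congr_ae
      filter_upwards with x
      ring
    rw [← h2, h1, h3]
  have hlag := fun n => lagr (lam s n) (fun j => ∫ x, ee s n x * u j x)
    (∫ x, ee s n x * ((χ x : ℂ) * D x)) (fun k => ∫ x, ee s n x * ((χ x : ℂ) * W k x))
    (hrelD n) (hrelW n)
  have hA : HasSum (fun n : dd → ℤ => ∑ j, ‖∫ x, ee s n x * u j x‖ ^ 2)
      (c * ∑ j, (∫ x, ‖u j x‖ ^ 2)) := by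
    rw [Finset.mul_sum]
    exact hasSum_sum fun j _ => ha j
  have hB : HasSum (fun n : dd → ℤ => ‖∫ x, ee s n x * ((χ x : ℂ) * D x)‖ ^ 2 +
      ∑ k, ‖∫ x, ee s n x * ((χ x : ℂ) * W k x)‖ ^ 2)
      (c * ((∫ x, ‖(χ x : ℂ) * D x‖ ^ 2) + ∑ k, (∫ x, ‖(χ x : ℂ) * W k x‖ ^ 2))) := by
    rw [mul_add, Finset.mul_sum]
    exact hbD.add (hasSum_sum fun k _ => hbW k)
  have hmain := sum_ineq1 c ε _ _ hc S _ _ hA (fun n => add_nonneg (sq_nonneg _)
    (Finset.sum_nonneg fun k _ => sq_nonneg _)) hε hB (by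
      intro n hn
      rw [hS] at hn
      have h1 := key_ineq s ε hs0 N hN1 hN n hn (∑ j, ‖∫ x, ee s n x * u j x‖ ^ 2)
        (Finset.sum_nonneg fun j _ => sq_nonneg _)
        (fun j => ‖lam s n j‖ ^ 2 * ∑ j, ‖∫ x, ee s n x * u j x‖ ^ 2)
        (fun j => mul_nonneg (sq_nonneg _) (Finset.sum_nonneg fun j _ => sq_nonneg _))
        (fun j => rfl)
      rw [← Finset.sum_mul, hlag n] at h1
      exact h1)
  have hGle : (∫ x, ‖(χ x : ℂ) * D x‖ ^ 2) + ∑ k, (∫ x, ‖(χ x : ℂ) * W k x‖ ^ 2) ≤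
      (∫ x, ‖D x‖ ^ 2) + ∑ k, (∫ x, ‖W k x‖ ^ 2) :=
    add_le_add (hχI D hD) (Finset.sum_le_sum fun k _ => hχI (W k) (hW k))
  have hlast : ∑ n ∈ S, (∑ j, ‖∫ x, ee s n x * u j x‖ ^ 2) / c =
      ∑ i : Fin S.card, ∑ j, ‖∫ x, u j x * (((Real.sqrt c)⁻¹ : ℂ) *
        ((χ x : ℂ) * ee s (S.equivFin.symm i : dd → ℤ) x))‖ ^ 2 := by
    have h1 : ∀ (n : dd → ℤ) (j : Fin 3), ‖∫ x, u j x * (((Real.sqrt c)⁻¹ : ℂ) *
        ((χ x : ℂ) * ee s n x))‖ ^ 2 = ‖∫ x, ee s n x * u j x‖ ^ 2 / c := by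
      intro n j
      have h2 : ∫ x, u j x * (((Real.sqrt c)⁻¹ : ℂ) * ((χ x : ℂ) * ee s n x)) =
          ((Real.sqrt c)⁻¹ : ℂ) * ∫ x, ee s n x * u j x := by
        rw [← integral_const_mul]
        apply integral_congr_ae
        filter_upwards with x
        rw [← hcut j n x]
        ring
      rw [h2, norm_mul, mul_pow, norm_inv, Complex.norm_real,
        Real.norm_of_nonneg (Real.sqrt_nonneg _), inv_pow, Real.sq_sqrt hc.le]
      rw [div_eq_inv_mul]
    rw [← Finset.sum_coe_sort S, ← S.equivFin.symm.sum_comp]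
    apply Finset.sum_congr rfl
    intro i _
    rw [Finset.sum_div]
    exact Finset.sum_congr rfl fun j _ => (h1 _ j).symm
  rw [← hlast]
  exact hmain.trans (add_le_add (mul_le_mul_of_nonneg_left hGle hε.le) le_rfl)


open DbarN.JG3.G3 in
theorem dbar1_test {Ω : Set E3} (ψ : Fin 3 → E3 → ℂ) (hψ : ∀ j, IsTest Ω (ψ j))
    (ht : ∀ i : Fin 3, IsTest Ω (fun x => dbar (i + 1) (ψ (i + 2)) x -
      dbar (i + 2) (ψ (i + 1)) x)) :
    IsDbar1 Ω (WithLp.toLp 2 (fun i => (test_memLp (hψ i)).toLp _))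
      (WithLp.toLp 2 (fun i => (test_memLp (ht i)).toLp _)) := by
  intro i φ hφ
  have I1 : ∀ j k : Fin 3, Integrable (fun x => ψ j x * dbar k φ x)
      ((volume : Measure E3).restrict Ω) := fun j k =>
    (int_mul (hψ j).smooth.continuous (hψ j).compact
      (dbar_isTest hφ k).smooth.continuous).integrableOn
  have I2 : ∀ j k : Fin 3, Integrable (fun x => dbar k (ψ j) x * φ x)
      ((volume : Measure E3).restrict Ω) := fun j k =>
    (int_mul (dbar_isTest (hψ j) k).smooth.continuous (dbar_isTest (hψ j) k).compact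
      hφ.smooth.continuous).integrableOn
  have h1 : ∫ x in Ω, (((test_memLp (hψ (i + 2))).toLp _ : E3 → ℂ) x * dbar (i + 1) φ x -
      ((test_memLp (hψ (i + 1))).toLp _ : E3 → ℂ) x * dbar (i + 2) φ x) =
      ∫ x in Ω, (ψ (i + 2) x * dbar (i + 1) φ x - ψ (i + 1) x * dbar (i + 2) φ x) := by
    refine integral_congr_ae ?_
    filter_upwards [(test_memLp (hψ (i + 2))).coeFn_toLp,
      (test_memLp (hψ (i + 1))).coeFn_toLp] with x hx hx'
    rw [hx, hx']
  have h2 : ∫ x in Ω, ((test_memLp (ht i)).toLp _ : E3 → ℂ) x * φ x =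
      ∫ x in Ω, (dbar (i + 1) (ψ (i + 2)) x - dbar (i + 2) (ψ (i + 1)) x) * φ x := by
    refine integral_congr_ae ?_
    filter_upwards [(test_memLp (ht i)).coeFn_toLp] with x hx
    rw [hx]
  have h3 : ∫ x in Ω, (dbar (i + 1) (ψ (i + 2)) x - dbar (i + 2) (ψ (i + 1)) x) * φ x =
      (∫ x in Ω, dbar (i + 1) (ψ (i + 2)) x * φ x) - ∫ x in Ω, dbar (i + 2) (ψ (i + 1)) x * φ x := by
    rw [← integral_sub (I2 _ _) (I2 _ _)]
    refine integral_congr_ae (Eventually.of_forall fun x => ?_)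
    simp only
    ring
  refine h1.trans ?_
  rw [integral_sub (I1 _ _) (I1 _ _), ibpΩ (hψ _) hφ, ibpΩ (hψ _) hφ]
  refine Eq.trans ?_ (congrArg Neg.neg h2.symm)
  rw [h3]
  ring

open DbarN.JG3.G3 in
theorem adj_gen {Ω : Set E3} {c w : Form Ω} (h : IsAdj1 Ω c w) (ψ : Fin 3 → E3 → ℂ)
    (hψ : ∀ j, IsTest Ω (ψ j)) :
    ∑ i : Fin 3, ∫ x in Ω, c i x * conj (dbar (i + 1) (ψ (i + 2)) x - dbar (i + 2) (ψ (i + 1)) x) =
      ∑ i : Fin 3, ∫ x in Ω, w i x * conj (ψ i x) := by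
  have ht : ∀ i : Fin 3, IsTest Ω (fun x => dbar (i + 1) (ψ (i + 2)) x -
      dbar (i + 2) (ψ (i + 1)) x) := fun i =>
    test_sub (dbar_isTest (hψ _) _) (dbar_isTest (hψ _) _)
  have h1 := h _ _ (dbar1_test ψ hψ ht)
  rw [PiLp.inner_apply, PiLp.inner_apply] at h1
  have h2 : ∀ (i : Fin 3) (g : L2 Ω) (η : E3 → ℂ) (hη : MemLp η 2 ((volume : Measure E3).restrict Ω)),
      inner ℂ (hη.toLp η) g = ∫ x in Ω, g x * conj (η x) := by
    intro i g η hη
    rw [L2.inner_def]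
    refine integral_congr_ae ?_
    filter_upwards [hη.coeFn_toLp] with x hx
    rw [hx, RCLike.inner_apply]
  calc _ = ∑ i : Fin 3, inner ℂ ((test_memLp (ht i)).toLp _) (c i) :=
        Finset.sum_congr rfl fun i _ => (h2 i (c i) _ _).symm
    _ = ∑ i : Fin 3, inner ℂ ((test_memLp (hψ i)).toLp _) (w i) := h1
    _ = _ := Finset.sum_congr rfl fun i _ => h2 i (w i) _ _


open DbarN.JG3.G3 in
theorem conj_test {Ω : Set E3} {φ : E3 → ℂ} (h : IsTest Ω φ) :
    IsTest Ω (fun x => conj (φ x)) := by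
  have hs : Function.support (fun x => conj (φ x)) ⊆ Function.support φ := by
    intro x hx h0
    apply hx
    show conj (φ x) = 0
    rw [h0, map_zero]
  refine ⟨DbarN.JE1.conj_smooth h.smooth, h.compact.mono hs, (closure_mono hs).trans h.supp⟩

open DbarN.JG3.G3 in
theorem adj_test {Ω : Set E3} {c w : Form Ω} (h : IsAdj1 Ω c w) (k : Fin 3) {φ : E3 → ℂ}
    (hφ : IsTest Ω φ) :
    ∫ x in Ω, (c (k + 1) x * dz (k + 2) φ x - c (k + 2) x * dz (k + 1) φ x) =
      ∫ x in Ω, w k x * φ x := by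
  have hc := conj_test hφ
  have hdz : ∀ j, ∀ x, conj (dbar j (fun x => conj (φ x)) x) = dz j φ x := by
    intro j x
    rw [DbarN.JE1.dbar_conj hφ.smooth, Complex.conj_conj]
  have h0 : ∀ (j : Fin 3) (x : E3), dbar j (fun _ => (0 : ℂ)) x = 0 := by
    intro j x
    unfold dbar
    simp
  have hψ : ∀ j, IsTest Ω ((fun j : Fin 3 => if j = k then (fun x => conj (φ x)) else
      (fun _ => (0 : ℂ))) j) := by
    intro j
    by_cases hj : j = k
    · simp only [hj, if_true]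
      exact hc
    · simp only [hj, if_false]
      exact test_zero
  have key := adj_gen h _ hψ
  have hdzm : ∀ j, MemLp (dz j φ) 2 ((volume : Measure E3).restrict Ω) := by
    intro j
    have h1 : MemLp (fun x => conj (dbar j (fun x => conj (φ x)) x)) 2
        ((volume : Measure E3).restrict Ω) := (test_memLp (dbar_isTest hc j)).star
    refine (memLp_congr_ae (Eventually.of_forall fun x => ?_)).mp h1
    exact hdz j x
  have hI : ∀ i j : Fin 3, Integrable (fun x => c i x * dz j φ x)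
      ((volume : Measure E3).restrict Ω) := fun i j =>
    (Lp.memLp (c i)).integrable_mul (hdzm j)
  rw [integral_sub (hI _ _) (hI _ _)]
  rw [Fin.sum_univ_three, Fin.sum_univ_three] at key
  fin_cases k
  · simp [h0, hdz] at key
    simp
    rw [← key]
    rw [sub_eq_add_neg, ← integral_neg]
  · simp [h0, hdz] at key
    simp
    rw [← key]
    rw [integral_neg]
    ring
  · simp [h0, hdz] at key
    simp
    rw [← key]
    rw [integral_neg]
    ring


open DbarC.JR1 in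
theorem re2 : RE2_stmt := by
  intro Ω hΩ K hK hKΩ ε hε
  obtain ⟨χ, K2, hχs, hK2, hK2Ω, hsupp, hχ01, hχ1⟩ := re1_cutoff K Ω hK hΩ hKΩ
  set a : E3 → ℂ := fun x => (χ x : ℂ) with ha
  have has : ContDiff ℝ ∞ a := ofRealCLM.contDiff.comp hχs
  have hac : Continuous a := has.continuous
  have hasupp : tsupport a ⊆ K2 := by
    refine (closure_mono ?_).trans hsupp
    intro x hx
    simp only [ha, Function.mem_support, ne_eq, ofReal_eq_zero] at hx
    exact hx
  have hacs : HasCompactSupport a := hK2.of_isClosed_subset (isClosed_tsupport _) hasupp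
  have ha0 : ∀ x, x ∉ K2 → a x = 0 := by
    intro x hx
    by_contra h
    exact hx (hasupp (subset_tsupport a h))
  have ha1 : ∀ x, ‖a x‖ ≤ 1 := by
    intro x
    simp only [ha, norm_real, Real.norm_eq_abs]
    rw [abs_of_nonneg (hχ01 x).1]
    exact (hχ01 x).2
  have hdc : ∀ j, Continuous (dbar j a) := fun j => re1_dbar_cont has j
  have hd0 : ∀ j x, x ∉ K2 → dbar j a x = 0 := by
    intro j x hx
    by_contra h
    exact hx (hasupp (re1_dbar_supp j h))
  have hdcs : ∀ j, HasCompactSupport (dbar j a) := fun j => hacs.mono' (re1_dbar_supp j)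
  have haconj : (fun x => conj (a x)) = a := by
    funext x
    simp only [ha, conj_ofReal]
  have hdza : ∀ j x, dz j a x = conj (dbar j a x) := by
    intro j x
    have h1 := DbarN.JE1.dbar_conj has j x
    rw [haconj] at h1
    rw [h1, Complex.conj_conj]
  have hzc : ∀ j, Continuous (dz j a) := fun j => (DbarN.JE1.dz_smooth has j).continuous
  have hz0 : ∀ j x, x ∉ K2 → dz j a x = 0 := by
    intro j x hx
    rw [hdza, hd0 j x hx, map_zero]
  have hDj : ∀ j : Fin 3, ∃ D : ℝ, ∀ x, ‖dbar j a x‖ ≤ D := by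
    intro j
    exact (hdc j).bounded_above_of_compact_support (hdcs j)
  choose D0 hD0 using hDj
  set D : ℝ := 1 + ∑ i, |D0 i| with hDdef
  have hD : ∀ j x, ‖dbar j a x‖ ≤ D := by
    intro j x
    refine (hD0 j x).trans ((le_abs_self _).trans ?_)
    have := Finset.single_le_sum (f := fun i => |D0 i|) (fun i _ => abs_nonneg (D0 i))
      (Finset.mem_univ j)
    simp only [hDdef]
    linarith
  have hDpos : 0 < D := by
    have := Finset.sum_nonneg (s := Finset.univ) (f := fun i => |D0 i|)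
      (fun i _ => abs_nonneg (D0 i))
    simp only [hDdef]
    linarith
  have hDz : ∀ j x, ‖dz j a x‖ ≤ D := by
    intro j x
    rw [hdza, RCLike.norm_conj]
    exact hD j x
  obtain ⟨R0, hR0⟩ := hK2.isBounded.exists_norm_le
  set R : ℝ := max R0 1 with hR
  have hRpos : 0 < R := lt_of_lt_of_le one_pos (le_max_right _ _)
  have hKR : ∀ x, R < ‖x‖ → x ∉ K2 := by
    intro x hx h
    have := hR0 x h
    have := le_max_left R0 1
    linarith
  have hnΩ : ∀ x, x ∉ Ω → x ∉ K2 := fun x hx h => hx (hK2Ω h)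
  set ε' : ℝ := ε / (3 + 9 * D ^ 2) with hε'
  have hε'0 : 0 < ε' := by positivity
  obtain ⟨m, h, hh, hmain⟩ := re0v R ε' hRpos hε'0
  have hhm : ∀ i, MemLp (fun x => a x * h i x) 2 ((volume : Measure E3).restrict Ω) := fun i =>
    (re1_mul_memLp hΩ.measurableSet hac ha1 ((hh i).restrict Ω)
      (fun x hx => ha0 x (hnΩ x hx))).1
  choose L hL using fun i => re1_pairing Ω _ (hhm i)
  refine ⟨m * 3, fun p => (L (finProdFinEquiv.symm p).1).comp
    (PiLp.proj 2 (fun _ : Fin 3 => L2 Ω) (finProdFinEquiv.symm p).2), ?_⟩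
  intro c w hclosed hadj
  set u : Fin 3 → E3 → ℂ := fun j x => a x * c j x with hu
  set DD : E3 → ℂ := fun x => ∑ j, dbar j a x * c j x with hDD
  set WW : Fin 3 → E3 → ℂ := fun k x => -(a x * w k x) +
    (dz (k + 2) a x * c (k + 1) x - dz (k + 1) a x * c (k + 2) x) with hWW
  have hum := fun j => re1_mul_memLp hΩ.measurableSet hac ha1 (Lp.memLp (c j))
    (fun x hx => ha0 x (hnΩ x hx))
  have hwm := fun j => re1_mul_memLp hΩ.measurableSet hac ha1 (Lp.memLp (w j))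
    (fun x hx => ha0 x (hnΩ x hx))
  have hdm := fun i j => re1_mul_memLp hΩ.measurableSet (hdc i) (hD i) (Lp.memLp (c j))
    (fun x hx => hd0 i x (hnΩ x hx))
  have hzm := fun i j => re1_mul_memLp hΩ.measurableSet (hzc i) (hDz i) (Lp.memLp (c j))
    (fun x hx => hz0 i x (hnΩ x hx))
  have hDDm : MemLp DD 2 (volume.restrict Ω) ∧ MemLp DD 2 (volume : Measure E3) :=
    ⟨memLp_finsetSum _ fun j _ => (hdm j j).1, memLp_finsetSum _ fun j _ => (hdm j j).2⟩
  have hWWm : ∀ k, MemLp (WW k) 2 (volume.restrict Ω) ∧ MemLp (WW k) 2 (volume : Measure E3) :=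
    fun k => ⟨(hwm k).1.neg.add ((hzm (k + 2) (k + 1)).1.sub (hzm (k + 1) (k + 2)).1),
      (hwm k).2.neg.add ((hzm (k + 2) (k + 1)).2.sub (hzm (k + 1) (k + 2)).2)⟩
  have haφ : ∀ φ : E3 → ℂ, IsTest Set.univ φ → IsTest Ω (fun x => a x * φ x) := by
    intro φ hφ
    refine ⟨has.mul hφ.smooth, hacs.mul_right, ?_⟩
    refine (closure_mono ?_).trans (hasupp.trans hK2Ω)
    intro x hx
    simp only [Function.mem_support, ne_eq, mul_eq_zero, not_or] at hx
    exact hx.1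
  have hφm : ∀ φ : E3 → ℂ, IsTest Set.univ φ → MemLp φ 2 ((volume : Measure E3).restrict Ω) :=
    fun φ hφ => (hφ.smooth.continuous.memLp_of_hasCompactSupport hφ.compact
      (μ := volume)).restrict Ω
  have hdφm : ∀ (φ : E3 → ℂ) (j : Fin 3), IsTest Set.univ φ →
      MemLp (dbar j φ) 2 ((volume : Measure E3).restrict Ω) :=
    fun φ j hφ => hφm _ (DbarN.JG3.G3.dbar_isTest hφ j)
  have hzφm : ∀ (φ : E3 → ℂ) (j : Fin 3), IsTest Set.univ φ →
      MemLp (dz j φ) 2 ((volume : Measure E3).restrict Ω) := by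
    intro φ j hφ
    have h1 : MemLp (fun x => conj (dbar j (fun x => conj (φ x)) x)) 2
        ((volume : Measure E3).restrict Ω) :=
      (hdφm _ j (conj_test hφ)).star
    refine (memLp_congr_ae (Eventually.of_forall fun x => ?_)).mp h1
    show conj (dbar j (fun x => conj (φ x)) x) = dz j φ x
    rw [DbarN.JE1.dbar_conj hφ.smooth, Complex.conj_conj]
  have hsetint : ∀ G : E3 → ℂ, (∀ x, x ∉ Ω → G x = 0) → ∫ x, G x = ∫ x in Ω, G x :=
    fun G hG => (setIntegral_eq_integral_of_forall_compl_eq_zero hG).symm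
  have hu0 : ∀ j x, x ∉ Ω → u j x = 0 := by
    intro j x hx
    simp only [hu, ha0 x (hnΩ x hx), zero_mul]
  have hDD0 : ∀ x, x ∉ Ω → DD x = 0 := by
    intro x hx
    simp only [hDD, hd0 _ x (hnΩ x hx), zero_mul, Finset.sum_const_zero]
  have hWW0 : ∀ k x, x ∉ Ω → WW k x = 0 := by
    intro k x hx
    simp only [hWW, hz0 _ x (hnΩ x hx), ha0 x (hnΩ x hx), zero_mul, sub_zero, neg_zero, add_zero]
  have hweakD : ∀ φ, IsTest Set.univ φ →
      ∫ x, (∑ j, u j x * dbar j φ x) = - ∫ x, DD x * φ x := by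
    intro φ hφ
    have key := hclosed _ (haφ φ hφ)
    have e : ∀ x, ∑ i : Fin 3, c i x * dbar i (fun x => a x * φ x) x =
        (∑ j, u j x * dbar j φ x) + DD x * φ x := by
      intro x
      simp only [hu, hDD, Finset.sum_mul]
      rw [← Finset.sum_add_distrib]
      refine Finset.sum_congr rfl fun j _ => ?_
      rw [DbarN.JE1.dbar_mul has hφ.smooth]
      ring
    have i1 : Integrable (fun x => ∑ j, u j x * dbar j φ x) (volume.restrict Ω) :=
      integrable_finsetSum _ fun j _ => (hum j).1.integrable_mul (hdφm φ j hφ)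
    have i2 : Integrable (fun x => DD x * φ x) (volume.restrict Ω) :=
      hDDm.1.integrable_mul (hφm φ hφ)
    rw [integral_congr_ae (Eventually.of_forall e), integral_add i1 i2] at key
    rw [hsetint _ (fun x hx => Finset.sum_eq_zero fun j _ => by rw [hu0 j x hx, zero_mul]),
      hsetint _ (fun x hx => by rw [hDD0 x hx, zero_mul])]
    linear_combination key
  have hweakW : ∀ (k : Fin 3) φ, IsTest Set.univ φ →
      ∫ x, (u (k + 1) x * dz (k + 2) φ x - u (k + 2) x * dz (k + 1) φ x) =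
        - ∫ x, WW k x * φ x := by
    intro k φ hφ
    have key := adj_test hadj k (haφ φ hφ)
    have e : ∀ x, c (k + 1) x * dz (k + 2) (fun x => a x * φ x) x -
        c (k + 2) x * dz (k + 1) (fun x => a x * φ x) x =
        (u (k + 1) x * dz (k + 2) φ x - u (k + 2) x * dz (k + 1) φ x) +
        (WW k x * φ x + (a x * w k x) * φ x) := by
      intro x
      simp only [hu, hWW]
      rw [DbarN.JE1.dz_mul has hφ.smooth, DbarN.JE1.dz_mul has hφ.smooth]
      ring
    have e2 : ∫ x in Ω, w k x * (a x * φ x) = ∫ x in Ω, (a x * w k x) * φ x := by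
      refine integral_congr_ae (Eventually.of_forall fun x => ?_)
      ring
    have i1 : Integrable (fun x => u (k + 1) x * dz (k + 2) φ x - u (k + 2) x * dz (k + 1) φ x)
        (volume.restrict Ω) :=
      ((hum (k + 1)).1.integrable_mul (hzφm φ (k + 2) hφ)).sub
        ((hum (k + 2)).1.integrable_mul (hzφm φ (k + 1) hφ))
    have i2 : Integrable (fun x => WW k x * φ x) (volume.restrict Ω) :=
      (hWWm k).1.integrable_mul (hφm φ hφ)
    have i3 : Integrable (fun x => (a x * w k x) * φ x) (volume.restrict Ω) :=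
      (hwm k).1.integrable_mul (hφm φ hφ)
    have i4 : Integrable (fun x => WW k x * φ x + (a x * w k x) * φ x) (volume.restrict Ω) :=
      i2.add i3
    rw [integral_congr_ae (Eventually.of_forall e), integral_add i1 i4,
      integral_add i2 i3, e2] at key
    rw [hsetint _ (fun x hx => by rw [hu0 (k + 1) x hx, hu0 (k + 2) x hx, zero_mul, zero_mul,
      sub_zero]), hsetint _ (fun x hx => by rw [hWW0 k x hx, zero_mul])]
    linear_combination key
  have hout : ∀ j x, R < ‖x‖ → u j x = 0 := by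
    intro j x hx
    simp only [hu, ha0 x (hKR x hx), zero_mul]
  have hfin := hmain u DD WW (fun j => (hum j).2) hDDm.2 (fun k => (hWWm k).2) hout hweakD hweakW
  have hsq : ∀ {μ : Measure E3} {F : E3 → ℂ}, MemLp F 2 μ → Integrable (fun x => ‖F x‖ ^ 2) μ :=
    fun hF => hF.norm.integrable_sq
  have l1 : ∀ j, ∫ x in K, ‖c j x‖ ^ 2 ≤ ∫ x, ‖u j x‖ ^ 2 := by
    intro j
    have h1 : ∫ x in K, ‖c j x‖ ^ 2 = ∫ x in K, ‖u j x‖ ^ 2 := by
      refine setIntegral_congr_fun hK.measurableSet fun x hx => ?_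
      simp only [hu, ha, hχ1 x hx, ofReal_one, one_mul]
    rw [h1]
    exact setIntegral_le_integral (hsq (hum j).2) (Eventually.of_forall fun x => sq_nonneg _)
  have l2 : ∀ i j, ∫ x, u j x * h i x = L i (c j) := by
    intro i j
    rw [hL i (c j), hsetint _ (fun x hx => by rw [hu0 j x hx, zero_mul])]
    refine integral_congr_ae (Eventually.of_forall fun x => ?_)
    simp only [hu]
    ring
  have hcn : ‖c‖ ^ 2 = ∑ j, ‖c j‖ ^ 2 := PiLp.norm_sq_eq_of_L2 _ c
  have hwn : ‖w‖ ^ 2 = ∑ j, ‖w j‖ ^ 2 := PiLp.norm_sq_eq_of_L2 _ w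
  have hint2 : ∀ f : L2 Ω, Integrable (fun x => ‖f x‖ ^ 2) (volume.restrict Ω) := fun f =>
    hsq (Lp.memLp f)
  have lD : ∫ x, ‖DD x‖ ^ 2 ≤ 3 * D ^ 2 * ‖c‖ ^ 2 := by
    have e1 : ∫ x, ‖DD x‖ ^ 2 = ∫ x in Ω, ‖DD x‖ ^ 2 := by
      symm
      refine setIntegral_eq_integral_of_forall_compl_eq_zero fun x hx => ?_
      rw [hDD0 x hx, norm_zero]
      norm_num
    have e2 : 3 * D ^ 2 * ‖c‖ ^ 2 = ∫ x in Ω, 3 * D ^ 2 * (∑ j, ‖c j x‖ ^ 2) := by
      rw [integral_const_mul, integral_finsetSum _ (fun j _ => hint2 (c j)), hcn]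
      congr 1
      exact Finset.sum_congr rfl fun j _ => re1_Lp_normsq (c j)
    rw [e1, e2]
    refine integral_mono (hsq hDDm.1)
      ((integrable_finsetSum _ fun j _ => hint2 (c j)).const_mul _) ?_
    intro x
    have h1 : ‖DD x‖ ≤ D * ‖c 0 x‖ + D * ‖c 1 x‖ + D * ‖c 2 x‖ := by
      simp only [hDD, Fin.sum_univ_three]
      refine (norm_add₃_le).trans ?_
      rw [norm_mul, norm_mul, norm_mul]
      exact add_le_add (add_le_add (mul_le_mul_of_nonneg_right (hD 0 x) (norm_nonneg _))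
        (mul_le_mul_of_nonneg_right (hD 1 x) (norm_nonneg _)))
        (mul_le_mul_of_nonneg_right (hD 2 x) (norm_nonneg _))
    have h2 : ‖DD x‖ ^ 2 ≤ (D * ‖c 0 x‖ + D * ‖c 1 x‖ + D * ‖c 2 x‖) ^ 2 :=
      pow_le_pow_left₀ (norm_nonneg _) h1 2
    show ‖DD x‖ ^ 2 ≤ 3 * D ^ 2 * (∑ j, ‖c j x‖ ^ 2)
    rw [Fin.sum_univ_three]
    refine h2.trans ?_
    nlinarith [sq_nonneg (D * ‖c 0 x‖ - D * ‖c 1 x‖), sq_nonneg (D * ‖c 1 x‖ - D * ‖c 2 x‖),
      sq_nonneg (D * ‖c 0 x‖ - D * ‖c 2 x‖)]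
  have lW : ∀ k, ∫ x, ‖WW k x‖ ^ 2 ≤ 3 * ‖w k‖ ^ 2 + 3 * D ^ 2 * ‖c (k + 1)‖ ^ 2 +
      3 * D ^ 2 * ‖c (k + 2)‖ ^ 2 := by
    intro k
    have e1 : ∫ x, ‖WW k x‖ ^ 2 = ∫ x in Ω, ‖WW k x‖ ^ 2 := by
      symm
      refine setIntegral_eq_integral_of_forall_compl_eq_zero fun x hx => ?_
      rw [hWW0 k x hx, norm_zero]
      norm_num
    have e2 : 3 * ‖w k‖ ^ 2 + 3 * D ^ 2 * ‖c (k + 1)‖ ^ 2 + 3 * D ^ 2 * ‖c (k + 2)‖ ^ 2 =
        ∫ x in Ω, (3 * ‖w k x‖ ^ 2 + 3 * D ^ 2 * ‖c (k + 1) x‖ ^ 2 +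
          3 * D ^ 2 * ‖c (k + 2) x‖ ^ 2) := by
      have j1 : Integrable (fun x => 3 * ‖w k x‖ ^ 2) (volume.restrict Ω) :=
        (hint2 (w k)).const_mul _
      have j2 : Integrable (fun x => 3 * D ^ 2 * ‖c (k + 1) x‖ ^ 2) (volume.restrict Ω) :=
        (hint2 (c (k + 1))).const_mul _
      have j3 : Integrable (fun x => 3 * D ^ 2 * ‖c (k + 2) x‖ ^ 2) (volume.restrict Ω) :=
        (hint2 (c (k + 2))).const_mul _
      have j4 : Integrable (fun x => 3 * ‖w k x‖ ^ 2 + 3 * D ^ 2 * ‖c (k + 1) x‖ ^ 2)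
        (volume.restrict Ω) := j1.add j2
      rw [integral_add j4 j3, integral_add j1 j2, integral_const_mul, integral_const_mul,
        integral_const_mul, re1_Lp_normsq, re1_Lp_normsq, re1_Lp_normsq]
    rw [e1, e2]
    refine integral_mono (hsq (hWWm k).1) ((((hint2 (w k)).const_mul _).add
      ((hint2 (c (k + 1))).const_mul _)).add ((hint2 (c (k + 2))).const_mul _)) ?_
    intro x
    have h1 : ‖WW k x‖ ≤ ‖w k x‖ + D * ‖c (k + 1) x‖ + D * ‖c (k + 2) x‖ := by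
      simp only [hWW]
      refine (norm_add_le _ _).trans ?_
      rw [norm_neg, norm_mul]
      have h3 := norm_sub_le (dz (k + 2) a x * c (k + 1) x) (dz (k + 1) a x * c (k + 2) x)
      rw [norm_mul, norm_mul] at h3
      have h4 : ‖a x‖ * ‖w k x‖ ≤ 1 * ‖w k x‖ :=
        mul_le_mul_of_nonneg_right (ha1 x) (norm_nonneg _)
      have h5 : ‖dz (k + 2) a x‖ * ‖c (k + 1) x‖ ≤ D * ‖c (k + 1) x‖ :=
        mul_le_mul_of_nonneg_right (hDz _ x) (norm_nonneg _)
      have h6 : ‖dz (k + 1) a x‖ * ‖c (k + 2) x‖ ≤ D * ‖c (k + 2) x‖ :=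
        mul_le_mul_of_nonneg_right (hDz _ x) (norm_nonneg _)
      linarith
    have h2 : ‖WW k x‖ ^ 2 ≤ (‖w k x‖ + D * ‖c (k + 1) x‖ + D * ‖c (k + 2) x‖) ^ 2 :=
      pow_le_pow_left₀ (norm_nonneg _) h1 2
    show ‖WW k x‖ ^ 2 ≤ 3 * ‖w k x‖ ^ 2 + 3 * D ^ 2 * ‖c (k + 1) x‖ ^ 2 +
          3 * D ^ 2 * ‖c (k + 2) x‖ ^ 2
    refine h2.trans ?_
    nlinarith [sq_nonneg (‖w k x‖ - D * ‖c (k + 1) x‖),
      sq_nonneg (D * ‖c (k + 1) x‖ - D * ‖c (k + 2) x‖), sq_nonneg (‖w k x‖ - D * ‖c (k + 2) x‖)]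
  have lW2 : ∑ k, (∫ x, ‖WW k x‖ ^ 2) ≤ 3 * ‖w‖ ^ 2 + 6 * D ^ 2 * ‖c‖ ^ 2 := by
    have h0 := lW 0
    have h1 := lW 1
    have h2 := lW 2
    rw [show (1 + 2 : Fin 3) = 0 from rfl, show (1 + 1 : Fin 3) = 2 from rfl] at h1
    rw [show (2 + 2 : Fin 3) = 1 from rfl, show (2 + 1 : Fin 3) = 0 from rfl] at h2
    rw [zero_add, zero_add] at h0
    rw [hcn, hwn, Fin.sum_univ_three, Fin.sum_univ_three, Fin.sum_univ_three]
    linarith
  have l5 : ε' * ((∫ x, ‖DD x‖ ^ 2) + ∑ k, (∫ x, ‖WW k x‖ ^ 2)) ≤ ε * (‖c‖ ^ 2 + ‖w‖ ^ 2) := by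
    have h1 : (∫ x, ‖DD x‖ ^ 2) + ∑ k, (∫ x, ‖WW k x‖ ^ 2) ≤
        (3 + 9 * D ^ 2) * (‖c‖ ^ 2 + ‖w‖ ^ 2) := by
      nlinarith [sq_nonneg ‖c‖, sq_nonneg ‖w‖, mul_nonneg (sq_nonneg D) (sq_nonneg ‖w‖)]
    calc _ ≤ ε' * ((3 + 9 * D ^ 2) * (‖c‖ ^ 2 + ‖w‖ ^ 2)) :=
          mul_le_mul_of_nonneg_left h1 hε'0.le
      _ = _ := by
          rw [hε']
          field_simp
  have l6 : ∑ p : Fin (m * 3), ‖((L (finProdFinEquiv.symm p).1).comp
      (PiLp.proj 2 (fun _ : Fin 3 => L2 Ω) (finProdFinEquiv.symm p).2)) c‖ ^ 2 =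
      ∑ i, ∑ j, ‖∫ x, u j x * h i x‖ ^ 2 := by
    rw [← finProdFinEquiv.sum_comp, Fintype.sum_prod_type]
    refine Finset.sum_congr rfl fun i _ => Finset.sum_congr rfl fun j _ => ?_
    rw [Equiv.symm_apply_apply, l2 i j]
    rfl
  rw [l6]
  have l7 : ∑ j, (∫ x in K, ‖c j x‖ ^ 2) ≤ ∑ j, ∫ x, ‖u j x‖ ^ 2 :=
    Finset.sum_le_sum fun j _ => l1 j
  linarith

end DbarC.JR2.JR2
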