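import Pool.Agent.H314.DC.St2

set_option autoImplicit false

open MeasureTheory Complex Filter Topology
open scoped ContDiff InnerProductSpace ENNReal ComplexConjugate

namespace DbarC.JSMj
open DbarN

theorem sm_hess_formula (P : E3 → ℝ) (hP : ContDiff ℝ ∞ P) (x : E3) (j k : Fin 3) :
    Hess P j k x = (1 / 4) *
      (((fderiv ℝ (fderiv ℝ P) x (Pi.single j 1) (Pi.single k 1) : ℝ) : ℂ)
        + I * ((fderiv ℝ (fderiv ℝ P) x (Pi.single j 1) (Pi.single k I) : ℝ) : ℂ)
        - I * ((fderiv ℝ (fderiv ℝ P) x (Pi.single j I) (Pi.single k 1) : ℝ) : ℂ)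
        + ((fderiv ℝ (fderiv ℝ P) x (Pi.single j I) (Pi.single k I) : ℝ) : ℂ)) := by
  have hd : Differentiable ℝ P := hP.differentiable (by simp)
  have hF : ContDiff ℝ 1 (fderiv ℝ P) := hP.fderiv_right (by norm_cast)
  have hFd : Differentiable ℝ (fderiv ℝ P) := hF.differentiable (by simp)
  have h1 : ∀ y v, fderiv ℝ (Ph P) y v = ((fderiv ℝ P y v : ℝ) : ℂ) := by
    intro y v
    have : HasFDerivAt (Ph P) (Complex.ofRealCLM.comp (fderiv ℝ P y)) y :=
      Complex.ofRealCLM.hasFDerivAt.comp y (hd y).hasFDerivAt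
    rw [this.fderiv]
    rfl
  have h2 : dbar k (Ph P) = fun y => (1 / 2) * (((fderiv ℝ P y (Pi.single k 1) : ℝ) : ℂ)
      + I * ((fderiv ℝ P y (Pi.single k I) : ℝ) : ℂ)) := by
    funext y
    unfold dbar
    rw [h1, h1]
  have h3 : ∀ v : E3, HasFDerivAt (fun y => ((fderiv ℝ P y v : ℝ) : ℂ))
      (Complex.ofRealCLM.comp ((ContinuousLinearMap.apply ℝ ℝ v).comp (fderiv ℝ (fderiv ℝ P) x))) x := by
    intro v
    exact Complex.ofRealCLM.hasFDerivAt.comp x
      ((ContinuousLinearMap.apply ℝ ℝ v).hasFDerivAt.comp x (hFd x).hasFDerivAt)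
  have h4 : HasFDerivAt (dbar k (Ph P))
      ((1 / 2 : ℂ) • ((Complex.ofRealCLM.comp ((ContinuousLinearMap.apply ℝ ℝ (Pi.single k 1 : E3)).comp
          (fderiv ℝ (fderiv ℝ P) x)))
        + I • (Complex.ofRealCLM.comp ((ContinuousLinearMap.apply ℝ ℝ (Pi.single k I : E3)).comp
          (fderiv ℝ (fderiv ℝ P) x))))) x := by
    rw [h2]
    exact ((h3 (Pi.single k 1)).add ((h3 (Pi.single k I)).const_mul I)).const_mul (1 / 2 : ℂ)
  unfold Hess dz
  rw [h4.fderiv]
  simp only [smul_apply, add_apply, ContinuousLinearMap.comp_apply,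
    Complex.ofRealCLM_apply, ContinuousLinearMap.apply_apply, smul_eq_mul]
  linear_combination (-(1/4 : ℂ) * ((fderiv ℝ (fderiv ℝ P) x (Pi.single j I) (Pi.single k I) : ℝ) : ℂ)) * Complex.I_mul_I

/-- the Levi form through the real Hessian -/
theorem sm_lev (P : E3 → ℝ) (hP : ContDiff ℝ ∞ P) (x : E3) (a : Fin 3 → ℂ) :
    Lev P x a = (1 / 4) * (fderiv ℝ (fderiv ℝ P) x a a +
      fderiv ℝ (fderiv ℝ P) x (fun j => I * a j) (fun j => I * a j)) := by
  unfold Lev
  obtain ⟨B, hB⟩ : ∃ B, B = fderiv ℝ (fderiv ℝ P) x := ⟨_, rfl⟩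
  rw [← hB]
  have hs1 : ∀ j, (Pi.single j (a j) : E3) = (a j).re • (Pi.single j (1:ℂ) : E3) + (a j).im • (Pi.single j I : E3) := by
    intro j
    rw [← Pi.single_smul, ← Pi.single_smul, ← Pi.single_add]
    congr 1
    rw [Complex.real_smul, Complex.real_smul, mul_one]
    exact (Complex.re_add_im (a j)).symm
  have hs2 : ∀ j, (Pi.single j (I * a j) : E3) =
      (-(a j).im) • (Pi.single j (1:ℂ) : E3) + (a j).re • (Pi.single j I : E3) := by
    intro j
    rw [← Pi.single_smul, ← Pi.single_smul, ← Pi.single_add]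
    congr 1
    rw [Complex.real_smul, Complex.real_smul, mul_one]
    apply Complex.ext <;> simp
  have hexp : ∀ f : Fin 3 → ℂ, B f f = ∑ j, ∑ k, B (Pi.single j (f j) : E3) (Pi.single k (f k) : E3) := by
    intro f
    have e : f = ∑ j, (Pi.single j (f j) : E3) := (Finset.univ_sum_single f).symm
    have e1 : B f = ∑ j, B (Pi.single j (f j) : E3) :=
      (congrArg (fun w => B w) e).trans (map_sum _ _ _)
    rw [e1, sum_apply]
    apply Finset.sum_congr rfl
    intro j _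
    exact (congrArg (fun w => B (Pi.single j (f j) : E3) w) e).trans (map_sum _ _ _)
  have hterm : ∀ j k, (Hess P j k x * a j * conj (a k)).re =
      (1 / 4) * (B (Pi.single j (a j) : E3) (Pi.single k (a k) : E3)
        + B (Pi.single j (I * a j) : E3) (Pi.single k (I * a k) : E3)) := by
    intro j k
    rw [sm_hess_formula P hP x j k, ← hB, hs1 j, hs1 k, hs2 j, hs2 k]
    simp only [map_add, map_smul, add_apply, smul_apply, smul_eq_mul]
    obtain ⟨b00, h00⟩ : ∃ b, b = B (Pi.single j (1:ℂ) : E3) (Pi.single k (1:ℂ) : E3) := ⟨_, rfl⟩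
    obtain ⟨b01, h01⟩ : ∃ b, b = B (Pi.single j (1:ℂ) : E3) (Pi.single k I : E3) := ⟨_, rfl⟩
    obtain ⟨b10, h10⟩ : ∃ b, b = B (Pi.single j I : E3) (Pi.single k (1:ℂ) : E3) := ⟨_, rfl⟩
    obtain ⟨b11, h11⟩ : ∃ b, b = B (Pi.single j I : E3) (Pi.single k I : E3) := ⟨_, rfl⟩
    rw [← h00, ← h01, ← h10, ← h11]
    have e1 : (1 / 4 : ℂ) * (((b00 : ℝ) : ℂ) + I * ((b01 : ℝ) : ℂ) - I * ((b10 : ℝ) : ℂ) + ((b11 : ℝ) : ℂ)) =
        (((b00 + b11) / 4 : ℝ) : ℂ) + (((b01 - b10) / 4 : ℝ) : ℂ) * I := by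
      push_cast
      ring
    rw [e1]
    simp only [Complex.mul_re, Complex.mul_im, Complex.add_re, Complex.add_im, Complex.ofReal_re,
      Complex.ofReal_im, Complex.I_re, Complex.I_im, Complex.conj_re, Complex.conj_im]
    ring
  rw [hexp a, hexp (fun j => I * a j), ← Finset.sum_add_distrib, Finset.mul_sum, Complex.re_sum]
  apply Finset.sum_congr rfl
  intro j _
  rw [← Finset.sum_add_distrib, Finset.mul_sum, Complex.re_sum]
  apply Finset.sum_congr rfl
  intro k _
  exact hterm j k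

theorem sm_swap (f : ℝ → ℝ → ℝ) (hf : Continuous (Function.uncurry f)) (a b c d : ℝ)
    (hab : a ≤ b) (hcd : c ≤ d) :
    (∫ x in a..b, ∫ y in c..d, f x y) = ∫ y in c..d, ∫ x in a..b, f x y := by
  simp only [intervalIntegral.integral_of_le hab, intervalIntegral.integral_of_le hcd]
  refine integral_integral_swap ?_
  rw [Measure.prod_restrict]
  have h1 : IntegrableOn (Function.uncurry f) (Set.Icc a b ×ˢ Set.Icc c d) (volume.prod volume) :=
    hf.continuousOn.integrableOn_compact (isCompact_Icc.prod isCompact_Icc)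
  exact h1.mono_set (Set.prod_mono Set.Ioc_subset_Icc_self Set.Ioc_subset_Icc_self)

theorem sm : SM_stmt := by
  intro u hu a b hL
  have hd : Differentiable ℝ u := hu.differentiable (by simp)
  have hF : ContDiff ℝ 1 (fderiv ℝ u) := hu.fderiv_right (by norm_cast)
  have hFd : Differentiable ℝ (fderiv ℝ u) := hF.differentiable (by simp)
  have hFc : Continuous (fderiv ℝ u) := hF.continuous
  have hFFc : Continuous (fderiv ℝ (fderiv ℝ u)) := hF.continuous_fderiv (by norm_num)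
  obtain ⟨e, he⟩ : ∃ e : ℝ → ℂ, e = fun θ : ℝ => Complex.exp ((θ : ℂ) * I) := ⟨_, rfl⟩
  have hec : Continuous e := by rw [he]; fun_prop
  have hed : ∀ θ, HasDerivAt e (e θ * I) θ := by
    intro θ
    rw [he]
    have h1 : HasDerivAt (fun θ : ℝ => (θ : ℂ) * I) I θ := by
      simpa using (Complex.ofRealCLM.hasDerivAt (x := θ)).mul_const I
    exact h1.cexp
  have hen : ∀ θ, ‖e θ‖ = 1 := by
    intro θ; rw [he]; exact Complex.norm_exp_ofReal_mul_I θ
  have hep : e (2 * Real.pi) = e 0 := by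
    rw [he]
    simp only
    push_cast
    rw [Complex.exp_two_pi_mul_I]
    simp
  let z : ℝ → ℝ → E3 := fun r θ => a + ((r : ℂ) * e θ) • b
  have hzc : Continuous (Function.uncurry z) := by
    show Continuous (fun p : ℝ × ℝ => a + (((p.1 : ℝ) : ℂ) * e p.2) • b)
    fun_prop
  let D1 : ℝ → ℝ → ℝ := fun r θ => fderiv ℝ u (z r θ) (e θ • b)
  let D2 : ℝ → ℝ → ℝ := fun r θ => fderiv ℝ (fderiv ℝ u) (z r θ) (e θ • b) (e θ • b)
  let D3 : ℝ → ℝ → ℝ := fun r θ => fderiv ℝ (fderiv ℝ u) (z r θ) ((I * e θ) • b) ((I * e θ) • b)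
  let W : ℝ → ℝ → ℝ := fun r θ => fderiv ℝ u (z r θ) ((I * e θ) • b)
  have hD1c : Continuous (Function.uncurry D1) := by
    show Continuous (fun p : ℝ × ℝ => fderiv ℝ u (Function.uncurry z p) (e p.2 • b))
    exact (hFc.comp hzc).clm_apply (by fun_prop)
  have hD2c : Continuous (Function.uncurry D2) := by
    show Continuous (fun p : ℝ × ℝ => fderiv ℝ (fderiv ℝ u) (Function.uncurry z p) (e p.2 • b) (e p.2 • b))
    exact ((hFFc.comp hzc).clm_apply (by fun_prop)).clm_apply (by fun_prop)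
  have hD3c : Continuous (Function.uncurry D3) := by
    show Continuous (fun p : ℝ × ℝ => fderiv ℝ (fderiv ℝ u) (Function.uncurry z p) ((I * e p.2) • b) ((I * e p.2) • b))
    exact ((hFFc.comp hzc).clm_apply (by fun_prop)).clm_apply (by fun_prop)
  have hzr : ∀ r θ, HasDerivAt (fun r => z r θ) (e θ • b) r := by
    intro r θ
    have h1 : HasDerivAt (fun r : ℝ => (r : ℂ) * e θ) (e θ) r := by
      simpa using (Complex.ofRealCLM.hasDerivAt (x := r)).mul_const (e θ)
    exact (h1.smul_const b).const_add a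
  have hzθ : ∀ r θ, HasDerivAt (fun θ => z r θ) (r • ((I * e θ) • b)) θ := by
    intro r θ
    have h1 : HasDerivAt (fun θ : ℝ => (r : ℂ) * e θ) ((r : ℂ) * (e θ * I)) θ := (hed θ).const_mul (r : ℂ)
    have h2 := (h1.smul_const b).const_add a
    have h5 : r • ((I * e θ) • b) = ((r : ℂ) * (e θ * I)) • b := by
      funext j
      simp only [Pi.smul_apply, smul_eq_mul, Complex.real_smul]
      ring
    rw [h5]
    exact h2
  have hVr : ∀ r θ, HasDerivAt (fun r => u (z r θ)) (D1 r θ) r := by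
    intro r θ
    exact (hd (z r θ)).hasFDerivAt.comp_hasDerivAt r (hzr r θ)
  have hD1r : ∀ r θ, HasDerivAt (fun r => D1 r θ) (D2 r θ) r := by
    intro r θ
    have h1 : HasDerivAt (fun r => fderiv ℝ u (z r θ)) (fderiv ℝ (fderiv ℝ u) (z r θ) (e θ • b)) r :=
      (hFd (z r θ)).hasFDerivAt.comp_hasDerivAt r (hzr r θ)
    have h2 := h1.clm_apply (hasDerivAt_const r (e θ • b))
    simpa using h2
  have hrD1 : ∀ r θ, HasDerivAt (fun r => r * D1 r θ) (D1 r θ + r * D2 r θ) r := by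
    intro r θ
    have h2 : HasDerivAt (fun r : ℝ => r * D1 r θ) (1 * D1 r θ + r * D2 r θ) r :=
      (hasDerivAt_id' r).mul (hD1r r θ)
    rw [one_mul] at h2
    exact h2
  have hWθ : ∀ r θ, HasDerivAt (fun θ => W r θ) (r * D3 r θ - D1 r θ) θ := by
    intro r θ
    have h1 : HasDerivAt (fun θ => fderiv ℝ u (z r θ)) (fderiv ℝ (fderiv ℝ u) (z r θ) (r • ((I * e θ) • b))) θ :=
      (hFd (z r θ)).hasFDerivAt.comp_hasDerivAt θ (hzθ r θ)
    have h3 : HasDerivAt (fun θ => (I * e θ) • b) (-(e θ • b)) θ := by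
      have h4 := ((hed θ).const_mul I).smul_const b
      have h5 : -(e θ • b) = (I * (e θ * I)) • b := by
        funext j
        simp only [Pi.smul_apply, Pi.neg_apply, smul_eq_mul]
        linear_combination (-(e θ) * b j) * I_mul_I
      rw [h5]
      exact h4
    have h2 := h1.clm_apply h3
    have h6 : r * D3 r θ - D1 r θ = (fderiv ℝ (fderiv ℝ u) (z r θ) (r • ((I * e θ) • b))) ((I * e θ) • b) +
        (fderiv ℝ u (z r θ)) (-(e θ • b)) := by
      have h7 : fderiv ℝ (fderiv ℝ u) (z r θ) (r • ((I * e θ) • b)) = r • fderiv ℝ (fderiv ℝ u) (z r θ) ((I * e θ) • b) :=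
        map_smul _ r _
      have h8 : (fderiv ℝ u (z r θ)) (-(e θ • b)) = -(fderiv ℝ u (z r θ)) (e θ • b) := map_neg _ _
      rw [h7, h8]
      rfl
    rw [h6]
    exact h2
  have hpi : (0:ℝ) ≤ 2 * Real.pi := by positivity
  have hcθ : ∀ (D : ℝ → ℝ → ℝ), Continuous (Function.uncurry D) → ∀ r, Continuous (fun θ => D r θ) := by
    intro D hD r
    exact hD.comp (by fun_prop : Continuous (fun θ : ℝ => (r, θ)))
  have hcr : ∀ (D : ℝ → ℝ → ℝ), Continuous (Function.uncurry D) → ∀ θ, Continuous (fun r => D r θ) := by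
    intro D hD θ
    exact hD.comp (by fun_prop : Continuous (fun r : ℝ => (r, θ)))
  have hW0 : ∀ r, (∫ θ in (0:ℝ)..(2 * Real.pi), (r * D3 r θ - D1 r θ)) = 0 := by
    intro r
    rw [intervalIntegral.integral_eq_sub_of_hasDerivAt (fun θ _ => hWθ r θ)
      ((((hcθ D3 hD3c r).const_mul r).sub (hcθ D1 hD1c r)).intervalIntegrable _ _)]
    simp only [W, z]
    rw [hep, sub_self]
  have hlap : ∀ r ∈ Set.Icc (0:ℝ) 1, ∀ θ, 0 ≤ D2 r θ + D3 r θ := by
    intro r hr θ
    have h1 := hL ((r : ℂ) * e θ) (by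
      rw [norm_mul, hen, mul_one, Complex.norm_real, Real.norm_eq_abs, abs_of_nonneg hr.1]
      exact hr.2) (e θ • b)
    rw [sm_lev u hu] at h1
    have h2 : (fun j => I * (e θ • b) j) = (I * e θ) • b := by
      funext j
      simp only [Pi.smul_apply, smul_eq_mul]
      ring
    rw [h2] at h1
    show 0 ≤ fderiv ℝ (fderiv ℝ u) (a + ((r : ℂ) * e θ) • b) (e θ • b) (e θ • b) + fderiv ℝ (fderiv ℝ u) (a + ((r : ℂ) * e θ) • b) ((I * e θ) • b) ((I * e θ) • b)
    linarith
  have hh2 : ∀ r ∈ Set.Icc (0:ℝ) 1, 0 ≤ ∫ θ in (0:ℝ)..(2 * Real.pi), (D1 r θ + r * D2 r θ) := by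
    intro r hr
    have h1 : (∫ θ in (0:ℝ)..(2 * Real.pi), (D1 r θ + r * D2 r θ)) =
        ∫ θ in (0:ℝ)..(2 * Real.pi), (r * (D2 r θ + D3 r θ)) := by
      have i1 : IntervalIntegrable (fun θ => D1 r θ + r * D2 r θ) volume 0 (2 * Real.pi) :=
        ((hcθ D1 hD1c r).add ((hcθ D2 hD2c r).const_mul r)).intervalIntegrable _ _
      have i2 : IntervalIntegrable (fun θ => r * (D2 r θ + D3 r θ)) volume 0 (2 * Real.pi) :=
        (((hcθ D2 hD2c r).add (hcθ D3 hD3c r)).const_mul r).intervalIntegrable _ _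
      rw [← sub_eq_zero, ← intervalIntegral.integral_sub i1 i2]
      have h2 := hW0 r
      rw [← neg_eq_zero, ← intervalIntegral.integral_neg] at h2
      refine Eq.trans ?_ h2
      refine intervalIntegral.integral_congr (fun θ _ => ?_)
      ring
    rw [h1]
    exact intervalIntegral.integral_nonneg hpi (fun θ _ => mul_nonneg hr.1 (hlap r hr θ))
  have hrh : ∀ r ∈ Set.Icc (0:ℝ) 1, 0 ≤ r * ∫ θ in (0:ℝ)..(2 * Real.pi), D1 r θ := by
    intro r hr
    have h1 : ∀ θ, r * D1 r θ = ∫ s in (0:ℝ)..r, (D1 s θ + s * D2 s θ) := by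
      intro θ
      rw [intervalIntegral.integral_eq_sub_of_hasDerivAt (fun s _ => hrD1 s θ)
        (((hcr D1 hD1c θ).add (continuous_id.mul (hcr D2 hD2c θ))).intervalIntegrable _ _)]
      ring
    rw [← intervalIntegral.integral_const_mul]
    simp only [h1]
    rw [sm_swap (fun θ s => D1 s θ + s * D2 s θ) ?_ 0 (2 * Real.pi) 0 r hpi hr.1]
    · refine intervalIntegral.integral_nonneg hr.1 (fun s hs => ?_)
      exact hh2 s ⟨hs.1, hs.2.trans hr.2⟩
    · show Continuous (fun p : ℝ × ℝ => Function.uncurry D1 (p.2, p.1) + p.2 * Function.uncurry D2 (p.2, p.1))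
      exact (hD1c.comp (by fun_prop)).add (continuous_snd.mul (hD2c.comp (by fun_prop)))
  have hh1 : ∀ r ∈ Set.Icc (0:ℝ) 1, r ≠ 0 → 0 ≤ ∫ θ in (0:ℝ)..(2 * Real.pi), D1 r θ := by
    intro r hr hr0
    have hrpos : 0 < r := lt_of_le_of_ne hr.1 (Ne.symm hr0)
    exact (mul_nonneg_iff_of_pos_left hrpos).1 (hrh r hr)
  have hfin : 0 ≤ ∫ θ in (0:ℝ)..(2 * Real.pi), (u (z 1 θ) - u a) := by
    have h1 : ∀ θ, u (z 1 θ) - u a = ∫ s in (0:ℝ)..1, D1 s θ := by
      intro θ
      rw [intervalIntegral.integral_eq_sub_of_hasDerivAt (fun s _ => hVr s θ)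
        ((hcr D1 hD1c θ).intervalIntegrable _ _)]
      have : z 0 θ = a := by simp [z]
      rw [this]
    simp only [h1]
    rw [sm_swap (fun θ s => D1 s θ) ?_ 0 (2 * Real.pi) 0 1 hpi zero_le_one]
    · rw [intervalIntegral.integral_of_le zero_le_one]
      refine setIntegral_nonneg measurableSet_Ioc (fun s hs => ?_)
      exact hh1 s ⟨hs.1.le, hs.2⟩ hs.1.ne'
    · show Continuous (fun p : ℝ × ℝ => Function.uncurry D1 (p.2, p.1))
      exact hD1c.comp (by fun_prop)
  have hz1 : ∀ θ : ℝ, z 1 θ = a + Complex.exp (θ * I) • b := by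
    intro θ
    simp [z, he]
  have hcu : Continuous (fun θ : ℝ => u (a + Complex.exp (θ * I) • b)) := by
    have : Continuous u := hd.continuous
    fun_prop
  simp only [hz1] at hfin
  rw [intervalIntegral.integral_sub (hcu.intervalIntegrable _ _) intervalIntegrable_const,
    intervalIntegral.integral_const, sub_zero, smul_eq_mul, sub_nonneg] at hfin
  rw [inv_mul_eq_div, le_div_iff₀ (by positivity)]
  linarith

end DbarC.JSMj
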