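import Pool.Agent.H314.DC.St3

set_option autoImplicit false

open MeasureTheory Complex Filter Topology
open scoped ContDiff InnerProductSpace ENNReal ComplexConjugate

namespace DbarC.JTA
open DbarN

theorem tl_all_mono (Ω Ki K : Set E3) (hK : IsCompact K) (hKi : Ki ⊆ K) (F h : E3 → ℂ)
    (hF : Continuous F) (hh : MemLp h 2 (volume.restrict Ω)) (R : ℝ) (hR : 0 ≤ R)
    (hle : ∫ x in Ω \ Ki, ‖F x - h x‖ ^ 2 ≤ R) : ∫ x in Ω \ K, ‖F x - h x‖ ^ 2 ≤ R := by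
  by_cases hint : IntegrableOn (fun x => ‖F x - h x‖ ^ 2) (Ω \ K) volume
  · have hfin : IsFiniteMeasure ((volume : Measure E3).restrict (Ω ∩ K)) := by
      constructor
      rw [Measure.restrict_apply_univ]
      exact (measure_mono Set.inter_subset_right).trans_lt hK.measure_lt_top
    obtain ⟨M, hM⟩ := (hK.image hF.norm).bddAbove
    have hFL : MemLp F 2 ((volume : Measure E3).restrict (Ω ∩ K)) := by
      apply MemLp.of_bound hF.aestronglyMeasurable M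
      apply ae_restrict_of_ae_restrict_of_subset (Set.inter_subset_right : Ω ∩ K ⊆ K)
      filter_upwards [ae_restrict_mem hK.measurableSet] with x hx
      exact hM ⟨x, hx, rfl⟩
    have hhL : MemLp h 2 ((volume : Measure E3).restrict (Ω ∩ K)) :=
      hh.mono_measure (Measure.restrict_mono Set.inter_subset_left le_rfl)
    have hsub := hFL.sub hhL
    have hint2 : IntegrableOn (fun x => ‖F x - h x‖ ^ 2) (Ω ∩ K) volume :=
      (memLp_two_iff_integrable_sq_norm hsub.1).1 hsub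
    have hint3 : IntegrableOn (fun x => ‖F x - h x‖ ^ 2) (Ω \ Ki) volume := by
      apply (hint.union hint2).mono_set
      rintro x ⟨hx1, _⟩
      by_cases hxK : x ∈ K
      · exact Or.inr ⟨hx1, hxK⟩
      · exact Or.inl ⟨hx1, hxK⟩
    refine le_trans ?_ hle
    apply setIntegral_mono_set hint3
    · exact Eventually.of_forall fun x => by positivity
    · exact (Set.sdiff_subset_sdiff_right hKi).eventuallyLE
  · have : ∫ x in Ω \ K, ‖F x - h x‖ ^ 2 = 0 := integral_undef hint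
    rw [this]
    exact hR

theorem tl_all (Ω : Set E3) (h1 : TL_prop Ω (fun j _ => j < 0)) (h2 : TL_prop Ω (fun _ k => k < 0))
    (h3 : TL_prop Ω (fun j k => 0 ≤ j ∧ 0 ≤ k)) : TL_prop Ω (fun _ _ => True) := by
  obtain ⟨C1, hC1, H1⟩ := h1
  obtain ⟨C2, hC2, H2⟩ := h2
  obtain ⟨C3, hC3, H3⟩ := h3
  refine ⟨C1 + C2 + C3, by positivity, fun η hη => ?_⟩
  obtain ⟨K1, hK1, hK1s, hK1r, G1⟩ := H1 η hη
  obtain ⟨K2, hK2, hK2s, hK2r, G2⟩ := H2 η hη
  obtain ⟨K3, hK3, hK3s, hK3r, G3⟩ := H3 η hη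
  have hK : IsCompact (K1 ∪ K2 ∪ K3) := (hK1.union hK2).union hK3
  refine ⟨K1 ∪ K2 ∪ K3, hK, Set.union_subset (Set.union_subset hK1s hK2s) hK3s, ?_, ?_⟩
  · intro θ₁ θ₂ x
    rw [Set.mem_union, Set.mem_union, Set.mem_union, Set.mem_union, hK1r, hK2r, hK3r]
  · intro j k _ F hF hmode
    have hS : 0 ≤ ∑ i, ∫ x in Ω, ‖dbar i F x‖ ^ 2 :=
      Finset.sum_nonneg fun i _ => integral_nonneg fun x => by positivity
    have fin : ∀ (C : ℝ) (Ki : Set E3), C ≤ C1 + C2 + C3 → Ki ⊆ K1 ∪ K2 ∪ K3 →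
        (∃ h : E3 → ℂ, MemLp h 2 (volume.restrict Ω) ∧
          (∀ (i : Fin 3) φ, IsTest Ω φ → ∫ x in Ω, h x * dbar i φ x = 0) ∧
          ∫ x in Ω, ‖F x - h x‖ ^ 2 ≤ C * ∑ i, ∫ x in Ω, ‖dbar i F x‖ ^ 2 ∧
          ∫ x in Ω \ Ki, ‖F x - h x‖ ^ 2 ≤ η * ∑ i, ∫ x in Ω, ‖dbar i F x‖ ^ 2) →
        ∃ h : E3 → ℂ, MemLp h 2 (volume.restrict Ω) ∧
          (∀ (i : Fin 3) φ, IsTest Ω φ → ∫ x in Ω, h x * dbar i φ x = 0) ∧
          ∫ x in Ω, ‖F x - h x‖ ^ 2 ≤ (C1 + C2 + C3) * ∑ i, ∫ x in Ω, ‖dbar i F x‖ ^ 2 ∧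
          ∫ x in Ω \ (K1 ∪ K2 ∪ K3), ‖F x - h x‖ ^ 2 ≤
            η * ∑ i, ∫ x in Ω, ‖dbar i F x‖ ^ 2 := by
      rintro C Ki hC hKi ⟨h, a1, a2, a3, a4⟩
      refine ⟨h, a1, a2, a3.trans (mul_le_mul_of_nonneg_right hC hS), ?_⟩
      exact tl_all_mono Ω Ki _ hK hKi F h hF.continuous a1 _ (mul_nonneg hη.le hS) a4
    by_cases hj : j < 0
    · exact fin C1 K1 (by linarith) (fun x hx => Or.inl (Or.inl hx)) (G1 j k hj F hF hmode)
    · by_cases hk : k < 0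
      · exact fin C2 K2 (by linarith) (fun x hx => Or.inl (Or.inr hx)) (G2 j k hk F hF hmode)
      · exact fin C3 K3 (by linarith) (fun x hx => Or.inr hx)
          (G3 j k ⟨not_lt.1 hj, not_lt.1 hk⟩ F hF hmode)

end DbarC.JTA
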