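import Pool.Agent.H314.DC.St3

set_option autoImplicit false

open MeasureTheory Complex Filter Topology
open scoped ContDiff InnerProductSpace ENNReal ComplexConjugate

namespace DbarC.JTN1.TN1
open DbarN

/-- insert a coordinate -/
def nmIns (i : Fin 3) (w : ℂ) (y : Fin 2 → ℂ) : E3 := i.insertNth (α := fun _ => ℂ) w y

theorem nm_fubini (i : Fin 3) (g : E3 → ℝ) (hg : Integrable g (volume : Measure E3)) :
    Integrable (fun y : Fin 2 → ℂ => ∫ w : ℂ, g (nmIns i w y)) volume ∧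
    ∫ x, g x = ∫ y : Fin 2 → ℂ, ∫ w : ℂ, g (nmIns i w y) := by
  have hmp := MeasureTheory.volume_preserving_piFinSuccAbove (fun _ : Fin 3 => ℂ) i
  have h2 := hmp.symm (MeasurableEquiv.piFinSuccAbove (fun _ : Fin 3 => ℂ) i)
  have hint : Integrable (fun p : ℂ × (Fin 2 → ℂ) => g (nmIns i p.1 p.2)) (volume.prod volume) := by
    have := (h2.integrable_comp_emb (MeasurableEquiv.measurableEmbedding _)).mpr hg
    exact this
  refine ⟨hint.integral_prod_right, ?_⟩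
  have h3 : ∫ p : ℂ × (Fin 2 → ℂ), g (nmIns i p.1 p.2) ∂(volume.prod volume) = ∫ x, g x :=
    h2.integral_comp' g
  rw [← h3]
  exact MeasureTheory.integral_prod_symm _ hint

theorem nmIns_eq (i : Fin 3) (w w' : ℂ) (y : Fin 2 → ℂ) :
    nmIns i w y = Function.update (nmIns i w' y) i w := by
  unfold nmIns
  rw [Fin.update_insertNth]

theorem nmIns_same (i : Fin 3) (w : ℂ) (y : Fin 2 → ℂ) : nmIns i w y i = w := by
  unfold nmIns
  simp

theorem nm_hasFDerivAt (i : Fin 3) (y : Fin 2 → ℂ) (w : ℂ) :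
    HasFDerivAt (fun w => nmIns i w y) (ContinuousLinearMap.pi (Pi.single i (ContinuousLinearMap.id ℝ ℂ)) : ℂ →L[ℝ] E3) w := by
  have h := hasFDerivAt_update (𝕜 := ℝ) (E := fun _ : Fin 3 => ℂ) (nmIns i 0 y) (i := i) w
  have h2 : (fun w => nmIns i w y) = Function.update (nmIns i 0 y) i := by
    funext w; exact nmIns_eq i w 0 y
  rw [h2]
  exact h

theorem nm_contDiff (i : Fin 3) (y : Fin 2 → ℂ) : ContDiff ℝ ∞ (fun w => nmIns i w y) := by
  have h2 : (fun w => nmIns i w y) = Function.update (nmIns i 0 y) i := by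
    funext w; exact nmIns_eq i w 0 y
  rw [h2]
  exact contDiff_update ∞ _ i

theorem nm_db1 (i : Fin 3) (y : Fin 2 → ℂ) (F : E3 → ℂ) (hF : ContDiff ℝ ∞ F) (w : ℂ) :
    db1 (fun w => F (nmIns i w y)) w = dbar i F (nmIns i w y) := by
  have hd : DifferentiableAt ℝ F (nmIns i w y) := (hF.differentiable (by simp)).differentiableAt
  have h1 := hd.hasFDerivAt.comp w (nm_hasFDerivAt i y w)
  have h2 : fderiv ℝ (fun w => F (nmIns i w y)) w = (fderiv ℝ F (nmIns i w y)).comp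
    (ContinuousLinearMap.pi (Pi.single i (ContinuousLinearMap.id ℝ ℂ)) : ℂ →L[ℝ] E3) := h1.fderiv
  have h3 : ∀ v : ℂ, (ContinuousLinearMap.pi (Pi.single i (ContinuousLinearMap.id ℝ ℂ)) : ℂ →L[ℝ] E3) v = Pi.single i v := by
    intro v
    funext l
    by_cases hl : l = i
    · subst hl; simp
    · simp [hl]
  unfold db1 dbar
  rw [h2]
  simp only [ContinuousLinearMap.comp_apply]
  rw [h3, h3]

theorem nm_dbar_cont (i : Fin 3) (F : E3 → ℂ) (hF : ContDiff ℝ ∞ F) : Continuous (dbar i F) := by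
  have h1 : Continuous (fderiv ℝ F) := hF.continuous_fderiv (by simp)
  unfold dbar
  exact continuous_const.mul ((h1.clm_apply continuous_const).add
    (continuous_const.mul (h1.clm_apply continuous_const)))

theorem nm_rot1 (θ : ℝ) (x : E3) : rot θ 0 x = Function.update x 1 (Complex.exp (θ * I) * x 1) := by
  funext l
  fin_cases l <;> simp [rot, Function.update]


theorem tn_fub (S Ω : Set E3) (hS : MeasurableSet S) (hΩ : MeasurableSet Ω)
    (hb : Bornology.IsBounded Ω) (hSΩ : S ⊆ Ω) (F G : E3 → ℂ) (hF : Continuous F)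
    (hG : Continuous G) (c : ℝ)
    (h : ∀ y, ∫ w, S.indicator (fun x => ‖F x‖ ^ 2) (nmIns 1 w y) ≤
      c * ∫ w, Ω.indicator (fun x => ‖G x‖ ^ 2) (nmIns 1 w y)) :
    ∫ x in S, ‖F x‖ ^ 2 ≤ c * ∫ x in Ω, ‖G x‖ ^ 2 := by
  have hint : ∀ G : E3 → ℂ, Continuous G → ∀ T : Set E3, MeasurableSet T → T ⊆ Ω →
      Integrable (T.indicator (fun x => ‖G x‖ ^ 2)) volume := by
    intro G hG T hT hTΩ
    rw [integrable_indicator_iff hT]
    have hc : IsCompact (closure Ω) := hb.isCompact_closure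
    exact ((hG.norm.pow 2).continuousOn.integrableOn_compact hc).mono_set
      (hTΩ.trans subset_closure)
  rw [← integral_indicator hS, ← integral_indicator hΩ]
  obtain ⟨hi1, he1⟩ := nm_fubini 1 _ (hint F hF S hS hSΩ)
  obtain ⟨hi2, he2⟩ := nm_fubini 1 _ (hint G hG Ω hΩ subset_rfl)
  rw [he1, he2, ← integral_const_mul]
  exact integral_mono hi1 (hi2.const_mul _) h

theorem tn_mem (hM : MemC_stmt) (y : Fin 2 → ℂ) (w : ℂ) : nmIns 1 w y ∈ Om ↔
    (‖nmIns 1 0 y 0‖ ^ 2 < T0 ∧ ‖nmIns 1 0 y 2‖ ^ 2 < d0 (‖nmIns 1 0 y 0‖ ^ 2) ∧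
    ‖w‖ ^ 2 < R2 (‖nmIns 1 0 y 0‖ ^ 2)
      (‖nmIns 1 0 y 2‖ / Real.sqrt (d0 (‖nmIns 1 0 y 0‖ ^ 2)))) := by
  rw [nmIns_eq 1 w 0 y, hM]
  have h0 : Function.update (nmIns 1 0 y) 1 w 0 = nmIns 1 0 y 0 := by simp [Function.update]
  have h1 : Function.update (nmIns 1 0 y) 1 w 1 = w := by simp
  have h2 : Function.update (nmIns 1 0 y) 1 w 2 = nmIns 1 0 y 2 := by simp [Function.update]
  rw [h0, h1, h2]

theorem tn_memK (N h : ℝ) (y : Fin 2 → ℂ) (w : ℂ) : nmIns 1 w y ∈ KK N h ↔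
    (‖nmIns 1 0 y 0‖ ^ 2 < T0 ∧ La (‖nmIns 1 0 y 0‖ ^ 2) ≤ N ∧
    ‖nmIns 1 0 y 2‖ ≤ (1 - h) * Real.sqrt (d0 (‖nmIns 1 0 y 0‖ ^ 2)) ∧
    ‖w‖ ≤ (1 - h) * Real.sqrt (R2 (‖nmIns 1 0 y 0‖ ^ 2)
      (‖nmIns 1 0 y 2‖ / Real.sqrt (d0 (‖nmIns 1 0 y 0‖ ^ 2))))) := by
  rw [nmIns_eq 1 w 0 y]
  have h0 : Function.update (nmIns 1 0 y) 1 w 0 = nmIns 1 0 y 0 := by simp [Function.update]
  have h1 : Function.update (nmIns 1 0 y) 1 w 1 = w := by simp
  have h2 : Function.update (nmIns 1 0 y) 1 w 2 = nmIns 1 0 y 2 := by simp [Function.update]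
  show (‖Function.update (nmIns 1 0 y) 1 w 0‖ ^ 2 < T0 ∧
    La (‖Function.update (nmIns 1 0 y) 1 w 0‖ ^ 2) ≤ N ∧
    ‖Function.update (nmIns 1 0 y) 1 w 2‖ ≤
      (1 - h) * Real.sqrt (d0 (‖Function.update (nmIns 1 0 y) 1 w 0‖ ^ 2)) ∧
    ‖Function.update (nmIns 1 0 y) 1 w 1‖ ≤ (1 - h) *
      Real.sqrt (R2 (‖Function.update (nmIns 1 0 y) 1 w 0‖ ^ 2)
      (‖Function.update (nmIns 1 0 y) 1 w 2‖ /
        Real.sqrt (d0 (‖Function.update (nmIns 1 0 y) 1 w 0‖ ^ 2))))) ↔ _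
  rw [h0, h1, h2]

/-- integral over a slice -/
theorem tn_ind (S : Set E3) (T : Set ℂ) (hT : MeasurableSet T) (hTb : Bornology.IsBounded T)
    (y : Fin 2 → ℂ) (hST : ∀ w, nmIns 1 w y ∈ S → w ∈ T) (F : E3 → ℂ) (hF : Continuous F)
    (hFc : Continuous fun w => F (nmIns 1 w y)) :
    ∫ w, S.indicator (fun x => ‖F x‖ ^ 2) (nmIns 1 w y) ≤ ∫ w in T, ‖F (nmIns 1 w y)‖ ^ 2 := by
  rw [← integral_indicator hT]
  apply integral_mono_of_nonneg
  · refine Filter.Eventually.of_forall fun w => ?_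
    exact Set.indicator_nonneg (fun x _ => by positivity) _
  · rw [integrable_indicator_iff hT]
    exact ((hFc.norm.pow 2).continuousOn.integrableOn_compact hTb.isCompact_closure).mono_set
      subset_closure
  · refine Filter.Eventually.of_forall fun w => ?_
    show S.indicator (fun x => ‖F x‖ ^ 2) (nmIns 1 w y) ≤
      T.indicator (fun w => ‖F (nmIns 1 w y)‖ ^ 2) w
    by_cases hw : nmIns 1 w y ∈ S
    · rw [Set.indicator_of_mem hw, Set.indicator_of_mem (hST w hw)]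
    · rw [Set.indicator_of_notMem hw]
      exact Set.indicator_nonneg (fun x _ => by positivity) _

theorem tn_slice (hM : MemC_stmt) (j : ℤ) (F : E3 → ℂ) (hF : ContDiff ℝ ∞ F)
    (S : Set E3) (hS : S ⊆ Om) (y : Fin 2 → ℂ) (c : ℝ) (hc : 0 ≤ c)
    (hR0 : ‖nmIns 1 0 y 0‖ ^ 2 < T0 → ‖nmIns 1 0 y 2‖ ^ 2 < d0 (‖nmIns 1 0 y 0‖ ^ 2) →
      0 < R2 (‖nmIns 1 0 y 0‖ ^ 2) (‖nmIns 1 0 y 2‖ / Real.sqrt (d0 (‖nmIns 1 0 y 0‖ ^ 2))) ∧
      ∃ T : Set ℂ, MeasurableSet T ∧ Bornology.IsBounded T ∧ (∀ w, nmIns 1 w y ∈ S → w ∈ T) ∧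
      ∫ w in T, ‖F (nmIns 1 w y)‖ ^ 2 ≤ c * ∫ w in Metric.ball (0 : ℂ) (Real.sqrt
        (R2 (‖nmIns 1 0 y 0‖ ^ 2) (‖nmIns 1 0 y 2‖ / Real.sqrt (d0 (‖nmIns 1 0 y 0‖ ^ 2))))),
        ‖db1 (fun w => F (nmIns 1 w y)) w‖ ^ 2) :
    ∫ w, S.indicator (fun x => ‖F x‖ ^ 2) (nmIns 1 w y) ≤
      c * ∫ w, Om.indicator (fun x => ‖dbar 1 F x‖ ^ 2) (nmIns 1 w y) := by
  have hFc : Continuous fun w => F (nmIns 1 w y) := hF.continuous.comp (nm_contDiff 1 y).continuous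
  by_cases hv : ‖nmIns 1 0 y 0‖ ^ 2 < T0 ∧ ‖nmIns 1 0 y 2‖ ^ 2 < d0 (‖nmIns 1 0 y 0‖ ^ 2)
  · obtain ⟨hRp, T, hT, hTb, hST, hle⟩ := hR0 hv.1 hv.2
    obtain ⟨ρ, hρ⟩ : ∃ ρ, ρ = R2 (‖nmIns 1 0 y 0‖ ^ 2)
      (‖nmIns 1 0 y 2‖ / Real.sqrt (d0 (‖nmIns 1 0 y 0‖ ^ 2))) := ⟨_, rfl⟩
    rw [← hρ] at hRp hle
    have hz : (fun w : ℂ => Om.indicator (fun x => ‖dbar 1 F x‖ ^ 2) (nmIns 1 w y)) =
        (Metric.ball (0 : ℂ) (Real.sqrt ρ)).indicator (fun w => ‖dbar 1 F (nmIns 1 w y)‖ ^ 2) := by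
      funext w
      have hb : w ∈ Metric.ball (0 : ℂ) (Real.sqrt ρ) ↔ ‖w‖ ^ 2 < ρ := by
        rw [mem_ball_zero_iff]
        exact Real.lt_sqrt (norm_nonneg _)
      by_cases hw : ‖w‖ ^ 2 < ρ
      · rw [Set.indicator_of_mem ((tn_mem hM y w).2 ⟨hv.1, hv.2, hρ ▸ hw⟩),
          Set.indicator_of_mem (hb.2 hw)]
      · rw [Set.indicator_of_notMem (fun h => hw (hρ ▸ ((tn_mem hM y w).1 h).2.2)),
          Set.indicator_of_notMem (fun h => hw (hb.1 h))]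
    rw [hz, integral_indicator Metric.isOpen_ball.measurableSet]
    have hdbe : (fun w => ‖db1 (fun w => F (nmIns 1 w y)) w‖ ^ 2) =
        fun w => ‖dbar 1 F (nmIns 1 w y)‖ ^ 2 := by
      funext w
      rw [nm_db1 1 y F hF w]
    rw [hdbe] at hle
    exact (tn_ind S T hT hTb y hST F hF.continuous hFc).trans hle
  · have h1 : (fun w : ℂ => S.indicator (fun x => ‖F x‖ ^ 2) (nmIns 1 w y)) = fun _ => 0 := by
      funext w
      apply Set.indicator_of_notMem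
      intro hw
      have := (tn_mem hM y w).1 (hS hw)
      exact hv ⟨this.1, this.2.1⟩
    rw [h1]
    simp only [integral_zero]
    apply mul_nonneg hc
    apply integral_nonneg
    intro w
    exact Set.indicator_nonneg (fun x _ => by positivity) _

theorem tn_s2 (s : ℝ) (h0 : 0 ≤ s) (h1 : s < 1) : 0 < 1 - s ^ 2 := by
  have e : 1 - s ^ 2 = (1 - s) * (1 + s) := by ring
  rw [e]
  exact mul_pos (by linarith) (by linarith)

theorem tn_s1 (s h e : ℝ) (h0 : 0 ≤ s) (h1 : s < 1) (hsh : 1 - h < s) (hh : h ≤ e / 2) :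
    1 - s ^ 2 ≤ e := by
  have e1 : 1 - s ^ 2 = (1 - s) * (1 + s) := by ring
  rw [e1]
  calc (1 - s) * (1 + s) ≤ (1 - s) * 2 := mul_le_mul_of_nonneg_left (by linarith) (by linarith)
    _ ≤ e := by linarith

theorem tn_s3 (A D : ℝ) (hA : A ≤ 1 / 100) (hD : 0 ≤ D) : A * D ≤ D := by
  calc A * D ≤ 1 * D := mul_le_mul_of_nonneg_right (by linarith) hD
    _ = D := one_mul _

theorem tn_s4 (C h η : ℝ) (hC : 0 ≤ C) (hh : 0 < h) (h8 : h * (2 * C + 1) ≤ η) :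
    C * h * 2 ≤ η := by
  have : h * (2 * C + 1) = C * h * 2 + h := by ring
  linarith

end DbarC.JTN1.TN1

namespace DbarC.JTN1
open DbarN DbarC.JTN1.TN1

theorem tl_neg1 (hH : Hardy_stmt) (hL : Layer_stmt) (hM : MemC_stmt) (hD : DomC_stmt)
    (hK : KK_stmt) (hC : CAc_stmt) : TL_prop Om (fun j _ => j < 0) := by
  obtain ⟨hO, _, hBd, _⟩ := hD
  have hmeas : MeasurableSet Om := hO.measurableSet
  -- facts on the slices
  have hfacts : ∀ y : Fin 2 → ℂ, ‖nmIns 1 0 y 0‖ ^ 2 < T0 →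
      ‖nmIns 1 0 y 2‖ ^ 2 < d0 (‖nmIns 1 0 y 0‖ ^ 2) →
      0 ≤ ‖nmIns 1 0 y 2‖ / Real.sqrt (d0 (‖nmIns 1 0 y 0‖ ^ 2)) ∧
      ‖nmIns 1 0 y 2‖ / Real.sqrt (d0 (‖nmIns 1 0 y 0‖ ^ 2)) < 1 ∧
      0 < Real.sqrt (d0 (‖nmIns 1 0 y 0‖ ^ 2)) := by
    intro y h1 h2
    have hd : 0 < Real.sqrt (d0 (‖nmIns 1 0 y 0‖ ^ 2)) := by
      apply Real.sqrt_pos.2
      exact lt_of_le_of_lt (by positivity) h2
    refine ⟨by positivity, ?_, hd⟩
    rw [div_lt_one hd]
    exact (Real.lt_sqrt (norm_nonneg _)).2 h2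
  have hm1 : ∀ (j k : ℤ) (F : E3 → ℂ), IsModeFn j k F → ∀ (y : Fin 2 → ℂ) (θ : ℝ) (w : ℂ),
      (fun w => F (nmIns 1 w y)) (Complex.exp (θ * I) * w) =
        Complex.exp (I * (j * θ)) * (fun w => F (nmIns 1 w y)) w := by
    intro j k F hFm y θ w
    have h := hFm θ 0 (nmIns 1 w y)
    rw [nm_rot1, nmIns_same, ← nmIns_eq] at h
    refine h.trans ?_
    congr 2
    push_cast
    ring
  have hardy : ∀ (j k : ℤ), j < 0 → ∀ F : E3 → ℂ, ContDiff ℝ ∞ F → IsModeFn j k F →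
      ∀ (y : Fin 2 → ℂ) (R : ℝ), 0 < R → ∫ w in Metric.ball (0 : ℂ) R, ‖F (nmIns 1 w y)‖ ^ 2 ≤
        R ^ 2 / |(j : ℝ)| * ∫ w in Metric.ball (0 : ℂ) R,
          ‖db1 (fun w => F (nmIns 1 w y)) w‖ ^ 2 := by
    intro j k hj F hF hFm y R hR
    exact hH j hj _ (hF.comp (nm_contDiff 1 y)) (hm1 j k F hFm y) R hR
  have hjabs : ∀ j : ℤ, j < 0 → (1 : ℝ) ≤ |(j : ℝ)| := by
    intro j hj
    have h1 : (j : ℝ) ≤ -1 := by exact_mod_cast (show j ≤ -1 by omega)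
    rw [abs_of_neg (by linarith)]
    linarith
  refine ⟨1, zero_le_one, ?_⟩
  intro η hη
  -- choice of the constants
  obtain ⟨n, hn⟩ := exists_nat_gt (1 / η)
  have hn0 : (0 : ℝ) < n := lt_trans (by positivity) hn
  obtain ⟨Cn, hCn, hlay⟩ := hL n
  obtain ⟨h, hh⟩ : ∃ h, h = min (1 / 4) (min (η / (2 * Cn + 1)) (Real.exp (-(1 / η)) / 2)) :=
    ⟨_, rfl⟩
  have hh0 : 0 < h := by
    rw [hh]
    refine lt_min (by norm_num) (lt_min (by positivity) (by positivity))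
  have hh1 : h ≤ 1 / 4 := by rw [hh]; exact min_le_left _ _
  have hh2 : h ≤ η / (2 * Cn + 1) := by
    rw [hh]; exact le_trans (min_le_right _ _) (min_le_left _ _)
  have hh3 : h ≤ Real.exp (-(1 / η)) / 2 := by
    rw [hh]; exact le_trans (min_le_right _ _) (min_le_right _ _)
  obtain ⟨hKc, hKO, hKr⟩ := hK (1 / η) h hh0 (by linarith)
  refine ⟨KK (1 / η) h, hKc, hKO, hKr, ?_⟩
  intro j k hj F hF hFm
  have hj1 := hjabs j hj
  refine ⟨fun _ => 0, MemLp.zero', ?_, ?_, ?_⟩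
  · intro i φ _
    simp
  · simp only [sub_zero]
    have hnn : ∀ l : Fin 3, 0 ≤ ∫ x in Om, ‖dbar l F x‖ ^ 2 := fun l =>
      integral_nonneg (fun x => by positivity)
    have hsum : ∫ x in Om, ‖dbar 1 F x‖ ^ 2 ≤ ∑ l, ∫ x in Om, ‖dbar l F x‖ ^ 2 :=
      Finset.single_le_sum (f := fun l => ∫ x in Om, ‖dbar l F x‖ ^ 2)
        (fun l _ => hnn l) (Finset.mem_univ 1)
    refine le_trans ?_ (mul_le_mul_of_nonneg_left hsum zero_le_one)
    apply tn_fub Om Om hmeas hmeas hBd subset_rfl F (dbar 1 F) hF.continuous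
      (nm_dbar_cont 1 F hF) 1
    intro y
    apply tn_slice hM j F hF Om subset_rfl y 1 zero_le_one
    intro h1 h2
    obtain ⟨hs0, hs1, hd0⟩ := hfacts y h1 h2
    obtain ⟨_, _, _, _, hl100, _, _, _, _, _, _, _, _, _, _, _, _, hR2, hR2p⟩ :=
      hC _ _ (lt_of_lt_of_le (by norm_num) (by positivity : (0 : ℝ) ≤ ‖nmIns 1 0 y 0‖ ^ 2))
        h1 hs0 hs1
    refine ⟨hR2p, Metric.ball (0 : ℂ) (Real.sqrt (R2 (‖nmIns 1 0 y 0‖ ^ 2)
      (‖nmIns 1 0 y 2‖ / Real.sqrt (d0 (‖nmIns 1 0 y 0‖ ^ 2))))),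
      Metric.isOpen_ball.measurableSet, Metric.isBounded_ball, ?_, ?_⟩
    · intro w hw
      rw [mem_ball_zero_iff]
      exact (Real.lt_sqrt (norm_nonneg _)).2 ((tn_mem hM y w).1 hw).2.2
    · refine (hardy j k hj F hF hFm y _ (Real.sqrt_pos.2 hR2p)).trans ?_
      apply mul_le_mul_of_nonneg_right _ (integral_nonneg (fun w => by positivity))
      rw [Real.sq_sqrt hR2p.le, div_le_one (by linarith)]
      have h3 := hR2 (by positivity)
      have h4 : 1 / l0 (‖nmIns 1 0 y 0‖ ^ 2)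
          (‖nmIns 1 0 y 2‖ / Real.sqrt (d0 (‖nmIns 1 0 y 0‖ ^ 2))) ≤ 1 := by
        rw [div_le_one (by linarith)]
        linarith
      linarith
  · simp only [sub_zero]
    have hnn : ∀ l : Fin 3, 0 ≤ ∫ x in Om, ‖dbar l F x‖ ^ 2 := fun l =>
      integral_nonneg (fun x => by positivity)
    have hsum : ∫ x in Om, ‖dbar 1 F x‖ ^ 2 ≤ ∑ l, ∫ x in Om, ‖dbar l F x‖ ^ 2 :=
      Finset.single_le_sum (f := fun l => ∫ x in Om, ‖dbar l F x‖ ^ 2)
        (fun l _ => hnn l) (Finset.mem_univ 1)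
    refine le_trans ?_ (mul_le_mul_of_nonneg_left hsum hη.le)
    apply tn_fub (Om \ KK (1 / η) h) Om (hmeas.diff hKc.isClosed.measurableSet) hmeas hBd
      Set.diff_subset F (dbar 1 F) hF.continuous (nm_dbar_cont 1 F hF) η
    intro y
    apply tn_slice hM j F hF (Om \ KK (1 / η) h) Set.diff_subset y η hη.le
    intro h1 h2
    obtain ⟨hs0, hs1, hd0⟩ := hfacts y h1 h2
    obtain ⟨hLa0, _, _, hl, hl100, _, _, _, _, _, _, _, _, _, _, _, _, hR2, hR2p⟩ :=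
      hC _ _ (lt_of_lt_of_le (by norm_num) (by positivity : (0 : ℝ) ≤ ‖nmIns 1 0 y 0‖ ^ 2))
        h1 hs0 hs1
    have hR2' := hR2 (by positivity)
    have hmemK := tn_memK (1 / η) h y
    have hmemO := tn_mem hM y
    refine ⟨hR2p, ?_⟩
    have hH1 := hardy j k hj F hF hFm y _ (Real.sqrt_pos.2 hR2p)
    have hdc : Continuous (fun w => F (nmIns 1 w y)) :=
      hF.continuous.comp (nm_contDiff 1 y).continuous
    have hL1 := fun hjn : |j| ≤ (n : ℤ) => hlay j hjn (fun w => F (nmIns 1 w y)) (hF.comp (nm_contDiff 1 y))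
      (hm1 j k F hFm y) _ h (Real.sqrt_pos.2 hR2p) hh0 (by linarith)
    -- seal
    obtain ⟨t, ht⟩ : ∃ t, t = ‖nmIns 1 0 y 0‖ ^ 2 := ⟨_, rfl⟩
    obtain ⟨b, hb⟩ : ∃ b, b = ‖nmIns 1 0 y 2‖ := ⟨_, rfl⟩
    rw [← ht, ← hb] at hR2p hR2' hH1 hL1 hl hl100 hs0 hs1 ⊢
    rw [← ht] at hLa0 hd0 h1 h2
    simp only [← ht, ← hb] at hmemK hmemO
    obtain ⟨s, hs⟩ : ∃ s, s = b / Real.sqrt (d0 t) := ⟨_, rfl⟩
    rw [← hs] at hR2p hR2' hH1 hL1 hl hl100 hs0 hs1 ⊢
    simp only [← hs] at hmemK hmemO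
    obtain ⟨R, hR⟩ : ∃ R, R = Real.sqrt (R2 t s) := ⟨_, rfl⟩
    have hRsq : R ^ 2 = R2 t s := by rw [hR]; exact Real.sq_sqrt hR2p.le
    rw [← hR] at hH1 hL1 ⊢
    simp only [← hR] at hmemK
    have hR1 : R2 t s ≤ 1 / 100 := by
      refine hR2'.trans ?_
      exact one_div_le_one_div_of_le (by norm_num) hl100
    obtain ⟨DI, hDI⟩ : ∃ DI, DI = ∫ w in Metric.ball (0 : ℂ) R,
      ‖db1 (fun w => F (nmIns 1 w y)) w‖ ^ 2 := ⟨_, rfl⟩
    have hDI0 : 0 ≤ DI := by rw [hDI]; exact integral_nonneg (fun w => by positivity)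
    rw [← hDI] at hH1 ⊢
    rw [hRsq] at hH1
    have hball : ∀ w, nmIns 1 w y ∈ Om \ KK (1 / η) h → w ∈ Metric.ball (0 : ℂ) R := by
      intro w hw
      rw [mem_ball_zero_iff, hR]
      exact (Real.lt_sqrt (norm_nonneg _)).2 ((hmemO w).1 hw.1).2.2
    by_cases hcase : R2 t s / |(j : ℝ)| ≤ η
    · refine ⟨Metric.ball (0 : ℂ) R, Metric.isOpen_ball.measurableSet, Metric.isBounded_ball,
        hball, hH1.trans ?_⟩
      exact mul_le_mul_of_nonneg_right hcase hDI0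
    · push Not at hcase
      have hjpos : 0 < |(j : ℝ)| := by linarith
      have hRη : η < R2 t s := by
        exact lt_of_lt_of_le hcase (div_le_self hR2p.le hj1)
      -- `|j| ≤ n`
      have hjn : |j| ≤ (n : ℤ) := by
        by_contra hcon
        push Not at hcon
        have h3 : (n : ℝ) < |(j : ℝ)| := by exact_mod_cast hcon
        rw [lt_div_iff₀ hjpos] at hcase
        have h4 : 1 < η * n := by
          rw [div_lt_iff₀ hη] at hn
          linarith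
        have h5 : η * n < η * |(j : ℝ)| := mul_lt_mul_of_pos_left h3 hη
        linarith
      have hlη : l0 t s < 1 / η := by
        by_contra hcon
        push Not at hcon
        have h3 : 1 / l0 t s ≤ η := by
          rw [div_le_iff₀ (by linarith)]
          rw [div_le_iff₀ hη] at hcon
          linarith
        linarith
      have htau0 : 0 ≤ tau s := by
        have h3 : (1 : ℝ) - s ^ 2 ≤ 1 := by linarith [sq_nonneg s]
        have h4 : 0 < 1 - s ^ 2 := tn_s2 s hs0 hs1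
        have : tau s = - Real.log (1 - s ^ 2) := rfl
        rw [this]
        have := Real.log_nonpos h4.le h3
        linarith
      have hLaN : La t ≤ 1 / η := by linarith
      have hsh : s ≤ 1 - h := by
        by_contra hcon
        push Not at hcon
        have h4 : 0 < 1 - s ^ 2 := tn_s2 s hs0 hs1
        have h5 : 1 - s ^ 2 ≤ Real.exp (-(1 / η)) := tn_s1 s h _ hs0 hs1 hcon hh3
        have h6 : 1 / η ≤ tau s := by
          have h7 : tau s = - Real.log (1 - s ^ 2) := rfl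
          rw [h7]
          have h8 := Real.log_le_log h4 h5
          rw [Real.log_exp] at h8
          linarith
        linarith
      have hbh : b ≤ (1 - h) * Real.sqrt (d0 t) := by
        rw [hs, div_le_iff₀ hd0] at hsh
        exact hsh
      refine ⟨Metric.ball (0 : ℂ) R \ Metric.closedBall (0 : ℂ) ((1 - h) * R),
        Metric.isOpen_ball.measurableSet.diff Metric.isClosed_closedBall.measurableSet,
        Metric.isBounded_ball.subset Set.diff_subset, ?_, ?_⟩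
      · intro w hw
        refine ⟨hball w hw, ?_⟩
        intro hwc
        apply hw.2
        rw [mem_closedBall_zero_iff] at hwc
        exact (hmemK w).2 ⟨h1, hLaN, hbh, hwc⟩
      · have h3 := hL1 hjn
        rw [← hDI, hRsq] at h3
        refine le_trans h3 ?_
        have h4 : R2 t s / |(j : ℝ)| ≤ 1 := by
          rw [div_le_one hjpos]
          linarith
        have h5 : (∫ w in Metric.ball (0 : ℂ) R, ‖F (nmIns 1 w y)‖ ^ 2) ≤ DI := by
          refine hH1.trans ?_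
          calc R2 t s / |(j : ℝ)| * DI ≤ 1 * DI := mul_le_mul_of_nonneg_right h4 hDI0
            _ = DI := one_mul _
        have h6 : R2 t s * DI ≤ DI := tn_s3 _ _ hR1 hDI0
        have h7 : Cn * h * 2 ≤ η := by
          have h8 : h * (2 * Cn + 1) ≤ η := by
            rw [le_div_iff₀ (by positivity)] at hh2
            exact hh2
          exact tn_s4 Cn h η hCn hh0 h8
        calc Cn * h * (_ + R2 t s * DI) ≤ Cn * h * (DI + DI) :=
              mul_le_mul_of_nonneg_left (add_le_add h5 h6) (by positivity)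
          _ = (Cn * h * 2) * DI := by ring
          _ ≤ η * DI := mul_le_mul_of_nonneg_right h7 hDI0

end DbarC.JTN1
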