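import Pool.Agent.H314.DC.St3

set_option autoImplicit false

open MeasureTheory Complex Filter Topology
open scoped ContDiff InnerProductSpace ENNReal ComplexConjugate

namespace DbarC.JTN2
open DbarN

/-- insert a coordinate -/
def tnIns (i : Fin 3) (w : ℂ) (y : Fin 2 → ℂ) : E3 := i.insertNth (α := fun _ => ℂ) w y

theorem tn_fubini (i : Fin 3) (g : E3 → ℝ) (hg : Integrable g (volume : Measure E3)) :
    Integrable (fun y : Fin 2 → ℂ => ∫ w : ℂ, g (tnIns i w y)) volume ∧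
    ∫ x, g x = ∫ y : Fin 2 → ℂ, ∫ w : ℂ, g (tnIns i w y) := by
  have hmp := MeasureTheory.volume_preserving_piFinSuccAbove (fun _ : Fin 3 => ℂ) i
  have h2 := hmp.symm (MeasurableEquiv.piFinSuccAbove (fun _ : Fin 3 => ℂ) i)
  have hint : Integrable (fun p : ℂ × (Fin 2 → ℂ) => g (tnIns i p.1 p.2)) (volume.prod volume) := by
    have := (h2.integrable_comp_emb (MeasurableEquiv.measurableEmbedding _)).mpr hg
    exact this
  refine ⟨hint.integral_prod_right, ?_⟩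
  have h3 : ∫ p : ℂ × (Fin 2 → ℂ), g (tnIns i p.1 p.2) ∂(volume.prod volume) = ∫ x, g x :=
    h2.integral_comp' g
  rw [← h3]
  exact MeasureTheory.integral_prod_symm _ hint

theorem tnIns_eq (i : Fin 3) (w w' : ℂ) (y : Fin 2 → ℂ) :
    tnIns i w y = Function.update (tnIns i w' y) i w := by
  unfold tnIns
  rw [Fin.update_insertNth]

theorem tnIns_same (i : Fin 3) (w : ℂ) (y : Fin 2 → ℂ) : tnIns i w y i = w := by
  unfold tnIns
  simp

theorem tn_hasFDerivAt (i : Fin 3) (y : Fin 2 → ℂ) (w : ℂ) :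
    HasFDerivAt (fun w => tnIns i w y) (ContinuousLinearMap.pi (Pi.single i (ContinuousLinearMap.id ℝ ℂ)) : ℂ →L[ℝ] E3) w := by
  have h := hasFDerivAt_update (𝕜 := ℝ) (E := fun _ : Fin 3 => ℂ) (tnIns i 0 y) (i := i) w
  have h2 : (fun w => tnIns i w y) = Function.update (tnIns i 0 y) i := by
    funext w; exact tnIns_eq i w 0 y
  rw [h2]
  exact h

theorem tn_contDiff (i : Fin 3) (y : Fin 2 → ℂ) : ContDiff ℝ ∞ (fun w => tnIns i w y) := by
  have h2 : (fun w => tnIns i w y) = Function.update (tnIns i 0 y) i := by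
    funext w; exact tnIns_eq i w 0 y
  rw [h2]
  exact contDiff_update ∞ _ i

theorem tn_db1 (i : Fin 3) (y : Fin 2 → ℂ) (F : E3 → ℂ) (hF : ContDiff ℝ ∞ F) (w : ℂ) :
    db1 (fun w => F (tnIns i w y)) w = dbar i F (tnIns i w y) := by
  have hd : DifferentiableAt ℝ F (tnIns i w y) := (hF.differentiable (by simp)).differentiableAt
  have h1 := hd.hasFDerivAt.comp w (tn_hasFDerivAt i y w)
  have h2 : fderiv ℝ (fun w => F (tnIns i w y)) w = (fderiv ℝ F (tnIns i w y)).comp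
    (ContinuousLinearMap.pi (Pi.single i (ContinuousLinearMap.id ℝ ℂ)) : ℂ →L[ℝ] E3) := h1.fderiv
  have h3 : ∀ v : ℂ, (ContinuousLinearMap.pi (Pi.single i (ContinuousLinearMap.id ℝ ℂ)) : ℂ →L[ℝ] E3) v = Pi.single i v := by
    intro v
    funext l
    by_cases hl : l = i
    · subst hl; simp
    · simp [hl]
  unfold db1 dbar
  rw [h2]
  simp only [ContinuousLinearMap.comp_apply]
  rw [h3, h3]

theorem tn_dbar_cont (i : Fin 3) (F : E3 → ℂ) (hF : ContDiff ℝ ∞ F) : Continuous (dbar i F) := by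
  have h1 : Continuous (fderiv ℝ F) := hF.continuous_fderiv (by simp)
  unfold dbar
  exact continuous_const.mul ((h1.clm_apply continuous_const).add
    (continuous_const.mul (h1.clm_apply continuous_const)))

theorem tn_rot1 (θ : ℝ) (x : E3) : rot θ 0 x = Function.update x 1 (Complex.exp (θ * I) * x 1) := by
  funext l
  fin_cases l <;> simp [rot, Function.update]

theorem tn_rot2 (θ : ℝ) (x : E3) : rot 0 θ x = Function.update x 2 (Complex.exp (θ * I) * x 2) := by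
  funext l
  fin_cases l <;> simp [rot, Function.update]


theorem tn_slice (Ω A : Set E3) (hΩ : MeasurableSet Ω) (hA : MeasurableSet A) (hAΩ : A ⊆ Ω)
    (hΩb : Bornology.IsBounded Ω) (i : Fin 3) (c : ℝ) (F G : E3 → ℂ) (hF : Continuous F)
    (hG : Continuous G)
    (h : ∀ y : Fin 2 → ℂ, ∫ w : ℂ, A.indicator (fun x => ‖F x‖ ^ 2) (tnIns i w y) ≤
      c * ∫ w : ℂ, Ω.indicator (fun x => ‖G x‖ ^ 2) (tnIns i w y)) :
    ∫ x in A, ‖F x‖ ^ 2 ≤ c * ∫ x in Ω, ‖G x‖ ^ 2 := by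
  have hint : ∀ (B : Set E3), MeasurableSet B → B ⊆ Ω → ∀ G : E3 → ℂ, Continuous G →
      Integrable (B.indicator (fun x => ‖G x‖ ^ 2)) volume := by
    intro B hB hBΩ G hG
    rw [integrable_indicator_iff hB]
    have hc : IsCompact (closure Ω) := hΩb.isCompact_closure
    exact ((hG.norm.pow 2).continuousOn.integrableOn_compact hc).mono_set
      (hBΩ.trans subset_closure)
  rw [← integral_indicator hΩ, ← integral_indicator hA]
  obtain ⟨hi1, he1⟩ := tn_fubini i _ (hint A hA hAΩ F hF)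
  obtain ⟨hi2, he2⟩ := tn_fubini i _ (hint Ω hΩ le_rfl G hG)
  rw [he1, he2, ← integral_const_mul]
  exact integral_mono hi1 (hi2.const_mul _) h

/-- squared radius of the slice -/
noncomputable def tnq (y : Fin 2 → ℂ) : ℝ := 1 - w0 (‖y 0‖ ^ 2) - Gy (‖y 0‖ ^ 2) (‖y 1‖ ^ 2)

theorem tn_Gy_nonneg (t y : ℝ) : 0 ≤ Gy t y := by
  unfold Gy
  split_ifs
  · exact le_rfl
  · exact (Real.exp_pos _).le

theorem tn_w0_nonneg (t : ℝ) : 0 ≤ w0 t := DbarN.JCA1.om_nonneg t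

theorem tn_q_le (y : Fin 2 → ℂ) : tnq y ≤ 1 := by
  have h1 := tn_w0_nonneg (‖y 0‖ ^ 2)
  have h2 := tn_Gy_nonneg (‖y 0‖ ^ 2) (‖y 1‖ ^ 2)
  unfold tnq
  linarith

theorem tn_q_pos {y : Fin 2 → ℂ} (h : 0 < tnq y) : ‖y 0‖ ^ 2 < 1001 / 1000 := by
  have h2 := tn_Gy_nonneg (‖y 0‖ ^ 2) (‖y 1‖ ^ 2)
  have h1 : w0 (‖y 0‖ ^ 2) < 1 := by
    unfold tnq at h
    linarith
  have h3 := (DbarN.JCA1.om_lt_one_iff (by norm_num) (by norm_num) (‖y 0‖ ^ 2)).mp h1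
  have h4 : tB (1 / 100) 100 = 1 + (1 / 100) / 100 := rfl
  rw [h4] at h3
  norm_num at h3
  linarith

theorem tn_ins0 (w : ℂ) (y : Fin 2 → ℂ) : tnIns 2 w y 0 = y 0 := by
  have h := Fin.insertNth_apply_succAbove (α := fun _ => ℂ) (2 : Fin 3) w y 0
  exact h

theorem tn_ins1 (w : ℂ) (y : Fin 2 → ℂ) : tnIns 2 w y 1 = y 1 := by
  have h := Fin.insertNth_apply_succAbove (α := fun _ => ℂ) (2 : Fin 3) w y 1
  exact h

theorem tn_ins2 (w : ℂ) (y : Fin 2 → ℂ) : tnIns 2 w y 2 = w := tnIns_same 2 w y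

theorem tn_mem (w : ℂ) (y : Fin 2 → ℂ) : tnIns 2 w y ∈ Om ↔ ‖w‖ ^ 2 < tnq y := by
  have h0 : tnIns 2 w y ∈ Om ↔ (‖y 0‖ ^ 2 < 2 ∧
      w0 (‖y 0‖ ^ 2) + Gy (‖y 0‖ ^ 2) (‖y 1‖ ^ 2) + ‖w‖ ^ 2 < 1) := by
    show (‖tnIns 2 w y 0‖ ^ 2 < 2 ∧ w0 (‖tnIns 2 w y 0‖ ^ 2) +
      Gy (‖tnIns 2 w y 0‖ ^ 2) (‖tnIns 2 w y 1‖ ^ 2) + ‖tnIns 2 w y 2‖ ^ 2 < 1) ↔ _
    rw [tn_ins0, tn_ins1, tn_ins2]
  rw [h0]
  constructor
  · rintro ⟨_, h⟩
    unfold tnq
    linarith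
  · intro h
    have h1 : 0 < tnq y := lt_of_le_of_lt (sq_nonneg _) h
    have h2 := tn_q_pos h1
    unfold tnq at h
    exact ⟨by linarith, by linarith⟩

theorem tn_memK (h : ℝ) (w : ℂ) (y : Fin 2 → ℂ) (hq : 0 < tnq y) :
    tnIns 2 w y ∈ KL h ↔ (h ≤ tnq y ∧ ‖w‖ ≤ (1 - h) * Real.sqrt (tnq y)) := by
  have h0 : tnIns 2 w y ∈ KL h ↔ (‖y 0‖ ^ 2 ≤ 1004 / 1000 ∧ h ≤ tnq y ∧
      ‖w‖ ≤ (1 - h) * Real.sqrt (tnq y)) := by
    show (‖tnIns 2 w y 0‖ ^ 2 ≤ 1004 / 1000 ∧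
      h ≤ 1 - w0 (‖tnIns 2 w y 0‖ ^ 2) - Gy (‖tnIns 2 w y 0‖ ^ 2) (‖tnIns 2 w y 1‖ ^ 2) ∧
      ‖tnIns 2 w y 2‖ ≤ (1 - h) * Real.sqrt (1 - w0 (‖tnIns 2 w y 0‖ ^ 2) -
        Gy (‖tnIns 2 w y 0‖ ^ 2) (‖tnIns 2 w y 1‖ ^ 2))) ↔ _
    rw [tn_ins0, tn_ins1, tn_ins2]
    rfl
  rw [h0]
  have h1 := tn_q_pos hq
  exact ⟨fun h => h.2, fun h => ⟨by linarith, h⟩⟩

theorem tn_ball {q : ℝ} (hq : 0 < q) (w : ℂ) :
    w ∈ Metric.ball (0 : ℂ) (Real.sqrt q) ↔ ‖w‖ ^ 2 < q := by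
  rw [mem_ball_zero_iff]
  constructor
  · intro h
    calc ‖w‖ ^ 2 < Real.sqrt q ^ 2 := pow_lt_pow_left₀ h (norm_nonneg _) (by norm_num)
      _ = q := Real.sq_sqrt hq.le
  · intro h
    exact Real.lt_sqrt_of_sq_lt h

theorem tn_indOm (G : E3 → ℂ) (y : Fin 2 → ℂ) (hq : 0 < tnq y) :
    (fun w : ℂ => Om.indicator (fun x => ‖G x‖ ^ 2) (tnIns 2 w y)) =
      (Metric.ball (0 : ℂ) (Real.sqrt (tnq y))).indicator (fun w => ‖G (tnIns 2 w y)‖ ^ 2) := by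
  funext w
  by_cases hw : ‖w‖ ^ 2 < tnq y
  · rw [Set.indicator_of_mem ((tn_mem w y).mpr hw), Set.indicator_of_mem ((tn_ball hq w).mpr hw)]
  · rw [Set.indicator_of_notMem (fun h => hw ((tn_mem w y).mp h)),
      Set.indicator_of_notMem (fun h => hw ((tn_ball hq w).mp h))]

theorem tn_indA1 (G : E3 → ℂ) (h : ℝ) (y : Fin 2 → ℂ) (hq : 0 < tnq y) (hqh : tnq y < h) :
    (fun w : ℂ => (Om \ KL h).indicator (fun x => ‖G x‖ ^ 2) (tnIns 2 w y)) =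
      (Metric.ball (0 : ℂ) (Real.sqrt (tnq y))).indicator (fun w => ‖G (tnIns 2 w y)‖ ^ 2) := by
  rw [← tn_indOm G y hq]
  funext w
  have hK : tnIns 2 w y ∉ KL h := fun hh => by
    have := ((tn_memK h w y hq).mp hh).1
    linarith
  by_cases hw : tnIns 2 w y ∈ Om
  · rw [Set.indicator_of_mem hw, Set.indicator_of_mem (show tnIns 2 w y ∈ Om \ KL h from ⟨hw, hK⟩)]
  · rw [Set.indicator_of_notMem hw,
      Set.indicator_of_notMem (show tnIns 2 w y ∉ Om \ KL h from fun hh => hw hh.1)]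

theorem tn_indA2 (G : E3 → ℂ) (h : ℝ) (y : Fin 2 → ℂ) (hq : 0 < tnq y) (hqh : h ≤ tnq y) :
    (fun w : ℂ => (Om \ KL h).indicator (fun x => ‖G x‖ ^ 2) (tnIns 2 w y)) =
      (Metric.ball (0 : ℂ) (Real.sqrt (tnq y)) \
        Metric.closedBall (0 : ℂ) ((1 - h) * Real.sqrt (tnq y))).indicator
        (fun w => ‖G (tnIns 2 w y)‖ ^ 2) := by
  funext w
  have hiff : tnIns 2 w y ∈ Om \ KL h ↔ w ∈ Metric.ball (0 : ℂ) (Real.sqrt (tnq y)) \
      Metric.closedBall (0 : ℂ) ((1 - h) * Real.sqrt (tnq y)) := by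
    rw [Set.mem_sdiff, Set.mem_sdiff, tn_mem, tn_ball hq, tn_memK h w y hq,
      mem_closedBall_zero_iff]
    constructor
    · rintro ⟨h1, h2⟩
      exact ⟨h1, fun h3 => h2 ⟨hqh, h3⟩⟩
    · rintro ⟨h1, h2⟩
      exact ⟨h1, fun h3 => h2 h3.2⟩
  by_cases hw : tnIns 2 w y ∈ Om \ KL h
  · rw [Set.indicator_of_mem hw, Set.indicator_of_mem (hiff.mp hw)]
  · rw [Set.indicator_of_notMem hw, Set.indicator_of_notMem (fun hh => hw (hiff.mpr hh))]

theorem tn_zero (B : Set E3) (hB : B ⊆ Om) (G : E3 → ℂ) (y : Fin 2 → ℂ) (hq : tnq y ≤ 0) :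
    (fun w : ℂ => B.indicator (fun x => ‖G x‖ ^ 2) (tnIns 2 w y)) = fun _ => 0 := by
  funext w
  apply Set.indicator_of_notMem
  intro hh
  have h1 := (tn_mem w y).mp (hB hh)
  have h2 : 0 ≤ ‖w‖ ^ 2 := sq_nonneg _
  linarith

theorem tn_db (F : E3 → ℂ) (hF : ContDiff ℝ ∞ F) (y : Fin 2 → ℂ) :
    (fun w => ‖db1 (fun w => F (tnIns 2 w y)) w‖ ^ 2) =
      fun w => ‖dbar 2 F (tnIns 2 w y)‖ ^ 2 := by
  funext w
  rw [tn_db1 2 y F hF w]

theorem tn_mode {j k : ℤ} (F : E3 → ℂ) (hFm : IsModeFn j k F) (y : Fin 2 → ℂ) (θ : ℝ) (w : ℂ) :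
    (fun w => F (tnIns 2 w y)) (Complex.exp (θ * I) * w) =
      Complex.exp (I * (k * θ)) * (fun w => F (tnIns 2 w y)) w := by
  have h := hFm 0 θ (tnIns 2 w y)
  rw [tn_rot2, tnIns_same, ← tnIns_eq] at h
  show F (tnIns 2 (Complex.exp (θ * I) * w) y) = Complex.exp (I * (k * θ)) * F (tnIns 2 w y)
  rw [h]
  congr 2
  push_cast
  ring

/-- Hardy on the slices -/
theorem tn_hardy (hH : Hardy_stmt) {j k : ℤ} (hk : k < 0) (F : E3 → ℂ) (hF : ContDiff ℝ ∞ F)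
    (hFm : IsModeFn j k F) (y : Fin 2 → ℂ) (hq : 0 < tnq y) :
    ∫ w in Metric.ball (0 : ℂ) (Real.sqrt (tnq y)), ‖F (tnIns 2 w y)‖ ^ 2 ≤
      tnq y / |(k : ℝ)| *
        ∫ w in Metric.ball (0 : ℂ) (Real.sqrt (tnq y)), ‖dbar 2 F (tnIns 2 w y)‖ ^ 2 := by
  have h := hH k hk _ (hF.comp (tn_contDiff 2 y)) (tn_mode F hFm y) (Real.sqrt (tnq y))
    (Real.sqrt_pos.mpr hq)
  rw [Real.sq_sqrt hq.le] at h
  have h2 := tn_db F hF y
  have h3 : (fun w => ‖db1 (F ∘ fun w => tnIns 2 w y) w‖ ^ 2) =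
      fun w => ‖dbar 2 F (tnIns 2 w y)‖ ^ 2 := h2
  rw [h3] at h
  exact h

theorem tn_kabs {k : ℤ} (hk : k < 0) : 1 ≤ |(k : ℝ)| := by
  have h1 : (k : ℝ) ≤ -1 := by
    have : k ≤ -1 := by omega
    exact_mod_cast this
  rw [abs_of_neg (by linarith)]
  linarith

theorem tn_Inn (F : E3 → ℂ) (y : Fin 2 → ℂ) : 0 ≤ ∫ w in Metric.ball (0 : ℂ)
    (Real.sqrt (tnq y)), ‖dbar 2 F (tnIns 2 w y)‖ ^ 2 :=
  integral_nonneg (fun w => sq_nonneg _)

/-- global estimate -/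
theorem tn_glob (hH : Hardy_stmt) (hΩ : MeasurableSet Om) (hb : Bornology.IsBounded Om)
    {j k : ℤ} (hk : k < 0) (F : E3 → ℂ) (hF : ContDiff ℝ ∞ F)
    (hFm : IsModeFn j k F) :
    ∫ x in Om, ‖F x‖ ^ 2 ≤ 1 / |(k : ℝ)| * ∫ x in Om, ‖dbar 2 F x‖ ^ 2 := by
  refine tn_slice Om Om hΩ hΩ le_rfl hb 2 _ F (dbar 2 F) hF.continuous (tn_dbar_cont 2 F hF) ?_
  intro y
  rcases le_or_gt (tnq y) 0 with hq | hq
  · rw [tn_zero Om le_rfl F y hq, tn_zero Om le_rfl (dbar 2 F) y hq]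
    simp
  · rw [tn_indOm F y hq, tn_indOm (dbar 2 F) y hq,
      integral_indicator Metric.isOpen_ball.measurableSet,
      integral_indicator Metric.isOpen_ball.measurableSet]
    refine (tn_hardy hH hk F hF hFm y hq).trans ?_
    have hk1 := tn_kabs hk
    exact mul_le_mul_of_nonneg_right
      (div_le_div_of_nonneg_right (tn_q_le y) (by linarith)) (tn_Inn F y)

/-- boundary estimate -/
theorem tn_bd (hH : Hardy_stmt) (hΩ : MeasurableSet Om) (hb : Bornology.IsBounded Om)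
    (h : ℝ) (hh : 0 < h) (hh1 : h ≤ 1 / 2) (hKm : MeasurableSet (KL h)) (C : ℝ) (hC : 0 ≤ C)
    {j k : ℤ} (hk : k < 0) (F : E3 → ℂ) (hF : ContDiff ℝ ∞ F) (hFm : IsModeFn j k F)
    (hLay : ∀ f : ℂ → ℂ, ContDiff ℝ ∞ f →
      (∀ (θ : ℝ) (w : ℂ), f (Complex.exp (θ * I) * w) = Complex.exp (I * (k * θ)) * f w) →
      ∀ R h : ℝ, 0 < R → 0 < h → h ≤ 1 / 2 →
      ∫ w in Metric.ball (0 : ℂ) R \ Metric.closedBall (0 : ℂ) ((1 - h) * R), ‖f w‖ ^ 2 ≤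
        C * h * ((∫ w in Metric.ball (0 : ℂ) R, ‖f w‖ ^ 2) +
          R ^ 2 * ∫ w in Metric.ball (0 : ℂ) R, ‖db1 f w‖ ^ 2)) :
    ∫ x in Om \ KL h, ‖F x‖ ^ 2 ≤ ((2 * C + 1) * h) * ∫ x in Om, ‖dbar 2 F x‖ ^ 2 := by
  refine tn_slice Om (Om \ KL h) hΩ (hΩ.diff hKm) Set.sdiff_subset hb 2 _ F (dbar 2 F)
    hF.continuous (tn_dbar_cont 2 F hF) ?_
  intro y
  have hk1 := tn_kabs hk
  rcases le_or_gt (tnq y) 0 with hq | hq
  · rw [tn_zero _ Set.sdiff_subset F y hq, tn_zero Om le_rfl (dbar 2 F) y hq]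
    simp
  · have hI := tn_Inn F y
    have hHar := tn_hardy hH hk F hF hFm y hq
    rcases lt_or_ge (tnq y) h with hqh | hqh
    · rw [tn_indA1 F h y hq hqh, tn_indOm (dbar 2 F) y hq,
        integral_indicator Metric.isOpen_ball.measurableSet,
        integral_indicator Metric.isOpen_ball.measurableSet]
      refine hHar.trans (mul_le_mul_of_nonneg_right ?_ hI)
      have h1 : tnq y / |(k : ℝ)| ≤ tnq y := div_le_self hq.le hk1
      have h2 : 0 ≤ 2 * C * h := by positivity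
      linarith
    · rw [tn_indA2 F h y hq hqh, tn_indOm (dbar 2 F) y hq,
        integral_indicator (Metric.isOpen_ball.measurableSet.diff
          Metric.isClosed_closedBall.measurableSet),
        integral_indicator Metric.isOpen_ball.measurableSet]
      have h3 := hLay _ (hF.comp (tn_contDiff 2 y)) (tn_mode F hFm y) (Real.sqrt (tnq y)) h
        (Real.sqrt_pos.mpr hq) hh hh1
      rw [Real.sq_sqrt hq.le] at h3
      have h4 : (fun w => ‖db1 (F ∘ fun w => tnIns 2 w y) w‖ ^ 2) =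
          fun w => ‖dbar 2 F (tnIns 2 w y)‖ ^ 2 := tn_db F hF y
      rw [h4] at h3
      refine h3.trans ?_
      obtain ⟨J, hJ⟩ : ∃ J : ℝ, J = ∫ w in Metric.ball (0 : ℂ) (Real.sqrt (tnq y)),
        ‖dbar 2 F (tnIns 2 w y)‖ ^ 2 := ⟨_, rfl⟩
      rw [← hJ] at hHar hI ⊢
      have hq1 := tn_q_le y
      have h5 : tnq y / |(k : ℝ)| ≤ 1 := (div_le_self hq.le hk1).trans hq1
      have h6 : tnq y / |(k : ℝ)| * J ≤ 1 * J := mul_le_mul_of_nonneg_right h5 hI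
      have h7 : tnq y * J ≤ 1 * J := mul_le_mul_of_nonneg_right hq1 hI
      have h8 : ∫ w in Metric.ball (0 : ℂ) (Real.sqrt (tnq y)),
          ‖(F ∘ fun w => tnIns 2 w y) w‖ ^ 2 ≤ J := by
        have h9 : ∫ w in Metric.ball (0 : ℂ) (Real.sqrt (tnq y)),
          ‖(F ∘ fun w => tnIns 2 w y) w‖ ^ 2 = ∫ w in Metric.ball (0 : ℂ) (Real.sqrt (tnq y)),
            ‖F (tnIns 2 w y)‖ ^ 2 := rfl
        rw [h9]
        linarith
      have hCh : 0 ≤ C * h := by positivity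
      have h10 := mul_le_mul_of_nonneg_left (add_le_add h8 h7) hCh
      refine h10.trans ?_
      have h11 : 0 ≤ h * J := by positivity
      linarith

theorem tl_neg2 (hH : Hardy_stmt) (hL : Layer_stmt) (hD : DomC_stmt) (hF : FFs_stmt)
    (hK : KL_stmt) : TL_prop Om (fun _ k => k < 0) := by
  obtain ⟨hO, _, hBd, _⟩ := hD
  have hΩ : MeasurableSet Om := hO.measurableSet
  refine ⟨1, zero_le_one, ?_⟩
  intro η hη
  obtain ⟨n, hn⟩ := exists_nat_gt (1 / η)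
  have hn0 : (0 : ℝ) < n := lt_trans (by positivity) hn
  obtain ⟨C, hC, hLay⟩ := hL n
  have hC1 : 0 < 2 * C + 1 := by linarith
  obtain ⟨h, hhd⟩ : ∃ h : ℝ, h = min (1 / 2) (η / (2 * C + 1)) := ⟨_, rfl⟩
  have hh : 0 < h := by
    rw [hhd]
    exact lt_min (by norm_num) (by positivity)
  have hh1 : h ≤ 1 / 2 := by
    rw [hhd]
    exact min_le_left _ _
  have hh2 : (2 * C + 1) * h ≤ η := by
    have h1 : h ≤ η / (2 * C + 1) := by
      rw [hhd]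
      exact min_le_right _ _
    rw [le_div_iff₀ hC1] at h1
    linarith
  obtain ⟨hKc, hKs, hKr⟩ := hK h hh (by linarith)
  refine ⟨KL h, hKc, hKs, hKr, ?_⟩
  intro j k hk F hFs hFm
  have hk1 := tn_kabs hk
  have hnn : ∀ l : Fin 3, 0 ≤ ∫ x in Om, ‖dbar l F x‖ ^ 2 := fun l =>
    integral_nonneg (fun x => sq_nonneg _)
  have hsum : ∫ x in Om, ‖dbar 2 F x‖ ^ 2 ≤ ∑ l, ∫ x in Om, ‖dbar l F x‖ ^ 2 :=
    Finset.single_le_sum (f := fun l => ∫ x in Om, ‖dbar l F x‖ ^ 2)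
      (fun l _ => hnn l) (Finset.mem_univ 2)
  have hg := tn_glob hH hΩ hBd hk F hFs hFm
  refine ⟨fun _ => 0, MemLp.zero', ?_, ?_, ?_⟩
  · intro i φ _
    simp
  · simp only [sub_zero]
    refine hg.trans ?_
    have h1 : 1 / |(k : ℝ)| ≤ 1 := by
      rw [div_le_one (by linarith)]
      exact hk1
    exact mul_le_mul h1 hsum (hnn 2) zero_le_one
  · simp only [sub_zero]
    have hηsum : ∀ c : ℝ, c ≤ η → c * ∫ x in Om, ‖dbar 2 F x‖ ^ 2 ≤
        η * ∑ l, ∫ x in Om, ‖dbar l F x‖ ^ 2 := fun c hc =>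
      (mul_le_mul_of_nonneg_right hc (hnn 2)).trans (mul_le_mul_of_nonneg_left hsum hη.le)
    by_cases hkn : |k| ≤ (n : ℤ)
    · refine (tn_bd hH hΩ hBd h hh hh1 hKc.isClosed.measurableSet C hC hk F hFs hFm
        (hLay k hkn)).trans (hηsum _ hh2)
    · push Not at hkn
      have h1 : ∫ x in Om \ KL h, ‖F x‖ ^ 2 ≤ ∫ x in Om, ‖F x‖ ^ 2 := by
        refine setIntegral_mono_set ?_ (Filter.Eventually.of_forall fun x => sq_nonneg _)
          (Filter.Eventually.of_forall Set.sdiff_subset)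
        have hc : IsCompact (closure Om) := hBd.isCompact_closure
        exact ((hFs.continuous.norm.pow 2).continuousOn.integrableOn_compact hc).mono_set
          subset_closure
      refine h1.trans (hg.trans (hηsum _ ?_))
      have h2 : (n : ℝ) < |(k : ℝ)| := by
        have h3 : ((n : ℤ) : ℝ) < ((|k| : ℤ) : ℝ) := by exact_mod_cast hkn
        rw [Int.cast_abs] at h3
        exact_mod_cast h3
      have h4 : 1 / |(k : ℝ)| ≤ 1 / n := one_div_le_one_div_of_le hn0 h2.le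
      have h5 : 1 / (n : ℝ) < η := by
        rw [div_lt_iff₀ hη] at hn
        rw [div_lt_iff₀ hn0]
        linarith
      linarith

end DbarC.JTN2
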