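import Pool.Agent.H314.DC.St3
import Pool.Agent.H314.DN.N2

set_option autoImplicit false

open MeasureTheory Complex Filter Topology
open scoped ContDiff InnerProductSpace ENNReal ComplexConjugate

namespace DbarC.JTP
open DbarN

theorem tp_db1_sub (f : ℂ → ℂ) (hf : ContDiff ℝ ∞ f) (a : ℂ) (m : ℕ) (w : ℂ) :
    db1 (fun w => f w - a * w ^ m) w = db1 f w := by
  have hfd : DifferentiableAt ℝ f w := (hf.differentiable (by simp)).differentiableAt
  have hp : HasDerivAt (fun w : ℂ => a * w ^ m) (a * (m * w ^ (m - 1))) w :=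
    (hasDerivAt_pow m w).const_mul a
  have hp' := hp.hasFDerivAt.restrictScalars ℝ
  have h2 := (hfd.hasFDerivAt.sub hp').fderiv
  have h3 : fderiv ℝ (fun w => f w - a * w ^ m) w = _ := h2
  unfold db1
  rw [h3]
  simp only [sub_apply, ContinuousLinearMap.coe_restrictScalars',
    ContinuousLinearMap.toSpanSingleton_apply, smul_eq_mul]
  linear_combination (-(1 / 2) * (a * (m * w ^ (m - 1)))) * Complex.I_sq

theorem tp_union (f : E3 → ℝ) (hf : ∀ x, 0 ≤ f x) (s t : Set E3) (hs : IntegrableOn f s)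
    (ht : IntegrableOn f t) : ∫ x in s ∪ t, f x ≤ (∫ x in s, f x) + ∫ x in t, f x := by
  rw [← integral_add_measure hs ht]
  exact integral_mono_measure (Measure.restrict_union_le s t) (Eventually.of_forall hf)
    (Integrable.add_measure hs ht)

theorem tp_layer (n : ℕ) (C' : ℝ) (hC' : 0 ≤ C') (hL : ∀ (j : ℤ), |j| ≤ (n : ℤ) →
    ∀ f : ℂ → ℂ, ContDiff ℝ ∞ f →
    (∀ (θ : ℝ) (w : ℂ), f (Complex.exp (θ * I) * w) = Complex.exp (I * (j * θ)) * f w) →
    ∀ R h : ℝ, 0 < R → 0 < h → h ≤ 1 / 2 →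
    ∫ w in Metric.ball (0 : ℂ) R \ Metric.closedBall (0 : ℂ) ((1 - h) * R), ‖f w‖ ^ 2 ≤
      C' * h * ((∫ w in Metric.ball (0 : ℂ) R, ‖f w‖ ^ 2) +
        R ^ 2 * ∫ w in Metric.ball (0 : ℂ) R, ‖db1 f w‖ ^ 2))
    (Ω : Set E3) (hΩo : IsOpen Ω) (hΩb : Bornology.IsBounded Ω) (i : Fin 3) (m : ℕ) (hm : m ≤ n)
    (F D : E3 → ℂ) (hF : ContDiff ℝ ∞ F)
    (hmode : ∀ (θ : ℝ) (x : E3), F (Function.update x i (Complex.exp (θ * I) * x i)) =
      Complex.exp (I * (((m : ℤ) : ℂ) * θ)) * F x)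
    (hD : Integrable (Ω.indicator (fun x => ‖D x‖ ^ 2)) volume)
    (hDF : ∀ x : E3, ∃ a : ℂ, ∀ w, D (Function.update x i w) =
      F (Function.update x i w) - a * w ^ m)
    (hS : ∀ x : E3, ∃ c : ℝ, ∀ w, Function.update x i w ∈ Ω ↔ ‖w‖ ^ 2 < c)
    (hA : ∀ x ∈ Ω, ‖x i‖ ^ 2 ≤ 1) (h : ℝ) (hh0 : 0 < h) (hh : h ≤ 1 / 4) :
    ∫ x in {x | x ∈ Ω ∧ Function.update x i ((((1 - h)⁻¹ : ℝ) : ℂ) * x i) ∉ Ω}, ‖D x‖ ^ 2 ≤
      C' * (2 * h) * ((∫ x in Ω, ‖D x‖ ^ 2) + ∫ x in Ω, ‖dbar i F x‖ ^ 2) := by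
  have hmeas : MeasurableSet Ω := hΩo.measurableSet
  have hint : ∀ G : E3 → ℂ, Continuous G →
      Integrable (Ω.indicator (fun x => ‖G x‖ ^ 2)) volume := by
    intro G hG
    rw [integrable_indicator_iff hmeas]
    have hc : IsCompact (closure Ω) := hΩb.isCompact_closure
    exact ((hG.norm.pow 2).continuousOn.integrableOn_compact hc).mono_set subset_closure
  have hdb : Continuous (dbar i F) := JN2.nm_dbar_cont i F hF
  have hgc : Continuous (fun x : E3 => Function.update x i ((((1 - h)⁻¹ : ℝ) : ℂ) * x i)) :=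
    continuous_id.update i (continuous_const.mul (continuous_apply i))
  obtain ⟨A, hAdef⟩ : ∃ A : Set E3,
      A = {x | x ∈ Ω ∧ Function.update x i ((((1 - h)⁻¹ : ℝ) : ℂ) * x i) ∉ Ω} := ⟨_, rfl⟩
  have hAm : MeasurableSet A := by
    rw [hAdef]
    exact hmeas.inter (hgc.measurable hmeas).compl
  have hAs : A ⊆ Ω := by
    rw [hAdef]
    exact fun x hx => hx.1
  have hAint : Integrable (A.indicator (fun x => ‖D x‖ ^ 2)) volume := by
    have h1 := hD.indicator hAm
    rwa [Set.indicator_indicator, Set.inter_eq_left.2 hAs] at h1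
  rw [← hAdef, ← integral_indicator hAm, ← integral_indicator hmeas, ← integral_indicator hmeas]
  obtain ⟨hi0, he0⟩ := JN2.nm_fubini i _ hAint
  obtain ⟨hi1, he1⟩ := JN2.nm_fubini i _ hD
  obtain ⟨hi2, he2⟩ := JN2.nm_fubini i _ (hint (dbar i F) hdb)
  rw [he0, he1, he2, ← integral_add hi1 hi2, ← integral_const_mul]
  apply integral_mono hi0 ((hi1.add hi2).const_mul _)
  intro y
  obtain ⟨c, hc⟩ := hS (JN2.nmIns i 0 y)
  have hcc : ∀ w, JN2.nmIns i w y ∈ Ω ↔ ‖w‖ ^ 2 < c := by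
    intro w
    rw [JN2.nmIns_eq i w 0 y]; exact hc w
  show ∫ w : ℂ, A.indicator (fun x => ‖D x‖ ^ 2) (JN2.nmIns i w y) ≤
    C' * (2 * h) * ((∫ w : ℂ, Ω.indicator (fun x => ‖D x‖ ^ 2) (JN2.nmIns i w y)) +
      ∫ w : ℂ, Ω.indicator (fun x => ‖dbar i F x‖ ^ 2) (JN2.nmIns i w y))
  rcases le_or_gt c 0 with hc0 | hc0
  · have hno : ∀ w, JN2.nmIns i w y ∉ Ω := by
      intro w
      rw [hcc]
      have : 0 ≤ ‖w‖ ^ 2 := by positivity
      linarith
    have hz : ∀ G : E3 → ℂ, (fun w : ℂ => Ω.indicator (fun x => ‖G x‖ ^ 2) (JN2.nmIns i w y)) =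
        fun _ => 0 := by
      intro G
      funext w
      exact Set.indicator_of_notMem (hno w) _
    have hz' : (fun w : ℂ => A.indicator (fun x => ‖D x‖ ^ 2) (JN2.nmIns i w y)) =
        fun _ => 0 := by
      funext w
      exact Set.indicator_of_notMem (fun h => hno w (hAs h)) _
    rw [hz, hz, hz']
    simp
  · have hca : c ≤ 1 := by
      by_contra hcon
      push Not at hcon
      have hpos : 0 ≤ (c + 1) / 2 := by linarith
      have hn : ‖((Real.sqrt ((c + 1) / 2) : ℝ) : ℂ)‖ ^ 2 = (c + 1) / 2 := by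
        rw [Complex.norm_real, Real.norm_eq_abs, sq_abs, Real.sq_sqrt hpos]
      have hmem := (hcc ((Real.sqrt ((c + 1) / 2) : ℝ) : ℂ)).mpr (by rw [hn]; linarith)
      have h2 := hA _ hmem
      rw [JN2.nmIns_same, hn] at h2
      linarith
    have hR : 0 < Real.sqrt c := Real.sqrt_pos.mpr hc0
    have hR2 : Real.sqrt c ^ 2 = c := Real.sq_sqrt hc0.le
    have hb : ∀ w : ℂ, w ∈ Metric.ball (0 : ℂ) (Real.sqrt c) ↔ ‖w‖ ^ 2 < c := by
      intro w
      rw [mem_ball_zero_iff]
      constructor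
      · intro h
        calc ‖w‖ ^ 2 < Real.sqrt c ^ 2 := pow_lt_pow_left₀ h (norm_nonneg _) (by norm_num)
          _ = c := hR2
      · intro h
        exact Real.lt_sqrt_of_sq_lt h
    have hz : ∀ G : E3 → ℂ, (fun w : ℂ => Ω.indicator (fun x => ‖G x‖ ^ 2) (JN2.nmIns i w y)) =
        (Metric.ball (0 : ℂ) (Real.sqrt c)).indicator (fun w => ‖G (JN2.nmIns i w y)‖ ^ 2) := by
      intro G
      funext w
      by_cases hw : ‖w‖ ^ 2 < c
      · rw [Set.indicator_of_mem ((hcc w).mpr hw), Set.indicator_of_mem ((hb w).mpr hw)]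
      · rw [Set.indicator_of_notMem (fun h => hw ((hcc w).mp h)),
          Set.indicator_of_notMem (fun h => hw ((hb w).mp h))]
    rw [hz, hz, integral_indicator Metric.isOpen_ball.measurableSet,
      integral_indicator Metric.isOpen_ball.measurableSet]
    obtain ⟨a, ha⟩ := hDF (JN2.nmIns i 0 y)
    have hfe : (fun w => D (JN2.nmIns i w y)) =
        fun w => F (JN2.nmIns i w y) - a * w ^ m := by
      funext w
      rw [JN2.nmIns_eq i w 0 y]
      exact ha w
    have hFs : ContDiff ℝ ∞ (fun w => F (JN2.nmIns i w y)) := hF.comp (JN2.nm_contDiff i y)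
    have hf : ContDiff ℝ ∞ (fun w => D (JN2.nmIns i w y)) := by
      rw [hfe]
      exact hFs.sub (contDiff_const.mul (contDiff_id.pow m))
    have hfm : ∀ (θ : ℝ) (w : ℂ), (fun w => D (JN2.nmIns i w y)) (Complex.exp (θ * I) * w) =
        Complex.exp (I * (((m : ℤ) : ℂ) * θ)) * (fun w => D (JN2.nmIns i w y)) w := by
      intro θ w
      rw [hfe]
      have h := hmode θ (JN2.nmIns i w y)
      rw [JN2.nmIns_same, ← JN2.nmIns_eq] at h
      beta_reduce
      rw [h, mul_pow, ← Complex.exp_nat_mul]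
      have e1 : (m : ℂ) * (θ * I) = I * (((m : ℤ) : ℂ) * θ) := by
        push_cast
        ring
      rw [e1]
      ring
    have hlay := hL (m : ℤ) (by rw [abs_of_nonneg (by positivity)]; exact_mod_cast hm) _ hf hfm
      (Real.sqrt c) (2 * h) hR (by linarith) (by linarith)
    rw [hR2] at hlay
    have hdbe : (fun w => ‖db1 (fun w => D (JN2.nmIns i w y)) w‖ ^ 2) =
        fun w => ‖dbar i F (JN2.nmIns i w y)‖ ^ 2 := by
      funext w
      rw [hfe, tp_db1_sub _ hFs, JN2.nm_db1 i y F hF w]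
    rw [hdbe] at hlay
    have hfirst : ∫ w : ℂ, A.indicator (fun x => ‖D x‖ ^ 2) (JN2.nmIns i w y) ≤
        ∫ w in Metric.ball (0 : ℂ) (Real.sqrt c) \
          Metric.closedBall (0 : ℂ) ((1 - 2 * h) * Real.sqrt c),
          ‖D (JN2.nmIns i w y)‖ ^ 2 := by
      have hsm : MeasurableSet (Metric.ball (0 : ℂ) (Real.sqrt c) \
          Metric.closedBall (0 : ℂ) ((1 - 2 * h) * Real.sqrt c)) :=
        Metric.isOpen_ball.measurableSet.diff Metric.isClosed_closedBall.measurableSet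
      rw [← integral_indicator hsm]
      apply integral_mono_of_nonneg
      · refine Eventually.of_forall (fun w => ?_)
        exact Set.indicator_nonneg (fun x _ => by positivity) _
      · rw [integrable_indicator_iff hsm]
        have hc : IsCompact (Metric.closedBall (0 : ℂ) (Real.sqrt c)) :=
          isCompact_closedBall _ _
        exact ((hf.continuous.norm.pow 2).continuousOn.integrableOn_compact hc).mono_set
          (fun w hw => Metric.ball_subset_closedBall hw.1)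
      · refine Eventually.of_forall (fun w => ?_)
        beta_reduce
        by_cases hw : JN2.nmIns i w y ∈ A
        · rw [Set.indicator_of_mem hw, Set.indicator_of_mem]
          have hw1 : ‖w‖ ^ 2 < c := (hcc w).1 (hAs hw)
          refine ⟨(hb w).2 hw1, ?_⟩
          rw [hAdef] at hw
          have hw2 := hw.2
          rw [JN2.nmIns_same, ← JN2.nmIns_eq, hcc] at hw2
          push Not at hw2
          rw [mem_closedBall_zero_iff]
          push Not
          have h1h : 0 < 1 - h := by linarith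
          have hn1 : ‖(((1 - h)⁻¹ : ℝ) : ℂ) * w‖ = (1 - h)⁻¹ * ‖w‖ := by
            rw [norm_mul, Complex.norm_real, Real.norm_eq_abs, abs_of_pos (by positivity)]
          rw [hn1] at hw2
          have hn2 : Real.sqrt c ≤ (1 - h)⁻¹ * ‖w‖ := by
            rw [Real.sqrt_le_left (by positivity)]
            exact hw2
          have hn3 : (1 - h) * Real.sqrt c ≤ ‖w‖ := by
            have := mul_le_mul_of_nonneg_left hn2 h1h.le
            rwa [← mul_assoc, mul_inv_cancel₀ h1h.ne', one_mul] at this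
          nlinarith
        · rw [Set.indicator_of_notMem hw]
          exact Set.indicator_nonneg (fun x _ => by positivity) _
    refine hfirst.trans (hlay.trans ?_)
    apply mul_le_mul_of_nonneg_left _ (by positivity)
    have hnn : 0 ≤ ∫ w in Metric.ball (0 : ℂ) (Real.sqrt c), ‖dbar i F (JN2.nmIns i w y)‖ ^ 2 :=
      integral_nonneg (fun w => by positivity)
    nlinarith

theorem tl_pos (hP : PosMain_stmt) (hL : Layer_stmt) (hM : MemC_stmt) (hD : DomC_stmt)
    (hF : FFs_stmt) (hK : KK_stmt) (hC : CAc_stmt) : TL_prop Om (fun j k => 0 ≤ j ∧ 0 ≤ k) := by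
  obtain ⟨C, hC0, hP⟩ := hP
  obtain ⟨hOo, _, hOb, hOrot, _, hcl, _, _⟩ := hD
  refine ⟨C, hC0, ?_⟩
  intro η hη
  obtain ⟨n0, N, hPN⟩ := hP (η / 2) (by linarith)
  obtain ⟨C', hC', hLay⟩ := hL n0
  obtain ⟨h, hh0, hh4, hhη⟩ : ∃ h : ℝ, 0 < h ∧ h ≤ 1 / 4 ∧ 4 * C' * h * (C + 1) ≤ η / 2 := by
    refine ⟨min (1 / 4) (η / (8 * (C' + 1) * (C + 1))), ?_, min_le_left _ _, ?_⟩
    · apply lt_min (by norm_num)
      positivity
    · have h1 : min (1 / 4) (η / (8 * (C' + 1) * (C + 1))) ≤ η / (8 * (C' + 1) * (C + 1)) :=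
        min_le_right _ _
      have h2 : 4 * C' * min (1 / 4) (η / (8 * (C' + 1) * (C + 1))) * (C + 1) ≤
          4 * C' * (η / (8 * (C' + 1) * (C + 1))) * (C + 1) := by
        apply mul_le_mul_of_nonneg_right _ (by linarith)
        exact mul_le_mul_of_nonneg_left h1 (by linarith)
      refine h2.trans ?_
      have h3 : 4 * C' * (η / (8 * (C' + 1) * (C + 1))) * (C + 1) = (C' / (C' + 1)) * (η / 2) := by
        field_simp
        ring
      rw [h3]
      have h4 : C' / (C' + 1) ≤ 1 := by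
        rw [div_le_one (by linarith)]
        linarith
      nlinarith
  obtain ⟨hKc, hKs, hKr⟩ := hK N h hh0 (by linarith)
  refine ⟨KK N h, hKc, hKs, hKr, ?_⟩
  rintro j k ⟨hj, hk⟩ F hF hFm
  obtain ⟨j, rfl⟩ := Int.eq_ofNat_of_zero_le hj
  obtain ⟨k, rfl⟩ := Int.eq_ofNat_of_zero_le hk
  obtain ⟨H0, hmem, hhol, htot, hlarge, hT⟩ := hPN j k F hF hFm
  refine ⟨fun x => H0 (x 0) * x 1 ^ j * x 2 ^ k, hmem, hhol, htot, ?_⟩
  have hS0 : 0 ≤ ∑ i, ∫ x in Om, ‖dbar i F x‖ ^ 2 :=
    Finset.sum_nonneg (fun i _ => integral_nonneg (fun x => by positivity))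
  have hmeas : MeasurableSet Om := hOo.measurableSet
  have hFmem : MemLp F 2 (volume.restrict Om) := by
    obtain ⟨B, hB⟩ := (hOb.isCompact_closure.image hF.continuous.norm).bddAbove
    have hfin : IsFiniteMeasure ((volume : Measure E3).restrict Om) :=
      ⟨by rw [Measure.restrict_apply_univ]; exact hOb.measure_lt_top⟩
    apply MemLp.of_bound hF.continuous.aestronglyMeasurable B
    filter_upwards [ae_restrict_mem hmeas] with x hx
    exact hB ⟨x, subset_closure hx, rfl⟩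
  have hDint : IntegrableOn (fun x => ‖F x - H0 (x 0) * x 1 ^ j * x 2 ^ k‖ ^ 2) Om := by
    have h1 := hFmem.sub hmem
    exact (memLp_two_iff_integrable_sq_norm h1.1).1 h1
  by_cases hn : n0 ≤ j ∨ n0 ≤ k
  · have h1 := hlarge hn
    have h2 : ∫ x in Om \ KK N h, ‖F x - H0 (x 0) * x 1 ^ j * x 2 ^ k‖ ^ 2 ≤
        ∫ x in Om, ‖F x - H0 (x 0) * x 1 ^ j * x 2 ^ k‖ ^ 2 :=
      setIntegral_mono_set hDint (Eventually.of_forall (fun x => by positivity))
        (Eventually.of_forall (fun x hx => hx.1))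
    refine h2.trans (h1.trans ?_)
    nlinarith
  · push Not at hn
    obtain ⟨hjn, hkn⟩ := hn
    have hDint' : Integrable (Om.indicator
        (fun x => ‖F x - H0 (x 0) * x 1 ^ j * x 2 ^ k‖ ^ 2)) volume := by
      rw [integrable_indicator_iff hmeas]
      exact hDint
    have hm1 : ∀ (θ : ℝ) (x : E3), F (Function.update x 1 (Complex.exp (θ * I) * x 1)) =
        Complex.exp (I * (((j : ℤ) : ℂ) * θ)) * F x := by
      intro θ x
      rw [← JN2.nm_rot1, hFm θ 0 x]
      congr 2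
      push_cast
      ring
    have hm2 : ∀ (θ : ℝ) (x : E3), F (Function.update x 2 (Complex.exp (θ * I) * x 2)) =
        Complex.exp (I * (((k : ℤ) : ℂ) * θ)) * F x := by
      intro θ x
      rw [← JN2.nm_rot2, hFm 0 θ x]
      congr 2
      push_cast
      ring
    have hA1 := tp_layer n0 C' hC' hLay Om hOo hOb 1 j hjn.le F
      (fun x => F x - H0 (x 0) * x 1 ^ j * x 2 ^ k) hF hm1 hDint' (by
        intro x
        refine ⟨H0 (x 0) * x 2 ^ k, fun w => ?_⟩
        have h0 : Function.update x 1 w 0 = x 0 := by simp [Function.update]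
        have h1 : Function.update x 1 w 1 = w := by simp
        have h2 : Function.update x 1 w 2 = x 2 := by simp [Function.update]
        rw [h0, h1, h2]
        ring) (by
        intro x
        by_cases hc : ‖x 0‖ ^ 2 < T0 ∧ ‖x 2‖ ^ 2 < d0 (‖x 0‖ ^ 2)
        · refine ⟨R2 (‖x 0‖ ^ 2) (‖x 2‖ / Real.sqrt (d0 (‖x 0‖ ^ 2))), ?_⟩
          intro w
          rw [hM]
          have h0 : Function.update x 1 w 0 = x 0 := by simp [Function.update]
          have h1 : Function.update x 1 w 1 = w := by simp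
          have h2 : Function.update x 1 w 2 = x 2 := by simp [Function.update]
          rw [h0, h1, h2]
          exact ⟨fun hh => hh.2.2, fun hh => ⟨hc.1, hc.2, hh⟩⟩
        · refine ⟨0, ?_⟩
          intro w
          rw [hM]
          have h0 : Function.update x 1 w 0 = x 0 := by simp [Function.update]
          have h2 : Function.update x 1 w 2 = x 2 := by simp [Function.update]
          rw [h0, h2]
          constructor
          · intro hh; exact absurd ⟨hh.1, hh.2.1⟩ hc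
          · intro hh
            have : 0 ≤ ‖w‖ ^ 2 := by positivity
            linarith) (by
        intro x hx
        have := (hcl x (subset_closure hx)).2.1
        linarith) h hh0 hh4
    have hA2 := tp_layer n0 C' hC' hLay Om hOo hOb 2 k hkn.le F
      (fun x => F x - H0 (x 0) * x 1 ^ j * x 2 ^ k) hF hm2 hDint' (by
        intro x
        refine ⟨H0 (x 0) * x 1 ^ j, fun w => ?_⟩
        have h0 : Function.update x 2 w 0 = x 0 := by simp [Function.update]
        have h1 : Function.update x 2 w 1 = x 1 := by simp [Function.update]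
        have h2 : Function.update x 2 w 2 = w := by simp
        rw [h0, h1, h2]) (by
        intro x
        by_cases hc : ‖x 0‖ ^ 2 < 2
        · refine ⟨1 - w0 (‖x 0‖ ^ 2) - Gy (‖x 0‖ ^ 2) (‖x 1‖ ^ 2), ?_⟩
          intro w
          have h0 : Function.update x 2 w 0 = x 0 := by simp [Function.update]
          have h1 : Function.update x 2 w 1 = x 1 := by simp [Function.update]
          have h2 : Function.update x 2 w 2 = w := by simp
          show (‖Function.update x 2 w 0‖ ^ 2 < 2 ∧ w0 (‖Function.update x 2 w 0‖ ^ 2) +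
            Gy (‖Function.update x 2 w 0‖ ^ 2) (‖Function.update x 2 w 1‖ ^ 2) +
            ‖Function.update x 2 w 2‖ ^ 2 < 1) ↔ _
          rw [h0, h1, h2]
          constructor
          · rintro ⟨_, hh⟩; linarith
          · intro hh; exact ⟨hc, by linarith⟩
        · refine ⟨0, ?_⟩
          intro w
          have h0 : Function.update x 2 w 0 = x 0 := by simp [Function.update]
          constructor
          · intro hh
            have h3 : ‖Function.update x 2 w 0‖ ^ 2 < 2 := hh.1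
            rw [h0] at h3
            exact absurd h3 hc
          · intro hh
            have : 0 ≤ ‖w‖ ^ 2 := by positivity
            linarith) (by
        intro x hx
        exact (hcl x (subset_closure hx)).2.2.1) h hh0 hh4
    obtain ⟨A1, hA1d⟩ : ∃ A : Set E3, A = {x | x ∈ Om ∧
      Function.update x 1 ((((1 - h)⁻¹ : ℝ) : ℂ) * x 1) ∉ Om} := ⟨_, rfl⟩
    obtain ⟨A2, hA2d⟩ : ∃ A : Set E3, A = {x | x ∈ Om ∧
      Function.update x 2 ((((1 - h)⁻¹ : ℝ) : ℂ) * x 2) ∉ Om} := ⟨_, rfl⟩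
    rw [← hA1d] at hA1
    rw [← hA2d] at hA2
    have h1h : 0 < 1 - h := by linarith
    have hcmp : ∀ (w : ℂ) (c : ℝ), ¬ ‖w‖ ≤ (1 - h) * Real.sqrt c →
        ¬ ‖(((1 - h)⁻¹ : ℝ) : ℂ) * w‖ ^ 2 < c := by
      intro w c hw hw2
      apply hw
      rw [norm_mul, Complex.norm_real, Real.norm_eq_abs, abs_of_pos (by positivity)] at hw2
      have h3 := (Real.lt_sqrt_of_sq_lt hw2).le
      have h4 := mul_le_mul_of_nonneg_left h3 h1h.le
      rwa [← mul_assoc, mul_inv_cancel₀ h1h.ne', one_mul] at h4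
    have hsub : Om \ KK N h ⊆ ((Om ∩ {x | N ≤ La (‖x 0‖ ^ 2)}) ∪ A1) ∪ A2 := by
      rintro x ⟨hx, hxK⟩
      have hxm := (hM x).1 hx
      by_cases c1 : La (‖x 0‖ ^ 2) ≤ N
      · by_cases c2 : ‖x 2‖ ≤ (1 - h) * Real.sqrt (d0 (‖x 0‖ ^ 2))
        · by_cases c3 : ‖x 1‖ ≤ (1 - h) * Real.sqrt (R2 (‖x 0‖ ^ 2)
              (‖x 2‖ / Real.sqrt (d0 (‖x 0‖ ^ 2))))
          · exact absurd ⟨hxm.1, c1, c2, c3⟩ hxK
          · left; right
            rw [hA1d]
            refine ⟨hx, fun hx' => ?_⟩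
            have h5 := ((hM _).1 hx').2.2
            have h0 : Function.update x 1 ((((1 - h)⁻¹ : ℝ) : ℂ) * x 1) 0 = x 0 := by
              simp [Function.update]
            have h1 : Function.update x 1 ((((1 - h)⁻¹ : ℝ) : ℂ) * x 1) 1 =
              (((1 - h)⁻¹ : ℝ) : ℂ) * x 1 := by simp
            have h2 : Function.update x 1 ((((1 - h)⁻¹ : ℝ) : ℂ) * x 1) 2 = x 2 := by
              simp [Function.update]
            rw [h0, h1, h2] at h5
            exact hcmp _ _ c3 h5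
        · right
          rw [hA2d]
          refine ⟨hx, fun hx' => ?_⟩
          have h5 := ((hM _).1 hx').2.1
          have h0 : Function.update x 2 ((((1 - h)⁻¹ : ℝ) : ℂ) * x 2) 0 = x 0 := by
            simp [Function.update]
          have h2 : Function.update x 2 ((((1 - h)⁻¹ : ℝ) : ℂ) * x 2) 2 =
            (((1 - h)⁻¹ : ℝ) : ℂ) * x 2 := by simp
          rw [h0, h2] at h5
          exact hcmp _ _ c2 h5
      · left; left
        push Not at c1
        exact ⟨hx, c1.le⟩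
    have hA1s : A1 ⊆ Om := by
      rw [hA1d]
      exact fun x hx => hx.1
    have hA2s : A2 ⊆ Om := by
      rw [hA2d]
      exact fun x hx => hx.1
    have hTs : Om ∩ {x | N ≤ La (‖x 0‖ ^ 2)} ⊆ Om := Set.inter_subset_left
    have hfn : ∀ x : E3, 0 ≤ ‖F x - H0 (x 0) * x 1 ^ j * x 2 ^ k‖ ^ 2 := fun x => by positivity
    have hU1 := tp_union _ hfn (Om ∩ {x | N ≤ La (‖x 0‖ ^ 2)}) A1 (hDint.mono_set hTs)
      (hDint.mono_set hA1s)
    have hU2 := tp_union _ hfn ((Om ∩ {x | N ≤ La (‖x 0‖ ^ 2)}) ∪ A1) A2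
      (hDint.mono_set (Set.union_subset hTs hA1s)) (hDint.mono_set hA2s)
    have hU3 : ∫ x in Om \ KK N h, ‖F x - H0 (x 0) * x 1 ^ j * x 2 ^ k‖ ^ 2 ≤
        ∫ x in ((Om ∩ {x | N ≤ La (‖x 0‖ ^ 2)}) ∪ A1) ∪ A2,
          ‖F x - H0 (x 0) * x 1 ^ j * x 2 ^ k‖ ^ 2 :=
      setIntegral_mono_set (hDint.mono_set (Set.union_subset (Set.union_subset hTs hA1s) hA2s))
        (Eventually.of_forall hfn) (Eventually.of_forall (fun x hx => hsub hx))
    have hs1 : ∫ x in Om, ‖dbar 1 F x‖ ^ 2 ≤ ∑ l, ∫ x in Om, ‖dbar l F x‖ ^ 2 :=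
      Finset.single_le_sum (f := fun l => ∫ x in Om, ‖dbar l F x‖ ^ 2)
        (fun l _ => integral_nonneg (fun x => by positivity)) (Finset.mem_univ 1)
    have hs2 : ∫ x in Om, ‖dbar 2 F x‖ ^ 2 ≤ ∑ l, ∫ x in Om, ‖dbar l F x‖ ^ 2 :=
      Finset.single_le_sum (f := fun l => ∫ x in Om, ‖dbar l F x‖ ^ 2)
        (fun l _ => integral_nonneg (fun x => by positivity)) (Finset.mem_univ 2)
    have hB1 : ∫ x in A1, ‖F x - H0 (x 0) * x 1 ^ j * x 2 ^ k‖ ^ 2 ≤
        C' * (2 * h) * ((C + 1) * ∑ l, ∫ x in Om, ‖dbar l F x‖ ^ 2) := by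
      refine hA1.trans ?_
      apply mul_le_mul_of_nonneg_left _ (by positivity)
      linarith
    have hB2 : ∫ x in A2, ‖F x - H0 (x 0) * x 1 ^ j * x 2 ^ k‖ ^ 2 ≤
        C' * (2 * h) * ((C + 1) * ∑ l, ∫ x in Om, ‖dbar l F x‖ ^ 2) := by
      refine hA2.trans ?_
      apply mul_le_mul_of_nonneg_left _ (by positivity)
      linarith
    have hfin : 4 * C' * h * (C + 1) * ∑ l, ∫ x in Om, ‖dbar l F x‖ ^ 2 ≤
        η / 2 * ∑ l, ∫ x in Om, ‖dbar l F x‖ ^ 2 := mul_le_mul_of_nonneg_right hhη hS0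
    have hring : C' * (2 * h) * ((C + 1) * ∑ l, ∫ x in Om, ‖dbar l F x‖ ^ 2) +
        C' * (2 * h) * ((C + 1) * ∑ l, ∫ x in Om, ‖dbar l F x‖ ^ 2) =
        4 * C' * h * (C + 1) * ∑ l, ∫ x in Om, ‖dbar l F x‖ ^ 2 := by ring
    have hring2 : η / 2 * (∑ l, ∫ x in Om, ‖dbar l F x‖ ^ 2) +
        η / 2 * (∑ l, ∫ x in Om, ‖dbar l F x‖ ^ 2) = η * (∑ l, ∫ x in Om, ‖dbar l F x‖ ^ 2) := by
      ring
    linarith

end DbarC.JTP
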