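import Pool.Agent.H314.DC.St3

set_option autoImplicit false

open MeasureTheory Complex Filter Topology
open scoped ContDiff InnerProductSpace ENNReal ComplexConjugate

namespace DbarC.JVK

open DbarN

/-- weight on the fibre -/
noncomputable def vkW (j k : ℕ) (t v s : ℝ) : ℝ := v ^ (2 * j + 1) * den j k t s

/-- the open square -/
def vkS : Set (ℝ × ℝ) := Set.Ioo (0 : ℝ) 1 ×ˢ Set.Ioo (0 : ℝ) 1

theorem vkS_meas : MeasurableSet vkS := measurableSet_Ioo.prod measurableSet_Ioo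

/-- admissible functions -/
def N1 {E : Type} [NormedAddCommGroup E] (j k : ℕ) (t : ℝ) (H : ℝ → ℝ → E) : Prop :=
  ContinuousOn (fun x : ℝ × ℝ => H x.1 x.2) vkS ∧
    ∃ C : ℝ, ∀ v ∈ Set.Ioo (0 : ℝ) 1, ∀ s ∈ Set.Ioo (0 : ℝ) 1, ‖H v s‖ * vkW j k t v s ≤ C

/-- square admissible functions -/
def N2 (j k : ℕ) (t : ℝ) (H : ℝ → ℝ → ℂ) : Prop :=
  ContinuousOn (fun x : ℝ × ℝ => H x.1 x.2) vkS ∧
    ∃ C : ℝ, ∀ v ∈ Set.Ioo (0 : ℝ) 1, ∀ s ∈ Set.Ioo (0 : ℝ) 1, ‖H v s‖ ^ 2 * vkW j k t v s ≤ C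

section basics

variable {j k : ℕ} {t : ℝ}

theorem vk_Yc_le (hC : CAc_stmt) (ht0 : 0 ≤ t) (ht : t < T0) {s : ℝ} (h0 : 0 ≤ s) (h1 : s < 1) :
    Yc t s ≤ 0 := by
  obtain ⟨-, -, -, -, hl, -, -, -, -, -, -, -, -, -, -, -, -, hR, -⟩ :=
    hC t s (by linarith) ht h0 h1
  have h2 := hR ht0
  have h3 : 1 / l0 t s ≤ 1 := by
    rw [div_le_one (by linarith)]
    linarith
  have h4 : Real.exp (Yc t s) ≤ 1 := le_trans h2 h3
  exact Real.exp_le_one_iff.mp h4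

theorem vk_den_pos {s : ℝ} (h0 : 0 < s) : 0 < den j k t s := by
  unfold den
  positivity

theorem vk_den_le (hC : CAc_stmt) (ht0 : 0 ≤ t) (ht : t < T0) {s : ℝ} (h0 : 0 < s) (h1 : s < 1) :
    den j k t s ≤ 1 := by
  unfold den
  have h2 : s ^ (2 * k + 1) ≤ 1 := pow_le_one₀ h0.le h1.le
  have h3 : Real.exp ((j + 1) * Yc t s) ≤ 1 := by
    rw [Real.exp_le_one_iff]
    exact mul_nonpos_of_nonneg_of_nonpos (by positivity) (vk_Yc_le hC ht0 ht h0.le h1)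
  calc s ^ (2 * k + 1) * Real.exp ((j + 1) * Yc t s) ≤ 1 * 1 :=
        mul_le_mul h2 h3 (Real.exp_pos _).le zero_le_one
    _ = 1 := one_mul 1

theorem vk_cont {f f' : ℝ → ℝ} (h : ∀ s, 0 ≤ s → s < 1 → HasDerivAt f (f' s) s) :
    ContinuousOn f (Set.Ioo (0 : ℝ) 1) := fun s hs =>
  (h s hs.1.le hs.2).continuousAt.continuousWithinAt

theorem vk_cYc (hC : CAc_stmt) (ht0 : 0 ≤ t) (ht : t < T0) :
    ContinuousOn (fun s => Yc t s) (Set.Ioo (0 : ℝ) 1) :=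
  vk_cont (f' := fun s => Ycs t s) fun s h0 h1 =>
    (hC t s (by linarith) ht h0 h1).2.2.2.2.2.2.2.2.2.2.2.2.2.2.1

theorem vk_cYcs (hC : CAc_stmt) (ht0 : 0 ≤ t) (ht : t < T0) :
    ContinuousOn (fun s => Ycs t s) (Set.Ioo (0 : ℝ) 1) :=
  vk_cont (f' := fun s => Ycss t s) fun s h0 h1 =>
    (hC t s (by linarith) ht h0 h1).2.2.2.2.2.2.2.2.2.2.2.2.2.2.2.2.1

theorem vk_cR (hC : CAc_stmt) (ht0 : 0 ≤ t) (ht : t < T0) :
    ContinuousOn (fun s => R2 t s) (Set.Ioo (0 : ℝ) 1) := by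
  unfold R2
  exact (vk_cYc hC ht0 ht).rexp

theorem vk_cden (hC : CAc_stmt) (ht0 : 0 ≤ t) (ht : t < T0) :
    ContinuousOn (fun s => den j k t s) (Set.Ioo (0 : ℝ) 1) := by
  unfold den
  exact (continuousOn_pow _).mul ((continuousOn_const.mul (vk_cYc hC ht0 ht)).rexp)

/-- functions of `s` on the square -/
theorem vk_snd {E : Type} [TopologicalSpace E] {f : ℝ → E}
    (hf : ContinuousOn f (Set.Ioo (0 : ℝ) 1)) :
    ContinuousOn (fun x : ℝ × ℝ => f x.2) vkS :=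
  hf.comp continuousOn_snd fun _ hx => hx.2

theorem vk_cW (hC : CAc_stmt) (ht0 : 0 ≤ t) (ht : t < T0) :
    ContinuousOn (fun x : ℝ × ℝ => vkW j k t x.1 x.2) vkS := by
  unfold vkW
  exact ((continuous_fst.pow _).continuousOn).mul (vk_snd (vk_cden hC ht0 ht))

theorem vk_W_pos {v s : ℝ} (hv : 0 < v) (hs : 0 < s) : 0 < vkW j k t v s := by
  unfold vkW
  have := vk_den_pos (j := j) (k := k) (t := t) hs
  positivity

theorem vk_W_le (hC : CAc_stmt) (ht0 : 0 ≤ t) (ht : t < T0) {v s : ℝ} (hv0 : 0 < v) (hv : v < 1)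
    (hs0 : 0 < s) (hs : s < 1) : vkW j k t v s ≤ 1 := by
  unfold vkW
  have h2 : v ^ (2 * j + 1) ≤ 1 := pow_le_one₀ hv0.le hv.le
  calc v ^ (2 * j + 1) * den j k t s ≤ 1 * 1 :=
        mul_le_mul h2 (vk_den_le hC ht0 ht hs0 hs) (vk_den_pos hs0).le zero_le_one
    _ = 1 := one_mul 1

theorem vk_den_int (hC : CAc_stmt) (ht0 : 0 ≤ t) (ht : t < T0) :
    IntegrableOn (fun s => den j k t s) (Set.Ioo (0 : ℝ) 1) := by
  refine Integrable.of_bound ((vk_cden hC ht0 ht).aestronglyMeasurable measurableSet_Ioo) 1 ?_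
  refine (ae_restrict_mem measurableSet_Ioo).mono fun s hs => ?_
  rw [Real.norm_eq_abs, abs_of_pos (vk_den_pos hs.1)]
  exact vk_den_le hC ht0 ht hs.1 hs.2

theorem vk_Iw_pos (hC : CAc_stmt) (ht0 : 0 ≤ t) (ht : t < T0) : 0 < Iw j k t := by
  unfold Iw
  rw [setIntegral_pos_iff_support_of_nonneg_ae]
  · have : Function.support (fun s => den j k t s) ∩ Set.Ioo (0 : ℝ) 1 = Set.Ioo (0 : ℝ) 1 := by
      ext s
      constructor
      · exact fun h => h.2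
      · exact fun h => ⟨(vk_den_pos h.1).ne', h⟩
    rw [this]
    simp
  · refine (ae_restrict_mem measurableSet_Ioo).mono fun s hs => ?_
    exact (vk_den_pos hs.1).le
  · exact vk_den_int hC ht0 ht

theorem vk_c_pos (hC : CAc_stmt) (ht0 : 0 ≤ t) (ht : t < T0) :
    0 < ((2 * j + 2) / Iw j k t : ℝ) := by
  have := vk_Iw_pos (j := j) (k := k) hC ht0 ht
  positivity

theorem N1.int {E : Type} [NormedAddCommGroup E] [NormedSpace ℝ E] {H : ℝ → ℝ → E}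
    (hC : CAc_stmt) (ht0 : 0 ≤ t) (ht : t < T0) (hH : N1 j k t H) :
    IntegrableOn (fun x : ℝ × ℝ => vkW j k t x.1 x.2 • H x.1 x.2) vkS := by
  obtain ⟨h1, C, hCC⟩ := hH
  have hfin : IsFiniteMeasure ((volume : Measure (ℝ × ℝ)).restrict vkS) := by
    constructor
    rw [Measure.restrict_apply_univ]
    unfold vkS
    rw [Measure.volume_eq_prod, Measure.prod_prod]
    simp
  refine Integrable.of_bound (((vk_cW hC ht0 ht).smul h1).aestronglyMeasurable vkS_meas) C ?_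
  · refine (ae_restrict_mem vkS_meas).mono fun x hx => ?_
    have h2 := vk_W_pos (j := j) (k := k) (t := t) hx.1.1 hx.2.1
    rw [norm_smul, Real.norm_eq_abs, abs_of_pos h2, mul_comm]
    exact hCC x.1 hx.1 x.2 hx.2

theorem vk_EE_eq (hC : CAc_stmt) (ht0 : 0 ≤ t) (ht : t < T0) {H : ℝ → ℝ → ℝ}
    (hH : N1 j k t H) :
    EE j k t H = (∫ x in vkS, vkW j k t x.1 x.2 • H x.1 x.2) * ((2 * j + 2) / Iw j k t) := by
  unfold EE
  congr 1
  have h1 := hH.int hC ht0 ht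
  unfold vkS at h1 ⊢
  rw [Measure.volume_eq_prod] at h1 ⊢
  rw [setIntegral_prod _ h1]
  refine setIntegral_congr_fun measurableSet_Ioo fun v _ => ?_
  refine setIntegral_congr_fun measurableSet_Ioo fun s _ => ?_
  simp only [smul_eq_mul, vkW]
  ring

theorem vk_EC_eq (hC : CAc_stmt) (ht0 : 0 ≤ t) (ht : t < T0) {H : ℝ → ℝ → ℂ}
    (hH : N1 j k t H) :
    EC j k t H = (∫ x in vkS, vkW j k t x.1 x.2 • H x.1 x.2) *
      (((2 * j + 2) / Iw j k t : ℝ) : ℂ) := by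
  unfold EC
  congr 1
  have h1 := hH.int hC ht0 ht
  unfold vkS at h1 ⊢
  rw [Measure.volume_eq_prod] at h1 ⊢
  rw [setIntegral_prod _ h1]
  refine setIntegral_congr_fun measurableSet_Ioo fun v _ => ?_
  refine setIntegral_congr_fun measurableSet_Ioo fun s _ => ?_
  simp only [Complex.real_smul, vkW]
  ring

theorem vk_EE_add (hC : CAc_stmt) (ht0 : 0 ≤ t) (ht : t < T0) {H G : ℝ → ℝ → ℝ}
    (hH : N1 j k t H) (hG : N1 j k t G) :
    N1 j k t (fun v s => H v s + G v s) ∧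
    EE j k t (fun v s => H v s + G v s) = EE j k t H + EE j k t G := by
  have hs : N1 j k t (fun v s => H v s + G v s) := by
    obtain ⟨h1, C, hCC⟩ := hH
    obtain ⟨h2, D, hD⟩ := hG
    refine ⟨h1.add h2, C + D, fun v hv s hs => ?_⟩
    have hW := (vk_W_pos (j := j) (k := k) (t := t) hv.1 hs.1).le
    calc ‖H v s + G v s‖ * vkW j k t v s ≤ (‖H v s‖ + ‖G v s‖) * vkW j k t v s :=
          mul_le_mul_of_nonneg_right (norm_add_le _ _) hW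
      _ = ‖H v s‖ * vkW j k t v s + ‖G v s‖ * vkW j k t v s := by ring
      _ ≤ C + D := add_le_add (hCC v hv s hs) (hD v hv s hs)
  refine ⟨hs, ?_⟩
  rw [vk_EE_eq hC ht0 ht hs, vk_EE_eq hC ht0 ht hH, vk_EE_eq hC ht0 ht hG, ← add_mul,
    ← integral_add (hH.int hC ht0 ht) (hG.int hC ht0 ht)]
  congr 1
  refine setIntegral_congr_fun vkS_meas fun x _ => ?_
  simp only [smul_eq_mul]
  ring

theorem vk_EE_mul (hC : CAc_stmt) (ht0 : 0 ≤ t) (ht : t < T0) {H : ℝ → ℝ → ℝ} (c : ℝ)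
    (hH : N1 j k t H) :
    N1 j k t (fun v s => c * H v s) ∧
    EE j k t (fun v s => c * H v s) = c * EE j k t H := by
  have hs : N1 j k t (fun v s => c * H v s) := by
    obtain ⟨h1, C, hCC⟩ := hH
    refine ⟨continuousOn_const.mul h1, |c| * C, fun v hv s hs => ?_⟩
    rw [norm_mul, Real.norm_eq_abs, mul_assoc]
    exact mul_le_mul_of_nonneg_left (hCC v hv s hs) (abs_nonneg _)
  refine ⟨hs, ?_⟩
  rw [vk_EE_eq hC ht0 ht hs, vk_EE_eq hC ht0 ht hH, ← mul_assoc, ← integral_const_mul]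
  congr 1
  refine setIntegral_congr_fun vkS_meas fun x _ => ?_
  simp only [smul_eq_mul]
  ring

theorem vk_EE_mono (hC : CAc_stmt) (ht0 : 0 ≤ t) (ht : t < T0) {H G : ℝ → ℝ → ℝ}
    (hH : N1 j k t H) (hG : N1 j k t G)
    (h : ∀ v ∈ Set.Ioo (0 : ℝ) 1, ∀ s ∈ Set.Ioo (0 : ℝ) 1, H v s ≤ G v s) :
    EE j k t H ≤ EE j k t G := by
  rw [vk_EE_eq hC ht0 ht hH, vk_EE_eq hC ht0 ht hG]
  refine mul_le_mul_of_nonneg_right ?_ (vk_c_pos hC ht0 ht).le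
  refine setIntegral_mono_on (hH.int hC ht0 ht) (hG.int hC ht0 ht) vkS_meas fun x hx => ?_
  simp only [smul_eq_mul]
  exact mul_le_mul_of_nonneg_left (h _ hx.1 _ hx.2) (vk_W_pos hx.1.1 hx.2.1).le

/-- slicewise monotonicity -/
theorem vk_EE_slice (hC : CAc_stmt) (ht0 : 0 ≤ t) (ht : t < T0) {H G : ℝ → ℝ → ℝ}
    (hH : N1 j k t H) (hG : N1 j k t G)
    (h : ∀ v ∈ Set.Ioo (0 : ℝ) 1, ∫ s in Set.Ioo (0 : ℝ) 1, H v s * den j k t s ≤
      ∫ s in Set.Ioo (0 : ℝ) 1, G v s * den j k t s) :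
    EE j k t H ≤ EE j k t G := by
  have key : ∀ K : ℝ → ℝ → ℝ, N1 j k t K →
      IntegrableOn (fun v => ∫ s in Set.Ioo (0 : ℝ) 1, K v s * (v ^ (2 * j + 1) * den j k t s))
        (Set.Ioo (0 : ℝ) 1) := by
    intro K hK
    have h1 := hK.int hC ht0 ht
    unfold vkS at h1
    rw [Measure.volume_eq_prod, IntegrableOn, ← Measure.prod_restrict] at h1
    refine (h1.integral_prod_left).congr (Filter.Eventually.of_forall fun v => ?_)
    refine integral_congr_ae (Filter.Eventually.of_forall fun s => ?_)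
    simp only [smul_eq_mul, vkW]
    ring
  unfold EE
  refine mul_le_mul_of_nonneg_right ?_ (vk_c_pos hC ht0 ht).le
  refine setIntegral_mono_on (key H hH) (key G hG) measurableSet_Ioo fun v hv => ?_
  have e : ∀ K : ℝ → ℝ → ℝ, ∫ s in Set.Ioo (0 : ℝ) 1, K v s * (v ^ (2 * j + 1) * den j k t s) =
      v ^ (2 * j + 1) * ∫ s in Set.Ioo (0 : ℝ) 1, K v s * den j k t s := by
    intro K
    rw [← integral_const_mul]
    refine integral_congr_ae (Filter.Eventually.of_forall fun s => ?_)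
    simp only
    ring
  rw [e, e]
  exact mul_le_mul_of_nonneg_left (h v hv) (pow_nonneg hv.1.le _)

theorem N1.of_le {H : ℝ → ℝ → ℝ} {G : ℝ → ℝ → ℝ}
    (hG : N1 j k t G) (hc : ContinuousOn (fun x : ℝ × ℝ => H x.1 x.2) vkS) (K : ℝ) (hK : 0 ≤ K)
    (h : ∀ v ∈ Set.Ioo (0 : ℝ) 1, ∀ s ∈ Set.Ioo (0 : ℝ) 1, |H v s| ≤ K * |G v s|) :
    N1 j k t H := by
  obtain ⟨h1, C, hCC⟩ := hG
  refine ⟨hc, K * C, fun v hv s hs => ?_⟩
  have hW := (vk_W_pos (j := j) (k := k) (t := t) hv.1 hs.1).le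
  calc ‖H v s‖ * vkW j k t v s ≤ (K * |G v s|) * vkW j k t v s :=
        mul_le_mul_of_nonneg_right (h v hv s hs) hW
    _ = K * (‖G v s‖ * vkW j k t v s) := by rw [Real.norm_eq_abs]; ring
    _ ≤ K * C := mul_le_mul_of_nonneg_left (hCC v hv s hs) hK

theorem N2.sq {H : ℝ → ℝ → ℂ} (hH : N2 j k t H) : N1 j k t (fun v s => ‖H v s‖ ^ 2) := by
  obtain ⟨h1, C, hCC⟩ := hH
  refine ⟨h1.norm.pow 2, C, fun v hv s hs => ?_⟩
  rw [Real.norm_eq_abs, abs_of_nonneg (by positivity)]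
  exact hCC v hv s hs

theorem N2.n1 {H : ℝ → ℝ → ℂ} (hC : CAc_stmt) (ht0 : 0 ≤ t) (ht : t < T0)
    (hH : N2 j k t H) : N1 j k t H := by
  obtain ⟨h1, C, hCC⟩ := hH
  refine ⟨h1, C + 1, fun v hv s hs => ?_⟩
  have hW := (vk_W_pos (j := j) (k := k) (t := t) hv.1 hs.1).le
  have hW1 := vk_W_le (j := j) (k := k) hC ht0 ht hv.1 hv.2 hs.1 hs.2
  have h2 : ‖H v s‖ ≤ ‖H v s‖ ^ 2 + 1 := by nlinarith [sq_nonneg (‖H v s‖ - 1)]
  calc ‖H v s‖ * vkW j k t v s ≤ (‖H v s‖ ^ 2 + 1) * vkW j k t v s :=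
        mul_le_mul_of_nonneg_right h2 hW
    _ = ‖H v s‖ ^ 2 * vkW j k t v s + vkW j k t v s := by ring
    _ ≤ C + 1 := add_le_add (hCC v hv s hs) hW1

theorem N2.const (hC : CAc_stmt) (ht0 : 0 ≤ t) (ht : t < T0) (c : ℂ) :
    N2 j k t (fun _ _ => c) := by
  refine ⟨continuousOn_const, ‖c‖ ^ 2, fun v hv s hs => ?_⟩
  have hW1 := vk_W_le (j := j) (k := k) hC ht0 ht hv.1 hv.2 hs.1 hs.2
  calc ‖c‖ ^ 2 * vkW j k t v s ≤ ‖c‖ ^ 2 * 1 := mul_le_mul_of_nonneg_left hW1 (by positivity)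
    _ = _ := mul_one _

theorem N2.add {H G : ℝ → ℝ → ℂ} (hH : N2 j k t H) (hG : N2 j k t G) :
    N2 j k t (fun v s => H v s + G v s) := by
  obtain ⟨h1, C, hCC⟩ := hH
  obtain ⟨h2, D, hD⟩ := hG
  refine ⟨h1.add h2, 2 * C + 2 * D, fun v hv s hs => ?_⟩
  have hW := (vk_W_pos (j := j) (k := k) (t := t) hv.1 hs.1).le
  have h3 : ‖H v s + G v s‖ ^ 2 ≤ 2 * ‖H v s‖ ^ 2 + 2 * ‖G v s‖ ^ 2 := by
    have h4 : ‖H v s + G v s‖ ^ 2 ≤ (‖H v s‖ + ‖G v s‖) ^ 2 :=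
      pow_le_pow_left₀ (norm_nonneg _) (norm_add_le _ _) 2
    nlinarith [sq_nonneg (‖H v s‖ - ‖G v s‖)]
  have h5 := hCC v hv s hs
  have h6 := hD v hv s hs
  calc ‖H v s + G v s‖ ^ 2 * vkW j k t v s
      ≤ (2 * ‖H v s‖ ^ 2 + 2 * ‖G v s‖ ^ 2) * vkW j k t v s := mul_le_mul_of_nonneg_right h3 hW
    _ ≤ _ := by nlinarith

theorem N2.mul_bdd {H c : ℝ → ℝ → ℂ} (hH : N2 j k t H)
    (hc : ContinuousOn (fun x : ℝ × ℝ => c x.1 x.2) vkS)
    (K : ℝ) (hK : ∀ v ∈ Set.Ioo (0 : ℝ) 1, ∀ s ∈ Set.Ioo (0 : ℝ) 1, ‖c v s‖ ≤ K) :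
    N2 j k t (fun v s => c v s * H v s) := by
  obtain ⟨h1, C, hCC⟩ := hH
  refine ⟨hc.mul h1, K ^ 2 * C, fun v hv s hs => ?_⟩
  have hW := (vk_W_pos (j := j) (k := k) (t := t) hv.1 hs.1).le
  have h4 : ‖c v s‖ ^ 2 ≤ K ^ 2 := pow_le_pow_left₀ (norm_nonneg _) (hK v hv s hs) 2
  rw [norm_mul, mul_pow, mul_assoc]
  exact mul_le_mul h4 (hCC v hv s hs) (by positivity) (by positivity)

theorem N2.sub_const {H : ℝ → ℝ → ℂ} (hC : CAc_stmt) (ht0 : 0 ≤ t) (ht : t < T0)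
    (hH : N2 j k t H) (c : ℂ) : N2 j k t (fun v s => H v s - c) := by
  have := hH.add (N2.const (j := j) (k := k) hC ht0 ht (-c))
  simpa only [sub_eq_add_neg] using this

end basics


theorem exp_deriv_vk (c : ℂ) : HasDerivAt (fun θ : ℝ => Complex.exp ((θ : ℂ) * c)) c 0 := by
  have h1 : HasDerivAt (fun θ : ℝ => (θ : ℂ) * c) c 0 := by
    have h2 : HasDerivAt (fun θ : ℝ => (θ : ℂ)) 1 0 := by
      simpa using (hasDerivAt_id (0:ℝ)).ofReal_comp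
    simpa using h2.mul_const c
  have h3 := h1.cexp
  simpa using h3

theorem mode1__vk (j k : ℕ) (F : E3 → ℂ) (hF : ContDiff ℝ ∞ F) (hm : IsModeFn j k F) (x : E3)
    (r : ℝ) (hr : 0 < r) (hx : x 1 = (r : ℂ)) :
    fderiv ℝ F x (Pi.single 1 1) = 2 * dbar 1 F x + (j / r : ℂ) * F x := by
  have hFd : Differentiable ℝ F := hF.differentiable (by simp)
  have hrot : HasDerivAt (fun θ : ℝ => rot θ 0 x) (Pi.single 1 (I * x 1)) 0 := by
    rw [hasDerivAt_pi]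
    intro i
    fin_cases i
    · simpa [rot] using hasDerivAt_const (0:ℝ) (x 0)
    · have h1 := (exp_deriv_vk I).mul_const (x 1)
      simpa [rot] using h1
    · simpa [rot] using hasDerivAt_const (0:ℝ) (x 2)
  have hrot0 : rot 0 0 x = x := by
    funext i
    fin_cases i <;> simp [rot]
  have h1 : HasDerivAt (fun θ : ℝ => F (rot θ 0 x)) (fderiv ℝ F x (Pi.single 1 (I * x 1))) 0 := by
    have h2 := (hFd (rot 0 0 x)).hasFDerivAt.comp_hasDerivAt (0:ℝ) hrot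
    rw [hrot0] at h2
    exact h2
  have h3 : HasDerivAt (fun θ : ℝ => F (rot θ 0 x)) (I * j * F x) 0 := by
    have h4 := (exp_deriv_vk (I * j)).mul_const (F x)
    have h5 : (fun θ : ℝ => F (rot θ 0 x)) = fun θ : ℝ => Complex.exp ((θ : ℂ) * (I * j)) * F x := by
      funext θ
      rw [hm θ 0 x]
      congr 2
      push_cast
      ring
    rw [h5]
    exact h4
  have h6 := h1.unique h3
  have h7 : (Pi.single 1 (I * x 1) : E3) = r • (Pi.single 1 I : E3) := by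
    funext i
    fin_cases i <;> simp [hx, mul_comm]
  rw [h7, map_smul, Complex.real_smul] at h6
  have hrc : (r : ℂ) ≠ 0 := by exact_mod_cast hr.ne'
  have h8 : fderiv ℝ F x (Pi.single 1 I) = I * j * F x / r := by
    rw [eq_div_iff hrc, mul_comm]
    exact h6
  unfold dbar
  rw [h8]
  have hI := Complex.I_mul_I
  field_simp
  linear_combination (-(j : ℂ) * F x) * hI

theorem mode2__vk (j k : ℕ) (F : E3 → ℂ) (hF : ContDiff ℝ ∞ F) (hm : IsModeFn j k F) (x : E3)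
    (r : ℝ) (hr : 0 < r) (hx : x 2 = (r : ℂ)) :
    fderiv ℝ F x (Pi.single 2 1) = 2 * dbar 2 F x + (k / r : ℂ) * F x := by
  have hFd : Differentiable ℝ F := hF.differentiable (by simp)
  have hrot : HasDerivAt (fun θ : ℝ => rot 0 θ x) (Pi.single 2 (I * x 2)) 0 := by
    rw [hasDerivAt_pi]
    intro i
    fin_cases i
    · simpa [rot] using hasDerivAt_const (0:ℝ) (x 0)
    · simpa [rot] using hasDerivAt_const (0:ℝ) (x 1)
    · have h1 := (exp_deriv_vk I).mul_const (x 2)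
      simpa [rot] using h1
  have hrot0 : rot 0 0 x = x := by
    funext i
    fin_cases i <;> simp [rot]
  have h1 : HasDerivAt (fun θ : ℝ => F (rot 0 θ x)) (fderiv ℝ F x (Pi.single 2 (I * x 2))) 0 := by
    have h2 := (hFd (rot 0 0 x)).hasFDerivAt.comp_hasDerivAt (0:ℝ) hrot
    rw [hrot0] at h2
    exact h2
  have h3 : HasDerivAt (fun θ : ℝ => F (rot 0 θ x)) (I * k * F x) 0 := by
    have h4 := (exp_deriv_vk (I * k)).mul_const (F x)
    have h5 : (fun θ : ℝ => F (rot 0 θ x)) = fun θ : ℝ => Complex.exp ((θ : ℂ) * (I * k)) * F x := by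
      funext θ
      rw [hm 0 θ x]
      congr 2
      push_cast
      ring
    rw [h5]
    exact h4
  have h6 := h1.unique h3
  have h7 : (Pi.single 2 (I * x 2) : E3) = r • (Pi.single 2 I : E3) := by
    funext i
    fin_cases i <;> simp [hx, mul_comm]
  rw [h7, map_smul, Complex.real_smul] at h6
  have hrc : (r : ℂ) ≠ 0 := by exact_mod_cast hr.ne'
  have h8 : fderiv ℝ F x (Pi.single 2 I) = I * k * F x / r := by
    rw [eq_div_iff hrc, mul_comm]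
    exact h6
  unfold dbar
  rw [h8]
  have hI := Complex.I_mul_I
  field_simp
  linear_combination (-(k : ℂ) * F x) * hI

theorem curve_vk (j k : ℕ) (F : E3 → ℂ) (hF : ContDiff ℝ ∞ F) (hm : IsModeFn j k F) (z : ℂ)
    (rr σσ : ℝ → ℝ) (r' σ' u : ℝ) (h1 : HasDerivAt rr r' u) (h2 : HasDerivAt σσ σ' u)
    (hr : 0 < rr u) (hσ : 0 < σσ u) :
    HasDerivAt (fun u => F ![z, (rr u : ℂ), (σσ u : ℂ)] / ((rr u ^ j * σσ u ^ k : ℝ) : ℂ))
      (2 * (dbar 1 F ![z, (rr u : ℂ), (σσ u : ℂ)] / ((rr u ^ j * σσ u ^ k : ℝ) : ℂ)) * (r' : ℂ) +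
       2 * (dbar 2 F ![z, (rr u : ℂ), (σσ u : ℂ)] / ((rr u ^ j * σσ u ^ k : ℝ) : ℂ)) * (σ' : ℂ))
      u := by
  have hFd : Differentiable ℝ F := hF.differentiable (by simp)
  have hP : HasDerivAt (fun u => (![z, (rr u : ℂ), (σσ u : ℂ)] : E3))
      (![0, (r' : ℂ), (σ' : ℂ)] : E3) u := by
    rw [hasDerivAt_pi]
    intro i
    fin_cases i
    · exact hasDerivAt_const u z
    · exact h1.ofReal_comp
    · exact h2.ofReal_comp
  have hFP := (hFd _).hasFDerivAt.comp_hasDerivAt u hP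
  have hv : (![0, (r' : ℂ), (σ' : ℂ)] : E3) = r' • (Pi.single 1 1 : E3) + σ' • (Pi.single 2 1 : E3) := by
    funext i
    fin_cases i <;> simp
  rw [hv, map_add, map_smul, map_smul, Complex.real_smul, Complex.real_smul,
    mode1__vk j k F hF hm _ (rr u) hr rfl, mode2__vk j k F hF hm _ (σσ u) hσ rfl] at hFP
  have hmo : HasDerivAt (fun u => rr u ^ j * σσ u ^ k)
      ((rr u ^ j * σσ u ^ k) * (j * r' / rr u + k * σ' / σσ u)) u := by
    have h3 := (h1.fun_pow j).mul (h2.fun_pow k)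
    refine h3.congr_deriv ?_
    have e1 : (j : ℝ) * rr u ^ (j - 1) = rr u ^ j * (j / rr u) := by
      rcases Nat.eq_zero_or_pos j with hj | hj
      · simp [hj]
      · have : rr u ^ j = rr u ^ (j - 1) * rr u := by rw [← pow_succ, Nat.sub_add_cancel hj]
        rw [this]
        field_simp
    have e2 : (k : ℝ) * σσ u ^ (k - 1) = σσ u ^ k * (k / σσ u) := by
      rcases Nat.eq_zero_or_pos k with hj | hj
      · simp [hj]
      · have : σσ u ^ k = σσ u ^ (k - 1) * σσ u := by rw [← pow_succ, Nat.sub_add_cancel hj]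
        rw [this]
        field_simp
    simp only [e1, e2]
    ring
  have hmc := hmo.ofReal_comp
  have hne : ((rr u ^ j * σσ u ^ k : ℝ) : ℂ) ≠ 0 := by
    have : rr u ^ j * σσ u ^ k ≠ 0 := by positivity
    exact_mod_cast this
  have hq := hFP.div hmc hne
  refine hq.congr_deriv ?_
  have hrc : (rr u : ℂ) ≠ 0 := by exact_mod_cast hr.ne'
  have hσc : (σσ u : ℂ) ≠ 0 := by exact_mod_cast hσ.ne'
  simp only [Function.comp_apply]
  generalize F ![z, (rr u : ℂ), (σσ u : ℂ)] = f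
  generalize dbar 1 F ![z, (rr u : ℂ), (σσ u : ℂ)] = d1
  generalize dbar 2 F ![z, (rr u : ℂ), (σσ u : ℂ)] = d2
  have hcast : (((rr u ^ j * σσ u ^ k) * (j * r' / rr u + k * σ' / σσ u) : ℝ) : ℂ) =
      ((rr u ^ j * σσ u ^ k : ℝ) : ℂ) * (j * r' / rr u + k * σ' / σσ u) := by push_cast; rfl
  rw [hcast]
  generalize ((rr u ^ j * σσ u ^ k : ℝ) : ℂ) = m at hne ⊢
  field_simp
  ring


section fibre

variable {j k : ℕ} {t : ℝ}

theorem vk_mono_pos (hC : CAc_stmt) {z : ℂ} (hz : z ∈ BD) {v s : ℝ} (hv : 0 < v)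
    (hs0 : 0 < s) (hs : s < 1) : 0 < mono j k z v s := by
  have ht0 : (0 : ℝ) ≤ ‖z‖ ^ 2 := by positivity
  obtain ⟨-, -, -, -, -, hd, -, -, -, -, -, -, -, -, -, -, -, -, hR⟩ :=
    hC (‖z‖ ^ 2) s (by linarith) hz hs0.le hs
  have h1 : 0 < Real.sqrt (R2 (‖z‖ ^ 2) s) := Real.sqrt_pos.mpr hR
  have h2 : 0 < Real.sqrt (d0 (‖z‖ ^ 2)) := Real.sqrt_pos.mpr hd
  unfold mono
  positivity

theorem vk_mono_sq (hC : CAc_stmt) {z : ℂ} (hz : z ∈ BD) {v s : ℝ} (hv : 0 < v)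
    (hs0 : 0 < s) (hs : s < 1) :
    (mono j k z v s) ^ 2 * (v * s * R2 (‖z‖ ^ 2) s) =
      d0 (‖z‖ ^ 2) ^ k * vkW j k (‖z‖ ^ 2) v s := by
  have ht0 : (0 : ℝ) ≤ ‖z‖ ^ 2 := by positivity
  obtain ⟨-, -, -, -, -, hd, -, -, -, -, -, -, -, -, -, -, -, -, hR⟩ :=
    hC (‖z‖ ^ 2) s (by linarith) hz hs0.le hs
  have h1 : Real.sqrt (R2 (‖z‖ ^ 2) s) ^ 2 = R2 (‖z‖ ^ 2) s := Real.sq_sqrt hR.le
  have h2 : Real.sqrt (d0 (‖z‖ ^ 2)) ^ 2 = d0 (‖z‖ ^ 2) := Real.sq_sqrt hd.le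
  have h3 : Real.exp (((j : ℝ) + 1) * Yc (‖z‖ ^ 2) s) = R2 (‖z‖ ^ 2) s ^ (j + 1) := by
    unfold R2
    rw [← Real.exp_nat_mul]
    push_cast
    rfl
  unfold mono vkW den
  rw [h3]
  have e1 : ((v * Real.sqrt (R2 (‖z‖ ^ 2) s)) ^ j *
      (Real.sqrt (d0 (‖z‖ ^ 2)) * s) ^ k) ^ 2 =
      v ^ (2 * j) * (Real.sqrt (R2 (‖z‖ ^ 2) s) ^ 2) ^ j *
        ((Real.sqrt (d0 (‖z‖ ^ 2)) ^ 2) ^ k * s ^ (2 * k)) := by
    ring
  rw [e1, h1, h2]
  ring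

theorem vk_nice (hC : CAc_stmt) {z : ℂ} (hz : z ∈ BD) (Φ : E3 → ℂ)
    (hΦ : Continuous Φ) : N2 j k (‖z‖ ^ 2)
      (fun v s => Φ (Pt z v s) / (mono j k z v s : ℂ)) := by
  have ht0 : (0 : ℝ) ≤ ‖z‖ ^ 2 := by positivity
  have crho : ContinuousOn (fun x : ℝ × ℝ => Real.sqrt (R2 (‖z‖ ^ 2) x.2)) vkS :=
    vk_snd (vk_cR hC ht0 hz).sqrt
  have cr : ContinuousOn (fun x : ℝ × ℝ => x.1 * Real.sqrt (R2 (‖z‖ ^ 2) x.2)) vkS :=
    continuous_fst.continuousOn.mul crho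
  have cs : ContinuousOn (fun x : ℝ × ℝ => Real.sqrt (d0 (‖z‖ ^ 2)) * x.2) vkS := by fun_prop
  have cPt : ContinuousOn (fun x : ℝ × ℝ => Pt z x.1 x.2) vkS := by
    unfold Pt
    refine continuousOn_pi.mpr fun i => ?_
    fin_cases i
    · exact continuousOn_const
    · exact Complex.continuous_ofReal.comp_continuousOn cr
    · exact Complex.continuous_ofReal.comp_continuousOn cs
  have cmono : ContinuousOn (fun x : ℝ × ℝ => ((mono j k z x.1 x.2 : ℝ) : ℂ)) vkS := by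
    unfold mono
    exact Complex.continuous_ofReal.comp_continuousOn ((cr.pow j).mul (cs.pow k))
  refine ⟨(hΦ.comp_continuousOn cPt).div cmono fun x hx => ?_, ?_⟩
  · have := vk_mono_pos (j := j) (k := k) hC hz hx.1.1 hx.2.1 hx.2.2
    exact_mod_cast this.ne'
  · obtain ⟨M, hM⟩ := (isCompact_closedBall (0 : E3) (‖z‖ + 1)).exists_bound_of_continuousOn
      hΦ.continuousOn
    have hd : 0 < d0 (‖z‖ ^ 2) :=
      (hC (‖z‖ ^ 2) 0 (by linarith) hz le_rfl one_pos).2.2.2.2.2.1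
    have hd1 : d0 (‖z‖ ^ 2) ≤ 1 :=
      (hC (‖z‖ ^ 2) 0 (by linarith) hz le_rfl one_pos).2.2.2.2.2.2.1
    have hK : 0 < d0 (‖z‖ ^ 2) ^ k := by positivity
    refine ⟨M ^ 2 / d0 (‖z‖ ^ 2) ^ k, fun v hv s hs => ?_⟩
    obtain ⟨-, -, -, -, hl, -, -, -, -, -, -, -, -, -, -, -, -, hR1, hR⟩ :=
      hC (‖z‖ ^ 2) s (by linarith) hz hs.1.le hs.2
    have hR2 : R2 (‖z‖ ^ 2) s ≤ 1 := by
      refine (hR1 ht0).trans ?_
      rw [div_le_one (by linarith)]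
      linarith
    have hmp := vk_mono_pos (j := j) (k := k) hC hz hv.1 hs.1 hs.2
    have hsq := vk_mono_sq (j := j) (k := k) hC hz hv.1 hs.1 hs.2
    have hPt : Pt z v s ∈ Metric.closedBall (0 : E3) (‖z‖ + 1) := by
      rw [mem_closedBall_zero_iff, pi_norm_le_iff_of_nonneg (by positivity)]
      intro i
      have hr : Real.sqrt (R2 (‖z‖ ^ 2) s) ≤ 1 := by
        rw [Real.sqrt_le_left (by norm_num)]
        linarith
      have hr0 := Real.sqrt_nonneg (R2 (‖z‖ ^ 2) s)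
      have hdd : Real.sqrt (d0 (‖z‖ ^ 2)) ≤ 1 := by
        rw [Real.sqrt_le_left (by norm_num)]
        linarith
      have hd0 := Real.sqrt_nonneg (d0 (‖z‖ ^ 2))
      have hv0 := hv.1.le
      have hv1 := hv.2.le
      have hs0 := hs.1.le
      have hs1 := hs.2.le
      have hz0 := norm_nonneg z
      fin_cases i
      · change ‖z‖ ≤ _
        linarith
      · change ‖((v * Real.sqrt (R2 (‖z‖ ^ 2) s) : ℝ) : ℂ)‖ ≤ _
        rw [Complex.norm_real, Real.norm_eq_abs, abs_of_nonneg (by positivity)]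
        have h1 : v * Real.sqrt (R2 (‖z‖ ^ 2) s) ≤ 1 * 1 := mul_le_mul hv1 hr hr0 (by positivity)
        linarith
      · change ‖((Real.sqrt (d0 (‖z‖ ^ 2)) * s : ℝ) : ℂ)‖ ≤ _
        rw [Complex.norm_real, Real.norm_eq_abs, abs_of_nonneg (by positivity)]
        have h1 : Real.sqrt (d0 (‖z‖ ^ 2)) * s ≤ 1 * 1 := mul_le_mul hdd hs1 hs0 (by positivity)
        linarith
    have hMb := hM _ hPt
    have h3 : ‖Φ (Pt z v s)‖ ^ 2 ≤ M ^ 2 := pow_le_pow_left₀ (norm_nonneg _) hMb 2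
    have h4 : v * s * R2 (‖z‖ ^ 2) s ≤ 1 := by
      have h5 : v * s ≤ 1 := mul_le_one₀ hv.2.le hs.1.le hs.2.le
      exact mul_le_one₀ h5 hR.le hR2
    rw [norm_div, Complex.norm_real, Real.norm_eq_abs, abs_of_pos hmp, div_pow, le_div_iff₀ hK]
    have h7 : ‖Φ (Pt z v s)‖ ^ 2 / mono j k z v s ^ 2 *
        vkW j k (‖z‖ ^ 2) v s * d0 (‖z‖ ^ 2) ^ k =
        ‖Φ (Pt z v s)‖ ^ 2 * (v * s * R2 (‖z‖ ^ 2) s) := by
      have h8 : vkW j k (‖z‖ ^ 2) v s * d0 (‖z‖ ^ 2) ^ k =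
        (mono j k z v s) ^ 2 * (v * s * R2 (‖z‖ ^ 2) s) := by
        rw [hsq]; ring
      rw [mul_assoc, h8]
      field_simp
    rw [h7]
    have hvs : 0 ≤ v * s * R2 (‖z‖ ^ 2) s :=
      mul_nonneg (mul_nonneg hv.1.le hs.1.le) hR.le
    calc ‖Φ (Pt z v s)‖ ^ 2 * (v * s * R2 (‖z‖ ^ 2) s) ≤ M ^ 2 * 1 :=
          mul_le_mul h3 h4 hvs (by positivity)
      _ = M ^ 2 := mul_one _

theorem vk_dbar_cont {F : E3 → ℂ} (hF : ContDiff ℝ ∞ F) (i : Fin 3) : Continuous (dbar i F) := by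
  have h1 : Continuous (fderiv ℝ F) := hF.continuous_fderiv (by simp)
  unfold dbar
  exact continuous_const.mul ((h1.clm_apply continuous_const).add
    (continuous_const.mul (h1.clm_apply continuous_const)))

theorem vk_GG_nice (hC : CAc_stmt) {F : E3 → ℂ} (hF : ContDiff ℝ ∞ F) {z : ℂ}
    (hz : z ∈ BD) (i : Fin 3) :
    N2 j k (‖z‖ ^ 2) (fun v s => GG j k F i z v s) :=
  vk_nice hC hz (dbar i F) (vk_dbar_cont hF i)

theorem vk_cc_nice (hC : CAc_stmt) {F : E3 → ℂ} (hF : ContDiff ℝ ∞ F) {z : ℂ}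
    (hz : z ∈ BD) :
    N2 j k (‖z‖ ^ 2) (fun v s => cc j k F z v s) :=
  vk_nice hC hz F hF.continuous

/-- derivative of `cc` in `s` -/
theorem vk_deriv (hC : CAc_stmt) (F : E3 → ℂ) (hF : ContDiff ℝ ∞ F)
    (hm : IsModeFn j k F) (z : ℂ) (hz : z ∈ BD) (v s : ℝ) (hv : 0 < v) (hs : 0 < s)
    (hs1 : s < 1) :
    HasDerivAt (fun s => cc j k F z v s)
      (2 * GG j k F 1 z v s *
        ((v * (R2 (‖z‖ ^ 2) s * Ycs (‖z‖ ^ 2) s / (2 * Real.sqrt (R2 (‖z‖ ^ 2) s))) : ℝ) : ℂ) +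
      2 * GG j k F 2 z v s * ((Real.sqrt (d0 (‖z‖ ^ 2)) : ℝ) : ℂ)) s := by
  have ht0 : (0 : ℝ) ≤ ‖z‖ ^ 2 := by positivity
  obtain ⟨-, -, -, -, -, hd, -, -, -, -, -, -, -, -, hY, -, -, -, hR⟩ :=
    hC (‖z‖ ^ 2) s (by linarith) hz hs.le hs1
  have hD : 0 < Real.sqrt (d0 (‖z‖ ^ 2)) := Real.sqrt_pos.2 hd
  have hρ : 0 < Real.sqrt (R2 (‖z‖ ^ 2) s) := Real.sqrt_pos.2 hR
  have h0' : HasDerivAt (fun s => R2 (‖z‖ ^ 2) s) (R2 (‖z‖ ^ 2) s * Ycs (‖z‖ ^ 2) s) s := by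
    unfold R2
    exact hY.exp
  have h0 : HasDerivAt (fun s => Real.sqrt (R2 (‖z‖ ^ 2) s))
      (R2 (‖z‖ ^ 2) s * Ycs (‖z‖ ^ 2) s / (2 * Real.sqrt (R2 (‖z‖ ^ 2) s))) s :=
    h0'.sqrt hR.ne'
  have h1 : HasDerivAt (fun s : ℝ => v * Real.sqrt (R2 (‖z‖ ^ 2) s))
      (v * (R2 (‖z‖ ^ 2) s * Ycs (‖z‖ ^ 2) s / (2 * Real.sqrt (R2 (‖z‖ ^ 2) s)))) s :=
    h0.const_mul v
  have h2 : HasDerivAt (fun s : ℝ => Real.sqrt (d0 (‖z‖ ^ 2)) * s)
      (Real.sqrt (d0 (‖z‖ ^ 2))) s := by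
    have := (hasDerivAt_id s).const_mul (Real.sqrt (d0 (‖z‖ ^ 2)))
    simpa using this
  exact curve_vk j k F hF hm z _ _ _ _ s h1 h2 (by positivity) (by positivity)

theorem vk_deriv_bd (hC : CAc_stmt) (F : E3 → ℂ) (z : ℂ) (hz : z ∈ BD) (v s : ℝ) (hv : 0 < v)
    (hv1 : v < 1) (hs : 0 < s) (hs1 : s < 1) :
    ‖2 * GG j k F 1 z v s *
        ((v * (R2 (‖z‖ ^ 2) s * Ycs (‖z‖ ^ 2) s / (2 * Real.sqrt (R2 (‖z‖ ^ 2) s))) : ℝ) : ℂ) +
      2 * GG j k F 2 z v s * ((Real.sqrt (d0 (‖z‖ ^ 2)) : ℝ) : ℂ)‖ ^ 2 ≤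
      2 * Ycs (‖z‖ ^ 2) s ^ 2 * ‖GG j k F 1 z v s‖ ^ 2 + 8 * ‖GG j k F 2 z v s‖ ^ 2 := by
  have ht0 : (0 : ℝ) ≤ ‖z‖ ^ 2 := by positivity
  obtain ⟨-, -, -, -, hl, hd, hd1, -, -, -, -, -, -, -, hY, -, -, hR1, hR⟩ :=
    hC (‖z‖ ^ 2) s (by linarith) hz hs.le hs1
  have hR2 : R2 (‖z‖ ^ 2) s ≤ 1 := by
    refine (hR1 ht0).trans ?_
    rw [div_le_one (by linarith)]
    linarith
  have hρ : 0 < Real.sqrt (R2 (‖z‖ ^ 2) s) := Real.sqrt_pos.2 hR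
  have hsq : Real.sqrt (R2 (‖z‖ ^ 2) s) ^ 2 = R2 (‖z‖ ^ 2) s := Real.sq_sqrt hR.le
  have hsd : Real.sqrt (d0 (‖z‖ ^ 2)) ^ 2 = d0 (‖z‖ ^ 2) := Real.sq_sqrt hd.le
  have e1 : R2 (‖z‖ ^ 2) s * Ycs (‖z‖ ^ 2) s / (2 * Real.sqrt (R2 (‖z‖ ^ 2) s)) =
      Real.sqrt (R2 (‖z‖ ^ 2) s) * Ycs (‖z‖ ^ 2) s / 2 := by
    rw [div_eq_div_iff (by positivity) (by norm_num)]
    calc R2 (‖z‖ ^ 2) s * Ycs (‖z‖ ^ 2) s * 2 =
        Real.sqrt (R2 (‖z‖ ^ 2) s) ^ 2 * Ycs (‖z‖ ^ 2) s * 2 := by rw [hsq]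
      _ = _ := by ring
  rw [e1]
  set A := 2 * GG j k F 1 z v s *
        ((v * (Real.sqrt (R2 (‖z‖ ^ 2) s) * Ycs (‖z‖ ^ 2) s / 2) : ℝ) : ℂ) with hA
  set B := 2 * GG j k F 2 z v s * ((Real.sqrt (d0 (‖z‖ ^ 2)) : ℝ) : ℂ) with hB
  have h1 : ‖A + B‖ ^ 2 ≤ 2 * ‖A‖ ^ 2 + 2 * ‖B‖ ^ 2 := by
    have h4 : ‖A + B‖ ^ 2 ≤ (‖A‖ + ‖B‖) ^ 2 :=
      pow_le_pow_left₀ (norm_nonneg _) (norm_add_le _ _) 2
    nlinarith [sq_nonneg (‖A‖ - ‖B‖)]
  have h2 : ‖A‖ ^ 2 ≤ Ycs (‖z‖ ^ 2) s ^ 2 * ‖GG j k F 1 z v s‖ ^ 2 := by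
    rw [hA, norm_mul, norm_mul, Complex.norm_real, Real.norm_eq_abs, mul_pow, mul_pow, sq_abs]
    have e3 : (v * (Real.sqrt (R2 (‖z‖ ^ 2) s) * Ycs (‖z‖ ^ 2) s / 2)) ^ 2 =
        (v ^ 2 * R2 (‖z‖ ^ 2) s) * (Ycs (‖z‖ ^ 2) s ^ 2 / 4) := by
      calc (v * (Real.sqrt (R2 (‖z‖ ^ 2) s) * Ycs (‖z‖ ^ 2) s / 2)) ^ 2
          = (v ^ 2 * Real.sqrt (R2 (‖z‖ ^ 2) s) ^ 2) * (Ycs (‖z‖ ^ 2) s ^ 2 / 4) := by ring
        _ = _ := by rw [hsq]
    rw [e3]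
    have hn2 : ‖(2 : ℂ)‖ = 2 := by simp
    rw [hn2]
    have h5 : v ^ 2 * R2 (‖z‖ ^ 2) s ≤ 1 := mul_le_one₀ (pow_le_one₀ hv.le hv1.le) hR.le hR2
    have h6 : 0 ≤ ‖GG j k F 1 z v s‖ ^ 2 * Ycs (‖z‖ ^ 2) s ^ 2 := by positivity
    calc 2 ^ 2 * ‖GG j k F 1 z v s‖ ^ 2 * ((v ^ 2 * R2 (‖z‖ ^ 2) s) * (Ycs (‖z‖ ^ 2) s ^ 2 / 4))
        = (v ^ 2 * R2 (‖z‖ ^ 2) s) * (‖GG j k F 1 z v s‖ ^ 2 * Ycs (‖z‖ ^ 2) s ^ 2) := by ring
      _ ≤ 1 * (‖GG j k F 1 z v s‖ ^ 2 * Ycs (‖z‖ ^ 2) s ^ 2) :=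
          mul_le_mul_of_nonneg_right h5 h6
      _ = _ := by ring
  have h3 : ‖B‖ ^ 2 ≤ 4 * ‖GG j k F 2 z v s‖ ^ 2 := by
    rw [hB, norm_mul, norm_mul, Complex.norm_real, Real.norm_eq_abs, mul_pow, mul_pow, sq_abs,
      hsd]
    have hn2 : ‖(2 : ℂ)‖ = 2 := by simp
    rw [hn2]
    have h6 : 0 ≤ 2 ^ 2 * ‖GG j k F 2 z v s‖ ^ 2 := by positivity
    nlinarith
  linarith

end fibre

/-- one-dimensional inequality -/
theorem vk_hardy (hC : CAc_stmt) (j k : ℕ) {t : ℝ} (ht0 : 0 ≤ t) (ht : t < T0) (f g : ℝ → ℂ)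
    (hf : ∀ s ∈ Set.Ioo (0 : ℝ) 1, HasDerivAt f (g s) s)
    (hg : ContinuousOn g (Set.Ioo (0 : ℝ) 1)) (χ χ' G : ℝ → ℝ) (C C' M B b : ℝ)
    (hfC : ∀ s ∈ Set.Ioo (0 : ℝ) 1, ‖f s‖ ^ 2 * den j k t s ≤ C)
    (hGc : ContinuousOn G (Set.Ioo (0 : ℝ) 1))
    (hGC : ∀ s ∈ Set.Ioo (0 : ℝ) 1, G s * den j k t s ≤ C')
    (hgG : ∀ s ∈ Set.Ioo (0 : ℝ) 1, χ s * ‖g s‖ ^ 2 ≤ G s)
    (hχ : ∀ s, HasDerivAt χ (χ' s) s) (hχc : Continuous χ') (hχ0 : ∀ s, 0 ≤ χ s)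
    (hχ1 : ∀ s, χ s ≤ 1) (hM : ∀ s ∈ Set.Ioo (0 : ℝ) 1, |χ' s| ≤ M)
    (hb : b < 1) (hχb : ∀ s, b ≤ s → χ s = 0)
    (hB : ∀ s ∈ Set.Ioo (0 : ℝ) 1, χ s * |Ycs t s| ≤ B) :
    ∫ s in Set.Ioo (0 : ℝ) 1, ((2 * k + 2) * (χ s * ‖f s‖ ^ 2)) * den j k t s ≤
      ∫ s in Set.Ioo (0 : ℝ) 1, ((M + 1 + (j + 1) * B) * ‖f s‖ ^ 2 + G s) * den j k t s := by
  have hden := fun s (hs : s ∈ Set.Ioo (0 : ℝ) 1) => vk_den_pos (j := j) (k := k) (t := t) hs.1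
  have hfc : ContinuousOn f (Set.Ioo (0 : ℝ) 1) := fun s hs =>
    (hf s hs).continuousAt.continuousWithinAt
  have hYc := vk_cYcs hC ht0 ht
  have hdc := vk_cden (j := j) (k := k) hC ht0 ht
  have hχcc : Continuous χ := continuous_iff_continuousAt.mpr fun s => (hχ s).continuousAt
  have hM0 : 0 ≤ M := le_trans (abs_nonneg _) (hM (1 / 2) (by constructor <;> norm_num))
  have hB0 : 0 ≤ B := le_trans (mul_nonneg (hχ0 _) (abs_nonneg _))
    (hB (1 / 2) (by constructor <;> norm_num))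
  set P : ℝ → ℝ := fun s => (2 * k + 2) * (χ s * ‖f s‖ ^ 2) * den j k t s with hP
  set Q : ℝ → ℝ := fun s => s * (χ' s * ‖f s‖ ^ 2 + χ s * (2 * inner ℝ (f s) (g s)) +
    χ s * ‖f s‖ ^ 2 * ((j + 1) * Ycs t s)) * den j k t s with hQ
  set U : ℝ → ℝ := fun s => ((M + 1 + (j + 1) * B) * ‖f s‖ ^ 2 + G s) * den j k t s with hU
  have hQU : ∀ s ∈ Set.Ioo (0 : ℝ) 1, |Q s| ≤ U s := by
    intro s hs
    have hd := hden s hs
    simp only [hQ, hU]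
    rw [abs_mul, abs_of_pos hd]
    refine mul_le_mul_of_nonneg_right ?_ hd.le
    rw [abs_mul, abs_of_pos hs.1]
    have h1 : |χ' s * ‖f s‖ ^ 2| ≤ M * ‖f s‖ ^ 2 := by
      rw [abs_mul, abs_of_nonneg (by positivity : (0:ℝ) ≤ ‖f s‖ ^ 2)]
      exact mul_le_mul_of_nonneg_right (hM s hs) (by positivity)
    have h2 : |χ s * (2 * inner ℝ (f s) (g s))| ≤ ‖f s‖ ^ 2 + G s := by
      have h3 : |inner ℝ (f s) (g s)| ≤ ‖f s‖ * ‖g s‖ := abs_real_inner_le_norm _ _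
      rw [abs_mul, abs_of_nonneg (hχ0 s), abs_mul, abs_two]
      have h4 : 2 * |inner ℝ (f s) (g s)| ≤ ‖f s‖ ^ 2 + ‖g s‖ ^ 2 := by
        nlinarith [sq_nonneg (‖f s‖ - ‖g s‖)]
      calc χ s * (2 * |inner ℝ (f s) (g s)|) ≤ χ s * (‖f s‖ ^ 2 + ‖g s‖ ^ 2) :=
            mul_le_mul_of_nonneg_left h4 (hχ0 s)
        _ = χ s * ‖f s‖ ^ 2 + χ s * ‖g s‖ ^ 2 := by ring
        _ ≤ ‖f s‖ ^ 2 + G s := by
            refine add_le_add ?_ (hgG s hs)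
            exact mul_le_of_le_one_left (by positivity) (hχ1 s)
    have h5 : |χ s * ‖f s‖ ^ 2 * ((j + 1) * Ycs t s)| ≤ (j + 1) * B * ‖f s‖ ^ 2 := by
      rw [abs_mul, abs_mul, abs_mul, abs_of_nonneg (hχ0 s),
        abs_of_nonneg (by positivity : (0:ℝ) ≤ ‖f s‖ ^ 2),
        abs_of_nonneg (by positivity : (0:ℝ) ≤ (j : ℝ) + 1)]
      have h6 := hB s hs
      have h7 : 0 ≤ ((j : ℝ) + 1) * ‖f s‖ ^ 2 := by positivity
      calc χ s * ‖f s‖ ^ 2 * ((j + 1) * |Ycs t s|) = (χ s * |Ycs t s|) *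
            ((j + 1) * ‖f s‖ ^ 2) := by ring
        _ ≤ B * ((j + 1) * ‖f s‖ ^ 2) := mul_le_mul_of_nonneg_right h6 h7
        _ = _ := by ring
    have h8 : |χ' s * ‖f s‖ ^ 2 + χ s * (2 * inner ℝ (f s) (g s)) +
        χ s * ‖f s‖ ^ 2 * ((j + 1) * Ycs t s)| ≤
        (M + 1 + (j + 1) * B) * ‖f s‖ ^ 2 + G s := by
      refine (abs_add_le _ _).trans ?_
      refine (add_le_add (abs_add_le _ _) le_rfl).trans ?_
      linarith
    calc s * |χ' s * ‖f s‖ ^ 2 + χ s * (2 * inner ℝ (f s) (g s)) +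
        χ s * ‖f s‖ ^ 2 * ((j + 1) * Ycs t s)| ≤ 1 * |χ' s * ‖f s‖ ^ 2 +
        χ s * (2 * inner ℝ (f s) (g s)) + χ s * ‖f s‖ ^ 2 * ((j + 1) * Ycs t s)| :=
          mul_le_mul_of_nonneg_right hs.2.le (abs_nonneg _)
      _ ≤ _ := by rw [one_mul]; exact h8
  have hUc : ContinuousOn U (Set.Ioo (0 : ℝ) 1) :=
    ((continuousOn_const.mul (hfc.norm.pow 2)).add hGc).mul hdc
  have hQc : ContinuousOn Q (Set.Ioo (0 : ℝ) 1) := by
    refine ContinuousOn.mul (ContinuousOn.mul continuousOn_id ?_) hdc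
    refine ((hχc.continuousOn.mul (hfc.norm.pow 2)).add (hχcc.continuousOn.mul
      (continuousOn_const.mul (hfc.inner hg)))).add ?_
    exact (hχcc.continuousOn.mul (hfc.norm.pow 2)).mul (continuousOn_const.mul hYc)
  have hPc : ContinuousOn P (Set.Ioo (0 : ℝ) 1) :=
    (continuousOn_const.mul (hχcc.continuousOn.mul (hfc.norm.pow 2))).mul hdc
  have hUb : ∀ s ∈ Set.Ioo (0 : ℝ) 1, U s ≤ (M + 1 + (j + 1) * B) * C + C' := by
    intro s hs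
    have h1 := hfC s hs
    have h2 := hGC s hs
    have h3 : 0 ≤ M + 1 + (j + 1) * B := by positivity
    calc U s = (M + 1 + (j + 1) * B) * (‖f s‖ ^ 2 * den j k t s) + G s * den j k t s := by
          simp only [hU]; ring
      _ ≤ _ := add_le_add (mul_le_mul_of_nonneg_left h1 h3) h2
  have hUi : IntegrableOn U (Set.Ioo (0 : ℝ) 1) := by
    refine Integrable.of_bound (hUc.aestronglyMeasurable measurableSet_Ioo)
      ((M + 1 + (j + 1) * B) * C + C') ?_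
    refine (ae_restrict_mem measurableSet_Ioo).mono fun s hs => ?_
    rw [Real.norm_eq_abs, abs_of_nonneg ((abs_nonneg _).trans (hQU s hs))]
    exact hUb s hs
  have hQi : IntegrableOn Q (Set.Ioo (0 : ℝ) 1) := by
    refine Integrable.of_bound (hQc.aestronglyMeasurable measurableSet_Ioo)
      ((M + 1 + (j + 1) * B) * C + C') ?_
    refine (ae_restrict_mem measurableSet_Ioo).mono fun s hs => ?_
    rw [Real.norm_eq_abs]
    exact (hQU s hs).trans (hUb s hs)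
  have hPi : IntegrableOn P (Set.Ioo (0 : ℝ) 1) := by
    refine Integrable.of_bound (hPc.aestronglyMeasurable measurableSet_Ioo)
      ((2 * k + 2) * C) ?_
    refine (ae_restrict_mem measurableSet_Ioo).mono fun s hs => ?_
    have hd := hden s hs
    rw [Real.norm_eq_abs, abs_of_nonneg (by
      have := hχ0 s
      simp only [hP]
      positivity)]
    calc P s = (2 * k + 2) * (χ s * (‖f s‖ ^ 2 * den j k t s)) := by simp only [hP]; ring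
      _ ≤ (2 * k + 2) * (1 * (‖f s‖ ^ 2 * den j k t s)) := by
          refine mul_le_mul_of_nonneg_left ?_ (by positivity)
          exact mul_le_mul_of_nonneg_right (hχ1 s) (by positivity)
      _ ≤ (2 * k + 2) * C := by
          rw [one_mul]
          exact mul_le_mul_of_nonneg_left (hfC s hs) (by positivity)
  -- fundamental theorem
  set Φ : ℝ → ℝ := fun s => s * ((χ s * ‖f s‖ ^ 2) * den j k t s) with hΦ
  have hderiv : ∀ s ∈ Set.Ioo (0 : ℝ) 1, HasDerivAt Φ (P s + Q s) s := by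
    intro s hs
    have hY : HasDerivAt (fun s => Yc t s) (Ycs t s) s :=
      (hC t s (by linarith) ht hs.1.le hs.2).2.2.2.2.2.2.2.2.2.2.2.2.2.2.1
    have h1 : HasDerivAt (fun s : ℝ => s ^ (2 * k + 2)) (((2 * k + 2 : ℕ) : ℝ) * s ^ (2 * k + 1)) s := by
      simpa using hasDerivAt_pow (2 * k + 2) s
    have h3 := (hf s hs).norm_sq
    have h4 : HasDerivAt (fun s => Real.exp ((j + 1) * Yc t s))
        (Real.exp ((j + 1) * Yc t s) * ((j + 1) * Ycs t s)) s := (hY.const_mul _).exp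
    have h5 := ((h1.mul (hχ s)).mul h3).mul h4
    have h6 : Φ = fun s => s ^ (2 * k + 2) * χ s * ‖f s‖ ^ 2 * Real.exp ((j + 1) * Yc t s) := by
      funext s
      simp only [hΦ, den]
      ring
    rw [h6]
    refine h5.congr_deriv ?_
    simp only [hP, hQ, den, Pi.mul_apply]
    push_cast
    ring
  have hint : IntervalIntegrable (fun s => P s + Q s) volume 0 1 := by
    rw [intervalIntegrable_iff_integrableOn_Ioo_of_le zero_le_one]
    exact hPi.add hQi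
  have hlim0 : Tendsto Φ (𝓝[>] 0) (𝓝 0) := by
    have h1 : Tendsto (fun s : ℝ => s * C) (𝓝[>] 0) (𝓝 0) := by
      have : Tendsto (fun s : ℝ => s * C) (𝓝 0) (𝓝 (0 * C)) := tendsto_id.mul_const C
      rw [zero_mul] at this
      exact this.mono_left nhdsWithin_le_nhds
    refine squeeze_zero' ?_ ?_ h1
    · filter_upwards [Ioo_mem_nhdsGT (one_pos : (0:ℝ) < 1)] with s hs
      have := hden s hs
      have := hχ0 s
      have := hs.1
      simp only [hΦ]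
      positivity
    · filter_upwards [Ioo_mem_nhdsGT (one_pos : (0:ℝ) < 1)] with s hs
      have hd := hden s hs
      simp only [hΦ]
      refine mul_le_mul_of_nonneg_left ?_ hs.1.le
      refine le_trans ?_ (hfC s hs)
      refine mul_le_mul_of_nonneg_right ?_ hd.le
      exact mul_le_of_le_one_left (by positivity) (hχ1 s)
  have hlim1 : Tendsto Φ (𝓝[<] 1) (𝓝 0) := by
    refine tendsto_const_nhds.congr' ?_
    have h1 : ∀ᶠ s in 𝓝[<] (1:ℝ), b ≤ s := by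
      filter_upwards [Ioo_mem_nhdsLT hb] with s hs
      exact hs.1.le
    filter_upwards [h1] with s hs
    simp only [hΦ, hχb s hs]
    ring
  have hFTC := intervalIntegral.integral_eq_sub_of_hasDerivAt_of_tendsto (one_pos : (0:ℝ) < 1)
    hderiv hint hlim0 hlim1
  rw [intervalIntegral.integral_of_le zero_le_one, integral_Ioc_eq_integral_Ioo, sub_zero] at hFTC
  have h9 : ∫ s in Set.Ioo (0 : ℝ) 1, (P s + Q s) = (∫ s in Set.Ioo (0 : ℝ) 1, P s) +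
      ∫ s in Set.Ioo (0 : ℝ) 1, Q s := integral_add hPi hQi
  rw [h9] at hFTC
  have h10 : -∫ s in Set.Ioo (0 : ℝ) 1, Q s ≤ ∫ s in Set.Ioo (0 : ℝ) 1, U s := by
    rw [← integral_neg]
    refine setIntegral_mono_on hQi.neg hUi measurableSet_Ioo fun s hs => ?_
    exact (neg_le_abs _).trans (hQU s hs)
  linarith


/-! ### cut-off -/

/-- cut-off function -/
noncomputable def vkh (p q u : ℝ) : ℝ := Real.smoothTransition ((u - p) / (q - p))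

theorem vkh_smooth (p q : ℝ) : ContDiff ℝ ∞ (vkh p q) := by
  unfold vkh
  exact Real.smoothTransition.contDiff.comp ((contDiff_id.sub contDiff_const).div_const _)

theorem vkh_deriv (p q u : ℝ) : HasDerivAt (vkh p q) (deriv (vkh p q) u) u :=
  ((vkh_smooth p q).differentiable (by simp)).differentiableAt.hasDerivAt

theorem vkh_cd (p q : ℝ) : Continuous (deriv (vkh p q)) :=
  (vkh_smooth p q).continuous_deriv (by simp)

theorem vkh_nonneg (p q u : ℝ) : 0 ≤ vkh p q u := Real.smoothTransition.nonneg _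

theorem vkh_le (p q u : ℝ) : vkh p q u ≤ 1 := Real.smoothTransition.le_one _

theorem vkh_zero {p q u : ℝ} (h : p < q) (hu : u ≤ p) : vkh p q u = 0 :=
  Real.smoothTransition.zero_of_nonpos (div_nonpos_of_nonpos_of_nonneg (by linarith) (by linarith))

theorem vkh_one {p q u : ℝ} (h : p < q) (hu : q ≤ u) : vkh p q u = 1 := by
  refine Real.smoothTransition.one_of_one_le ?_
  rw [le_div_iff₀ (by linarith)]
  linarith

/-- cut-off mode function -/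
noncomputable def vkF (p q d : ℝ) (j k : ℕ) (a : ℂ) (F : E3 → ℂ) (x : E3) : ℂ :=
  ((vkh p q (‖x 2‖ ^ 2 / d) : ℝ) : ℂ) * (F x - a * (x 1 ^ j * x 2 ^ k))

theorem vkA_smooth (p q d : ℝ) :
    ContDiff ℝ ∞ (fun x : E3 => ((vkh p q (‖x 2‖ ^ 2 / d) : ℝ) : ℂ)) := by
  have h1 : ContDiff ℝ ∞ (fun x : E3 => x 2) := contDiff_apply ℝ ℂ (2 : Fin 3)
  have h2 : ContDiff ℝ ∞ (fun x : E3 => ‖x 2‖ ^ 2 / d) := (h1.norm_sq ℝ).div_const _
  exact Complex.ofRealCLM.contDiff.comp ((vkh_smooth p q).comp h2)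

theorem vkB_smooth (j k : ℕ) (a : ℂ) {F : E3 → ℂ} (hF : ContDiff ℝ ∞ F) :
    ContDiff ℝ ∞ (fun x : E3 => F x - a * (x 1 ^ j * x 2 ^ k)) := by
  have h1 : ContDiff ℝ ∞ (fun x : E3 => x 1) := contDiff_apply ℝ ℂ (1 : Fin 3)
  have h2 : ContDiff ℝ ∞ (fun x : E3 => x 2) := contDiff_apply ℝ ℂ (2 : Fin 3)
  exact hF.sub (contDiff_const.mul ((h1.pow j).mul (h2.pow k)))

theorem vkF_smooth (p q d : ℝ) (j k : ℕ) (a : ℂ) {F : E3 → ℂ} (hF : ContDiff ℝ ∞ F) :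
    ContDiff ℝ ∞ (vkF p q d j k a F) :=
  (vkA_smooth p q d).mul (vkB_smooth j k a hF)

theorem vkF_mode (p q d : ℝ) (j k : ℕ) (a : ℂ) {F : E3 → ℂ} (hm : IsModeFn j k F) :
    IsModeFn j k (vkF p q d j k a F) := by
  intro θ₁ θ₂ x
  have h2 : ‖rot θ₁ θ₂ x 2‖ = ‖x 2‖ := by
    have : rot θ₁ θ₂ x 2 = Complex.exp (θ₂ * I) * x 2 := rfl
    rw [this, norm_mul, Complex.norm_exp_ofReal_mul_I, one_mul]
  have e1 : rot θ₁ θ₂ x 1 = Complex.exp (θ₁ * I) * x 1 := rfl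
  have e2 : rot θ₁ θ₂ x 2 = Complex.exp (θ₂ * I) * x 2 := rfl
  have e3 : Complex.exp (θ₁ * I) ^ j * Complex.exp (θ₂ * I) ^ k =
      Complex.exp (I * (((j : ℤ) : ℂ) * θ₁ + ((k : ℤ) : ℂ) * θ₂)) := by
    rw [← Complex.exp_nat_mul, ← Complex.exp_nat_mul, ← Complex.exp_add]
    congr 1
    push_cast
    ring
  unfold vkF
  rw [h2, hm θ₁ θ₂ x, e1, e2, ← e3, mul_pow, mul_pow]
  ring

theorem vk_dbar_mul {a b : E3 → ℂ} {x : E3} (ha : DifferentiableAt ℝ a x)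
    (hb : DifferentiableAt ℝ b x) (i : Fin 3) :
    dbar i (fun x => a x * b x) x = dbar i a x * b x + a x * dbar i b x := by
  unfold dbar
  rw [fderiv_fun_mul ha hb]
  simp only [ContinuousLinearMap.add_apply, ContinuousLinearMap.smul_apply, smul_eq_mul]
  ring

theorem vk_dbar_sub {a b : E3 → ℂ} {x : E3} (ha : DifferentiableAt ℝ a x)
    (hb : DifferentiableAt ℝ b x) (i : Fin 3) :
    dbar i (fun x => a x - b x) x = dbar i a x - dbar i b x := by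
  unfold dbar
  rw [fderiv_fun_sub ha hb]
  simp only [ContinuousLinearMap.sub_apply]
  ring

theorem vk_dbar_hol {a : E3 → ℂ} {x : E3} (ha : DifferentiableAt ℂ a x) (i : Fin 3) :
    dbar i a x = 0 := by
  unfold dbar
  rw [ha.fderiv_restrictScalars ℝ]
  have e : (Pi.single i I : E3) = I • (Pi.single i 1 : E3) := by
    rw [← Pi.single_smul]
    simp
  simp only [ContinuousLinearMap.coe_restrictScalars']
  rw [e, map_smul, smul_eq_mul, ← mul_assoc, Complex.I_mul_I]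
  ring

theorem vk_dbar_A (p q d : ℝ) (x : E3) :
    dbar 1 (fun x : E3 => ((vkh p q (‖x 2‖ ^ 2 / d) : ℝ) : ℂ)) x = 0 ∧
    dbar 2 (fun x : E3 => ((vkh p q (‖x 2‖ ^ 2 / d) : ℝ) : ℂ)) x =
      ((deriv (vkh p q) (‖x 2‖ ^ 2 / d) / d : ℝ) : ℂ) * x 2 := by
  have h1 : HasFDerivAt (fun x : E3 => x 2)
      (ContinuousLinearMap.proj (R := ℝ) (φ := fun _ : Fin 3 => ℂ) (2 : Fin 3)) x :=
    (ContinuousLinearMap.proj (R := ℝ) (φ := fun _ : Fin 3 => ℂ) (2 : Fin 3)).hasFDerivAt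
  have h2 : HasFDerivAt (fun x : E3 => ‖x 2‖ ^ 2 / d) (d⁻¹ • (2 • (innerSL ℝ (x 2)).comp
        (ContinuousLinearMap.proj (R := ℝ) (φ := fun _ : Fin 3 => ℂ) (2 : Fin 3)))) x := by
    simpa only [div_eq_mul_inv] using (h1.norm_sq).mul_const (d⁻¹)
  have h3 : HasFDerivAt (fun x : E3 => vkh p q (‖x 2‖ ^ 2 / d))
      (deriv (vkh p q) (‖x 2‖ ^ 2 / d) • (d⁻¹ • (2 • (innerSL ℝ (x 2)).comp
        (ContinuousLinearMap.proj (R := ℝ) (φ := fun _ : Fin 3 => ℂ) (2 : Fin 3))))) x :=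
    HasDerivAt.comp_hasFDerivAt (h₂ := vkh p q) (f := fun x : E3 => ‖x 2‖ ^ 2 / d) x
      (vkh_deriv p q (‖x 2‖ ^ 2 / d)) h2
  have h4 := Complex.ofRealCLM.hasFDerivAt.comp x h3
  have h5 : ∀ w : E3, fderiv ℝ (fun x : E3 => ((vkh p q (‖x 2‖ ^ 2 / d) : ℝ) : ℂ)) x w =
      ((deriv (vkh p q) (‖x 2‖ ^ 2 / d) * (d⁻¹ * (2 * inner ℝ (x 2) (w 2))) : ℝ) : ℂ) := by
    intro w
    have h6 : fderiv ℝ (fun x : E3 => ((vkh p q (‖x 2‖ ^ 2 / d) : ℝ) : ℂ)) x = _ := h4.fderiv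
    rw [h6]
    simp [two_mul]
    ring
  unfold dbar
  constructor
  · rw [h5, h5]
    simp
  · rw [h5, h5]
    have e1 : (Pi.single 2 1 : E3) 2 = 1 := by simp
    have e2 : (Pi.single 2 I : E3) 2 = I := by simp
    rw [e1, e2]
    have e3 : inner ℝ (x 2) (1 : ℂ) = (x 2).re := by simp [Complex.inner]
    have e4 : inner ℝ (x 2) I = (x 2).im := by simp [Complex.inner]
    rw [e3, e4]
    calc _ = ((deriv (vkh p q) (‖x 2‖ ^ 2 / d) / d : ℝ) : ℂ) * (((x 2).re : ℂ) + (x 2).im * I) := by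
          push_cast
          ring
      _ = _ := by rw [Complex.re_add_im]


section fib2

variable {j k : ℕ} {t : ℝ}

theorem vkF_fib (hC : CAc_stmt) {z : ℂ} (hz : z ∈ BD) {F : E3 → ℂ} (hF : ContDiff ℝ ∞ F)
    (p q : ℝ) (a : ℂ) {v s : ℝ} (hv : 0 < v) (hs : 0 < s) (hs1 : s < 1) :
    cc j k (vkF p q (d0 (‖z‖ ^ 2)) j k a F) z v s =
      ((vkh p q (s ^ 2) : ℝ) : ℂ) * (cc j k F z v s - a) ∧
    GG j k (vkF p q (d0 (‖z‖ ^ 2)) j k a F) 1 z v s =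
      ((vkh p q (s ^ 2) : ℝ) : ℂ) * GG j k F 1 z v s ∧
    GG j k (vkF p q (d0 (‖z‖ ^ 2)) j k a F) 2 z v s =
      ((vkh p q (s ^ 2) : ℝ) : ℂ) * GG j k F 2 z v s +
      ((deriv (vkh p q) (s ^ 2) / d0 (‖z‖ ^ 2) * (Real.sqrt (d0 (‖z‖ ^ 2)) * s) : ℝ) : ℂ) *
        (cc j k F z v s - a) := by
  have ht0 : (0 : ℝ) ≤ ‖z‖ ^ 2 := by positivity
  have hd : 0 < d0 (‖z‖ ^ 2) := (hC (‖z‖ ^ 2) 0 (by linarith) hz le_rfl one_pos).2.2.2.2.2.1
  have hmp := vk_mono_pos (j := j) (k := k) hC hz hv hs hs1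
  have hmc : ((mono j k z v s : ℝ) : ℂ) ≠ 0 := by exact_mod_cast hmp.ne'
  have e2 : Pt z v s 2 = ((Real.sqrt (d0 (‖z‖ ^ 2)) * s : ℝ) : ℂ) := rfl
  have e1 : Pt z v s 1 = ((v * Real.sqrt (R2 (‖z‖ ^ 2) s) : ℝ) : ℂ) := rfl
  have e3 : ‖Pt z v s 2‖ ^ 2 / d0 (‖z‖ ^ 2) = s ^ 2 := by
    rw [e2, Complex.norm_real, Real.norm_eq_abs, sq_abs, mul_pow, Real.sq_sqrt hd.le]
    field_simp
  have e4 : (Pt z v s 1) ^ j * (Pt z v s 2) ^ k = ((mono j k z v s : ℝ) : ℂ) := by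
    rw [e1, e2]
    unfold mono
    push_cast
    rfl
  have hA := (vkA_smooth p q (d0 (‖z‖ ^ 2))).differentiable (by simp)
  have hB := (vkB_smooth j k a hF).differentiable (by simp)
  have hFd := hF.differentiable (by simp)
  have hm1 : ∀ x : E3, DifferentiableAt ℂ (fun x : E3 => a * (x 1 ^ j * x 2 ^ k)) x := by
    intro x
    fun_prop
  have hB2 : ∀ i, dbar i (fun x : E3 => F x - a * (x 1 ^ j * x 2 ^ k)) (Pt z v s) =
      dbar i F (Pt z v s) := by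
    intro i
    rw [vk_dbar_sub (hFd _) ((hm1 _).restrictScalars ℝ), vk_dbar_hol (hm1 _), sub_zero]
  have hmul : ∀ i, dbar i (vkF p q (d0 (‖z‖ ^ 2)) j k a F) (Pt z v s) =
      dbar i (fun x : E3 => ((vkh p q (‖x 2‖ ^ 2 / d0 (‖z‖ ^ 2)) : ℝ) : ℂ)) (Pt z v s) *
        (F (Pt z v s) - a * (mono j k z v s : ℝ)) +
      ((vkh p q (s ^ 2) : ℝ) : ℂ) * dbar i F (Pt z v s) := by
    intro i
    have h1 := vk_dbar_mul (hA (Pt z v s)) (hB (Pt z v s)) i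
    rw [hB2 i, e3, e4] at h1
    exact h1
  refine ⟨?_, ?_, ?_⟩
  · unfold cc vkF
    rw [e3, e4]
    field_simp
  · unfold GG
    rw [hmul 1, (vk_dbar_A p q _ _).1]
    field_simp
    ring
  · unfold GG cc
    rw [hmul 2, (vk_dbar_A p q _ _).2, e3, e2]
    push_cast
    field_simp
    ring

theorem vk_EC_const (hC : CAc_stmt) (ht0 : 0 ≤ t) (ht : t < T0) (c : ℂ) :
    EC j k t (fun _ _ => c) = c := by
  rw [vk_EC_eq hC ht0 ht ((N2.const hC ht0 ht c).n1 hC ht0 ht)]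
  have hI := vk_Iw_pos (j := j) (k := k) hC ht0 ht
  have h1 : ∫ x in vkS, vkW j k t x.1 x.2 = (1 / (2 * j + 2)) * Iw j k t := by
    unfold vkS
    rw [Measure.volume_eq_prod]
    have h2 := setIntegral_prod_mul (μ := (volume : Measure ℝ)) (ν := (volume : Measure ℝ))
      (fun v : ℝ => v ^ (2 * j + 1)) (fun s : ℝ => den j k t s) (Set.Ioo (0:ℝ) 1)
      (Set.Ioo (0:ℝ) 1)
    have h3 : ∫ v in Set.Ioo (0 : ℝ) 1, v ^ (2 * j + 1) = 1 / (2 * j + 2) := by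
      rw [← integral_Ioc_eq_integral_Ioo, ← intervalIntegral.integral_of_le zero_le_one,
        integral_pow]
      push_cast
      simp
      ring
    rw [h3] at h2
    exact h2
  have h4 : ∫ x in vkS, vkW j k t x.1 x.2 • c = ((1 / (2 * j + 2)) * Iw j k t : ℝ) • c := by
    rw [integral_smul_const, h1]
  rw [h4, Complex.real_smul]
  have hIc : ((Iw j k t : ℝ) : ℂ) ≠ 0 := by exact_mod_cast hI.ne'
  have hj : (2 * (j : ℂ) + 2) ≠ 0 := by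
    have : (2 * (j : ℝ) + 2) ≠ 0 := by positivity
    exact_mod_cast this
  push_cast
  field_simp

theorem vk_EC_sub (hC : CAc_stmt) (ht0 : 0 ≤ t) (ht : t < T0) {H : ℝ → ℝ → ℂ}
    (hH : N2 j k t H) (c : ℂ) :
    EC j k t (fun v s => H v s - c) = EC j k t H - c := by
  have hc := N2.const (j := j) (k := k) hC ht0 ht c
  conv_rhs => rw [← vk_EC_const (j := j) (k := k) hC ht0 ht c]
  rw [vk_EC_eq hC ht0 ht ((hH.sub_const hC ht0 ht c).n1 hC ht0 ht),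
    vk_EC_eq hC ht0 ht (hH.n1 hC ht0 ht), vk_EC_eq hC ht0 ht (hc.n1 hC ht0 ht), ← sub_mul,
    ← integral_sub ((hH.n1 hC ht0 ht).int hC ht0 ht) ((hc.n1 hC ht0 ht).int hC ht0 ht)]
  congr 1
  refine setIntegral_congr_fun vkS_meas fun x _ => ?_
  simp only [Complex.real_smul]
  ring

theorem vk_EE_re (hC : CAc_stmt) (ht0 : 0 ≤ t) (ht : t < T0) {H : ℝ → ℝ → ℂ}
    (hH : N2 j k t H) (w : ℂ) :
    N1 j k t (fun v s => (w * H v s).re) ∧
    EE j k t (fun v s => (w * H v s).re) = (w * EC j k t H).re := by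
  have hN := hH.n1 hC ht0 ht
  have hN1 : N1 j k t (fun v s => (w * H v s).re) := by
    obtain ⟨h1, C, hCC⟩ := hN
    refine ⟨Complex.continuous_re.comp_continuousOn (continuousOn_const.mul h1), ‖w‖ * C,
      fun v hv s hs => ?_⟩
    have hW := (vk_W_pos (j := j) (k := k) (t := t) hv.1 hs.1).le
    calc ‖(w * H v s).re‖ * vkW j k t v s ≤ ‖w * H v s‖ * vkW j k t v s :=
          mul_le_mul_of_nonneg_right (Complex.abs_re_le_norm _) hW
      _ = ‖w‖ * (‖H v s‖ * vkW j k t v s) := by rw [norm_mul]; ring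
      _ ≤ ‖w‖ * C := mul_le_mul_of_nonneg_left (hCC v hv s hs) (norm_nonneg _)
  refine ⟨hN1, ?_⟩
  rw [vk_EE_eq hC ht0 ht hN1, vk_EC_eq hC ht0 ht hN]
  have h1 := hN.int hC ht0 ht
  have h2 : ∫ x in vkS, vkW j k t x.1 x.2 • (w * H x.1 x.2).re =
      (w * ∫ x in vkS, vkW j k t x.1 x.2 • H x.1 x.2).re := by
    rw [← integral_const_mul]
    have h3 := integral_re (h1.const_mul w)
    have h4 : (∫ x in vkS, w * vkW j k t x.1 x.2 • H x.1 x.2).re =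
        RCLike.re (∫ x in vkS, w * vkW j k t x.1 x.2 • H x.1 x.2) := rfl
    rw [h4, ← h3]
    refine setIntegral_congr_fun vkS_meas fun x _ => ?_
    simp only [smul_eq_mul, Complex.real_smul, RCLike.re_to_complex]
    rw [← Complex.re_ofReal_mul]
    congr 1
    ring
  rw [h2, ← mul_assoc, ← Complex.re_mul_ofReal]

theorem vk_var_min (hC : CAc_stmt) (ht0 : 0 ≤ t) (ht : t < T0) {H : ℝ → ℝ → ℂ}
    (hH : N2 j k t H) (h0 : EC j k t H = 0) (c : ℂ) :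
    EE j k t (fun v s => ‖H v s‖ ^ 2) ≤ EE j k t (fun v s => ‖H v s - c‖ ^ 2) := by
  have h1 := vk_EE_re hC ht0 ht hH (-2 * conj c)
  rw [h0, mul_zero, Complex.zero_re] at h1
  have h2 := vk_EE_add hC ht0 ht hH.sq h1.1
  rw [h1.2, add_zero] at h2
  rw [← h2.2]
  refine vk_EE_mono hC ht0 ht h2.1 (hH.sub_const hC ht0 ht c).sq fun v _ s _ => ?_
  rw [← Complex.normSq_eq_norm_sq, ← Complex.normSq_eq_norm_sq, Complex.normSq_sub]
  have h3 : (-2 * conj c * H v s).re = -2 * (H v s * conj c).re := by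
    simp
    ring
  rw [h3]
  have := Complex.normSq_nonneg c
  linarith

end fib2


section core

variable {j k : ℕ}

/-- concentration near `s = 1` -/
theorem vk_conc (hC : CAc_stmt) {z : ℂ} (hz : z ∈ BD) {F : E3 → ℂ} (hF : ContDiff ℝ ∞ F)
    (hm : IsModeFn j k F) (p q M B : ℝ) (hpq : p < q) (hq : q < 1) (hp : 0 ≤ p)
    (hM : ∀ u ∈ Set.Icc (0 : ℝ) 1, |deriv (vkh p q) u| ≤ M)
    (hB0 : 0 ≤ B) (hB : ∀ s ∈ Set.Ioo (0 : ℝ) 1, s ^ 2 < q → |Ycs (‖z‖ ^ 2) s| ≤ B) (a : ℂ) :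
    (2 * k + 2) * EE j k (‖z‖ ^ 2)
        (fun v s => (1 - vkh p q (s ^ 2)) * ‖cc j k F z v s - a‖ ^ 2) ≤
      (2 * M + 1 + (j + 1) * B) * EE j k (‖z‖ ^ 2) (fun v s => ‖cc j k F z v s - a‖ ^ 2) +
        2 * B ^ 2 * E0 j k F 1 z + 8 * E0 j k F 2 z := by
  have ht0 : (0 : ℝ) ≤ ‖z‖ ^ 2 := by positivity
  have hc0 := (vk_cc_nice (j := j) (k := k) hC hF hz).sub_const hC ht0 hz a
  have hG1 := vk_GG_nice (j := j) (k := k) hC hF hz 1
  have hG2 := vk_GG_nice (j := j) (k := k) hC hF hz 2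
  have hsq : Continuous (fun s : ℝ => s ^ 2) := continuous_pow 2
  have hhc : Continuous (vkh p q) := (vkh_smooth p q).continuous
  have hχc : Continuous (fun s : ℝ => 1 - vkh p q (s ^ 2)) :=
    continuous_const.sub (hhc.comp hsq)
  have hX1 : N1 j k (‖z‖ ^ 2) (fun v s => (1 - vkh p q (s ^ 2)) * ‖cc j k F z v s - a‖ ^ 2) := by
    refine hc0.sq.of_le ((vk_snd hχc.continuousOn).mul hc0.sq.1) 1 zero_le_one ?_
    intro v hv s hs
    rw [abs_mul, one_mul]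
    refine mul_le_of_le_one_left (abs_nonneg _) ?_
    rw [abs_of_nonneg (by linarith [vkh_le p q (s ^ 2)])]
    linarith [vkh_nonneg p q (s ^ 2)]
  have hX2 := vk_EE_mul hC ht0 hz ((2 * k + 2 : ℝ)) hX1
  have hY1 := vk_EE_mul hC ht0 hz (2 * M + 1 + (j + 1) * B) hc0.sq
  have hY2 := vk_EE_mul hC ht0 hz (2 * B ^ 2) hG1.sq
  have hY3 := vk_EE_mul hC ht0 hz (8 : ℝ) hG2.sq
  have hY4 := vk_EE_add hC ht0 hz hY1.1 hY2.1
  have hY5 := vk_EE_add hC ht0 hz hY4.1 hY3.1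
  unfold E0
  rw [← hX2.2, ← hY1.2, ← hY2.2, ← hY3.2, ← hY4.2, ← hY5.2]
  refine vk_EE_slice hC ht0 hz hX2.1 hY5.1 fun v hv => ?_
  obtain ⟨-, C, hCb⟩ := hc0
  obtain ⟨-, C1, hC1⟩ := hG1
  obtain ⟨-, C2, hC2⟩ := hG2
  have hvp : 0 < v ^ (2 * j + 1) := pow_pos hv.1 _
  set f : ℝ → ℂ := fun s => cc j k F z v s - a with hf
  set g : ℝ → ℂ := fun s => 2 * GG j k F 1 z v s *
        ((v * (R2 (‖z‖ ^ 2) s * Ycs (‖z‖ ^ 2) s / (2 * Real.sqrt (R2 (‖z‖ ^ 2) s))) : ℝ) : ℂ) +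
      2 * GG j k F 2 z v s * ((Real.sqrt (d0 (‖z‖ ^ 2)) : ℝ) : ℂ) with hg
  have cs1 : ∀ {H : ℝ → ℝ → ℂ}, N2 j k (‖z‖ ^ 2) H →
      ContinuousOn (fun s => H v s) (Set.Ioo (0 : ℝ) 1) := fun {H} hH =>
    hH.1.comp (f := fun s : ℝ => (v, s)) (by fun_prop) fun _ hs => ⟨hv, hs⟩
  have cG1 := cs1 (vk_GG_nice (j := j) (k := k) hC hF hz 1)
  have cG2 := cs1 (vk_GG_nice (j := j) (k := k) hC hF hz 2)
  have cR := vk_cR hC ht0 hz
  have cY := vk_cYcs hC ht0 hz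
  have hR : ∀ s ∈ Set.Ioo (0 : ℝ) 1, 2 * Real.sqrt (R2 (‖z‖ ^ 2) s) ≠ 0 := fun s hs => by
    have := (hC (‖z‖ ^ 2) s (by linarith) hz hs.1.le hs.2).2.2.2.2.2.2.2.2.2.2.2.2.2.2.2.2.2.2
    have := Real.sqrt_pos.mpr this
    positivity
  have hgc : ContinuousOn g (Set.Ioo (0 : ℝ) 1) := by
    refine ((continuousOn_const.mul cG1).mul (Complex.continuous_ofReal.comp_continuousOn ?_)).add
      ((continuousOn_const.mul cG2).mul continuousOn_const)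
    exact continuousOn_const.mul ((cR.mul cY).div (continuousOn_const.mul cR.sqrt) hR)
  have hfd : ∀ s ∈ Set.Ioo (0 : ℝ) 1, HasDerivAt f (g s) s := fun s hs =>
    (vk_deriv hC F hF hm z hz v s hv.1 hs.1 hs.2).sub_const a
  have hden := fun s (hs : s ∈ Set.Ioo (0 : ℝ) 1) =>
    vk_den_pos (j := j) (k := k) (t := ‖z‖ ^ 2) hs.1
  have hq0 : 0 < q := lt_of_le_of_lt hp hpq
  have hb : Real.sqrt q < 1 := by
    rw [Real.sqrt_lt' one_pos]
    linarith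
  have key := vk_hardy hC j k ht0 hz f g hfd hgc (fun s => 1 - vkh p q (s ^ 2))
    (fun s => -(deriv (vkh p q) (s ^ 2) * (2 * s)))
    (fun s => 2 * B ^ 2 * ‖GG j k F 1 z v s‖ ^ 2 + 8 * ‖GG j k F 2 z v s‖ ^ 2)
    (C / v ^ (2 * j + 1)) ((2 * B ^ 2 * C1 + 8 * C2) / v ^ (2 * j + 1)) (2 * M) B (Real.sqrt q)
    (fun s hs => by
      rw [le_div_iff₀ hvp]
      have := hCb v hv s hs
      unfold vkW at this
      calc _ = _ := by ring
        _ ≤ C := this)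
    ((continuousOn_const.mul (cG1.norm.pow 2)).add (continuousOn_const.mul (cG2.norm.pow 2)))
    (fun s hs => by
      rw [le_div_iff₀ hvp]
      have h1 := hC1 v hv s hs
      have h2 := hC2 v hv s hs
      unfold vkW at h1 h2
      calc _ = 2 * B ^ 2 * (‖GG j k F 1 z v s‖ ^ 2 * (v ^ (2 * j + 1) * den j k (‖z‖ ^ 2) s)) +
            8 * (‖GG j k F 2 z v s‖ ^ 2 * (v ^ (2 * j + 1) * den j k (‖z‖ ^ 2) s)) := by ring
        _ ≤ _ := add_le_add (mul_le_mul_of_nonneg_left h1 (by positivity))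
            (mul_le_mul_of_nonneg_left h2 (by norm_num)))
    (fun s hs => by
      have h1 := vk_deriv_bd (j := j) (k := k) hC F z hz v s hv.1 hv.2 hs.1 hs.2
      have hχ0 : 0 ≤ 1 - vkh p q (s ^ 2) := by linarith [vkh_le p q (s ^ 2)]
      have hχ1 : 1 - vkh p q (s ^ 2) ≤ 1 := by linarith [vkh_nonneg p q (s ^ 2)]
      rcases lt_or_ge (s ^ 2) q with h | h
      · have h2 : Ycs (‖z‖ ^ 2) s ^ 2 ≤ B ^ 2 := by
          rw [← sq_abs]
          exact pow_le_pow_left₀ (abs_nonneg _) (hB s hs h) 2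
        have h3 : 2 * Ycs (‖z‖ ^ 2) s ^ 2 * ‖GG j k F 1 z v s‖ ^ 2 +
            8 * ‖GG j k F 2 z v s‖ ^ 2 ≤
            2 * B ^ 2 * ‖GG j k F 1 z v s‖ ^ 2 + 8 * ‖GG j k F 2 z v s‖ ^ 2 := by
          have : 2 * Ycs (‖z‖ ^ 2) s ^ 2 * ‖GG j k F 1 z v s‖ ^ 2 ≤
              2 * B ^ 2 * ‖GG j k F 1 z v s‖ ^ 2 :=
            mul_le_mul_of_nonneg_right (by linarith) (by positivity)
          linarith
        refine le_trans ?_ (h1.trans h3)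
        exact mul_le_of_le_one_left (by positivity) hχ1
      · rw [vkh_one hpq h, sub_self, zero_mul]
        positivity)
    (fun s => by
      have h1 := (vkh_deriv p q (s ^ 2)).comp s (hasDerivAt_pow 2 s)
      have h2 := h1.const_sub 1
      refine h2.congr_deriv ?_
      norm_num)
    (by
      have := vkh_cd p q
      exact ((this.comp hsq).mul (continuous_const.mul continuous_id)).neg)
    (fun s => by linarith [vkh_le p q (s ^ 2)])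
    (fun s => by linarith [vkh_nonneg p q (s ^ 2)])
    (fun s hs => by
      have h1 := hM (s ^ 2) ⟨by positivity, pow_le_one₀ hs.1.le hs.2.le⟩
      rw [abs_neg, abs_mul, abs_of_pos (by linarith [hs.1] : 0 < 2 * s)]
      have h2 := abs_nonneg (deriv (vkh p q) (s ^ 2))
      have h3 := hs.1
      have h4 := hs.2
      nlinarith)
    hb
    (fun s hs => by
      have h1 : q ≤ s ^ 2 := by
        have h2 := Real.sqrt_nonneg q
        calc q = Real.sqrt q ^ 2 := (Real.sq_sqrt hq0.le).symm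
          _ ≤ s ^ 2 := pow_le_pow_left₀ h2 hs 2
      rw [vkh_one hpq h1, sub_self])
    (fun s hs => by
      have hχ1 : 1 - vkh p q (s ^ 2) ≤ 1 := by linarith [vkh_nonneg p q (s ^ 2)]
      rcases lt_or_ge (s ^ 2) q with h | h
      · exact (mul_le_of_le_one_left (abs_nonneg _) hχ1).trans (hB s hs h)
      · rw [vkh_one hpq h, sub_self, zero_mul]
        exact hB0)
  calc _ = _ := by rfl
    _ ≤ _ := key
    _ = _ := by
        refine setIntegral_congr_fun measurableSet_Ioo fun s _ => ?_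
        simp only [hf]
        ring

end core


section core2

variable {j k : ℕ}

theorem vk_core (hC : CAc_stmt) (hPW : PWc_stmt) (hFib : Fibc_stmt) {z : ℂ} (hz : z ∈ BD)
    {F : E3 → ℂ} (hF : ContDiff ℝ ∞ F) (hm : IsModeFn j k F) (p q M B e1 r : ℝ) (hpq : p < q)
    (hq : q < 1) (hp : 0 ≤ p)
    (hM : ∀ u ∈ Set.Icc (0 : ℝ) 1, |deriv (vkh p q) u| ≤ M)
    (hB0 : 0 ≤ B) (hB : ∀ s ∈ Set.Ioo (0 : ℝ) 1, s ^ 2 < q → |Ycs (‖z‖ ^ 2) s| ≤ B)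
    (he1 : 0 ≤ e1) (hR : ∀ s ∈ Set.Ioo (0 : ℝ) 1, p < s ^ 2 → R2 (‖z‖ ^ 2) s ≤ e1)
    (hr0 : 0 ≤ r) (hr : ∀ s ∈ Set.Ioo (0 : ℝ) 1,
      R2 (‖z‖ ^ 2) s * Ycs (‖z‖ ^ 2) s ^ 2 / 4 ≤ r * V2 j k (‖z‖ ^ 2) s) :
    EE j k (‖z‖ ^ 2) (fun v s => ‖cc j k F z v s - aa j k F z‖ ^ 2) ≤
      (8 * e1 + 16 * r) * E0 j k F 1 z + 32 / (2 * k + 1) * E0 j k F 2 z +
      32 * M ^ 2 / (2 * k + 1) *
        EE j k (‖z‖ ^ 2) (fun v s => ‖cc j k F z v s - aa j k F z‖ ^ 2) +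
      1 / (k + 1) * ((2 * M + 1 + (j + 1) * B) *
        EE j k (‖z‖ ^ 2) (fun v s => ‖cc j k F z v s - aa j k F z‖ ^ 2) +
        2 * B ^ 2 * E0 j k F 1 z + 8 * E0 j k F 2 z) := by
  have ht0 : (0 : ℝ) ≤ ‖z‖ ^ 2 := by positivity
  have hd : 0 < d0 (‖z‖ ^ 2) := (hC (‖z‖ ^ 2) 0 (by linarith) hz le_rfl one_pos).2.2.2.2.2.1
  have hd1 : d0 (‖z‖ ^ 2) ≤ 1 :=
    (hC (‖z‖ ^ 2) 0 (by linarith) hz le_rfl one_pos).2.2.2.2.2.2.1
  set a := aa j k F z with ha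
  set Ft := vkF p q (d0 (‖z‖ ^ 2)) j k a F with hFt
  have hFts : ContDiff ℝ ∞ Ft := vkF_smooth p q _ j k a hF
  have hFtm : IsModeFn j k Ft := vkF_mode p q _ j k a hm
  have hfib := fun v (hv : v ∈ Set.Ioo (0:ℝ) 1) s (hs : s ∈ Set.Ioo (0:ℝ) 1) =>
    vkF_fib (j := j) (k := k) hC hz hF p q a hv.1 hs.1 hs.2
  rw [← hFt] at hfib
  have hk1 : (0:ℝ) < 2 * k + 1 := by positivity
  have hV2 : ∀ s ∈ Set.Ioo (0 : ℝ) 1,
      d0 (‖z‖ ^ 2) ≤ d0 (‖z‖ ^ 2) / (2 * k + 1) * V2 j k (‖z‖ ^ 2) s := by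
    intro s hs
    have h1 := (hPW (‖z‖ ^ 2) s ht0 hz hs.1 hs.2).1
    have h2 : (2 * k + 1 : ℝ) ≤ V2 j k (‖z‖ ^ 2) s := by
      unfold V2
      have h3 : (2 * k + 1 : ℝ) ≤ (2 * k + 1) / s ^ 2 := by
        rw [le_div_iff₀ (pow_pos hs.1 2)]
        exact mul_le_of_le_one_right hk1.le (pow_le_one₀ hs.1.le hs.2.le)
      have h4 : (j + 1 : ℝ) * Ycss (‖z‖ ^ 2) s ≤ 0 :=
        mul_nonpos_of_nonneg_of_nonpos (by positivity) h1.le
      linarith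
    rw [div_mul_eq_mul_div, le_div_iff₀ hk1]
    exact mul_le_mul_of_nonneg_left h2 hd.le
  have hmain := (hFib j k Ft hFts hFtm z hz r (d0 (‖z‖ ^ 2) / (2 * k + 1))
    (fun s hs => ⟨hr s hs, hV2 s hs⟩)).2
  have hcN := vk_cc_nice (j := j) (k := k) hC hF hz
  have hc0 := hcN.sub_const hC ht0 hz a
  have hctN := vk_cc_nice (j := j) (k := k) hC hFts hz
  set at' := aa j k Ft z with hat
  have hct0 := hctN.sub_const hC ht0 hz at'
  have hG1 := vk_GG_nice (j := j) (k := k) hC hF hz 1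
  have hG2 := vk_GG_nice (j := j) (k := k) hC hF hz 2
  have hG1t := vk_GG_nice (j := j) (k := k) hC hFts hz 1
  have hG2t := vk_GG_nice (j := j) (k := k) hC hFts hz 2
  have hEC : EC j k (‖z‖ ^ 2) (fun v s => cc j k F z v s - a) = 0 := by
    rw [vk_EC_sub hC ht0 hz hcN, ha]
    unfold aa
    exact sub_self _
  have hh0 := vkh_nonneg p q
  have hh1 := vkh_le p q
  have hsq : Continuous (fun s : ℝ => s ^ 2) := continuous_pow 2
  have hhc : Continuous (vkh p q) := (vkh_smooth p q).continuous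
  have hχc : Continuous (fun s : ℝ => 1 - vkh p q (s ^ 2)) :=
    continuous_const.sub (hhc.comp hsq)
  set V := EE j k (‖z‖ ^ 2) (fun v s => ‖cc j k F z v s - a‖ ^ 2) with hV
  -- step A
  have hA : V ≤ EE j k (‖z‖ ^ 2) (fun v s => ‖(cc j k F z v s - a) - at'‖ ^ 2) :=
    vk_var_min hC ht0 hz hc0 hEC at'
  -- step B
  have hX1 : N1 j k (‖z‖ ^ 2) (fun v s => (1 - vkh p q (s ^ 2)) * ‖cc j k F z v s - a‖ ^ 2) := by
    refine hc0.sq.of_le ((vk_snd hχc.continuousOn).mul hc0.sq.1) 1 zero_le_one ?_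
    intro v hv s hs
    rw [abs_mul, one_mul]
    refine mul_le_of_le_one_left (abs_nonneg _) ?_
    rw [abs_of_nonneg (by linarith [vkh_le p q (s ^ 2)])]
    linarith [vkh_nonneg p q (s ^ 2)]
  have hX2 := vk_EE_mul hC ht0 hz (2 : ℝ) hX1
  have hT2 := vk_EE_mul hC ht0 hz (2 : ℝ) hct0.sq
  have hTX := vk_EE_add hC ht0 hz hT2.1 hX2.1
  have hB2 : EE j k (‖z‖ ^ 2) (fun v s => ‖(cc j k F z v s - a) - at'‖ ^ 2) ≤
      2 * EE j k (‖z‖ ^ 2) (fun v s => ‖cc j k Ft z v s - at'‖ ^ 2) +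
      2 * EE j k (‖z‖ ^ 2) (fun v s => (1 - vkh p q (s ^ 2)) * ‖cc j k F z v s - a‖ ^ 2) := by
    rw [← hT2.2, ← hX2.2, ← hTX.2]
    refine vk_EE_mono hC ht0 hz (hc0.sub_const hC ht0 hz at').sq hTX.1 fun v hv s hs => ?_
    rw [(hfib v hv s hs).1]
    set c := cc j k F z v s - a with hc
    set h := vkh p q (s ^ 2) with hh
    have e1 : c - at' = ((h : ℂ) * c - at') + ((1 - h : ℝ) : ℂ) * c := by
      push_cast
      ring
    have h1 : ‖c - at'‖ ^ 2 ≤ 2 * ‖(h : ℂ) * c - at'‖ ^ 2 + 2 * ‖((1 - h : ℝ) : ℂ) * c‖ ^ 2 := by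
      rw [e1]
      have h4 : ‖((h : ℂ) * c - at') + ((1 - h : ℝ) : ℂ) * c‖ ^ 2 ≤
          (‖(h : ℂ) * c - at'‖ + ‖((1 - h : ℝ) : ℂ) * c‖) ^ 2 :=
        pow_le_pow_left₀ (norm_nonneg _) (norm_add_le _ _) 2
      nlinarith [sq_nonneg (‖(h : ℂ) * c - at'‖ - ‖((1 - h : ℝ) : ℂ) * c‖)]
    have h2 : ‖((1 - h : ℝ) : ℂ) * c‖ ^ 2 ≤ (1 - h) * ‖c‖ ^ 2 := by
      rw [norm_mul, Complex.norm_real, Real.norm_eq_abs, mul_pow, sq_abs]
      refine mul_le_mul_of_nonneg_right ?_ (by positivity)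
      have := hh0 (s ^ 2)
      have := hh1 (s ^ 2)
      nlinarith
    linarith
  -- step C
  have hRc := vk_cR hC ht0 hz
  have hRG : N1 j k (‖z‖ ^ 2) (fun v s => R2 (‖z‖ ^ 2) s * ‖GG j k Ft 1 z v s‖ ^ 2) := by
    refine hG1t.sq.of_le ((vk_snd hRc).mul hG1t.sq.1) 1 zero_le_one ?_
    intro v hv s hs
    obtain ⟨-, -, -, -, hl, -, -, -, -, -, -, -, -, -, -, -, -, hR1, hR0⟩ :=
      hC (‖z‖ ^ 2) s (by linarith) hz hs.1.le hs.2
    rw [abs_mul, one_mul]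
    refine mul_le_of_le_one_left (abs_nonneg _) ?_
    rw [abs_of_pos hR0]
    refine (hR1 ht0).trans ?_
    rw [div_le_one (by linarith)]
    linarith
  have hC1 : EE j k (‖z‖ ^ 2) (fun v s => R2 (‖z‖ ^ 2) s * ‖GG j k Ft 1 z v s‖ ^ 2) ≤
      e1 * E0 j k F 1 z := by
    have h1 := vk_EE_mul hC ht0 hz e1 hG1.sq
    unfold E0
    rw [← h1.2]
    refine vk_EE_mono hC ht0 hz hRG h1.1 fun v hv s hs => ?_
    rw [(hfib v hv s hs).2.1, norm_mul, Complex.norm_real, Real.norm_eq_abs, mul_pow, sq_abs]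
    have h3 : 0 ≤ ‖GG j k F 1 z v s‖ ^ 2 := by positivity
    have h4 := hh0 (s ^ 2)
    have h5 := hh1 (s ^ 2)
    rcases lt_or_ge p (s ^ 2) with h | h
    · have h6 := hR s hs h
      have h7 : vkh p q (s ^ 2) ^ 2 ≤ 1 := pow_le_one₀ h4 h5
      have hR0 := (hC (‖z‖ ^ 2) s (by linarith) hz hs.1.le
        hs.2).2.2.2.2.2.2.2.2.2.2.2.2.2.2.2.2.2.2
      refine mul_le_mul h6 ?_ (by positivity) he1
      exact mul_le_of_le_one_left h3 h7
    · rw [vkh_zero hpq h]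
      have : 0 ≤ e1 * ‖GG j k F 1 z v s‖ ^ 2 := mul_nonneg he1 h3
      simpa using this
  have hC2 : E0 j k Ft 1 z ≤ E0 j k F 1 z := by
    unfold E0
    refine vk_EE_mono hC ht0 hz hG1t.sq hG1.sq fun v hv s hs => ?_
    rw [(hfib v hv s hs).2.1, norm_mul, Complex.norm_real, Real.norm_eq_abs, mul_pow, sq_abs]
    exact mul_le_of_le_one_left (by positivity) (pow_le_one₀ (hh0 _) (hh1 _))
  have hC3 : E0 j k Ft 2 z ≤ 2 * E0 j k F 2 z + 2 * M ^ 2 / d0 (‖z‖ ^ 2) * V := by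
    have h1 := vk_EE_mul hC ht0 hz (2 : ℝ) hG2.sq
    have h2 := vk_EE_mul hC ht0 hz (2 * M ^ 2 / d0 (‖z‖ ^ 2)) hc0.sq
    have h3 := vk_EE_add hC ht0 hz h1.1 h2.1
    unfold E0
    rw [hV, ← h1.2, ← h2.2, ← h3.2]
    refine vk_EE_mono hC ht0 hz hG2t.sq h3.1 fun v hv s hs => ?_
    rw [(hfib v hv s hs).2.2]
    set X := ((vkh p q (s ^ 2) : ℝ) : ℂ) * GG j k F 2 z v s with hX
    set Y := ((deriv (vkh p q) (s ^ 2) / d0 (‖z‖ ^ 2) * (Real.sqrt (d0 (‖z‖ ^ 2)) * s) : ℝ) : ℂ) *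
        (cc j k F z v s - a) with hY
    have h4 : ‖X + Y‖ ^ 2 ≤ 2 * ‖X‖ ^ 2 + 2 * ‖Y‖ ^ 2 := by
      have h4 : ‖X + Y‖ ^ 2 ≤ (‖X‖ + ‖Y‖) ^ 2 :=
        pow_le_pow_left₀ (norm_nonneg _) (norm_add_le _ _) 2
      nlinarith [sq_nonneg (‖X‖ - ‖Y‖)]
    have h5 : ‖X‖ ^ 2 ≤ ‖GG j k F 2 z v s‖ ^ 2 := by
      rw [hX, norm_mul, Complex.norm_real, Real.norm_eq_abs, mul_pow, sq_abs]
      exact mul_le_of_le_one_left (by positivity) (pow_le_one₀ (hh0 _) (hh1 _))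
    have h6 : ‖Y‖ ^ 2 ≤ M ^ 2 / d0 (‖z‖ ^ 2) * ‖cc j k F z v s - a‖ ^ 2 := by
      rw [hY, norm_mul, Complex.norm_real, Real.norm_eq_abs, mul_pow, sq_abs]
      refine mul_le_mul_of_nonneg_right ?_ (by positivity)
      have h7 := hM (s ^ 2) ⟨by positivity, pow_le_one₀ hs.1.le hs.2.le⟩
      have h8 : deriv (vkh p q) (s ^ 2) ^ 2 ≤ M ^ 2 := by
        rw [← sq_abs]
        exact pow_le_pow_left₀ (abs_nonneg _) h7 2
      have h9 : (deriv (vkh p q) (s ^ 2) / d0 (‖z‖ ^ 2) * (Real.sqrt (d0 (‖z‖ ^ 2)) * s)) ^ 2 =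
          deriv (vkh p q) (s ^ 2) ^ 2 * s ^ 2 / d0 (‖z‖ ^ 2) := by
        rw [mul_pow, mul_pow, Real.sq_sqrt hd.le]
        field_simp
      rw [h9]
      refine div_le_div_of_nonneg_right ?_ hd.le
      have h10 : s ^ 2 ≤ 1 := pow_le_one₀ hs.1.le hs.2.le
      calc deriv (vkh p q) (s ^ 2) ^ 2 * s ^ 2 ≤ M ^ 2 * 1 :=
            mul_le_mul h8 h10 (by positivity) (by positivity)
        _ = M ^ 2 := mul_one _
    calc ‖X + Y‖ ^ 2 ≤ 2 * ‖X‖ ^ 2 + 2 * ‖Y‖ ^ 2 := h4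
      _ ≤ 2 * ‖GG j k F 2 z v s‖ ^ 2 + 2 * (M ^ 2 / d0 (‖z‖ ^ 2) *
          ‖cc j k F z v s - a‖ ^ 2) := by linarith
      _ = _ := by ring
  have hconc := vk_conc (j := j) (k := k) hC hz hF hm p q M B hpq hq hp hM hB0 hB a
  rw [← hV] at hconc
  set X := EE j k (‖z‖ ^ 2) (fun v s => (1 - vkh p q (s ^ 2)) * ‖cc j k F z v s - a‖ ^ 2) with hXd
  set T := EE j k (‖z‖ ^ 2) (fun v s => ‖cc j k Ft z v s - at'‖ ^ 2) with hTd
  have hE1 : 0 ≤ E0 j k F 1 z := by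
    have h0 := vk_EE_mul hC ht0 hz (0 : ℝ) hG1.sq
    have h1 : EE j k (‖z‖ ^ 2) (fun v s => 0 * ‖GG j k F 1 z v s‖ ^ 2) ≤ E0 j k F 1 z := by
      unfold E0
      refine vk_EE_mono hC ht0 hz h0.1 hG1.sq fun v hv s hs => ?_
      simp only [zero_mul]
      positivity
    rw [h0.2, zero_mul] at h1
    exact h1
  have hE2 : 0 ≤ E0 j k F 2 z := by
    have h0 := vk_EE_mul hC ht0 hz (0 : ℝ) hG2.sq
    have h1 : EE j k (‖z‖ ^ 2) (fun v s => 0 * ‖GG j k F 2 z v s‖ ^ 2) ≤ E0 j k F 2 z := by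
      unfold E0
      refine vk_EE_mono hC ht0 hz h0.1 hG2.sq fun v hv s hs => ?_
      simp only [zero_mul]
      positivity
    rw [h0.2, zero_mul] at h1
    exact h1
  -- final algebra
  have hT : T ≤ (4 * e1 + 8 * r) * E0 j k F 1 z + 16 / (2 * k + 1) * E0 j k F 2 z +
      16 * M ^ 2 / (2 * k + 1) * V := by
    have h1 : 4 / (2 * (j:ℝ) + 1) ≤ 4 := by
      rw [div_le_iff₀ (by positivity)]
      have : (0:ℝ) ≤ j := by positivity
      linarith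
    have h2 : 4 / (2 * (j:ℝ) + 1) *
        EE j k (‖z‖ ^ 2) (fun v s => R2 (‖z‖ ^ 2) s * ‖GG j k Ft 1 z v s‖ ^ 2) ≤
        4 * (e1 * E0 j k F 1 z) := by
      have h3 : 0 ≤ e1 * E0 j k F 1 z := mul_nonneg he1 hE1
      calc _ ≤ 4 / (2 * (j:ℝ) + 1) * (e1 * E0 j k F 1 z) :=
            mul_le_mul_of_nonneg_left hC1 (by positivity)
        _ ≤ _ := mul_le_mul_of_nonneg_right h1 h3
    have h3 : 8 * r * E0 j k Ft 1 z ≤ 8 * r * E0 j k F 1 z :=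
      mul_le_mul_of_nonneg_left hC2 (by positivity)
    have h4 : 8 * (d0 (‖z‖ ^ 2) / (2 * k + 1)) * E0 j k Ft 2 z ≤
        16 / (2 * k + 1) * E0 j k F 2 z + 16 * M ^ 2 / (2 * k + 1) * V := by
      calc 8 * (d0 (‖z‖ ^ 2) / (2 * k + 1)) * E0 j k Ft 2 z ≤
          8 * (d0 (‖z‖ ^ 2) / (2 * k + 1)) *
            (2 * E0 j k F 2 z + 2 * M ^ 2 / d0 (‖z‖ ^ 2) * V) :=
            mul_le_mul_of_nonneg_left hC3 (by positivity)
        _ = 16 * d0 (‖z‖ ^ 2) / (2 * k + 1) * E0 j k F 2 z + 16 * M ^ 2 / (2 * k + 1) * V := by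
            field_simp
            ring
        _ ≤ _ := by
            have h5 : 16 * d0 (‖z‖ ^ 2) / (2 * k + 1) ≤ 16 / (2 * k + 1) :=
              div_le_div_of_nonneg_right (by linarith) hk1.le
            have := mul_le_mul_of_nonneg_right h5 hE2
            linarith
    linarith
  have hX : 2 * X ≤ 1 / (k + 1) * ((2 * M + 1 + (j + 1) * B) * V +
      2 * B ^ 2 * E0 j k F 1 z + 8 * E0 j k F 2 z) := by
    have hk2 : (0:ℝ) < k + 1 := by positivity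
    rw [div_mul_eq_mul_div, one_mul, le_div_iff₀ hk2]
    linarith
  have e5 : (8 * e1 + 16 * r) * E0 j k F 1 z + 32 / (2 * k + 1) * E0 j k F 2 z +
      32 * M ^ 2 / (2 * k + 1) * V = 2 * ((4 * e1 + 8 * r) * E0 j k F 1 z +
      16 / (2 * k + 1) * E0 j k F 2 z + 16 * M ^ 2 / (2 * k + 1) * V) := by
    ring
  rw [e5]
  linarith

end core2


theorem vk_E0_nonneg (hC : CAc_stmt) (j k : ℕ) {z : ℂ} (hz : z ∈ BD) {F : E3 → ℂ}
    (hF : ContDiff ℝ ∞ F) (i : Fin 3) : 0 ≤ E0 j k F i z := by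
  have ht0 : (0 : ℝ) ≤ ‖z‖ ^ 2 := by positivity
  have hG := vk_GG_nice (j := j) (k := k) hC hF hz i
  have h0 := vk_EE_mul hC ht0 hz (0 : ℝ) hG.sq
  have h1 : EE j k (‖z‖ ^ 2) (fun v s => 0 * ‖GG j k F i z v s‖ ^ 2) ≤ E0 j k F i z := by
    unfold E0
    refine vk_EE_mono hC ht0 hz h0.1 hG.sq fun v hv s hs => ?_
    simp only [zero_mul]
    positivity
  rw [h0.2, zero_mul] at h1
  exact h1

theorem vk_V_nonneg (hC : CAc_stmt) (j k : ℕ) {z : ℂ} (hz : z ∈ BD) {F : E3 → ℂ}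
    (hF : ContDiff ℝ ∞ F) (a : ℂ) :
    0 ≤ EE j k (‖z‖ ^ 2) (fun v s => ‖cc j k F z v s - a‖ ^ 2) := by
  have ht0 : (0 : ℝ) ≤ ‖z‖ ^ 2 := by positivity
  have hG := (vk_cc_nice (j := j) (k := k) hC hF hz).sub_const hC ht0 hz a
  have h0 := vk_EE_mul hC ht0 hz (0 : ℝ) hG.sq
  have h1 : EE j k (‖z‖ ^ 2) (fun v s => 0 * ‖cc j k F z v s - a‖ ^ 2) ≤
      EE j k (‖z‖ ^ 2) (fun v s => ‖cc j k F z v s - a‖ ^ 2) := by
    refine vk_EE_mono hC ht0 hz h0.1 hG.sq fun v hv s hs => ?_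
    simp only [zero_mul]
    positivity
  rw [h0.2, zero_mul] at h1
  exact h1

theorem vk_T0 : T0 ≤ 2 := by
  unfold T0 tB
  norm_num

theorem vk_R_small (hC : CAc_stmt) {t : ℝ} (ht0 : 0 ≤ t) (ht : t < T0) (e1 : ℝ) (he1 : 0 < e1)
    {s : ℝ} (hs0 : 0 < s) (hs1 : s < 1) (hs : 1 - Real.exp (-(1 / e1)) < s ^ 2) :
    R2 t s ≤ e1 := by
  obtain ⟨hLa, -, -, hl0, hl, -, -, -, -, -, -, -, -, -, -, -, -, hR1, -⟩ :=
    hC t s (by linarith) ht hs0.le hs1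
  refine (hR1 ht0).trans ?_
  have h1 : 0 < 1 - s ^ 2 := by nlinarith
  have h2 : 1 / e1 ≤ tau s := by
    unfold tau
    have h3 : Real.log (1 - s ^ 2) ≤ Real.log (Real.exp (-(1 / e1))) :=
      Real.log_le_log h1 (by linarith)
    rw [Real.log_exp] at h3
    linarith
  rw [div_le_iff₀ (by linarith)]
  have h4 : 1 / e1 ≤ l0 t s := by linarith
  calc (1:ℝ) = e1 * (1 / e1) := by field_simp
    _ ≤ e1 * l0 t s := mul_le_mul_of_nonneg_left h4 he1.le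

theorem vk_Ycs_bd (hC : CAc_stmt) {t : ℝ} (ht0 : 0 ≤ t) (ht : t < T0) (q : ℝ) (hq : q < 1)
    {s : ℝ} (hs0 : 0 < s) (hs1 : s < 1) (hs : s ^ 2 < q) :
    |Ycs t s| ≤ 6 / (1 - q) := by
  obtain ⟨hLa, -, -, hl0, hl, -, -, -, -, -, -, -, -, -, -, -, -, hR1, -⟩ :=
    hC t s (by linarith) ht hs0.le hs1
  have h1 : 0 < 1 - s ^ 2 := by nlinarith
  have hT := vk_T0
  unfold Ycs tau1
  have h2 : -(1 + t) * (2 * s / (1 - s ^ 2)) / l0 t s =
      -((1 + t) * (2 * s) / ((1 - s ^ 2) * l0 t s)) := by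
    field_simp
  rw [h2, abs_neg, abs_of_nonneg (by positivity), div_le_div_iff₀ (by positivity) (by linarith)]
  have h3 : (1 + t) * (2 * s) ≤ 6 := by nlinarith
  have h4 : 1 - q ≤ (1 - s ^ 2) * l0 t s := by nlinarith
  exact mul_le_mul h3 h4 (by linarith) (by norm_num)

theorem vark (hC : CAc_stmt) (hPW : PWc_stmt) (hBL : BL_stmt) (hF : Fibc_stmt) (hE : DECc_stmt) :
    VARK_stmt := by
  intro ε hε
  obtain ⟨C, r, r2, hC0, hrr, hCoef, hdec, -⟩ := hE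
  obtain ⟨n1, hn1⟩ := exists_nat_ge (1 / ε)
  obtain ⟨nA, hnA⟩ := hdec (ε / 16) (by positivity)
  set e1 : ℝ := ε / 64 with he1
  have he1p : 0 < e1 := by positivity
  set p : ℝ := 1 - Real.exp (-(1 / e1)) with hp
  have hp1 : p < 1 := by
    have := Real.exp_pos (-(1 / e1))
    linarith
  have hp0 : 0 ≤ p := by
    have : Real.exp (-(1 / e1)) ≤ 1 := by
      rw [Real.exp_le_one_iff]
      have : 0 < 1 / e1 := by positivity
      linarith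
    linarith
  set q : ℝ := (1 + p) / 2 with hq
  have hpq : p < q := by linarith
  have hq1 : q < 1 := by linarith
  obtain ⟨M, hM⟩ := (isCompact_Icc (a := (0:ℝ)) (b := 1)).exists_bound_of_continuousOn
    (vkh_cd p q).continuousOn
  have hM' : ∀ u ∈ Set.Icc (0 : ℝ) 1, |deriv (vkh p q) u| ≤ M := fun u hu => hM u hu
  have hM0 : 0 ≤ M := (abs_nonneg _).trans (hM' 0 ⟨le_rfl, zero_le_one⟩)
  set B : ℝ := 6 / (1 - q) with hB
  have hB0 : 0 ≤ B := div_nonneg (by norm_num) (by linarith)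
  obtain ⟨nB, hnB⟩ := exists_nat_ge (64 * M ^ 2 + 4 * (2 * M + 1 + (n1 + 1) * B) +
    8 * B ^ 2 / ε + 64 / ε)
  refine ⟨max nA nB, fun j k hk F hFs hm z hz => ?_⟩
  have hkA : nA ≤ k := (le_max_left _ _).trans hk
  have hkB : nB ≤ k := (le_max_right _ _).trans hk
  have ht0 : (0 : ℝ) ≤ ‖z‖ ^ 2 := by positivity
  have hz' : ‖z‖ ^ 2 < T0 := hz
  obtain ⟨hr0, hr20, hrs⟩ := hrr j k (‖z‖ ^ 2) ht0 hz'
  have hco := hnA j k (‖z‖ ^ 2) (Or.inr hkA) ht0 hz'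
  have hb1 := hco.b1
  have hb2 := hco.b2
  have hE1 := vk_E0_nonneg hC j k hz hFs 1
  have hE2 := vk_E0_nonneg hC j k hz hFs 2
  have hV0 := vk_V_nonneg hC j k hz hFs (aa j k F z)
  rcases Nat.lt_or_ge j n1 with hj | hj
  · -- small `j`
    have h1 := vk_core (j := j) (k := k) hC hPW hF hz hFs hm p q M B e1 (r j k (‖z‖ ^ 2)) hpq hq1
      hp0 hM' hB0 (fun s hs h => vk_Ycs_bd hC ht0 hz' q hq1 hs.1 hs.2 h) he1p.le
      (fun s hs h => vk_R_small hC ht0 hz' e1 he1p hs.1 hs.2 h) hr0 (fun s hs => (hrs s hs).1)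
    set V := EE j k (‖z‖ ^ 2) (fun v s => ‖cc j k F z v s - aa j k F z‖ ^ 2) with hV
    set E1 := E0 j k F 1 z
    set E2 := E0 j k F 2 z
    have hkr : (nB : ℝ) ≤ k := by exact_mod_cast hkB
    have hjr : (j : ℝ) ≤ n1 := by exact_mod_cast hj.le
    have p1 : 0 ≤ 64 * M ^ 2 := by positivity
    have p2 : 0 ≤ 4 * (2 * M + 1 + (n1 + 1) * B) := by positivity
    have p3 : 0 ≤ 8 * B ^ 2 / ε := by positivity
    have p4 : 0 < 64 / ε := by positivity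
    have k1 : 64 * M ^ 2 ≤ k := by linarith
    have k2 : 4 * (2 * M + 1 + (n1 + 1) * B) ≤ k := by linarith
    have k3 : 8 * B ^ 2 / ε ≤ k := by linarith
    have k4 : 64 / ε ≤ k := by linarith
    have hk0 : (0:ℝ) ≤ k := by positivity
    have c1 : 32 * M ^ 2 / (2 * k + 1) ≤ 1 / 4 := by
      rw [div_le_div_iff₀ (by positivity) (by norm_num)]
      linarith
    have c2 : 1 / ((k:ℝ) + 1) * (2 * M + 1 + (j + 1) * B) ≤ 1 / 4 := by
      rw [div_mul_eq_mul_div, one_mul, div_le_div_iff₀ (by positivity) (by norm_num)]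
      have : ((j:ℝ) + 1) * B ≤ (n1 + 1) * B := mul_le_mul_of_nonneg_right (by linarith) hB0
      linarith
    have c3 : 1 / ((k:ℝ) + 1) * (2 * B ^ 2) ≤ ε / 4 := by
      rw [div_le_iff₀ hε] at k3
      rw [div_mul_eq_mul_div, one_mul, div_le_div_iff₀ (by positivity) (by norm_num)]
      nlinarith
    have c4 : 32 / (2 * (k:ℝ) + 1) ≤ ε / 4 := by
      rw [div_le_iff₀ hε] at k4
      rw [div_le_div_iff₀ (by positivity) (by norm_num)]
      nlinarith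
    have c5 : 1 / ((k:ℝ) + 1) * 8 ≤ ε / 4 := by
      rw [div_le_iff₀ hε] at k4
      rw [div_mul_eq_mul_div, one_mul, div_le_div_iff₀ (by positivity) (by norm_num)]
      nlinarith
    have c6 : 8 * e1 + 16 * r j k (‖z‖ ^ 2) ≤ ε / 4 := by
      rw [he1]
      linarith
    have d1 := mul_le_mul_of_nonneg_right c6 hE1
    have d2 := mul_le_mul_of_nonneg_right c4 hE2
    have d3 := mul_le_mul_of_nonneg_right c1 hV0
    have d4 := mul_le_mul_of_nonneg_right c2 hV0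
    have d5 := mul_le_mul_of_nonneg_right c3 hE1
    have d6 := mul_le_mul_of_nonneg_right c5 hE2
    have e7 : 1 / ((k:ℝ) + 1) * ((2 * M + 1 + (j + 1) * B) * V + 2 * B ^ 2 * E1 + 8 * E2) =
        1 / ((k:ℝ) + 1) * (2 * M + 1 + (j + 1) * B) * V + 1 / ((k:ℝ) + 1) * (2 * B ^ 2) * E1 +
          1 / ((k:ℝ) + 1) * 8 * E2 := by ring
    rw [e7] at h1
    linarith
  · -- large `j`
    have h1 := (hF j k F hFs hm z hz (r j k (‖z‖ ^ 2)) (r2 j k (‖z‖ ^ 2)) hrs).2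
    refine h1.trans ?_
    have hjr : (n1 : ℝ) ≤ j := by exact_mod_cast hj
    have h2 : 1 / ε ≤ j := hn1.trans hjr
    have hG1 := vk_GG_nice (j := j) (k := k) hC hFs hz 1
    have hRG : N1 j k (‖z‖ ^ 2) (fun v s => R2 (‖z‖ ^ 2) s * ‖GG j k F 1 z v s‖ ^ 2) := by
      refine hG1.sq.of_le ((vk_snd (vk_cR hC ht0 hz')).mul hG1.sq.1) 1 zero_le_one ?_
      intro v hv s hs
      obtain ⟨-, -, -, -, hl, -, -, -, -, -, -, -, -, -, -, -, -, hR1, hR0⟩ :=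
        hC (‖z‖ ^ 2) s (by linarith) hz hs.1.le hs.2
      rw [abs_mul, one_mul]
      refine mul_le_of_le_one_left (abs_nonneg _) ?_
      rw [abs_of_pos hR0]
      refine (hR1 ht0).trans ?_
      rw [div_le_one (by linarith)]
      linarith
    have h3 : EE j k (‖z‖ ^ 2) (fun v s => R2 (‖z‖ ^ 2) s * ‖GG j k F 1 z v s‖ ^ 2) ≤
        1 / 100 * E0 j k F 1 z := by
      have h4 := vk_EE_mul hC ht0 hz' (1 / 100 : ℝ) hG1.sq
      unfold E0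
      rw [← h4.2]
      refine vk_EE_mono hC ht0 hz' hRG h4.1 fun v hv s hs => ?_
      obtain ⟨-, -, -, -, hl, -, -, -, -, -, -, -, -, -, -, -, -, hR1, hR0⟩ :=
        hC (‖z‖ ^ 2) s (by linarith) hz hs.1.le hs.2
      refine mul_le_mul_of_nonneg_right ((hR1 ht0).trans ?_) (by positivity)
      exact one_div_le_one_div_of_le (by norm_num) hl
    have h5 : 4 / (2 * (j:ℝ) + 1) * (1 / 100) ≤ ε / 2 := by
      rw [div_le_iff₀ hε] at h2
      rw [div_mul_eq_mul_div, div_le_div_iff₀ (by positivity) (by norm_num)]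
      nlinarith
    have h6 : 4 / (2 * (j:ℝ) + 1) *
        EE j k (‖z‖ ^ 2) (fun v s => R2 (‖z‖ ^ 2) s * ‖GG j k F 1 z v s‖ ^ 2) ≤
        ε / 2 * E0 j k F 1 z := by
      calc _ ≤ 4 / (2 * (j:ℝ) + 1) * (1 / 100 * E0 j k F 1 z) :=
            mul_le_mul_of_nonneg_left h3 (by positivity)
        _ = 4 / (2 * (j:ℝ) + 1) * (1 / 100) * E0 j k F 1 z := by ring
        _ ≤ _ := mul_le_mul_of_nonneg_right h5 hE1
    have d1 := mul_le_mul_of_nonneg_right hb1 hE1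
    have d2 := mul_le_mul_of_nonneg_right hb2 hE2
    have d3 : 0 ≤ ε * E0 j k F 1 z := by positivity
    have d4 : 0 ≤ ε * E0 j k F 2 z := by positivity
    linarith

end DbarC.JVK
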