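import Pool.Agent.H314.DC.St3

set_option autoImplicit false

open MeasureTheory Complex Filter Topology
open scoped ContDiff InnerProductSpace ENNReal ComplexConjugate

namespace DbarC.JVYj
open DbarN

namespace VYc

theorem vc_int {f : ℝ → ℝ} {C : ℝ} (hf : ContinuousOn f (Set.Ioo 0 1))
    (hb : ∀ s ∈ Set.Ioo (0:ℝ) 1, |f s| ≤ C) : IntegrableOn f (Set.Ioo 0 1) := by
  apply Integrable.of_bound (C := C)
  · exact hf.aestronglyMeasurable measurableSet_Ioo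
  · rw [ae_restrict_iff' measurableSet_Ioo]
    exact ae_of_all _ (fun s hs => hb s hs)

theorem vc_cont (hC : CAc_stmt) {t : ℝ} (h0 : 0 ≤ t) (ht : t < T0) :
    ContinuousOn (fun s => Yct t s) (Set.Ioo 0 1) ∧
    ContinuousOn (fun s => Ycts t s) (Set.Ioo 0 1) ∧
    ContinuousOn (fun s => Ycss t s) (Set.Ioo 0 1) ∧
    ContinuousOn (fun s => Yc t s) (Set.Ioo 0 1) := by
  have h0' : -1 < t := by linarith
  have c_el : ContinuousOn (fun s => l0 t s) (Set.Ioo 0 1) := fun s hs =>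
    (hC t s h0' ht hs.1.le hs.2).2.2.2.2.2.2.2.2.2.2.2.1.continuousAt.continuousWithinAt
  have n_el : ∀ s ∈ Set.Ioo (0:ℝ) 1, l0 t s ≠ 0 := fun s hs => by
    have := (hC t s h0' ht hs.1.le hs.2).2.2.2.2.1
    intro h0; rw [h0] at this; norm_num at this
  have hne : ∀ s ∈ Set.Ioo (0:ℝ) 1, 1 - s ^ 2 ≠ 0 := by
    intro s hs
    have h1 := hs.1
    have h2 := hs.2
    nlinarith
  have c_t1 : ContinuousOn tau1 (Set.Ioo 0 1) := by
    unfold tau1
    apply ContinuousOn.div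
    · fun_prop
    · fun_prop
    · intro s hs
      exact hne s hs
  have c_t2 : ContinuousOn tau2 (Set.Ioo 0 1) := by
    unfold tau2
    apply ContinuousOn.div
    · fun_prop
    · fun_prop
    · intro s hs
      exact pow_ne_zero 2 (hne s hs)
  refine ⟨fun s hs => ?_, ?_, ?_, fun s hs => ?_⟩
  · exact (hC t s h0' ht hs.1.le hs.2).2.2.2.2.2.2.2.2.2.2.2.2.2.2.2.1.continuousAt.continuousWithinAt
  · unfold Ycts
    apply ContinuousOn.add
    · exact c_t1.neg.div c_el n_el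
    · exact (continuousOn_const.mul c_t1).div (c_el.pow 2) (fun s hs => pow_ne_zero 2 (n_el s hs))
  · unfold Ycss
    apply continuousOn_const.mul
    apply ContinuousOn.sub
    · exact c_t2.div c_el n_el
    · exact (c_t1.pow 2).div (c_el.pow 2) (fun s hs => pow_ne_zero 2 (n_el s hs))
  · exact (hC t s h0' ht hs.1.le hs.2).2.2.2.2.2.2.2.2.2.2.2.2.2.2.1.continuousAt.continuousWithinAt

theorem vc_dcont (hC : CAc_stmt) {t : ℝ} (h0 : 0 ≤ t) (ht : t < T0) (j k : ℕ) :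
    ContinuousOn (fun s => den j k t s) (Set.Ioo 0 1) := by
  unfold den
  exact (continuousOn_id.pow _).mul ((continuousOn_const.mul (vc_cont hC h0 ht).2.2.2).rexp)

/-- elementary: `den ≤ exp (-log l0)`, and bounds for `|Y| den`, `Y² den` -/
theorem vc_bounds (hC : CAc_stmt) {t : ℝ} (h0 : 0 ≤ t) (ht : t < T0) (j k : ℕ) {s : ℝ}
    (hs : s ∈ Set.Ioo (0:ℝ) 1) : 0 < den j k t s ∧ den j k t s ≤ 1 ∧
      |Yct t s| * den j k t s ≤ 1 + (1 + t) * La1 t ∧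
      Yct t s ^ 2 * den j k t s ≤ 4 + 2 * ((1 + t) * La1 t) ^ 2 := by
  have h0' : -1 < t := by linarith
  have H := hC t s h0' ht hs.1.le hs.2
  have hl : 100 ≤ l0 t s := H.2.2.2.2.1
  have hL1 : 0 ≤ La1 t := H.2.1
  obtain ⟨h3, h4⟩ := hs
  set x : ℝ := Real.log (l0 t s) with hx
  have hx0 : 0 ≤ x := Real.log_nonneg (by linarith)
  set M : ℝ := (1 + t) * La1 t with hM
  have hM0 : 0 ≤ M := mul_nonneg (by linarith) hL1
  have hden : den j k t s ≤ Real.exp (-x) := by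
    unfold den Yc
    have a1 : s ^ (2 * k + 1) ≤ 1 := pow_le_one₀ h3.le h4.le
    have a2 : Real.exp (((j:ℝ) + 1) * (-(1 + t) * Real.log (l0 t s))) ≤ Real.exp (-x) := by
      apply Real.exp_le_exp.mpr
      rw [← hx]
      have hj : (0:ℝ) ≤ j := Nat.cast_nonneg j
      have h5 : (1:ℝ) ≤ ((j:ℝ) + 1) * (1 + t) := by nlinarith
      have h6 : x ≤ ((j:ℝ) + 1) * (1 + t) * x := by nlinarith
      nlinarith
    calc s ^ (2 * k + 1) * Real.exp (((j:ℝ) + 1) * (-(1 + t) * Real.log (l0 t s)))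
        ≤ 1 * Real.exp (-x) := mul_le_mul a1 a2 (Real.exp_pos _).le (by norm_num)
      _ = Real.exp (-x) := one_mul _
  have hdpos : 0 < den j k t s := by
    unfold den
    exact mul_pos (pow_pos h3 _) (Real.exp_pos _)
  have hY : |Yct t s| ≤ x + M := by
    unfold Yct
    have b1 : 0 ≤ (1 + t) * La1 t / l0 t s := div_nonneg hM0 (by linarith)
    have b2 : (1 + t) * La1 t / l0 t s ≤ M := div_le_self hM0 (by linarith)
    rw [abs_le]
    constructor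
    · linarith
    · linarith
  have hexp1 : Real.exp (-x) ≤ 1 := by
    rw [Real.exp_le_one_iff]
    linarith
  have he1 : x * Real.exp (-x) ≤ 1 := by
    have h7 := Real.add_one_le_exp x
    rw [Real.exp_neg, ← div_eq_mul_inv, div_le_one (Real.exp_pos x)]
    linarith
  have he2 : x ^ 2 * Real.exp (-x) ≤ 2 := by
    have h7 := Real.quadratic_le_exp_of_nonneg hx0
    rw [Real.exp_neg, ← div_eq_mul_inv, div_le_iff₀ (Real.exp_pos x)]
    nlinarith
  have hepos : 0 < Real.exp (-x) := Real.exp_pos _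
  refine ⟨hdpos, hden.trans hexp1, ?_, ?_⟩
  · calc |Yct t s| * den j k t s ≤ (x + M) * Real.exp (-x) :=
          mul_le_mul hY hden hdpos.le (by linarith)
      _ = x * Real.exp (-x) + M * Real.exp (-x) := by ring
      _ ≤ 1 + M := by nlinarith
  · have h8 : Yct t s ^ 2 ≤ (x + M) ^ 2 := by
      rw [← sq_abs (Yct t s)]
      exact pow_le_pow_left₀ (abs_nonneg _) hY 2
    calc Yct t s ^ 2 * den j k t s ≤ (x + M) ^ 2 * Real.exp (-x) :=
          mul_le_mul h8 hden hdpos.le (by positivity)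
      _ ≤ (2 * x ^ 2 + 2 * M ^ 2) * Real.exp (-x) := by
          apply mul_le_mul_of_nonneg_right _ hepos.le
          nlinarith [sq_nonneg (x - M)]
      _ = 2 * (x ^ 2 * Real.exp (-x)) + 2 * M ^ 2 * Real.exp (-x) := by ring
      _ ≤ 4 + 2 * M ^ 2 := by
          have : 2 * M ^ 2 * Real.exp (-x) ≤ 2 * M ^ 2 := by
            have h9 : 0 ≤ 2 * M ^ 2 := by positivity
            nlinarith
          linarith

end VYc

open VYc in
theorem varYc (hC : CAc_stmt) (hBL : BL_stmt) (hPW : PWc_stmt) : VarYc_stmt := by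
  intro j k t h0 ht
  have h0' : -1 < t := by linarith
  rcases eq_or_lt_of_le h0 with ht0 | ht0
  · subst ht0
    have : Es j k 0 (fun s => 0 * (Ycts 0 s ^ 2 / (-Ycss 0 s))) = 0 := by
      unfold Es
      simp
    rw [this]
    simp
  have hL1 : 0 ≤ La1 t := (hC t (1 / 2) h0' ht (by norm_num) (by norm_num)).2.1
  have hL2 : 0 ≤ La2 t := by
    have := (hC t (1 / 2) h0' ht (by norm_num) (by norm_num)).2.2.1
    nlinarith [sq_nonneg (La1 t)]
  obtain ⟨cYt, cYts, cYss, cX⟩ := vc_cont hC h0 ht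
  have cden := vc_dcont hC h0 ht j k
  set d : ℝ → ℝ := fun s => den j k t s with hd
  set Y : ℝ → ℝ := fun s => Yct t s with hY
  set Z : ℝ → ℝ := fun s => Ycts t s with hZ
  set W : ℝ → ℝ := fun s => Ycss t s with hW
  have hb : ∀ s ∈ Set.Ioo (0:ℝ) 1, 0 < d s ∧ d s ≤ 1 ∧ |Y s| * d s ≤ 1 + (1 + t) * La1 t ∧
      Y s ^ 2 * d s ≤ 4 + 2 * ((1 + t) * La1 t) ^ 2 := fun s hs => vc_bounds hC h0 ht j k hs
  have Wneg : ∀ s ∈ Set.Ioo (0:ℝ) 1, W s < 0 := fun s hs => (hPW t s h0 ht hs.1 hs.2).1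
  have Q : ∀ s ∈ Set.Ioo (0:ℝ) 1, Z s ^ 2 / (-W s) ≤ (1 + t * La2 t) / t := by
    intro s hs
    have h1 := (hPW t s h0 ht hs.1 hs.2).2.2
    have h2 : 100 ≤ l0 t s := (hC t s h0' ht hs.1.le hs.2).2.2.2.2.1
    have h3 : 1 / l0 t s ≤ 1 := by
      rw [div_le_one (by linarith)]; linarith
    have h4 : t * La2 t / l0 t s ^ 2 ≤ t * La2 t :=
      div_le_self (by positivity) (by nlinarith)
    rw [le_div_iff₀ ht0]
    have : Z s ^ 2 / (-W s) * t = t * (Ycts t s ^ 2 / (-Ycss t s)) := mul_comm _ _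
    rw [this]
    linarith
  have Qn : ∀ s ∈ Set.Ioo (0:ℝ) 1, 0 ≤ Z s ^ 2 / (-W s) := fun s hs =>
    div_nonneg (sq_nonneg _) (by linarith [Wneg s hs])
  have hC0 : 0 ≤ (1 + t * La2 t) / t := by positivity
  -- integrability
  have id : IntegrableOn d (Set.Ioo 0 1) := vc_int (C := 1) cden (fun s hs => by
    rw [abs_of_pos (hb s hs).1]; exact (hb s hs).2.1)
  have iYd : IntegrableOn (fun s => Y s * d s) (Set.Ioo 0 1) :=
    vc_int (C := 1 + (1 + t) * La1 t) (cYt.mul cden) (fun s hs => by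
      rw [abs_mul, abs_of_pos (hb s hs).1]
      exact (hb s hs).2.2.1)
  have iY2d : IntegrableOn (fun s => Y s ^ 2 * d s) (Set.Ioo 0 1) :=
    vc_int (C := 4 + 2 * ((1 + t) * La1 t) ^ 2) ((cYt.pow 2).mul cden) (fun s hs => by
      rw [abs_mul, abs_of_pos (hb s hs).1, abs_of_nonneg (sq_nonneg _)]
      exact (hb s hs).2.2.2)
  have cQ : ContinuousOn (fun s => Z s ^ 2 / (-W s)) (Set.Ioo 0 1) :=
    (cYts.pow 2).div cYss.neg (fun s hs => by
      have := Wneg s hs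
      intro h0
      have : W s = 0 := by
        have h1 : -W s = 0 := h0
        linarith
      linarith)
  have iQd : IntegrableOn (fun s => Z s ^ 2 / (-W s) * d s) (Set.Ioo 0 1) :=
    vc_int (C := (1 + t * La2 t) / t * 1) (cQ.mul cden) (fun s hs => by
      rw [abs_mul, abs_of_pos (hb s hs).1, abs_of_nonneg (Qn s hs)]
      exact mul_le_mul (Q s hs) (hb s hs).2.1 (hb s hs).1.le hC0)
  -- the potential
  let V : ℝ → ℝ := fun s => -(((2 * k + 1 : ℕ) : ℝ) * Real.log s + ((j + 1 : ℕ) : ℝ) * Yc t s)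
  let V1 : ℝ → ℝ := fun s => -(((2 * k + 1 : ℕ) : ℝ) * s⁻¹ + ((j + 1 : ℕ) : ℝ) * Ycs t s)
  let V2 : ℝ → ℝ := fun s => -(((2 * k + 1 : ℕ) : ℝ) * (-(s ^ 2)⁻¹) + ((j + 1 : ℕ) : ℝ) * W s)
  have hV : ∀ s ∈ Set.Ioo (0:ℝ) 1, HasDerivAt V (V1 s) s := by
    intro s hs
    have h1 := (Real.hasDerivAt_log hs.1.ne').const_mul (((2 * k + 1 : ℕ) : ℝ))
    have h2 := (hC t s h0' ht hs.1.le hs.2).2.2.2.2.2.2.2.2.2.2.2.2.2.2.1.const_mul
      (((j + 1 : ℕ) : ℝ))
    exact (h1.add h2).neg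
  have hV1 : ∀ s ∈ Set.Ioo (0:ℝ) 1, HasDerivAt V1 (V2 s) s := by
    intro s hs
    have h1 := (hasDerivAt_inv hs.1.ne').const_mul (((2 * k + 1 : ℕ) : ℝ))
    have h2 := (hC t s h0' ht hs.1.le hs.2).2.2.2.2.2.2.2.2.2.2.2.2.2.2.2.2.1.const_mul
      (((j + 1 : ℕ) : ℝ))
    exact (h1.add h2).neg
  have hV2ge : ∀ s ∈ Set.Ioo (0:ℝ) 1, ((j:ℝ) + 1) * (-W s) ≤ V2 s := by
    intro s hs
    have h1 : 0 ≤ ((2 * k + 1 : ℕ) : ℝ) * (s ^ 2)⁻¹ := by positivity
    show ((j:ℝ) + 1) * (-W s) ≤ -(((2 * k + 1 : ℕ) : ℝ) * (-(s ^ 2)⁻¹) + ((j + 1 : ℕ) : ℝ) * W s)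
    push_cast at h1 ⊢
    nlinarith
  have hj : (0:ℝ) < (j:ℝ) + 1 := by positivity
  have hV2 : ∀ s ∈ Set.Ioo (0:ℝ) 1, 0 < V2 s := by
    intro s hs
    have h1 := hV2ge s hs
    have h2 : 0 < ((j:ℝ) + 1) * (-W s) := mul_pos hj (by linarith [Wneg s hs])
    linarith
  have cV2 : ContinuousOn V2 (Set.Ioo 0 1) := by
    apply ContinuousOn.neg
    apply ContinuousOn.add
    · apply continuousOn_const.mul
      apply ContinuousOn.neg
      apply ContinuousOn.inv₀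
      · fun_prop
      · intro s hs
        exact pow_ne_zero 2 hs.1.ne'
    · exact continuousOn_const.mul cYss
  have eV : ∀ s ∈ Set.Ioo (0:ℝ) 1, Real.exp (-V s) = d s := by
    intro s hs
    show Real.exp (-(-(((2 * k + 1 : ℕ) : ℝ) * Real.log s +
      ((j + 1 : ℕ) : ℝ) * Yc t s))) = den j k t s
    rw [neg_neg, Real.exp_add, Real.exp_nat_mul, Real.exp_log hs.1]
    unfold den
    push_cast
    rfl
  have iV : IntegrableOn (fun s => Real.exp (-V s)) (Set.Ioo (0 : ℝ) 1) :=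
    id.congr_fun (fun s hs => (eV s hs).symm) measurableSet_Ioo
  have nY : ∀ s : ℝ, ‖((Y s : ℝ) : ℂ)‖ ^ 2 = Y s ^ 2 := by
    intro s
    rw [Complex.norm_real, Real.norm_eq_abs, sq_abs]
  have nZ : ∀ s : ℝ, ‖((Z s : ℝ) : ℂ)‖ ^ 2 = Z s ^ 2 := by
    intro s
    rw [Complex.norm_real, Real.norm_eq_abs, sq_abs]
  have iZ : IntegrableOn (fun s => ‖((Z s : ℝ) : ℂ)‖ ^ 2 / V2 s * Real.exp (-V s))
      (Set.Ioo (0 : ℝ) 1) := by
    have : IntegrableOn (fun s => Z s ^ 2 / V2 s * d s) (Set.Ioo (0 : ℝ) 1) := by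
      apply vc_int (C := (1 + t * La2 t) / t * 1)
      · exact ((cYts.pow 2).div cV2 (fun s hs => (hV2 s hs).ne')).mul cden
      · intro s hs
        have b1 : 0 ≤ Z s ^ 2 / V2 s := div_nonneg (sq_nonneg _) (hV2 s hs).le
        have b2 : Z s ^ 2 / V2 s ≤ Z s ^ 2 / (-W s) := by
          apply div_le_div_of_nonneg_left (sq_nonneg _) (by linarith [Wneg s hs])
          have := hV2ge s hs
          have h3 : 0 < -W s := by linarith [Wneg s hs]
          have h4 : (0:ℝ) ≤ j := Nat.cast_nonneg j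
          nlinarith
        rw [abs_mul, abs_of_pos (hb s hs).1, abs_of_nonneg b1]
        exact mul_le_mul (b2.trans (Q s hs)) (hb s hs).2.1 (hb s hs).1.le hC0
    apply this.congr_fun _ measurableSet_Ioo
    intro s hs
    show Z s ^ 2 / V2 s * d s = ‖((Z s : ℝ) : ℂ)‖ ^ 2 / V2 s * Real.exp (-V s)
    rw [nZ, eV s hs]
  have iY : IntegrableOn (fun s => ‖((Y s : ℝ) : ℂ)‖ ^ 2 * Real.exp (-V s))
      (Set.Ioo (0 : ℝ) 1) := by
    apply iY2d.congr_fun _ measurableSet_Ioo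
    intro s hs
    show Y s ^ 2 * d s = ‖((Y s : ℝ) : ℂ)‖ ^ 2 * Real.exp (-V s)
    rw [nY, eV s hs]
  have hg : ∀ s ∈ Set.Ioo (0 : ℝ) 1, HasDerivAt (fun s => ((Y s : ℝ) : ℂ)) ((Z s : ℝ) : ℂ) s := by
    intro s hs
    exact (hC t s h0' ht hs.1.le hs.2).2.2.2.2.2.2.2.2.2.2.2.2.2.2.2.1.ofReal_comp
  have cg1 : ContinuousOn (fun s => ((Z s : ℝ) : ℂ)) (Set.Ioo 0 1) :=
    Complex.continuous_ofReal.comp_continuousOn cYts
  have BL := hBL V V1 V2 (fun s => ((Y s : ℝ) : ℂ)) (fun s => ((Z s : ℝ) : ℂ)) hV hV1 hV2 cV2 iV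
    hg cg1 iY iZ
  -- evaluation
  have e1 : ∫ x in Set.Ioo (0 : ℝ) 1, Real.exp (-V x) = ∫ x in Set.Ioo (0 : ℝ) 1, d x :=
    setIntegral_congr_fun measurableSet_Ioo (fun s hs => eV s hs)
  have e2 : ∫ x in Set.Ioo (0 : ℝ) 1, ((Y x : ℝ) : ℂ) * ((Real.exp (-V x) : ℝ) : ℂ) =
      ((∫ x in Set.Ioo (0 : ℝ) 1, Y x * d x : ℝ) : ℂ) := by
    rw [← integral_complex_ofReal]
    apply setIntegral_congr_fun measurableSet_Ioo
    intro s hs
    show ((Y s : ℝ) : ℂ) * ((Real.exp (-V s) : ℝ) : ℂ) = ((Y s * d s : ℝ) : ℂ)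
    rw [eV s hs]
    push_cast
    rfl
  rw [e1, e2] at BL
  set A : ℝ := ∫ x in Set.Ioo (0 : ℝ) 1, Y x ^ 2 * d x with hA
  set B : ℝ := ∫ x in Set.Ioo (0 : ℝ) 1, Y x * d x with hB
  set I0 : ℝ := ∫ x in Set.Ioo (0 : ℝ) 1, d x with hI
  set R : ℝ := ∫ x in Set.Ioo (0 : ℝ) 1, Z x ^ 2 / (-W x) * d x with hR
  have hEs1 : Es j k t (fun s => Yct t s ^ 2) = A / I0 := rfl
  have hEs2 : Es j k t (fun s => Yct t s) = B / I0 := rfl
  have hEs3 : Es j k t (fun s => t * (Ycts t s ^ 2 / (-Ycss t s))) =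
      t * R / I0 := by
    unfold Es
    have : ∫ s in Set.Ioo (0 : ℝ) 1, t * (Ycts t s ^ 2 / (-Ycss t s)) *
        den j k t s = t * R := by
      rw [hR, ← integral_const_mul]
      congr 1
      ext s
      show t * (Ycts t s ^ 2 / (-Ycss t s)) * den j k t s =
        t * (Ycts t s ^ 2 / (-Ycss t s) * den j k t s)
      ring
    rw [this]
    rfl
  rw [hEs1, hEs2, hEs3]
  have hI0 : 0 ≤ I0 := by
    apply setIntegral_nonneg measurableSet_Ioo
    intro s hs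
    exact (hb s hs).1.le
  rcases eq_or_lt_of_le hI0 with hz | hpos
  · rw [← hz]; simp
  have L : ∫ s in Set.Ioo (0 : ℝ) 1, ‖((Y s : ℝ) : ℂ) - ((B : ℝ) : ℂ) / ((I0 : ℝ) : ℂ)‖ ^ 2 *
      Real.exp (-V s) = A - B ^ 2 / I0 := by
    have e3 : ∫ s in Set.Ioo (0 : ℝ) 1, ‖((Y s : ℝ) : ℂ) - ((B : ℝ) : ℂ) / ((I0 : ℝ) : ℂ)‖ ^ 2 *
      Real.exp (-V s) = ∫ s in Set.Ioo (0 : ℝ) 1,
        (Y s ^ 2 * d s - (2 * (B / I0)) * (Y s * d s) + (B / I0) ^ 2 * d s) := by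
      apply setIntegral_congr_fun measurableSet_Ioo
      intro s hs
      show ‖((Y s : ℝ) : ℂ) - ((B : ℝ) : ℂ) / ((I0 : ℝ) : ℂ)‖ ^ 2 * Real.exp (-V s) =
        Y s ^ 2 * d s - (2 * (B / I0)) * (Y s * d s) + (B / I0) ^ 2 * d s
      have : ((Y s : ℝ) : ℂ) - ((B : ℝ) : ℂ) / ((I0 : ℝ) : ℂ) = ((Y s - B / I0 : ℝ) : ℂ) := by
        push_cast; rfl
      rw [this, Complex.norm_real, Real.norm_eq_abs, sq_abs, eV s hs]
      ring
    rw [e3, integral_add, integral_sub, integral_const_mul, integral_const_mul]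
    · show A - 2 * (B / I0) * B + (B / I0) ^ 2 * I0 = A - B ^ 2 / I0
      field_simp
      ring
    · exact iY2d
    · exact iYd.const_mul _
    · exact iY2d.sub (iYd.const_mul _)
    · exact id.const_mul _
  have Rr : ∫ s in Set.Ioo (0 : ℝ) 1, ‖((Z s : ℝ) : ℂ)‖ ^ 2 / V2 s * Real.exp (-V s) ≤
      R / ((j:ℝ) + 1) := by
    have e4 : R / ((j:ℝ) + 1) = ∫ s in Set.Ioo (0 : ℝ) 1,
        (1 / ((j:ℝ) + 1)) * (Z s ^ 2 / (-W s) * d s) := by
      rw [integral_const_mul]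
      ring
    rw [e4]
    apply setIntegral_mono_on iZ (iQd.const_mul _) measurableSet_Ioo
    intro s hs
    rw [nZ, eV s hs]
    have h3 : 0 < -W s := by linarith [Wneg s hs]
    have h4 : Z s ^ 2 / V2 s ≤ Z s ^ 2 / (((j:ℝ) + 1) * (-W s)) := by
      apply div_le_div_of_nonneg_left (sq_nonneg _) (by positivity) (hV2ge s hs)
    have h5 : Z s ^ 2 / (((j:ℝ) + 1) * (-W s)) = (1 / ((j:ℝ) + 1)) * (Z s ^ 2 / (-W s)) := by
      field_simp
    rw [h5] at h4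
    calc Z s ^ 2 / V2 s * d s ≤ ((1 / ((j:ℝ) + 1)) * (Z s ^ 2 / (-W s))) * d s :=
          mul_le_mul_of_nonneg_right h4 (hb s hs).1.le
      _ = (1 / ((j:ℝ) + 1)) * (Z s ^ 2 / (-W s) * d s) := by ring
  have key : A - B ^ 2 / I0 ≤ R / ((j:ℝ) + 1) := by
    rw [← L]
    exact BL.trans Rr
  have f1 : A / I0 - (B / I0) ^ 2 = (A - B ^ 2 / I0) / I0 := by
    field_simp
  rw [f1]
  calc ((j:ℝ) + 1) ^ 2 * t * ((A - B ^ 2 / I0) / I0)
      ≤ ((j:ℝ) + 1) ^ 2 * t * ((R / ((j:ℝ) + 1)) / I0) := by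
        apply mul_le_mul_of_nonneg_left _ (by positivity)
        exact div_le_div_of_nonneg_right key hpos.le
    _ = ((j:ℝ) + 1) * (t * R / I0) := by
        field_simp

end DbarC.JVYj
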