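import Pool.Agent.H314.DC.St2
import Pool.Agent.H314.DN.HE1
import Pool.Agent.H314.DN.HE2
import Pool.Agent.H314.DN.HS2

set_option autoImplicit false

open MeasureTheory Complex Filter Topology
open scoped ContDiff InnerProductSpace ENNReal ComplexConjugate

namespace DbarC.JWTj
open DbarN

/-- second directional derivative -/
noncomputable def wtS (P : E3 → ℝ) (x w : E3) : ℝ := fderiv ℝ (fderiv ℝ P) x w w

theorem wt_lev_eq (P : E3 → ℝ) (hP : ContDiff ℝ ∞ P) (x : E3) (a : Fin 3 → ℂ) :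
    Lev P x a = (1 / 4) * (wtS P x a + wtS P x (fun j => I * a j)) := by
  unfold Lev wtS
  obtain ⟨B, hB⟩ : ∃ B, B = fderiv ℝ (fderiv ℝ P) x := ⟨_, rfl⟩
  have hs1 : ∀ j, (Pi.single j (a j) : E3) = (a j).re • (Pi.single j (1:ℂ) : E3) + (a j).im • (Pi.single j I : E3) := by
    intro j
    rw [← Pi.single_smul, ← Pi.single_smul, ← Pi.single_add]
    congr 1
    rw [Complex.real_smul, Complex.real_smul, mul_one]
    exact (Complex.re_add_im (a j)).symm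
  have hs2 : ∀ j, (Pi.single j (I * a j) : E3) =
      (-(a j).im) • (Pi.single j (1:ℂ) : E3) + (a j).re • (Pi.single j I : E3) := by
    intro j
    rw [← Pi.single_smul, ← Pi.single_smul, ← Pi.single_add]
    congr 1
    rw [Complex.real_smul, Complex.real_smul, mul_one]
    apply Complex.ext <;> simp
  have hexp : ∀ f : Fin 3 → ℂ, B f f = ∑ j, ∑ k, B (Pi.single j (f j) : E3) (Pi.single k (f k) : E3) := by
    intro f
    have e : f = ∑ j, (Pi.single j (f j) : E3) := (Finset.univ_sum_single f).symm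
    have e1 : B f = ∑ j, B (Pi.single j (f j) : E3) :=
      (congrArg (fun w => B w) e).trans (map_sum _ _ _)
    rw [e1, sum_apply]
    apply Finset.sum_congr rfl
    intro j _
    exact (congrArg (fun w => B (Pi.single j (f j) : E3) w) e).trans (map_sum _ _ _)
  have hterm : ∀ j k, (Hess P j k x * a j * conj (a k)).re =
      (1 / 4) * (B (Pi.single j (a j) : E3) (Pi.single k (a k) : E3)
        + B (Pi.single j (I * a j) : E3) (Pi.single k (I * a k) : E3)) := by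
    intro j k
    rw [JHE1.hess_convex_formula P hP x j k, ← hB, hs1 j, hs1 k, hs2 j, hs2 k]
    simp only [map_add, map_smul, add_apply, smul_apply, smul_eq_mul]
    obtain ⟨b00, h00⟩ : ∃ b, b = B (Pi.single j (1:ℂ) : E3) (Pi.single k (1:ℂ) : E3) := ⟨_, rfl⟩
    obtain ⟨b01, h01⟩ : ∃ b, b = B (Pi.single j (1:ℂ) : E3) (Pi.single k I : E3) := ⟨_, rfl⟩
    obtain ⟨b10, h10⟩ : ∃ b, b = B (Pi.single j I : E3) (Pi.single k (1:ℂ) : E3) := ⟨_, rfl⟩
    obtain ⟨b11, h11⟩ : ∃ b, b = B (Pi.single j I : E3) (Pi.single k I : E3) := ⟨_, rfl⟩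
    rw [← h00, ← h01, ← h10, ← h11]
    have e1 : (1 / 4 : ℂ) * (((b00 : ℝ) : ℂ) + I * ((b01 : ℝ) : ℂ) - I * ((b10 : ℝ) : ℂ) + ((b11 : ℝ) : ℂ)) =
        (((b00 + b11) / 4 : ℝ) : ℂ) + (((b01 - b10) / 4 : ℝ) : ℂ) * I := by
      push_cast
      ring
    rw [e1]
    simp only [Complex.mul_re, Complex.mul_im, Complex.add_re, Complex.add_im, Complex.ofReal_re,
      Complex.ofReal_im, Complex.I_re, Complex.I_im, Complex.conj_re, Complex.conj_im]
    ring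
  rw [← hB, hexp a, hexp (fun j => I * a j), ← Finset.sum_add_distrib, Finset.mul_sum, Complex.re_sum]
  apply Finset.sum_congr rfl
  intro j _
  rw [← Finset.sum_add_distrib, Finset.mul_sum, Complex.re_sum]
  apply Finset.sum_congr rfl
  intro k _
  exact hterm j k

theorem wt_S_congr {P Q : E3 → ℝ} {x : E3} (h : P =ᶠ[𝓝 x] Q) (w : E3) :
    wtS P x w = wtS Q x w := by
  unfold wtS
  rw [h.fderiv.fderiv_eq]

theorem wt_fd {P : E3 → ℝ} (hP : ContDiff ℝ ∞ P) : Differentiable ℝ (fderiv ℝ P) := by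
  have hF : ContDiff ℝ 1 (fderiv ℝ P) := hP.fderiv_right (by norm_cast)
  exact hF.differentiable (by simp)

theorem wt_S_eq {P : E3 → ℝ} (hP : ContDiff ℝ ∞ P) (x w : E3) :
    wtS P x w = fderiv ℝ (fun y => fderiv ℝ P y w) x w := by
  unfold wtS
  have h : HasFDerivAt (fun y => fderiv ℝ P y w)
      ((ContinuousLinearMap.apply ℝ ℝ w).comp (fderiv ℝ (fderiv ℝ P) x)) x :=
    (ContinuousLinearMap.apply ℝ ℝ w).hasFDerivAt.comp x (wt_fd hP x).hasFDerivAt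
  rw [h.fderiv]
  rfl

theorem wt_S_add {P Q : E3 → ℝ} (hP : ContDiff ℝ ∞ P) (hQ : ContDiff ℝ ∞ Q) (x w : E3) :
    wtS (fun y => P y + Q y) x w = wtS P x w + wtS Q x w := by
  unfold wtS
  have h1 : fderiv ℝ (fun y => P y + Q y) = fun y => fderiv ℝ P y + fderiv ℝ Q y := by
    funext y
    exact fderiv_fun_add (hP.differentiable (by simp) y) (hQ.differentiable (by simp) y)
  rw [h1, fderiv_fun_add (wt_fd hP x) (wt_fd hQ x)]
  rfl

theorem wt_S_comp (u : E3 → ℝ) (hu : ContDiff ℝ ∞ u) (g g1 : ℝ → ℝ) (g2 : ℝ) (x w : E3)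
    (hg : ∀ᶠ t in 𝓝 (u x), HasDerivAt g (g1 t) t) (hg1 : HasDerivAt g1 g2 (u x)) :
    wtS (fun y => g (u y)) x w = g1 (u x) * wtS u x w + g2 * (fderiv ℝ u x w) ^ 2 := by
  unfold wtS
  have hud : Differentiable ℝ u := hu.differentiable (by simp)
  have h1 : fderiv ℝ (fun y => g (u y)) =ᶠ[𝓝 x] fun y => g1 (u y) • fderiv ℝ u y := by
    have := (hu.continuous.continuousAt (x := x)).eventually hg
    filter_upwards [this] with y hy
    exact (hy.comp_hasFDerivAt y (hud y).hasFDerivAt).fderiv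
  rw [h1.fderiv_eq]
  have h2 : HasFDerivAt (fun y => g1 (u y)) (g2 • fderiv ℝ u x) x :=
    hg1.comp_hasFDerivAt x (hud x).hasFDerivAt
  have h3 := h2.fun_smul (wt_fd hu x).hasFDerivAt
  rw [h3.fderiv]
  simp [sq]
  ring

theorem wt_q_fd (m : Fin 3) (x w : E3) :
    fderiv ℝ (fun y : E3 => ‖y m‖ ^ 2) x w = 2 * inner ℝ (x m) (w m) := by
  have h1 : HasFDerivAt (fun y : E3 => y m) (ContinuousLinearMap.proj m : E3 →L[ℝ] ℂ) x :=
    (ContinuousLinearMap.proj m : E3 →L[ℝ] ℂ).hasFDerivAt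
  rw [h1.norm_sq.fderiv]
  simp
  ring

theorem wt_q_smooth (m : Fin 3) : ContDiff ℝ ∞ (fun y : E3 => ‖y m‖ ^ 2) := JHS2.hs2_q_smooth m

theorem wt_q_S (m : Fin 3) (x w : E3) :
    wtS (fun y : E3 => ‖y m‖ ^ 2) x w = 2 * ‖w m‖ ^ 2 := by
  rw [wt_S_eq (wt_q_smooth m)]
  have h0 : (fun y => fderiv ℝ (fun y : E3 => ‖y m‖ ^ 2) y w) =
      fun y : E3 => 2 * inner ℝ (w m) (y m) := by
    funext y
    rw [wt_q_fd, real_inner_comm]
  rw [h0]
  have h1 : HasFDerivAt (fun y : E3 => 2 * inner ℝ (w m) (y m))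
      ((2:ℝ) • ((innerSL ℝ (w m)).comp (ContinuousLinearMap.proj m : E3 →L[ℝ] ℂ))) x :=
    ((2:ℝ) • ((innerSL ℝ (w m)).comp (ContinuousLinearMap.proj m : E3 →L[ℝ] ℂ))).hasFDerivAt
  rw [h1.fderiv]
  simp

theorem wt_lev_q (m : Fin 3) (x : E3) (a : Fin 3 → ℂ) :
    Lev (fun y : E3 => ‖y m‖ ^ 2) x a = ‖a m‖ ^ 2 := by
  rw [wt_lev_eq _ (wt_q_smooth m), wt_q_S, wt_q_S]
  simp
  ring

theorem wt_lev_add {P Q : E3 → ℝ} (hP : ContDiff ℝ ∞ P) (hQ : ContDiff ℝ ∞ Q) (x : E3)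
    (a : Fin 3 → ℂ) : Lev (fun y => P y + Q y) x a = Lev P x a + Lev Q x a := by
  rw [wt_lev_eq _ (hP.add hQ), wt_lev_eq _ hP, wt_lev_eq _ hQ, wt_S_add hP hQ, wt_S_add hP hQ]
  ring

theorem wt_lev_congr {P Q : E3 → ℝ} (hP : ContDiff ℝ ∞ P) (hQ : ContDiff ℝ ∞ Q) {x : E3}
    (h : P =ᶠ[𝓝 x] Q) (a : Fin 3 → ℂ) : Lev P x a = Lev Q x a := by
  rw [wt_lev_eq _ hP, wt_lev_eq _ hQ, wt_S_congr h, wt_S_congr h]

theorem wt_trace (P : E3 → ℝ) (x : E3) (D : Fin 3 → ℝ)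
    (h : ∀ a : Fin 3 → ℂ, ∑ j, D j * ‖a j‖ ^ 2 ≤ Lev P x a) (a : Fin 3 → ℂ) :
    (∑ j, D j) * (∑ j, ‖a j‖ ^ 2) - ∑ j, D j * ‖a j‖ ^ 2 ≤
      ((∑ j, Hess P j j x) * (∑ k, (‖a k‖ : ℂ) ^ 2) -
        ∑ j, ∑ k, Hess P k j x * a j * conj (a k)).re := by
  have hn : ∀ (b : Fin 3 → ℂ) k, b k * conj (b k) = (‖b k‖ : ℂ) ^ 2 := fun b k => Complex.mul_conj' (b k)
  have key := JHE2.hess_trace_aux (fun j k => Hess P j k x - if j = k then (D j : ℂ) else 0) (by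
    intro b
    have e : (∑ j, ∑ k, (Hess P j k x - if j = k then (D j : ℂ) else 0) * b j * conj (b k)) =
        (∑ j, ∑ k, Hess P j k x * b j * conj (b k)) - ((∑ j, D j * ‖b j‖ ^ 2 : ℝ) : ℂ) := by
      have c0 := hn b 0
      have c1 := hn b 1
      have c2 := hn b 2
      push_cast
      simp only [Fin.sum_univ_three]
      simp
      linear_combination (-(D 0 : ℂ)) * c0 - (D 1 : ℂ) * c1 - (D 2 : ℂ) * c2
    rw [e, Complex.sub_re, Complex.ofReal_re]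
    have := h b
    unfold Lev at this
    linarith) a
  have e : ((∑ j, (fun j k => Hess P j k x - if j = k then (D j : ℂ) else 0) j j) *
      (∑ k, (‖a k‖ : ℂ) ^ 2) -
        ∑ j, ∑ k, (fun j k => Hess P j k x - if j = k then (D j : ℂ) else 0) k j * a j * conj (a k)) =
      ((∑ j, Hess P j j x) * (∑ k, (‖a k‖ : ℂ) ^ 2) -
        ∑ j, ∑ k, Hess P k j x * a j * conj (a k)) -
      (((∑ j, D j) * (∑ j, ‖a j‖ ^ 2) - ∑ j, D j * ‖a j‖ ^ 2 : ℝ) : ℂ) := by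
    have c0 := hn a 0
    have c1 := hn a 1
    have c2 := hn a 2
    push_cast
    simp only [Fin.sum_univ_three]
    simp
    linear_combination ((D 0 : ℂ)) * c0 + (D 1 : ℂ) * c1 + (D 2 : ℂ) * c2
  rw [e, Complex.sub_re, Complex.ofReal_re] at key
  linarith

/-- Levi form of an increasing convex function of a function -/
theorem wt_lev_comp (u : E3 → ℝ) (hu : ContDiff ℝ ∞ u) (g g1 : ℝ → ℝ) (g2 : ℝ) (x : E3)
    (a : Fin 3 → ℂ) (hgu : ContDiff ℝ ∞ (fun y => g (u y)))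
    (hg : ∀ᶠ t in 𝓝 (u x), HasDerivAt g (g1 t) t) (hg1 : HasDerivAt g1 g2 (u x)) :
    Lev (fun y => g (u y)) x a = g1 (u x) * Lev u x a +
      g2 / 4 * ((fderiv ℝ u x a) ^ 2 + (fderiv ℝ u x (fun j => I * a j)) ^ 2) := by
  rw [wt_lev_eq _ hgu, wt_lev_eq _ hu, wt_S_comp u hu g g1 g2 x _ hg hg1,
    wt_S_comp u hu g g1 g2 x _ hg hg1]
  ring

theorem wt_log_smooth (A c : ℝ) (hA : 0 < A) :
    ContDiff ℝ ∞ (fun y : E3 => c * Real.log (1 + A * ‖y 1‖ ^ 2)) := by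
  refine contDiff_const.mul (ContDiff.log (contDiff_const.add (contDiff_const.mul (JHS2.hs2_q_smooth 1))) ?_)
  intro y
  have : 0 ≤ A * ‖y 1‖ ^ 2 := by positivity
  exact ne_of_gt (by change 0 < 1 + A * ‖y 1‖ ^ 2; linarith)

theorem wt_lev_log (A c : ℝ) (hA : 0 < A) (x : E3) (a : Fin 3 → ℂ) :
    Lev (fun y : E3 => c * Real.log (1 + A * ‖y 1‖ ^ 2)) x a =
      c * A * ‖a 1‖ ^ 2 / (1 + A * ‖x 1‖ ^ 2) ^ 2 := by
  have hy : 0 ≤ A * ‖x 1‖ ^ 2 := by positivity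
  have hpos : 0 < 1 + A * ‖x 1‖ ^ 2 := by linarith
  have h := wt_lev_comp (fun y : E3 => ‖y 1‖ ^ 2) (JHS2.hs2_q_smooth 1)
    (fun t => c * Real.log (1 + A * t)) (fun t => c * (A / (1 + A * t)))
    (-(c * (A * A / (1 + A * ‖x 1‖ ^ 2) ^ 2))) x a (wt_log_smooth A c hA) (by
      have : ∀ᶠ t in 𝓝 (‖x 1‖ ^ 2), 0 < 1 + A * t := by
        have hc : ContinuousAt (fun t : ℝ => 1 + A * t) (‖x 1‖ ^ 2) := by fun_prop
        exact hc.eventually (lt_mem_nhds hpos)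
      filter_upwards [this] with t ht
      have h1 : HasDerivAt (fun t : ℝ => 1 + A * t) A t := by
        simpa using ((hasDerivAt_id t).const_mul A).const_add 1
      exact (h1.log ht.ne').const_mul c) (by
      have h1 : HasDerivAt (fun t : ℝ => 1 + A * t) A (‖x 1‖ ^ 2) := by
        simpa using ((hasDerivAt_id (‖x 1‖ ^ 2)).const_mul A).const_add 1
      have h2 := ((hasDerivAt_const (‖x 1‖ ^ 2) A).div h1 hpos.ne').const_mul c
      refine h2.congr_deriv ?_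
      ring)
  rw [h, wt_lev_q, wt_q_fd, wt_q_fd]
  have e : (2 * inner ℝ (x 1) (a 1)) ^ 2 + (2 * inner ℝ (x 1) (I * a 1)) ^ 2 =
      4 * (‖x 1‖ ^ 2 * ‖a 1‖ ^ 2) := by
    rw [← Complex.normSq_eq_norm_sq, ← Complex.normSq_eq_norm_sq, Complex.inner, Complex.inner,
      Complex.normSq_apply, Complex.normSq_apply]
    simp
    ring
  rw [e]
  field_simp
  ring

theorem wt_exp_smooth {F : E3 → ℝ} (hF : ContDiff ℝ ∞ F) (η : ℝ) :
    ContDiff ℝ ∞ (fun y : E3 => Real.exp (η⁻¹ * (F y - 1))) :=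
  Real.contDiff_exp.comp (contDiff_const.mul (hF.sub contDiff_const))

theorem wt_lev_exp {F : E3 → ℝ} (hF : ContDiff ℝ ∞ F) (η : ℝ) (hη : 0 < η) (x : E3) (a : Fin 3 → ℂ) :
    Real.exp (η⁻¹ * (F x - 1)) * (η⁻¹ * Lev F x a) ≤
      Lev (fun y : E3 => Real.exp (η⁻¹ * (F y - 1))) x a := by
  have hd : ∀ t : ℝ, HasDerivAt (fun t : ℝ => Real.exp (η⁻¹ * (t - 1)))
      (η⁻¹ * Real.exp (η⁻¹ * (t - 1))) t := by
    intro t
    have h1 : HasDerivAt (fun t : ℝ => η⁻¹ * (t - 1)) η⁻¹ t := by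
      simpa using ((hasDerivAt_id t).sub_const 1).const_mul η⁻¹
    refine h1.exp.congr_deriv ?_
    ring
  have h := wt_lev_comp F hF
    (fun t => Real.exp (η⁻¹ * (t - 1))) (fun t => η⁻¹ * Real.exp (η⁻¹ * (t - 1)))
    (η⁻¹ * (η⁻¹ * Real.exp (η⁻¹ * (F x - 1)))) x a (wt_exp_smooth hF η)
    (Filter.Eventually.of_forall hd) ((hd (F x)).const_mul _)
  rw [h]
  have : 0 ≤ η⁻¹ * (η⁻¹ * Real.exp (η⁻¹ * (F x - 1))) / 4 *
      ((fderiv ℝ F x a) ^ 2 + (fderiv ℝ F x (fun j => I * a j)) ^ 2) := by positivity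
  nlinarith

theorem wt_om (hG : GLU_stmt) (hF : FFs_stmt) (hH : FH_stmt) (hD : DomC_stmt) : Wt_prop Om := by
  intro M hM
  obtain ⟨hOo, h0O, hOb, -, -, hcl, hfr, -⟩ := hD
  obtain ⟨hH1, hH2⟩ := hH
  have hFs : ContDiff ℝ ∞ FF := hF
  have hFc : Continuous FF := hFs.continuous
  obtain ⟨A, hA⟩ : ∃ A : ℝ, A = 128 * M ^ 2 := ⟨_, rfl⟩
  have hA1 : 128 ≤ A := by rw [hA]; nlinarith
  have hA0 : 0 < A := by linarith
  obtain ⟨L, hL⟩ : ∃ L : ℝ, L = Real.log (1 + A) := ⟨_, rfl⟩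
  have hL0 : 0 < L := by rw [hL]; exact Real.log_pos (by linarith)
  have hAL : 4 * M * L ≤ A := by
    have h1 : 0 < Real.sqrt (1 + A) := Real.sqrt_pos.mpr (by linarith)
    have h2 : L = 2 * Real.log (Real.sqrt (1 + A)) := by
      rw [Real.log_sqrt (by linarith), hL]; ring
    have h3 := Real.log_le_sub_one_of_pos h1
    have h4 : L ≤ 2 * Real.sqrt (1 + A) := by linarith
    have h5 : (8 * M * Real.sqrt (1 + A)) ≤ A := by
      have h6 : Real.sqrt (1 + A) ^ 2 = 1 + A := Real.sq_sqrt (by linarith)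
      have h7 : (8 * M * Real.sqrt (1 + A)) ^ 2 ≤ A ^ 2 := by
        rw [mul_pow, h6, hA]
        nlinarith [mul_self_nonneg (M ^ 2), mul_nonneg (sq_nonneg M) (sq_nonneg M), hM,
          mul_le_mul hM hM zero_le_one (by linarith)]
      exact (sq_le_sq₀ (by positivity) hA0.le).mp h7
    nlinarith
  obtain ⟨c, hc0, hc⟩ := hH2 (1 / A) (by positivity)
  obtain ⟨η, hη⟩ : ∃ η : ℝ, η = min (Real.exp (-1) / M) (Real.exp (-1) * c / M) := ⟨_, rfl⟩
  have hM0 : 0 < M := by linarith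
  have hη0 : 0 < η := by rw [hη]; exact lt_min (by positivity) (by positivity)
  have hη1 : M ≤ Real.exp (-1) * η⁻¹ := by
    have : η ≤ Real.exp (-1) / M := by rw [hη]; exact min_le_left _ _
    rw [le_div_iff₀ hM0] at this
    rw [← div_eq_mul_inv, le_div_iff₀ hη0]
    linarith
  have hη2 : M ≤ Real.exp (-1) * (η⁻¹ * c) := by
    have : η ≤ Real.exp (-1) * c / M := by rw [hη]; exact min_le_right _ _
    rw [le_div_iff₀ hM0] at this
    have e : Real.exp (-1) * (η⁻¹ * c) = Real.exp (-1) * c / η := by ring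
    rw [e, le_div_iff₀ hη0]
    linarith
  -- the function φ
  obtain ⟨φ1, hφ1⟩ : ∃ φ1 : E3 → ℝ, φ1 = fun y => L⁻¹ * Real.log (1 + A * ‖y 1‖ ^ 2) := ⟨_, rfl⟩
  obtain ⟨φ2, hφ2⟩ : ∃ φ2 : E3 → ℝ, φ2 = fun y => Real.exp (η⁻¹ * (FF y - 1)) := ⟨_, rfl⟩
  have hφ1s : ContDiff ℝ ∞ φ1 := by rw [hφ1]; exact wt_log_smooth A L⁻¹ hA0
  have hφ2s : ContDiff ℝ ∞ φ2 := by rw [hφ2]; exact wt_exp_smooth hFs η
  have hl1 : ∀ x a, Lev φ1 x a = L⁻¹ * A * ‖a 1‖ ^ 2 / (1 + A * ‖x 1‖ ^ 2) ^ 2 := by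
    intro x a
    rw [hφ1]; exact wt_lev_log A L⁻¹ hA0 x a
  have hl1' : ∀ x a, 0 ≤ Lev φ1 x a := by
    intro x a
    rw [hl1]; positivity
  have hl2 : ∀ x a, φ2 x * (η⁻¹ * Lev FF x a) ≤ Lev φ2 x a := by
    intro x a
    rw [hφ2]; exact wt_lev_exp hFs η hη0 x a
  have hφ20 : ∀ x, 0 < φ2 x := by intro x; rw [hφ2]; exact Real.exp_pos _
  have hφ10 : ∀ x, 0 ≤ φ1 x := by
    intro x; rw [hφ1]
    exact mul_nonneg (by positivity) (Real.log_nonneg (by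
      have : 0 ≤ A * ‖x 1‖ ^ 2 := by positivity
      linarith))
  obtain ⟨φ, hφ⟩ : ∃ φ : E3 → ℝ, φ = fun y => φ1 y + φ2 y := ⟨_, rfl⟩
  have hφs : ContDiff ℝ ∞ φ := by rw [hφ]; exact hφ1s.add hφ2s
  have hlφ : ∀ x a, Lev φ x a = Lev φ1 x a + Lev φ2 x a := by
    intro x a; rw [hφ]; exact wt_lev_add hφ1s hφ2s x a
  -- the sets
  obtain ⟨K0, hK0⟩ : ∃ K0 : Set E3, K0 = Set.pi Set.univ
    (fun i => Metric.closedBall (0:ℂ) ((![1.0005, 1/10, 1] : Fin 3 → ℝ) i)) := ⟨_, rfl⟩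
  obtain ⟨U0, hU0⟩ : ∃ U0 : Set E3, U0 = Set.pi Set.univ
    (fun i => Metric.ball (0:ℂ) ((![1.001, 0.12, 1.4] : Fin 3 → ℝ) i)) := ⟨_, rfl⟩
  have hU0m : ∀ x ∈ U0, ‖x 0‖ ^ 2 < 1004 / 1000 ∧ ‖x 1‖ ^ 2 < 2 / 100 := by
    intro x hx
    rw [hU0] at hx
    have h0 := hx 0 (Set.mem_univ _)
    have h1 := hx 1 (Set.mem_univ _)
    simp at h0 h1
    constructor <;> nlinarith [norm_nonneg (x 0), norm_nonneg (x 1)]
  have hOK : Om ⊆ K0 := by
    intro x hx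
    obtain ⟨h0, h1, h2, -⟩ := hcl x (subset_closure hx)
    have hT : T0 = 1 + 1 / 10000 := by unfold T0 tB; norm_num
    rw [hT] at h0
    rw [hK0]
    intro i _
    fin_cases i
    · simp
      nlinarith [norm_nonneg (x 0)]
    · simp
      nlinarith [norm_nonneg (x 1)]
    · simp
      nlinarith [norm_nonneg (x 2)]
  obtain ⟨Q, V, hQs, hQL, hVo, hKV, hVU, hQK, -, hQ0⟩ := hG K0 U0
    (by rw [hK0]; exact isCompact_univ_pi fun i => isCompact_closedBall _ _)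
    (by rw [hK0]; exact convex_pi fun i _ => convex_closedBall _ _)
    ⟨0, hOK h0O⟩
    (by rw [hU0]; exact isOpen_set_pi Set.finite_univ fun i _ => Metric.isOpen_ball)
    (by
      rw [hK0, hU0]
      refine Set.pi_mono fun i _ => ?_
      refine Metric.closedBall_subset_ball ?_
      fin_cases i
      · simp; norm_num
      · simp; norm_num
      · simp; norm_num)
    (by rw [hU0]; exact Bornology.IsBounded.pi fun i => Metric.isBounded_ball)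
    φ hφs (by
      intro x hx a
      obtain ⟨h1, h2⟩ := hU0m x hx
      have h3 := hH1 x h1 h2 a
      have h4 := hl2 x a
      have h5 := hl1' x a
      rw [hlφ]
      have h6 : 0 ≤ Lev FF x a := le_trans (by positivity) h3
      have h7 : 0 ≤ φ2 x * (η⁻¹ * Lev FF x a) :=
        mul_nonneg (hφ20 x).le (mul_nonneg (by positivity) h6)
      linarith)
  have hQ0' := (hQ0 (fun x => by rw [hφ]; exact add_nonneg (hφ10 x) (hφ20 x).le)).1
  -- the weight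
  obtain ⟨N1, hN1⟩ : ∃ N1 : E3 → ℝ, N1 = fun y => ‖y 0‖ ^ 2 + ‖y 1‖ ^ 2 := ⟨_, rfl⟩
  obtain ⟨N2, hN2⟩ : ∃ N2 : E3 → ℝ, N2 = fun y => N1 y + ‖y 2‖ ^ 2 := ⟨_, rfl⟩
  have hN1s : ContDiff ℝ ∞ N1 := by rw [hN1]; exact (wt_q_smooth 0).add (wt_q_smooth 1)
  have hN2s : ContDiff ℝ ∞ N2 := by rw [hN2]; exact hN1s.add (wt_q_smooth 2)
  have hN1L : ∀ x a, Lev N1 x a = ‖a 0‖ ^ 2 + ‖a 1‖ ^ 2 := by
    intro x a
    rw [hN1, wt_lev_add (wt_q_smooth 0) (wt_q_smooth 1), wt_lev_q, wt_lev_q]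
  have hN2L : ∀ x a, Lev N2 x a = ‖a 0‖ ^ 2 + ‖a 1‖ ^ 2 + ‖a 2‖ ^ 2 := by
    intro x a
    rw [hN2, wt_lev_add hN1s (wt_q_smooth 2), wt_lev_q, hN1L]
  have hΦL : ∀ x a, Lev (fun y => N2 y + Q y) x a = ‖a 0‖ ^ 2 + ‖a 1‖ ^ 2 + ‖a 2‖ ^ 2 + Lev Q x a := by
    intro x a
    rw [wt_lev_add hN2s hQs, hN2L]
  refine ⟨closure Om ∩ {x | FF x ≤ 1 - η}, fun y => N2 y + Q y, ?_, ?_, hN2s.add hQs, ?_, ?_, ?_⟩
  · exact (Metric.isCompact_of_isClosed_isBounded isClosed_closure hOb.closure).inter_right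
      (isClosed_le hFc continuous_const)
  · rintro x ⟨hx1, hx2⟩
    by_contra hx
    have h1 : x ∈ frontier Om := by
      rw [hOo.frontier_eq]
      exact ⟨hx1, hx⟩
    have h2 := hfr x h1
    simp only [Set.mem_setOf_eq] at hx2
    linarith
  · intro x hx
    obtain ⟨h0, h1, h2, h3⟩ := hcl x (subset_closure hx)
    have hT : T0 = 1 + 1 / 10000 := by unfold T0 tB; norm_num
    rw [hT] at h0
    have hQx := hQK x (hOK hx)
    have e : N2 x = ‖x 0‖ ^ 2 + ‖x 1‖ ^ 2 + ‖x 2‖ ^ 2 := by rw [hN2, hN1]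
    have b1 : φ1 x ≤ 1 := by
      rw [hφ1]
      change L⁻¹ * Real.log (1 + A * ‖x 1‖ ^ 2) ≤ 1
      have : Real.log (1 + A * ‖x 1‖ ^ 2) ≤ L := by
        rw [hL]
        exact Real.log_le_log (by positivity) (by nlinarith)
      rw [inv_mul_le_iff₀ hL0]
      linarith
    have b2 : φ2 x ≤ 1 := by
      rw [hφ2]
      change Real.exp (η⁻¹ * (FF x - 1)) ≤ 1
      rw [Real.exp_le_one_iff]
      exact mul_nonpos_of_nonneg_of_nonpos (by positivity) (by linarith)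
    have e2 : φ x = φ1 x + φ2 x := by rw [hφ]
    constructor
    · have := hQ0' x
      change 0 ≤ N2 x + Q x
      rw [e]
      positivity
    · change N2 x + Q x ≤ 5
      rw [e, hQx, e2]
      linarith
  · intro x a
    have h := wt_trace (fun y => N2 y + Q y) x (fun _ => 1) (by
      intro b
      have := hQL x b
      rw [hΦL, Fin.sum_univ_three]
      linarith) a
    refine le_trans ?_ h
    simp only [Fin.sum_univ_three]
    nlinarith [sq_nonneg ‖a 0‖, sq_nonneg ‖a 1‖, sq_nonneg ‖a 2‖]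
  · intro x hx hxK a
    have hxF : 1 - η < FF x := by
      by_contra hcon
      exact hxK ⟨subset_closure hx, not_lt.mp hcon⟩
    obtain ⟨h0, h1, h2, h3⟩ := hcl x (subset_closure hx)
    have hT : T0 = 1 + 1 / 10000 := by unfold T0 tB; norm_num
    rw [hT] at h0
    have he : Real.exp (-1) ≤ φ2 x := by
      rw [hφ2]
      change Real.exp (-1) ≤ Real.exp (η⁻¹ * (FF x - 1))
      rw [Real.exp_le_exp, ← neg_le_neg_iff, neg_neg]
      have : -(η⁻¹ * (FF x - 1)) = (1 - FF x) / η := by ring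
      rw [this, div_le_one hη0]
      linarith
    have hcg : Q =ᶠ[𝓝 x] φ := by
      filter_upwards [hOo.mem_nhds hx] with y hy
      exact hQK y (hOK hy)
    have h := wt_trace (fun y => N2 y + Q y) x ![0, M, M] (by
      intro b
      rw [hΦL, wt_lev_congr hQs hφs hcg, hlφ, Fin.sum_univ_three]
      have k1 := hl1 x b
      have k1' := hl1' x b
      have k2 := hl2 x b
      have k3 := hH1 x (by linarith) (by linarith) b
      have k4 : 0 ≤ Lev FF x b := le_trans (by positivity) k3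
      have k5 : Real.exp (-1) * (η⁻¹ * Lev FF x b) ≤ φ2 x * (η⁻¹ * Lev FF x b) :=
        mul_le_mul_of_nonneg_right he (mul_nonneg (by positivity) k4)
      simp only [Matrix.cons_val_zero, Matrix.cons_val_one, Matrix.cons_val]
      rcases le_total (‖x 1‖ ^ 2) (1 / A) with hy | hy
      · have q1 : M * ‖b 1‖ ^ 2 ≤ Lev φ1 x b := by
          rw [k1, le_div_iff₀ (by positivity)]
          have u1 : A * ‖x 1‖ ^ 2 ≤ 1 := by
            rw [le_div_iff₀ hA0] at hy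
            linarith
          have u0 : 0 ≤ A * ‖x 1‖ ^ 2 := by positivity
          have u2 : (1 + A * ‖x 1‖ ^ 2) ^ 2 ≤ 4 := by nlinarith
          have u3 : M * 4 ≤ L⁻¹ * A := by
            rw [inv_mul_eq_div, le_div_iff₀ hL0]
            linarith
          have u4 : M * (1 + A * ‖x 1‖ ^ 2) ^ 2 ≤ L⁻¹ * A := by nlinarith
          calc M * ‖b 1‖ ^ 2 * (1 + A * ‖x 1‖ ^ 2) ^ 2 = (M * (1 + A * ‖x 1‖ ^ 2) ^ 2) * ‖b 1‖ ^ 2 := by ring
            _ ≤ L⁻¹ * A * ‖b 1‖ ^ 2 := mul_le_mul_of_nonneg_right u4 (by positivity)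
        have q2 : M * ‖b 2‖ ^ 2 ≤ Real.exp (-1) * (η⁻¹ * Lev FF x b) := by
          calc M * ‖b 2‖ ^ 2 ≤ (Real.exp (-1) * η⁻¹) * ‖b 2‖ ^ 2 :=
                mul_le_mul_of_nonneg_right hη1 (by positivity)
            _ = Real.exp (-1) * (η⁻¹ * ‖b 2‖ ^ 2) := by ring
            _ ≤ _ := mul_le_mul_of_nonneg_left (mul_le_mul_of_nonneg_left k3 (by positivity))
                (by positivity)
        have : 0 ≤ ‖b 0‖ ^ 2 + ‖b 1‖ ^ 2 + ‖b 2‖ ^ 2 := by positivity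
        linarith
      · have q3 := hc x (by linarith) hy (by linarith) b
        rw [Fin.sum_univ_three] at q3
        have q4 : M * (‖b 0‖ ^ 2 + ‖b 1‖ ^ 2 + ‖b 2‖ ^ 2) ≤ Real.exp (-1) * (η⁻¹ * Lev FF x b) := by
          calc M * (‖b 0‖ ^ 2 + ‖b 1‖ ^ 2 + ‖b 2‖ ^ 2)
              ≤ (Real.exp (-1) * (η⁻¹ * c)) * (‖b 0‖ ^ 2 + ‖b 1‖ ^ 2 + ‖b 2‖ ^ 2) :=
                mul_le_mul_of_nonneg_right hη2 (by positivity)
            _ = Real.exp (-1) * (η⁻¹ * (c * (‖b 0‖ ^ 2 + ‖b 1‖ ^ 2 + ‖b 2‖ ^ 2))) := by ring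
            _ ≤ _ := mul_le_mul_of_nonneg_left (mul_le_mul_of_nonneg_left q3 (by positivity))
                (by positivity)
        have t0 : 0 ≤ ‖b 0‖ ^ 2 + ‖b 1‖ ^ 2 + ‖b 2‖ ^ 2 := by positivity
        have t1 : 0 ≤ M * ‖b 0‖ ^ 2 := by positivity
        linarith) a
    refine le_trans ?_ h
    simp only [Fin.sum_univ_three, Matrix.cons_val_zero, Matrix.cons_val_one, Matrix.cons_val]
    nlinarith [mul_nonneg hM0.le (sq_nonneg ‖a 0‖), mul_nonneg hM0.le (sq_nonneg ‖a 1‖),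
      mul_nonneg hM0.le (sq_nonneg ‖a 2‖)]

end DbarC.JWTj
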