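import Pool.Agent.H314.DC.St1
import Pool.Agent.H314.DN.WS2

set_option autoImplicit false

open MeasureTheory Complex Filter Topology
open scoped ContDiff InnerProductSpace ENNReal ComplexConjugate

namespace DbarC.JWV
open DbarN

namespace JV
open DbarN.JWS2.JW2

section abs
variable {H0 H1 H2 : Type*} [NormedAddCommGroup H0] [InnerProductSpace ℂ H0] [CompleteSpace H0]
  [NormedAddCommGroup H1] [InnerProductSpace ℂ H1] [CompleteSpace H1]
  [NormedAddCommGroup H2] [InnerProductSpace ℂ H2] [CompleteSpace H2]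

omit [CompleteSpace H2] in
theorem solve_V (T : Submodule ℂ (H0 × H1)) (S : Submodule ℂ (H1 × H2))
    (hSc : IsClosed (S : Set (H1 × H2)))
    (hbi : ∀ (f : H0) (g : H1), (∀ u f', AdjR T u f' → inner ℂ u g = inner ℂ f' f) → (f, g) ∈ T)
    (hST : ∀ f g, (f, g) ∈ T → (g, (0 : H2)) ∈ S)
    (C Ci : H1 → H1) (hC1 : ∀ u, ‖u‖ ≤ ‖C u‖)
    (hCC : ∀ a b, (inner ℂ a b : ℂ) = inner ℂ (Ci a) (C b))
    (hap : ∀ u f ρ, AdjR T u f → (u, ρ) ∈ S → ‖C u‖ ^ 2 ≤ ‖f‖ ^ 2 + ‖ρ‖ ^ 2)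
    (g : H1) (ρ : H2) (hg : (g, ρ) ∈ S) :
    ∃ f g₁, (f, g₁) ∈ T ∧ ‖f‖ ^ 2 ≤ ‖Ci g₁‖ ^ 2 ∧ ‖g - g₁‖ ^ 2 ≤ ‖ρ‖ ^ 2 := by
  classical
  let K : Submodule ℂ H1 := S.comap (LinearMap.inl ℂ H1 H2)
  have hKmem : ∀ u : H1, u ∈ K ↔ (u, (0:H2)) ∈ S := fun u => Iff.rfl
  have hKc : IsClosed (K : Set H1) := by
    have hcont : Continuous (fun u : H1 => (u, (0:H2))) := by fun_prop
    exact hSc.preimage hcont
  have : CompleteSpace K := hKc.completeSpace_coe
  -- AdjR algebra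
  have hadd : ∀ u u' f f', AdjR T u f → AdjR T u' f' → AdjR T (u + u') (f + f') := by
    intro u u' f f' h h' p hp
    rw [inner_add_right, inner_add_right, h p hp, h' p hp]
  have hsub : ∀ u u' f f', AdjR T u f → AdjR T u' f' → AdjR T (u - u') (f - f') := by
    intro u u' f f' h h' p hp
    rw [inner_sub_right, inner_sub_right, h p hp, h' p hp]
  have hsmul : ∀ (a : ℂ) u f, AdjR T u f → AdjR T (a • u) (a • f) := by
    intro a u f h p hp
    rw [inner_smul_right, inner_smul_right, h p hp]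
  have hzero : ∀ v, v ∈ Kᗮ → AdjR T v 0 := by
    intro v hv p hp
    have hpK : p.2 ∈ K := (hKmem _).2 (hST p.1 p.2 hp)
    rw [inner_zero_right]
    exact (Submodule.mem_orthogonal K v).1 hv p.2 hpK
  set g₁ : H1 := K.starProjection g with hg₁
  have hg₁K : g₁ ∈ K := Submodule.starProjection_apply_mem K g
  have hperp : ∀ u : H1, u - K.starProjection u ∈ Kᗮ := fun u =>
    Submodule.sub_starProjection_mem_orthogonal u
  -- estimate for the projected vector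
  have hest : ∀ u f', AdjR T u f' → ‖C (K.starProjection u)‖ ≤ ‖f'‖ := by
    intro u f' h
    have h1 : AdjR T (K.starProjection u) f' := by
      have := hsub _ _ _ _ h (hzero _ (hperp u))
      rwa [sub_sub_cancel, sub_zero] at this
    have h2 : (K.starProjection u, (0:H2)) ∈ S :=
      (hKmem _).1 (Submodule.starProjection_apply_mem K u)
    have h3 := hap _ _ _ h1 h2
    have h4 : ‖C (K.starProjection u)‖ ^ 2 ≤ ‖f'‖ ^ 2 := by simpa using h3
    exact le_of_sq_le_sq h4 (norm_nonneg _)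
  have hinn : ∀ u : H1, inner ℂ g₁ u = inner ℂ g₁ (K.starProjection u) := by
    intro u
    have h1 : inner ℂ g₁ (u - K.starProjection u) = 0 :=
      (Submodule.mem_orthogonal K _).1 (hperp u) g₁ hg₁K
    rw [inner_sub_right, sub_eq_zero] at h1
    exact h1
  have hbd : ∀ u f', AdjR T u f' → ‖(inner ℂ g₁ u : ℂ)‖ ≤ ‖Ci g₁‖ * ‖f'‖ := by
    intro u f' h
    rw [hinn u, hCC]
    have h1 := hest u f' h
    calc ‖(inner ℂ (Ci g₁) (C (K.starProjection u)) : ℂ)‖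
        ≤ ‖Ci g₁‖ * ‖C (K.starProjection u)‖ := norm_inner_le_norm _ _
      _ ≤ ‖Ci g₁‖ * ‖f'‖ := by
          apply mul_le_mul_of_nonneg_left h1
          positivity
  have hwd : ∀ u u' f', AdjR T u f' → AdjR T u' f' → (inner ℂ g₁ u : ℂ) = inner ℂ g₁ u' := by
    intro u u' f' h h'
    have h1 := hsub _ _ _ _ h h'
    rw [sub_self] at h1
    have h2 := hbd _ _ h1
    rw [norm_zero, mul_zero] at h2
    have h3 : (inner ℂ g₁ (u - u') : ℂ) = 0 := norm_le_zero_iff.1 h2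
    rw [inner_sub_right, sub_eq_zero] at h3
    exact h3
  let D : Submodule ℂ H0 :=
    { carrier := {f' | ∃ u, AdjR T u f'}
      add_mem' := by
        rintro a b ⟨u, hu⟩ ⟨v, hv⟩
        exact ⟨u + v, hadd _ _ _ _ hu hv⟩
      zero_mem' := ⟨0, fun p _ => by simp⟩
      smul_mem' := by
        rintro a f ⟨u, hu⟩
        exact ⟨a • u, hsmul a _ _ hu⟩ }
  have hch : ∀ x : D, ∃ u, AdjR T u (x : H0) := fun x => x.2
  choose U hU using hch
  let φ0 : D →ₗ[ℂ] ℂ :=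
    { toFun := fun x => inner ℂ g₁ (U x)
      map_add' := by
        intro x y
        have h1 : AdjR T (U x + U y) ((x + y : D) : H0) := by
          have := hadd _ _ _ _ (hU x) (hU y)
          simpa using this
        rw [hwd _ _ _ (hU (x + y)) h1, inner_add_right]
      map_smul' := by
        intro a x
        have h1 : AdjR T (a • U x) ((a • x : D) : H0) := by
          have := hsmul a _ _ (hU x)
          simpa using this
        rw [hwd _ _ _ (hU (a • x)) h1, inner_smul_right]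
        simp }
  have hφ0 : ∀ x : D, ‖φ0 x‖ ≤ ‖Ci g₁‖ * ‖x‖ := fun x => hbd _ _ (hU x)
  let φ : D →L[ℂ] ℂ := φ0.mkContinuous _ hφ0
  have hφn : ‖φ‖ ≤ ‖Ci g₁‖ := LinearMap.mkContinuous_norm_le φ0 (by positivity) hφ0
  obtain ⟨ψ, hψ, hψn⟩ := exists_extension_norm_eq D φ
  let f : H0 := (InnerProductSpace.toDual ℂ H0).symm ψ
  have hfn : ‖f‖ = ‖ψ‖ := (InnerProductSpace.toDual ℂ H0).symm.norm_map ψ
  have hff : ∀ x, inner ℂ f x = ψ x := fun x => InnerProductSpace.toDual_symm_apply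
  have hnf : ‖f‖ ≤ ‖Ci g₁‖ := by rw [hfn, hψn]; exact hφn
  refine ⟨f, g₁, ?_, ?_, ?_⟩
  · apply hbi
    intro u f' h
    have h1 : (inner ℂ f f' : ℂ) = inner ℂ g₁ u := by
      rw [hff]
      have h2 := hψ ⟨f', ⟨u, h⟩⟩
      have h3 : φ ⟨f', ⟨u, h⟩⟩ = inner ℂ g₁ (U ⟨f', ⟨u, h⟩⟩) := rfl
      rw [h3] at h2
      rw [hwd _ _ _ h (hU ⟨f', ⟨u, h⟩⟩)]
      exact h2
    rw [← inner_conj_symm u g₁, ← inner_conj_symm f' f, h1]
  · exact pow_le_pow_left₀ (norm_nonneg _) hnf 2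
  · have h1 : (g - g₁, ρ) ∈ S := by
      have h2 : (g₁, (0:H2)) ∈ S := (hKmem _).1 hg₁K
      have h3 := S.sub_mem hg h2
      simpa using h3
    have h4 := hap _ _ _ (hzero _ (hperp g)) h1
    have h5 : ‖C (g - g₁)‖ ^ 2 ≤ ‖ρ‖ ^ 2 := by simpa using h4
    exact (pow_le_pow_left₀ (norm_nonneg _) (hC1 _) 2).trans h5

end abs

section mulL

theorem mulL_memLp {s : E3 → ℝ} {M : ℝ} (hs : Measurable s) (hM : ∀ x, |s x| ≤ M) (u : LL) :
    MemLp (fun x => (s x : ℂ) * u x) 2 (volume : Measure E3) := by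
  refine MemLp.of_le_mul (c := M) (Lp.memLp u) ?_ ?_
  · exact (Complex.measurable_ofReal.comp hs).aestronglyMeasurable.mul
      (Lp.aestronglyMeasurable u)
  · refine Eventually.of_forall fun x => ?_
    rw [norm_mul, Complex.norm_real, Real.norm_eq_abs]
    exact mul_le_mul_of_nonneg_right (hM x) (norm_nonneg _)

variable {s : E3 → ℝ} {M : ℝ} (hs : Measurable s) (hM : ∀ x, |s x| ≤ M)

noncomputable def mulL (u : LL) : LL := (mulL_memLp hs hM u).toLp _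

theorem mulL_coe (u : LL) : (mulL hs hM u : E3 → ℂ) =ᵐ[volume] fun x => (s x : ℂ) * u x :=
  (mulL_memLp hs hM u).coeFn_toLp

theorem mulL_sub_le (a b : LL) : ‖mulL hs hM a - mulL hs hM b‖ ≤ M * ‖a - b‖ := by
  apply Lp.norm_le_mul_norm_of_ae_le_mul
  filter_upwards [Lp.coeFn_sub (mulL hs hM a) (mulL hs hM b), mulL_coe hs hM a, mulL_coe hs hM b,
    Lp.coeFn_sub a b] with x h1 h2 h3 h4
  rw [h1, h4, Pi.sub_apply, Pi.sub_apply, h2, h3, ← mul_sub, norm_mul, Complex.norm_real,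
    Real.norm_eq_abs]
  exact mul_le_mul_of_nonneg_right (hM x) (norm_nonneg _)

theorem mulL_norm_sq (u : LL) : ‖mulL hs hM u‖ ^ 2 = ∫ x, (s x) ^ 2 * ‖u x‖ ^ 2 := by
  rw [norm_sq_L]
  apply integral_congr_ae
  filter_upwards [mulL_coe hs hM u] with x hx
  rw [hx, norm_mul, Complex.norm_real, Real.norm_eq_abs, mul_pow, sq_abs]

include hs hM in
theorem mulL_int (u : LL) : Integrable (fun x => (s x) ^ 2 * ‖u x‖ ^ 2) := by
  have h := (mulL_memLp hs hM u).norm.integrable_sq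
  refine h.congr (Eventually.of_forall fun x => ?_)
  simp only [norm_mul, Complex.norm_real, Real.norm_eq_abs, mul_pow, sq_abs]

theorem le_mulL (h1 : ∀ x, 1 ≤ (s x) ^ 2) (u : LL) : ‖u‖ ≤ ‖mulL hs hM u‖ := by
  apply Lp.norm_le_norm_of_ae_le
  filter_upwards [mulL_coe hs hM u] with x hx
  rw [hx, norm_mul, Complex.norm_real, Real.norm_eq_abs]
  have : 1 ≤ |s x| := by
    have := h1 x
    rw [← sq_abs] at this
    nlinarith [abs_nonneg (s x)]
  nlinarith [norm_nonneg (u x)]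

theorem mulL_inner {s' : E3 → ℝ} {M' : ℝ} (hs' : Measurable s') (hM' : ∀ x, |s' x| ≤ M')
    (h1 : ∀ x, s' x * s x = 1) (a b : LL) :
    (inner ℂ a b : ℂ) = inner ℂ (mulL hs' hM' a) (mulL hs hM b) := by
  rw [L2.inner_def, L2.inner_def]
  apply integral_congr_ae
  filter_upwards [mulL_coe hs' hM' a, mulL_coe hs hM b] with x h2 h3
  rw [h2, h3]
  simp only [RCLike.inner_apply, map_mul, Complex.conj_ofReal]
  have h4 : ((s' x : ℂ)) * (s x : ℂ) = 1 := by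
    rw [← Complex.ofReal_mul, h1 x, Complex.ofReal_one]
  linear_combination (-(b x * (starRingEnd ℂ) (a x))) * h4

end mulL

noncomputable def mulF {s : E3 → ℝ} {M : ℝ} (hs : Measurable s) (hM : ∀ x, |s x| ≤ M)
    (u : DbarN.JWS2.JW2.FF) : DbarN.JWS2.JW2.FF := WithLp.toLp 2 fun j => mulL hs hM (u j)

theorem mulF_norm_sq {s : E3 → ℝ} {M : ℝ} (hs : Measurable s) (hM : ∀ x, |s x| ≤ M)
    (u : DbarN.JWS2.JW2.FF) : ‖mulF hs hM u‖ ^ 2 = ∑ j, ‖mulL hs hM (u j)‖ ^ 2 := by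
  rw [PiLp.norm_sq_eq_of_L2]
  rfl

theorem le_mulF {s : E3 → ℝ} {M : ℝ} (hs : Measurable s) (hM : ∀ x, |s x| ≤ M)
    (h1 : ∀ x, 1 ≤ (s x) ^ 2) (u : DbarN.JWS2.JW2.FF) : ‖u‖ ≤ ‖mulF hs hM u‖ := by
  refine le_of_sq_le_sq ?_ (norm_nonneg _)
  rw [mulF_norm_sq, PiLp.norm_sq_eq_of_L2]
  exact Finset.sum_le_sum fun j _ =>
    pow_le_pow_left₀ (norm_nonneg _) (le_mulL hs hM h1 (u j)) 2

theorem mulF_inner {s : E3 → ℝ} {M : ℝ} (hs : Measurable s) (hM : ∀ x, |s x| ≤ M)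
    {s' : E3 → ℝ} {M' : ℝ} (hs' : Measurable s') (hM' : ∀ x, |s' x| ≤ M')
    (h1 : ∀ x, s' x * s x = 1) (a b : DbarN.JWS2.JW2.FF) :
    (inner ℂ a b : ℂ) = inner ℂ (mulF hs' hM' a) (mulF hs hM b) := by
  rw [PiLp.inner_apply, PiLp.inner_apply]
  exact Finset.sum_congr rfl fun j _ => mulL_inner hs hM hs' hM' h1 (a j) (b j)

theorem aprioriV (hF : Friedrichs_stmt) (hK : Kohn2V_stmt) (Φ : E3 → ℝ) (hΦ : ContDiff ℝ ∞ Φ)
    (c : E3 → ℝ) (B : ℝ) (hcm : Measurable c) (hc1 : ∀ x, 1 ≤ c x) (hcB : ∀ x, c x ≤ B)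
    (hc : HPos2V Φ c) {s : E3 → ℝ} {M : ℝ} (hs : Measurable s) (hM : ∀ x, |s x| ≤ M)
    (hsc : ∀ x, (s x) ^ 2 = c x) (u f : DbarN.JWS2.JW2.FF) (ρ : LL)
    (hu : AdjR (TT Φ hΦ) u f) (hρ : (u, ρ) ∈ SS Φ hΦ) :
    ‖mulF hs hM u‖ ^ 2 ≤ ‖f‖ ^ 2 + ‖ρ‖ ^ 2 := by
  have hpos : ∀ m : ℕ, (0 : ℝ) < 1 / ((m : ℝ) + 1) := fun m => by positivity
  choose G hG h1 h2 h3 using fun m : ℕ => approx hF Φ hΦ u f ρ hu hρ _ (hpos m)
  choose t2 h2 using h2
  choose t3 h3 using h3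
  have hz : Tendsto (fun m : ℕ => 1 / ((m : ℝ) + 1)) atTop (𝓝 0) :=
    tendsto_one_div_add_atTop_nhds_zero_nat
  have lim0 : ∀ (a : ℕ → LL) (b : LL), (∀ m, ‖a m - b‖ < 1 / ((m : ℝ) + 1)) →
      Tendsto a atTop (𝓝 b) := by
    intro a b hab
    rw [tendsto_iff_norm_sub_tendsto_zero]
    exact squeeze_zero (fun m => norm_nonneg _) (fun m => (hab m).le) hz
  have lim : ∀ (a : ℕ → LL) (b : LL), (∀ m, ‖a m - b‖ < 1 / ((m : ℝ) + 1)) →
      Tendsto (fun m => ‖a m‖ ^ 2) atTop (𝓝 (‖b‖ ^ 2)) := by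
    intro a b hab
    exact (lim0 a b hab).norm.pow 2
  have L1 : ∀ i : Fin 3, Tendsto (fun m => ‖mulL hs hM (tl (G m i) (hG m i))‖ ^ 2) atTop
      (𝓝 (‖mulL hs hM (u i)‖ ^ 2)) := by
    intro i
    have h0 := lim0 (fun m => tl (G m i) (hG m i)) (u i) (fun m => h1 m i)
    have hz' : Tendsto (fun m => M * ‖tl (G m i) (hG m i) - u i‖) atTop (𝓝 0) := by
      have := ((tendsto_iff_norm_sub_tendsto_zero).1 h0).const_mul M
      simpa using this
    have : Tendsto (fun m => mulL hs hM (tl (G m i) (hG m i))) atTop (𝓝 (mulL hs hM (u i))) := by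
      rw [tendsto_iff_norm_sub_tendsto_zero]
      exact squeeze_zero (fun m => norm_nonneg _) (fun m => mulL_sub_le hs hM _ _) hz'
    exact this.norm.pow 2
  have L2 := fun k : Fin 3 => lim (fun m => tl _ (t2 m k)) (f k) (fun m => h2 m k)
  have L3 := lim (fun m => tl _ (t3 m)) ρ h3
  have A1 : Tendsto (fun m => ∑ i, ‖mulL hs hM (tl (G m i) (hG m i))‖ ^ 2) atTop
      (𝓝 (∑ i, ‖mulL hs hM (u i)‖ ^ 2)) := tendsto_finsetSum _ fun i _ => L1 i
  have A2 : Tendsto (fun m => ‖tl _ (t3 m)‖ ^ 2 + ∑ k, ‖tl _ (t2 m k)‖ ^ 2) atTop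
      (𝓝 (‖ρ‖ ^ 2 + ∑ k, ‖f k‖ ^ 2)) := L3.add (tendsto_finsetSum _ fun i _ => L2 i)
  have A3 : ∀ m, ∑ i, ‖mulL hs hM (tl (G m i) (hG m i))‖ ^ 2 ≤
      ‖tl _ (t3 m)‖ ^ 2 + ∑ k, ‖tl _ (t2 m k)‖ ^ 2 := by
    intro m
    have e1 : ∑ i, ‖mulL hs hM (tl (G m i) (hG m i))‖ ^ 2 =
        ∫ x, c x * ∑ j, ‖G m j x‖ ^ 2 := by
      have e2 : ∀ i, ‖mulL hs hM (tl (G m i) (hG m i))‖ ^ 2 = ∫ x, c x * ‖G m i x‖ ^ 2 := by
        intro i
        rw [mulL_norm_sq]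
        apply integral_congr_ae
        filter_upwards [tl_coe (hG m i)] with x hx
        rw [hx, hsc]
      have e3 : ∀ i, Integrable (fun x => c x * ‖G m i x‖ ^ 2) := by
        intro i
        refine (mulL_int hs hM (tl (G m i) (hG m i))).congr ?_
        filter_upwards [tl_coe (hG m i)] with x hx
        rw [hx, hsc]
      simp only [e2]
      rw [← integral_finsetSum _ (fun i _ => e3 i)]
      congr 1
      funext x
      rw [Finset.mul_sum]
    rw [e1]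
    simp only [norm_tl]
    exact hK Φ hΦ c B hcm hc1 hcB hc (G m) (hG m)
  have := le_of_tendsto_of_tendsto' A1 A2 A3
  rw [mulF_norm_sq, PiLp.norm_sq_eq_of_L2]
  linarith

end JV

open JV DbarN.JWS2.JW2

theorem ws2V (hF : Friedrichs_stmt) (hK : Kohn2V_stmt) : WS2V_stmt := by
  intro Φ hΦ c B hcm hc1 hcB hH g hg
  -- the multiplier
  have hc0 : ∀ x, 0 < c x := fun x => lt_of_lt_of_le one_pos (hc1 x)
  have hB : 1 ≤ B := (hc1 0).trans (hcB 0)
  have hs : Measurable (fun x => Real.sqrt (c x)) := hcm.sqrt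
  have hM : ∀ x, |Real.sqrt (c x)| ≤ Real.sqrt B := by
    intro x
    rw [abs_of_nonneg (Real.sqrt_nonneg _)]
    exact Real.sqrt_le_sqrt (hcB x)
  have hsc : ∀ x, (Real.sqrt (c x)) ^ 2 = c x := fun x => Real.sq_sqrt (hc0 x).le
  have hs' : Measurable (fun x => (Real.sqrt (c x))⁻¹) := hs.inv
  have hs1 : ∀ x, 1 ≤ Real.sqrt (c x) := fun x => Real.one_le_sqrt.2 (hc1 x)
  have hM' : ∀ x, |(Real.sqrt (c x))⁻¹| ≤ 1 := by
    intro x
    rw [abs_of_nonneg (inv_nonneg.2 (Real.sqrt_nonneg _))]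
    exact inv_le_one_of_one_le₀ (hs1 x)
  have hss : ∀ x, (Real.sqrt (c x))⁻¹ * Real.sqrt (c x) = 1 := fun x =>
    inv_mul_cancel₀ (by linarith [hs1 x])
  -- the data
  have hgt : ∀ j, IsTest Set.univ (fun x => Ex Φ (-(1 / 2)) x * g j x) := fun j =>
    k2_mul_test (Ex_smooth hΦ _) (hg j)
  have hAt : ∀ j, IsTest Set.univ (AA Φ j (fun x => Ex Φ (-(1 / 2)) x * g j x)) := fun j =>
    k2_AA_test hΦ j (hgt j)
  have hρt : IsTest Set.univ (fun x => ∑ j, AA Φ j (fun x => Ex Φ (-(1 / 2)) x * g j x) x) := by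
    simp only [Fin.sum_univ_three]
    exact k2_test (((hAt 0).smooth.add (hAt 1).smooth).add (hAt 2).smooth)
        (((hAt 0).compact.add (hAt 1).compact).add (hAt 2).compact)
  set gt : DbarN.JWS2.JW2.FF := WithLp.toLp 2 fun j => tl _ (hgt j) with hgt_def
  set ρ : LL := tl _ hρt with hρ_def
  have hmem : (gt, ρ) ∈ SS Φ hΦ := by
    rw [mem_SS]
    intro φ hφ
    have e1 : ∀ i, ∫ x, gt i x * AT' Φ i φ x =
        ∫ x, AA Φ i (fun x => Ex Φ (-(1 / 2)) x * g i x) x * φ x := by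
      intro i
      rw [← AT_ibp hΦ (hgt i) hφ]
      apply integral_congr_ae
      filter_upwards [tl_coe (hgt i)] with x hx
      rw [hgt_def]
      exact congrArg (· * AT' Φ i φ x) hx
    have e2 : ∫ x, ρ x * φ x =
        ∫ x, (∑ j, AA Φ j (fun x => Ex Φ (-(1 / 2)) x * g j x) x) * φ x := by
      apply integral_congr_ae
      filter_upwards [tl_coe hρt] with x hx
      rw [hρ_def, hx]
    simp only [e1]
    rw [e2, ← integral_finsetSum _ (fun i _ => k2_int (k2_mul_test (hAt i).smooth hφ))]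
    congr 1
    funext x
    rw [Finset.sum_mul]
  obtain ⟨vt, g1, hT, hn1, hn2⟩ := solve_V (TT Φ hΦ) (SS Φ hΦ) (SS_closed Φ hΦ)
    (JA0.biadj (TT Φ hΦ) (TT_closed Φ hΦ)) (hST Φ hΦ) (mulF hs hM) (mulF hs' hM')
    (le_mulF hs hM (fun x => by rw [hsc]; exact hc1 x)) (mulF_inner hs hM hs' hM' hss)
    (fun u f ρ hu hρ => aprioriV hF hK Φ hΦ c B hcm hc1 hcB hH hs hM hsc u f ρ hu hρ) gt ρ hmem
  rw [mem_TT] at hT
  have hv : ∀ (a : E3 → ℂ) x, a x * Ex Φ (1 / 2) x * (Real.exp (-Φ x / 2) : ℝ) = a x := by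
    intro a x
    rw [mul_assoc, Ex_inv, mul_one]
  have he : ∀ j x, (g j x - g1 j x * Ex Φ (1 / 2) x) * (Real.exp (-Φ x / 2) : ℝ) =
      Ex Φ (-(1 / 2)) x * g j x - g1 j x := by
    intro j x
    rw [sub_mul, hv, Ex_neg]
    ring
  refine ⟨fun j x => vt j x * Ex Φ (1 / 2) x, fun j x => g j x - g1 j x * Ex Φ (1 / 2) x,
    ?_, ?_, ?_, ?_, ?_⟩
  · intro j
    simp only [hv]
    exact Lp.memLp (vt j)
  · intro j
    simp only [he]
    exact (test_memLp (hgt j)).sub (Lp.memLp (g1 j))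
  · intro i φ hφ
    have hψ : IsTest Set.univ (fun x => Ex Φ (1 / 2) x * φ x) :=
      k2_mul_test (Ex_smooth hΦ _) hφ
    have h := hT i _ hψ
    rw [← integral_sub (mul_int (AT_test hΦ _ hψ) _) (mul_int (AT_test hΦ _ hψ) _)] at h
    simp only [AT_Ex hΦ hφ.smooth] at h
    have e1 : ∫ x, (vt (i + 2) x * Ex Φ (1 / 2) x * dbar (i + 1) φ x -
        vt (i + 1) x * Ex Φ (1 / 2) x * dbar (i + 2) φ x) =
        - ∫ x, (vt (i + 2) x * -(Ex Φ (1 / 2) x * dbar (i + 1) φ x) -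
        vt (i + 1) x * -(Ex Φ (1 / 2) x * dbar (i + 2) φ x)) := by
      rw [← integral_neg]
      congr 1
      funext x
      ring
    rw [e1, h]
    congr 2
    funext x
    ring
  · have e1 : ∀ j, ∫ x, ‖vt j x * Ex Φ (1 / 2) x‖ ^ 2 * Real.exp (-Φ x) = ‖vt j‖ ^ 2 := by
      intro j
      rw [norm_sq_L]
      congr 1
      funext x
      rw [← sq_exp, hv]
    have e2 : ∫ x, (∑ j, ‖g j x - (g j x - g1 j x * Ex Φ (1 / 2) x)‖ ^ 2) / c x *
        Real.exp (-Φ x) = ‖mulF hs' hM' g1‖ ^ 2 := by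
      rw [mulF_norm_sq]
      simp only [mulL_norm_sq]
      rw [← integral_finsetSum _ (fun i _ => mulL_int hs' hM' (g1 i))]
      congr 1
      funext x
      rw [Finset.sum_div, Finset.sum_mul]
      apply Finset.sum_congr rfl
      intro j _
      rw [sub_sub_cancel, div_mul_eq_mul_div, ← sq_exp, hv, inv_pow, hsc]
      ring
    simp only [e1]
    rw [e2, ← PiLp.norm_sq_eq_of_L2]
    exact hn1
  · have e1 : ∀ j, ∫ x, ‖g j x - g1 j x * Ex Φ (1 / 2) x‖ ^ 2 * Real.exp (-Φ x) =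
        ‖(gt - g1) j‖ ^ 2 := by
      intro j
      rw [norm_sq_L]
      apply integral_congr_ae
      have h1 : ((gt - g1) j : LL) = gt j - g1 j := rfl
      rw [h1]
      filter_upwards [Lp.coeFn_sub (gt j) (g1 j), tl_coe (hgt j)] with x hx hx2
      rw [← sq_exp, he, hx, Pi.sub_apply]
      congr 3
      exact hx2.symm
    have e2 : ∫ x, ‖∑ j, dbar j (g j) x‖ ^ 2 * Real.exp (-Φ x) = ‖ρ‖ ^ 2 := by
      rw [hρ_def, norm_tl]
      congr 1
      funext x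
      rw [← sq_exp]
      simp only [AA_Ex hΦ (hg _).smooth]
      rw [← Finset.mul_sum, Ex_neg, mul_comm]
    simp only [e1]
    rw [e2]
    rw [PiLp.norm_sq_eq_of_L2] at hn2
    exact hn2

end DbarC.JWV
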