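import Pool.Agent.H314.DC.St1

set_option autoImplicit false

open MeasureTheory Complex Filter Topology
open scoped ContDiff InnerProductSpace ENNReal ComplexConjugate

namespace DbarC.JZF
open DbarN


theorem zf_norm_sq_toLp {μ : Measure E3} {F : E3 → ℂ} (hF : MemLp F 2 μ) :
    ‖hF.toLp F‖ ^ 2 = ∫ x, ‖F x‖ ^ 2 ∂μ := by
  have h1 : (inner ℂ (hF.toLp F) (hF.toLp F) : ℂ) = ((∫ x, ‖F x‖ ^ 2 ∂μ : ℝ) : ℂ) := by
    rw [L2.inner_def, ← integral_complex_ofReal]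
    apply integral_congr_ae
    filter_upwards [hF.coeFn_toLp] with x hx
    rw [hx, inner_self_eq_norm_sq_to_K]
    push_cast; rfl
  rw [inner_self_eq_norm_sq_to_K] at h1
  have h2 : ((‖hF.toLp F‖ ^ 2 : ℝ) : ℂ) = ((∫ x, ‖F x‖ ^ 2 ∂μ : ℝ) : ℂ) := by
    rw [← h1]; push_cast; rfl
  exact Complex.ofReal_injective h2

theorem zf_memLp_test {Ω : Set E3} {F : E3 → ℂ} (hF : IsTest Set.univ F) :
    MemLp F 2 (volume.restrict Ω) :=
  (hF.smooth.continuous.memLp_of_hasCompactSupport hF.compact).restrict Ω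

/-- approximations converge in `L²` -/
theorem zf_tends (Ω : Set E3) (u : L2 Ω) (M : ℕ → E3 → ℂ) (hM : ∀ n, MemLp (M n) 2 (volume.restrict Ω))
    (h : Tendsto (fun n => eLpNorm (M n - (u : E3 → ℂ)) 2 (volume.restrict Ω)) atTop (𝓝 0)) :
    Tendsto (fun n => ‖(hM n).toLp (M n) - u‖) atTop (𝓝 0) := by
  have h2 : ∀ n, ‖(hM n).toLp (M n) - u‖ = (eLpNorm (M n - (u : E3 → ℂ)) 2 (volume.restrict Ω)).toReal := by
    intro n
    have e : (hM n).toLp (M n) - u = ((hM n).sub (Lp.memLp u)).toLp (M n - (u : E3 → ℂ)) := by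
      rw [MemLp.toLp_sub (hM n) (Lp.memLp u), Lp.toLp_coeFn]
    rw [e, Lp.norm_toLp]
  simp only [h2]
  have := (ENNReal.tendsto_toReal ENNReal.zero_ne_top).comp h
  rw [ENNReal.toReal_zero] at this
  exact this

theorem zf_cs {μ : Measure E3} {u v : E3 → ℂ} (hu : MemLp u 2 μ) (hv : MemLp v 2 μ) :
    ‖∫ x, inner ℂ (u x) (v x) ∂μ‖ ≤
      Real.sqrt (∫ x, ‖u x‖ ^ 2 ∂μ) * Real.sqrt (∫ x, ‖v x‖ ^ 2 ∂μ) := by
  have h1 : inner ℂ (hu.toLp u) (hv.toLp v) = ∫ x, inner ℂ (u x) (v x) ∂μ := by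
    rw [L2.inner_def]
    apply integral_congr_ae
    filter_upwards [hu.coeFn_toLp, hv.coeFn_toLp] with x h1 h2
    rw [h1, h2]
  rw [← h1, ← zf_norm_sq_toLp hu, ← zf_norm_sq_toLp hv, Real.sqrt_sq (norm_nonneg _),
    Real.sqrt_sq (norm_nonneg _)]
  exact norm_inner_le_norm _ _

theorem zf_norm_sq {Ω : Set E3} (f : L2 Ω) : ‖f‖ ^ 2 = ∫ x in Ω, ‖f x‖ ^ 2 := by
  have h := zf_norm_sq_toLp (Lp.memLp f)
  rwa [Lp.toLp_coeFn] at h

/-- splitting of the inner product over `K` and its complement -/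
theorem zf_split {Ω K : Set E3} (hK : MeasurableSet K) (hKΩ : K ⊆ Ω) {w : E3 → ℂ}
    (hw : MemLp w 2 (volume.restrict Ω)) (f : L2 Ω) :
    ‖inner ℂ (hw.toLp w) f‖ ≤
      Real.sqrt (∫ x in K, ‖w x‖ ^ 2) * Real.sqrt (∫ x in K, ‖f x‖ ^ 2) +
      Real.sqrt (∫ x in Ω \ K, ‖w x‖ ^ 2) * Real.sqrt (∫ x in Ω \ K, ‖f x‖ ^ 2) := by
  have hi : IntegrableOn (fun x => inner ℂ (w x) (f x)) Ω volume := by
    have h1 := L2.integrable_inner (𝕜 := ℂ) (hw.toLp w) f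
    refine h1.congr ?_
    filter_upwards [hw.coeFn_toLp] with x hx
    rw [hx]
  have h1 : inner ℂ (hw.toLp w) f = ∫ x in Ω, inner ℂ (w x) (f x) := by
    rw [L2.inner_def]
    apply integral_congr_ae
    filter_upwards [hw.coeFn_toLp] with x hx
    rw [hx]
  have h2 := integral_inter_add_sdiff hK hi
  rw [Set.inter_eq_self_of_subset_right hKΩ] at h2
  rw [h1, ← h2]
  refine (norm_add_le _ _).trans (add_le_add ?_ ?_)
  · exact zf_cs (hw.mono_measure (Measure.restrict_mono hKΩ le_rfl))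
      ((Lp.memLp f).mono_measure (Measure.restrict_mono hKΩ le_rfl))
  · exact zf_cs (hw.mono_measure (Measure.restrict_mono Set.sdiff_subset le_rfl))
      ((Lp.memLp f).mono_measure (Measure.restrict_mono Set.sdiff_subset le_rfl))

theorem zf_mode (hM : MollS_stmt) (Ω : Set E3) (ho : IsOpen Ω)
    (hs : StarS Ω) (hb : Bornology.IsBounded Ω) (h0 : (0 : E3) ∈ Ω)
    (hR : ∀ θ₁ θ₂ x, rot θ₁ θ₂ x ∈ Ω ↔ x ∈ Ω) (C0 η' : ℝ) (hC0 : 0 ≤ C0) (hη' : 0 < η')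
    (K : Set E3) (hK : IsCompact K) (hKΩ : K ⊆ Ω) (j k : ℤ)
    (H : ∀ F : E3 → ℂ, ContDiff ℝ ∞ F → IsModeFn j k F → ∃ h : E3 → ℂ,
      MemLp h 2 (volume.restrict Ω) ∧
      (∀ (i : Fin 3) φ, IsTest Ω φ → ∫ x in Ω, h x * dbar i φ x = 0) ∧
      ∫ x in Ω, ‖F x - h x‖ ^ 2 ≤ C0 * ∑ i, ∫ x in Ω, ‖dbar i F x‖ ^ 2 ∧
      ∫ x in Ω \ K, ‖F x - h x‖ ^ 2 ≤ η' * ∑ i, ∫ x in Ω, ‖dbar i F x‖ ^ 2)
    (f' : L2 Ω) (g' : Form Ω) (hD' : IsDbar0 Ω f' g')
    (hmode : ∀ θ₁ θ₂ : ℝ, ∀ᵐ x ∂(volume.restrict Ω),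
      f' (rot θ₁ θ₂ x) = Complex.exp (I * (j * θ₁ + k * θ₂)) * f' x)
    (hperp : ∀ h : L2 Ω, IsDbar0 Ω h 0 → inner ℂ h f' = 0) :
    ‖f'‖ ^ 2 ≤ Real.sqrt C0 * Real.sqrt (∫ x in K, ‖f' x‖ ^ 2) * ‖g'‖ +
      Real.sqrt η' * ‖f'‖ * ‖g'‖ := by
  obtain ⟨M, r, B, hr1, hr2, hM1, hM2, hM3⟩ := hM Ω ho hs hb h0
  have mf : MemLp f' 2 (volume.restrict Ω) := Lp.memLp f'
  have mg : ∀ i, MemLp (g' i) 2 (volume.restrict Ω) := fun i => Lp.memLp (g' i)
  obtain ⟨tf, -, cf, -⟩ := hM1 f' mf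
  have tg : ∀ i, ∀ n, IsTest Set.univ (M n (g' i)) := fun i => (hM1 (g' i) (mg i)).1
  have cg : ∀ i, Tendsto (fun n => eLpNorm (M n (g' i) - (g' i : E3 → ℂ)) 2 (volume.restrict Ω)) atTop (𝓝 0) :=
    fun i => (hM1 (g' i) (mg i)).2.2.1
  -- mode
  have hmF : ∀ n, IsModeFn j k (M n f') := by
    intro n θ₁ θ₂ x
    exact hM3 n θ₁ θ₂ _ f' (hR θ₁ θ₂) mf (hmode θ₁ θ₂) x
  -- derivative
  have hdb : ∀ n i, ∀ x ∈ Ω, dbar i (M n f') x = (r n : ℂ) * M n (g' i) x := by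
    intro n i x hx
    obtain ⟨U, hU, hΩU, hU2⟩ := hM2 n
    have h1 := hU2 (fun i' j' => if i' = 0 ∧ j' = i then 1 else 0) (fun _ => f') (g' i)
      (fun _ => mf) (mg i) ?_ x (hΩU (subset_closure hx))
    · rw [← h1]
      rw [Finset.sum_eq_single 0]
      · rw [Finset.sum_eq_single i]
        · simp
        · intro b _ hb; simp [hb]
        · simp
      · intro b _ hb; simp [hb]
      · simp
    · intro φ hφ
      rw [← hD' i φ hφ]
      congr 1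
      ext y
      rw [Finset.sum_eq_single 0]
      · rw [Finset.sum_eq_single i]
        · simp
        · intro b _ hb; simp [hb]
        · simp
      · intro b _ hb; simp [hb]
      · simp
  have mF : ∀ n, MemLp (M n f') 2 (volume.restrict Ω) := fun n => zf_memLp_test (tf n)
  have mG : ∀ i n, MemLp (M n (g' i)) 2 (volume.restrict Ω) := fun i n => zf_memLp_test (tg i n)
  -- the size of the data
  obtain ⟨D, hDdef⟩ : ∃ D : ℕ → ℝ, D = fun n => ∑ i, (r n) ^ 2 * ‖(mG i n).toLp (M n (g' i))‖ ^ 2 :=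
    ⟨_, rfl⟩
  have hDn : ∀ n, ∑ i, ∫ x in Ω, ‖dbar i (M n f') x‖ ^ 2 = D n := by
    intro n
    rw [hDdef]
    refine Finset.sum_congr rfl fun i _ => ?_
    rw [zf_norm_sq_toLp, ← integral_const_mul]
    apply setIntegral_congr_fun ho.measurableSet
    intro x hx
    simp only
    rw [hdb n i x hx, norm_mul, mul_pow]
    congr 1
    simp
  have hD0 : ∀ n, 0 ≤ D n := fun n => by
    rw [hDdef]
    exact Finset.sum_nonneg fun i _ => by positivity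
  -- key inequality
  have key : ∀ n, ‖f'‖ ^ 2 ≤ ‖(mF n).toLp (M n f') - f'‖ * ‖f'‖ +
      (Real.sqrt C0 * Real.sqrt (D n) * Real.sqrt (∫ x in K, ‖f' x‖ ^ 2) +
        Real.sqrt η' * Real.sqrt (D n) * ‖f'‖) := by
    intro n
    obtain ⟨h, mh, hk, hi, hi2⟩ := H (M n f') (tf n).smooth (hmF n)
    rw [hDn] at hi hi2
    have horth : inner ℂ (mh.toLp h) f' = (0 : ℂ) := by
      refine hperp _ ?_
      intro i φ hφ
      have e1 : ∫ x in Ω, (mh.toLp h) x * dbar i φ x = ∫ x in Ω, h x * dbar i φ x := by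
        apply integral_congr_ae
        filter_upwards [mh.coeFn_toLp] with x hx
        rw [hx]
      have e2 : ∫ x in Ω, (0 : Form Ω) i x * φ x = 0 := by
        have : ∫ x in Ω, (0 : Form Ω) i x * φ x = ∫ x in Ω, (0:ℂ) := by
          apply integral_congr_ae
          have h0 : (0 : Form Ω) i = (0 : L2 Ω) := rfl
          rw [h0]
          filter_upwards [Lp.coeFn_zero ℂ 2 (volume.restrict Ω)] with x hx
          rw [hx]; simp
        rw [this]; simp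
      rw [e1, e2, hk i φ hφ, neg_zero]
    have mw : MemLp (fun x => M n f' x - h x) 2 (volume.restrict Ω) := (mF n).sub mh
    have ew : mw.toLp (fun x => M n f' x - h x) = (mF n).toLp (M n f') - mh.toLp h :=
      MemLp.toLp_sub (mF n) mh
    have hsp := zf_split hK.measurableSet hKΩ mw f'
    -- the two parts
    have b1 : Real.sqrt (∫ x in K, ‖M n f' x - h x‖ ^ 2) ≤ Real.sqrt C0 * Real.sqrt (D n) := by
      rw [← Real.sqrt_mul hC0]
      refine Real.sqrt_le_sqrt (le_trans ?_ hi)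
      refine setIntegral_mono_set ?_ ?_ ?_
      · exact (mw.integrable_norm_pow (by norm_num))
      · exact Filter.Eventually.of_forall fun x => by positivity
      · exact Filter.Eventually.of_forall hKΩ
    have b2 : Real.sqrt (∫ x in Ω \ K, ‖M n f' x - h x‖ ^ 2) ≤
        Real.sqrt η' * Real.sqrt (D n) := by
      rw [← Real.sqrt_mul hη'.le]
      exact Real.sqrt_le_sqrt hi2
    have b3 : Real.sqrt (∫ x in Ω \ K, ‖f' x‖ ^ 2) ≤ ‖f'‖ := by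
      rw [← Real.sqrt_sq (norm_nonneg f'), zf_norm_sq]
      refine Real.sqrt_le_sqrt ?_
      refine setIntegral_mono_set ?_ ?_ ?_
      · exact ((Lp.memLp f').integrable_norm_pow (by norm_num))
      · exact Filter.Eventually.of_forall fun x => by positivity
      · exact Filter.Eventually.of_forall Set.sdiff_subset
    have hid : ((‖f'‖ ^ 2 : ℝ) : ℂ) = -inner ℂ ((mF n).toLp (M n f') - f') f' +
        inner ℂ (mw.toLp (fun x => M n f' x - h x)) f' := by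
      rw [ew, inner_sub_left, inner_sub_left, horth, inner_self_eq_norm_sq_to_K]
      push_cast
      ring_nf
      rfl
    have hn : ‖f'‖ ^ 2 ≤ ‖(mF n).toLp (M n f') - f'‖ * ‖f'‖ +
        ‖inner ℂ (mw.toLp (fun x => M n f' x - h x)) f'‖ := by
      have h1 : ‖f'‖ ^ 2 = ‖((‖f'‖ ^ 2 : ℝ) : ℂ)‖ := by
        rw [Complex.norm_real, Real.norm_of_nonneg (by positivity)]
      rw [h1, hid]
      refine (norm_add_le _ _).trans (add_le_add ?_ le_rfl)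
      rw [norm_neg]
      exact norm_inner_le_norm _ _
    refine hn.trans (add_le_add le_rfl (hsp.trans (add_le_add ?_ ?_)))
    · exact mul_le_mul_of_nonneg_right b1 (Real.sqrt_nonneg _)
    · exact mul_le_mul b2 b3 (Real.sqrt_nonneg _)
        (mul_nonneg (Real.sqrt_nonneg _) (Real.sqrt_nonneg _))
  -- limits
  have L1 := zf_tends Ω f' (fun n => M n f') mF cf
  have L2' : ∀ i, Tendsto (fun n => ‖(mG i n).toLp (M n (g' i))‖) atTop (𝓝 ‖g' i‖) := by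
    intro i
    have h1 := zf_tends Ω (g' i) (fun n => M n (g' i)) (mG i) (cg i)
    have h2 := tendsto_iff_norm_sub_tendsto_zero.mpr h1
    exact h2.norm
  have L3 : Tendsto D atTop (𝓝 (∑ i, 1 ^ 2 * ‖g' i‖ ^ 2)) := by
    rw [hDdef]
    exact tendsto_finsetSum _ (fun i _ => (hr1.pow 2).mul ((L2' i).pow 2))
  have hgs : ‖g'‖ ^ 2 = ∑ i, ‖g' i‖ ^ 2 := by
    rw [PiLp.norm_sq_eq_of_L2]
  have L4 : Tendsto (fun n => Real.sqrt (D n)) atTop (𝓝 ‖g'‖) := by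
    have h1 := (Real.continuous_sqrt.tendsto _).comp L3
    simp only [one_pow, one_mul] at h1
    rw [← hgs, Real.sqrt_sq (norm_nonneg _)] at h1
    exact h1
  have L5 : Tendsto (fun n => ‖(mF n).toLp (M n f') - f'‖ * ‖f'‖ +
      (Real.sqrt C0 * Real.sqrt (D n) * Real.sqrt (∫ x in K, ‖f' x‖ ^ 2) +
        Real.sqrt η' * Real.sqrt (D n) * ‖f'‖)) atTop
      (𝓝 (0 * ‖f'‖ + (Real.sqrt C0 * ‖g'‖ * Real.sqrt (∫ x in K, ‖f' x‖ ^ 2) +
        Real.sqrt η' * ‖g'‖ * ‖f'‖))) :=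
    (L1.mul_const _).add (((L4.const_mul _).mul_const _).add ((L4.const_mul _).mul_const _))
  have hfin := ge_of_tendsto' L5 key
  calc ‖f'‖ ^ 2 ≤ _ := hfin
    _ = _ := by ring

theorem fi1 (hZ : ZM_stmt) (hM : MollS_stmt) (Ω : Set E3) (ho : IsOpen Ω)
    (hs : StarS Ω) (hb : Bornology.IsBounded Ω) (h0 : (0 : E3) ∈ Ω)
    (hR : ∀ θ₁ θ₂ x, rot θ₁ θ₂ x ∈ Ω ↔ x ∈ Ω) (hT : TL_prop Ω (fun _ _ => True)) :
    FI1_prop Ω := by
  intro η hη
  obtain ⟨C0, hC0, hT'⟩ := hT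
  obtain ⟨K, hK, hKΩ, hKR, HK⟩ := hT' (η ^ 2) (by positivity)
  refine ⟨K, Real.sqrt C0, hK, hKΩ, Real.sqrt_nonneg _, fun f g hfg hperp => ?_⟩
  obtain ⟨F, hFm, hFs, hFg, hFo⟩ := hZ Ω ho hR f
  obtain ⟨G, hG1, hG2⟩ := hFg g hfg
  have hFo' := hFo hperp
  have sΩ := hFs Ω ho.measurableSet subset_rfl hR
  have sK := hFs K hK.measurableSet hKΩ hKR
  rw [← zf_norm_sq] at sΩ
  have hη2 : Real.sqrt (η ^ 2) = η := Real.sqrt_sq hη.le
  have hone : ∀ p : ℤ × ℤ, ∫ x in Ω, ‖F p.1 p.2 x‖ ^ 2 ≤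
      Real.sqrt C0 * (Real.sqrt (∫ x in K, ‖F p.1 p.2 x‖ ^ 2) * ‖G p.1 p.2‖) +
      η * (Real.sqrt (∫ x in Ω, ‖F p.1 p.2 x‖ ^ 2) * ‖G p.1 p.2‖) := by
    intro p
    have h1 := zf_mode hM Ω ho hs hb h0 hR C0 (η ^ 2) hC0 (by positivity) K hK hKΩ p.1 p.2
      (HK p.1 p.2 trivial) (F p.1 p.2) (G p.1 p.2) (hG1 p.1 p.2) (hFm p.1 p.2)
      (hFo' p.1 p.2)
    rw [hη2] at h1
    rw [← zf_norm_sq, Real.sqrt_sq (norm_nonneg _)]
    linarith
  refine hasSum_le_of_sum_le sΩ fun s => ?_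
  refine (Finset.sum_le_sum fun p _ => hone p).trans ?_
  rw [Finset.sum_add_distrib, ← Finset.mul_sum, ← Finset.mul_sum]
  have hgle : Real.sqrt (∑ p ∈ s, ‖G p.1 p.2‖ ^ 2) ≤ ‖g‖ := by
    rw [← Real.sqrt_sq (norm_nonneg g)]
    exact Real.sqrt_le_sqrt (sum_le_hasSum s (fun p _ => by positivity) hG2)
  have e1 : ∑ p ∈ s, Real.sqrt (∫ x in K, ‖F p.1 p.2 x‖ ^ 2) * ‖G p.1 p.2‖ ≤
      Real.sqrt (∫ x in K, ‖f x‖ ^ 2) * ‖g‖ := by
    refine (Real.sum_mul_le_sqrt_mul_sqrt s _ _).trans ?_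
    refine mul_le_mul ?_ hgle (Real.sqrt_nonneg _) (Real.sqrt_nonneg _)
    refine Real.sqrt_le_sqrt ?_
    have : ∀ p : ℤ × ℤ, Real.sqrt (∫ x in K, ‖F p.1 p.2 x‖ ^ 2) ^ 2 =
        ∫ x in K, ‖F p.1 p.2 x‖ ^ 2 := fun p =>
      Real.sq_sqrt (integral_nonneg fun x => by positivity)
    simp only [this]
    exact sum_le_hasSum s (fun p _ => integral_nonneg fun x => by positivity) sK
  have e2 : ∑ p ∈ s, Real.sqrt (∫ x in Ω, ‖F p.1 p.2 x‖ ^ 2) * ‖G p.1 p.2‖ ≤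
      ‖f‖ * ‖g‖ := by
    refine (Real.sum_mul_le_sqrt_mul_sqrt s _ _).trans ?_
    refine mul_le_mul ?_ hgle (Real.sqrt_nonneg _) (norm_nonneg _)
    rw [← Real.sqrt_sq (norm_nonneg f)]
    refine Real.sqrt_le_sqrt ?_
    have : ∀ p : ℤ × ℤ, Real.sqrt (∫ x in Ω, ‖F p.1 p.2 x‖ ^ 2) ^ 2 =
        ∫ x in Ω, ‖F p.1 p.2 x‖ ^ 2 := fun p =>
      Real.sq_sqrt (integral_nonneg fun x => by positivity)
    simp only [this]
    exact sum_le_hasSum s (fun p _ => integral_nonneg fun x => by positivity) sΩ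
  have f1 := mul_le_mul_of_nonneg_left e1 (Real.sqrt_nonneg C0)
  have f2 := mul_le_mul_of_nonneg_left e2 hη.le
  calc _ ≤ Real.sqrt C0 * (Real.sqrt (∫ x in K, ‖f x‖ ^ 2) * ‖g‖) + η * (‖f‖ * ‖g‖) :=
        add_le_add f1 f2
    _ = _ := by ring

end DbarC.JZF
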