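import Pool.Agent.H314.DC.St1
import Pool.Agent.H314.DN.MD

set_option autoImplicit false

open MeasureTheory Complex Filter Topology
open scoped ContDiff InnerProductSpace ENNReal ComplexConjugate

namespace DbarC.JZM
open DbarN

namespace ZM24348

/-- a circle action -/
structure Circ {H : Type*} [NormedAddCommGroup H] [NormedSpace ℂ H] (U : ℝ → H →L[ℂ] H) : Prop where
  add : ∀ s t v, U (s + t) v = U s (U t v)
  zero : ∀ v, U 0 v = v
  per : ∀ v, U (2 * Real.pi) v = v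
  cont : ∀ v, Continuous (fun t => U t v)

/-- the projection to the `j`-th mode -/
noncomputable def PP {H : Type*} [NormedAddCommGroup H] [NormedSpace ℂ H] (U : ℝ → H →L[ℂ] H)
    (j : ℤ) (v : H) : H :=
  ((2 * Real.pi : ℝ) : ℂ)⁻¹ • ∫ θ in (0:ℝ)..(2*Real.pi), Complex.exp (-(I * (j * θ))) • U θ v

section abs

variable {H : Type*} [NormedAddCommGroup H] [NormedSpace ℂ H] [CompleteSpace H]
  {U : ℝ → H →L[ℂ] H}

theorem Gcont (hU : Circ U) (j : ℤ) (v : H) :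
    Continuous (fun θ : ℝ => Complex.exp (-(I * (j * θ))) • U θ v) := by
  have h1 : Continuous (fun θ : ℝ => Complex.exp (-(I * (j * θ)))) := by fun_prop
  exact h1.smul (hU.cont v)

theorem PP_comm {H' : Type*} [NormedAddCommGroup H'] [NormedSpace ℂ H'] [CompleteSpace H']
    {U' : ℝ → H' →L[ℂ] H'} (hU : Circ U) (S : H →L[ℂ] H') (hS : ∀ t v, S (U t v) = U' t (S v))
    (j : ℤ) (v : H) : S (PP U j v) = PP U' j (S v) := by
  unfold PP
  rw [map_smul]
  congr 1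
  rw [← S.intervalIntegral_comp_comm ((Gcont hU j v).intervalIntegrable (μ := volume) _ _)]
  congr 1
  funext θ
  rw [map_smul, hS]

theorem PP_eig (hU : Circ U) (j : ℤ) (v : H) (t : ℝ) :
    U t (PP U j v) = Complex.exp (I * (j * t)) • PP U j v := by
  unfold PP
  rw [map_smul, smul_comm]
  congr 1
  rw [← (U t).intervalIntegral_comp_comm ((Gcont hU j v).intervalIntegrable (μ := volume) _ _)]
  have h2 : ∀ θ : ℝ, U t (Complex.exp (-(I * (j * θ))) • U θ v) =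
      Complex.exp (I * (j * t)) • (Complex.exp (-(I * (j * (t + θ : ℝ)))) • U (t + θ) v) := by
    intro θ
    rw [map_smul, ← hU.add, smul_smul]
    congr 1
    rw [← Complex.exp_add]
    congr 1
    push_cast
    ring
  simp only [h2]
  rw [intervalIntegral.integral_smul]
  congr 1
  have hper : Function.Periodic (fun θ : ℝ => Complex.exp (-(I * (j * θ))) • U θ v)
      (2 * Real.pi) := by
    intro θ
    beta_reduce
    rw [hU.add, hU.per]
    congr 1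
    rw [Complex.exp_eq_exp_iff_exists_int]
    exact ⟨-j, by push_cast; ring⟩
  rw [intervalIntegral.integral_comp_add_left
    (fun θ : ℝ => Complex.exp (-(I * (j * θ))) • U θ v) t]
  have h3 := hper.intervalIntegral_add_eq t 0
  rw [zero_add] at h3
  rw [add_zero, h3]

theorem PP_mem (hU : Circ U) (D : Submodule ℂ H) (hD : IsClosed (D : Set H))
    (hinv : ∀ t, ∀ v ∈ D, U t v ∈ D) (j : ℤ) (v : H) (hv : v ∈ D) : PP U j v ∈ D := by
  unfold PP
  apply D.smul_mem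
  have hmem : ∀ θ : ℝ, Complex.exp (-(I * (j * θ))) • U θ v ∈ D :=
    fun θ => D.smul_mem _ (hinv θ v hv)
  have : CompleteSpace D := hD.completeSpace_coe
  let G' : ℝ → D := fun θ => ⟨Complex.exp (-(I * (j * θ))) • U θ v, hmem θ⟩
  have hG'c : Continuous G' := (Gcont hU j v).subtype_mk _
  have h1 := D.subtypeL.intervalIntegral_comp_comm
    (hG'c.intervalIntegrable (μ := volume) 0 (2 * Real.pi))
  have h2 : ∫ θ in (0:ℝ)..(2*Real.pi), Complex.exp (-(I * (j * θ))) • U θ v =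
      D.subtypeL (∫ θ in (0:ℝ)..(2*Real.pi), G' θ) := by
    rw [← h1]
    rfl
  rw [h2]
  exact (∫ θ in (0:ℝ)..(2*Real.pi), G' θ).2

section parseval

variable {K : Type*} [NormedAddCommGroup K] [InnerProductSpace ℂ K] [CompleteSpace K]
  (hU : Circ U) (T : H →L[ℂ] K)
  (hT : ∀ t u v, inner ℂ (T (U t u)) (T (U t v)) = (inner ℂ (T u) (T v) : ℂ))

include hU hT

theorem inner_eig (j : ℤ) (u : H) (hu : ∀ t : ℝ, U t u = Complex.exp (I * (j * t)) • u) (w : H)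
    (t : ℝ) : (inner ℂ (T u) (T (U t w)) : ℂ) = Complex.exp (I * (j * t)) * inner ℂ (T u) (T w) := by
  have h1 : U t (U (-t) u) = u := by
    rw [← hU.add, add_neg_cancel, hU.zero]
  conv_lhs => rw [← h1]
  rw [hT, hu, map_smul, inner_smul_left]
  congr 1
  rw [← Complex.exp_conj]
  congr 1
  simp

theorem inner_PP (j : ℤ) (u : H) (hu : ∀ t : ℝ, U t u = Complex.exp (I * (j * t)) • u) (w : H) :
    (inner ℂ (T u) (T (PP U j w)) : ℂ) = inner ℂ (T u) (T w) := by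
  let L : H →L[ℂ] ℂ := (innerSL ℂ (T u)).comp T
  have hL : ∀ x, (inner ℂ (T u) (T x) : ℂ) = L x := fun x => rfl
  have hpi : (Real.pi : ℂ) ≠ 0 := by exact_mod_cast Real.pi_ne_zero
  rw [hL]
  unfold PP
  rw [map_smul, ← L.intervalIntegral_comp_comm ((Gcont hU j w).intervalIntegrable (μ := volume) _ _)]
  have h2 : ∀ θ : ℝ, L (Complex.exp (-(I * (j * θ))) • U θ w) = inner ℂ (T u) (T w) := by
    intro θ
    rw [map_smul, ← hL, inner_eig hU T hT j u hu w θ, smul_eq_mul, ← mul_assoc, ← Complex.exp_add]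
    simp
  simp only [h2]
  rw [intervalIntegral.integral_const, sub_zero]
  rw [smul_eq_mul, Complex.real_smul, ← mul_assoc, inv_mul_cancel₀, one_mul]
  push_cast
  simp [hpi]

theorem inner_self_PP (j : ℤ) (v : H) :
    (inner ℂ (T v) (T (PP U j v)) : ℂ) = ((‖T (PP U j v)‖ ^ 2 : ℝ) : ℂ) := by
  have h1 := inner_PP hU T hT j (PP U j v) (PP_eig hU j v) v
  rw [inner_self_eq_norm_sq_to_K] at h1
  rw [← inner_conj_symm, ← h1]
  simp

theorem orth (j k : ℤ) (hjk : j ≠ k) (v : H) :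
    (inner ℂ (T (PP U j v)) (T (PP U k v)) : ℂ) = 0 := by
  have h1 := inner_eig hU T hT j (PP U j v) (PP_eig hU j v) (PP U k v) (Real.pi / (k - j))
  rw [PP_eig hU k v, map_smul, inner_smul_right] at h1
  have hkj : ((k : ℂ) - j) ≠ 0 := by
    rw [sub_ne_zero]
    exact_mod_cast hjk.symm
  have h2 : Complex.exp (I * (k * ((Real.pi / (k - j) : ℝ) : ℂ))) =
      - Complex.exp (I * (j * ((Real.pi / (k - j) : ℝ) : ℂ))) := by
    have h3 : I * (k * ((Real.pi / (k - j) : ℝ) : ℂ)) =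
        I * (j * ((Real.pi / (k - j) : ℝ) : ℂ)) + Real.pi * I := by
      push_cast
      field_simp
      ring
    rw [h3, Complex.exp_add, Complex.exp_pi_mul_I]
    ring
  rw [h2] at h1
  have h4 := Complex.exp_ne_zero (I * (j * ((Real.pi / (k - j) : ℝ) : ℂ)))
  have h5 : 2 * (Complex.exp (I * (j * ((Real.pi / (k - j) : ℝ) : ℂ))) *
      inner ℂ (T (PP U j v)) (T (PP U k v))) = 0 := by
    linear_combination -h1
  have h6 := (mul_eq_zero.1 h5).resolve_left two_ne_zero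
  exact (mul_eq_zero.1 h6).resolve_left h4

theorem bessel (F : Finset ℤ) (v : H) : ∑ j ∈ F, ‖T (PP U j v)‖ ^ 2 ≤ ‖T v‖ ^ 2 := by
  have h1 : (inner ℂ (∑ j ∈ F, T (PP U j v)) (∑ j ∈ F, T (PP U j v)) : ℂ) =
      ((∑ j ∈ F, ‖T (PP U j v)‖ ^ 2 : ℝ) : ℂ) := by
    rw [sum_inner, Complex.ofReal_sum]
    refine Finset.sum_congr rfl fun j hj => ?_
    rw [inner_sum, Finset.sum_eq_single j]
    · rw [inner_self_eq_norm_sq_to_K]
      simp
    · intro k _ hkj
      exact orth hU T hT j k hkj.symm v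
    · intro h
      exact absurd hj h
  have h2 : (inner ℂ (T v) (∑ j ∈ F, T (PP U j v)) : ℂ) =
      ((∑ j ∈ F, ‖T (PP U j v)‖ ^ 2 : ℝ) : ℂ) := by
    rw [inner_sum, Complex.ofReal_sum]
    exact Finset.sum_congr rfl fun j _ => inner_self_PP hU T hT j v
  have h3 : ‖∑ j ∈ F, T (PP U j v)‖ ^ 2 = ∑ j ∈ F, ‖T (PP U j v)‖ ^ 2 := by
    have := inner_self_eq_norm_sq_to_K (𝕜 := ℂ) (∑ j ∈ F, T (PP U j v))
    rw [h1] at this
    have h4 : ((∑ j ∈ F, ‖T (PP U j v)‖ ^ 2 : ℝ) : ℂ) =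
      ((‖∑ j ∈ F, T (PP U j v)‖ ^ 2 : ℝ) : ℂ) := by
      rw [this]
      simp
    exact (Complex.ofReal_injective h4).symm
  have h5 := norm_sub_sq (𝕜 := ℂ) (T v) (∑ j ∈ F, T (PP U j v))
  rw [h2, h3] at h5
  have h6 : RCLike.re ((∑ j ∈ F, ‖T (PP U j v)‖ ^ 2 : ℝ) : ℂ) = ∑ j ∈ F, ‖T (PP U j v)‖ ^ 2 :=
    Complex.ofReal_re _
  rw [h6] at h5
  have h7 := sq_nonneg ‖T v - ∑ j ∈ F, T (PP U j v)‖
  linarith

theorem parseval (v : H) : HasSum (fun j : ℤ => ‖T (PP U j v)‖ ^ 2) (‖T v‖ ^ 2) := by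
  have hsum : Summable (fun j : ℤ => ‖T (PP U j v)‖ ^ 2) :=
    summable_of_sum_le (fun j => sq_nonneg _) (fun F => bessel hU T hT F v)
  have : Fact (0 < 2 * Real.pi) := ⟨Real.two_pi_pos⟩
  let L : H →L[ℂ] ℂ := (innerSL ℂ (T v)).comp T
  have hL : ∀ x, (inner ℂ (T v) (T x) : ℂ) = L x := fun x => rfl
  have hFper : Function.Periodic (fun θ => L (U θ v)) (2 * Real.pi) := by
    intro θ
    beta_reduce
    rw [hU.add, hU.per]
  have hFc : Continuous (fun θ => L (U θ v)) := L.continuous.comp (hU.cont v)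
  let f : C(AddCircle (2 * Real.pi), ℂ) :=
    ⟨hFper.lift, by
      exact continuous_coinduced_dom.mpr hFc⟩
  have hf : ∀ n, fourierCoeff f n = ((‖T (PP U n v)‖ ^ 2 : ℝ) : ℂ) := by
    intro n
    rw [fourierCoeff_eq_intervalIntegral _ n 0, ← inner_self_PP hU T hT n v, hL]
    have h1 := L.intervalIntegral_comp_comm
      ((Gcont hU n v).intervalIntegrable (μ := volume) 0 (2 * Real.pi))
    have h2 : (fun x : ℝ => (fourier (-n) (x : AddCircle (2 * Real.pi)) : ℂ) •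
        f (x : AddCircle (2 * Real.pi))) =
        fun x : ℝ => L (Complex.exp (-(I * (n * x))) • U x v) := by
      funext x
      rw [fourier_coe_apply, map_smul]
      congr 1
      congr 1
      have : (Real.pi : ℂ) ≠ 0 := by exact_mod_cast Real.pi_ne_zero
      push_cast
      field_simp
    rw [zero_add, h2, h1]
    unfold PP
    rw [map_smul]
    show (1 / (2 * Real.pi)) • _ = _
    rw [Complex.real_smul, smul_eq_mul]
    congr 1
    push_cast
    rw [one_div]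
  have hsumC : Summable (fourierCoeff f) := by
    have h1 : fourierCoeff f = fun n => ((‖T (PP U n v)‖ ^ 2 : ℝ) : ℂ) := funext hf
    rw [h1]
    exact Complex.ofRealCLM.summable hsum
  have h1 := has_pointwise_sum_fourier_series_of_summable hsumC ((0 : ℝ) : AddCircle (2 * Real.pi))
  have h2 : f ((0:ℝ) : AddCircle (2 * Real.pi)) = ((‖T v‖ ^ 2 : ℝ) : ℂ) := by
    show L (U 0 v) = _
    rw [hU.zero, ← hL, inner_self_eq_norm_sq_to_K]
    simp
  rw [h2] at h1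
  have h3 : (fun i => fourierCoeff f i • fourier i ((0 : ℝ) : AddCircle (2 * Real.pi))) =
      fun i => ((‖T (PP U i v)‖ ^ 2 : ℝ) : ℂ) := by
    funext i
    rw [hf, fourier_coe_apply]
    simp
  rw [h3] at h1
  exact Complex.hasSum_ofReal.1 h1

end parseval

end abs

theorem hasSum_prod {b : ℤ → ℤ → ℝ} (hb : ∀ j k, 0 ≤ b j k) {a : ℤ → ℝ} {s : ℝ}
    (h1 : ∀ j, HasSum (b j) (a j)) (h2 : HasSum a s) :
    HasSum (fun p : ℤ × ℤ => b p.1 p.2) s := by
  have h3 : Summable (fun p : ℤ × ℤ => b p.1 p.2) := by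
    rw [summable_prod_of_nonneg (fun p => hb p.1 p.2)]
    refine ⟨fun j => (h1 j).summable, ?_⟩
    have : (fun j => ∑' k, b j k) = a := funext fun j => (h1 j).tsum_eq
    show Summable (fun j => ∑' k, b j k)
    rw [this]
    exact h2.summable
  have h4 := h3.hasSum.prod_fiberwise h1
  exact h3.hasSum_iff.2 (h4.unique h2)



open DbarN.JMD.JModes

theorem PP_smul {H : Type*} [NormedAddCommGroup H] [NormedSpace ℂ H] [CompleteSpace H]
    {U : ℝ → H →L[ℂ] H} (hU : Circ U) (j : ℤ) (c : ℂ) (v : H) :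
    PP U j (c • v) = c • PP U j v := by
  have h := PP_comm (U' := U) hU (c • ContinuousLinearMap.id ℂ H) (fun t v => by
    show c • U t v = U t (c • v)
    rw [map_smul]) j v
  exact h.symm

section conc

variable {Ω : Set E3} (hΩ : IsOpen Ω) (hinv : ∀ a b x, rot a b x ∈ Ω ↔ x ∈ Ω)

noncomputable def u1 (t : ℝ) : L2 Ω →L[ℂ] L2 Ω := (UU hΩ hinv t 0).toContinuousLinearMap
noncomputable def u2 (t : ℝ) : L2 Ω →L[ℂ] L2 Ω := (UU hΩ hinv 0 t).toContinuousLinearMap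
noncomputable def w1 (t : ℝ) : Form Ω →L[ℂ] Form Ω := VF hΩ hinv t 0
noncomputable def w2 (t : ℝ) : Form Ω →L[ℂ] Form Ω := VF hΩ hinv 0 t
noncomputable def v1 (t : ℝ) : (L2 Ω × Form Ω) →L[ℂ] (L2 Ω × Form Ω) := VV hΩ hinv t 0
noncomputable def v2 (t : ℝ) : (L2 Ω × Form Ω) →L[ℂ] (L2 Ω × Form Ω) := VV hΩ hinv 0 t

theorem cont1 : Continuous (fun t : ℝ => ((t, 0) : ℝ × ℝ)) := by fun_prop

theorem cont2 : Continuous (fun t : ℝ => ((0, t) : ℝ × ℝ)) := by fun_prop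

theorem u1_apply (t : ℝ) (v : L2 Ω) : u1 hΩ hinv t v = UU hΩ hinv t 0 v := rfl
theorem u2_apply (t : ℝ) (v : L2 Ω) : u2 hΩ hinv t v = UU hΩ hinv 0 t v := rfl
theorem w1_apply (t : ℝ) (v : Form Ω) : w1 hΩ hinv t v = VF hΩ hinv t 0 v := rfl
theorem w2_apply (t : ℝ) (v : Form Ω) : w2 hΩ hinv t v = VF hΩ hinv 0 t v := rfl
theorem v1_apply (t : ℝ) (v : L2 Ω × Form Ω) : v1 hΩ hinv t v = VV hΩ hinv t 0 v := rfl
theorem v2_apply (t : ℝ) (v : L2 Ω × Form Ω) : v2 hΩ hinv t v = VV hΩ hinv 0 t v := rfl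

theorem circ_u1 : Circ (u1 hΩ hinv) := by
  refine ⟨?_, ?_, ?_, ?_⟩
  · intro s t v
    rw [u1_apply, u1_apply, u1_apply]
    have := UU_add hΩ hinv s 0 t 0 v
    rw [add_zero] at this
    exact this
  · intro v
    rw [u1_apply]
    exact UU_zero hΩ hinv v
  · intro v
    rw [u1_apply]
    exact UU_per1 hΩ hinv v
  · intro v
    simp only [u1_apply]
    have h3 := (UU_cont hΩ hinv v).comp cont1
    exact h3

theorem circ_u2 : Circ (u2 hΩ hinv) := by
  refine ⟨?_, ?_, ?_, ?_⟩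
  · intro s t v
    rw [u2_apply, u2_apply, u2_apply]
    have := UU_add hΩ hinv 0 s 0 t v
    rw [add_zero] at this
    exact this
  · intro v
    rw [u2_apply]
    exact UU_zero hΩ hinv v
  · intro v
    rw [u2_apply]
    exact UU_per2 hΩ hinv v
  · intro v
    simp only [u2_apply]
    have h3 := (UU_cont hΩ hinv v).comp cont2
    exact h3

theorem circ_w1 : Circ (w1 hΩ hinv) := by
  refine ⟨?_, ?_, ?_, ?_⟩
  · intro s t v
    rw [w1_apply, w1_apply, w1_apply]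
    have := VF_add hΩ hinv s 0 t 0 v
    rw [add_zero] at this
    exact this
  · intro v
    rw [w1_apply]
    exact VF_zero hΩ hinv v
  · intro v
    rw [w1_apply]
    have h := congrArg Prod.snd (VV_per1 hΩ hinv ((0 : L2 Ω), v))
    rw [VV_apply] at h
    exact h
  · intro v
    simp only [w1_apply]
    have h3 := (VF_cont hΩ hinv v).comp cont1
    exact h3

theorem circ_w2 : Circ (w2 hΩ hinv) := by
  refine ⟨?_, ?_, ?_, ?_⟩
  · intro s t v
    rw [w2_apply, w2_apply, w2_apply]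
    have := VF_add hΩ hinv 0 s 0 t v
    rw [add_zero] at this
    exact this
  · intro v
    rw [w2_apply]
    exact VF_zero hΩ hinv v
  · intro v
    rw [w2_apply]
    have h := congrArg Prod.snd (VV_per2 hΩ hinv ((0 : L2 Ω), v))
    rw [VV_apply] at h
    exact h
  · intro v
    simp only [w2_apply]
    have h3 := (VF_cont hΩ hinv v).comp cont2
    exact h3

theorem circ_v1 : Circ (v1 hΩ hinv) := by
  refine ⟨?_, ?_, ?_, ?_⟩
  · intro s t v
    rw [v1_apply, v1_apply, v1_apply]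
    have := VV_add hΩ hinv s 0 t 0 v
    rw [add_zero] at this
    exact this
  · intro v
    rw [v1_apply]
    exact VV_zero hΩ hinv v
  · intro v
    rw [v1_apply]
    exact VV_per1 hΩ hinv v
  · intro v
    simp only [v1_apply]
    have h3 := (VV_cont hΩ hinv v).comp cont1
    exact h3

theorem circ_v2 : Circ (v2 hΩ hinv) := by
  refine ⟨?_, ?_, ?_, ?_⟩
  · intro s t v
    rw [v2_apply, v2_apply, v2_apply]
    have := VV_add hΩ hinv 0 s 0 t v
    rw [add_zero] at this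
    exact this
  · intro v
    rw [v2_apply]
    exact VV_zero hΩ hinv v
  · intro v
    rw [v2_apply]
    exact VV_per2 hΩ hinv v
  · intro v
    simp only [v2_apply]
    have h3 := (VV_cont hΩ hinv v).comp cont2
    exact h3

/-- the modes of a function -/
noncomputable def Fm (f : L2 Ω) (j k : ℤ) : L2 Ω := PP (u2 hΩ hinv) k (PP (u1 hΩ hinv) j f)

/-- the modes of a form -/
noncomputable def Gm (g : Form Ω) (j k : ℤ) : Form Ω := PP (w2 hΩ hinv) k (PP (w1 hΩ hinv) j g)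

theorem Fm_eig (f : L2 Ω) (j k : ℤ) (a b : ℝ) :
    UU hΩ hinv a b (Fm hΩ hinv f j k) =
      Complex.exp (I * (j * a + k * b)) • Fm hΩ hinv f j k := by
  have h1 : UU hΩ hinv a b (Fm hΩ hinv f j k) =
      u1 hΩ hinv a (u2 hΩ hinv b (Fm hΩ hinv f j k)) := by
    have := UU_add hΩ hinv a 0 0 b (Fm hΩ hinv f j k)
    rw [add_zero, zero_add] at this
    exact this
  have h2 : u2 hΩ hinv b (Fm hΩ hinv f j k) = Complex.exp (I * (k * b)) • Fm hΩ hinv f j k :=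
    PP_eig (circ_u2 hΩ hinv) k _ b
  have h3 : u1 hΩ hinv a (Fm hΩ hinv f j k) = Complex.exp (I * (j * a)) • Fm hΩ hinv f j k := by
    unfold Fm
    rw [PP_comm (U' := u2 hΩ hinv) (circ_u2 hΩ hinv) (u1 hΩ hinv a) (by
      intro t v
      show UU hΩ hinv a 0 (UU hΩ hinv 0 t v) = UU hΩ hinv 0 t (UU hΩ hinv a 0 v)
      rw [← UU_add, ← UU_add]
      simp), PP_eig (circ_u1 hΩ hinv), PP_smul (circ_u2 hΩ hinv)]
  rw [h1, h2, map_smul, h3, smul_smul, ← Complex.exp_add]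
  congr 2
  ring

/-- the restriction to `A` -/
noncomputable def TA (Ω A : Set E3) :
    L2 Ω →L[ℂ] Lp ℂ 2 (((volume : Measure E3).restrict Ω).restrict A) :=
  LpToLpRestrictCLM E3 ℂ ℂ ((volume : Measure E3).restrict Ω) 2 A

theorem TA_coe (A : Set E3) (w : L2 Ω) :
    (TA Ω A w : E3 → ℂ) =ᵐ[((volume : Measure E3).restrict Ω).restrict A] w :=
  LpToLpRestrictCLM_coeFn ℂ A w

theorem TA_inner (A : Set E3) (hA : MeasurableSet A) (hAinv : ∀ a b x, rot a b x ∈ A ↔ x ∈ A)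
    (a b : ℝ) (u v : L2 Ω) :
    (inner ℂ (TA Ω A (UU hΩ hinv a b u)) (TA Ω A (UU hΩ hinv a b v)) : ℂ) =
      inner ℂ (TA Ω A u) (TA Ω A v) := by
  rw [L2.inner_def, L2.inner_def]
  have mp : MeasurePreserving (rot a b) (((volume : Measure E3).restrict Ω).restrict A)
      (((volume : Measure E3).restrict Ω).restrict A) := by
    have h := (rot_mpΩ hΩ hinv a b).restrict_preimage hA
    rwa [show rot a b ⁻¹' A = A from Set.ext fun x => hAinv a b x] at h
  rw [← mp.integral_comp (rot_me a b) (fun x => (inner ℂ (TA Ω A u x) (TA Ω A v x) : ℂ))]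
  apply integral_congr_ae
  have h1 := TA_coe A (UU hΩ hinv a b u)
  have h1' := TA_coe A (UU hΩ hinv a b v)
  have h2 := ae_restrict_of_ae (s := A) (UU_coe hΩ hinv a b u)
  have h2' := ae_restrict_of_ae (s := A) (UU_coe hΩ hinv a b v)
  have h3 := mp.quasiMeasurePreserving.ae_eq_comp (TA_coe A u)
  have h3' := mp.quasiMeasurePreserving.ae_eq_comp (TA_coe A v)
  filter_upwards [h1, h1', h2, h2', h3, h3'] with x e1 e1' e2 e2' e3 e3'
  have e4 : (TA Ω A u : E3 → ℂ) (rot a b x) = u (rot a b x) := e3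
  have e4' : (TA Ω A v : E3 → ℂ) (rot a b x) = v (rot a b x) := e3'
  rw [e1, e1', e2, e2', e4, e4']

theorem TA_norm (A : Set E3) (hA : MeasurableSet A) (hAΩ : A ⊆ Ω) (w : L2 Ω) :
    ‖TA Ω A w‖ ^ 2 = ∫ x in A, ‖w x‖ ^ 2 := by
  have h := inner_self_eq_norm_sq_to_K (𝕜 := ℂ) (TA Ω A w)
  rw [L2.inner_def] at h
  have h2 : ∫ x, (inner ℂ (TA Ω A w x) (TA Ω A w x) : ℂ)
      ∂(((volume : Measure E3).restrict Ω).restrict A) =
      ((∫ x in A, ‖w x‖ ^ 2 : ℝ) : ℂ) := by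
    have h3 : ∫ x, (inner ℂ (TA Ω A w x) (TA Ω A w x) : ℂ)
        ∂(((volume : Measure E3).restrict Ω).restrict A) =
        ∫ x, ((‖w x‖ ^ 2 : ℝ) : ℂ) ∂(((volume : Measure E3).restrict Ω).restrict A) := by
      apply integral_congr_ae
      filter_upwards [TA_coe A w] with x hx
      rw [hx, inner_self_eq_norm_sq_to_K]
      simp
    rw [h3, Measure.restrict_restrict hA, Set.inter_eq_left.2 hAΩ]
    exact integral_ofReal
  rw [h2] at h
  have h4 : ((∫ x in A, ‖w x‖ ^ 2 : ℝ) : ℂ) = ((‖TA Ω A w‖ ^ 2 : ℝ) : ℂ) := by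
    rw [h]
    simp
  exact (Complex.ofReal_injective h4).symm

theorem Fm_sum (A : Set E3) (hA : MeasurableSet A) (hAΩ : A ⊆ Ω)
    (hAinv : ∀ a b x, rot a b x ∈ A ↔ x ∈ A) (f : L2 Ω) :
    HasSum (fun p : ℤ × ℤ => ∫ x in A, ‖Fm hΩ hinv f p.1 p.2 x‖ ^ 2) (∫ x in A, ‖f x‖ ^ 2) := by
  have h1 : ∀ j k, ∫ x in A, ‖Fm hΩ hinv f j k x‖ ^ 2 = ‖TA Ω A (Fm hΩ hinv f j k)‖ ^ 2 :=
    fun j k => (TA_norm A hA hAΩ _).symm
  rw [← TA_norm A hA hAΩ f]
  refine hasSum_prod (b := fun j k => ∫ x in A, ‖Fm hΩ hinv f j k x‖ ^ 2)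
    (a := fun j => ‖TA Ω A (PP (u1 hΩ hinv) j f)‖ ^ 2) ?_ ?_ ?_
  · intro j k
    rw [h1]
    positivity
  · intro j
    have h2 := parseval (circ_u2 hΩ hinv) (TA Ω A)
      (fun t u v => TA_inner hΩ hinv A hA hAinv 0 t u v) (PP (u1 hΩ hinv) j f)
    have h3 : (fun k => ∫ x in A, ‖Fm hΩ hinv f j k x‖ ^ 2) =
        fun k => ‖TA Ω A (PP (u2 hΩ hinv) k (PP (u1 hΩ hinv) j f))‖ ^ 2 :=
      funext fun k => h1 j k
    rw [h3]
    exact h2
  · exact parseval (circ_u1 hΩ hinv) (TA Ω A)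
      (fun t u v => TA_inner hΩ hinv A hA hAinv t 0 u v) f

theorem Gm_sum (g : Form Ω) :
    HasSum (fun p : ℤ × ℤ => ‖Gm hΩ hinv g p.1 p.2‖ ^ 2) (‖g‖ ^ 2) := by
  refine hasSum_prod (b := fun j k => ‖Gm hΩ hinv g j k‖ ^ 2)
    (a := fun j => ‖PP (w1 hΩ hinv) j g‖ ^ 2) ?_ ?_ ?_
  · intro j k
    positivity
  · intro j
    exact parseval (circ_w2 hΩ hinv) (ContinuousLinearMap.id ℂ (Form Ω))
      (fun t u v => VF_inner hΩ hinv 0 t u v) (PP (w1 hΩ hinv) j g)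
  · exact parseval (circ_w1 hΩ hinv) (ContinuousLinearMap.id ℂ (Form Ω))
      (fun t u v => VF_inner hΩ hinv t 0 u v) g

/-- the graph of the weak dbar -/
noncomputable def D0 (Ω : Set E3) : Submodule ℂ (L2 Ω × Form Ω) where
  carrier := {p | IsDbar0 Ω p.1 p.2}
  add_mem' := by
    rintro p q hp1 hq1
    intro j φ hφ
    obtain ⟨L1, hL1⟩ := exL Ω (dbar j φ) (dbar_continuous hφ j) (dbar_compact hφ j)
    obtain ⟨L2, hL2⟩ := exL Ω φ hφ.smooth.continuous hφ.compact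
    rw [← hL1, ← hL2]
    have h1 := hp1 j φ hφ
    have h2 := hq1 j φ hφ
    rw [← hL1, ← hL2] at h1 h2
    show L1 (p.1 + q.1) = - L2 (p.2 j + q.2 j)
    rw [map_add, map_add, h1, h2]
    ring
  zero_mem' := by
    intro j φ hφ
    obtain ⟨L1, hL1⟩ := exL Ω (dbar j φ) (dbar_continuous hφ j) (dbar_compact hφ j)
    obtain ⟨L2, hL2⟩ := exL Ω φ hφ.smooth.continuous hφ.compact
    rw [← hL1, ← hL2]
    show L1 0 = - L2 0
    rw [map_zero, map_zero, neg_zero]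
  smul_mem' := by
    rintro c p hp1
    intro j φ hφ
    obtain ⟨L1, hL1⟩ := exL Ω (dbar j φ) (dbar_continuous hφ j) (dbar_compact hφ j)
    obtain ⟨L2, hL2⟩ := exL Ω φ hφ.smooth.continuous hφ.compact
    rw [← hL1, ← hL2]
    have h1 := hp1 j φ hφ
    rw [← hL1, ← hL2] at h1
    show L1 (c • p.1) = - L2 (c • p.2 j)
    rw [map_smul, map_smul, h1, smul_neg]

theorem D0_closed (Ω : Set E3) : IsClosed (D0 Ω : Set (L2 Ω × Form Ω)) := by
  have e1 : (D0 Ω : Set (L2 Ω × Form Ω)) = ⋂ (j : Fin 3) (φ : E3 → ℂ)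
      (_ : IsTest Ω φ), {p | ∫ x in Ω, p.1 x * dbar j φ x = - ∫ x in Ω, p.2 j x * φ x} := by
    ext p
    simp only [Set.mem_ofPred_eq, Set.mem_iInter]
    rfl
  rw [e1]
  refine isClosed_iInter fun j => isClosed_iInter fun φ => isClosed_iInter fun hφ => ?_
  obtain ⟨L1, hL1⟩ := exL Ω (dbar j φ) (dbar_continuous hφ j) (dbar_compact hφ j)
  obtain ⟨L2, hL2⟩ := exL Ω φ hφ.smooth.continuous hφ.compact
  have e2 : {p : DbarN.L2 Ω × Form Ω | ∫ x in Ω, p.1 x * dbar j φ x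
      = - ∫ x in Ω, p.2 j x * φ x} = {p | L1 p.1 = - L2 (p.2 j)} := by
    ext p
    simp only [Set.mem_ofPred_eq, hL1, hL2]
  rw [e2]
  refine isClosed_eq (L1.continuous.comp continuous_fst) ?_
  refine (L2.continuous.comp ?_).neg
  exact (continuous_apply j).comp ((PiLp.continuous_ofLp 2 _).comp continuous_snd)

theorem FG_dbar (f : L2 Ω) (g : Form Ω) (h : IsDbar0 Ω f g) (j k : ℤ) :
    IsDbar0 Ω (Fm hΩ hinv f j k) (Gm hΩ hinv g j k) := by
  have h1 : PP (v1 hΩ hinv) j (f, g) ∈ D0 Ω :=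
    PP_mem (circ_v1 hΩ hinv) (D0 Ω) (D0_closed Ω)
      (fun t v hv => IsDbar0_rot hΩ hinv t 0 _ _ hv) j (f, g) h
  have h2 : PP (v2 hΩ hinv) k (PP (v1 hΩ hinv) j (f, g)) ∈ D0 Ω :=
    PP_mem (circ_v2 hΩ hinv) (D0 Ω) (D0_closed Ω)
      (fun t v hv => IsDbar0_rot hΩ hinv 0 t _ _ hv) k _ h1
  have e1 : (PP (v2 hΩ hinv) k (PP (v1 hΩ hinv) j (f, g))).1 = Fm hΩ hinv f j k := by
    have a1 := PP_comm (U' := u2 hΩ hinv) (circ_v2 hΩ hinv)
      (ContinuousLinearMap.fst ℂ (L2 Ω) (Form Ω)) (fun t v => rfl) k (PP (v1 hΩ hinv) j (f, g))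
    have a2 := PP_comm (U' := u1 hΩ hinv) (circ_v1 hΩ hinv)
      (ContinuousLinearMap.fst ℂ (L2 Ω) (Form Ω)) (fun t v => rfl) j (f, g)
    rw [a2] at a1
    exact a1
  have e2 : (PP (v2 hΩ hinv) k (PP (v1 hΩ hinv) j (f, g))).2 = Gm hΩ hinv g j k := by
    have a1 := PP_comm (U' := w2 hΩ hinv) (circ_v2 hΩ hinv)
      (ContinuousLinearMap.snd ℂ (L2 Ω) (Form Ω)) (fun t v => rfl) k (PP (v1 hΩ hinv) j (f, g))
    have a2 := PP_comm (U' := w1 hΩ hinv) (circ_v1 hΩ hinv)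
      (ContinuousLinearMap.snd ℂ (L2 Ω) (Form Ω)) (fun t v => rfl) j (f, g)
    rw [a2] at a1
    exact a1
  have h3 : IsDbar0 Ω (PP (v2 hΩ hinv) k (PP (v1 hΩ hinv) j (f, g))).1
      (PP (v2 hΩ hinv) k (PP (v1 hΩ hinv) j (f, g))).2 := h2
  rw [e1, e2] at h3
  exact h3

/-- the orthogonal complement of the kernel of the weak dbar -/
noncomputable def D1 (Ω : Set E3) : Submodule ℂ (L2 Ω) where
  carrier := {u | ∀ h : L2 Ω, IsDbar0 Ω h 0 → (inner ℂ h u : ℂ) = 0}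
  add_mem' := by
    intro u v hu hv h hh
    rw [inner_add_right, hu h hh, hv h hh, add_zero]
  zero_mem' := by
    intro h _
    rw [inner_zero_right]
  smul_mem' := by
    intro c u hu h hh
    rw [inner_smul_right, hu h hh, mul_zero]

theorem D1_closed (Ω : Set E3) : IsClosed (D1 Ω : Set (L2 Ω)) := by
  have e1 : (D1 Ω : Set (L2 Ω)) = ⋂ (h : L2 Ω) (_ : IsDbar0 Ω h 0),
      {u : L2 Ω | (inner ℂ h u : ℂ) = 0} := by
    ext p
    simp only [Set.mem_ofPred_eq, Set.mem_iInter]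
    rfl
  rw [e1]
  refine isClosed_iInter fun h => isClosed_iInter fun hh => ?_
  exact isClosed_eq (continuous_const.inner continuous_id) continuous_const

theorem D1_inv (a b : ℝ) (u : L2 Ω) (hu : u ∈ D1 Ω) : UU hΩ hinv a b u ∈ D1 Ω := by
  intro h hh
  have h1 := IsDbar0_rot hΩ hinv (-a) (-b) h 0 hh
  rw [map_zero] at h1
  have h2 := hu _ h1
  have e2 : UU hΩ hinv a b (UU hΩ hinv (-a) (-b) h) = h := by
    rw [← UU_add, add_neg_cancel, add_neg_cancel, UU_zero]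
  rw [← (UU hΩ hinv a b).inner_map_map, e2] at h2
  exact h2

theorem Fm_orth (f : L2 Ω) (hf : ∀ h : L2 Ω, IsDbar0 Ω h 0 → (inner ℂ h f : ℂ) = 0) (j k : ℤ) :
    ∀ h : L2 Ω, IsDbar0 Ω h 0 → (inner ℂ h (Fm hΩ hinv f j k) : ℂ) = 0 := by
  have h1 : PP (u1 hΩ hinv) j f ∈ D1 Ω :=
    PP_mem (circ_u1 hΩ hinv) (D1 Ω) (D1_closed Ω)
      (fun t v hv => D1_inv hΩ hinv t 0 v hv) j f hf
  exact PP_mem (circ_u2 hΩ hinv) (D1 Ω) (D1_closed Ω)
      (fun t v hv => D1_inv hΩ hinv 0 t v hv) k _ h1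

end conc

end ZM24348

theorem zm : ZM_stmt := by
  intro Ω hΩ hinv f
  refine ⟨ZM24348.Fm hΩ hinv f, ?_, ?_, ?_, ?_⟩
  · intro j k θ₁ θ₂
    have h1 := ZM24348.Fm_eig hΩ hinv f j k θ₁ θ₂
    have h2 := DbarN.JMD.JModes.UU_coe hΩ hinv θ₁ θ₂ (ZM24348.Fm hΩ hinv f j k)
    have h3 := Lp.coeFn_smul (Complex.exp (I * (j * θ₁ + k * θ₂))) (ZM24348.Fm hΩ hinv f j k)
    rw [h1] at h2
    filter_upwards [h2, h3] with x hx hx'
    rw [← hx, hx', Pi.smul_apply, smul_eq_mul]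
  · intro A hA hAΩ hAinv
    exact ZM24348.Fm_sum hΩ hinv A hA hAΩ hAinv f
  · intro g hg
    exact ⟨ZM24348.Gm hΩ hinv g, ZM24348.FG_dbar hΩ hinv f g hg, ZM24348.Gm_sum hΩ hinv g⟩
  · intro hf j k h hh
    exact ZM24348.Fm_orth hΩ hinv f hf j k h hh

end DbarC.JZM
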