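import Pool.Agent.H314.DC.Glue
import Pool.Agent.H314.DN.Main
import Pool.Agent.H314.DC.KV
import Pool.Agent.H314.DC.WV
import Pool.Agent.H314.DC.MOs
import Pool.Agent.H314.DC.HA
import Pool.Agent.H314.DC.HB
import Pool.Agent.H314.DC.HC
import Pool.Agent.H314.DC.HD
import Pool.Agent.H314.DC.R0
import Pool.Agent.H314.DC.R1
import Pool.Agent.H314.DC.ZM
import Pool.Agent.H314.DC.ZF
import Pool.Agent.H314.DC.GS
import Pool.Agent.H314.DC.FS
import Pool.Agent.H314.DC.DA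
import Pool.Agent.H314.DC.DB
import Pool.Agent.H314.DC.DD
import Pool.Agent.H314.DC.FHj
import Pool.Agent.H314.DC.PG
import Pool.Agent.H314.DC.GL
import Pool.Agent.H314.DC.PSj
import Pool.Agent.H314.DC.WTj
import Pool.Agent.H314.DC.SMj
import Pool.Agent.H314.DC.PC
import Pool.Agent.H314.DC.KC
import Pool.Agent.H314.DC.HL
import Pool.Agent.H314.DC.PWj
import Pool.Agent.H314.DC.VYj
import Pool.Agent.H314.DC.PDj
import Pool.Agent.H314.DC.CH
import Pool.Agent.H314.DC.PLj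
import Pool.Agent.H314.DC.PO
import Pool.Agent.H314.DC.TN1
import Pool.Agent.H314.DC.TN2
import Pool.Agent.H314.DC.TA
import Pool.Agent.H314.DC.TP
import Pool.Agent.H314.DC.CA
import Pool.Agent.H314.DC.DE
import Pool.Agent.H314.DC.FDj
import Pool.Agent.H314.DC.FIj
import Pool.Agent.H314.DC.VK
import Pool.Agent.H314.DC.PMj
import Pool.Agent.H314.DC.R2

set_option autoImplicit false

open MeasureTheory Complex Filter Topology
open scoped ContDiff InnerProductSpace ENNReal ComplexConjugate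

namespace DbarC

open DbarN

theorem main :
    ∃ Ω : Set E3, Ω.Nonempty ∧ IsOpen Ω ∧ IsConnected Ω ∧ Bornology.IsBounded Ω ∧
      SmoothBoundary Ω ∧ Pseudoconvex Ω ∧
      (∃ f : ℂ → E3, DifferentiableOn ℂ f (Metric.ball 0 1) ∧ Function.Injective f ∧
        ∀ z ∈ Metric.ball (0 : ℂ) 1, f z ∈ frontier Ω) ∧
      N1compact Ω := by
  have hGS : GyS_stmt := JGS.gyS
  have hR2 : RE2_stmt := JR2.JR2.re2
  have hC : CAc_stmt := JCA.cac
  have hPW : PWc_stmt := JPWj.pwc hC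
  have hDE : DECc_stmt := JDE.dec hC hPW
  have hFD : FibDc_stmt := JFDj.fibDc hC
  have hFI : Fibc_stmt := JFIj.fibc hC DbarN.JBL.bl hPW hFD
  have hVK : VARK_stmt := JVK.vark hC hPW DbarN.JBL.bl hFI hDE
  have hV : VarYc_stmt := JVYj.varYc hC DbarN.JBL.bl hPW
  have hChi : Chi_stmt := JCH.chi_all hC hPW hV (JPDj.psiDc hC)
  have hFF : FFs_stmt := JFS.ffs hGS
  have hM : MemC_stmt := JDA.memC
  have hD : DomC_stmt := JDB.domC hM hFF
  obtain ⟨ho, h0, hb, hrot, hstar, -, -, -⟩ := id hD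
  have hPM : PosMain_stmt := JPMj.pos_main JPLj.plr (JPO.polc hM hC) hChi hPW hFD hFI hVK hDE hM hD hC
  have hconn : IsConnected Om := JGZ.om_connected hD
  have hdisc := JGZ.disc_diff
  have hFH : FH_stmt := JFHj.fh hGS hFF
  have hGLU : GLU_stmt := JGL.glu (JPG.p1G JPF.pfun)
  have hPS : PS_prop Om := JPSj.ps_om hGLU hFF hFH hD
  have hWt : Wt_prop Om := JWTj.wt_om hGLU hFF hFH hD
  have hFr : Friedrichs_stmt := JDL.friedrichs
  have hW1 : WS1_stmt := JWS1.ws1 hFr (fun Φ h c hc v hv => JE1.kohn1 Φ h c hc v hv)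
  have hW2 : WS2V_stmt := JWV.ws2V hFr JKV.kohn2V
  have hMoll : MollS_stmt := JMOs.mollS
  have hH1 : Hor1S_prop Om := JHB.hor1S (JHA.hs1S hW1) hMoll cl0 Om ho hstar hb h0 hPS
  have hF2 : FI2_prop Om := JHD.fi2 (JHC.hs2V hW2) hMoll cl1 Om ho hstar hb h0 hPS hWt
  have hR1 : RE1_stmt := JR1.re1 JR0.re0
  have hK : KK_stmt := JKC.kk_prop hM
  have hL : KL_stmt := JKC.kl_prop hFF
  have hn1 := JTN1.tl_neg1 JHL.hardy JHL.layer hM hD hK hC
  have hn2 := JTN2.tl_neg2 JHL.hardy JHL.layer hD hFF hL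
  have hTP := JTP.tl_pos hPM JHL.layer hM hD hFF hK hC
  have hall := JTA.tl_all Om hn1 hn2 hTP
  have hF1 : FI1_prop Om := JZF.fi1 JZM.zm hMoll Om ho hstar hb h0 hrot hall
  have hN := n1_of Om ho hH1 hF1 hF2 hR1 hR2 (JGZ.wclosed_submodule Om ho)
  refine ⟨Om, ⟨0, h0⟩, ho, hconn, hb, JDD.om_smooth hFF hD,
    JPC.om_pseudoconvex JSMj.sm hFF hFH hD, ⟨fun z => ![z, 0, 1], hdisc, ?_, ?_⟩, hN⟩
  · intro a b hab
    have := congrFun hab 0
    simpa using this
  · intro z hz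
    exact JDD.om_disc hD z (by simpa using hz)

end DbarC
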