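import Pool.Agent.H314.DN.FMain
import Pool.Agent.H314.DC.Main

set_option autoImplicit false

open MeasureTheory Complex
open scoped ContDiff InnerProductSpace ENNReal

namespace DbarNeumann

theorem mainC : ∃ Ω : Set E3, Ω.Nonempty ∧ IsOpen Ω ∧ IsConnected Ω ∧ Bornology.IsBounded Ω ∧
      SmoothBoundary Ω ∧ Pseudoconvex Ω ∧
      (∃ f : ℂ → E3, DifferentiableOn ℂ f (Metric.ball 0 1) ∧ (∃ z ∈ Metric.ball (0 : ℂ) 1,
        ∃ w ∈ Metric.ball (0 : ℂ) 1, f z ≠ f w) ∧ ∀ z ∈ Metric.ball (0 : ℂ) 1, f z ∈ frontier Ω) ∧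
      ∃ N : Form Ω →L[ℂ] Form Ω, (∀ v, Box Ω (N v) v) ∧ (∀ u w, Box Ω u w → N w = u) ∧
        IsCompactOperator N := by
  obtain ⟨Ω, h1, h2, h3, h4, h5, h6, ⟨f, hf, hfi, hfr⟩, N, h7, h8, h9⟩ := DbarC.main
  refine ⟨Ω, h1, h2, h3, h4, h5, h6, ⟨f, hf, ⟨0, by simp, (1 / 2 : ℂ), ?_, ?_⟩, hfr⟩,
    N, fun v => (box_iff _ _ _).2 (h7 v), fun u w hb => h8 u w ((box_iff _ _ _).1 hb), h9⟩
  · simp; norm_num
  · intro h
    have := hfi h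
    norm_num at this

end DbarNeumann
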