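import Pool.Agent.H314.DC.St3

set_option autoImplicit false

open MeasureTheory Complex Filter Topology
open scoped ContDiff InnerProductSpace ENNReal ComplexConjugate

namespace DbarC.JGZ
open DbarN

theorem gz25516_func (Ω : Set E3) (ψ : E3 → ℂ) (hc : Continuous ψ) (hs : HasCompactSupport ψ) :
    ∃ L : L2 Ω →L[ℂ] ℂ, ∀ u : L2 Ω, L u = ∫ x in Ω, u x * ψ x ∧
      Integrable (fun x => u x * ψ x) ((volume : Measure E3).restrict Ω) := by
  have hψ : MemLp ψ 2 ((volume : Measure E3).restrict Ω) :=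
    (hc.memLp_of_hasCompactSupport hs).restrict Ω
  have hψc : MemLp (fun x => conj (ψ x)) 2 ((volume : Measure E3).restrict Ω) := hψ.star
  refine ⟨innerSL ℂ (hψc.toLp _), fun u => ⟨?_, ?_⟩⟩
  · rw [innerSL_apply_apply, MeasureTheory.L2.inner_def]
    apply integral_congr_ae
    filter_upwards [hψc.coeFn_toLp] with x hx
    rw [hx]
    simp [mul_comm]
  · exact (Lp.memLp u).integrable_mul hψ

theorem gz25516_dbar_cont {Ω : Set E3} {φ : E3 → ℂ} (h : IsTest Ω φ) (j : Fin 3) :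
    Continuous (dbar j φ) := by
  have h1 : Continuous (fderiv ℝ φ) := h.smooth.continuous_fderiv (by simp)
  unfold dbar
  exact continuous_const.mul ((h1.clm_apply continuous_const).add
    (continuous_const.mul (h1.clm_apply continuous_const)))

theorem gz25516_dbar_supp {Ω : Set E3} {φ : E3 → ℂ} (h : IsTest Ω φ) (j : Fin 3) :
    HasCompactSupport (dbar j φ) := by
  have h1 := h.compact.fderiv (𝕜 := ℝ)
  refine h1.comp_left (g := fun L : E3 →L[ℝ] ℂ =>
    (1 / 2) * (L (Pi.single j 1) + I * L (Pi.single j I))) ?_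
  simp

theorem wclosed_submodule (Ω : Set E3) (ho : IsOpen Ω) : ∃ Z : Submodule ℂ (Form Ω),
    (∀ c, c ∈ Z ↔ ∀ φ, IsTest Ω φ → ∫ x in Ω, ∑ i : Fin 3, c i x * dbar i φ x = 0) ∧
      IsClosed (Z : Set (Form Ω)) := by
  have key : ∀ (φ : E3 → ℂ) (h : IsTest Ω φ), ∃ T : Form Ω →L[ℂ] ℂ,
      ∀ c : Form Ω, T c = ∫ x in Ω, ∑ i : Fin 3, c i x * dbar i φ x := by
    intro φ h
    have h1 : ∀ i : Fin 3, ∃ L : L2 Ω →L[ℂ] ℂ, ∀ u : L2 Ω, L u = ∫ x in Ω, u x * dbar i φ x ∧
      Integrable (fun x => u x * dbar i φ x) ((volume : Measure E3).restrict Ω) := fun i =>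
        gz25516_func Ω (dbar i φ) (gz25516_dbar_cont h _) (gz25516_dbar_supp h _)
    choose L hL using h1
    refine ⟨∑ i : Fin 3, (L i).comp (PiLp.proj 2 (fun _ : Fin 3 => L2 Ω) i), fun c => ?_⟩
    rw [integral_finsetSum _ (fun i _ => (hL i (c i)).2)]
    rw [_root_.sum_apply]
    apply Finset.sum_congr rfl
    intro i _
    rw [← (hL i (c i)).1]
    rfl
  choose T hT using key
  refine ⟨⨅ φ, ⨅ h, LinearMap.ker (T φ h).toLinearMap, ?_, ?_⟩
  · intro c
    simp only [Submodule.mem_iInf, LinearMap.mem_ker]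
    refine forall_congr' fun φ => forall_congr' fun h => ?_
    have : (T φ h).toLinearMap c = T φ h c := rfl
    rw [this, hT]
  · simp only [Submodule.coe_iInf]
    refine isClosed_iInter fun φ => isClosed_iInter fun h => ?_
    exact (T φ h).isClosed_ker

theorem gz25516_norm_sq (Ω : Set E3) (f : L2 Ω) : ‖f‖ ^ 2 = ∫ x in Ω, ‖f x‖ ^ 2 := by
  have h1 : (⟪f, f⟫_ℂ) = ((‖f‖ ^ 2 : ℝ) : ℂ) := by
    rw [inner_self_eq_norm_sq_to_K]; push_cast; rfl
  rw [MeasureTheory.L2.inner_def] at h1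
  have h2 : ∀ x, ⟪f x, f x⟫_ℂ = ((‖f x‖ ^ 2 : ℝ) : ℂ) := by
    intro x
    rw [inner_self_eq_norm_sq_to_K]; push_cast; rfl
  simp_rw [h2] at h1
  rw [integral_complex_ofReal] at h1
  exact_mod_cast h1.symm

theorem form_K_le (Ω K : Set E3) (hK : K ⊆ Ω) (hKm : MeasurableSet K) (c : Form Ω) :
    ∑ j, ∫ x in K, ‖c j x‖ ^ 2 ≤ ‖c‖ ^ 2 := by
  rw [PiLp.norm_sq_eq_of_L2]
  apply Finset.sum_le_sum
  intro j _
  rw [gz25516_norm_sq]
  apply setIntegral_mono_set
  · have := (Lp.memLp (c j)).integrable_norm_pow (p := 2) (by norm_num)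
    change Integrable _ _
    simpa using this
  · exact Eventually.of_forall fun x => sq_nonneg _
  · exact Eventually.of_forall hK

theorem om_connected (hD : DomC_stmt) : IsConnected Om := by
  obtain ⟨-, h0, -, -, hS, -⟩ := hD
  have hstar : StarConvex ℝ (0 : E3) Om := by
    rw [starConvex_zero_iff]
    intro x hx a ha0 ha1
    rcases ha1.eq_or_lt with rfl | h
    · simpa using hx
    · exact hS x (subset_closure hx) a ha0 h
  exact (hstar.isPathConnected h0).isConnected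

theorem disc_diff : DifferentiableOn ℂ (fun z : ℂ => (![z, 0, 1] : E3)) (Metric.ball 0 1) := by
  rw [differentiableOn_pi]
  intro i
  fin_cases i
  · exact differentiableOn_id
  · exact differentiableOn_const 0
  · exact differentiableOn_const 1

end DbarC.JGZ
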