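import Pool.Agent.H314.DC.St3
import Pool.Agent.H314.DN.Glue
import Pool.Agent.H314.DC.AB
import Pool.Agent.H314.DC.AC
import Pool.Agent.H314.DC.GZ

set_option autoImplicit false

open MeasureTheory Complex Filter Topology
open scoped ContDiff InnerProductSpace ENNReal ComplexConjugate

namespace DbarC

open DbarN

/-- weakly closed `(0,2)`-forms -/
def WClosed (Ω : Set E3) (c : Form Ω) : Prop :=
  ∀ φ, IsTest Ω φ → ∫ x in Ω, ∑ i : Fin 3, c i x * dbar i φ x = 0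

theorem n1_of (Ω : Set E3) (ho : IsOpen Ω) (h1 : Hor1S_prop Ω) (hF1 : FI1_prop Ω)
    (hF2 : FI2_prop Ω) (hR1 : RE1_stmt) (hR2 : RE2_stmt)
    (hZ : ∃ Z : Submodule ℂ (Form Ω), (∀ c, c ∈ Z ↔ WClosed Ω c) ∧
      IsClosed (Z : Set (Form Ω))) : N1compact Ω := by
  obtain ⟨T, hT, hTc⟩ := JG0.graph0 Ω ho
  obtain ⟨S, hS, hSc⟩ := JG1.graph1 Ω ho
  obtain ⟨Z, hZm, hZc⟩ := hZ
  have hST : ∀ f g, (f, g) ∈ T → (g, (0 : Form Ω)) ∈ S := fun f g h =>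
    (hS _ _).2 (JG4.dbar_dbar Ω ho f g ((hT _ _).1 h))
  have hSZ : ∀ u c, (u, c) ∈ S → c ∈ Z := fun u c h =>
    (hZm c).2 (JG4.dbar_dbar1 Ω ho u c ((hS _ _).1 h))
  have hadj0 : ∀ u f, AdjR T u f ↔ IsAdj0 Ω u f := by
    intro u f
    constructor
    · intro h a b hab
      exact h (a, b) ((hT _ _).2 hab)
    · intro h p hp
      exact h p.1 p.2 ((hT _ _).1 hp)
  have hadj1 : ∀ u f, AdjR S u f ↔ IsAdj1 Ω u f := by
    intro u f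
    constructor
    · intro h a b hab
      exact h (a, b) ((hS _ _).2 hab)
    · intro h p hp
      exact h p.1 p.2 ((hS _ _).1 hp)
  have hbox : ∀ u w, BoxR T S u w ↔ Box Ω u w := by
    intro u w
    unfold BoxR Box
    simp only [hadj0, hadj1, hT, hS]
  obtain ⟨C1, hC1, hex1⟩ := h1
  obtain ⟨K, C2, hKc, hKΩ, hex2⟩ := hF2 1 one_pos
  -- uniform bound for the second one
  have hex2' : ∀ c ∈ Z, ∃ v, (v, c) ∈ S ∧ ‖v‖ ≤ Real.sqrt (1 + max C2 0) * ‖c‖ := by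
    intro c hc
    obtain ⟨v, hv, hvn⟩ := hex2 c ((hZm c).1 hc)
    refine ⟨v, (hS _ _).2 hv, ?_⟩
    have hKle : ∑ j, ∫ x in K, ‖c j x‖ ^ 2 ≤ ‖c‖ ^ 2 := by
      exact JGZ.form_K_le Ω K hKΩ hKc.isClosed.measurableSet c
    have hK0 : 0 ≤ ∑ j, ∫ x in K, ‖c j x‖ ^ 2 :=
      Finset.sum_nonneg fun j _ => integral_nonneg fun x => sq_nonneg _
    have h2 : ‖v‖ ^ 2 ≤ (1 + max C2 0) * ‖c‖ ^ 2 := by
      have a1 : C2 * ∑ j, ∫ x in K, ‖c j x‖ ^ 2 ≤ max C2 0 * ∑ j, ∫ x in K, ‖c j x‖ ^ 2 :=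
        mul_le_mul_of_nonneg_right (le_max_left _ _) hK0
      have a2 : max C2 0 * ∑ j, ∫ x in K, ‖c j x‖ ^ 2 ≤ max C2 0 * ‖c‖ ^ 2 :=
        mul_le_mul_of_nonneg_left hKle (le_max_right _ _)
      linarith
    have h3 := Real.sqrt_le_sqrt h2
    rwa [Real.sqrt_mul (by positivity), Real.sqrt_sq (norm_nonneg _),
      Real.sqrt_sq (norm_nonneg _)] at h3
  obtain ⟨N, hN1, hN2, hN3⟩ := JAB.absN T S Z hTc hSc hZc hST hSZ
    (max C1 (Real.sqrt (1 + max C2 0))) (le_trans hC1 (le_max_left _ _))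
    (fun u hu => by
      obtain ⟨f, hf, hfn⟩ := hex1 u ((hS _ _).1 hu)
      exact ⟨f, (hT _ _).2 hf, hfn.trans
        (mul_le_mul_of_nonneg_right (le_max_left _ _) (norm_nonneg _))⟩)
    (fun c hc => by
      obtain ⟨v, hv, hvn⟩ := hex2' c hc
      exact ⟨v, hv, hvn.trans (mul_le_mul_of_nonneg_right (le_max_right _ _) (norm_nonneg _))⟩)
    (fun ε hε => by
      obtain ⟨n, φ, h⟩ := JAC.f1 Ω ho ⟨C1, hC1, hex1⟩ hF1 hR1 ε hε
      exact ⟨n, φ, fun f g hfg hh => h f g ((hT _ _).1 hfg) (fun k hk => hh k ((hT _ _).2 hk))⟩)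
    (fun ε hε => by
      obtain ⟨n, φ, h⟩ := JAC.f2 Ω ho hF2 hR2 ε hε
      exact ⟨n, φ, fun c hc w hw => h c ((hZm c).1 hc) w ((hadj1 _ _).1 hw)⟩)
  exact ⟨N, fun v => (hbox _ _).1 (hN1 v), fun u w h => hN2 u w ((hbox _ _).2 h), hN3⟩

end DbarC
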