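import Pool.Agent.H314.DC.St3
import Pool.Agent.H314.DN.AP
import Pool.Agent.H314.DN.PL

set_option autoImplicit false

open MeasureTheory Complex Filter Topology
open scoped ContDiff InnerProductSpace ENNReal ComplexConjugate

namespace DbarC.JPLj
open DbarN

open DbarN.JAP.APL in
theorem plr_core {T : ℝ} {psi1 psi2 m : ℝ → ℝ} {K : Set ℂ} (hK : IsCompact K) (hKU : K ⊆ UU T)
    (h2 : ∀ t ∈ Set.Ioo (-1) T, HasDerivAt psi1 (psi2 t) t)
    (hc : ContinuousOn psi2 (Set.Ioo (-1) T)) (hm : ContinuousOn m (Set.Ico 0 T))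
    (hmp : ∀ t ∈ Set.Ico 0 T, m t ≤ psi1 t + t * psi2 t)
    {a b : ℂ → ℝ} (ha : ContDiff ℝ 2 a) (hb : ContDiff ℝ 2 b) (ha0 : ∀ z, z ∉ K → a z = 0)
    (hb0 : ∀ z, z ∉ K → b z = 0) :
    ∫ z, m (‖z‖ ^ 2) * (a z ^ 2 + b z ^ 2) ≤
      ∫ z : ℂ, (1 / 4) * (((fderiv ℝ a z 1 - psi1 (‖z‖ ^ 2) * z.im * b z) +
        (fderiv ℝ b z I - psi1 (‖z‖ ^ 2) * z.re * a z)) ^ 2 +
        ((fderiv ℝ b z 1 + psi1 (‖z‖ ^ 2) * z.im * a z) -
        (fderiv ℝ a z I + psi1 (‖z‖ ^ 2) * z.re * b z)) ^ 2) := by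
  -- abbreviations
  set g : ℂ → ℝ := fun z => a z ^ 2 + b z ^ 2 with hgdef
  have hg : ContDiff ℝ 2 g := (ha.pow 2).add (hb.pow 2)
  have hg1 : ContDiff ℝ 1 g := hg.of_le (by norm_num)
  have hg0 : ∀ z, z ∉ K → g z = 0 := by
    intro z hz
    simp [hgdef, ha0 z hz, hb0 z hz]
  have hgn : ∀ z, 0 ≤ g z := fun z => by positivity
  have had : Differentiable ℝ a := ha.differentiable (by norm_num)
  have hbd : Differentiable ℝ b := hb.differentiable (by norm_num)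
  have hgd : ∀ z w, fderiv ℝ g z w = 2 * (a z * fderiv ℝ a z w + b z * fderiv ℝ b z w) := by
    intro z w
    have h : HasFDerivAt g ((2 * a z) • fderiv ℝ a z + (2 * b z) • fderiv ℝ b z) z := by
      have h1 := (had z).hasFDerivAt.pow 2
      have h2 := (hbd z).hasFDerivAt.pow 2
      have h3 := h1.add h2
      refine h3.congr_fderiv ?_
      ext v
      simp
    rw [h.fderiv]
    simp
    ring
  have hts : ∀ {h : ℂ → ℝ}, (∀ z, z ∉ K → h z = 0) → tsupport h ⊆ K := by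
    intro h hh
    refine closure_minimal ?_ hK.isClosed
    intro z hz
    by_contra h'
    exact hz (hh z h')
  have hfd0 : ∀ {h : ℂ → ℝ}, (∀ z, z ∉ K → h z = 0) → ∀ z w, z ∉ K → fderiv ℝ h z w = 0 := by
    intro h hh z w hz
    have : z ∉ tsupport h := fun h' => hz (hts hh h')
    rw [fderiv_of_notMem_tsupport (𝕜 := ℝ) this]
    simp
  have hfc : ∀ {h : ℂ → ℝ}, ContDiff ℝ 1 h → ∀ w, Continuous (fun z => fderiv ℝ h z w) :=
    fun hh w => (hh.continuous_fderiv one_ne_zero).clm_apply continuous_const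
  have ha1 : ContDiff ℝ 1 a := ha.of_le (by norm_num)
  have hb1 : ContDiff ℝ 1 b := hb.of_le (by norm_num)
  have cax := (hfc ha1 1).continuousOn (s := UU T)
  have cay := (hfc ha1 I).continuousOn (s := UU T)
  have cbx := (hfc hb1 1).continuousOn (s := UU T)
  have cby := (hfc hb1 I).continuousOn (s := UU T)
  have cgx := (hfc hg1 1).continuousOn (s := UU T)
  have cgy := (hfc hg1 I).continuousOn (s := UU T)
  have ca := ha.continuous.continuousOn (s := UU T)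
  have cb := hb.continuous.continuousOn (s := UU T)
  have cg := hg.continuous.continuousOn (s := UU T)
  have cS : ContinuousOn (fun z : ℂ => psi1 (‖z‖ ^ 2)) (UU T) :=
    (psi1_smooth h2 hc).continuousOn.comp (by fun_prop) (mapsTo_UU T)
  have cS2 : ContinuousOn (fun z : ℂ => psi2 (‖z‖ ^ 2)) (UU T) :=
    hc.comp (by fun_prop) (mapsTo_UU T)
  have hmaps : Set.MapsTo (fun z : ℂ => ‖z‖ ^ 2) (UU T) (Set.Ico 0 T) := fun z hz =>
    ⟨by positivity, hz⟩
  have cm : ContinuousOn (fun z : ℂ => m (‖z‖ ^ 2)) (UU T) := hm.comp (by fun_prop) hmaps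
  have cre : ContinuousOn (fun z : ℂ => z.re) (UU T) := Complex.continuous_re.continuousOn
  have cim : ContinuousOn (fun z : ℂ => z.im) (UU T) := Complex.continuous_im.continuousOn
  have cn : ContinuousOn (fun z : ℂ => ‖z‖ ^ 2) (UU T) := by fun_prop
  have hU := isOpen_UU T
  set Pr : ℂ → ℝ := fun z => fderiv ℝ a z 1 - psi1 (‖z‖ ^ 2) * z.im * b z with hPr
  set Qi : ℂ → ℝ := fun z => fderiv ℝ b z I - psi1 (‖z‖ ^ 2) * z.re * a z with hQi
  set Pi : ℂ → ℝ := fun z => fderiv ℝ b z 1 + psi1 (‖z‖ ^ 2) * z.im * a z with hPi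
  set Qr : ℂ → ℝ := fun z => fderiv ℝ a z I + psi1 (‖z‖ ^ 2) * z.re * b z with hQr
  have cPr : ContinuousOn Pr (UU T) := cax.sub ((cS.mul cim).mul cb)
  have cQi : ContinuousOn Qi (UU T) := cby.sub ((cS.mul cre).mul ca)
  have cPi : ContinuousOn Pi (UU T) := cbx.add ((cS.mul cim).mul ca)
  have cQr : ContinuousOn Qr (UU T) := cay.add ((cS.mul cre).mul cb)
  have ig : Integrable g := int_of_zero hU hK hKU cg hg0
  set M : ℂ → ℝ := fun z => psi1 (‖z‖ ^ 2) + ‖z‖ ^ 2 * psi2 (‖z‖ ^ 2) with hM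
  have cM : ContinuousOn M (UU T) := cS.add (cn.mul cS2)
  have iMg : Integrable (fun z => M z * g z) :=
    int_of_zero hU hK hKU (cM.mul cg) fun z hz => by rw [hg0 z hz, mul_zero]
  have img : Integrable (fun z : ℂ => m (‖z‖ ^ 2) * g z) :=
    int_of_zero hU hK hKU (cm.mul cg) fun z hz => by rw [hg0 z hz, mul_zero]
  have iJ : Integrable (fun z => fderiv ℝ a z 1 * fderiv ℝ b z I -
      fderiv ℝ b z 1 * fderiv ℝ a z I) :=
    int_of_zero hU hK hKU ((cax.mul cby).sub (cbx.mul cay)) fun z hz => by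
      rw [hfd0 ha0 z _ hz, hfd0 ha0 z _ hz]; ring
  have iX : Integrable (fun z : ℂ => (psi1 (‖z‖ ^ 2) * z.re) * fderiv ℝ g z 1) :=
    int_of_zero hU hK hKU ((cS.mul cre).mul cgx) fun z hz => by
      rw [hfd0 hg0 z _ hz]; ring
  have iY : Integrable (fun z : ℂ => (psi1 (‖z‖ ^ 2) * z.im) * fderiv ℝ g z I) :=
    int_of_zero hU hK hKU ((cS.mul cim).mul cgy) fun z hz => by
      rw [hfd0 hg0 z _ hz]; ring
  have iX' : Integrable (fun z : ℂ => (2 * psi2 (‖z‖ ^ 2) * z.re ^ 2 + psi1 (‖z‖ ^ 2)) * g z) :=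
    int_of_zero hU hK hKU ((((continuousOn_const.mul cS2).mul (cre.pow 2)).add cS).mul cg)
      fun z hz => by rw [hg0 z hz]; ring
  have iY' : Integrable (fun z : ℂ => (2 * psi2 (‖z‖ ^ 2) * z.im ^ 2 + psi1 (‖z‖ ^ 2)) * g z) :=
    int_of_zero hU hK hKU ((((continuousOn_const.mul cS2).mul (cim.pow 2)).add cS).mul cg)
      fun z hz => by rw [hg0 z hz]; ring
  have iPQ : Integrable (fun z : ℂ => Pr z * Qi z - Pi z * Qr z) :=
    int_of_zero hU hK hKU ((cPr.mul cQi).sub (cPi.mul cQr)) fun z hz => by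
      simp only [hPr, hPi, hQr, hQi, ha0 z hz, hb0 z hz, hfd0 ha0 z _ hz, hfd0 hb0 z _ hz]
      ring
  have iSq : Integrable (fun z : ℂ => (1 / 4 : ℝ) * ((Pr z + Qi z) ^ 2 + (Pi z - Qr z) ^ 2)) :=
    int_of_zero hU hK hKU (continuousOn_const.mul (((cPr.add cQi).pow 2).add
      ((cPi.sub cQr).pow 2))) fun z hz => by
      simp only [hPr, hPi, hQr, hQi, ha0 z hz, hb0 z hz, hfd0 ha0 z _ hz, hfd0 hb0 z _ hz]
      ring
  have eJ := int_jac hK ha hb ha0
  have eX := int_div_re hK hKU h2 hc hg1 hg0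
  have eY := int_div_im hK hKU h2 hc hg1 hg0
  have eXY : (∫ z : ℂ, (2 * psi2 (‖z‖ ^ 2) * z.re ^ 2 + psi1 (‖z‖ ^ 2)) * g z) +
      (∫ z : ℂ, (2 * psi2 (‖z‖ ^ 2) * z.im ^ 2 + psi1 (‖z‖ ^ 2)) * g z) =
      2 * ∫ z, M z * g z := by
    rw [← integral_add iX' iY', ← integral_const_mul]
    refine integral_congr_ae (Eventually.of_forall fun z => ?_)
    have hz : ‖z‖ ^ 2 = z.re ^ 2 + z.im ^ 2 := by
      rw [← Complex.normSq_eq_norm_sq, Complex.normSq_apply]; ring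
    simp only [hM]
    generalize psi1 (‖z‖ ^ 2) = s1
    generalize psi2 (‖z‖ ^ 2) = s2
    rw [hz]
    ring
  have e1 : ∫ z : ℂ, (Pr z * Qi z - Pi z * Qr z) =
      (∫ z, (fderiv ℝ a z 1 * fderiv ℝ b z I - fderiv ℝ b z 1 * fderiv ℝ a z I)) +
      ((-(1 / 2)) * (∫ z : ℂ, (psi1 (‖z‖ ^ 2) * z.re) * fderiv ℝ g z 1) +
      (-(1 / 2)) * (∫ z : ℂ, (psi1 (‖z‖ ^ 2) * z.im) * fderiv ℝ g z I)) := by
    have i3 : Integrable (fun z : ℂ => (-(1 / 2 : ℝ)) * (psi1 (‖z‖ ^ 2) * z.re * fderiv ℝ g z 1) +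
        (-(1 / 2 : ℝ)) * (psi1 (‖z‖ ^ 2) * z.im * fderiv ℝ g z I)) :=
      (iX.const_mul _).add (iY.const_mul _)
    rw [← integral_const_mul, ← integral_const_mul,
      ← integral_add (iX.const_mul _) (iY.const_mul _), ← integral_add iJ i3]
    refine integral_congr_ae (Eventually.of_forall fun z => ?_)
    simp only [hPr, hPi, hQr, hQi, hgd]
    ring
  have e2 : ∫ z : ℂ, (Pr z * Qi z - Pi z * Qr z) = ∫ z, M z * g z := by
    rw [e1, eJ, eX, eY]
    linarith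
  have e3 : ∫ z : ℂ, (Pr z * Qi z - Pi z * Qr z) ≤
      ∫ z : ℂ, (1 / 4) * ((Pr z + Qi z) ^ 2 + (Pi z - Qr z) ^ 2) := by
    refine integral_mono iPQ iSq fun z => ?_
    simp only
    nlinarith [sq_nonneg (Pr z - Qi z), sq_nonneg (Pi z + Qr z)]
  have e4 : ∫ z : ℂ, m (‖z‖ ^ 2) * g z ≤ ∫ z, M z * g z := by
    refine integral_mono img iMg fun z => ?_
    by_cases hz : z ∈ K
    · have h1 := hmp _ (hmaps (hKU hz))
      have h3 := hgn z
      simp only [hM]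
      exact mul_le_mul_of_nonneg_right h1 h3
    · simp only [hg0 z hz, mul_zero, le_refl]
  exact e4.trans (e2.symm.le.trans e3)

open DbarN.JAP.APL in
theorem plr_apl {T : ℝ} {psi psi1 psi2 m : ℝ → ℝ}
    (h1 : ∀ t ∈ Set.Ioo (-1) T, HasDerivAt psi (psi1 t) t)
    (h2 : ∀ t ∈ Set.Ioo (-1) T, HasDerivAt psi1 (psi2 t) t)
    (hc : ContinuousOn psi2 (Set.Ioo (-1) T)) (hm : ContinuousOn m (Set.Ico 0 T))
    (hmp : ∀ t ∈ Set.Ico 0 T, m t ≤ psi1 t + t * psi2 t)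
    {u : ℂ → ℂ} (hu : ContDiff ℝ 2 u) (huc : HasCompactSupport u)
    (hus : tsupport u ⊆ {z | ‖z‖ ^ 2 < T}) :
      ∫ z, m (‖z‖ ^ 2) * ‖u z‖ ^ 2 * Real.exp (-psi (‖z‖ ^ 2)) ≤
        ∫ z, ‖dz1 u z - ((psi1 (‖z‖ ^ 2) : ℝ) : ℂ) * conj z * u z‖ ^ 2 *
          Real.exp (-psi (‖z‖ ^ 2)) := by
  have hK : IsCompact (tsupport u) := huc
  have hKU : tsupport u ⊆ UU T := hus
  have hU := isOpen_UU T
  have hu0 : ∀ z, z ∉ tsupport u → u z = 0 := fun z hz => image_eq_zero_of_notMem_tsupport hz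
  set ur : ℂ → ℝ := fun z => (u z).re with hur
  set ui : ℂ → ℝ := fun z => (u z).im with hui
  have hurs : ContDiff ℝ 2 ur := Complex.reCLM.contDiff.comp hu
  have huis : ContDiff ℝ 2 ui := Complex.imCLM.contDiff.comp hu
  have hur0 : ∀ z, z ∉ tsupport u → ur z = 0 := fun z hz => by simp [hur, hu0 z hz]
  have hui0 : ∀ z, z ∉ tsupport u → ui z = 0 := fun z hz => by simp [hui, hu0 z hz]
  have hΨ : ContDiffOn ℝ 2 (fun z : ℂ => psi (‖z‖ ^ 2)) (UU T) :=
    (psi_smooth h1 h2 hc).comp contDiff_nsq.contDiffOn (mapsTo_UU T)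
  set G : ℂ → ℝ := fun z => Real.exp (-psi (‖z‖ ^ 2) / 2) with hG
  have hGs : ContDiffOn ℝ 2 G (UU T) := by
    have : ContDiffOn ℝ 2 (fun z : ℂ => -psi (‖z‖ ^ 2) / 2) (UU T) := (hΨ.neg).div_const 2
    exact this.exp
  have ha := contDiff_mul_support hU hK.isClosed hKU hGs hurs hur0
  have hb := contDiff_mul_support hU hK.isClosed hKU hGs huis hui0
  have hmain := plr_core hK hKU h2 hc hm hmp ha hb (fun z hz => by rw [hur0 z hz, mul_zero])
    (fun z hz => by rw [hui0 z hz, mul_zero])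
  have hG2 : ∀ z : ℂ, G z ^ 2 = Real.exp (-psi (‖z‖ ^ 2)) := by
    intro z
    rw [hG, sq, ← Real.exp_add]
    congr 1
    ring
  have hud : Differentiable ℝ u := hu.differentiable (by norm_num)
  have hfr : ∀ z w, fderiv ℝ ur z w = (fderiv ℝ u z w).re := by
    intro z w
    have h : HasFDerivAt ur (Complex.reCLM.comp (fderiv ℝ u z)) z :=
      Complex.reCLM.hasFDerivAt.comp z (hud z).hasFDerivAt
    rw [h.fderiv]; rfl
  have hfi : ∀ z w, fderiv ℝ ui z w = (fderiv ℝ u z w).im := by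
    intro z w
    have h : HasFDerivAt ui (Complex.imCLM.comp (fderiv ℝ u z)) z :=
      Complex.imCLM.hasFDerivAt.comp z (hud z).hasFDerivAt
    rw [h.fderiv]; rfl
  have hGd : ∀ z ∈ UU T, DifferentiableAt ℝ G z ∧ ∀ w, fderiv ℝ G z w =
      - (G z * (psi1 (‖z‖ ^ 2) * (z.re * w.re + z.im * w.im))) := by
    intro z hz
    obtain ⟨hd, -⟩ := fderiv_rad h1 hz 1
    have h3 : HasFDerivAt G (Real.exp (-psi (‖z‖ ^ 2) / 2) •
        ((-(1 / 2 : ℝ)) • fderiv ℝ (fun z : ℂ => psi (‖z‖ ^ 2)) z)) z := by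
      have h4 : HasFDerivAt (fun z : ℂ => -psi (‖z‖ ^ 2) / 2)
          ((-(1 / 2 : ℝ)) • fderiv ℝ (fun z : ℂ => psi (‖z‖ ^ 2)) z) z := by
        have h5 := hd.hasFDerivAt.const_mul (-(1 / 2 : ℝ))
        refine h5.congr_of_eventuallyEq (Eventually.of_forall fun y => ?_)
        simp only
        ring
      exact h4.exp
    refine ⟨h3.differentiableAt, fun w => ?_⟩
    rw [h3.fderiv]
    simp only [smul_apply, smul_eq_mul, (fderiv_rad h1 hz w).2]
    ring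
  have hleft : ∫ z, m (‖z‖ ^ 2) * ‖u z‖ ^ 2 * Real.exp (-psi (‖z‖ ^ 2)) =
      ∫ z, m (‖z‖ ^ 2) * ((G z * ur z) ^ 2 + (G z * ui z) ^ 2) := by
    refine integral_congr_ae (Eventually.of_forall fun z => ?_)
    simp only
    rw [← hG2, ← Complex.normSq_eq_norm_sq (u z), Complex.normSq_apply]
    simp only [hur, hui]
    ring
  rw [hleft]
  refine hmain.trans (le_of_eq ?_)
  refine integral_congr_ae (Eventually.of_forall fun z => ?_)
  simp only
  by_cases hz : z ∈ tsupport u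
  · have hzU := hKU hz
    obtain ⟨hGd1, hGd2⟩ := hGd z hzU
    have hA : ∀ w, fderiv ℝ (fun z => G z * ur z) z w =
        G z * (fderiv ℝ u z w).re - ur z * (G z * (psi1 (‖z‖ ^ 2) * (z.re * w.re + z.im * w.im))) := by
      intro w
      rw [fderiv_fun_mul hGd1 ((hurs.differentiable (by norm_num)) z)]
      simp only [add_apply, smul_apply, smul_eq_mul, hGd2, hfr]
      ring
    have hB : ∀ w, fderiv ℝ (fun z => G z * ui z) z w =
        G z * (fderiv ℝ u z w).im - ui z * (G z * (psi1 (‖z‖ ^ 2) * (z.re * w.re + z.im * w.im))) := by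
      intro w
      rw [fderiv_fun_mul hGd1 ((huis.differentiable (by norm_num)) z)]
      simp only [add_apply, smul_apply, smul_eq_mul, hGd2, hfi]
      ring
    rw [← hG2, hA, hA, hB, hB]
    have hnorm : ‖dz1 u z - ((psi1 (‖z‖ ^ 2) : ℝ) : ℂ) * conj z * u z‖ ^ 2 =
        ((1 / 2) * ((fderiv ℝ u z 1).re + (fderiv ℝ u z I).im) -
          psi1 (‖z‖ ^ 2) * (z.re * ur z + z.im * ui z)) ^ 2 +
        ((1 / 2) * ((fderiv ℝ u z 1).im - (fderiv ℝ u z I).re) -
          psi1 (‖z‖ ^ 2) * (z.re * ui z - z.im * ur z)) ^ 2 := by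
      rw [← Complex.normSq_eq_norm_sq, Complex.normSq_apply]
      have hre : (dz1 u z - ((psi1 (‖z‖ ^ 2) : ℝ) : ℂ) * conj z * u z).re =
          (1 / 2) * ((fderiv ℝ u z 1).re + (fderiv ℝ u z I).im) -
          psi1 (‖z‖ ^ 2) * (z.re * ur z + z.im * ui z) := by
        unfold dz1
        generalize fderiv ℝ u z 1 = p
        generalize fderiv ℝ u z I = q
        generalize psi1 (‖z‖ ^ 2) = s
        simp [hur, hui]
        ring
      have him : (dz1 u z - ((psi1 (‖z‖ ^ 2) : ℝ) : ℂ) * conj z * u z).im =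
          (1 / 2) * ((fderiv ℝ u z 1).im - (fderiv ℝ u z I).re) -
          psi1 (‖z‖ ^ 2) * (z.re * ui z - z.im * ur z) := by
        unfold dz1
        generalize fderiv ℝ u z 1 = p
        generalize fderiv ℝ u z I = q
        generalize psi1 (‖z‖ ^ 2) = s
        simp [hur, hui]
        ring
      rw [hre, him]
      ring
    rw [hnorm]
    generalize fderiv ℝ u z 1 = p
    generalize fderiv ℝ u z I = q
    generalize psi1 (‖z‖ ^ 2) = s
    simp only [Complex.one_re, Complex.one_im, Complex.I_re, Complex.I_im]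
    ring
  · have hfd0 : ∀ {h : ℂ → ℝ}, (∀ z, z ∉ tsupport u → h z = 0) → ∀ w, fderiv ℝ h z w = 0 := by
      intro h hh w
      have hts : tsupport h ⊆ tsupport u := by
        refine closure_minimal ?_ hK.isClosed
        intro y hy
        by_contra h'
        exact hy (hh y h')
      have : z ∉ tsupport h := fun h' => hz (hts h')
      rw [fderiv_of_notMem_tsupport (𝕜 := ℝ) this]
      simp
    have hd0 : dz1 u z = 0 := by
      unfold dz1
      rw [fderiv_of_notMem_tsupport (𝕜 := ℝ) hz]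
      simp
    rw [hd0, hu0 z hz, hur0 z hz, hui0 z hz,
      hfd0 (h := fun z => G z * ur z) (fun z hz => by simp only [hur0 z hz, mul_zero]),
      hfd0 (h := fun z => G z * ui z) (fun z hz => by simp only [hui0 z hz, mul_zero]),
      hfd0 (h := fun z => G z * ur z) (fun z hz => by simp only [hur0 z hz, mul_zero]),
      hfd0 (h := fun z => G z * ui z) (fun z hz => by simp only [hui0 z hz, mul_zero])]
    simp

open DbarN.JPL.PLx in
theorem plr : PLr_stmt := by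
  intro T psi psi1 psi2 m hT hpsi hpsi1 hpsi2 hm hmpos hconv F0 hF0 hFi
  have hpc : ContinuousOn psi (Set.Ioo (-1) T) :=
    fun t ht => (hpsi t ht).continuousAt.continuousWithinAt
  have hpc1 : ContinuousOn psi1 (Set.Ioo (-1) T) :=
    fun t ht => (hpsi1 t ht).continuousAt.continuousWithinAt
  obtain ⟨q, hqd⟩ : ∃ q : ℂ → ℝ, q = fun z => m (‖z‖ ^ 2) := ⟨_, rfl⟩
  have hqe : ∀ z : ℂ, m (‖z‖ ^ 2) = q z := fun z => by rw [hqd]
  have hBo : IsOpen {z : ℂ | ‖z‖ ^ 2 < T} := isOpen_B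
  have hBm : MeasurableSet {z : ℂ | ‖z‖ ^ 2 < T} := hBo.measurableSet
  have hq : ∀ z ∈ {z : ℂ | ‖z‖ ^ 2 < T}, 0 < q z := by
    intro z hz
    rw [← hqe]
    exact hmpos (‖z‖ ^ 2) ⟨sq_nonneg _, hz⟩
  have hqc : ContinuousOn q {z : ℂ | ‖z‖ ^ 2 < T} := by
    rw [hqd]
    exact cont_nsq' hm
  simp only [hqe] at hFi ⊢
  have hA : 0 ≤ ∫ z in {z : ℂ | ‖z‖ ^ 2 < T}, ‖F0 z‖ ^ 2 / q z * Real.exp (-psi (‖z‖ ^ 2)) :=
    setIntegral_nonneg hBm (fun z hz => by
      have := hq z hz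
      positivity)
  have hap : ∀ u ∈ CU {z : ℂ | ‖z‖ ^ 2 < T},
      ∫ z, q z * ‖u z‖ ^ 2 * Real.exp (-psi (‖z‖ ^ 2)) ≤
        ∫ z, ‖dz1 u z - ((psi1 (‖z‖ ^ 2) : ℝ) : ℂ) * conj z * u z‖ ^ 2 *
          Real.exp (-psi (‖z‖ ^ 2)) := by
    intro u hu
    have := plr_apl hpsi hpsi1 hpsi2 hm hconv hu.1 hu.2.1 hu.2.2
    simp only [hqe] at this
    exact this
  have hrc : ContinuousOn (fun z => rW psi z) {z : ℂ | ‖z‖ ^ 2 < T} := rW_cont hpc
  have hG : ContinuousOn (fun z => -(conj (F0 z) * ((rW psi z ^ 2 : ℝ) : ℂ)))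
      {z : ℂ | ‖z‖ ^ 2 < T} :=
    ((Complex.continuous_conj.comp_continuousOn hF0).mul
      (Complex.continuous_ofReal.comp_continuousOn (hrc.pow 2))).neg
  -- the bound
  have hbd : ∀ u : CU {z : ℂ | ‖z‖ ^ 2 < T}, ‖DbarN.JPL.PLx.FF _ hG u‖ ≤
      Real.sqrt (∫ z in {z : ℂ | ‖z‖ ^ 2 < T}, ‖F0 z‖ ^ 2 / q z * Real.exp (-psi (‖z‖ ^ 2))) *
        ‖LL hpc hpc1 u‖ := by
    intro u
    have hsq : ContinuousOn (fun z => Real.sqrt (q z)) {z : ℂ | ‖z‖ ^ 2 < T} :=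
      Real.continuous_sqrt.comp_continuousOn hqc
    have hac : ContinuousOn (fun z => ‖F0 z‖ / Real.sqrt (q z) * rW psi z)
        {z : ℂ | ‖z‖ ^ 2 < T} :=
      (hF0.norm.div hsq (fun z hz => (Real.sqrt_pos.2 (hq z hz)).ne')).mul hrc
    have ha : MemLp (fun z => ‖F0 z‖ / Real.sqrt (q z) * rW psi z) 2
        (volume.restrict {z : ℂ | ‖z‖ ^ 2 < T}) := by
      rw [memLp_two_iff_integrable_sq (hac.aestronglyMeasurable hBm)]
      refine IntegrableOn.congr_fun hFi (fun z hz => ?_) hBm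
      change _ = (‖F0 z‖ / Real.sqrt (q z) * rW psi z) ^ 2
      rw [mul_pow, div_pow, Real.sq_sqrt (hq z hz).le, rW_sq]
    have hbc : ContinuousOn (fun z => ((Real.sqrt (q z) * rW psi z : ℝ) : ℂ))
        {z : ℂ | ‖z‖ ^ 2 < T} := Complex.continuous_ofReal.comp_continuousOn (hsq.mul hrc)
    have hb : MemLp (fun z => ‖((Real.sqrt (q z) * rW psi z : ℝ) : ℂ) * u.1 z‖) 2
        (volume.restrict {z : ℂ | ‖z‖ ^ 2 < T}) :=
      (((cont_mul_supp hBo hbc u.2.1.continuous u.2.2.2).memLp_of_hasCompactSupport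
        (hcs_mul u.2.2.1)).restrict _).norm
    have h3 := cs (fun z => mul_nonneg (div_nonneg (norm_nonneg (F0 z)) (Real.sqrt_nonneg (q z)))
      (rW_pos psi z).le) (fun z => norm_nonneg _) ha hb
    have h4 : ‖DbarN.JPL.PLx.FF _ hG u‖ ≤ ∫ z in {z : ℂ | ‖z‖ ^ 2 < T},
        (‖F0 z‖ / Real.sqrt (q z) * rW psi z) *
          ‖((Real.sqrt (q z) * rW psi z : ℝ) : ℂ) * u.1 z‖ := by
      refine le_trans (norm_integral_le_integral_norm _) (le_of_eq ?_)
      refine setIntegral_congr_fun hBm (fun z hz => ?_)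
      have hs := Real.sqrt_pos.2 (hq z hz)
      have hr := rW_pos psi z
      change ‖-(conj (F0 z) * ((rW psi z ^ 2 : ℝ) : ℂ)) * u.1 z‖ = _
      rw [norm_mul, norm_neg, norm_mul, norm_mul, Complex.norm_real, Complex.norm_real,
        RCLike.norm_conj, Real.norm_of_nonneg (by positivity),
        Real.norm_of_nonneg (by positivity)]
      field_simp
    have h5 : ∫ z in {z : ℂ | ‖z‖ ^ 2 < T}, (‖F0 z‖ / Real.sqrt (q z) * rW psi z) ^ 2 =
        ∫ z in {z : ℂ | ‖z‖ ^ 2 < T}, ‖F0 z‖ ^ 2 / q z * Real.exp (-psi (‖z‖ ^ 2)) := by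
      refine setIntegral_congr_fun hBm (fun z hz => ?_)
      change (‖F0 z‖ / Real.sqrt (q z) * rW psi z) ^ 2 = _
      rw [mul_pow, div_pow, Real.sq_sqrt (hq z hz).le, rW_sq]
    have h6 : ∫ z in {z : ℂ | ‖z‖ ^ 2 < T},
        ‖((Real.sqrt (q z) * rW psi z : ℝ) : ℂ) * u.1 z‖ ^ 2 ≤ ‖LL hpc hpc1 u‖ ^ 2 := by
      rw [LL_norm]
      refine le_trans (le_of_eq ?_) (hap u.1 u.2)
      rw [← setIntegral_eq_integral_of_forall_compl_eq_zero
        (s := {z : ℂ | ‖z‖ ^ 2 < T}) (f := fun z => q z * ‖u.1 z‖ ^ 2 *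
          Real.exp (-psi (‖z‖ ^ 2)))]
      · refine setIntegral_congr_fun hBm (fun z hz => ?_)
        change ‖((Real.sqrt (q z) * rW psi z : ℝ) : ℂ) * u.1 z‖ ^ 2 = _
        rw [norm_mul, Complex.norm_real, Real.norm_of_nonneg
          (mul_nonneg (Real.sqrt_nonneg _) (rW_pos psi z).le), mul_pow, mul_pow,
          Real.sq_sqrt (hq z hz).le, rW_sq]
        ring
      · intro z hz
        rw [image_eq_zero_of_notMem_tsupport (fun h => hz (u.2.2.2 h))]
        simp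
    rw [h5] at h3
    refine le_trans h4 (le_trans h3 ?_)
    refine mul_le_mul_of_nonneg_left ?_ (Real.sqrt_nonneg _)
    exact Real.sqrt_le_iff.2 ⟨norm_nonneg _, h6⟩
  obtain ⟨b, hbn, hbi⟩ := riesz_ext (LL hpc hpc1) (DbarN.JPL.PLx.FF _ hG) _ (Real.sqrt_nonneg _) hbd
  have hrp := rW_pos psi
  have hsqe : ∀ z, ‖b z * (((rW psi z)⁻¹ : ℝ) : ℂ)‖ ^ 2 * Real.exp (-psi (‖z‖ ^ 2)) =
      ‖b z‖ ^ 2 := by
    intro z
    have := (hrp z).ne'
    rw [norm_mul, Complex.norm_real, Real.norm_of_nonneg (inv_nonneg.2 (hrp z).le), mul_pow,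
      ← rW_sq]
    field_simp
  refine ⟨fun z => b z * (((rW psi z)⁻¹ : ℝ) : ℂ), ?_, ?_, ?_, ?_⟩
  · refine (Lp.aestronglyMeasurable b).mul ?_
    refine ContinuousOn.aestronglyMeasurable ?_ hBm
    exact Complex.continuous_ofReal.comp_continuousOn (hrc.inv₀ (fun z _ => (hrp z).ne'))
  · simp only [hsqe]
    exact (Lp.memLp b).integrable_norm_pow (by norm_num)
  · simp only [hsqe]
    rw [← normsq_Lp]
    calc ‖b‖ ^ 2 ≤ (Real.sqrt (∫ z in {z : ℂ | ‖z‖ ^ 2 < T},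
          ‖F0 z‖ ^ 2 / q z * Real.exp (-psi (‖z‖ ^ 2)))) ^ 2 :=
          pow_le_pow_left₀ (norm_nonneg _) hbn 2
      _ = _ := Real.sq_sqrt hA
  · intro φ hφ hφc hφs
    have hcφ : ContDiff ℝ 2 (fun w => conj (φ w)) :=
      (Complex.conjCLE : ℂ →L[ℝ] ℂ).contDiff.comp (by exact_mod_cast contDiff_infty.1 hφ 2)
    have hts : tsupport (fun w => conj (φ w)) ⊆ tsupport φ :=
      closure_mono (fun z hz h => hz (by
        change conj (φ z) = 0
        rw [h]
        simp))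
    have hu : (fun w => VV psi w * conj (φ w)) ∈ CU {z : ℂ | ‖z‖ ^ 2 < T} := by
      refine ⟨contDiff_mul_supp hBo (VV_c2 (psi_c2 hpsi hpsi1 hpsi2)) hcφ (hts.trans hφs), ?_, ?_⟩
      · refine HasCompactSupport.intro hφc (fun z hz => ?_)
        rw [image_eq_zero_of_notMem_tsupport hz]
        simp
      · refine (closure_minimal ?_ (isClosed_tsupport φ)).trans hφs
        intro z hz
        by_contra h
        apply hz
        change VV psi z * conj (φ z) = 0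
        rw [image_eq_zero_of_notMem_tsupport h]
        simp
    have h7 := hbi ⟨_, hu⟩
    have hVr : ∀ z, ((rW psi z ^ 2 : ℝ) : ℂ) * VV psi z = 1 := by
      intro z
      rw [rW_sq, VV, ← Complex.ofReal_mul, ← Real.exp_add]
      simp
    have hVr2 : ∀ z, (rW psi z : ℂ) * VV psi z = (((rW psi z)⁻¹ : ℝ) : ℂ) := by
      intro z
      have h8 := hVr z
      have h9 : (rW psi z : ℂ) ≠ 0 := by exact_mod_cast (hrp z).ne'
      push_cast at h8 ⊢
      field_simp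
      rw [← h8]
    have h8 : DbarN.JPL.PLx.FF _ hG ⟨_, hu⟩ = - conj (∫ z in {z : ℂ | ‖z‖ ^ 2 < T}, F0 z * φ z) := by
      change ∫ z in {z : ℂ | ‖z‖ ^ 2 < T}, -(conj (F0 z) * ((rW psi z ^ 2 : ℝ) : ℂ)) *
        (VV psi z * conj (φ z)) = _
      rw [← integral_conj, ← integral_neg]
      congr 1
      funext z
      rw [map_mul, show -(conj (F0 z) * ((rW psi z ^ 2 : ℝ) : ℂ)) * (VV psi z * conj (φ z)) =
        -(conj (F0 z) * conj (φ z)) * (((rW psi z ^ 2 : ℝ) : ℂ) * VV psi z) by ring, hVr, mul_one]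
    have h9 : inner ℂ b (LL hpc hpc1 ⟨_, hu⟩) = conj (∫ z in {z : ℂ | ‖z‖ ^ 2 < T},
        b z * (((rW psi z)⁻¹ : ℝ) : ℂ) * db1 φ z) := by
      rw [L2.inner_def, ← integral_conj]
      have h10 : ∀ᵐ z ∂(volume.restrict {z : ℂ | ‖z‖ ^ 2 < T}),
          (LL hpc hpc1 ⟨_, hu⟩) z = (((rW psi z)⁻¹ : ℝ) : ℂ) * conj (db1 φ z) := by
        filter_upwards [(opD_memLp hpc hpc1 hu).coeFn_toLp, ae_restrict_mem hBm] with z hz hzB
        change ((opD_memLp hpc hpc1 hu).toLp) z = _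
        rw [hz]
        unfold opD
        rw [dz1_conj hφ hpsi hzB, ← hVr2]
        ring
      apply integral_congr_ae
      filter_upwards [h10] with z hz
      rw [hz]
      simp
      ring
    rw [h8, h9] at h7
    have h11 := congrArg conj h7
    simp only [map_neg, Complex.conj_conj] at h11
    exact h11


end DbarC.JPLj
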