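import Pool.Agent.H314.DC.Defs

set_option autoImplicit false

open MeasureTheory Complex Filter Topology
open scoped ContDiff InnerProductSpace ENNReal ComplexConjugate

namespace DbarC

open DbarN

/-! ### General statements -/

/-- strongly star-shaped about the origin -/
def StarS (Ω : Set E3) : Prop := ∀ x ∈ closure Ω, ∀ r : ℝ, 0 ≤ r → r < 1 → r • x ∈ Ω

/-- smooth psh functions vanishing on `Ω` and positive off a neighbourhood of its closure -/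
def PS_prop (Ω : Set E3) : Prop := ∀ U : Set E3, IsOpen U → closure Ω ⊆ U →
    ∃ P : E3 → ℝ, ContDiff ℝ ∞ P ∧ HPos1 P 0 ∧ (∀ x, 0 ≤ P x) ∧ (∀ x ∈ Ω, P x = 0) ∧
      ∀ x, x ∉ U → 0 < P x

/-- Rellich on `ℂ³` through finitely many functionals -/
def RE0_stmt : Prop := ∀ R ε : ℝ, 0 < R → 0 < ε → ∃ (n : ℕ) (h : Fin n → E3 → ℂ),
    (∀ i, MemLp (h i) 2 (volume : Measure E3)) ∧
    ∀ (f : E3 → ℂ) (g : Fin 3 → E3 → ℂ), MemLp f 2 (volume : Measure E3) →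
      (∀ j, MemLp (g j) 2 (volume : Measure E3)) → (∀ x, R < ‖x‖ → f x = 0) →
      (∀ j φ, IsTest Set.univ φ → ∫ x, f x * dbar j φ x = - ∫ x, g j x * φ x) →
      ∫ x, ‖f x‖ ^ 2 ≤ ε * ∑ j, ∫ x, ‖g j x‖ ^ 2 + ∑ i, ‖∫ x, f x * h i x‖ ^ 2

/-- interior Rellich for functions -/
def RE1_stmt : Prop := ∀ Ω : Set E3, IsOpen Ω → ∀ K : Set E3, IsCompact K → K ⊆ Ω →
    ∀ ε : ℝ, 0 < ε → ∃ (n : ℕ) (φ : Fin n → (L2 Ω →L[ℂ] ℂ)), ∀ (f : L2 Ω) (g : Form Ω),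
      IsDbar0 Ω f g → ∫ x in K, ‖f x‖ ^ 2 ≤ ε * (‖f‖ ^ 2 + ‖g‖ ^ 2) + ∑ i, ‖φ i f‖ ^ 2

/-- interior Rellich for `(0,2)`-forms -/
def RE2_stmt : Prop := ∀ Ω : Set E3, IsOpen Ω → ∀ K : Set E3, IsCompact K → K ⊆ Ω →
    ∀ ε : ℝ, 0 < ε → ∃ (n : ℕ) (φ : Fin n → (Form Ω →L[ℂ] ℂ)), ∀ (c w : Form Ω),
      (∀ ψ, IsTest Ω ψ → ∫ x in Ω, ∑ i : Fin 3, c i x * dbar i ψ x = 0) → IsAdj1 Ω c w →
      ∑ j, ∫ x in K, ‖c j x‖ ^ 2 ≤ ε * (‖c‖ ^ 2 + ‖w‖ ^ 2) + ∑ i, ‖φ i c‖ ^ 2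

/-- variable curvature positivity used for `(0,2)`-forms -/
def HPos2V (Φ : E3 → ℝ) (c : E3 → ℝ) : Prop := ∀ x (a : Fin 3 → ℂ), c x * ∑ j, ‖a j‖ ^ 2 ≤
      ((∑ j, Hess Φ j j x) * (∑ k, (‖a k‖ : ℂ) ^ 2) -
        ∑ j, ∑ k, Hess Φ k j x * a j * conj (a k)).re

def Kohn2V_stmt : Prop := ∀ (Φ : E3 → ℝ), ContDiff ℝ ∞ Φ → ∀ (c : E3 → ℝ) (B : ℝ),
    Measurable c → (∀ x, 1 ≤ c x) → (∀ x, c x ≤ B) → HPos2V Φ c →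
    ∀ (g : Fin 3 → E3 → ℂ), (∀ j, IsTest Set.univ (g j)) →
    ∫ x, c x * ∑ j, ‖g j x‖ ^ 2 ≤ (∫ x, ‖∑ j, AA Φ j (g j) x‖ ^ 2) +
      ∑ k : Fin 3, ∫ x, ‖AS Φ (k + 2) (g (k + 1)) x - AS Φ (k + 1) (g (k + 2)) x‖ ^ 2

/-- Hörmander's theorem on `ℂ³` for `(0,2)`-forms with variable curvature -/
def WS2V_stmt : Prop := ∀ (Φ : E3 → ℝ), ContDiff ℝ ∞ Φ → ∀ (c : E3 → ℝ) (B : ℝ),
    Measurable c → (∀ x, 1 ≤ c x) → (∀ x, c x ≤ B) → HPos2V Φ c →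
    ∀ (g : Fin 3 → E3 → ℂ), (∀ j, IsTest Set.univ (g j)) →
    ∃ (v : Fin 3 → E3 → ℂ) (e : Fin 3 → E3 → ℂ),
      (∀ j, MemLp (fun x => v j x * Real.exp (-Φ x / 2)) 2 (volume : Measure E3)) ∧
      (∀ j, MemLp (fun x => e j x * Real.exp (-Φ x / 2)) 2 (volume : Measure E3)) ∧
      (∀ (i : Fin 3) φ, IsTest Set.univ φ →
        ∫ x, (v (i + 2) x * dbar (i + 1) φ x - v (i + 1) x * dbar (i + 2) φ x)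
          = - ∫ x, (g i x - e i x) * φ x) ∧
      ∑ j, ∫ x, ‖v j x‖ ^ 2 * Real.exp (-Φ x) ≤
        ∫ x, (∑ j, ‖g j x - e j x‖ ^ 2) / c x * Real.exp (-Φ x) ∧
      ∑ j, ∫ x, ‖e j x‖ ^ 2 * Real.exp (-Φ x) ≤
        ∫ x, ‖∑ j, dbar j (g j) x‖ ^ 2 * Real.exp (-Φ x)

/-- Dilate and mollify on star-shaped domains. -/
def MollS_stmt : Prop := ∀ (Ω : Set E3), IsOpen Ω → StarS Ω → Bornology.IsBounded Ω →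
    (0 : E3) ∈ Ω → ∃ (M : ℕ → (E3 → ℂ) → (E3 → ℂ)) (r : ℕ → ℝ) (B : ℝ),
    Tendsto r atTop (𝓝 1) ∧ (∀ n, 0 < r n ∧ r n < 1) ∧
    (∀ f, MemLp f 2 (volume.restrict Ω) →
      (∀ n, IsTest Set.univ (M n f)) ∧ (∀ n x, B < ‖x‖ → M n f x = 0) ∧
      Tendsto (fun n => eLpNorm (M n f - f) 2 (volume.restrict Ω)) atTop (𝓝 0) ∧
      ∀ n, ENNReal.ofReal (r n ^ 3) * eLpNorm (M n f) 2 volume ≤ eLpNorm f 2 (volume.restrict Ω)) ∧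
    (∀ n, ∃ U : Set E3, IsOpen U ∧ closure Ω ⊆ U ∧
      ∀ (α : Fin 3 → Fin 3 → ℂ) (u : Fin 3 → E3 → ℂ) (g : E3 → ℂ),
        (∀ i, MemLp (u i) 2 (volume.restrict Ω)) → MemLp g 2 (volume.restrict Ω) →
        (∀ φ, IsTest Ω φ →
          ∫ x in Ω, ∑ i, u i x * (∑ j, α i j * dbar j φ x) = - ∫ x in Ω, g x * φ x) →
        ∀ x ∈ U, ∑ i, ∑ j, α i j * dbar j (M n (u i)) x = (r n : ℂ) * M n g x) ∧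
    (∀ n (θ₁ θ₂ : ℝ) (c : ℂ) (f : E3 → ℂ), (∀ x, rot θ₁ θ₂ x ∈ Ω ↔ x ∈ Ω) →
      MemLp f 2 (volume.restrict Ω) →
      (∀ᵐ x ∂(volume.restrict Ω), f (rot θ₁ θ₂ x) = c * f x) →
      ∀ x, M n f (rot θ₁ θ₂ x) = c * M n f x)

/-- smooth data, closed near the closure: `(0,1)`-forms -/
def HS1S_stmt : Prop := ∀ (Ω : Set E3), IsOpen Ω → PS_prop Ω → Bornology.IsBounded Ω →
    ∃ C : ℝ, 0 ≤ C ∧ ∀ (v : Fin 3 → E3 → ℂ) (U : Set E3),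
      (∀ j, IsTest Set.univ (v j)) → IsOpen U → closure Ω ⊆ U →
      (∀ x ∈ U, ∀ i : Fin 3, dbar (i + 1) (v (i + 2)) x - dbar (i + 2) (v (i + 1)) x = 0) →
      ∀ η : ℝ, 0 < η → ∃ (f : E3 → ℂ) (e : Fin 3 → E3 → ℂ),
        MemLp f 2 (volume.restrict Ω) ∧ (∀ j, MemLp (e j) 2 (volume.restrict Ω)) ∧
        (∀ j φ, IsTest Ω φ → ∫ x in Ω, f x * dbar j φ x = - ∫ x in Ω, (v j x - e j x) * φ x) ∧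
        ∫ x in Ω, ‖f x‖ ^ 2 ≤ C * ∑ j, ∫ x, ‖v j x‖ ^ 2 ∧
        ∑ j, ∫ x in Ω, ‖e j x‖ ^ 2 ≤ η

/-- exactness with estimate for `(0,1)`-forms -/
def Hor1S_prop (Ω : Set E3) : Prop := ∃ C : ℝ, 0 ≤ C ∧ ∀ u : Form Ω, IsDbar1 Ω u 0 →
    ∃ f : L2 Ω, IsDbar0 Ω f u ∧ ‖f‖ ≤ C * ‖u‖

/-- smooth data, closed near the closure: `(0,2)`-forms, variable curvature -/
def HS2V_stmt : Prop := ∀ (Ω : Set E3), IsOpen Ω → PS_prop Ω → Bornology.IsBounded Ω →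
    ∀ (Φ : E3 → ℝ), ContDiff ℝ ∞ Φ → ∀ (c : E3 → ℝ) (B : ℝ),
    Measurable c → (∀ x, 1 ≤ c x) → (∀ x, c x ≤ B) → HPos2V Φ c →
    ∀ (v : Fin 3 → E3 → ℂ) (U : Set E3),
      (∀ j, IsTest Set.univ (v j)) → IsOpen U → closure Ω ⊆ U →
      (∀ x ∈ U, ∑ i : Fin 3, dbar i (v i) x = 0) →
      ∀ η : ℝ, 0 < η → ∃ (w e : Fin 3 → E3 → ℂ),
        (∀ j, MemLp (w j) 2 (volume.restrict Ω)) ∧ (∀ j, MemLp (e j) 2 (volume.restrict Ω)) ∧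
        (∀ (i : Fin 3) φ, IsTest Ω φ →
          ∫ x in Ω, (w (i + 2) x * dbar (i + 1) φ x - w (i + 1) x * dbar (i + 2) φ x)
            = - ∫ x in Ω, (v i x - e i x) * φ x) ∧
        ∑ j, ∫ x in Ω, ‖w j x‖ ^ 2 * Real.exp (-Φ x) ≤
          (∫ x, (∑ j, ‖v j x‖ ^ 2) / c x * Real.exp (-Φ x)) + η ∧
        ∑ j, ∫ x in Ω, ‖e j x‖ ^ 2 ≤ η

/-- weights, bounded on `Ω`, with large curvature near the boundary -/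
def Wt_prop (Ω : Set E3) : Prop := ∀ M : ℝ, 1 ≤ M → ∃ (K : Set E3) (Φ : E3 → ℝ), IsCompact K ∧
    K ⊆ Ω ∧ ContDiff ℝ ∞ Φ ∧ (∀ x ∈ Ω, 0 ≤ Φ x ∧ Φ x ≤ 5) ∧
    HPos2V Φ (fun _ => 1) ∧ ∀ x ∈ Ω, x ∉ K → ∀ a : Fin 3 → ℂ, M * ∑ j, ‖a j‖ ^ 2 ≤
      ((∑ j, Hess Φ j j x) * (∑ k, (‖a k‖ : ℂ) ^ 2) -
        ∑ j, ∑ k, Hess Φ k j x * a j * conj (a k)).re

/-- compactness estimate for `(0,2)`-forms -/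
def FI2_prop (Ω : Set E3) : Prop := ∀ η : ℝ, 0 < η → ∃ (K : Set E3) (C : ℝ), IsCompact K ∧
    K ⊆ Ω ∧ ∀ c : Form Ω, (∀ φ, IsTest Ω φ → ∫ x in Ω, ∑ i : Fin 3, c i x * dbar i φ x = 0) →
      ∃ v : Form Ω, IsDbar1 Ω v c ∧ ‖v‖ ^ 2 ≤ η * ‖c‖ ^ 2 + C * ∑ j, ∫ x in K, ‖c j x‖ ^ 2

/-- compactness estimate for functions -/
def FI1_prop (Ω : Set E3) : Prop := ∀ η : ℝ, 0 < η → ∃ (K : Set E3) (C : ℝ), IsCompact K ∧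
    K ⊆ Ω ∧ 0 ≤ C ∧ ∀ (f : L2 Ω) (g : Form Ω), IsDbar0 Ω f g →
      (∀ h : L2 Ω, IsDbar0 Ω h 0 → inner ℂ h f = 0) →
      ‖f‖ ^ 2 ≤ C * Real.sqrt (∫ x in K, ‖f x‖ ^ 2) * ‖g‖ + η * ‖f‖ * ‖g‖

/-- decomposition in modes -/
def ZM_stmt : Prop := ∀ Ω : Set E3, IsOpen Ω → (∀ θ₁ θ₂ x, rot θ₁ θ₂ x ∈ Ω ↔ x ∈ Ω) →
    ∀ f : L2 Ω, ∃ F : ℤ → ℤ → L2 Ω,
      (∀ (j k : ℤ) (θ₁ θ₂ : ℝ), ∀ᵐ x ∂(volume.restrict Ω),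
        F j k (rot θ₁ θ₂ x) = Complex.exp (I * (j * θ₁ + k * θ₂)) * F j k x) ∧
      (∀ A : Set E3, MeasurableSet A → A ⊆ Ω → (∀ θ₁ θ₂ x, rot θ₁ θ₂ x ∈ A ↔ x ∈ A) →
        HasSum (fun p : ℤ × ℤ => ∫ x in A, ‖F p.1 p.2 x‖ ^ 2) (∫ x in A, ‖f x‖ ^ 2)) ∧
      (∀ g : Form Ω, IsDbar0 Ω f g → ∃ G : ℤ → ℤ → Form Ω,
        (∀ j k, IsDbar0 Ω (F j k) (G j k)) ∧
        HasSum (fun p : ℤ × ℤ => ‖G p.1 p.2‖ ^ 2) (‖g‖ ^ 2)) ∧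
      ((∀ h : L2 Ω, IsDbar0 Ω h 0 → inner ℂ h f = 0) →
        ∀ (j k : ℤ) (h : L2 Ω), IsDbar0 Ω h 0 → inner ℂ h (F j k) = 0)

/-- estimates for smooth modes, for a class of modes -/
def TL_prop (Ω : Set E3) (cls : ℤ → ℤ → Prop) : Prop := ∃ C : ℝ, 0 ≤ C ∧ ∀ η : ℝ, 0 < η →
    ∃ K : Set E3, IsCompact K ∧ K ⊆ Ω ∧ (∀ θ₁ θ₂ x, rot θ₁ θ₂ x ∈ K ↔ x ∈ K) ∧
    ∀ j k : ℤ, cls j k → ∀ F : E3 → ℂ, ContDiff ℝ ∞ F → IsModeFn j k F → ∃ h : E3 → ℂ,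
      MemLp h 2 (volume.restrict Ω) ∧
      (∀ (i : Fin 3) φ, IsTest Ω φ → ∫ x in Ω, h x * dbar i φ x = 0) ∧
      ∫ x in Ω, ‖F x - h x‖ ^ 2 ≤ C * ∑ i, ∫ x in Ω, ‖dbar i F x‖ ^ 2 ∧
      ∫ x in Ω \ K, ‖F x - h x‖ ^ 2 ≤ η * ∑ i, ∫ x in Ω, ‖dbar i F x‖ ^ 2

/-- the conclusion about `N₁` -/
def N1compact (Ω : Set E3) : Prop := ∃ N : Form Ω →L[ℂ] Form Ω, (∀ v, Box Ω (N v) v) ∧
    (∀ u w, Box Ω u w → N w = u) ∧ IsCompactOperator N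

end DbarC
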