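import Pool.Agent.H314.DC.St1

set_option autoImplicit false

open MeasureTheory Complex Filter Topology
open scoped ContDiff InnerProductSpace ENNReal ComplexConjugate

namespace DbarC

open DbarN

/-- Levi form -/
noncomputable def Lev (Φ : E3 → ℝ) (x : E3) (a : Fin 3 → ℂ) : ℝ :=
  (∑ j, ∑ k, Hess Φ j k x * a j * conj (a k)).re

/-- explicit description of the domain -/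
def MemC_stmt : Prop := ∀ x : E3, x ∈ Om ↔
    ‖x 0‖ ^ 2 < T0 ∧ ‖x 2‖ ^ 2 < d0 (‖x 0‖ ^ 2) ∧
    ‖x 1‖ ^ 2 < R2 (‖x 0‖ ^ 2) (‖x 2‖ / Real.sqrt (d0 (‖x 0‖ ^ 2)))

/-- elementary properties of the domain -/
def DomC_stmt : Prop :=
    IsOpen Om ∧ (0 : E3) ∈ Om ∧ Bornology.IsBounded Om ∧
    (∀ θ₁ θ₂ x, rot θ₁ θ₂ x ∈ Om ↔ x ∈ Om) ∧ StarS Om ∧
    (∀ x ∈ closure Om, ‖x 0‖ ^ 2 ≤ T0 ∧ ‖x 1‖ ^ 2 ≤ 1 / 100 ∧ ‖x 2‖ ^ 2 ≤ 1 ∧ FF x ≤ 1) ∧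
    (∀ x ∈ frontier Om, FF x = 1) ∧
    (∀ x : E3, ‖x 0‖ ^ 2 < 2 → ‖x 1‖ ^ 2 < 1 → FF x ≤ 1 → x ∈ closure Om)

def GyS_stmt : Prop := ContDiffOn ℝ ∞ (fun p : ℝ × ℝ => Gy p.1 p.2) {p | -1 < p.1}

def FFs_stmt : Prop := ContDiff ℝ ∞ FF

/-- Levi form of the defining function -/
def FH_stmt : Prop :=
  (∀ x : E3, ‖x 0‖ ^ 2 < 1004 / 1000 → ‖x 1‖ ^ 2 < 2 / 100 → ∀ a, ‖a 2‖ ^ 2 ≤ Lev FF x a) ∧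
  (∀ y0 : ℝ, 0 < y0 → ∃ c : ℝ, 0 < c ∧ ∀ x : E3, ‖x 0‖ ^ 2 < 1004 / 1000 → y0 ≤ ‖x 1‖ ^ 2 →
    ‖x 1‖ ^ 2 < 2 / 100 → ∀ a, c * ∑ j, ‖a j‖ ^ 2 ≤ Lev FF x a)

/-- convex function, zero on a convex compact, strictly psh off a neighbourhood -/
def P1G_stmt : Prop := ∀ K U : Set E3, IsCompact K → Convex ℝ K → K.Nonempty → IsOpen U → K ⊆ U →
    ∃ P : E3 → ℝ, ContDiff ℝ ∞ P ∧ (∀ x a, 0 ≤ Lev P x a) ∧ (∀ x, 0 ≤ P x) ∧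
      (∀ x ∈ K, P x = 0) ∧ (∀ x, x ∉ U → 0 < P x) ∧
      ∀ L : Set E3, IsCompact L → Disjoint L U → ∃ c : ℝ, 0 < c ∧ ∀ x ∈ L, ∀ a,
        c * ∑ j, ‖a j‖ ^ 2 ≤ Lev P x a

/-- gluing of psh functions -/
def GLU_stmt : Prop := ∀ K U : Set E3, IsCompact K → Convex ℝ K → K.Nonempty → IsOpen U → K ⊆ U →
    Bornology.IsBounded U → ∀ φ : E3 → ℝ, ContDiff ℝ ∞ φ → (∀ x ∈ U, ∀ a, 0 ≤ Lev φ x a) →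
    ∃ (Q : E3 → ℝ) (V : Set E3), ContDiff ℝ ∞ Q ∧ (∀ x a, 0 ≤ Lev Q x a) ∧ IsOpen V ∧ K ⊆ V ∧
      V ⊆ U ∧ (∀ x ∈ K, Q x = φ x) ∧ (∀ x ∈ V, φ x ≤ Q x) ∧
      ((∀ x, 0 ≤ φ x) → (∀ x, 0 ≤ Q x) ∧ ∀ x, x ∉ V → 0 < Q x)

/-- sub-mean value property from the Levi form -/
def SM_stmt : Prop := ∀ u : E3 → ℝ, ContDiff ℝ ∞ u → ∀ a b : E3,
    (∀ ζ : ℂ, ‖ζ‖ ≤ 1 → ∀ c, 0 ≤ Lev u (a + ζ • b) c) →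
    u a ≤ (2 * Real.pi)⁻¹ * ∫ θ in (0 : ℝ)..(2 * Real.pi), u (a + Complex.exp (θ * I) • b)

/-- an exhaustion by compact sets -/
noncomputable def KK (N h : ℝ) : Set E3 := {x | ‖x 0‖ ^ 2 < T0 ∧ La (‖x 0‖ ^ 2) ≤ N ∧
  ‖x 2‖ ≤ (1 - h) * Real.sqrt (d0 (‖x 0‖ ^ 2)) ∧
  ‖x 1‖ ≤ (1 - h) * Real.sqrt (R2 (‖x 0‖ ^ 2) (‖x 2‖ / Real.sqrt (d0 (‖x 0‖ ^ 2))))}

def KK_stmt : Prop := ∀ N h : ℝ, 0 < h → h < 1 → IsCompact (KK N h) ∧ KK N h ⊆ Om ∧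
  (∀ θ₁ θ₂ x, rot θ₁ θ₂ x ∈ KK N h ↔ x ∈ KK N h)

/-- second family of compact sets, for slices in the last variable -/
noncomputable def KL (h : ℝ) : Set E3 := {x | ‖x 0‖ ^ 2 ≤ 1004 / 1000 ∧
  h ≤ 1 - w0 (‖x 0‖ ^ 2) - Gy (‖x 0‖ ^ 2) (‖x 1‖ ^ 2) ∧
  ‖x 2‖ ≤ (1 - h) * Real.sqrt (1 - w0 (‖x 0‖ ^ 2) - Gy (‖x 0‖ ^ 2) (‖x 1‖ ^ 2))}

def KL_stmt : Prop := ∀ h : ℝ, 0 < h → h < 1 → IsCompact (KL h) ∧ KL h ⊆ Om ∧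
  (∀ θ₁ θ₂ x, rot θ₁ θ₂ x ∈ KL h ↔ x ∈ KL h)

/-- one-dimensional Hardy inequality for negative modes -/
def Hardy_stmt : Prop := ∀ (j : ℤ), j < 0 → ∀ f : ℂ → ℂ, ContDiff ℝ ∞ f →
    (∀ (θ : ℝ) (w : ℂ), f (Complex.exp (θ * I) * w) = Complex.exp (I * (j * θ)) * f w) →
    ∀ R : ℝ, 0 < R → ∫ w in Metric.ball (0 : ℂ) R, ‖f w‖ ^ 2 ≤
      R ^ 2 / |(j : ℝ)| * ∫ w in Metric.ball (0 : ℂ) R, ‖db1 f w‖ ^ 2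

/-- boundary layers in one variable -/
def Layer_stmt : Prop := ∀ n : ℕ, ∃ C : ℝ, 0 ≤ C ∧ ∀ (j : ℤ), |j| ≤ (n : ℤ) →
    ∀ f : ℂ → ℂ, ContDiff ℝ ∞ f →
    (∀ (θ : ℝ) (w : ℂ), f (Complex.exp (θ * I) * w) = Complex.exp (I * (j * θ)) * f w) →
    ∀ R h : ℝ, 0 < R → 0 < h → h ≤ 1 / 2 →
    ∫ w in Metric.ball (0 : ℂ) R \ Metric.closedBall (0 : ℂ) ((1 - h) * R), ‖f w‖ ^ 2 ≤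
      C * h * ((∫ w in Metric.ball (0 : ℂ) R, ‖f w‖ ^ 2) +
        R ^ 2 * ∫ w in Metric.ball (0 : ℂ) R, ‖db1 f w‖ ^ 2)

end DbarC
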