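import Pool.Agent.H314.DC.St2

set_option autoImplicit false

open MeasureTheory Complex Filter Topology
open scoped ContDiff InnerProductSpace ENNReal ComplexConjugate

namespace DbarC

open DbarN

/-- calculus facts -/
def CAc_stmt : Prop := ∀ t s : ℝ, -1 < t → t < T0 → 0 ≤ s → s < 1 →
    0 ≤ La t ∧ 0 ≤ La1 t ∧ 100 * La1 t + La1 t ^ 2 ≤ La2 t ∧ 100 + La t + tau s = l0 t s ∧
    100 ≤ l0 t s ∧ 0 < d0 t ∧ d0 t ≤ 1 ∧ d0 t = Real.exp (-La t) ∧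
    HasDerivAt La (La1 t) t ∧ HasDerivAt La1 (La2 t) t ∧
    HasDerivAt (fun t => l0 t s) (La1 t) t ∧ HasDerivAt (fun s => l0 t s) (tau1 s) s ∧
    HasDerivAt (fun t => Yc t s) (Yct t s) t ∧ HasDerivAt (fun t => Yct t s) (Yctt t s) t ∧
    HasDerivAt (fun s => Yc t s) (Ycs t s) s ∧ HasDerivAt (fun s => Yct t s) (Ycts t s) s ∧
    HasDerivAt (fun s => Ycs t s) (Ycss t s) s ∧ (0 ≤ t → R2 t s ≤ 1 / l0 t s) ∧ 0 < R2 t s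

/-- pointwise inequalities -/
def PWc_stmt : Prop := ∀ t s : ℝ, 0 ≤ t → t < T0 → 0 < s → s < 1 →
    Ycss t s < 0 ∧
    (1 / 2) * (Real.log (l0 t s) + t * La2 t / l0 t s) ≤
      -Yct t s - t * Yctt t s - t * (Ycts t s ^ 2 / (-Ycss t s)) ∧
    t * (Ycts t s ^ 2 / (-Ycss t s)) ≤ 1 / l0 t s + t * La2 t / l0 t s ^ 2

/-- variance of `Y_t` -/
def VarYc_stmt : Prop := ∀ (j k : ℕ) (t : ℝ), 0 ≤ t → t < T0 →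
    (j + 1) ^ 2 * t * (Es j k t (fun s => Yct t s ^ 2) - Es j k t (fun s => Yct t s) ^ 2) ≤
      (j + 1) * Es j k t (fun s => t * (Ycts t s ^ 2 / (-Ycss t s)))

/-- derivatives of `Ψ` -/
def PsiDc_stmt : Prop := ∀ (j k : ℕ),
    (∀ t, -1 < t → t < T0 → HasDerivAt (psi j k)
      ((k + 1) * La1 t - (j + 1) * Es j k t (fun s => Yct t s)) t) ∧
    (∀ t, -1 < t → t < T0 → HasDerivAt
      (fun t => (k + 1) * La1 t - (j + 1) * Es j k t (fun s => Yct t s))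
      ((k + 1) * La2 t - (j + 1) * Es j k t (fun s => Yctt t s) -
        (j + 1) ^ 2 * (Es j k t (fun s => Yct t s ^ 2) - Es j k t (fun s => Yct t s) ^ 2)) t) ∧
    ContinuousOn (fun t => (k + 1) * La2 t - (j + 1) * Es j k t (fun s => Yctt t s) -
        (j + 1) ^ 2 * (Es j k t (fun s => Yct t s ^ 2) - Es j k t (fun s => Yct t s) ^ 2))
      (Set.Ioo (-1) T0) ∧
    ContinuousOn (mm j k) (Set.Ioo (-1) T0) ∧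
    (∀ t, -1 < t → t < T0 → 0 < ww j k t)

/-- the modified weight -/
noncomputable def chi (j k : ℕ) (t : ℝ) : ℝ := psi j k t - Real.log (th t)

/-- summary for the weight -/
def Chi_stmt : Prop := ∀ (j k : ℕ), ∃ chi1 chi2 : ℝ → ℝ,
    (∀ t ∈ Set.Ioo (-1) T0, HasDerivAt (chi j k) (chi1 t) t) ∧
    (∀ t ∈ Set.Ioo (-1) T0, HasDerivAt chi1 (chi2 t) t) ∧
    ContinuousOn chi2 (Set.Ioo (-1) T0) ∧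
    ContinuousOn (mm j k) (Set.Ioo (-1) T0) ∧
    (∀ t ∈ Set.Ico 0 T0, 0 < mm j k t) ∧
    (∀ t ∈ Set.Ico 0 T0, mm j k t / 4 ≤ chi1 t + t * chi2 t) ∧
    (∀ t ∈ Set.Ioo (-1) T0, 0 < ww j k t ∧ 1 ≤ th t ∧
      Real.exp (-chi j k t) = ww j k t * th t)

/-- planar weighted `∂̄` problem with a radial weight -/
def PLr_stmt : Prop := ∀ (T : ℝ) (psi psi1 psi2 m : ℝ → ℝ), 0 < T →
    (∀ t ∈ Set.Ioo (-1) T, HasDerivAt psi (psi1 t) t) →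
    (∀ t ∈ Set.Ioo (-1) T, HasDerivAt psi1 (psi2 t) t) →
    ContinuousOn psi2 (Set.Ioo (-1) T) → ContinuousOn m (Set.Ico 0 T) →
    (∀ t ∈ Set.Ico 0 T, 0 < m t) →
    (∀ t ∈ Set.Ico 0 T, m t ≤ psi1 t + t * psi2 t) →
    ∀ F0 : ℂ → ℂ, ContinuousOn F0 {z | ‖z‖ ^ 2 < T} →
      IntegrableOn (fun z => ‖F0 z‖ ^ 2 / m (‖z‖ ^ 2) * Real.exp (-psi (‖z‖ ^ 2)))
        {z : ℂ | ‖z‖ ^ 2 < T} →
      ∃ b : ℂ → ℂ, AEStronglyMeasurable b (volume.restrict {z : ℂ | ‖z‖ ^ 2 < T}) ∧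
        IntegrableOn (fun z => ‖b z‖ ^ 2 * Real.exp (-psi (‖z‖ ^ 2))) {z : ℂ | ‖z‖ ^ 2 < T} ∧
        ∫ z in {z : ℂ | ‖z‖ ^ 2 < T}, ‖b z‖ ^ 2 * Real.exp (-psi (‖z‖ ^ 2)) ≤
          ∫ z in {z : ℂ | ‖z‖ ^ 2 < T}, ‖F0 z‖ ^ 2 / m (‖z‖ ^ 2) *
            Real.exp (-psi (‖z‖ ^ 2)) ∧
        ∀ φ : ℂ → ℂ, ContDiff ℝ ∞ φ → HasCompactSupport φ → tsupport φ ⊆ {z | ‖z‖ ^ 2 < T} →
          ∫ z in {z : ℂ | ‖z‖ ^ 2 < T}, b z * db1 φ z =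
            - ∫ z in {z : ℂ | ‖z‖ ^ 2 < T}, F0 z * φ z

/-- derivative of the fibre average -/
def FibDc_stmt : Prop := ∀ (j k : ℕ) (F : E3 → ℂ), ContDiff ℝ ∞ F → IsModeFn j k F →
    ContDiffOn ℝ 1 (aa j k F) BD ∧
    ∀ z ∈ BD, db1 (aa j k F) z = EC j k (‖z‖ ^ 2) (fun v s =>
      GG j k F 0 z v s +
      GG j k F 1 z v s * (v * z * Real.sqrt (R2 (‖z‖ ^ 2) s) * Yct (‖z‖ ^ 2) s) -
      GG j k F 2 z v s * (s * z * Real.sqrt (d0 (‖z‖ ^ 2)) * La1 (‖z‖ ^ 2)) +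
      (j + 1) * z * (cc j k F z v s - aa j k F z) * Yct (‖z‖ ^ 2) s)

/-- fibre expectations of the derivatives -/
noncomputable def E0 (j k : ℕ) (F : E3 → ℂ) (i : Fin 3) (z : ℂ) : ℝ :=
  EE j k (‖z‖ ^ 2) (fun v s => ‖GG j k F i z v s‖ ^ 2)

/-- summary of the fibre estimates -/
def Fibc_stmt : Prop := ∀ (j k : ℕ) (F : E3 → ℂ), ContDiff ℝ ∞ F → IsModeFn j k F →
    ∀ z ∈ BD, ∀ r r2 : ℝ, (∀ s ∈ Set.Ioo (0 : ℝ) 1,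
      R2 (‖z‖ ^ 2) s * Ycs (‖z‖ ^ 2) s ^ 2 / 4 ≤ r * V2 j k (‖z‖ ^ 2) s ∧
      d0 (‖z‖ ^ 2) ≤ r2 * V2 j k (‖z‖ ^ 2) s) →
    (∃ p q : ℂ, db1 (aa j k F) z = p + q ∧ ‖p‖ ^ 2 ≤ E0 j k F 0 z ∧
      ‖q‖ ^ 2 ≤ 3 * (Es j k (‖z‖ ^ 2) (fun s => ‖z‖ ^ 2 * R2 (‖z‖ ^ 2) s * Yct (‖z‖ ^ 2) s ^ 2) *
          E0 j k F 1 z + ‖z‖ ^ 2 * d0 (‖z‖ ^ 2) * La1 (‖z‖ ^ 2) ^ 2 * E0 j k F 2 z +
        (j + 1) * Es j k (‖z‖ ^ 2) (fun s => ‖z‖ ^ 2 * (Ycts (‖z‖ ^ 2) s ^ 2 /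
          (-Ycss (‖z‖ ^ 2) s))) * (8 * r * E0 j k F 1 z + 8 * r2 * E0 j k F 2 z))) ∧
    EE j k (‖z‖ ^ 2) (fun v s => ‖cc j k F z v s - aa j k F z‖ ^ 2) ≤
      4 / (2 * j + 1) * EE j k (‖z‖ ^ 2) (fun v s => R2 (‖z‖ ^ 2) s * ‖GG j k F 1 z v s‖ ^ 2) +
        8 * r * E0 j k F 1 z + 8 * r2 * E0 j k F 2 z

/-- variance estimate for large `k` -/
def VARK_stmt : Prop := ∀ ε : ℝ, 0 < ε → ∃ n0 : ℕ, ∀ j k : ℕ, n0 ≤ k → ∀ F : E3 → ℂ,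
    ContDiff ℝ ∞ F → IsModeFn j k F → ∀ z ∈ BD,
    EE j k (‖z‖ ^ 2) (fun v s => ‖cc j k F z v s - aa j k F z‖ ^ 2) ≤
      ε * (E0 j k F 1 z + E0 j k F 2 z)

/-- all coefficients -/
structure CoefLe (j k : ℕ) (t r r2 ε : ℝ) : Prop where
  a0 : 8 * th t / mm j k t ≤ ε
  a1 : 24 * th t * (Es j k t (fun s => t * R2 t s * Yct t s ^ 2) / mm j k t + r / 5) ≤ ε
  a2 : 24 * th t * (t * d0 t * La1 t ^ 2 / mm j k t + r2 / 5) ≤ ε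
  b1 : 8 * r ≤ ε
  b2 : 8 * r2 ≤ ε

/-- bounds and decay of the coefficients -/
def DECc_stmt : Prop := ∃ (C : ℝ) (r r2 : ℕ → ℕ → ℝ → ℝ), 0 ≤ C ∧
    (∀ j k t, 0 ≤ t → t < T0 → 0 ≤ r j k t ∧ 0 ≤ r2 j k t ∧ ∀ s ∈ Set.Ioo (0 : ℝ) 1,
      R2 t s * Ycs t s ^ 2 / 4 ≤ r j k t * V2 j k t s ∧ d0 t ≤ r2 j k t * V2 j k t s) ∧
    (∀ j k t, 0 ≤ t → t < T0 → CoefLe j k t (r j k t) (r2 j k t) C) ∧
    (∀ ε : ℝ, 0 < ε → ∃ n0 : ℕ, ∀ j k t, n0 ≤ j ∨ n0 ≤ k → 0 ≤ t → t < T0 →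
      CoefLe j k t (r j k t) (r2 j k t) ε) ∧
    (∀ ε : ℝ, 0 < ε → ∃ N : ℝ, ∀ j k t, 0 ≤ t → t < T0 → N ≤ La t →
      8 * r j k t ≤ ε ∧ 8 * r2 j k t ≤ ε)

/-- integration over `Ω` in fibre coordinates -/
def Polc_stmt : Prop := ∀ H : E3 → ℝ≥0∞, Measurable H →
    (∀ θ₁ θ₂ x, H (rot θ₁ θ₂ x) = H x) →
    ∫⁻ x in Om, H x = ∫⁻ z in BD, ∫⁻ v in Set.Ioo (0 : ℝ) 1,
      ∫⁻ s in Set.Ioo (0 : ℝ) 1, H (Pt z v s) *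
        ENNReal.ofReal (4 * Real.pi ^ 2 * v * R2 (‖z‖ ^ 2) s * d0 (‖z‖ ^ 2) * s)

/-- main estimate for modes `j, k ≥ 0` -/
def PosMain_stmt : Prop := ∃ C : ℝ, 0 ≤ C ∧ ∀ ε : ℝ, 0 < ε → ∃ (n0 : ℕ) (N : ℝ), ∀ j k : ℕ,
    ∀ F : E3 → ℂ, ContDiff ℝ ∞ F → IsModeFn j k F → ∃ H0 : ℂ → ℂ,
      MemLp (fun x : E3 => H0 (x 0) * x 1 ^ j * x 2 ^ k) 2 (volume.restrict Om) ∧
      (∀ (i : Fin 3) φ, IsTest Om φ →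
        ∫ x in Om, (H0 (x 0) * x 1 ^ j * x 2 ^ k) * dbar i φ x = 0) ∧
      ∫ x in Om, ‖F x - H0 (x 0) * x 1 ^ j * x 2 ^ k‖ ^ 2 ≤
        C * ∑ i, ∫ x in Om, ‖dbar i F x‖ ^ 2 ∧
      (n0 ≤ j ∨ n0 ≤ k → ∫ x in Om, ‖F x - H0 (x 0) * x 1 ^ j * x 2 ^ k‖ ^ 2 ≤
        ε * ∑ i, ∫ x in Om, ‖dbar i F x‖ ^ 2) ∧
      ∫ x in Om ∩ {x | N ≤ La (‖x 0‖ ^ 2)}, ‖F x - H0 (x 0) * x 1 ^ j * x 2 ^ k‖ ^ 2 ≤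
        ε * ∑ i, ∫ x in Om, ‖dbar i F x‖ ^ 2

end DbarC
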